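import Pool.Agent.H90.VK.GR

/-!
# AF : the boundary values of `Ag P - Ag N` as a function of bounded variation

For `P, N` finite on the circle with equal masses, let `p, n` be their images under `Complex.arg`
(finite measures on `ℝ` carried by `(-π, π]`), and `c₀ = -(1/2) ∫ arg ζ d(P - N)`.
For `θ ∈ (-π, π)`:
`Ag P (e^{iθ}) - Ag N (e^{iθ}) = c₀ - (π/2) [(p-n)(-∞,θ) + (p-n)(-∞,θ]]`.

Proof. For `ζ = e^{iφ}`, `φ = arg ζ ∈ (-π,π]`, `|θ-φ| < 2π` and
`arg (1 - e^{i(θ-φ)}) = (θ-φ)/2 - (π/2) sign(θ-φ)` (sign 0 = 0, arg 0 = 0):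
`1 - e^{iu} = 2 sin(u/2) · (-i) e^{iu/2} = 2 sin (u/2) e^{i(u/2 - π/2)}` for `0 < u < 2π`, argument
`u/2 - π/2 ∈ (-π/2, π/2)`; and `arg` is odd here (`u → -u` conjugates).
Integrate: `∫ (θ - φ)/2 d(P-N) = -(1/2)∫ φ d(P-N)` by equal masses, and
`∫ sign(θ-φ) d(p-n)(φ) = (p-n)(-∞,θ) - (p-n)(θ,∞) = (p-n)(-∞,θ) + (p-n)(-∞,θ]` since the total
mass of `p - n` is 0.
-/

open MeasureTheory Set Filter Topology Metric
open scoped Real ENNReal ComplexConjugate

namespace Pool.H90.VK

noncomputable section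

/-- `1 - e^{iu}` in polar form -/
lemma AF_polar (u : ℝ) : 1 - Complex.exp (u * Complex.I) =
    ((2 * Real.sin (u / 2) : ℝ) : ℂ) * Complex.exp (((u / 2 - π / 2 : ℝ) : ℂ) * Complex.I) := by
  apply Complex.ext
  · rw [Complex.re_ofReal_mul, Complex.exp_ofReal_mul_I_re, Complex.sub_re, Complex.one_re,
      Complex.exp_ofReal_mul_I_re, Real.cos_sub_pi_div_two]
    have h := Real.cos_two_mul (u / 2)
    rw [show 2 * (u / 2) = u by ring] at h
    have h2 := Real.sin_sq_add_cos_sq (u / 2)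
    rw [h]
    nlinarith
  · rw [Complex.im_ofReal_mul, Complex.exp_ofReal_mul_I_im, Complex.sub_im, Complex.one_im,
      Complex.exp_ofReal_mul_I_im, Real.sin_sub_pi_div_two]
    have h := Real.sin_two_mul (u / 2)
    rw [show 2 * (u / 2) = u by ring] at h
    rw [h]
    ring

lemma AF_arg_exp {α : ℝ} (h1 : -π < α) (h2 : α ≤ π) :
    Complex.arg (Complex.exp ((α : ℂ) * Complex.I)) = α := by
  rw [Complex.arg_exp_mul_I]
  exact (toIocMod_eq_self Real.two_pi_pos).2 ⟨h1, by linarith⟩

lemma AF_pos (u : ℝ) (h1 : 0 < u) (h2 : u < 2 * π) :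
    Complex.arg (1 - Complex.exp (u * Complex.I)) = u / 2 - π / 2 := by
  rw [AF_polar, Complex.arg_real_mul _ (by
    have := Real.sin_pos_of_pos_of_lt_pi (x := u / 2) (by linarith) (by linarith)
    linarith), AF_arg_exp (by linarith [Real.pi_pos]) (by linarith [Real.pi_pos])]

lemma AF_neg (u : ℝ) (h1 : -(2 * π) < u) (h2 : u < 0) :
    Complex.arg (1 - Complex.exp (u * Complex.I)) = u / 2 + π / 2 := by
  have e : 1 - Complex.exp (u * Complex.I) = ((2 * Real.sin (-u / 2) : ℝ) : ℂ) *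
      Complex.exp (((u / 2 + π / 2 : ℝ) : ℂ) * Complex.I) := by
    rw [AF_polar, show u / 2 + π / 2 = (u / 2 - π / 2) + π by ring, Complex.ofReal_add, add_mul,
      Complex.exp_add, Complex.exp_pi_mul_I, show -u / 2 = -(u / 2) by ring, Real.sin_neg]
    push_cast
    ring
  rw [e, Complex.arg_real_mul _ (by
    have := Real.sin_pos_of_pos_of_lt_pi (x := -u / 2) (by linarith) (by linarith)
    linarith), AF_arg_exp (by linarith [Real.pi_pos]) (by linarith [Real.pi_pos])]

theorem AF_arg (θ φ : ℝ) (hθ : θ ∈ Ioo (-π) π) (hφ : φ ∈ Ioc (-π) π) :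
    Complex.arg (1 - conj (Complex.exp (φ * Complex.I)) * Complex.exp (θ * Complex.I)) =
      (θ - φ) / 2 - π / 2 * SignType.sign (θ - φ) := by
  have e : conj (Complex.exp (φ * Complex.I)) * Complex.exp (θ * Complex.I) =
      Complex.exp (((θ - φ : ℝ) : ℂ) * Complex.I) := by
    rw [← Complex.exp_conj, ← Complex.exp_add]
    congr 1
    rw [map_mul, Complex.conj_ofReal, Complex.conj_I]
    push_cast
    ring
  rw [e]
  obtain ⟨hθ1, hθ2⟩ := hθ
  obtain ⟨hφ1, hφ2⟩ := hφ
  rcases lt_trichotomy (θ - φ) 0 with h | h | h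
  · rw [AF_neg _ (by linarith) h, sign_neg h]
    simp only [SignType.coe_neg_one]
    ring
  · rw [h]
    simp
  · rw [AF_pos _ h (by linarith), sign_pos h]
    simp only [SignType.coe_one]
    ring

/-- integrability of the sign -/
lemma AF_sign_int (p : Measure ℝ) [IsFiniteMeasure p] (θ : ℝ) :
    Integrable (fun φ : ℝ => ((SignType.sign (θ - φ) : SignType) : ℝ)) p ∧
    ∫ φ, ((SignType.sign (θ - φ) : SignType) : ℝ) ∂p =
      p.real (Iio θ) + p.real (Iic θ) - p.real univ := by
  have e : (fun φ : ℝ => ((SignType.sign (θ - φ) : SignType) : ℝ)) = fun φ =>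
      (Iio θ).indicator (fun _ => (1 : ℝ)) φ - (Ioi θ).indicator (fun _ => (1 : ℝ)) φ := by
    funext φ
    rcases lt_trichotomy φ θ with h | h | h
    · rw [sign_pos (sub_pos.2 h), indicator_of_mem (show φ ∈ Iio θ from h),
        indicator_of_notMem (show φ ∉ Ioi θ from fun h' => lt_asymm h h')]
      simp
    · rw [h, sub_self, sign_zero, indicator_of_notMem (show θ ∉ Iio θ from lt_irrefl θ),
        indicator_of_notMem (show θ ∉ Ioi θ from lt_irrefl θ)]
      simp
    · rw [sign_neg (sub_neg.2 h), indicator_of_mem (show φ ∈ Ioi θ from h),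
        indicator_of_notMem (show φ ∉ Iio θ from fun h' => lt_asymm h h')]
      simp
  have i1 : Integrable (fun φ => (Iio θ).indicator (fun _ => (1 : ℝ)) φ) p :=
    (integrable_const (1 : ℝ)).indicator measurableSet_Iio
  have i2 : Integrable (fun φ => (Ioi θ).indicator (fun _ => (1 : ℝ)) φ) p :=
    (integrable_const (1 : ℝ)).indicator measurableSet_Ioi
  rw [e]
  refine ⟨i1.sub i2, ?_⟩
  rw [integral_sub i1 i2]
  have e1 : ∫ φ, (Iio θ).indicator (fun _ => (1 : ℝ)) φ ∂p = p.real (Iio θ) :=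
    integral_indicator_one measurableSet_Iio
  have e2 : ∫ φ, (Ioi θ).indicator (fun _ => (1 : ℝ)) φ ∂p = p.real (Ioi θ) :=
    integral_indicator_one measurableSet_Ioi
  rw [e1, e2]
  have h := measureReal_compl (μ := p) (s := Iic θ) measurableSet_Iic
  rw [compl_Iic] at h
  rw [h]
  ring

lemma AF_exp_arg {ζ : ℂ} (hζ : ‖ζ‖ = 1) :
    Complex.exp (Complex.arg ζ * Complex.I) = ζ := by
  have h := Complex.norm_mul_exp_arg_mul_I ζ
  rw [hζ] at h
  simpa using h

/-- the formula for a single measure -/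
lemma AF_one (P : Measure ℂ) [IsFiniteMeasure P] (hP : OnCircle P) (θ : ℝ)
    (hθ : θ ∈ Ioo (-π) π) :
    Ag P (Complex.exp (θ * Complex.I)) = θ / 2 * P.real univ -
      (1 / 2) * (∫ ζ, Complex.arg ζ ∂P) - π / 2 * ((P.map Complex.arg).real (Iio θ) +
        (P.map Complex.arg).real (Iic θ) - P.real univ) := by
  have hm : (P.map Complex.arg).real univ = P.real univ := by
    unfold Measure.real
    rw [Measure.map_apply Complex.measurable_arg MeasurableSet.univ, preimage_univ]
  have hs := AF_sign_int (P.map Complex.arg) θ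
  have hs1 : Integrable (fun ζ : ℂ => ((SignType.sign (θ - Complex.arg ζ) : SignType) : ℝ)) P :=
    hs.1.comp_measurable Complex.measurable_arg
  have hs2 : ∫ ζ, ((SignType.sign (θ - Complex.arg ζ) : SignType) : ℝ) ∂P =
      (P.map Complex.arg).real (Iio θ) + (P.map Complex.arg).real (Iic θ) - P.real univ := by
    rw [← hm, ← hs.2, integral_map Complex.measurable_arg.aemeasurable hs.1.aestronglyMeasurable]
  have hai : Integrable (fun ζ : ℂ => Complex.arg ζ) P := by
    refine Integrable.of_bound Complex.measurable_arg.aestronglyMeasurable π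
      (Eventually.of_forall fun ζ => ?_)
    rw [Real.norm_eq_abs]
    exact Complex.abs_arg_le_pi ζ
  have hae : (fun ζ => Complex.arg (1 - conj ζ * Complex.exp (θ * Complex.I))) =ᵐ[P]
      fun ζ => (θ / 2 - (1 / 2) * Complex.arg ζ) -
        π / 2 * ((SignType.sign (θ - Complex.arg ζ) : SignType) : ℝ) := by
    filter_upwards [LA_ae_norm hP] with ζ hζ
    have h := AF_arg θ (Complex.arg ζ) hθ ⟨Complex.neg_pi_lt_arg ζ, Complex.arg_le_pi ζ⟩
    rw [AF_exp_arg hζ] at h
    rw [h]
    ring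
  rw [Ag, integral_congr_ae hae, integral_sub, integral_sub, integral_const_mul,
    integral_const_mul, hs2, integral_const, smul_eq_mul]
  · ring
  · exact integrable_const _
  · exact hai.const_mul _
  · exact (integrable_const _).sub (hai.const_mul _)
  · exact hs1.const_mul _

theorem AF (P N : Measure ℂ) [IsFiniteMeasure P] [IsFiniteMeasure N] (hP : OnCircle P)
    (hN : OnCircle N) (hm : P.real univ = N.real univ) (θ : ℝ) (hθ : θ ∈ Ioo (-π) π) :
    Ag P (Complex.exp (θ * Complex.I)) - Ag N (Complex.exp (θ * Complex.I)) =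
      -(1 / 2) * ((∫ ζ, Complex.arg ζ ∂P) - ∫ ζ, Complex.arg ζ ∂N)
        - π / 2 * (((P.map Complex.arg).real (Iio θ) - (N.map Complex.arg).real (Iio θ)) +
            ((P.map Complex.arg).real (Iic θ) - (N.map Complex.arg).real (Iic θ))) := by
  rw [AF_one P hP θ hθ, AF_one N hN θ hθ, hm]
  ring

lemma AF_int (φ c a b : ℝ) : ∫ θ in a..b, ((θ - φ) / 2 + c) =
    ((b - φ) ^ 2 - (a - φ) ^ 2) / 4 + c * (b - a) := by
  have h : ∀ x ∈ uIcc a b, HasDerivAt (fun θ : ℝ => (θ - φ) ^ 2 / 4 + c * θ)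
      ((x - φ) / 2 + c) x := by
    intro x _
    have h1 : HasDerivAt (fun θ : ℝ => θ - φ) 1 x := (hasDerivAt_id x).sub_const φ
    have h2 := ((h1.pow 2).div_const 4).add ((hasDerivAt_id x).const_mul c)
    have e : (x - φ) / 2 + c =
        ((2 : ℕ) : ℝ) * (x - φ) ^ (2 - 1) * 1 / 4 + c * 1 := by norm_num; ring
    rw [e]
    exact h2
  rw [intervalIntegral.integral_eq_sub_of_hasDerivAt h
    (Continuous.intervalIntegrable (by fun_prop) a b)]
  ring

/-- the mean over the circle of the argument for one point mass -/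
lemma AF_mean1 {ζ : ℂ} (hζ : ‖ζ‖ = 1) :
    ∫ θ in (-π : ℝ)..π, Complex.arg (1 - conj ζ * Complex.exp (θ * Complex.I)) = 0 := by
  set φ := Complex.arg ζ with hφ
  have hφ1 : -π < φ := Complex.neg_pi_lt_arg ζ
  have hφ2 : φ ≤ π := Complex.arg_le_pi ζ
  have key : ∀ θ : ℝ, θ ∈ Ioo (-π) π →
      Complex.arg (1 - conj ζ * Complex.exp (θ * Complex.I)) =
        (θ - φ) / 2 - π / 2 * SignType.sign (θ - φ) := by
    intro θ hθ
    have h := AF_arg θ φ hθ ⟨hφ1, hφ2⟩
    rw [hφ, AF_exp_arg hζ] at h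
    exact h
  have h1 : ∫ θ in (-π : ℝ)..φ, Complex.arg (1 - conj ζ * Complex.exp (θ * Complex.I)) =
      ∫ θ in (-π : ℝ)..φ, ((θ - φ) / 2 + π / 2) := by
    rw [intervalIntegral.integral_of_le hφ1.le, intervalIntegral.integral_of_le hφ1.le,
      integral_Ioc_eq_integral_Ioo, integral_Ioc_eq_integral_Ioo]
    refine setIntegral_congr_fun measurableSet_Ioo fun θ hθ => ?_
    rw [key θ ⟨hθ.1, hθ.2.trans_le hφ2⟩, sign_neg (sub_neg.2 hθ.2)]
    simp only [SignType.coe_neg_one]
    ring
  have h2 : ∫ θ in φ..π, Complex.arg (1 - conj ζ * Complex.exp (θ * Complex.I)) =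
      ∫ θ in φ..π, ((θ - φ) / 2 + -(π / 2)) := by
    rw [intervalIntegral.integral_of_le hφ2, intervalIntegral.integral_of_le hφ2,
      integral_Ioc_eq_integral_Ioo, integral_Ioc_eq_integral_Ioo]
    refine setIntegral_congr_fun measurableSet_Ioo fun θ hθ => ?_
    rw [key θ ⟨hφ1.trans hθ.1, hθ.2⟩, sign_pos (sub_pos.2 hθ.1)]
    simp only [SignType.coe_one]
    ring
  have hi : ∀ a b : ℝ, IntervalIntegrable
      (fun θ : ℝ => Complex.arg (1 - conj ζ * Complex.exp (θ * Complex.I))) volume a b := by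
    intro a b
    have hm : Measurable (fun θ : ℝ => Complex.arg (1 - conj ζ * Complex.exp (θ * Complex.I))) :=
      Complex.measurable_arg.comp (by fun_prop)
    refine (intervalIntegrable_const (c := π)).mono_fun hm.aestronglyMeasurable.restrict
      (Eventually.of_forall fun θ => ?_)
    change ‖Complex.arg _‖ ≤ ‖π‖
    rw [Real.norm_eq_abs, Real.norm_eq_abs, abs_of_pos Real.pi_pos]
    exact Complex.abs_arg_le_pi _
  rw [← intervalIntegral.integral_add_adjacent_intervals (hi (-π) φ) (hi φ π), h1, h2, AF_int,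
    AF_int]
  ring

/-- integral zero over the circle -/
theorem AF_mean (P : Measure ℂ) [IsFiniteMeasure P] (hP : OnCircle P) :
    ∫ θ in (-π : ℝ)..π, Ag P (Complex.exp (θ * Complex.I)) = 0 := by
  have hm : Measurable (Function.uncurry fun (θ : ℝ) (ζ : ℂ) =>
      Complex.arg (1 - conj ζ * Complex.exp (θ * Complex.I))) := by
    refine Complex.measurable_arg.comp ?_
    have h1 : Measurable fun q : ℝ × ℂ => conj q.2 :=
      Complex.continuous_conj.measurable.comp measurable_snd
    have h2 : Measurable fun q : ℝ × ℂ => Complex.exp (q.1 * Complex.I) := by fun_prop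
    exact measurable_const.sub (h1.mul h2)
  have hi : Integrable (Function.uncurry fun (θ : ℝ) (ζ : ℂ) =>
      Complex.arg (1 - conj ζ * Complex.exp (θ * Complex.I)))
      ((volume.restrict (Ioc (-π) π)).prod P) := by
    refine Integrable.of_bound hm.aestronglyMeasurable π (Eventually.of_forall fun q => ?_)
    rw [Real.norm_eq_abs]
    exact Complex.abs_arg_le_pi _
  rw [intervalIntegral.integral_of_le (by linarith [Real.pi_pos])]
  unfold Ag
  rw [integral_integral_swap hi]
  have h0 : (fun ζ : ℂ => ∫ θ in Ioc (-π) π,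
      Complex.arg (1 - conj ζ * Complex.exp ((θ : ℝ) * Complex.I))) =ᵐ[P] fun _ => (0 : ℝ) := by
    filter_upwards [LA_ae_norm hP] with ζ hζ
    rw [← intervalIntegral.integral_of_le (by linarith [Real.pi_pos])]
    exact AF_mean1 hζ
  rw [integral_congr_ae h0, integral_zero]

end

end Pool.H90.VK
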