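import Pool.Agent.H90.VK.KA

/-!
# ARC : arc length measure

`arcLen` is the push-forward of Lebesgue measure on `(-π, π]` under `θ ↦ e^{iθ}`: finite, carried by the
circle, total mass `2π`, no atoms. `∫ G d arcLen = ∫_{-π}^{π} G(e^{iθ}) dθ` (`integral_map`).
`FMA_Kg_arcLen`: `∫_{-π}^{π} (e^{iθ}+z)/(e^{iθ}-z) dθ = 2π`: expand
`(ζ+z)/(ζ-z) = 1 + 2 Σ_{n≥1} (z conj ζ)^n` (uniformly convergent) or Cauchy's formula
`∮ 2/(ζ - z) dζ - ∮ dζ/ζ` (circle integrals, `circleIntegral.integral_sub_inv_of_mem_ball`), or the mean value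
property (`KA_mean0'`) applied to `a(u) = (1 + u conj z)/(1 - u conj z)` and a conjugation.
-/

open MeasureTheory Set Filter Topology Metric
open scoped Real ENNReal ComplexConjugate

namespace Pool.H90.VK

noncomputable section

theorem ARC_meas : Measurable (fun θ : ℝ => Complex.exp (θ * Complex.I)) := by
  have h : Continuous (fun θ : ℝ => Complex.exp (θ * Complex.I)) := by fun_prop
  exact h.measurable

theorem arcLen_finite : IsFiniteMeasure arcLen := by
  unfold arcLen
  haveI : IsFiniteMeasure ((volume : Measure ℝ).restrict (Ioc (-π) π)) := by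
    refine ⟨?_⟩
    rw [Measure.restrict_apply_univ, Real.volume_Ioc]
    exact ENNReal.ofReal_lt_top
  exact Measure.isFiniteMeasure_map _ _

theorem arcLen_apply (B : Set ℂ) (hB : MeasurableSet B) :
    arcLen B = volume ((fun θ : ℝ => Complex.exp (θ * Complex.I)) ⁻¹' B ∩ Ioc (-π) π) := by
  unfold arcLen
  rw [Measure.map_apply ARC_meas hB, Measure.restrict_apply (ARC_meas hB)]

theorem arcLen_circ : OnCircle arcLen := by
  unfold OnCircle
  rw [arcLen_apply _ isClosed_sphere.measurableSet.compl]
  have h : (fun θ : ℝ => Complex.exp (θ * Complex.I)) ⁻¹' (sphere (0 : ℂ) 1)ᶜ = ∅ := by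
    ext θ
    simp [Complex.norm_exp_ofReal_mul_I]
  rw [h]
  simp

theorem arcLen_integral (G : ℂ → ℂ) (hG : Measurable G) :
    ∫ ζ, G ζ ∂arcLen = ∫ θ in (-π : ℝ)..π, G (Complex.exp (θ * Complex.I)) := by
  unfold arcLen
  rw [integral_map ARC_meas.aemeasurable hG.aestronglyMeasurable,
    intervalIntegral.integral_of_le (by linarith [Real.pi_pos])]

theorem arcLen_singleton (x : ℂ) : arcLen {x} = 0 := by
  rw [arcLen_apply _ (measurableSet_singleton x)]
  apply Set.Subsingleton.measure_zero
  intro a ha b hb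
  simp only [mem_inter_iff, mem_preimage, mem_singleton_iff, mem_Ioc] at ha hb
  have h := ha.1.trans hb.1.symm
  have h1 := congrArg Complex.arg h
  rwa [Complex.arg_exp_mul_I, Complex.arg_exp_mul_I, (toIocMod_eq_self _).2, (toIocMod_eq_self _).2]
    at h1
  · constructor <;> linarith [hb.2.1, hb.2.2]
  · constructor <;> linarith [ha.2.1, ha.2.2]

/-- the Poisson integral of arc length is 1, i.e. `Kg arcLen = 2π` -/
theorem FMA_Kg_arcLen {z : ℂ} (hz : ‖z‖ < 1) : Kg arcLen z = 2 * π := by
  unfold Kg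
  have hm : Measurable (fun ζ : ℂ => (ζ + z) / (ζ - z)) := by fun_prop
  rw [arcLen_integral _ hm]
  -- circle integrals
  have h1 : (∮ ζ in C(0, 1), (ζ - z)⁻¹) = 2 * π * Complex.I :=
    circleIntegral.integral_sub_inv_of_mem_ball (by simpa using hz)
  have h2 : (∮ ζ in C(0, 1), (ζ - 0)⁻¹) = 2 * π * Complex.I :=
    circleIntegral.integral_sub_inv_of_mem_ball (by simp)
  have hper : Function.Periodic
      (fun θ : ℝ => (Complex.exp (θ * Complex.I) + z) / (Complex.exp (θ * Complex.I) - z)) (2 * π) := by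
    intro θ
    have : Complex.exp (((θ + 2 * π : ℝ) : ℂ) * Complex.I) = Complex.exp (θ * Complex.I) := by
      push_cast
      rw [add_mul, Complex.exp_add, Complex.exp_two_pi_mul_I, mul_one]
    simp only [this]
  have hshift := hper.intervalIntegral_add_eq (-π) 0
  have e1 : -π + 2 * π = π := by ring
  rw [e1, zero_add] at hshift
  rw [hshift]
  have hne : ∀ θ : ℝ, Complex.exp (θ * Complex.I) - z ≠ 0 := by
    intro θ h0
    have : Complex.exp (θ * Complex.I) = z := sub_eq_zero.1 h0
    have h3 : ‖z‖ = 1 := by rw [← this, Complex.norm_exp_ofReal_mul_I]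
    linarith
  unfold circleIntegral at h1 h2
  have hc1 : Continuous (fun θ : ℝ => deriv (circleMap (0:ℂ) 1) θ • (circleMap 0 1 θ - z)⁻¹) := by
    simp only [deriv_circleMap, smul_eq_mul]
    refine Continuous.mul (by fun_prop) (Continuous.inv₀ (by fun_prop) ?_)
    intro θ
    have := hne θ
    simpa [circleMap] using this
  have hc2 : Continuous (fun θ : ℝ => deriv (circleMap (0:ℂ) 1) θ • (circleMap 0 1 θ - 0)⁻¹) := by
    simp only [deriv_circleMap, smul_eq_mul]
    refine Continuous.mul (by fun_prop) (Continuous.inv₀ (by fun_prop) ?_)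
    intro θ
    simp [circleMap]
  have hI : ∀ θ : ℝ, (Complex.exp (θ * Complex.I) + z) / (Complex.exp (θ * Complex.I) - z)
      = -Complex.I * (2 * (deriv (circleMap (0:ℂ) 1) θ • (circleMap 0 1 θ - z)⁻¹)
        - deriv (circleMap (0:ℂ) 1) θ • (circleMap 0 1 θ - 0)⁻¹) := by
    intro θ
    have h3 := hne θ
    have h4 : Complex.exp (θ * Complex.I) ≠ 0 := Complex.exp_ne_zero _
    simp only [deriv_circleMap, smul_eq_mul, circleMap, Complex.ofReal_one, one_mul, zero_add, sub_zero]
    field_simp
    ring_nf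
    rw [Complex.I_sq]
    ring
  calc ∫ θ in (0:ℝ)..2 * π, (Complex.exp (θ * Complex.I) + z) / (Complex.exp (θ * Complex.I) - z)
      = ∫ θ in (0:ℝ)..2 * π, -Complex.I * (2 * (deriv (circleMap (0:ℂ) 1) θ • (circleMap 0 1 θ - z)⁻¹)
        - deriv (circleMap (0:ℂ) 1) θ • (circleMap 0 1 θ - 0)⁻¹) := by
        apply intervalIntegral.integral_congr
        intro θ _
        exact hI θ
    _ = -Complex.I * (2 * (2 * π * Complex.I) - 2 * π * Complex.I) := by
        rw [intervalIntegral.integral_const_mul, intervalIntegral.integral_sub,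
          intervalIntegral.integral_const_mul, h1, h2]
        · exact (hc1.const_smul (2:ℂ)).intervalIntegrable _ _
        · exact hc2.intervalIntegrable _ _
    _ = 2 * π := by
        have : -Complex.I * (2 * (2 * π * Complex.I) - 2 * π * Complex.I)
            = -(Complex.I ^ 2) * (2 * π) := by ring
        rw [this, Complex.I_sq]; ring

end

end Pool.H90.VK
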