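import Pool.Agent.H90.VK.ZD

/-!
# ZA : L² boundary values of a Schwarz integral

Let `g : ℝ → ℝ` be measurable and bounded by `M`. Then `X = Sg g` is analytic on the disc and there is a
measurable `x : ℝ → ℂ`, square integrable on `(-π, π]`, with
`∫_{-π}^{π} |X(r e^{iθ}) - x(θ)| dθ → 0` as `r → 1-`, and `Re x = g` a.e. on `(-π, π]`.

Proof. `(e^{it}+z)/(e^{it}-z) = 1 + 2 Σ_{n≥1} z^n e^{-int}` (`|z| < 1`), so `X(z) = Σ a_n z^n` with
`a_0 = ĝ(0)`, `a_n = 2 ĝ(n)`, `ĝ(n) = (1/2π)∫_{-π}^{π} g(t) e^{-int} dt`. By Bessel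
`Σ |a_n|² ≤ 4 (1/2π) ∫ g² < ∞` (Mathlib: `fourierCoeffOn`, `tsum_sq_fourierCoeff`,
`AddCircle`, `hasSum_fourier_series_L2`; or Bessel's inequality for the orthonormal family
`e^{inθ}/√(2π)` in `L²(volume.restrict (Ioc (-π) π))`).
So `Σ a_n e^{inθ}` converges in `L²(-π, π]` to some `x`, and by Parseval
`∫ |X(re^{iθ}) - x|² dθ = 2π Σ |a_n|² (1-r^n)² → 0` (dominated convergence for series); by
Cauchy–Schwarz also in `L¹`.
(Alternative: the functions `X(r_m e^{iθ})` form a Cauchy sequence in `L²`: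
`‖X_r - X_s‖² = 2π Σ |a_n|² (r^n - s^n)²`; completeness.)
`Re x = g` a.e.: `Re X(re^{iθ})` is the Poisson integral of `g`; its Fourier coefficients are
`r^{|n|} ĝ(n)`, so `Re x` and `g` are in `L²` and have the same Fourier coefficients
(`Re x` has coefficients `lim r^{|n|} ĝ(n) = ĝ(n)`); uniqueness of Fourier coefficients in `L²`.
(Or: the Poisson integral of a continuous `2π`-periodic function converges uniformly, and the Poisson
integral is a contraction of `L¹`; approximate `g` in `L¹` by continuous functions.)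
-/

open MeasureTheory Set Filter Topology Metric
open scoped Real ENNReal ComplexConjugate

namespace Pool.H90.VK

noncomputable section

/-- Fourier coefficients of `g` on `(-π, π]` -/
def ZA_c (g : ℝ → ℝ) (n : ℤ) : ℂ :=
  (1 / (2 * π)) * ∫ t in (-π : ℝ)..π, (g t : ℂ) * Complex.exp (-(n * t * Complex.I))

/-- the factor `1` for `n = 0` and `2` for `n > 0` -/
def ZA_k (n : ℕ) : ℂ := if n = 0 then 1 else 2

theorem ZA_k_norm (n : ℕ) : ‖ZA_k n‖ ≤ 2 := by
  unfold ZA_k
  split_ifs <;> simp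

theorem ZA_kernel {z w : ℂ} (hw : ‖w‖ = 1) (hz : ‖z‖ < 1) :
    HasSum (fun n : ℕ => ZA_k n * (z / w) ^ n) ((w + z) / (w - z)) := by
  have hw0 : w ≠ 0 := by rintro rfl; simp at hw
  have hzw : ‖z / w‖ < 1 := by rw [norm_div, hw, div_one]; exact hz
  have hne : w - z ≠ 0 := by
    intro h
    rw [sub_eq_zero] at h
    rw [← h, hw] at hz
    exact lt_irrefl _ hz
  have h1 := ((hasSum_geometric_of_norm_lt_one hzw).mul_left 2).sub
    (hasSum_ite_eq (0 : ℕ) (1 : ℂ))
  have e : 2 * (1 - z / w)⁻¹ - 1 = (w + z) / (w - z) := by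
    have : 1 - z / w = (w - z) / w := by field_simp
    rw [this, inv_div, eq_div_iff hne]
    have h2 : w / (w - z) * (w - z) = w := div_mul_cancel₀ _ hne
    linear_combination 2 * h2
  rw [e] at h1
  refine h1.congr_fun fun n => ?_
  unfold ZA_k
  split_ifs with h
  · rw [h]; norm_num
  · ring

theorem ZA_norm_exp (t : ℝ) : ‖Complex.exp (t * Complex.I)‖ = 1 := Complex.norm_exp_ofReal_mul_I t

theorem ZA_powser (g : ℝ → ℝ) (hg : Measurable g) (M : ℝ) (hM : ∀ t, |g t| ≤ M) {z : ℂ}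
    (hz : ‖z‖ < 1) :
    HasSum (fun n : ℕ => ZA_k n * ZA_c g n * z ^ n) (Sg g z) := by
  have key : HasSum (fun n : ℕ => ∫ t in (-π : ℝ)..π, (g t : ℂ) *
      (ZA_k n * (z / Complex.exp (t * Complex.I)) ^ n))
      (∫ t in (-π : ℝ)..π, (g t : ℂ) *
        ((Complex.exp (t * Complex.I) + z) / (Complex.exp (t * Complex.I) - z))) := by
    refine intervalIntegral.hasSum_integral_of_dominated_convergence
      (fun n _ => M * (2 * ‖z‖ ^ n)) ?_ ?_ ?_ ?_ ?_
    · intro n
      apply Measurable.aestronglyMeasurable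
      fun_prop
    · intro n
      refine Eventually.of_forall fun t _ => ?_
      rw [norm_mul, norm_mul, norm_pow, norm_div, ZA_norm_exp, div_one, Complex.norm_real]
      exact mul_le_mul (hM t) (mul_le_mul_of_nonneg_right (ZA_k_norm n) (by positivity))
        (by positivity) ((abs_nonneg _).trans (hM t))
    · refine Eventually.of_forall fun t _ => ?_
      exact ((summable_geometric_of_lt_one (norm_nonneg _) hz).mul_left 2).mul_left M
    · exact intervalIntegrable_const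
    · refine Eventually.of_forall fun t _ => ?_
      exact (ZA_kernel (ZA_norm_exp t) hz).mul_left _
  have h2 := key.mul_left ((1 / (2 * π)) : ℂ)
  refine h2.congr_fun fun n => ?_
  unfold ZA_c
  have e : ∀ t : ℝ, (g t : ℂ) * (ZA_k n * (z / Complex.exp (t * Complex.I)) ^ n) =
      (ZA_k n * z ^ n) * ((g t : ℂ) * Complex.exp (-((n : ℤ) * t * Complex.I))) := by
    intro t
    rw [div_pow, ← Complex.exp_nat_mul, Complex.exp_neg, div_eq_mul_inv]
    rw [show ((n : ℤ) : ℂ) * t * Complex.I = (n : ℂ) * (t * Complex.I) by push_cast; ring]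
    ring
  simp_rw [e]
  rw [intervalIntegral.integral_const_mul]
  ring

theorem ZA_c_norm (g : ℝ → ℝ) (M : ℝ) (hM : ∀ t, |g t| ≤ M) (n : ℤ) : ‖ZA_c g n‖ ≤ M := by
  unfold ZA_c
  have h := intervalIntegral.norm_integral_le_of_norm_le_const (a := -π) (b := π) (C := M)
    (f := fun t : ℝ => (g t : ℂ) * Complex.exp (-(n * t * Complex.I))) (by
      intro t _
      have : Complex.exp (-(n * t * Complex.I)) = Complex.exp (((-(n * t) : ℝ) : ℂ) * Complex.I) := by
        congr 1; push_cast; ring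
      rw [norm_mul, this, ZA_norm_exp, mul_one, Complex.norm_real]
      exact hM t)
  rw [norm_mul]
  have h1 : ‖(1 / (2 * π) : ℂ)‖ = 1 / (2 * π) := by
    rw [show (1 / (2 * π) : ℂ) = ((1 / (2 * π) : ℝ) : ℂ) by push_cast; ring, Complex.norm_real,
      Real.norm_of_nonneg (by positivity)]
  rw [h1]
  have h2 : |π - -π| = 2 * π := by rw [abs_of_pos (by linarith [Real.pi_pos])]; ring
  rw [h2] at h
  calc 1 / (2 * π) * _ ≤ 1 / (2 * π) * (M * (2 * π)) :=
        mul_le_mul_of_nonneg_left h (by positivity)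
    _ = M := by field_simp

theorem ZA_y_norm (g : ℝ → ℝ) (M : ℝ) (hM : ∀ t, |g t| ≤ M) (n : ℕ) :
    ‖ZA_k n * ZA_c g n‖ ≤ 2 * M := by
  rw [norm_mul]
  exact mul_le_mul (ZA_k_norm n) (ZA_c_norm g M hM n) (norm_nonneg _) (by norm_num)

theorem ZA_diff (g : ℝ → ℝ) (hg : Measurable g) (M : ℝ) (hM : ∀ t, |g t| ≤ M) :
    DifferentiableOn ℂ (Sg g) (ball (0 : ℂ) 1) := by
  intro z0 hz0
  rw [mem_ball_zero_iff] at hz0
  obtain ⟨ρ, hρ1, hρ2⟩ := exists_between hz0
  have hρ0 : 0 ≤ ρ := (norm_nonneg _).trans hρ1.le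
  have h1 : DifferentiableOn ℂ (fun w : ℂ => ∑' n : ℕ, ZA_k n * ZA_c g n * w ^ n)
      (ball (0 : ℂ) ρ) := by
    refine Complex.differentiableOn_tsum_of_summable_norm
      (u := fun n => 2 * M * ρ ^ n) ((summable_geometric_of_lt_one hρ0 hρ2).mul_left _) ?_
      isOpen_ball ?_
    · intro n
      exact ((differentiable_id.pow n).const_mul _).differentiableOn
    · intro n w hw
      rw [mem_ball_zero_iff] at hw
      rw [norm_mul, norm_pow]
      exact mul_le_mul (ZA_y_norm g M hM n) (pow_le_pow_left₀ (norm_nonneg _) hw.le _)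
        (by positivity) (by
          have := (abs_nonneg _).trans (hM 0)
          linarith)
  have h2 : DifferentiableAt ℂ (fun w : ℂ => ∑' n : ℕ, ZA_k n * ZA_c g n * w ^ n) z0 :=
    h1.differentiableAt (isOpen_ball.mem_nhds (by rw [mem_ball_zero_iff]; exact hρ1))
  refine (h2.congr_of_eventuallyEq ?_).differentiableWithinAt
  filter_upwards [isOpen_ball.mem_nhds (show z0 ∈ ball (0 : ℂ) 1 by
    rw [mem_ball_zero_iff]; exact hz0)] with w hw
  rw [mem_ball_zero_iff] at hw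
  exact (ZA_powser g hg M hM hw).tsum_eq.symm

theorem ZA_one {z : ℂ} (hz : ‖z‖ < 1) : Sg (fun _ => 1) z = 1 := by
  have h1 := ZA_powser (fun _ => 1) measurable_const 1 (fun t => by simp) hz
  have hc : ∀ n : ℕ, n ≠ 0 → ZA_c (fun _ => 1) n = 0 := by
    intro n hn
    unfold ZA_c
    have hne : (-(n : ℂ) * Complex.I) ≠ 0 :=
      mul_ne_zero (neg_ne_zero.2 (Nat.cast_ne_zero.2 hn)) Complex.I_ne_zero
    have e : ∀ t : ℝ, (((1 : ℝ) : ℂ)) * Complex.exp (-((n : ℤ) * t * Complex.I)) =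
        Complex.exp ((-(n : ℂ) * Complex.I) * t) := by
      intro t
      rw [Complex.ofReal_one, one_mul]
      congr 1
      push_cast
      ring
    simp_rw [e]
    rw [integral_exp_mul_complex hne]
    have e2 : Complex.exp (-(n : ℂ) * Complex.I * ((-π : ℝ) : ℂ)) =
        Complex.exp (-(n : ℂ) * Complex.I * ((π : ℝ) : ℂ)) := by
      rw [Complex.exp_eq_exp_iff_exists_int]
      refine ⟨n, ?_⟩
      push_cast
      ring
    rw [e2, sub_self, zero_div, mul_zero]
  have h0 : ZA_c (fun _ => 1) 0 = 1 := by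
    unfold ZA_c
    have : ∀ t : ℝ, (((1 : ℝ) : ℂ)) * Complex.exp (-(((0 : ℤ) : ℂ) * t * Complex.I)) = 1 := by
      intro t
      simp
    simp_rw [this]
    rw [intervalIntegral.integral_const]
    have hπ : (π : ℂ) ≠ 0 := Complex.ofReal_ne_zero.2 Real.pi_ne_zero
    rw [Complex.real_smul]
    push_cast
    field_simp
    ring
  have h2 : HasSum (fun n : ℕ => ZA_k n * ZA_c (fun _ => 1) n * z ^ n) (1 : ℂ) := by
    have h3 := hasSum_single (f := fun n : ℕ => ZA_k n * ZA_c (fun _ => 1) n * z ^ n) 0 (by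
      intro n hn
      show ZA_k n * ZA_c (fun _ => 1) n * z ^ n = 0
      rw [hc n hn]; ring)
    have h4 : ZA_k 0 * ZA_c (fun _ => 1) (0 : ℕ) * z ^ 0 = 1 := by
      rw [Nat.cast_zero, h0]; simp [ZA_k]
    rw [h4] at h3
    exact h3
  exact h1.unique h2

theorem ZA_cont {z : ℂ} (hz : ‖z‖ < 1) :
    Continuous fun t : ℝ => (Complex.exp (t * Complex.I) + z) / (Complex.exp (t * Complex.I) - z) := by
  apply Continuous.div (by fun_prop) (by fun_prop)
  intro t h
  rw [sub_eq_zero] at h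
  rw [← h, ZA_norm_exp] at hz
  exact lt_irrefl _ hz

theorem ZA_int {g : ℝ → ℝ} (hg : Measurable g) (M : ℝ) (hM : ∀ t, |g t| ≤ M) {z : ℂ}
    (hz : ‖z‖ < 1) : IntervalIntegrable (fun t : ℝ => (g t : ℂ) *
      ((Complex.exp (t * Complex.I) + z) / (Complex.exp (t * Complex.I) - z))) volume (-π) π := by
  have h1 := (ZA_cont hz).intervalIntegrable (μ := volume) (-π) π
  rw [intervalIntegrable_iff] at h1 ⊢
  refine Integrable.bdd_mul (c := M) h1 (by fun_prop) ?_
  refine Eventually.of_forall fun t => ?_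
  rw [Complex.norm_real]
  exact hM t

/-- the Poisson kernel -/
def ZA_P (z : ℂ) (t : ℝ) : ℝ :=
  ((Complex.exp (t * Complex.I) + z) / (Complex.exp (t * Complex.I) - z)).re

theorem ZA_P_nonneg {z : ℂ} (hz : ‖z‖ < 1) (t : ℝ) : 0 ≤ ZA_P z t := by
  unfold ZA_P
  obtain ⟨w, hw⟩ : ∃ w, w = Complex.exp (t * Complex.I) := ⟨_, rfl⟩
  have hw1 : ‖w‖ = 1 := by rw [hw]; exact ZA_norm_exp t
  rw [← hw, Complex.div_re]
  have h1 : Complex.normSq w = 1 := by rw [Complex.normSq_eq_norm_sq, hw1]; norm_num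
  have h2 : Complex.normSq z ≤ 1 := by
    rw [Complex.normSq_eq_norm_sq]
    exact pow_le_one₀ (norm_nonneg _) hz.le
  rw [← add_div]
  apply div_nonneg _ (Complex.normSq_nonneg _)
  rw [Complex.normSq_apply] at h1 h2
  simp only [Complex.add_re, Complex.sub_re, Complex.add_im, Complex.sub_im]
  nlinarith

theorem ZA_re {g : ℝ → ℝ} (hg : Measurable g) (M : ℝ) (hM : ∀ t, |g t| ≤ M) {z : ℂ}
    (hz : ‖z‖ < 1) : (Sg g z).re = 1 / (2 * π) * ∫ t in (-π : ℝ)..π, g t * ZA_P z t := by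
  have h1 := intervalIntegral.intervalIntegral_re (𝕜 := ℂ) (ZA_int hg M hM hz)
  unfold Sg
  rw [show (1 / (2 * π) : ℂ) = ((1 / (2 * π) : ℝ) : ℂ) by push_cast; ring, Complex.re_ofReal_mul]
  congr 1
  refine Eq.trans ?_ (Eq.trans h1.symm ?_)
  · rfl
  · refine intervalIntegral.integral_congr fun t _ => ?_
    show ((g t : ℂ) * _).re = _
    rw [Complex.re_ofReal_mul]
    rfl

/-- real part = Poisson integral, bounded by the bounds of `g` -/
theorem ZA_re_bound (g : ℝ → ℝ) (hg : Measurable g) (a b : ℝ) (ha : ∀ t, a ≤ g t)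
    (hb : ∀ t, g t ≤ b) {z : ℂ} (hz : ‖z‖ < 1) : a ≤ (Sg g z).re ∧ (Sg g z).re ≤ b := by
  have hM : ∀ t, |g t| ≤ max |a| |b| := fun t => abs_le_max_abs_abs (ha t) (hb t)
  have hP : Continuous (ZA_P z) := Complex.continuous_re.comp (ZA_cont hz)
  have hPi : ∀ c : ℝ, IntervalIntegrable (fun t => c * ZA_P z t) volume (-π) π := fun c =>
    (continuous_const.mul hP).intervalIntegrable _ _
  have hgP : IntervalIntegrable (fun t => g t * ZA_P z t) volume (-π) π := by
    have h1 := hP.intervalIntegrable (μ := volume) (-π) π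
    rw [intervalIntegrable_iff] at h1 ⊢
    refine Integrable.bdd_mul (c := max |a| |b|) h1 hg.aestronglyMeasurable ?_
    exact Eventually.of_forall hM
  have h1 : 1 / (2 * π) * ∫ t in (-π : ℝ)..π, ZA_P z t = 1 := by
    have := ZA_re (g := fun _ => 1) measurable_const 1 (fun t => by simp) hz
    rw [ZA_one hz] at this
    simp only [one_mul, Complex.one_re] at this
    exact this.symm
  have hπ : 0 < 1 / (2 * π) := by positivity
  have hle : -π ≤ π := by linarith [Real.pi_pos]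
  rw [ZA_re hg _ hM hz]
  constructor
  · have h2 : ∫ t in (-π : ℝ)..π, a * ZA_P z t ≤ ∫ t in (-π : ℝ)..π, g t * ZA_P z t :=
      intervalIntegral.integral_mono_on hle (hPi a) hgP fun t _ =>
        mul_le_mul_of_nonneg_right (ha t) (ZA_P_nonneg hz t)
    rw [intervalIntegral.integral_const_mul] at h2
    have h3 := mul_le_mul_of_nonneg_left h2 hπ.le
    calc a = a * (1 / (2 * π) * ∫ t in (-π : ℝ)..π, ZA_P z t) := by rw [h1, mul_one]
      _ = 1 / (2 * π) * (a * ∫ t in (-π : ℝ)..π, ZA_P z t) := by ring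
      _ ≤ _ := h3
  · have h2 : ∫ t in (-π : ℝ)..π, g t * ZA_P z t ≤ ∫ t in (-π : ℝ)..π, b * ZA_P z t :=
      intervalIntegral.integral_mono_on hle hgP (hPi b) fun t _ =>
        mul_le_mul_of_nonneg_right (hb t) (ZA_P_nonneg hz t)
    rw [intervalIntegral.integral_const_mul] at h2
    have h3 := mul_le_mul_of_nonneg_left h2 hπ.le
    calc _ ≤ _ := h3
      _ = b * (1 / (2 * π) * ∫ t in (-π : ℝ)..π, ZA_P z t) := by ring
      _ = b := by rw [h1, mul_one]

/-! ### `L²` theory -/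

theorem ZA_pos : 0 < 2 * π := by positivity

local instance ZA_fact : Fact (0 < 2 * π) := ⟨ZA_pos⟩

/-- `g` on the circle `ℝ / 2πℤ` -/
def ZA_G (g : ℝ → ℝ) : AddCircle (2 * π) → ℂ :=
  AddCircle.liftIoc (2 * π) (-π) (fun t => (g t : ℂ))

theorem ZA_end : -π + 2 * π = π := by ring

theorem ZA_G_apply (g : ℝ → ℝ) {t : ℝ} (ht : t ∈ Ioc (-π) π) : ZA_G g (t : AddCircle (2 * π)) = g t := by
  unfold ZA_G
  rw [AddCircle.liftIoc_coe_apply]
  rw [ZA_end]
  exact ht

theorem ZA_G_memLp (g : ℝ → ℝ) (hg : Measurable g) (M : ℝ) (hM : ∀ t, |g t| ≤ M) :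
    MemLp (ZA_G g) 2 (AddCircle.haarAddCircle (T := 2 * π)) := by
  refine MemLp.haarAddCircle (MemLp.memLp_liftIoc ?_)
  refine MemLp.of_bound (Measurable.aestronglyMeasurable (by fun_prop)) M
    (Eventually.of_forall fun t => ?_)
  rw [Complex.norm_real]
  exact hM t

theorem ZA_fourier (n : ℤ) (t : ℝ) :
    fourier n (t : AddCircle (2 * π)) = Complex.exp (n * t * Complex.I) := by
  rw [fourier_coe_apply]
  congr 1
  have hπ : (π : ℂ) ≠ 0 := Complex.ofReal_ne_zero.2 Real.pi_ne_zero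
  push_cast
  field_simp

theorem ZA_G_coeff (g : ℝ → ℝ) (n : ℤ) : fourierCoeff (ZA_G g) n = ZA_c g n := by
  rw [fourierCoeff_eq_intervalIntegral _ _ (-π), ZA_end, ZA_c, Complex.real_smul]
  congr 1
  · push_cast; ring
  · apply intervalIntegral.integral_congr_ae
    refine Eventually.of_forall fun t ht => ?_
    rw [uIoc_of_le (by linarith [Real.pi_pos])] at ht
    rw [ZA_fourier, ZA_G_apply g ht, smul_eq_mul, mul_comm]
    congr 2
    push_cast
    ring

theorem ZA_c_summable (g : ℝ → ℝ) (hg : Measurable g) (M : ℝ) (hM : ∀ t, |g t| ≤ M) :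
    Summable fun n : ℤ => ‖ZA_c g n‖ ^ 2 := by
  have hG := ZA_G_memLp g hg M hM
  have h1 := (hasSum_sq_fourierCoeff hG.toLp).summable
  refine h1.congr fun n => ?_
  rw [fourierCoeff_congr_ae (MemLp.coeFn_toLp hG), ZA_G_coeff]

/-- coefficients of the boundary function -/
def ZA_y (g : ℝ → ℝ) (n : ℤ) : ℂ := if n < 0 then 0 else ZA_k n.natAbs * ZA_c g n

theorem ZA_y_le (g : ℝ → ℝ) (n : ℤ) : ‖ZA_y g n‖ ≤ 2 * ‖ZA_c g n‖ := by
  unfold ZA_y
  split_ifs
  · rw [norm_zero]; positivity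
  · rw [norm_mul]
    exact mul_le_mul_of_nonneg_right (ZA_k_norm _) (norm_nonneg _)

theorem ZA_y_summable (g : ℝ → ℝ) (hg : Measurable g) (M : ℝ) (hM : ∀ t, |g t| ≤ M) :
    Summable fun n : ℤ => ‖ZA_y g n‖ ^ 2 := by
  refine Summable.of_nonneg_of_le (fun n => by positivity) (fun n => ?_)
    ((ZA_c_summable g hg M hM).mul_left 4)
  calc ‖ZA_y g n‖ ^ 2 ≤ (2 * ‖ZA_c g n‖) ^ 2 := pow_le_pow_left₀ (norm_nonneg _) (ZA_y_le g n) 2
    _ = 4 * ‖ZA_c g n‖ ^ 2 := by ring

theorem ZA_memlp {a : ℤ → ℂ} (h : Summable fun n => ‖a n‖ ^ 2) : Memℓp a 2 := by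
  apply memℓp_gen
  simpa using h

theorem ZA_exists {a : ℤ → ℂ} (h : Summable fun n => ‖a n‖ ^ 2) :
    ∃ f : Lp ℂ 2 (AddCircle.haarAddCircle (T := 2 * π)),
      (∀ n, fourierCoeff f n = a n) ∧ HasSum (fun n => a n • fourierLp 2 n) f := by
  have h1 := ZA_memlp h
  refine ⟨fourierBasis.repr.symm ⟨a, h1⟩, fun n => ?_, ?_⟩
  · rw [← fourierBasis_repr, LinearIsometryEquiv.apply_symm_apply]
  · have h2 := (fourierBasis (T := 2 * π)).hasSum_repr_symm ⟨a, h1⟩
    rw [coe_fourierBasis] at h2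
    exact h2

theorem ZA_a_bound (g : ℝ → ℝ) (M : ℝ) (hM : ∀ t, |g t| ≤ M) {r : ℝ} (hr0 : 0 ≤ r) (n : ℤ) :
    ‖ZA_y g n * (r : ℂ) ^ n.natAbs‖ ≤ 2 * M * r ^ n.natAbs := by
  rw [norm_mul, norm_pow, Complex.norm_real, Real.norm_of_nonneg hr0]
  refine mul_le_mul_of_nonneg_right ((ZA_y_le g n).trans ?_) (by positivity)
  exact mul_le_mul_of_nonneg_left (ZA_c_norm g M hM n) (by norm_num)

theorem ZA_a_summable (g : ℝ → ℝ) (M : ℝ) (hM : ∀ t, |g t| ≤ M) {r : ℝ} (hr0 : 0 ≤ r)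
    (hr1 : r < 1) : Summable fun n : ℤ => ‖ZA_y g n * (r : ℂ) ^ n.natAbs‖ := by
  refine Summable.of_nonneg_of_le (fun n => norm_nonneg _)
    (fun n => ZA_a_bound g M hM hr0 n) ?_
  refine Summable.mul_left _ ?_
  rw [summable_int_iff_summable_nat_and_neg]
  have h := summable_geometric_of_lt_one hr0 hr1
  exact ⟨h.congr fun n => by simp, h.congr fun n => by simp⟩

theorem ZA_circle (g : ℝ → ℝ) (hg : Measurable g) (M : ℝ) (hM : ∀ t, |g t| ≤ M) {r : ℝ}
    (hr0 : 0 ≤ r) (hr1 : r < 1) (xL : Lp ℂ 2 (AddCircle.haarAddCircle (T := 2 * π)))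
    (hx : ∀ n, fourierCoeff xL n = ZA_y g n) :
    ∃ F : C(AddCircle (2 * π), ℂ),
      (∀ θ : ℝ, F (θ : AddCircle (2 * π)) = Sg g (r * Complex.exp (θ * Complex.I))) ∧
      ∫ t, ‖F t - xL t‖ ^ 2 ∂(AddCircle.haarAddCircle (T := 2 * π)) =
        ∑' n : ℤ, ‖ZA_y g n * (r : ℂ) ^ n.natAbs - ZA_y g n‖ ^ 2 := by
  obtain ⟨a, ha⟩ : ∃ a : ℤ → ℂ, a = fun n => ZA_y g n * (r : ℂ) ^ n.natAbs := ⟨_, rfl⟩
  have hs1 : Summable fun n : ℤ => ‖a n‖ := by rw [ha]; exact ZA_a_summable g M hM hr0 hr1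
  have hsC : Summable fun n : ℤ => a n • (fourier n : C(AddCircle (2 * π), ℂ)) := by
    refine Summable.of_norm (hs1.congr fun n => ?_)
    rw [norm_smul, fourier_norm, mul_one]
  have hs2 : Summable fun n : ℤ => ‖a n‖ ^ 2 := by
    refine Summable.of_nonneg_of_le (fun n => by positivity) (fun n => ?_)
      (hs1.mul_left (2 * M))
    have h1 := ZA_a_bound g M hM hr0 n
    have h2 : r ^ n.natAbs ≤ 1 := pow_le_one₀ hr0 hr1.le
    have h3 : 0 ≤ M := (abs_nonneg _).trans (hM 0)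
    have h4 : ‖a n‖ ≤ 2 * M := by
      rw [ha]
      refine h1.trans ?_
      calc 2 * M * r ^ n.natAbs ≤ 2 * M * 1 := mul_le_mul_of_nonneg_left h2 (by positivity)
        _ = 2 * M := by ring
    rw [sq]
    exact mul_le_mul_of_nonneg_right h4 (norm_nonneg _)
  obtain ⟨F, hF⟩ := hsC
  refine ⟨F, fun θ => ?_, ?_⟩
  · have h1 := (ContinuousMap.evalCLM ℂ (θ : AddCircle (2 * π))).hasSum hF
    have h2 : HasSum (fun n : ℤ => a n * fourier n (θ : AddCircle (2 * π)))
        (F (θ : AddCircle (2 * π))) := h1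
    have hz : ‖(r : ℂ) * Complex.exp (θ * Complex.I)‖ < 1 := by
      rw [norm_mul, ZA_norm_exp, mul_one, Complex.norm_real, Real.norm_of_nonneg hr0]
      exact hr1
    have h3 := ZA_powser g hg M hM hz
    have h4 := (Function.Injective.hasSum_iff (f := fun n : ℤ => a n *
      fourier n (θ : AddCircle (2 * π))) (a := Sg g (r * Complex.exp (θ * Complex.I)))
      (Nat.cast_injective (R := ℤ)) (by
        intro n hn
        have hn' : n < 0 := by
          by_contra h
          push Not at h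
          exact hn ⟨n.toNat, Int.toNat_of_nonneg h⟩
        show a n * _ = 0
        rw [ha]
        simp only [ZA_y, if_pos hn', zero_mul])).1 (by
      refine h3.congr_fun fun n => ?_
      show a n * fourier (n : ℤ) (θ : AddCircle (2 * π)) = _
      rw [ZA_fourier, ha]
      simp only [ZA_y]
      rw [if_neg (by omega), Int.natAbs_natCast, mul_pow, ← Complex.exp_nat_mul]
      rw [show ((n : ℤ) : ℂ) * θ * Complex.I = (n : ℂ) * (θ * Complex.I) by push_cast; ring]
      ring)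
    exact h2.unique h4
  · obtain ⟨f, hf1, hf2⟩ := ZA_exists hs2
    have hL := (ContinuousMap.toLp (E := ℂ) 2 (AddCircle.haarAddCircle (T := 2 * π)) ℂ).hasSum hF
    have hL' : HasSum (fun n : ℤ => a n • fourierLp (T := 2 * π) 2 n)
        (ContinuousMap.toLp (E := ℂ) 2 (AddCircle.haarAddCircle (T := 2 * π)) ℂ F) := by
      refine hL.congr_fun fun n => ?_
      simp only [map_smul]
    have he := hL'.unique hf2
    have hD := tsum_sq_fourierCoeff (f - xL)
    have hc : ∀ n, fourierCoeff (f - xL : Lp ℂ 2 (AddCircle.haarAddCircle (T := 2 * π))) n =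
        a n - ZA_y g n := by
      intro n
      rw [← fourierBasis_repr, map_sub, ← hf1 n, ← hx n, ← fourierBasis_repr, ← fourierBasis_repr]
      rfl
    simp_rw [hc] at hD
    rw [ha] at hD
    rw [hD]
    apply integral_congr_ae
    have e1 := Lp.coeFn_sub f xL
    have e2 := ContinuousMap.coeFn_toLp (E := ℂ) (p := 2) (𝕜 := ℂ)
      (AddCircle.haarAddCircle (T := 2 * π)) F
    rw [he] at e2
    filter_upwards [e1, e2] with t t1 t2
    rw [t1, Pi.sub_apply, t2]

theorem ZA_lim (g : ℝ → ℝ) (hg : Measurable g) (M : ℝ) (hM : ∀ t, |g t| ≤ M) :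
    Tendsto (fun r : ℝ => ∑' n : ℤ, ‖ZA_y g n * (r : ℂ) ^ n.natAbs - ZA_y g n‖ ^ 2)
      (𝓝[<] 1) (𝓝 0) := by
  have h := tendsto_tsum_of_dominated_convergence (𝓕 := 𝓝[<] (1 : ℝ))
    (f := fun (r : ℝ) (n : ℤ) => ‖ZA_y g n * (r : ℂ) ^ n.natAbs - ZA_y g n‖ ^ 2)
    (g := fun _ => 0) (bound := fun n => ‖ZA_y g n‖ ^ 2) (ZA_y_summable g hg M hM) ?_ ?_
  · simpa using h
  · intro n
    have hc : Continuous fun r : ℝ => ‖ZA_y g n * (r : ℂ) ^ n.natAbs - ZA_y g n‖ ^ 2 := by
      fun_prop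
    have h1 := (hc.tendsto 1).mono_left (nhdsWithin_le_nhds (s := Iio 1))
    simpa using h1
  · have hev : ∀ᶠ r : ℝ in 𝓝[<] 1, r ∈ Ioo (0 : ℝ) 1 := Ioo_mem_nhdsLT one_pos
    filter_upwards [hev] with r hr n
    rw [Real.norm_of_nonneg (by positivity)]
    apply pow_le_pow_left₀ (norm_nonneg _)
    have e : ZA_y g n * (r : ℂ) ^ n.natAbs - ZA_y g n =
        -(ZA_y g n * ((1 - r ^ n.natAbs : ℝ) : ℂ)) := by
      push_cast; ring
    have h1 : r ^ n.natAbs ≤ 1 := pow_le_one₀ hr.1.le hr.2.le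
    have h2 : 0 ≤ r ^ n.natAbs := pow_nonneg hr.1.le _
    rw [e, norm_neg, norm_mul, Complex.norm_real, Real.norm_of_nonneg (by linarith)]
    calc ‖ZA_y g n‖ * (1 - r ^ n.natAbs) ≤ ‖ZA_y g n‖ * 1 :=
          mul_le_mul_of_nonneg_left (by linarith) (norm_nonneg _)
      _ = ‖ZA_y g n‖ := mul_one _

theorem ZA_conj (f : AddCircle (2 * π) → ℂ) (n : ℤ) :
    fourierCoeff (fun t => conj (f t)) n = conj (fourierCoeff f (-n)) := by
  unfold fourierCoeff
  rw [← integral_conj]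
  congr 1
  funext t
  rw [neg_neg, smul_eq_mul, smul_eq_mul, map_mul, fourier_neg]

theorem ZA_c_neg (g : ℝ → ℝ) (n : ℤ) : ZA_c g (-n) = conj (ZA_c g n) := by
  rw [← ZA_G_coeff, ← ZA_G_coeff]
  have h := ZA_conj (ZA_G g) (-n)
  rw [neg_neg] at h
  rw [← h]
  apply congrArg (fun f : AddCircle (2 * π) → ℂ => fourierCoeff f (-n))
  funext t
  simp only [ZA_G, AddCircle.liftIoc, Function.comp_apply, Set.domRestrict_apply,
    Complex.conj_ofReal]

theorem ZA_sym (g : ℝ → ℝ) (n : ℤ) :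
    (1 / 2 : ℂ) * (ZA_y g n + conj (ZA_y g (-n))) = ZA_c g n := by
  unfold ZA_y
  rcases lt_trichotomy n 0 with h | h | h
  · rw [if_pos h, if_neg (by omega), zero_add, map_mul, ZA_c_neg, Complex.conj_conj]
    have : ZA_k (-n).natAbs = 2 := by
      unfold ZA_k; rw [if_neg (by omega)]
    rw [this, Complex.conj_ofNat]
    ring
  · subst h
    have h0 := ZA_c_neg g 0
    rw [neg_zero] at h0
    simp only [lt_irrefl, if_false, neg_zero, Int.natAbs_zero, ZA_k, if_true, one_mul]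
    rw [← h0]
    ring
  · rw [if_neg (by omega), if_pos (by omega), map_zero, add_zero]
    have : ZA_k n.natAbs = 2 := by
      unfold ZA_k; rw [if_neg (by omega)]
    rw [this]
    ring

theorem ZA_zero {h : AddCircle (2 * π) → ℂ}
    (hm : MemLp h 2 (AddCircle.haarAddCircle (T := 2 * π))) (h0 : ∀ n, fourierCoeff h n = 0) :
    h =ᵐ[AddCircle.haarAddCircle (T := 2 * π)] 0 := by
  have h1 : fourierBasis.repr hm.toLp = 0 := by
    apply lp.ext
    funext n
    rw [fourierBasis_repr, fourierCoeff_congr_ae (MemLp.coeFn_toLp hm), h0]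
    rfl
  have h2 : hm.toLp = 0 := by
    rw [← LinearIsometryEquiv.map_zero (fourierBasis (T := 2 * π)).repr] at h1
    exact (fourierBasis (T := 2 * π)).repr.injective h1
  have h3 := MemLp.coeFn_toLp hm
  rw [h2] at h3
  exact h3.symm.trans (Lp.coeFn_zero ℂ 2 _)

theorem ZA_real (g : ℝ → ℝ) (hg : Measurable g) (M : ℝ) (hM : ∀ t, |g t| ≤ M)
    (xL : Lp ℂ 2 (AddCircle.haarAddCircle (T := 2 * π)))
    (hx : ∀ n, fourierCoeff xL n = ZA_y g n) :
    (fun t => (((xL t).re : ℝ) : ℂ)) =ᵐ[AddCircle.haarAddCircle (T := 2 * π)] ZA_G g := by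
  have hG := ZA_G_memLp g hg M hM
  have hxm : MemLp xL 2 (AddCircle.haarAddCircle (T := 2 * π)) := Lp.memLp xL
  have hxi : Integrable xL (AddCircle.haarAddCircle (T := 2 * π)) := hxm.integrable one_le_two
  have hcm : MemLp (fun t => conj (xL t)) 2 (AddCircle.haarAddCircle (T := 2 * π)) := hxm.star
  have hci := hcm.integrable one_le_two
  have e : (fun t => (((xL t).re : ℝ) : ℂ)) = fun t => (1 / 2 : ℂ) * (xL t + conj (xL t)) := by
    funext t
    rw [Complex.add_conj]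
    push_cast
    ring
  rw [e]
  have hm : MemLp (fun t => (1 / 2 : ℂ) * (xL t + conj (xL t)) - ZA_G g t) 2
      (AddCircle.haarAddCircle (T := 2 * π)) := ((hxm.add hcm).const_mul _).sub hG
  have h0 := ZA_zero hm (by
    intro n
    have a1 : fourierCoeff (fun t => xL t + conj (xL t)) n =
        fourierCoeff xL n + fourierCoeff (fun t => conj (xL t)) n :=
      congrFun (fourierCoeff.add hxi hci) n
    have a2 : fourierCoeff (fun t => (1 / 2 : ℂ) * (xL t + conj (xL t))) n =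
        (1 / 2 : ℂ) * fourierCoeff (fun t => xL t + conj (xL t)) n :=
      fourierCoeff.const_mul _ _ n
    have a3 : fourierCoeff (fun t => (1 / 2 : ℂ) * (xL t + conj (xL t)) - ZA_G g t) n =
        fourierCoeff (fun t => (1 / 2 : ℂ) * (xL t + conj (xL t))) n -
          fourierCoeff (ZA_G g) n := by
      unfold fourierCoeff
      rw [← integral_sub]
      · congr 1
        funext t
        rw [smul_eq_mul, smul_eq_mul, smul_eq_mul]
        ring
      · exact ((hxi.add hci).const_mul _).fourier_smul (-n)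
      · exact (hG.integrable one_le_two).fourier_smul (-n)
    rw [a3, a2, a1, ZA_conj, hx, hx, ZA_G_coeff, ZA_sym, sub_self])
  filter_upwards [h0] with t ht
  exact sub_eq_zero.1 ht

theorem ZA_L1 (g : ℝ → ℝ) (hg : Measurable g) (M : ℝ) (hM : ∀ t, |g t| ≤ M)
    (xL : Lp ℂ 2 (AddCircle.haarAddCircle (T := 2 * π)))
    (hx : ∀ n, fourierCoeff xL n = ZA_y g n) :
    Tendsto (fun r : ℝ => ∫ θ in (-π : ℝ)..π,
      ‖Sg g (r * Complex.exp (θ * Complex.I)) - xL (θ : AddCircle (2 * π))‖) (𝓝[<] 1) (𝓝 0) := by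
  have hlim := (((Real.continuous_sqrt.tendsto 0).comp (ZA_lim g hg M hM)).const_mul (2 * π))
  rw [Real.sqrt_zero, mul_zero] at hlim
  have hev : ∀ᶠ r : ℝ in 𝓝[<] 1, r ∈ Ioo (0 : ℝ) 1 := Ioo_mem_nhdsLT one_pos
  refine squeeze_zero' ?_ ?_ hlim
  · refine Eventually.of_forall fun r => ?_
    exact intervalIntegral.integral_nonneg (by linarith [Real.pi_pos]) fun θ _ => norm_nonneg _
  · filter_upwards [hev] with r hr
    obtain ⟨F, hF1, hF2⟩ := ZA_circle g hg M hM hr.1.le hr.2 xL hx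
    have e1 : ∫ θ in (-π : ℝ)..π,
        ‖Sg g (r * Complex.exp (θ * Complex.I)) - xL (θ : AddCircle (2 * π))‖ =
        (2 * π) * ∫ t, ‖F t - xL t‖ ∂(AddCircle.haarAddCircle (T := 2 * π)) := by
      have a1 := AddCircle.intervalIntegral_preimage (2 * π) (-π)
        (fun t : AddCircle (2 * π) => ‖F t - xL t‖)
      rw [ZA_end] at a1
      have a2 := AddCircle.integral_haarAddCircle (T := 2 * π)
        (f := fun t : AddCircle (2 * π) => ‖F t - xL t‖)
      rw [smul_eq_mul] at a2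
      rw [a2, ← a1, ← mul_assoc, mul_inv_cancel₀ ZA_pos.ne', one_mul]
      refine intervalIntegral.integral_congr fun θ _ => ?_
      show _ = ‖F (θ : AddCircle (2 * π)) - xL (θ : AddCircle (2 * π))‖
      rw [hF1]
    have hFm : MemLp F 2 (AddCircle.haarAddCircle (T := 2 * π)) := by
      have := ContinuousMap.coeFn_toLp (E := ℂ) (p := 2) (𝕜 := ℂ)
        (AddCircle.haarAddCircle (T := 2 * π)) F
      exact (memLp_congr_ae this).1 (Lp.memLp _)
    have hDm : MemLp (fun t => F t - xL t) 2 (AddCircle.haarAddCircle (T := 2 * π)) :=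
      hFm.sub (Lp.memLp xL)
    have hD1 : Integrable (fun t => ‖F t - xL t‖) (AddCircle.haarAddCircle (T := 2 * π)) :=
      (hDm.integrable one_le_two).norm
    have hD2 : Integrable (fun t => ‖F t - xL t‖ ^ 2) (AddCircle.haarAddCircle (T := 2 * π)) :=
      (memLp_two_iff_integrable_sq_norm hDm.1).1 hDm
    have hJ := ConvexOn.map_integral_le (μ := AddCircle.haarAddCircle (T := 2 * π))
      (s := univ) (g := fun x : ℝ => x ^ 2) (f := fun t => ‖F t - xL t‖)
      (Even.convexOn_pow (by norm_num)) (by fun_prop) isClosed_univ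
      (Eventually.of_forall fun _ => mem_univ _) hD1 hD2
    rw [e1]
    refine mul_le_mul_of_nonneg_left ?_ ZA_pos.le
    refine Real.le_sqrt_of_sq_le ?_
    exact hJ.trans hF2.le

theorem ZA (g : ℝ → ℝ) (hg : Measurable g) (M : ℝ) (hM : ∀ t, |g t| ≤ M) :
    ∃ x : ℝ → ℂ, Measurable x ∧ IntegrableOn (fun θ => ‖x θ‖ ^ 2) (Ioc (-π) π) ∧
      IntegrableOn (fun θ => ‖x θ‖) (Ioc (-π) π) ∧
      Tendsto (fun r : ℝ => ∫ θ in (-π : ℝ)..π, ‖Sg g (r * Complex.exp (θ * Complex.I)) - x θ‖)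
        (𝓝[<] 1) (𝓝 0) ∧
      ∀ᵐ θ ∂(volume.restrict (Ioc (-π) π)), (x θ).re = g θ := by
  obtain ⟨xL, hx, -⟩ := ZA_exists (ZA_y_summable g hg M hM)
  have hp := AddCircle.measurePreserving_mk (2 * π) (-π)
  rw [ZA_end] at hp
  have hxm : MemLp (fun θ : ℝ => xL (θ : AddCircle (2 * π))) 2 (volume.restrict (Ioc (-π) π)) :=
    (Lp.memLp xL).of_haarAddCircle.comp_measurePreserving hp
  refine ⟨fun θ => xL (θ : AddCircle (2 * π)),
    (Lp.stronglyMeasurable xL).measurable.comp AddCircle.measurable_mk', ?_, ?_, ?_, ?_⟩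
  · exact (memLp_two_iff_integrable_sq_norm hxm.1).1 hxm
  · exact (hxm.integrable one_le_two).norm
  · exact ZA_L1 g hg M hM xL hx
  · have h1 := ZA_real g hg M hM xL hx
    have h2 : ∀ᵐ t ∂(volume : Measure (AddCircle (2 * π))), (((xL t).re : ℝ) : ℂ) = ZA_G g t := by
      rw [AddCircle.volume_eq_smul_haarAddCircle]
      exact Measure.ae_smul_measure h1 _
    have h3 := hp.quasiMeasurePreserving.ae h2
    filter_upwards [h3, ae_restrict_mem measurableSet_Ioc] with θ t1 t2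
    rw [ZA_G_apply g t2] at t1
    exact_mod_cast t1

end

end Pool.H90.VK
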