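import Pool.Agent.H90.VK.ZF
import Pool.Agent.H90.VK.ZA

/-!
# ZFL : `ZF_lim`, `ZF_L1` (proofs in the header of ZF)
-/

open MeasureTheory Set Filter Topology Metric
open scoped Real ENNReal ComplexConjugate

namespace Pool.H90.VK

noncomputable section

/-- on the unit circle the denominator of `kv` is `2 ζ (v + Re ζ)` -/
lemma ZFL_den {ζ : ℂ} (hζ : ‖ζ‖ = 1) (v : ℝ) :
    ζ ^ 2 + 2 * v * ζ + 1 = 2 * ζ * ((v + ζ.re : ℝ) : ℂ) := by
  have h1 : ζ * conj ζ = 1 := by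
    rw [Complex.mul_conj, Complex.normSq_eq_norm_sq, hζ]
    norm_num
  have h2 : (ζ.re : ℂ) = (ζ + conj ζ) / 2 := by
    rw [Complex.add_conj]
    push_cast
    ring
  push_cast
  rw [h2]
  linear_combination (-1 : ℂ) * h1

theorem ZF_lim (φ : ℝ → ℝ) (hφ : Measurable φ) (M : ℝ) (hM : ∀ v, |φ v| ≤ M) (E : Set ℝ)
    (hE : IsCompact E) (hsub : E ⊆ Ioo (-1) 1) (hoff : ∀ v, v ∉ E → φ v = 0) {ζ : ℂ} (hζ : ‖ζ‖ = 1)
    (h : -ζ.re ∉ E) :
    ∃ c : ℝ, Tendsto (Cv φ) (𝓝[ball (0 : ℂ) 1] ζ) (𝓝 (c : ℂ)) := by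
  have hM0 : 0 ≤ M := le_trans (abs_nonneg _) (hM 0)
  have hζ0 : ζ ≠ 0 := by
    rintro rfl
    simp at hζ
  obtain ⟨d, hd, hdE⟩ := Metric.isOpen_iff.1 hE.isClosed.isOpen_compl (-ζ.re) h
  have hdE' : ∀ v ∈ E, d ≤ |v + ζ.re| := by
    intro v hv
    by_contra hlt
    push Not at hlt
    have : v ∈ Eᶜ := hdE (by
      rw [mem_ball, Real.dist_eq]
      rwa [sub_neg_eq_add])
    exact this hv
  -- lower bound for the denominator
  have hden : ∀ z : ℂ, ‖z - ζ‖ < d / 5 → ‖z‖ < 1 → ∀ v ∈ E, d ≤ ‖z ^ 2 + 2 * v * z + 1‖ := by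
    intro z hz hz1 v hv
    have h1 : ‖ζ ^ 2 + 2 * v * ζ + 1‖ = 2 * |v + ζ.re| := by
      rw [ZFL_den hζ, norm_mul, norm_mul, hζ, Complex.norm_real]
      simp
    have h2 : (z ^ 2 + 2 * v * z + 1) = (ζ ^ 2 + 2 * v * ζ + 1) + (z - ζ) * (z + ζ + 2 * v) := by
      ring
    have h3 : ‖(z - ζ) * (z + ζ + 2 * v)‖ ≤ d := by
      rw [norm_mul]
      have hv1 : |v| ≤ 1 := abs_le.2 ⟨(hsub hv).1.le, (hsub hv).2.le⟩
      have h4 : ‖z + ζ + 2 * (v : ℂ)‖ ≤ 5 := by
        calc ‖z + ζ + 2 * (v : ℂ)‖ ≤ ‖z‖ + ‖ζ‖ + ‖2 * (v : ℂ)‖ := norm_add₃_le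
          _ ≤ 1 + 1 + 2 * 1 := by
            rw [norm_mul, Complex.norm_real, Real.norm_eq_abs, hζ, Complex.norm_ofNat]
            linarith
          _ ≤ 5 := by norm_num
      calc ‖z - ζ‖ * ‖z + ζ + 2 * (v : ℂ)‖ ≤ d / 5 * 5 :=
            mul_le_mul hz.le h4 (norm_nonneg _) (by positivity)
        _ = d := by ring
    have h5 : ‖ζ ^ 2 + 2 * v * ζ + 1‖ - ‖(z - ζ) * (z + ζ + 2 * v)‖ ≤
        ‖z ^ 2 + 2 * v * z + 1‖ := by
      rw [h2]
      have := norm_sub_norm_le (ζ ^ 2 + 2 * (v : ℂ) * ζ + 1) (-((z - ζ) * (z + ζ + 2 * v)))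
      rwa [norm_neg, sub_neg_eq_add] at this
    have := hdE' v hv
    linarith
  refine ⟨(1 / π) * ∫ v in (-1 : ℝ)..1, φ v / (v + ζ.re), ?_⟩
  have hmain : Tendsto (fun z : ℂ => ∫ v in (-1 : ℝ)..1, (φ v : ℂ) * kv v z)
      (𝓝[ball (0 : ℂ) 1] ζ) (𝓝 (∫ v in (-1 : ℝ)..1, ((φ v / (v + ζ.re) : ℝ) : ℂ))) := by
    have hnear : ∀ᶠ z in 𝓝[ball (0 : ℂ) 1] ζ, ‖z - ζ‖ < d / 5 ∧ ‖z‖ < 1 := by
      have h1 : ∀ᶠ z in 𝓝[ball (0 : ℂ) 1] ζ, ‖z - ζ‖ < d / 5 := by
        have h2 : ball ζ (d / 5) ∈ 𝓝 ζ := ball_mem_nhds _ (by positivity)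
        filter_upwards [mem_nhdsWithin_of_mem_nhds h2] with z hz
        rwa [mem_ball, dist_eq_norm] at hz
      filter_upwards [h1, self_mem_nhdsWithin] with z hz hz'
      exact ⟨hz, by rwa [mem_ball, dist_zero_right] at hz'⟩
    refine intervalIntegral.tendsto_integral_filter_of_dominated_convergence
      (fun _ => M * (2 / d)) ?_ ?_ ?_ ?_
    · filter_upwards with z
      apply Measurable.aestronglyMeasurable
      unfold kv
      fun_prop
    · filter_upwards [hnear] with z hz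
      filter_upwards with v _
      by_cases hv : v ∈ E
      · rw [norm_mul, Complex.norm_real, Real.norm_eq_abs]
        have h1 := hden z hz.1 hz.2 v hv
        refine mul_le_mul (hM v) ?_ (norm_nonneg _) hM0
        unfold kv
        rw [norm_div, norm_mul, Complex.norm_ofNat]
        refine div_le_div₀ (by norm_num) ?_ hd h1
        linarith [hz.2]
      · rw [hoff v hv]
        simp only [Complex.ofReal_zero, zero_mul, norm_zero]
        positivity
    · exact intervalIntegrable_const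
    · filter_upwards with v _
      by_cases hv : v ∈ E
      · have h1 : (v + ζ.re) ≠ 0 := by
          intro h0
          have := hdE' v hv
          rw [h0, abs_zero] at this
          linarith
        have h2 : ζ ^ 2 + 2 * v * ζ + 1 ≠ 0 := by
          rw [ZFL_den hζ]
          exact mul_ne_zero (mul_ne_zero two_ne_zero hζ0) (Complex.ofReal_ne_zero.2 h1)
        have h3 : kv v ζ = ((1 / (v + ζ.re) : ℝ) : ℂ) := by
          unfold kv
          rw [ZFL_den hζ]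
          rw [Complex.ofReal_div, Complex.ofReal_one]
          have h4 : ((v + ζ.re : ℝ) : ℂ) ≠ 0 := Complex.ofReal_ne_zero.2 h1
          field_simp
        have h5 : Tendsto (fun z : ℂ => (φ v : ℂ) * kv v z) (𝓝[ball (0 : ℂ) 1] ζ)
            (𝓝 ((φ v : ℂ) * kv v ζ)) := by
          apply Tendsto.mono_left _ nhdsWithin_le_nhds
          apply ContinuousAt.tendsto
          unfold kv
          refine ContinuousAt.mul continuousAt_const (ContinuousAt.div ?_ ?_ h2)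
          · fun_prop
          · fun_prop
        have h6 : (φ v : ℂ) * kv v ζ = ((φ v / (v + ζ.re) : ℝ) : ℂ) := by
          rw [h3]
          push_cast
          ring
        rwa [h6] at h5
      · rw [hoff v hv]
        simp only [Complex.ofReal_zero, zero_mul, zero_div]
        exact tendsto_const_nhds
  have h2 := hmain.const_mul (1 / (π : ℂ))
  rw [intervalIntegral.integral_ofReal] at h2
  have h3 : (((1 / π) * ∫ v in (-1 : ℝ)..1, φ v / (v + ζ.re) : ℝ) : ℂ) =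
      1 / (π : ℂ) * ((∫ v in (-1 : ℝ)..1, φ v / (v + ζ.re) : ℝ) : ℂ) := by
    push_cast
    ring
  rw [h3]
  exact h2

/-- the odd function with `φ'(t) = φ(-cos t)` on `(0,π)` -/
def ZFL_od (φ : ℝ → ℝ) (t : ℝ) : ℝ :=
  if 0 < t ∧ t < π then φ (-Real.cos t) else if -π < t ∧ t < 0 then -φ (-Real.cos t) else 0

lemma ZFL_od_odd (φ : ℝ → ℝ) (t : ℝ) : ZFL_od φ (-t) = -ZFL_od φ t := by
  unfold ZFL_od
  rw [Real.cos_neg]
  by_cases h1 : 0 < t ∧ t < π
  · rw [if_neg (by rintro ⟨h, -⟩; linarith [h1.1]), if_pos ⟨by linarith [h1.2], by linarith [h1.1]⟩,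
      if_pos h1]
  · by_cases h2 : -π < t ∧ t < 0
    · rw [if_pos ⟨by linarith [h2.2], by linarith [h2.1]⟩, if_neg h1, if_pos h2, neg_neg]
    · rw [if_neg (by rintro ⟨h, h'⟩; exact h2 ⟨by linarith, by linarith⟩),
        if_neg (by rintro ⟨h, h'⟩; exact h1 ⟨by linarith, by linarith⟩), if_neg h1, if_neg h2,
        neg_zero]

lemma ZFL_od_meas (φ : ℝ → ℝ) (hφ : Measurable φ) : Measurable (ZFL_od φ) := by
  have h1 : MeasurableSet {t : ℝ | 0 < t ∧ t < π} := measurableSet_Ioo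
  have h2 : MeasurableSet {t : ℝ | -π < t ∧ t < 0} := measurableSet_Ioo
  have h3 : Measurable fun t : ℝ => φ (-Real.cos t) := hφ.comp (by fun_prop)
  exact Measurable.ite h1 h3 (Measurable.ite h2 h3.neg measurable_const)

lemma ZFL_od_bd (φ : ℝ → ℝ) (M : ℝ) (hM : ∀ v, |φ v| ≤ M) (t : ℝ) : |ZFL_od φ t| ≤ M := by
  have hM0 : 0 ≤ M := le_trans (abs_nonneg _) (hM 0)
  unfold ZFL_od
  split_ifs
  · exact hM _
  · rw [abs_neg]
    exact hM _
  · rwa [abs_zero]

lemma ZFL_od_arccos (φ : ℝ → ℝ) {v : ℝ} (hv : v ∈ Ioo (-1 : ℝ) 1) :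
    ZFL_od φ (Real.arccos (-v)) = φ v := by
  have h1 : 0 < Real.arccos (-v) := Real.arccos_pos.2 (by linarith [hv.1])
  have h2 : Real.arccos (-v) < π := by
    rcases (Real.arccos_le_pi (-v)).lt_or_eq with h | h
    · exact h
    · rw [Real.arccos_eq_pi] at h
      linarith [hv.2]
  unfold ZFL_od
  rw [if_pos ⟨h1, h2⟩, Real.cos_arccos (by linarith [hv.2]) (by linarith [hv.1]), neg_neg]

lemma ZFL_cv (φ : ℝ → ℝ) (hφ : Measurable φ) (M : ℝ) (hM : ∀ v, |φ v| ≤ M) {z : ℂ}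
    (hz : ‖z‖ < 1) : Complex.I * Sg (ZFL_od φ) z = Cv φ z := by
  rw [ZE_cv (ZFL_od φ) (ZFL_od_meas φ hφ) (ZFL_od_odd φ) M (ZFL_od_bd φ M hM) hz]
  unfold Cv
  congr 1
  refine intervalIntegral.integral_congr_ae ?_
  have h1 : ∀ᵐ v : ℝ, v ≠ 1 := by
    simp [ae_iff, measure_singleton]
  filter_upwards [h1] with v hv1 hv
  rw [uIoc_of_le (by norm_num : (-1 : ℝ) ≤ 1)] at hv
  rw [ZFL_od_arccos φ ⟨hv.1, lt_of_le_of_ne hv.2 hv1⟩]

theorem ZF_L1 (φ : ℝ → ℝ) (hφ : Measurable φ) (M : ℝ) (hM : ∀ v, |φ v| ≤ M) :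
    Tendsto (fun r : ℝ => ∫ θ in (0 : ℝ)..π,
        |(Cv φ (r * Complex.exp (θ * Complex.I))).im - φ (-Real.cos θ)|) (𝓝[<] 1) (𝓝 0) := by
  obtain ⟨x, hxm, hx2, hx1, hlim, hre⟩ :=
    ZA (ZFL_od φ) (ZFL_od_meas φ hφ) M (ZFL_od_bd φ M hM)
  have hπ := Real.pi_pos
  have hxi : IntegrableOn x (Ioc (-π) π) := by
    refine (integrable_norm_iff hxm.aestronglyMeasurable).1 hx1
  refine squeeze_zero' ?_ ?_ hlim
  · filter_upwards with r
    exact intervalIntegral.integral_nonneg hπ.le fun θ _ => abs_nonneg _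
  · have hr0 : ∀ᶠ r : ℝ in 𝓝[<] 1, 0 < r ∧ r < 1 := by
      have h1 : ∀ᶠ r : ℝ in 𝓝[<] 1, 0 < r :=
        mem_nhdsWithin_of_mem_nhds (lt_mem_nhds one_pos)
      filter_upwards [h1, self_mem_nhdsWithin] with r h2 h3
      exact ⟨h2, h3⟩
    filter_upwards [hr0] with r hr
    have hnorm : ∀ θ : ℝ, ‖(r : ℂ) * Complex.exp (θ * Complex.I)‖ < 1 := by
      intro θ
      rw [norm_mul, Complex.norm_exp_ofReal_mul_I, Complex.norm_real, Real.norm_eq_abs,
        abs_of_pos hr.1, mul_one]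
      exact hr.2
    have hint : IntegrableOn (fun θ : ℝ =>
        ‖Sg (ZFL_od φ) (r * Complex.exp (θ * Complex.I)) - x θ‖) (Ioc (-π) π) := by
      refine (Integrable.sub ?_ hxi).norm
      have hc : Continuous fun θ : ℝ => Sg (ZFL_od φ) (r * Complex.exp (θ * Complex.I)) := by
        have h1 := (ZA_diff (ZFL_od φ) (ZFL_od_meas φ hφ) M (ZFL_od_bd φ M hM)).continuousOn
        refine h1.comp_continuous (by fun_prop) fun θ => ?_
        rw [mem_ball, dist_zero_right]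
        exact hnorm θ
      exact (hc.integrableOn_Icc (a := -π) (b := π)).mono_set Ioc_subset_Icc_self
    rw [intervalIntegral.integral_of_le hπ.le, intervalIntegral.integral_of_le (by linarith)]
    have hsub : Ioc (0 : ℝ) π ⊆ Ioc (-π) π := Ioc_subset_Ioc (by linarith) le_rfl
    calc ∫ θ in Ioc (0 : ℝ) π, |(Cv φ (r * Complex.exp (θ * Complex.I))).im - φ (-Real.cos θ)|
        ≤ ∫ θ in Ioc (0 : ℝ) π, ‖Sg (ZFL_od φ) (r * Complex.exp (θ * Complex.I)) - x θ‖ := by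
          refine integral_mono_of_nonneg ?_ (hint.mono_set hsub) ?_
          · filter_upwards with θ
            exact abs_nonneg _
          · have h1 : ∀ᵐ θ ∂(volume.restrict (Ioc (0 : ℝ) π)), (x θ).re = ZFL_od φ θ :=
              ae_restrict_of_ae_restrict_of_subset hsub hre
            have h2 : ∀ᵐ θ ∂(volume.restrict (Ioc (0 : ℝ) π)), θ ≠ π :=
              ae_restrict_of_ae (by simp [ae_iff, measure_singleton])
            filter_upwards [h1, h2, ae_restrict_mem measurableSet_Ioc] with θ h3 h4 h5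
            have h6 : φ (-Real.cos θ) = (x θ).re := by
              rw [h3]
              unfold ZFL_od
              rw [if_pos ⟨h5.1, lt_of_le_of_ne h5.2 h4⟩]
            have h7 : (Cv φ (r * Complex.exp (θ * Complex.I))).im =
                (Sg (ZFL_od φ) (r * Complex.exp (θ * Complex.I))).re := by
              rw [← ZFL_cv φ hφ M hM (hnorm θ), Complex.I_mul_im]
            rw [h6, h7, ← Complex.sub_re]
            exact Complex.abs_re_le_norm _
      _ ≤ ∫ θ in Ioc (-π) π, ‖Sg (ZFL_od φ) (r * Complex.exp (θ * Complex.I)) - x θ‖ := by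
          refine setIntegral_mono_set hint ?_ hsub.eventuallyLE
          filter_upwards with θ
          exact norm_nonneg _

end

end Pool.H90.VK
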