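import Pool.Agent.H90.VK.ZQ
import Pool.Agent.H90.VK.ZFL

/-!
# ZQL : `ZQ_b`, `ZQ_a`, convergence of the phases (proofs in the header of ZQ)
-/

open MeasureTheory Set Filter Topology Metric
open scoped Real ENNReal ComplexConjugate

namespace Pool.H90.VK

noncomputable section

theorem ZQL_chiL_meas (v₀ δ : ℝ) : Measurable (chiL v₀ δ) := by
  unfold chiL
  refine Measurable.ite ?_ (by fun_prop) measurable_const
  exact (measurableSet_lt measurable_const measurable_id).inter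
    (measurableSet_lt measurable_id measurable_const)

theorem ZQL_chiR_meas (v₀ δ : ℝ) : Measurable (chiR v₀ δ) := by
  unfold chiR
  refine Measurable.ite ?_ (by fun_prop) measurable_const
  exact (measurableSet_lt measurable_const measurable_id).inter
    (measurableSet_lt measurable_id measurable_const)

theorem ZQL_chiL_abs {v₀ δ : ℝ} (hδ : 0 < δ) (v : ℝ) : |chiL v₀ δ v| ≤ 1 := by
  unfold chiL
  split_ifs with h
  · have h1 : 0 ≤ (v₀ - v) / δ := div_nonneg (by linarith [h.2]) hδ.le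
    have h2 : (v₀ - v) / δ ≤ 1 := by rw [div_le_one hδ]; linarith [h.1]
    rw [abs_le]
    constructor <;> linarith
  · simp

theorem ZQL_chiR_abs {v₀ δ : ℝ} (hδ : 0 < δ) (v : ℝ) : |chiR v₀ δ v| ≤ 1 := by
  unfold chiR
  split_ifs with h
  · have h1 : 0 ≤ (v - v₀) / δ := div_nonneg (by linarith [h.1]) hδ.le
    have h2 : (v - v₀) / δ ≤ 1 := by rw [div_le_one hδ]; linarith [h.2]
    rw [abs_le]
    constructor <;> linarith
  · simp

theorem ZQL_norm {r : ℝ} (hr : 0 < r) (θ : ℝ) : ‖(r : ℂ) * Complex.exp (θ * Complex.I)‖ = r := by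
  rw [norm_mul, Complex.norm_exp_ofReal_mul_I, mul_one, Complex.norm_real, Real.norm_of_nonneg hr.le]

theorem ZQL_dom (A : ℝ → ℝ → ℝ) (B : ℝ) (hm : ∀ r ∈ Ioo (0 : ℝ) 1, Measurable (A r))
    (hb : ∀ r θ, |A r θ| ≤ B)
    (ht : ∀ᵐ θ : ℝ, θ ∈ Ioo (0 : ℝ) π → Tendsto (fun r => A r θ) (𝓝[<] 1) (𝓝 0)) :
    Tendsto (fun r : ℝ => ∫ θ in (0 : ℝ)..π, |A r θ|) (𝓝[<] 1) (𝓝 0) := by
  have hpi := Real.pi_pos
  have hev : ∀ᶠ r : ℝ in 𝓝[<] 1, r ∈ Ioo (0 : ℝ) 1 := Ioo_mem_nhdsLT one_pos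
  have key : Tendsto (fun r : ℝ => ∫ θ in (0 : ℝ)..π, |A r θ|) (𝓝[<] 1)
      (𝓝 (∫ _ in (0 : ℝ)..π, (0 : ℝ))) := ?_
  · simpa using key
  refine intervalIntegral.tendsto_integral_filter_of_dominated_convergence (fun _ => B) ?_ ?_ ?_ ?_
  · filter_upwards [hev] with r hr
    exact (hm r hr).norm.aestronglyMeasurable
  · refine Eventually.of_forall fun r => Eventually.of_forall fun θ _ => ?_
    rw [Real.norm_eq_abs, abs_abs]
    exact hb r θ
  · exact intervalIntegrable_const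
  · have hne : ∀ᵐ θ : ℝ, θ ≠ π := by
      rw [ae_iff]
      simp
    filter_upwards [ht, hne] with θ h1 h2 h3
    rw [uIoc_of_le hpi.le] at h3
    have h4 := h1 ⟨h3.1, lt_of_le_of_ne h3.2 h2⟩
    simpa using h4.abs

theorem ZQL_main (φ₁ φ₂ : ℝ → ℝ) (m₁ : Measurable φ₁) (m₂ : Measurable φ₂) (b₁ : ∀ v, |φ₁ v| ≤ 1)
    (b₂ : ∀ v, |φ₂ v| ≤ 1) (c₁ c₂ : ℝ) (A : ℝ → ℝ → ℝ) (B : ℝ)
    (hm : ∀ r ∈ Ioo (0 : ℝ) 1, Measurable (A r)) (hb : ∀ r θ, |A r θ| ≤ B)
    (ht : ∀ᵐ θ : ℝ, θ ∈ Ioo (0 : ℝ) π → Tendsto (fun r => A r θ) (𝓝[<] 1) (𝓝 0)) :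
    Tendsto (fun r : ℝ => ∫ θ in (0 : ℝ)..π,
      |A r θ + c₁ * ((Cv φ₁ (r * Complex.exp (θ * Complex.I))).im - φ₁ (-Real.cos θ)) -
        c₂ * ((Cv φ₂ (r * Complex.exp (θ * Complex.I))).im - φ₂ (-Real.cos θ))|)
      (𝓝[<] 1) (𝓝 0) := by
  have hpi := Real.pi_pos
  have hev : ∀ᶠ r : ℝ in 𝓝[<] 1, r ∈ Ioo (0 : ℝ) 1 := Ioo_mem_nhdsLT one_pos
  have t0 := ZQL_dom A B hm hb ht
  have t1 := ZF_L1 φ₁ m₁ 1 b₁
  have t2 := ZF_L1 φ₂ m₂ 1 b₂
  have tt := (t0.add (t1.const_mul |c₁|)).add (t2.const_mul |c₂|)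
  simp only [mul_zero, add_zero] at tt
  refine squeeze_zero' ?_ ?_ tt
  · exact Eventually.of_forall fun r => intervalIntegral.integral_nonneg hpi.le fun θ _ => abs_nonneg _
  filter_upwards [hev] with r hr
  have iA : IntervalIntegrable (fun θ => |A r θ|) volume 0 π := by
    refine (intervalIntegrable_const (c := B)).mono_fun
      (hm r hr).norm.aestronglyMeasurable ?_
    refine Eventually.of_forall fun θ => ?_
    simp only [Real.norm_eq_abs, abs_abs]
    exact (hb r θ).trans (le_abs_self B)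
  have iφ : ∀ φ : ℝ → ℝ, Measurable φ → (∀ v, |φ v| ≤ 1) →
      IntervalIntegrable (fun θ => (Cv φ (r * Complex.exp (θ * Complex.I))).im - φ (-Real.cos θ))
        volume 0 π := by
    intro φ hφ hφb
    refine IntervalIntegrable.sub ?_ ?_
    · apply Continuous.intervalIntegrable
      have h1 : ContinuousOn (Cv φ) (ball 0 1) := (ZF_diff φ hφ 1 hφb).continuousOn
      have h2 : Continuous fun θ : ℝ => (r : ℂ) * Complex.exp (θ * Complex.I) := by fun_prop
      exact Complex.continuous_im.comp (h1.comp_continuous h2 fun θ => by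
        rw [mem_ball_zero_iff, ZQL_norm hr.1]
        exact hr.2)
    · refine (intervalIntegrable_const (c := (1 : ℝ))).mono_fun
        (hφ.comp (by fun_prop : Measurable fun θ => -Real.cos θ)).aestronglyMeasurable ?_
      refine Eventually.of_forall fun θ => ?_
      simp only [Real.norm_eq_abs, abs_one]
      exact hφb _
  have i1 := iφ φ₁ m₁ b₁
  have i2 := iφ φ₂ m₂ b₂
  rw [← intervalIntegral.integral_const_mul, ← intervalIntegral.integral_const_mul,
    ← intervalIntegral.integral_add iA (i1.abs.const_mul _),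
    ← intervalIntegral.integral_add (iA.add (i1.abs.const_mul _)) (i2.abs.const_mul _)]
  have iAA : IntervalIntegrable (fun θ => A r θ) volume 0 π := by
    refine (intervalIntegrable_const (c := B)).mono_fun
      (hm r hr).aestronglyMeasurable ?_
    refine Eventually.of_forall fun θ => ?_
    rw [Real.norm_eq_abs]
    exact (hb r θ).trans (le_abs_self B)
  refine intervalIntegral.integral_mono_on hpi.le
    (((iAA.add (i1.const_mul _)).sub (i2.const_mul _)).abs)
    ((iA.add (i1.abs.const_mul _)).add (i2.abs.const_mul _)) fun θ _ => ?_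
  calc _ ≤ |A r θ + c₁ * ((Cv φ₁ (r * Complex.exp (θ * Complex.I))).im - φ₁ (-Real.cos θ))| +
        |c₂ * ((Cv φ₂ (r * Complex.exp (θ * Complex.I))).im - φ₂ (-Real.cos θ))| := abs_sub _ _
    _ ≤ _ := by
      rw [abs_mul c₂]
      gcongr
      rw [← abs_mul]
      exact abs_add_le _ _

theorem ZQL_uz_lim {θ : ℝ} :
    Tendsto (fun r : ℝ => uz (r * Complex.exp (θ * Complex.I))) (𝓝[<] 1)
      (𝓝 (-(Real.cos θ : ℝ) : ℂ)) := by
  have h1 : Tendsto (fun r : ℝ => (r : ℂ) * Complex.exp (θ * Complex.I)) (𝓝[<] 1)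
      (𝓝 (Complex.exp (θ * Complex.I))) := by
    have h2 : Continuous fun r : ℝ => (r : ℂ) * Complex.exp (θ * Complex.I) := by fun_prop
    have h3 := h2.tendsto 1
    simp only [Complex.ofReal_one, one_mul] at h3
    exact h3.mono_left nhdsWithin_le_nhds
  have h4 : ContinuousAt uz (Complex.exp (θ * Complex.I)) := by
    unfold uz
    have := Complex.exp_ne_zero (θ * Complex.I)
    fun_prop (disch := assumption)
  have h5 := h4.tendsto.comp h1
  have h6 : uz (Complex.exp (θ * Complex.I)) = (-(Real.cos θ : ℝ) : ℂ) := by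
    unfold uz
    rw [one_div, ← Complex.exp_neg, Complex.ofReal_cos, Complex.cos]
    ring_nf
  rw [h6] at h5
  exact h5

theorem ZQL_al {v₀ : ℝ} {θ : ℝ} (hθ : θ ∈ Ioo (0 : ℝ) π) (hne : -Real.cos θ ≠ v₀) :
    Tendsto (fun r : ℝ => -Complex.arg (v₀ - uz (r * Complex.exp (θ * Complex.I))) -
      (if -Real.cos θ < v₀ then 0 else π)) (𝓝[<] 1) (𝓝 0) := by
  have h1 := (tendsto_const_nhds (x := (v₀ : ℂ))).sub (ZQL_uz_lim (θ := θ))
  have hev : ∀ᶠ r : ℝ in 𝓝[<] 1, r ∈ Ioo (0 : ℝ) 1 := Ioo_mem_nhdsLT one_pos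
  have hre : ((v₀ : ℂ) - (-(Real.cos θ : ℝ) : ℂ)).re = v₀ + Real.cos θ := by
    rw [sub_neg_eq_add, ← Complex.ofReal_add, Complex.ofReal_re]
  have him : ((v₀ : ℂ) - (-(Real.cos θ : ℝ) : ℂ)).im = 0 := by
    rw [sub_neg_eq_add, ← Complex.ofReal_add, Complex.ofReal_im]
  by_cases hlt : -Real.cos θ < v₀
  · simp only [if_pos hlt, sub_zero]
    have h2 : ContinuousAt Complex.arg ((v₀ : ℂ) - (-(Real.cos θ : ℝ) : ℂ)) := by
      apply Complex.continuousAt_arg
      left
      rw [hre]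
      linarith
    have h3 := (h2.tendsto.comp h1).neg
    have h4 : Complex.arg ((v₀ : ℂ) - (-(Real.cos θ : ℝ) : ℂ)) = 0 := by
      rw [Complex.arg_eq_zero_iff]
      exact ⟨by rw [hre]; linarith, him⟩
    rw [h4, neg_zero] at h3
    exact h3
  · have hgt : v₀ < -Real.cos θ := lt_of_le_of_ne (not_lt.1 hlt) (Ne.symm hne)
    simp only [if_neg hlt]
    have h2 : Tendsto (fun r : ℝ => (v₀ : ℂ) - uz (r * Complex.exp (θ * Complex.I))) (𝓝[<] 1)
        (𝓝[{z : ℂ | z.im < 0}] ((v₀ : ℂ) - (-(Real.cos θ : ℝ) : ℂ))) := by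
      rw [tendsto_nhdsWithin_iff]
      refine ⟨h1, ?_⟩
      filter_upwards [hev] with r hr
      have hz : (r : ℂ) * Complex.exp (θ * Complex.I) ≠ 0 := by
        rw [← norm_ne_zero_iff, ZQL_norm hr.1]
        exact hr.1.ne'
      have h3 := ZF_uz_im hz
      rw [ZQL_norm hr.1] at h3
      have h4 : ((r : ℂ) * Complex.exp (θ * Complex.I)).im = r * Real.sin θ := by
        rw [Complex.im_ofReal_mul, Complex.exp_ofReal_mul_I_im]
      show ((v₀ : ℂ) - uz (r * Complex.exp (θ * Complex.I))).im < 0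
      rw [Complex.sub_im, Complex.ofReal_im, h3, h4]
      have h5 : 0 < Real.sin θ := Real.sin_pos_of_pos_of_lt_pi hθ.1 hθ.2
      have h6 : 1 < 1 / r ^ 2 := by
        rw [one_lt_div (by have := hr.1; positivity)]
        nlinarith [hr.1, hr.2]
      have h7 : 0 < (1 / r ^ 2 - 1) * (r * Real.sin θ) / 2 := by
        have := hr.1
        have h8 : 0 < 1 / r ^ 2 - 1 := by linarith
        positivity
      linarith
    have h3 := (Complex.tendsto_arg_nhdsWithin_im_neg_of_re_neg_of_im_zero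
      (by rw [hre]; linarith) him).comp h2
    have h4 := h3.neg.sub_const π
    simpa using h4

theorem ZQL_al_meas {v₀ : ℝ} (r : ℝ) : Measurable fun θ : ℝ =>
    -Complex.arg (v₀ - uz (r * Complex.exp (θ * Complex.I))) -
      (if -Real.cos θ < v₀ then 0 else π) := by
  refine Measurable.sub ?_ ?_
  · refine (Complex.measurable_arg.comp (measurable_const.sub ?_)).neg
    unfold uz
    fun_prop
  · exact Measurable.ite (measurableSet_lt (by fun_prop) measurable_const) measurable_const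
      measurable_const

theorem ZQL_al_abs {v₀ : ℝ} (r θ : ℝ) : |-Complex.arg (v₀ - uz (r * Complex.exp (θ * Complex.I))) -
      (if -Real.cos θ < v₀ then 0 else π)| ≤ 2 * π := by
  have h1 := Complex.abs_arg_le_pi ((v₀ : ℂ) - uz (r * Complex.exp (θ * Complex.I)))
  have hpi := Real.pi_pos
  rw [abs_le] at h1 ⊢
  split_ifs <;> constructor <;> linarith [h1.1, h1.2]

theorem ZQL_ae (v₀ : ℝ) : ∀ᵐ θ : ℝ, θ ∈ Ioo (0 : ℝ) π → -Real.cos θ ≠ v₀ := by
  have h : ∀ᵐ θ : ℝ, θ ≠ Real.arccos (-v₀) := by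
    rw [ae_iff]
    simp
  filter_upwards [h] with θ h1 h2 h3
  apply h1
  rw [← h3, neg_neg, Real.arccos_cos h2.1.le h2.2.le]

theorem ZQL_D {θ : ℝ} (hθ : θ ∈ Ioo (0 : ℝ) π) :
    Tendsto (fun r : ℝ => Complex.arg (((r * Complex.exp (θ * Complex.I)) ^ 2 - 1) /
      (2 * Complex.I * (r * Complex.exp (θ * Complex.I))))) (𝓝[<] 1) (𝓝 0) := by
  have h5 : 0 < Real.sin θ := Real.sin_pos_of_pos_of_lt_pi hθ.1 hθ.2
  have hE := Complex.exp_ne_zero (θ * Complex.I)
  have h1 : Tendsto (fun r : ℝ => (((r : ℂ) * Complex.exp (θ * Complex.I)) ^ 2 - 1) /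
      (2 * Complex.I * (r * Complex.exp (θ * Complex.I)))) (𝓝[<] 1)
      (𝓝 ((Complex.exp (θ * Complex.I) ^ 2 - 1) / (2 * Complex.I * Complex.exp (θ * Complex.I)))) := by
    have h2 : ContinuousAt (fun r : ℝ => (((r : ℂ) * Complex.exp (θ * Complex.I)) ^ 2 - 1) /
      (2 * Complex.I * (r * Complex.exp (θ * Complex.I)))) 1 := by
      refine ContinuousAt.div (by fun_prop) (by fun_prop) ?_
      simp [hE, Complex.I_ne_zero]
    have h3 := h2.tendsto
    simp only [Complex.ofReal_one, one_mul] at h3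
    exact h3.mono_left nhdsWithin_le_nhds
  have h6 : (Complex.exp (θ * Complex.I) ^ 2 - 1) / (2 * Complex.I * Complex.exp (θ * Complex.I)) =
      ((Real.sin θ : ℝ) : ℂ) := by
    rw [Complex.ofReal_sin, Complex.sin, div_eq_iff (by simp [hE, Complex.I_ne_zero])]
    have h7 : Complex.exp (-(θ : ℂ) * Complex.I) * Complex.exp (θ * Complex.I) = 1 := by
      rw [← Complex.exp_add]
      simp
    linear_combination h7 - (Complex.exp (-(θ : ℂ) * Complex.I) - Complex.exp (θ * Complex.I)) *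
      Complex.exp (θ * Complex.I) * Complex.I_sq
  rw [h6] at h1
  have h7 : ContinuousAt Complex.arg ((Real.sin θ : ℝ) : ℂ) := by
    apply Complex.continuousAt_arg
    left
    rw [Complex.ofReal_re]
    exact h5
  have h8 := h7.tendsto.comp h1
  rw [Complex.arg_ofReal_of_nonneg h5.le] at h8
  exact h8

theorem ZQ_b {E : Set ℝ} {v₀ : ℝ} {e : ℝ → ℝ} (hLk : Lock E v₀ e) (hv₀ : v₀ ∈ Ioo (-1 : ℝ) 1)
    (δ : ℝ) (hδ : 0 < δ) (hL hR : ℝ) :
    Tendsto (fun r : ℝ => ∫ θ in (0 : ℝ)..π,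
        |phb v₀ δ e hL hR (r * Complex.exp (θ * Complex.I)) - bdb v₀ δ e hL hR θ|)
      (𝓝[<] 1) (𝓝 0) := by
  have he : ∀ v, |e v| ≤ 1 := fun v => by
    rw [abs_of_nonneg (hLk.nonneg v)]
    exact hLk.le_one v
  have h := ZQL_main (fun v => chiL v₀ δ v * e v) (fun v => chiR v₀ δ v * e v)
    ((ZQL_chiL_meas v₀ δ).mul hLk.meas) ((ZQL_chiR_meas v₀ δ).mul hLk.meas)
    (fun v => by
      rw [abs_mul]
      exact mul_le_one₀ (ZQL_chiL_abs hδ v) (abs_nonneg _) (he v))
    (fun v => by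
      rw [abs_mul]
      exact mul_le_one₀ (ZQL_chiR_abs hδ v) (abs_nonneg _) (he v)) hL hR
    (fun r θ => -Complex.arg (v₀ - uz (r * Complex.exp (θ * Complex.I))) -
      (if -Real.cos θ < v₀ then 0 else π)) (2 * π) (fun r _ => ZQL_al_meas r) ZQL_al_abs
    (by
      filter_upwards [ZQL_ae v₀] with θ h1 h2
      exact ZQL_al h2 (h1 h2))
  refine h.congr fun r => ?_
  refine intervalIntegral.integral_congr fun θ _ => ?_
  congr 1
  unfold phb bdb
  split_ifs with hv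
  · have hR0 : chiR v₀ δ (-Real.cos θ) = 0 := by
      unfold chiR
      rw [if_neg]
      rintro ⟨h1, _⟩
      linarith
    rw [hR0]
    ring
  · have hL0 : chiL v₀ δ (-Real.cos θ) = 0 := by
      unfold chiL
      rw [if_neg]
      rintro ⟨_, h1⟩
      exact hv h1
    rw [hL0]
    ring

theorem ZQ_a {E : Set ℝ} {v₀ : ℝ} {e : ℝ → ℝ} (hLk : Lock E v₀ e) (hv₀ : v₀ ∈ Ioo (-1 : ℝ) 1)
    (δ : ℝ) (hδ : 0 < δ) (hL hR : ℝ) :
    Tendsto (fun r : ℝ => ∫ θ in (0 : ℝ)..π,
        |pha v₀ δ e hL hR (r * Complex.exp (θ * Complex.I)) - bda v₀ δ e hL hR θ|)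
      (𝓝[<] 1) (𝓝 0) := by
  have he : ∀ v, |e v| ≤ 1 := fun v => by
    rw [abs_of_nonneg (hLk.nonneg v)]
    exact hLk.le_one v
  have h := ZQL_main (fun v => chiL v₀ δ v * e v) (fun v => chiR v₀ δ v * e v)
    ((ZQL_chiL_meas v₀ δ).mul hLk.meas) ((ZQL_chiR_meas v₀ δ).mul hLk.meas)
    (fun v => by
      rw [abs_mul]
      exact mul_le_one₀ (ZQL_chiL_abs hδ v) (abs_nonneg _) (he v))
    (fun v => by
      rw [abs_mul]
      exact mul_le_one₀ (ZQL_chiR_abs hδ v) (abs_nonneg _) (he v)) hL hR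
    (fun r θ => Complex.arg (((r * Complex.exp (θ * Complex.I)) ^ 2 - 1) /
      (2 * Complex.I * (r * Complex.exp (θ * Complex.I)))) +
      2 * (-Complex.arg (v₀ - uz (r * Complex.exp (θ * Complex.I))) -
      (if -Real.cos θ < v₀ then 0 else π))) (5 * π)
    (fun r _ => by
      refine Measurable.add ?_ ((ZQL_al_meas r).const_mul 2)
      refine Complex.measurable_arg.comp ?_
      fun_prop)
    (fun r θ => by
      have h1 := Complex.abs_arg_le_pi (((r * Complex.exp (θ * Complex.I)) ^ 2 - 1) /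
        (2 * Complex.I * (r * Complex.exp (θ * Complex.I))))
      have h2 := ZQL_al_abs (v₀ := v₀) r θ
      refine (abs_add_le _ _).trans ?_
      rw [abs_mul, abs_two]
      linarith)
    (by
      filter_upwards [ZQL_ae v₀] with θ h1 h2
      have h3 := (ZQL_D h2).add ((ZQL_al h2 (h1 h2)).const_mul 2)
      simpa using h3)
  refine h.congr fun r => ?_
  refine intervalIntegral.integral_congr fun θ _ => ?_
  congr 1
  unfold pha bda
  split_ifs with hv
  · have hR0 : chiR v₀ δ (-Real.cos θ) = 0 := by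
      unfold chiR
      rw [if_neg]
      rintro ⟨h1, _⟩
      linarith
    rw [hR0]
    ring
  · have hL0 : chiL v₀ δ (-Real.cos θ) = 0 := by
      unfold chiL
      rw [if_neg]
      rintro ⟨_, h1⟩
      exact hv h1
    rw [hL0]
    ring

end

end Pool.H90.VK
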