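import Pool.Agent.H90.VK.ZV

/-!
# ZVL : uniform L¹ bounds and lower bounds

Same hypotheses as in ZV. `hL, hR` range over `[0, 5]`; all constants are independent of `hL, hR`.

`ZVL_b`: there is `C` with `∫_0^π |Vb(re^{iθ})| dθ ≤ C` for `1/2 ≤ r < 1` and all `hL, hR ∈ [0,5]` with
`hL + hR ≥ π`. `ZVL_a`: the same for `Va` if `hL + hR ≥ 2π`.
Proof. With `ε = 1/8` in `ZK_left, ZK_right`: `|Tf| ≤ exp(-s log⁺(1/|u-v₀|) + C')`, `s = 7(hL+hR)/(8π)`,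
`C'` uniform. If `|u-v₀| ≤ 1`: `|Vb| ≤ (1/2)|u-v₀|^{s-1}e^{C'} ≤ |u-v₀|^{-1/8}e^{C'}` (`s ≥ 7/8`), resp.
`|Va| ≤ (3/4)|u-v₀|^{s-2} e^{C'} ≤ |u-v₀|^{-1/4}e^{C'}` (`s ≥ 7/4`); otherwise bounded by `e^{C'}`, as in ZV.
For `z = re^{iθ}`, `|u-v₀| ≥ |Re u - v₀| = |ρ cos θ + v₀|`, `ρ = (r+1/r)/2 ∈ [1, 5/4]` (`ZF_uz_polar`), and
`∫_0^π |ρ cos θ + v₀|^{-1/4} dθ` is bounded uniformly: `|ρ cos θ + v₀| ≥ |cos θ - cos θ_ρ|` with
`cos θ_ρ = -v₀/ρ`, `= 2 |sin((θ+θ_ρ)/2)| |sin((θ-θ_ρ)/2)| ≥ c |θ - θ_ρ|` as `θ_ρ` stays in a compact subset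
of `(0,π)`. (For `θ = 0, π`, `z` is real: a null set.)

`ZVL_low`: there are `c > 0`, `r₁ < 1` with `|Vb(re^{iθ})| ≥ c` and `|Va(re^{iθ})| ≥ c` for all
`hL, hR ∈ [0,5]`, `r₁ < r < 1`, `0 < θ < π` with `δ/4 ≤ |-cos θ - v₀| ≤ 3δ/4`.
Proof. `Re u = -ρ cos θ`, `ρ → 1`, so `|Re u - v₀| ≥ δ/8` for `r` near 1; `ZK_far` (`η = δ/8`):
`|Tf| ≥ exp(-10 C/π)`; `|u - v₀| ≤ 4`; `|D|² = ((r+1/r)² sin²θ + (1/r-r)² cos²θ)/4 ≥ sin²θ = 1 - cos²θ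
≥ δ/4` since `|cos θ| ≤ 1 - δ/4`.
-/

open MeasureTheory Set Filter Topology Metric
open scoped Real ENNReal ComplexConjugate

namespace Pool.H90.VK

noncomputable section

theorem ZVL_ii : IntervalIntegrable (fun t : ℝ => |t| ^ (-(1 / 4) : ℝ)) volume (-π) π := by
  have h1 : IntervalIntegrable (fun t : ℝ => |t| ^ (-(1 / 4) : ℝ)) volume 0 π := by
    refine (intervalIntegral.intervalIntegrable_rpow' (a := 0) (b := π) (r := -(1 / 4))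
      (by norm_num)).congr ?_
    intro t ht
    rw [uIoc_of_le Real.pi_pos.le] at ht
    simp only
    rw [abs_of_pos ht.1]
  have h2 : IntervalIntegrable (fun t : ℝ => |t| ^ (-(1 / 4) : ℝ)) volume (-π) 0 := by
    rw [IntervalIntegrable.iff_comp_neg]
    simp only [abs_neg, neg_neg, neg_zero]
    exact h1.symm
  exact h2.trans h1

theorem ZVL_sin {x y : ℝ} (hy : 0 ≤ y) (h1 : y ≤ x) (h2 : x ≤ π - y) : Real.sin y ≤ Real.sin x := by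
  rcases le_total x (π / 2) with h | h
  · exact Real.sin_le_sin_of_le_of_le_pi_div_two (by linarith [Real.pi_pos]) h h1
  · rw [← Real.sin_pi_sub x]
    exact Real.sin_le_sin_of_le_of_le_pi_div_two (by linarith [Real.pi_pos]) (by linarith)
      (by linarith)

theorem ZVL_cos {φ0 θ φ : ℝ} (h0 : 0 < φ0) (hθ : θ ∈ Icc 0 π) (hφ : φ ∈ Icc φ0 (π - φ0)) :
    2 * Real.sin (φ0 / 2) / π * |θ - φ| ≤ |Real.cos θ - Real.cos φ| := by
  have hpi := Real.pi_pos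
  rw [Real.cos_sub_cos, abs_mul, abs_mul]
  have h1 : Real.sin (φ0 / 2) ≤ Real.sin ((θ + φ) / 2) :=
    ZVL_sin (by linarith) (by linarith [hθ.1, hφ.1]) (by linarith [hθ.2, hφ.2])
  have h2 : 0 ≤ Real.sin (φ0 / 2) := Real.sin_nonneg_of_nonneg_of_le_pi (by linarith)
    (by linarith [hφ.1, hφ.2])
  have h3 : 2 / π * |(θ - φ) / 2| ≤ |Real.sin ((θ - φ) / 2)| := by
    apply Real.mul_abs_le_abs_sin
    rw [abs_le]
    constructor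
    · linarith [hθ.1, hφ.2]
    · linarith [hθ.2, hφ.1]
  rw [abs_div, abs_two] at h3
  rw [abs_neg, abs_two, abs_of_nonneg (h2.trans h1)]
  have h4 : 0 ≤ |θ - φ| := abs_nonneg _
  have h5 : 2 * Real.sin (φ0 / 2) / π * |θ - φ| = 2 * Real.sin (φ0 / 2) * (2 / π * (|θ - φ| / 2)) := by
    ring
  rw [h5]
  apply mul_le_mul _ h3 (by positivity) (by linarith)
  linarith

theorem ZVL_key {v₀ : ℝ} (hv₀ : v₀ ∈ Ioo (-1 : ℝ) 1) : ∃ C : ℝ, ∀ (f : ℝ → ℝ) (K ρ : ℝ), 0 ≤ K →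
    1 ≤ ρ → (∀ θ, 0 ≤ f θ) → (∀ θ ∈ Ioo (0 : ℝ) π, ρ * Real.cos θ + v₀ ≠ 0 →
      f θ ≤ K * (1 + |ρ * Real.cos θ + v₀| ^ (-(1 / 4) : ℝ))) →
    ∫ θ in (0 : ℝ)..π, f θ ≤ K * C := by
  have hpi := Real.pi_pos
  have habs : |v₀| < 1 := abs_lt.2 hv₀
  have hφ0p : 0 < Real.arccos |v₀| := Real.arccos_pos.2 habs
  have hφ0h : Real.arccos |v₀| ≤ π / 2 := Real.arccos_le_pi_div_two.2 (abs_nonneg _)
  obtain ⟨φ0, hφ0⟩ : ∃ φ0, φ0 = Real.arccos |v₀| := ⟨_, rfl⟩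
  rw [← hφ0] at hφ0p hφ0h
  obtain ⟨c, hc⟩ : ∃ c, c = 2 * Real.sin (φ0 / 2) / π := ⟨_, rfl⟩
  have hcp : 0 < c := by
    rw [hc]
    have : 0 < Real.sin (φ0 / 2) := Real.sin_pos_of_pos_of_lt_pi (by linarith) (by linarith)
    positivity
  have hcq : 0 ≤ c ^ (-(1 / 4) : ℝ) := Real.rpow_nonneg hcp.le _
  refine ⟨π + c ^ (-(1 / 4) : ℝ) * ∫ t in (-π)..π, |t| ^ (-(1 / 4) : ℝ),
    fun f K ρ hK hρ hf hb => ?_⟩
  have hρ0 : 0 < ρ := by linarith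
  have hle : |-v₀ / ρ| ≤ |v₀| := by
    rw [abs_div, abs_neg, abs_of_pos hρ0]
    exact div_le_self (abs_nonneg _) hρ
  obtain ⟨h3, h4⟩ := abs_le.1 hle
  obtain ⟨φ, hφd⟩ : ∃ φ, φ = Real.arccos (-v₀ / ρ) := ⟨_, rfl⟩
  have hcφ : Real.cos φ = -v₀ / ρ := by
    rw [hφd]; exact Real.cos_arccos (by linarith) (by linarith)
  have hφ1 : φ0 ≤ φ := by
    rw [hφ0, hφd]; exact Real.arccos_le_arccos h4
  have hφ2 : φ ≤ π - φ0 := by
    rw [hφ0, hφd, ← Real.arccos_neg]; exact Real.arccos_le_arccos h3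
  have hlow : ∀ θ ∈ Icc (0 : ℝ) π, c * |θ - φ| ≤ |ρ * Real.cos θ + v₀| := by
    intro θ hθ
    have h5 := ZVL_cos hφ0p hθ ⟨hφ1, hφ2⟩
    rw [← hc, hcφ] at h5
    have h6 : ρ * Real.cos θ + v₀ = ρ * (Real.cos θ - -v₀ / ρ) := by
      field_simp
      ring
    rw [h6, abs_mul, abs_of_pos hρ0]
    have h7 : 0 ≤ |Real.cos θ - -v₀ / ρ| := abs_nonneg _
    nlinarith
  have hmono : ∫ θ in (0 : ℝ)..π, |θ - φ| ^ (-(1 / 4) : ℝ) ≤ ∫ t in (-π)..π, |t| ^ (-(1 / 4) : ℝ) := by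
    rw [intervalIntegral.integral_comp_sub_right (fun t : ℝ => |t| ^ (-(1 / 4) : ℝ)) φ]
    exact intervalIntegral.integral_mono_interval (by linarith) (by linarith) (by linarith)
      (Eventually.of_forall fun t => Real.rpow_nonneg (abs_nonneg _) _) ZVL_ii
  have hii : IntervalIntegrable (fun θ : ℝ => |θ - φ| ^ (-(1 / 4) : ℝ)) volume 0 π := by
    have h8 : IntervalIntegrable (fun t : ℝ => |t| ^ (-(1 / 4) : ℝ)) volume (0 - φ) (π - φ) := by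
      refine ZVL_ii.mono_set ?_
      rw [uIcc_of_le (by linarith), uIcc_of_le (by linarith)]
      exact Icc_subset_Icc (by linarith) (by linarith)
    have h9 := h8.comp_sub_right φ
    simpa using h9
  have hg : IntervalIntegrable (fun θ : ℝ => K * (1 + c ^ (-(1 / 4) : ℝ) * |θ - φ| ^ (-(1 / 4) : ℝ)))
      volume 0 π :=
    (intervalIntegrable_const.add (hii.const_mul _)).const_mul _
  calc ∫ θ in (0 : ℝ)..π, f θ
      ≤ ∫ θ in (0 : ℝ)..π, K * (1 + c ^ (-(1 / 4) : ℝ) * |θ - φ| ^ (-(1 / 4) : ℝ)) := by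
        rw [intervalIntegral.integral_of_le hpi.le, intervalIntegral.integral_of_le hpi.le]
        refine integral_mono_of_nonneg (Eventually.of_forall hf) hg.1 ?_
        rw [EventuallyLE, ae_restrict_iff' measurableSet_Ioc]
        filter_upwards [compl_mem_ae_iff.2 (measure_singleton φ),
          compl_mem_ae_iff.2 (measure_singleton π)] with θ h1 h2 hθ
        have h10 : θ ∈ Ioo 0 π := ⟨hθ.1, lt_of_le_of_ne hθ.2 h2⟩
        have h11 : 0 < |θ - φ| := abs_pos.2 (sub_ne_zero.2 h1)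
        have h12 := hlow θ ⟨hθ.1.le, hθ.2⟩
        have h13 : 0 < c * |θ - φ| := by positivity
        refine (hb θ h10 (abs_pos.1 (h13.trans_le h12))).trans ?_
        have h14 : |ρ * Real.cos θ + v₀| ^ (-(1 / 4) : ℝ) ≤
            c ^ (-(1 / 4) : ℝ) * |θ - φ| ^ (-(1 / 4) : ℝ) := by
          rw [← Real.mul_rpow hcp.le h11.le]
          exact Real.rpow_le_rpow_of_nonpos h13 h12 (by norm_num)
        exact mul_le_mul_of_nonneg_left (by linarith) hK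
    _ = K * (π + c ^ (-(1 / 4) : ℝ) * ∫ θ in (0 : ℝ)..π, |θ - φ| ^ (-(1 / 4) : ℝ)) := by
        rw [intervalIntegral.integral_const_mul, intervalIntegral.integral_add
          intervalIntegrable_const (hii.const_mul _), intervalIntegral.integral_const,
          intervalIntegral.integral_const_mul]
        simp
    _ ≤ K * (π + c ^ (-(1 / 4) : ℝ) * ∫ t in (-π)..π, |t| ^ (-(1 / 4) : ℝ)) := by
        apply mul_le_mul_of_nonneg_left _ hK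
        have := mul_le_mul_of_nonneg_left hmono hcq
        linarith

theorem ZVL_uim {z : ℂ} (hz : ‖z‖ < 1) (hi : 0 < z.im) : z ≠ 0 ∧ 0 < (uz z).im := by
  have h0 : z ≠ 0 := by rintro rfl; simp at hi
  refine ⟨h0, ?_⟩
  rw [ZF_uz_im h0]
  have h1 : 0 < ‖z‖ := norm_pos_iff.2 h0
  have h2 : 1 < 1 / ‖z‖ ^ 2 := by
    rw [lt_div_iff₀ (by positivity)]
    nlinarith
  have : 0 < 1 / ‖z‖ ^ 2 - 1 := by linarith
  positivity

theorem ZVL_T {E : Set ℝ} {v₀ : ℝ} {e : ℝ → ℝ} (hLk : Lock E v₀ e) (δ : ℝ) (hδ : 0 < δ)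
    (h1 : -1 ≤ v₀ - δ) (h2 : v₀ + δ ≤ 1) :
    ∃ C : ℝ, ∀ hL hR : ℝ, 0 ≤ hL → hL ≤ 5 → 0 ≤ hR → hR ≤ 5 → ∀ z : ℂ, ‖z‖ < 1 → 0 < z.im →
      ‖Tf v₀ δ e hL hR z‖ ≤
        Real.exp (C - 7 / 8 * ((hL + hR) / π) * max 0 (Real.log (1 / ‖uz z - v₀‖))) := by
  have hpi := Real.pi_pos
  obtain ⟨C1, hC1⟩ := ZK_left hLk δ hδ h1 h2 (1 / 8) (by norm_num)
  obtain ⟨C2, hC2⟩ := ZK_right hLk δ hδ h1 h2 (1 / 8) (by norm_num)
  refine ⟨(5 * |C1| + 5 * |C2|) / π, fun hL hR a1 a2 a3 a4 z hz hi => ?_⟩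
  obtain ⟨h0, hu⟩ := ZVL_uim hz hi
  have b1 := hC1 _ hu
  have b2 := hC2 _ hu
  obtain ⟨L, hLd⟩ : ∃ L, L = max 0 (Real.log (1 / ‖uz z - v₀‖)) := ⟨_, rfl⟩
  rw [← hLd] at b1 b2 ⊢
  have hre : ∀ φ : ℝ → ℝ, (Cv φ z).re = 1 / π * (∫ v in (-1 : ℝ)..1, (φ v : ℂ) / (v - uz z)).re := by
    intro φ
    rw [ZF_eq φ hz h0]
    have h3 : (1 / (π : ℂ)) = ((1 / π : ℝ) : ℂ) := by push_cast; rfl
    rw [h3, Complex.re_ofReal_mul]
  rw [Tf, Complex.norm_exp]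
  apply Real.exp_le_exp.2
  rw [Complex.sub_re, Complex.re_ofReal_mul, Complex.re_ofReal_mul, hre, hre]
  obtain ⟨a, ha⟩ : ∃ a, a = (∫ v in (-1 : ℝ)..1, ((chiL v₀ δ v * e v : ℝ) : ℂ) / (v - uz z)).re :=
    ⟨_, rfl⟩
  obtain ⟨b, hb⟩ : ∃ b, b = (∫ v in (-1 : ℝ)..1, ((chiR v₀ δ v * e v : ℝ) : ℂ) / (v - uz z)).re :=
    ⟨_, rfl⟩
  rw [← ha] at b1 ⊢
  rw [← hb] at b2 ⊢
  have c1 : hL * a ≤ hL * (-(1 - 1 / 8) * L + C1) := mul_le_mul_of_nonneg_left b1 a1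
  have c2 : hR * ((1 - 1 / 8) * L - C2) ≤ hR * b := mul_le_mul_of_nonneg_left b2 a3
  have c3 : hL * C1 ≤ 5 * |C1| := by
    calc hL * C1 ≤ hL * |C1| := mul_le_mul_of_nonneg_left (le_abs_self _) a1
      _ ≤ 5 * |C1| := mul_le_mul_of_nonneg_right a2 (abs_nonneg _)
  have c4 : hR * C2 ≤ 5 * |C2| := by
    calc hR * C2 ≤ hR * |C2| := mul_le_mul_of_nonneg_left (le_abs_self _) a3
      _ ≤ 5 * |C2| := mul_le_mul_of_nonneg_right a4 (abs_nonneg _)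
  have e1 : hL * (1 / π * a) - hR * (1 / π * b) = (hL * a - hR * b) / π := by ring
  have e2 : (5 * |C1| + 5 * |C2|) / π - 7 / 8 * ((hL + hR) / π) * L =
      (5 * |C1| + 5 * |C2| - 7 / 8 * (hL + hR) * L) / π := by ring
  rw [e1, e2]
  apply div_le_div_of_nonneg_right _ hpi.le
  nlinarith

theorem ZVL_exp {d : ℝ} (hd : 0 < d) :
    1 / d ≤ Real.exp (max 0 (Real.log (1 / d))) ∧
      Real.exp (max 0 (Real.log (1 / d)) / 4) ≤ 1 + d ^ (-(1 / 4) : ℝ) := by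
  constructor
  · calc 1 / d = Real.exp (Real.log (1 / d)) := (Real.exp_log (by positivity)).symm
      _ ≤ _ := Real.exp_le_exp.2 (le_max_right _ _)
  · have h0 : 0 ≤ d ^ (-(1 / 4) : ℝ) := Real.rpow_nonneg hd.le _
    rcases le_total (Real.log (1 / d)) 0 with h | h
    · rw [max_eq_left h]
      simp only [zero_div, Real.exp_zero]
      linarith
    · rw [max_eq_right h, Real.rpow_def_of_pos hd]
      have h1 : Real.log (1 / d) / 4 = Real.log d * -(1 / 4) := by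
        rw [one_div, Real.log_inv]; ring
      rw [h1]
      linarith

/-- the estimate of both functions -/
theorem ZVL_pt {v₀ : ℝ} {e : ℝ → ℝ} (hv₀ : v₀ ∈ Ioo (-1 : ℝ) 1) {δ C hL hR : ℝ} {z : ℂ}
    (hz : ‖z‖ < 1) (hi : 0 < z.im) (hz2 : 1 / 2 ≤ ‖z‖)
    (hT : ‖Tf v₀ δ e hL hR z‖ ≤
        Real.exp (C - 7 / 8 * ((hL + hR) / π) * max 0 (Real.log (1 / ‖uz z - v₀‖)))) :
    (π ≤ hL + hR → ‖Vb v₀ δ e hL hR z‖ ≤ Real.exp C * (1 + ‖uz z - v₀‖ ^ (-(1 / 4) : ℝ))) ∧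
    (2 * π ≤ hL + hR → ‖Va v₀ δ e hL hR z‖ ≤ Real.exp C * (1 + ‖uz z - v₀‖ ^ (-(1 / 4) : ℝ))) := by
  have hpi := Real.pi_pos
  obtain ⟨h0, hu⟩ := ZVL_uim hz hi
  have hd : 0 < ‖uz z - v₀‖ := by
    rw [norm_pos_iff]
    intro h
    have := congrArg Complex.im h
    simp at this
    linarith
  obtain ⟨k1, k2⟩ := ZF_kv hz h0 (v := v₀) ⟨hv₀.1.le, hv₀.2.le⟩
  obtain ⟨d, hdd⟩ : ∃ d, d = ‖uz z - v₀‖ := ⟨_, rfl⟩
  rw [← hdd] at hd hT ⊢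
  have hkn : ‖z / (z ^ 2 + 2 * v₀ * z + 1)‖ = 1 / 2 * (1 / d) := by
    have h3 : z / (z ^ 2 + 2 * v₀ * z + 1) = 1 / 2 * kv v₀ z := by
      rw [kv]; ring
    rw [h3, k1, norm_mul, norm_div, norm_div, norm_sub_rev, ← hdd]
    simp
  obtain ⟨L, hLd⟩ : ∃ L, L = max 0 (Real.log (1 / d)) := ⟨_, rfl⟩
  obtain ⟨e1, e2⟩ := ZVL_exp hd
  rw [← hLd] at hT e1 e2
  have hL0 : 0 ≤ L := by rw [hLd]; exact le_max_left _ _
  have hC0 : 0 < Real.exp C := Real.exp_pos _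
  constructor
  · intro hs
    rw [Vb, norm_mul, hkn]
    have h4 : 1 ≤ (hL + hR) / π := by rw [le_div_iff₀ hpi]; linarith
    calc 1 / 2 * (1 / d) * ‖Tf v₀ δ e hL hR z‖
        ≤ 1 / 2 * Real.exp L * Real.exp (C - 7 / 8 * ((hL + hR) / π) * L) := by
          apply mul_le_mul _ hT (norm_nonneg _) (by positivity)
          linarith
      _ = 1 / 2 * Real.exp (L + (C - 7 / 8 * ((hL + hR) / π) * L)) := by
          rw [Real.exp_add]; ring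
      _ ≤ 1 / 2 * Real.exp (C + L / 4) := by
          have h5 : L + (C - 7 / 8 * ((hL + hR) / π) * L) ≤ C + L / 4 := by nlinarith
          have := Real.exp_le_exp.2 h5
          linarith
      _ ≤ Real.exp (C + L / 4) := by
          have := Real.exp_pos (C + L / 4)
          linarith
      _ = Real.exp C * Real.exp (L / 4) := Real.exp_add _ _
      _ ≤ _ := mul_le_mul_of_nonneg_left e2 hC0.le
  · intro hs
    have h4 : 2 ≤ (hL + hR) / π := by rw [le_div_iff₀ hpi]; linarith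
    have hVa : ‖Va v₀ δ e hL hR z‖ =
        ‖z ^ 2 - 1‖ / ‖z‖ * (1 / 2) * (1 / 2 * (1 / d)) ^ 2 * ‖Tf v₀ δ e hL hR z‖ := by
      have h5 : (z ^ 2 - 1) * z / (2 * Complex.I * (z ^ 2 + 2 * v₀ * z + 1) ^ 2) =
          (z ^ 2 - 1) / z * (1 / (2 * Complex.I)) * (z / (z ^ 2 + 2 * v₀ * z + 1)) ^ 2 := by
        field_simp
      rw [Va, norm_mul, h5, norm_mul, norm_mul, norm_pow, hkn, norm_div]
      simp
    have h6 : ‖z ^ 2 - 1‖ / ‖z‖ ≤ 4 := by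
      have h7 : 0 < ‖z‖ := by linarith
      rw [div_le_iff₀ h7]
      have h8 : ‖z ^ 2 - 1‖ ≤ ‖z‖ ^ 2 + 1 := by
        have := norm_sub_le (z ^ 2) 1
        rw [norm_pow, norm_one] at this
        exact this
      nlinarith
    rw [hVa]
    have h9 : ‖z ^ 2 - 1‖ / ‖z‖ * (1 / 2) * (1 / 2 * (1 / d)) ^ 2 ≤ 1 / 2 * Real.exp (2 * L) := by
      have h10 : Real.exp (2 * L) = Real.exp L * Real.exp L := by rw [← Real.exp_add]; ring_nf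
      have h11 : (1 / d) ^ 2 ≤ Real.exp L * Real.exp L := by
        rw [pow_two]
        exact mul_le_mul e1 e1 (by positivity) (Real.exp_pos _).le
      have h12 : 0 ≤ (1 / d) ^ 2 := by positivity
      rw [h10]
      have h13 : ‖z ^ 2 - 1‖ / ‖z‖ * (1 / 2) * (1 / 2 * (1 / d)) ^ 2 =
          ‖z ^ 2 - 1‖ / ‖z‖ * (1 / 8 * (1 / d) ^ 2) := by ring
      rw [h13]
      have h14 : ‖z ^ 2 - 1‖ / ‖z‖ * (1 / 8 * (1 / d) ^ 2) ≤ 4 * (1 / 8 * (1 / d) ^ 2) :=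
        mul_le_mul_of_nonneg_right h6 (by positivity)
      linarith
    calc ‖z ^ 2 - 1‖ / ‖z‖ * (1 / 2) * (1 / 2 * (1 / d)) ^ 2 * ‖Tf v₀ δ e hL hR z‖
        ≤ 1 / 2 * Real.exp (2 * L) * Real.exp (C - 7 / 8 * ((hL + hR) / π) * L) :=
          mul_le_mul h9 hT (norm_nonneg _) (by positivity)
      _ = 1 / 2 * Real.exp (2 * L + (C - 7 / 8 * ((hL + hR) / π) * L)) := by
          rw [Real.exp_add]; ring
      _ ≤ 1 / 2 * Real.exp (C + L / 4) := by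
          have h5 : 2 * L + (C - 7 / 8 * ((hL + hR) / π) * L) ≤ C + L / 4 := by nlinarith
          have := Real.exp_le_exp.2 h5
          linarith
      _ ≤ Real.exp (C + L / 4) := by
          have := Real.exp_pos (C + L / 4)
          linarith
      _ = Real.exp C * Real.exp (L / 4) := Real.exp_add _ _
      _ ≤ _ := mul_le_mul_of_nonneg_left e2 hC0.le

/-- the points of the circle -/
theorem ZVL_circ {v₀ : ℝ} {r θ : ℝ} (hr : 1 / 2 ≤ r) (hr1 : r < 1) (hθ : θ ∈ Ioo (0 : ℝ) π) :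
    ‖(r * Complex.exp (θ * Complex.I) : ℂ)‖ = r ∧ 0 < (r * Complex.exp (θ * Complex.I) : ℂ).im ∧
      ((r + 1 / r) / 2 * Real.cos θ + v₀ ≠ 0 →
        ‖uz (r * Complex.exp (θ * Complex.I)) - v₀‖ ^ (-(1 / 4) : ℝ) ≤
          |(r + 1 / r) / 2 * Real.cos θ + v₀| ^ (-(1 / 4) : ℝ)) := by
  have hr0 : 0 < r := by linarith
  refine ⟨?_, ?_, fun h => ?_⟩
  · rw [norm_mul, Complex.norm_exp_ofReal_mul_I, mul_one, Complex.norm_real, Real.norm_eq_abs,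
      abs_of_pos hr0]
  · rw [Complex.im_ofReal_mul, Complex.exp_ofReal_mul_I_im]
    exact mul_pos hr0 (Real.sin_pos_of_pos_of_lt_pi hθ.1 hθ.2)
  · apply Real.rpow_le_rpow_of_nonpos (abs_pos.2 h) _ (by norm_num)
    rw [ZF_uz_polar hr0]
    refine le_trans (le_of_eq ?_) (Complex.abs_re_le_norm _)
    have h1 : (-(((r + 1 / r) * Real.cos θ / 2 : ℝ) : ℂ) + ((1 / r - r) * Real.sin θ / 2 : ℝ) * Complex.I
        - v₀).re = -((r + 1 / r) / 2 * Real.cos θ + v₀) := by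
      simp only [Complex.sub_re, Complex.add_re, Complex.neg_re, Complex.ofReal_re,
        Complex.mul_re, Complex.I_re, Complex.I_im, Complex.ofReal_im]
      ring
    rw [h1, abs_neg]

theorem ZVL_rho {r : ℝ} (hr : 1 / 2 ≤ r) : 1 ≤ (r + 1 / r) / 2 := by
  have hr0 : 0 < r := by linarith
  rw [le_div_iff₀ (by norm_num)]
  have h1 : r + 1 / r = 2 + (r - 1) ^ 2 / r := by field_simp; ring
  rw [h1]
  have : 0 ≤ (r - 1) ^ 2 / r := by positivity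
  linarith

theorem ZVL_b {E : Set ℝ} {v₀ : ℝ} {e : ℝ → ℝ} (hLk : Lock E v₀ e) (hsub : E ⊆ Ioo (-1) 1)
    (hv₀ : v₀ ∈ E) (δ : ℝ) (hδ : 0 < δ) (h1 : -1 ≤ v₀ - δ) (h2 : v₀ + δ ≤ 1) :
    ∃ C : ℝ, ∀ hL hR : ℝ, 0 ≤ hL → hL ≤ 5 → 0 ≤ hR → hR ≤ 5 → π ≤ hL + hR →
      ∀ r : ℝ, 1 / 2 ≤ r → r < 1 →
        ∫ θ in (0 : ℝ)..π, ‖Vb v₀ δ e hL hR (r * Complex.exp (θ * Complex.I))‖ ≤ C := by
  obtain ⟨C, hC⟩ := ZVL_T hLk δ hδ h1 h2
  obtain ⟨C', hC'⟩ := ZVL_key (hsub hv₀)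
  refine ⟨Real.exp C * C', fun hL hR a1 a2 a3 a4 hs r hr hr1 => ?_⟩
  refine hC' _ _ _ (Real.exp_pos _).le (ZVL_rho hr) (fun θ => norm_nonneg _) fun θ hθ hne => ?_
  obtain ⟨b1, b2, b3⟩ := ZVL_circ (v₀ := v₀) hr hr1 hθ
  have h3 := (ZVL_pt (hsub hv₀) (by rw [b1]; exact hr1) b2 (by rw [b1]; exact hr)
    (hC hL hR a1 a2 a3 a4 _ (by rw [b1]; exact hr1) b2)).1 hs
  refine h3.trans (mul_le_mul_of_nonneg_left ?_ (Real.exp_pos _).le)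
  linarith [b3 hne]

theorem ZVL_a {E : Set ℝ} {v₀ : ℝ} {e : ℝ → ℝ} (hLk : Lock E v₀ e) (hsub : E ⊆ Ioo (-1) 1)
    (hv₀ : v₀ ∈ E) (δ : ℝ) (hδ : 0 < δ) (h1 : -1 ≤ v₀ - δ) (h2 : v₀ + δ ≤ 1) :
    ∃ C : ℝ, ∀ hL hR : ℝ, 0 ≤ hL → hL ≤ 5 → 0 ≤ hR → hR ≤ 5 → 2 * π ≤ hL + hR →
      ∀ r : ℝ, 1 / 2 ≤ r → r < 1 →
        ∫ θ in (0 : ℝ)..π, ‖Va v₀ δ e hL hR (r * Complex.exp (θ * Complex.I))‖ ≤ C := by
  obtain ⟨C, hC⟩ := ZVL_T hLk δ hδ h1 h2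
  obtain ⟨C', hC'⟩ := ZVL_key (hsub hv₀)
  refine ⟨Real.exp C * C', fun hL hR a1 a2 a3 a4 hs r hr hr1 => ?_⟩
  refine hC' _ _ _ (Real.exp_pos _).le (ZVL_rho hr) (fun θ => norm_nonneg _) fun θ hθ hne => ?_
  obtain ⟨b1, b2, b3⟩ := ZVL_circ (v₀ := v₀) hr hr1 hθ
  have h3 := (ZVL_pt (hsub hv₀) (by rw [b1]; exact hr1) b2 (by rw [b1]; exact hr)
    (hC hL hR a1 a2 a3 a4 _ (by rw [b1]; exact hr1) b2)).2 hs
  refine h3.trans (mul_le_mul_of_nonneg_left ?_ (Real.exp_pos _).le)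
  linarith [b3 hne]

end

end Pool.H90.VK
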