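import Pool.Agent.H90.VK.ZV

/-!
# ZVW : `ZVL_low`, the lower bound (proof in the header of ZVL)
-/

open MeasureTheory Set Filter Topology Metric
open scoped Real ENNReal ComplexConjugate

namespace Pool.H90.VK

noncomputable section

theorem ZVW_re (φ : ℝ → ℝ) {z : ℂ} (hz : ‖z‖ < 1) (h0 : z ≠ 0) :
    (Cv φ z).re = 1 / π * (∫ v in (-1 : ℝ)..1, (φ v : ℂ) / (v - uz z)).re := by
  rw [ZF_eq φ hz h0]
  have h1 : (1 / (π : ℂ)) = ((1 / π : ℝ) : ℂ) := by push_cast; ring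
  rw [h1, Complex.re_ofReal_mul]

theorem ZVW_Tf {v₀ δ : ℝ} {e : ℝ → ℝ} {C hL hR : ℝ} {z : ℂ} (hz : ‖z‖ < 1) (h0 : z ≠ 0)
    (hL0 : 0 ≤ hL) (hL5 : hL ≤ 5) (hR0 : 0 ≤ hR) (hR5 : hR ≤ 5)
    (hCR : |(∫ v in (-1 : ℝ)..1, ((chiR v₀ δ v * e v : ℝ) : ℂ) / (v - uz z)).re| ≤ C)
    (hCL : |(∫ v in (-1 : ℝ)..1, ((chiL v₀ δ v * e v : ℝ) : ℂ) / (v - uz z)).re| ≤ C) :
    Real.exp (-(10 * C / π)) ≤ ‖Tf v₀ δ e hL hR z‖ := by
  have hπ := Real.pi_pos
  unfold Tf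
  rw [Complex.norm_exp, Complex.sub_re, Complex.re_ofReal_mul, Complex.re_ofReal_mul,
    ZVW_re _ hz h0, ZVW_re _ hz h0]
  apply Real.exp_le_exp.2
  have h1 := abs_le.1 hCR
  have h2 := abs_le.1 hCL
  set CL : ℝ := (∫ v in (-1 : ℝ)..1, ((chiL v₀ δ v * e v : ℝ) : ℂ) / (v - uz z)).re with hCL'
  set CR : ℝ := (∫ v in (-1 : ℝ)..1, ((chiR v₀ δ v * e v : ℝ) : ℂ) / (v - uz z)).re with hCR'
  have hC0 : 0 ≤ C := (abs_nonneg _).trans hCR
  have h3 : -(5 * C) ≤ hL * CL := by nlinarith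
  have h4 : hR * CR ≤ 5 * C := by nlinarith
  have h5 : hL * (1 / π * CL) - hR * (1 / π * CR) = 1 / π * (hL * CL - hR * CR) := by ring
  have h6 : -(10 * C / π) = 1 / π * (-(10 * C)) := by ring
  show -(10 * C / π) ≤ hL * (1 / π * CL) - hR * (1 / π * CR)
  rw [h5, h6]
  apply mul_le_mul_of_nonneg_left _ (by positivity)
  linarith

theorem ZVL_low {E : Set ℝ} {v₀ : ℝ} {e : ℝ → ℝ} (hLk : Lock E v₀ e) (hsub : E ⊆ Ioo (-1) 1)
    (hv₀ : v₀ ∈ E) (δ : ℝ) (hδ : 0 < δ) (h1 : -1 ≤ v₀ - δ) (h2 : v₀ + δ ≤ 1) :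
    ∃ c r₁ : ℝ, 0 < c ∧ 1 / 2 ≤ r₁ ∧ r₁ < 1 ∧
      ∀ hL hR : ℝ, 0 ≤ hL → hL ≤ 5 → 0 ≤ hR → hR ≤ 5 →
      ∀ r : ℝ, r₁ < r → r < 1 → ∀ θ ∈ Ioo (0 : ℝ) π, δ / 4 ≤ |-Real.cos θ - v₀| →
        |-Real.cos θ - v₀| ≤ 3 * δ / 4 →
        c ≤ ‖Vb v₀ δ e hL hR (r * Complex.exp (θ * Complex.I))‖ ∧
          c ≤ ‖Va v₀ δ e hL hR (r * Complex.exp (θ * Complex.I))‖ := by
  have hv1 := hsub hv₀
  obtain ⟨C, hC⟩ := ZK_far hLk δ hδ h1 h2 (δ / 8) (by positivity)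
  have hδ1 : δ ≤ 1 := by linarith
  refine ⟨δ / 4 * (1 / 64) * Real.exp (-(10 * C / π)), max (1 / 2) (1 - δ / 8), by positivity,
    le_max_left _ _, max_lt (by norm_num) (by linarith), ?_⟩
  intro hL hR hL0 hL5 hR0 hR5 r hr hr1 θ hθ hd1 hd2
  have hr2 : 1 / 2 < r := lt_of_le_of_lt (le_max_left _ _) hr
  have hr3 : 1 - δ / 8 < r := lt_of_le_of_lt (le_max_right _ _) hr
  have hr0 : 0 < r := by linarith
  set z : ℂ := r * Complex.exp (θ * Complex.I) with hzdef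
  have hzn : ‖z‖ = r := by
    rw [hzdef, norm_mul, Complex.norm_exp_ofReal_mul_I, mul_one, Complex.norm_real,
      Real.norm_of_nonneg hr0.le]
  have hz1 : ‖z‖ < 1 := by rw [hzn]; exact hr1
  have hz0 : z ≠ 0 := by
    rw [← norm_ne_zero_iff, hzn]
    exact hr0.ne'
  have hzre : z.re = r * Real.cos θ := by
    rw [hzdef, Complex.re_ofReal_mul, Complex.exp_ofReal_mul_I_re]
  have hzim : z.im = r * Real.sin θ := by
    rw [hzdef, Complex.im_ofReal_mul, Complex.exp_ofReal_mul_I_im]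
  have hsin : 0 < Real.sin θ := Real.sin_pos_of_pos_of_lt_pi hθ.1 hθ.2
  -- the point `u`
  have hu := ZF_uz_polar (r := r) (θ := θ) hr0
  rw [← hzdef] at hu
  have hure : (uz z).re = -((r + 1 / r) * Real.cos θ / 2) := by
    rw [hu]
    simp only [Complex.add_re, Complex.neg_re, Complex.ofReal_re, Complex.mul_re, Complex.I_re,
      mul_zero, Complex.ofReal_im, Complex.I_im, mul_one, sub_self, add_zero]
  have huim : (uz z).im = (1 / r - r) * Real.sin θ / 2 := by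
    rw [hu]
    simp only [Complex.add_im, Complex.neg_im, Complex.ofReal_re, Complex.mul_im, Complex.I_re,
      mul_zero, Complex.ofReal_im, Complex.I_im, mul_one, neg_zero, add_zero, zero_add]
  have hinv : 1 < 1 / r := by
    rw [lt_div_iff₀ hr0]
    linarith
  have hinv2 : 1 / r < 2 := by
    rw [div_lt_iff₀ hr0]
    linarith
  have hrr : r * (1 / r) = 1 := by field_simp
  have huim0 : 0 < (uz z).im := by
    rw [huim]
    have : 0 < 1 / r - r := by linarith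
    positivity
  have hcos := abs_le.1 (Real.abs_cos_le_one θ)
  have hrho : (r + 1 / r) / 2 - 1 < δ / 8 := by
    have h3 : 1 / r - 1 < 2 * (1 - r) := by nlinarith
    linarith
  have hrho0 : 0 ≤ (r + 1 / r) / 2 - 1 := by
    nlinarith [sq_nonneg (r - 1 / r), hrr]
  have hfar : δ / 8 ≤ |(uz z).re - v₀| := by
    have h3 : (uz z).re - v₀ = (-Real.cos θ - v₀) - ((r + 1 / r) / 2 - 1) * Real.cos θ := by
      rw [hure]
      ring
    have h4 : |((r + 1 / r) / 2 - 1) * Real.cos θ| ≤ δ / 8 := by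
      rw [abs_mul, abs_of_nonneg hrho0]
      calc ((r + 1 / r) / 2 - 1) * |Real.cos θ| ≤ ((r + 1 / r) / 2 - 1) * 1 :=
            mul_le_mul_of_nonneg_left (Real.abs_cos_le_one θ) hrho0
        _ ≤ δ / 8 := by linarith
    have h5 := abs_sub_abs_le_abs_sub (-Real.cos θ - v₀) (((r + 1 / r) / 2 - 1) * Real.cos θ)
    rw [← h3] at h5
    linarith
  obtain ⟨hCR, hCL⟩ := hC (uz z) huim0 hfar
  have hTf := ZVW_Tf (v₀ := v₀) (δ := δ) (e := e) hz1 hz0 hL0 hL5 hR0 hR5 hCR hCL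
  -- the kernel
  have hv₀I : v₀ ∈ Icc (-1 : ℝ) 1 := ⟨by linarith [hv1.1], by linarith [hv1.2]⟩
  have hne := ZF_ne hz1 hv₀I
  obtain ⟨hkv, hsub0⟩ := ZF_kv hz1 hz0 hv₀I
  have hker : z / (z ^ 2 + 2 * v₀ * z + 1) = 1 / (2 * (v₀ - uz z)) := by
    have h3 : 2 * z / (z ^ 2 + 2 * v₀ * z + 1) = 1 / (v₀ - uz z) := hkv
    have h4 : z / (z ^ 2 + 2 * v₀ * z + 1) = 1 / 2 * (2 * z / (z ^ 2 + 2 * v₀ * z + 1)) := by ring
    rw [h4, h3]
    field_simp
  have hdist : ‖(v₀ : ℂ) - uz z‖ ≤ 4 := by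
    have h3 : ‖uz z‖ ≤ 2 := by
      unfold uz
      rw [norm_div, norm_neg]
      have h4 : ‖z + 1 / z‖ ≤ ‖z‖ + ‖1 / z‖ := norm_add_le _ _
      rw [norm_div, norm_one, hzn] at h4
      have h5 : ‖(2 : ℂ)‖ = 2 := by norm_num
      rw [h5]
      linarith
    have h4 : ‖(v₀ : ℂ)‖ ≤ 1 := by
      rw [Complex.norm_real, Real.norm_eq_abs, abs_le]
      exact ⟨hv₀I.1, hv₀I.2⟩
    have h5 := norm_sub_le (v₀ : ℂ) (uz z)
    linarith
  have hker2 : 1 / 8 ≤ ‖z / (z ^ 2 + 2 * v₀ * z + 1)‖ := by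
    rw [hker, norm_div, norm_one, norm_mul]
    have h5 : ‖(2 : ℂ)‖ = 2 := by norm_num
    rw [h5]
    have h6 : 0 < ‖(v₀ : ℂ) - uz z‖ := norm_pos_iff.2 hsub0
    apply one_div_le_one_div_of_le (by positivity)
    linarith
  have hexp0 : 0 < Real.exp (-(10 * C / π)) := Real.exp_pos _
  -- the sine
  have hsin2 : δ / 4 ≤ Real.sin θ := by
    have h3 := abs_le.1 hd2
    have h4 := Real.sin_sq_add_cos_sq θ
    have h5 := Real.sin_le_one θ
    have h6 : Real.cos θ ^ 2 ≤ (1 - δ / 4) ^ 2 := by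
      apply sq_le_sq'
      · linarith
      · linarith
    nlinarith
  have hD : 2 * r * Real.sin θ ≤ ‖z ^ 2 - 1‖ := by
    have h3 : ((z ^ 2 - 1) * conj z).im = z.im * (z.re ^ 2 + z.im ^ 2 + 1) := by
      simp only [pow_two, Complex.mul_im, Complex.sub_re, Complex.sub_im, Complex.mul_re,
        Complex.one_re, Complex.one_im, Complex.conj_re, Complex.conj_im]
      ring
    have h4 := Complex.abs_im_le_norm ((z ^ 2 - 1) * conj z)
    rw [h3, norm_mul, Complex.norm_conj, hzn] at h4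
    have h5 : z.re ^ 2 + z.im ^ 2 = r ^ 2 := by
      rw [hzre, hzim]
      nlinarith [Real.sin_sq_add_cos_sq θ]
    rw [h5, hzim, abs_of_nonneg (by positivity)] at h4
    have h6 : r * (2 * r * Real.sin θ) ≤ r * ‖z ^ 2 - 1‖ := by
      have h7 : r * Real.sin θ * (2 * r) ≤ r * Real.sin θ * (r ^ 2 + 1) := by
        apply mul_le_mul_of_nonneg_left _ (by positivity)
        nlinarith [sq_nonneg (r - 1)]
      nlinarith
    exact le_of_mul_le_mul_left h6 hr0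
  constructor
  · unfold Vb
    rw [norm_mul]
    have h3 : δ / 4 * (1 / 64) * Real.exp (-(10 * C / π)) ≤ 1 / 8 * Real.exp (-(10 * C / π)) := by
      apply mul_le_mul_of_nonneg_right _ hexp0.le
      linarith
    exact h3.trans (mul_le_mul hker2 hTf hexp0.le (norm_nonneg _))
  · unfold Va
    rw [norm_mul]
    have h3 : (z ^ 2 - 1) * z / (2 * Complex.I * (z ^ 2 + 2 * v₀ * z + 1) ^ 2) =
        (z ^ 2 - 1) / (2 * Complex.I * z) * (z / (z ^ 2 + 2 * v₀ * z + 1)) ^ 2 := by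
      have hI := Complex.I_ne_zero
      field_simp
    have h4 : δ / 4 ≤ ‖(z ^ 2 - 1) / (2 * Complex.I * z)‖ := by
      rw [norm_div, norm_mul, norm_mul, Complex.norm_I, hzn]
      have h5 : ‖(2 : ℂ)‖ = 2 := by norm_num
      rw [h5, le_div_iff₀ (by positivity)]
      have h6 : r * (δ / 4) ≤ r * Real.sin θ := mul_le_mul_of_nonneg_left hsin2 hr0.le
      linarith
    have h5 : (1 / 64 : ℝ) ≤ ‖(z / (z ^ 2 + 2 * v₀ * z + 1)) ^ 2‖ := by
      rw [norm_pow]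
      nlinarith
    rw [h3, norm_mul]
    exact mul_le_mul (mul_le_mul h4 h5 (by norm_num) (norm_nonneg _)) hTf hexp0.le
      (mul_nonneg (norm_nonneg _) (norm_nonneg _))

end

end Pool.H90.VK
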