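import Pool.Agent.H90.VK.ZX0
import Pool.Agent.H90.VK.ZVL
import Pool.Agent.H90.VK.ZVW
import Pool.Agent.H90.VK.ZQL

/-!
# ZX2 : `Im p < 0` at the lock point for `(hL, hR) = (κ, π)`, `κ` small

Mirror image of ZX1 (read its header). `τ = arccos (-v₀)`, `V = Vb` with `hL = κ ∈ (0,1]`, `hR = π`.
(1) On `ρ' = {θ : v₀ + δ/4 ≤ -cos θ ≤ v₀ + 3δ/4} = [θ_a, θ_b]`, `τ < θ_a < θ_b < π`:
 `J(r) := A_r(θ_b) - A_r(θ_a) = ∫_{ρ'} Im V ≥ c ∫_{ρ'} sin Θ`, `bdb = π - π chiR(v) e(v)`,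
 `sin (bdb) = sin (π chiR e) ≥ 0.2 e(v)`; so `liminf J(r) ≥ c δ/40 =: c₂`.
(2) `K(r) := A_r(τ) - A_r(0) = ∫_0^τ Im V ≤ ∫_0^τ |V| Θ ≤ ∫_0^τ |V| bdb + M_κ∫_0^π|Θ - bdb|`, `0 ≤ bdb ≤ κ`
 for `θ < τ`: `limsup K(r) ≤ κ C`.
(3) `0 = ∫_0^π A_r ≥ τ (A_r(τ) - K(r)) + (θ_b - τ) A_r(τ) + (π - θ_b)(A_r(τ) + J(r))`, so
 `π A_r(τ) ≤ τ K(r) - (π - θ_b) J(r)`.
-/

open MeasureTheory Set Filter Topology Metric
open scoped Real ENNReal ComplexConjugate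

namespace Pool.H90.VK

noncomputable section

/-- polar point -/
def ZX2_z (r θ : ℝ) : ℂ := r * Complex.exp (θ * Complex.I)

theorem ZX2_norm {r : ℝ} (hr : 0 ≤ r) (θ : ℝ) : ‖ZX2_z r θ‖ = r := by
  rw [ZX2_z, norm_mul, Complex.norm_exp_ofReal_mul_I, mul_one, Complex.norm_real,
    Real.norm_eq_abs, abs_of_nonneg hr]

theorem ZX2_ball {r : ℝ} (hr : 0 ≤ r) (hr1 : r < 1) (θ : ℝ) : ZX2_z r θ ∈ ball (0 : ℂ) 1 := by
  rw [mem_ball_zero_iff, ZX2_norm hr]; exact hr1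

theorem ZX2_zim (r θ : ℝ) : (ZX2_z r θ).im = r * Real.sin θ := by
  rw [ZX2_z, Complex.im_ofReal_mul, Complex.exp_ofReal_mul_I_im]

theorem ZX2_zcont (r : ℝ) : Continuous (ZX2_z r) := by
  unfold ZX2_z
  fun_prop

theorem ZX2_chiL {v₀ δ : ℝ} (hδ : 0 < δ) (v : ℝ) : 0 ≤ chiL v₀ δ v ∧ chiL v₀ δ v ≤ 1 := by
  unfold chiL
  split_ifs with h
  · have h1 : 0 < (v₀ - v) / δ := div_pos (by linarith [h.2]) hδ
    have h2 : (v₀ - v) / δ < 1 := by rw [div_lt_one hδ]; linarith [h.1]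
    constructor <;> linarith
  · constructor <;> norm_num

theorem ZX2_chiR {v₀ δ : ℝ} (hδ : 0 < δ) (v : ℝ) : 0 ≤ chiR v₀ δ v ∧ chiR v₀ δ v ≤ 1 := by
  unfold chiR
  split_ifs with h
  · have h1 : 0 < (v - v₀) / δ := div_pos (by linarith [h.1]) hδ
    have h2 : (v - v₀) / δ < 1 := by rw [div_lt_one hδ]; linarith [h.2]
    constructor <;> linarith
  · constructor <;> norm_num

theorem ZX2_chiL_meas (v₀ δ : ℝ) : Measurable (chiL v₀ δ) := by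
  unfold chiL
  refine Measurable.ite ?_ (by fun_prop) measurable_const
  exact (measurableSet_Ioo : MeasurableSet (Ioo (v₀ - δ) v₀))

theorem ZX2_chiR_meas (v₀ δ : ℝ) : Measurable (chiR v₀ δ) := by
  unfold chiR
  refine Measurable.ite ?_ (by fun_prop) measurable_const
  exact (measurableSet_Ioo : MeasurableSet (Ioo v₀ (v₀ + δ)))

theorem ZX2_bdb_meas {E : Set ℝ} {v₀ : ℝ} {e : ℝ → ℝ} (hLk : Lock E v₀ e) (δ hL hR : ℝ) :
    Measurable (bdb v₀ δ e hL hR) := by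
  unfold bdb
  have hc : Measurable (fun θ : ℝ => -Real.cos θ) := Real.measurable_cos.neg
  refine Measurable.ite (measurableSet_lt hc measurable_const) ?_ ?_
  · exact (((ZX2_chiL_meas v₀ δ).comp hc).const_mul hL).mul (hLk.meas.comp hc)
  · exact measurable_const.sub
      ((((ZX2_chiR_meas v₀ δ).comp hc).const_mul hR).mul (hLk.meas.comp hc))

theorem ZX2_bdb_range {E : Set ℝ} {v₀ : ℝ} {e : ℝ → ℝ} (hLk : Lock E v₀ e) {δ : ℝ} (hδ : 0 < δ)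
    {hL hR : ℝ} (pL : 0 ≤ hL) (pR : 0 ≤ hR) (lL : hL ≤ π) (lR : hR ≤ π) (θ : ℝ) :
    0 ≤ bdb v₀ δ e hL hR θ ∧ bdb v₀ δ e hL hR θ ≤ π := by
  unfold bdb
  have he0 := hLk.nonneg (-Real.cos θ)
  have he1 := hLk.le_one (-Real.cos θ)
  have hl := ZX2_chiL (v₀ := v₀) hδ (-Real.cos θ)
  have hr := ZX2_chiR (v₀ := v₀) hδ (-Real.cos θ)
  have hml : chiL v₀ δ (-Real.cos θ) * e (-Real.cos θ) ≤ 1 := mul_le_one₀ hl.2 he0 he1
  have hmr : chiR v₀ δ (-Real.cos θ) * e (-Real.cos θ) ≤ 1 := mul_le_one₀ hr.2 he0 he1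
  have hml0 : 0 ≤ chiL v₀ δ (-Real.cos θ) * e (-Real.cos θ) := mul_nonneg hl.1 he0
  have hmr0 : 0 ≤ chiR v₀ δ (-Real.cos θ) * e (-Real.cos θ) := mul_nonneg hr.1 he0
  split_ifs with h
  · rw [mul_assoc]
    refine ⟨mul_nonneg pL hml0, ?_⟩
    calc hL * (chiL v₀ δ (-Real.cos θ) * e (-Real.cos θ)) ≤ hL * 1 :=
          mul_le_mul_of_nonneg_left hml pL
      _ ≤ π := by linarith
  · rw [mul_assoc]
    have h1 : hR * (chiR v₀ δ (-Real.cos θ) * e (-Real.cos θ)) ≤ π :=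
      calc hR * (chiR v₀ δ (-Real.cos θ) * e (-Real.cos θ)) ≤ hR * 1 :=
            mul_le_mul_of_nonneg_left hmr pR
        _ ≤ π := by linarith
    have h2 : 0 ≤ hR * (chiR v₀ δ (-Real.cos θ) * e (-Real.cos θ)) := mul_nonneg pR hmr0
    constructor <;> linarith

theorem ZX2_den {v₀ : ℝ} {z : ℂ} (hz : ‖z‖ < 1) (hi : 0 < z.im) :
    z ^ 2 + 2 * v₀ * z + 1 ≠ 0 := by
  intro h
  have h1 := congrArg Complex.re h
  have h2 := congrArg Complex.im h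
  simp only [Complex.add_re, Complex.add_im, pow_two, Complex.mul_re, Complex.mul_im,
    Complex.one_re, Complex.one_im, Complex.zero_re, Complex.zero_im, Complex.ofReal_re,
    Complex.ofReal_im, Complex.re_ofNat, Complex.im_ofNat] at h1 h2
  have h3 : z.re = -v₀ := by
    have : z.im * (2 * (z.re + v₀)) = 0 := by linarith
    rcases mul_eq_zero.1 this with h4 | h4
    · exact absurd h4 hi.ne'
    · linarith
  have h5 : z.re ^ 2 + z.im ^ 2 = 1 := by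
    rw [h3] at h1 ⊢
    linarith
  have h6 : ‖z‖ ^ 2 = 1 := by
    rw [← Complex.normSq_eq_norm_sq, Complex.normSq_apply]
    linarith
  have h7 : ‖z‖ ^ 2 < 1 := by
    have := norm_nonneg z
    nlinarith
  linarith

theorem ZX2_Vne {v₀ δ : ℝ} {e : ℝ → ℝ} {hL hR : ℝ} {z : ℂ} (hz : ‖z‖ < 1) (hi : 0 < z.im) :
    Vb v₀ δ e hL hR z ≠ 0 := by
  unfold Vb Tf
  refine mul_ne_zero (div_ne_zero ?_ (ZX2_den hz hi)) (Complex.exp_ne_zero _)
  rintro rfl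
  simp at hi

theorem ZX2_arg {v₀ δ : ℝ} {e : ℝ → ℝ} {hL hR : ℝ} (hv₀ : v₀ ∈ Ioo (-1 : ℝ) 1) {z : ℂ}
    (hz : ‖z‖ < 1) (hi : 0 < z.im) (h0 : 0 ≤ phb v₀ δ e hL hR z)
    (h1 : phb v₀ δ e hL hR z ≤ π) :
    Complex.arg (Vb v₀ δ e hL hR z) = phb v₀ δ e hL hR z := by
  have h2 := (ZQ_phase hv₀ δ e hL hR hz hi).1
  have h3 := norm_pos_iff.2 (ZX2_Vne (v₀ := v₀) (δ := δ) (e := e) (hL := hL) (hR := hR) hz hi)
  rw [h2, Complex.exp_mul_I]
  rw [← Complex.ofReal_cos, ← Complex.ofReal_sin] at *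
  have h4 := Complex.arg_mul_cos_add_sin_mul_I h3
    (show phb v₀ δ e hL hR z ∈ Ioc (-π) π from ⟨by linarith [Real.pi_pos], h1⟩)
  rw [← Complex.ofReal_cos, ← Complex.ofReal_sin] at h4
  exact h4

theorem ZX2_Vim {v₀ δ : ℝ} {e : ℝ → ℝ} {hL hR : ℝ} (hv₀ : v₀ ∈ Ioo (-1 : ℝ) 1) {z : ℂ}
    (hz : ‖z‖ < 1) (hi : 0 < z.im) :
    (Vb v₀ δ e hL hR z).im = ‖Vb v₀ δ e hL hR z‖ * Real.sin (phb v₀ δ e hL hR z) := by
  have h2 := (ZQ_phase hv₀ δ e hL hR hz hi).1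
  conv_lhs => rw [h2]
  rw [Complex.im_ofReal_mul, Complex.exp_ofReal_mul_I_im]

/-- the difference of the phases -/
def ZX2_g (v₀ δ : ℝ) (e : ℝ → ℝ) (hL hR r θ : ℝ) : ℝ :=
  |phb v₀ δ e hL hR (ZX2_z r θ) - bdb v₀ δ e hL hR θ|

theorem ZX2_Vcont {E : Set ℝ} {v₀ : ℝ} {e : ℝ → ℝ} (hLk : Lock E v₀ e)
    (hv₀ : v₀ ∈ Ioo (-1 : ℝ) 1) {δ : ℝ} (hδ : 0 < δ) (hL hR : ℝ) {r : ℝ} (hr0 : 0 ≤ r)
    (hr1 : r < 1) : Continuous (fun θ => Vb v₀ δ e hL hR (ZX2_z r θ)) :=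
  (ZV_diff hLk hv₀ δ hδ hL hR).1.continuousOn.comp_continuous (ZX2_zcont r)
    (fun θ => ZX2_ball hr0 hr1 θ)

theorem ZX2_gint {E : Set ℝ} {v₀ : ℝ} {e : ℝ → ℝ} (hLk : Lock E v₀ e)
    (hv₀ : v₀ ∈ Ioo (-1 : ℝ) 1) {δ : ℝ} (hδ : 0 < δ) {hL hR : ℝ} (pL : 0 ≤ hL) (pR : 0 ≤ hR)
    (lL : hL ≤ π) (lR : hR ≤ π) {r : ℝ} (hr0 : 0 < r) (hr1 : r < 1) :
    IntervalIntegrable (ZX2_g v₀ δ e hL hR r) volume 0 π := by
  rw [intervalIntegrable_iff_integrableOn_Ioo_of_le Real.pi_pos.le]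
  have hm : Measurable (fun θ => |Complex.arg (Vb v₀ δ e hL hR (ZX2_z r θ)) -
      bdb v₀ δ e hL hR θ|) := by
    refine Measurable.abs (Measurable.sub ?_ (ZX2_bdb_meas hLk δ hL hR))
    exact Complex.measurable_arg.comp (ZX2_Vcont hLk hv₀ hδ hL hR hr0.le hr1).measurable
  have heq : ∀ θ ∈ Ioo (0 : ℝ) π, |Complex.arg (Vb v₀ δ e hL hR (ZX2_z r θ)) -
      bdb v₀ δ e hL hR θ| = ZX2_g v₀ δ e hL hR r θ := by
    intro θ hθ
    have hz : ‖ZX2_z r θ‖ < 1 := by rw [ZX2_norm hr0.le]; exact hr1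
    have hi : 0 < (ZX2_z r θ).im := by
      rw [ZX2_zim]; exact mul_pos hr0 (Real.sin_pos_of_pos_of_lt_pi hθ.1 hθ.2)
    obtain ⟨h0, h1, -⟩ := ZQ_range hLk hv₀ δ hδ hL hR pL pR lL lR hz hi
    rw [ZX2_arg hv₀ hz hi h0 h1]
    rfl
  have hint : IntegrableOn (fun θ => |Complex.arg (Vb v₀ δ e hL hR (ZX2_z r θ)) -
      bdb v₀ δ e hL hR θ|) (Ioo 0 π) volume := by
    refine Measure.integrableOn_of_bounded (M := 2 * π) (by simp) hm.aestronglyMeasurable ?_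
    refine Filter.Eventually.of_forall fun θ => ?_
    rw [Real.norm_eq_abs, abs_abs]
    have h1 := Complex.abs_arg_le_pi (Vb v₀ δ e hL hR (ZX2_z r θ))
    have h2 := ZX2_bdb_range (v₀ := v₀) hLk hδ pL pR lL lR θ
    have h3 := abs_le.1 h1
    rw [abs_le]
    constructor <;> linarith [h3.1, h3.2, h2.1, h2.2]
  exact hint.congr_fun heq measurableSet_Ioo

/-- `sin (bdb) ≥ e / 5` where `1/4 ≤ chiR ≤ 3/4`, `hR = π` -/
theorem ZX2_sinbd {E : Set ℝ} {v₀ : ℝ} {e : ℝ → ℝ} (hLk : Lock E v₀ e) {δ : ℝ} (hδ : 0 < δ)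
    (hL : ℝ) {θ : ℝ} (h1 : v₀ + δ / 4 ≤ -Real.cos θ) (h2 : -Real.cos θ ≤ v₀ + 3 * δ / 4) :
    1 / 5 * e (-Real.cos θ) ≤ Real.sin (bdb v₀ δ e hL π θ) := by
  set v := -Real.cos θ with hv
  have he0 := hLk.nonneg v
  have he1 := hLk.le_one v
  have hb : bdb v₀ δ e hL π θ = π - π * chiR v₀ δ v * e v := by
    unfold bdb
    rw [if_neg]
    rw [← hv]; linarith
  have hchi : chiR v₀ δ v = 1 - (v - v₀) / δ := by
    unfold chiR
    rw [if_pos]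
    constructor <;> linarith
  have hq1 : 1 / 4 ≤ (v - v₀) / δ := by rw [le_div_iff₀ hδ]; linarith
  have hq2 : (v - v₀) / δ ≤ 3 / 4 := by rw [div_le_iff₀ hδ]; linarith
  have hc1 : 1 / 4 ≤ chiR v₀ δ v := by rw [hchi]; linarith
  have hc2 : chiR v₀ δ v ≤ 3 / 4 := by rw [hchi]; linarith
  rw [hb, Real.sin_pi_sub]
  set x := π * chiR v₀ δ v * e v with hx
  have hpi := Real.pi_pos
  have hx0 : π / 4 * e v ≤ x := by
    rw [hx]
    apply mul_le_mul_of_nonneg_right _ he0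
    nlinarith
  have hx1 : x ≤ 3 * π / 4 := by
    rw [hx]
    calc π * chiR v₀ δ v * e v ≤ π * chiR v₀ δ v * 1 :=
          mul_le_mul_of_nonneg_left he1 (by positivity)
      _ ≤ 3 * π / 4 := by nlinarith
  have hx00 : 0 ≤ x := le_trans (by positivity) hx0
  rcases le_total x (π / 2) with h | h
  · have h3 := Real.mul_le_sin hx00 h
    have h4 : 2 / π * x ≥ 1 / 2 * e v := by
      have h5 : 2 / π * (π / 4 * e v) ≤ 2 / π * x :=
        mul_le_mul_of_nonneg_left hx0 (by positivity)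
      have h6 : 2 / π * (π / 4 * e v) = 1 / 2 * e v := by field_simp; norm_num
      linarith
    linarith
  · have h3 := Real.mul_le_sin (x := π - x) (by linarith) (by linarith)
    rw [Real.sin_pi_sub] at h3
    have h4 : 1 / 2 ≤ 2 / π * (π - x) := by
      have h5 : 2 / π * (π / 4) ≤ 2 / π * (π - x) :=
        mul_le_mul_of_nonneg_left (by linarith) (by positivity)
      have h6 : 2 / π * (π / 4) = 1 / 2 := by field_simp; norm_num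
      linarith
    linarith

theorem ZX2_bdL {E : Set ℝ} {v₀ : ℝ} {e : ℝ → ℝ} (hLk : Lock E v₀ e) {δ : ℝ} (hδ : 0 < δ)
    {hL : ℝ} (pL : 0 ≤ hL) (hR : ℝ) {θ : ℝ} (h1 : -Real.cos θ < v₀) :
    bdb v₀ δ e hL hR θ ≤ hL := by
  have he0 := hLk.nonneg (-Real.cos θ)
  have he1 := hLk.le_one (-Real.cos θ)
  have hl := ZX2_chiL (v₀ := v₀) hδ (-Real.cos θ)
  have hml : chiL v₀ δ (-Real.cos θ) * e (-Real.cos θ) ≤ 1 := mul_le_one₀ hl.2 he0 he1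
  unfold bdb
  rw [if_pos h1, mul_assoc]
  calc hL * (chiL v₀ δ (-Real.cos θ) * e (-Real.cos θ)) ≤ hL * 1 :=
        mul_le_mul_of_nonneg_left hml pL
    _ = hL := mul_one _

/-- change of variables `v = - cos θ` -/
theorem ZX2_cov (e : ℝ → ℝ) {a b : ℝ} (ha : 0 ≤ a) (hab : a ≤ b) (hb : b ≤ π) :
    ∫ v in (-Real.cos a)..(-Real.cos b), e v = ∫ θ in a..b, e (-Real.cos θ) * Real.sin θ := by
  have hmono : StrictMonoOn (fun θ : ℝ => -Real.cos θ) (Icc a b) := by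
    intro x hx y hy hxy
    have := Real.strictAntiOn_cos (show x ∈ Icc 0 π from ⟨ha.trans hx.1, hx.2.trans hb⟩)
      (show y ∈ Icc 0 π from ⟨ha.trans hy.1, hy.2.trans hb⟩) hxy
    show -Real.cos x < -Real.cos y
    linarith
  have hcab : -Real.cos a ≤ -Real.cos b := hmono.monotoneOn (left_mem_Icc.2 hab)
    (right_mem_Icc.2 hab) hab
  have himg : (fun θ : ℝ => -Real.cos θ) '' Icc a b = Icc (-Real.cos a) (-Real.cos b) := by
    apply Subset.antisymm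
    · rintro _ ⟨x, hx, rfl⟩
      exact ⟨hmono.monotoneOn (left_mem_Icc.2 hab) hx hx.1,
        hmono.monotoneOn hx (right_mem_Icc.2 hab) hx.2⟩
    · exact intermediate_value_Icc hab Real.continuous_cos.neg.continuousOn
  have h := integral_image_eq_integral_abs_deriv_smul (s := Icc a b)
    (f := fun θ : ℝ => -Real.cos θ) (f' := fun θ => Real.sin θ) measurableSet_Icc
    (fun x _ => by
      have := (Real.hasDerivAt_cos x).neg
      rw [neg_neg] at this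
      exact this.hasDerivWithinAt) hmono.injOn e
  rw [himg] at h
  rw [intervalIntegral.integral_of_le hcab, intervalIntegral.integral_of_le hab,
    ← integral_Icc_eq_integral_Ioc, ← integral_Icc_eq_integral_Ioc, h]
  refine setIntegral_congr_fun measurableSet_Icc fun θ hθ => ?_
  have hs : 0 ≤ Real.sin θ := Real.sin_nonneg_of_nonneg_of_le_pi (ha.trans hθ.1) (hθ.2.trans hb)
  show |Real.sin θ| • e (-Real.cos θ) = _
  rw [abs_of_nonneg hs, smul_eq_mul, mul_comm]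

theorem ZX2_diff {E : Set ℝ} {v₀ : ℝ} {e : ℝ → ℝ} (hLk : Lock E v₀ e)
    (hv₀ : v₀ ∈ Ioo (-1 : ℝ) 1) {δ : ℝ} (hδ : 0 < δ) {hL hR : ℝ} {p : ℂ → ℂ}
    (hp : IsP (Vb v₀ δ e hL hR) p) {r : ℝ} (hr0 : 0 ≤ r) (hr1 : r < 1) (a b : ℝ) :
    ∫ θ in a..b, (Vb v₀ δ e hL hR (ZX2_z r θ)).im = (p (ZX2_z r b)).im - (p (ZX2_z r a)).im := by
  have h := ZP_polar (Vb v₀ δ e hL hR) p (ZV_diff hLk hv₀ δ hδ hL hR).1 hp.diff hp.eq hr0 hr1 a b
  have hint : IntervalIntegrable (fun θ => Vb v₀ δ e hL hR (ZX2_z r θ)) volume a b :=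
    (ZX2_Vcont hLk hv₀ hδ hL hR hr0 hr1).intervalIntegrable a b
  have h2 := Complex.imCLM.intervalIntegral_comp_comm hint
  simp only [Complex.imCLM_apply] at h2
  rw [h2, ← Complex.sub_im]
  exact congrArg Complex.im h

theorem ZX2_gnonneg (v₀ δ : ℝ) (e : ℝ → ℝ) (hL hR r θ : ℝ) : 0 ≤ ZX2_g v₀ δ e hL hR r θ :=
  abs_nonneg _

theorem ZX2_gmono {E : Set ℝ} {v₀ : ℝ} {e : ℝ → ℝ} (hLk : Lock E v₀ e)
    (hv₀ : v₀ ∈ Ioo (-1 : ℝ) 1) {δ : ℝ} (hδ : 0 < δ) {hL hR : ℝ} (pL : 0 ≤ hL) (pR : 0 ≤ hR)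
    (lL : hL ≤ π) (lR : hR ≤ π) {r : ℝ} (hr0 : 0 < r) (hr1 : r < 1) {a b : ℝ} (ha : 0 ≤ a)
    (hab : a ≤ b) (hb : b ≤ π) :
    IntervalIntegrable (ZX2_g v₀ δ e hL hR r) volume a b ∧
    ∫ θ in a..b, ZX2_g v₀ δ e hL hR r θ ≤ ∫ θ in (0 : ℝ)..π, ZX2_g v₀ δ e hL hR r θ := by
  have hg := ZX2_gint hLk hv₀ hδ pL pR lL lR hr0 hr1
  constructor
  · refine hg.mono_set ?_
    rw [uIcc_of_le hab, uIcc_of_le (ha.trans (hab.trans hb))]
    exact Icc_subset_Icc ha hb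
  · exact intervalIntegral.integral_mono_interval ha hab hb
      (Filter.Eventually.of_forall fun θ => ZX2_gnonneg v₀ δ e hL hR r θ) hg

theorem ZX2_J {E : Set ℝ} {v₀ : ℝ} {e : ℝ → ℝ} (hLk : Lock E v₀ e)
    (hv₀ : v₀ ∈ Ioo (-1 : ℝ) 1) {δ : ℝ} (hδ : 0 < δ) {hL : ℝ} (pL : 0 ≤ hL) (lL : hL ≤ π)
    {r : ℝ} (hr0 : 0 < r) (hr1 : r < 1) {c : ℝ} (hc : 0 ≤ c) {a b : ℝ} (ha : 0 < a) (hab : a ≤ b)
    (hb : b < π) (hca : -Real.cos a = v₀ + δ / 4) (hcb : -Real.cos b = v₀ + 3 * δ / 4)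
    (hlow : ∀ θ ∈ Ioo (0 : ℝ) π, δ / 4 ≤ |-Real.cos θ - v₀| → |-Real.cos θ - v₀| ≤ 3 * δ / 4 →
      c ≤ ‖Vb v₀ δ e hL π (ZX2_z r θ)‖)
    (hmass : δ / 8 ≤ ∫ v in (v₀ + δ / 4)..(v₀ + 3 * δ / 4), e v) :
    c * (δ / 40 - ∫ θ in (0 : ℝ)..π, ZX2_g v₀ δ e hL π r θ) ≤
      ∫ θ in a..b, (Vb v₀ δ e hL π (ZX2_z r θ)).im := by
  obtain ⟨hgi, hgm⟩ := ZX2_gmono hLk hv₀ hδ pL Real.pi_pos.le lL le_rfl hr0 hr1 ha.le hab hb.le
  have hei : IntervalIntegrable (fun θ => e (-Real.cos θ) * Real.sin θ) volume a b := by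
    rw [intervalIntegrable_iff_integrableOn_Ioc_of_le hab]
    have hm : Measurable (fun θ => e (-Real.cos θ) * Real.sin θ) :=
      (hLk.meas.comp Real.measurable_cos.neg).mul Real.measurable_sin
    refine Measure.integrableOn_of_bounded (M := 1) (by simp) hm.aestronglyMeasurable ?_
    refine Filter.Eventually.of_forall fun θ => ?_
    rw [Real.norm_eq_abs, abs_mul]
    have h1 : |e (-Real.cos θ)| ≤ 1 := by
      rw [abs_of_nonneg (hLk.nonneg _)]; exact hLk.le_one _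
    exact mul_le_one₀ h1 (abs_nonneg _) (Real.abs_sin_le_one θ)
  have hcov := ZX2_cov e ha.le hab hb.le
  rw [hca, hcb] at hcov
  have hmono : ∫ θ in a..b, (c / 5 * (e (-Real.cos θ) * Real.sin θ) - c * ZX2_g v₀ δ e hL π r θ) ≤
      ∫ θ in a..b, (Vb v₀ δ e hL π (ZX2_z r θ)).im := by
    refine intervalIntegral.integral_mono_on hab ((hei.const_mul _).sub (hgi.const_mul _)) ?_ ?_
    · exact (Complex.continuous_im.comp (ZX2_Vcont hLk hv₀ hδ hL π hr0.le hr1)).intervalIntegrable _ _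
    · intro θ hθ
      have hθ0 : 0 < θ := lt_of_lt_of_le ha hθ.1
      have hθ1 : θ < π := lt_of_le_of_lt hθ.2 hb
      have hz : ‖ZX2_z r θ‖ < 1 := by rw [ZX2_norm hr0.le]; exact hr1
      have hs0 : 0 ≤ Real.sin θ := (Real.sin_pos_of_pos_of_lt_pi hθ0 hθ1).le
      have hi : 0 < (ZX2_z r θ).im := by
        rw [ZX2_zim]; exact mul_pos hr0 (Real.sin_pos_of_pos_of_lt_pi hθ0 hθ1)
      obtain ⟨h0, h1, -⟩ := ZQ_range hLk hv₀ δ hδ hL π pL Real.pi_pos.le lL le_rfl hz hi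
      have hcc : v₀ + δ / 4 ≤ -Real.cos θ ∧ -Real.cos θ ≤ v₀ + 3 * δ / 4 := by
        rw [← hca, ← hcb]
        have e1 := Real.strictAntiOn_cos.antitoneOn (show a ∈ Icc 0 π from ⟨ha.le, hab.trans hb.le⟩)
          (show θ ∈ Icc 0 π from ⟨hθ0.le, hθ1.le⟩) hθ.1
        have e2 := Real.strictAntiOn_cos.antitoneOn (show θ ∈ Icc 0 π from ⟨hθ0.le, hθ1.le⟩)
          (show b ∈ Icc 0 π from ⟨ha.le.trans hab, hb.le⟩) hθ.2
        constructor <;> linarith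
      have hlo := hlow θ ⟨hθ0, hθ1⟩ (by rw [abs_of_nonneg (by linarith)]; linarith)
        (by rw [abs_of_nonneg (by linarith)]; linarith)
      rw [ZX2_Vim hv₀ hz hi]
      have hsin := ZX2_sinbd hLk hδ hL hcc.1 hcc.2
      have hlip : Real.sin (bdb v₀ δ e hL π θ) - ZX2_g v₀ δ e hL π r θ ≤
          Real.sin (phb v₀ δ e hL π (ZX2_z r θ)) := by
        have h2 := Real.lipschitzWith_sin.dist_le_mul (phb v₀ δ e hL π (ZX2_z r θ))
          (bdb v₀ δ e hL π θ)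
        rw [Real.dist_eq, Real.dist_eq, NNReal.coe_one, one_mul] at h2
        have h3 := (abs_le.1 h2).1
        show Real.sin (bdb v₀ δ e hL π θ) - |phb v₀ δ e hL π (ZX2_z r θ) - bdb v₀ δ e hL π θ| ≤ _
        linarith
      have hsT : 0 ≤ Real.sin (phb v₀ δ e hL π (ZX2_z r θ)) :=
        Real.sin_nonneg_of_nonneg_of_le_pi h0 h1
      have he0 := hLk.nonneg (-Real.cos θ)
      have hes : e (-Real.cos θ) * Real.sin θ ≤ e (-Real.cos θ) :=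
        mul_le_of_le_one_right he0 (Real.sin_le_one θ)
      calc c / 5 * (e (-Real.cos θ) * Real.sin θ) - c * ZX2_g v₀ δ e hL π r θ
          ≤ c / 5 * e (-Real.cos θ) - c * ZX2_g v₀ δ e hL π r θ := by
            have := mul_le_mul_of_nonneg_left hes (show 0 ≤ c / 5 by positivity)
            linarith
        _ = c * (1 / 5 * e (-Real.cos θ) - ZX2_g v₀ δ e hL π r θ) := by ring
        _ ≤ c * Real.sin (phb v₀ δ e hL π (ZX2_z r θ)) :=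
            mul_le_mul_of_nonneg_left (by linarith) hc
        _ ≤ ‖Vb v₀ δ e hL π (ZX2_z r θ)‖ * Real.sin (phb v₀ δ e hL π (ZX2_z r θ)) :=
            mul_le_mul_of_nonneg_right hlo hsT
  refine le_trans ?_ hmono
  rw [intervalIntegral.integral_sub (hei.const_mul _) (hgi.const_mul _),
    intervalIntegral.integral_const_mul, intervalIntegral.integral_const_mul, ← hcov]
  have h5 : c / 5 * (δ / 8) ≤ c / 5 * ∫ v in (v₀ + δ / 4)..(v₀ + 3 * δ / 4), e v :=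
    mul_le_mul_of_nonneg_left hmass (by positivity)
  have h6 := mul_le_mul_of_nonneg_left hgm hc
  linarith

theorem ZX2_K {E : Set ℝ} {v₀ : ℝ} {e : ℝ → ℝ} (hLk : Lock E v₀ e)
    (hv₀ : v₀ ∈ Ioo (-1 : ℝ) 1) {δ : ℝ} (hδ : 0 < δ) {κ : ℝ} (pL : 0 ≤ κ) (lL : κ ≤ π)
    {r : ℝ} (hr0 : 0 < r) (hr1 : r < 1) {M : ℝ}
    (hM : ∀ z ∈ ball (0 : ℂ) 1, ‖Vb v₀ δ e κ π z‖ ≤ M) {τ : ℝ} (hτ0 : 0 ≤ τ) (hτ1 : τ ≤ π)
    (hτ : ∀ θ ∈ Ioo 0 τ, -Real.cos θ < v₀) :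
    ∫ θ in (0 : ℝ)..τ, (Vb v₀ δ e κ π (ZX2_z r θ)).im ≤
      κ * (∫ θ in (0 : ℝ)..π, ‖Vb v₀ δ e κ π (ZX2_z r θ)‖) +
        M * ∫ θ in (0 : ℝ)..π, ZX2_g v₀ δ e κ π r θ := by
  obtain ⟨hgi, hgm⟩ := ZX2_gmono hLk hv₀ hδ pL Real.pi_pos.le lL le_rfl hr0 hr1 le_rfl hτ0 hτ1
  have hM0 : 0 ≤ M := (norm_nonneg _).trans (hM 0 (mem_ball_self one_pos))
  have hVc := ZX2_Vcont hLk hv₀ hδ κ π hr0.le hr1
  have hVn : IntervalIntegrable (fun θ => ‖Vb v₀ δ e κ π (ZX2_z r θ)‖) volume 0 τ :=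
    hVc.norm.intervalIntegrable _ _
  have hmono : ∫ θ in (0 : ℝ)..τ, (Vb v₀ δ e κ π (ZX2_z r θ)).im ≤
      ∫ θ in (0 : ℝ)..τ, (κ * ‖Vb v₀ δ e κ π (ZX2_z r θ)‖ + M * ZX2_g v₀ δ e κ π r θ) := by
    refine intervalIntegral.integral_mono_on_of_le_Ioo hτ0
      ((Complex.continuous_im.comp hVc).intervalIntegrable _ _)
      ((hVn.const_mul _).add (hgi.const_mul _)) ?_
    intro θ hθ
    have hθ0 : 0 < θ := hθ.1
    have hθ1 : θ < π := lt_of_lt_of_le hθ.2 hτ1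
    have hz : ‖ZX2_z r θ‖ < 1 := by rw [ZX2_norm hr0.le]; exact hr1
    have hi : 0 < (ZX2_z r θ).im := by
      rw [ZX2_zim]; exact mul_pos hr0 (Real.sin_pos_of_pos_of_lt_pi hθ0 hθ1)
    obtain ⟨h0, h1, -⟩ := ZQ_range hLk hv₀ δ hδ κ π pL Real.pi_pos.le lL le_rfl hz hi
    rw [ZX2_Vim hv₀ hz hi]
    have h2 : Real.sin (phb v₀ δ e κ π (ZX2_z r θ)) ≤ phb v₀ δ e κ π (ZX2_z r θ) :=
      Real.sin_le h0
    have h3 : phb v₀ δ e κ π (ZX2_z r θ) ≤ κ + ZX2_g v₀ δ e κ π r θ := by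
      have h4 := ZX2_bdL hLk hδ pL π (hτ θ hθ)
      have h5 := le_abs_self (phb v₀ δ e κ π (ZX2_z r θ) - bdb v₀ δ e κ π θ)
      show _ ≤ κ + |phb v₀ δ e κ π (ZX2_z r θ) - bdb v₀ δ e κ π θ|
      linarith
    have hn := norm_nonneg (Vb v₀ δ e κ π (ZX2_z r θ))
    have hg0 := ZX2_gnonneg v₀ δ e κ π r θ
    have hMz := hM _ (ZX2_ball hr0.le hr1 θ)
    calc ‖Vb v₀ δ e κ π (ZX2_z r θ)‖ * Real.sin (phb v₀ δ e κ π (ZX2_z r θ))
        ≤ ‖Vb v₀ δ e κ π (ZX2_z r θ)‖ * (κ + ZX2_g v₀ δ e κ π r θ) :=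
          mul_le_mul_of_nonneg_left (h2.trans h3) hn
      _ = κ * ‖Vb v₀ δ e κ π (ZX2_z r θ)‖ +
          ‖Vb v₀ δ e κ π (ZX2_z r θ)‖ * ZX2_g v₀ δ e κ π r θ := by ring
      _ ≤ κ * ‖Vb v₀ δ e κ π (ZX2_z r θ)‖ + M * ZX2_g v₀ δ e κ π r θ := by
          have := mul_le_mul_of_nonneg_right hMz hg0
          linarith
  refine hmono.trans ?_
  rw [intervalIntegral.integral_add (hVn.const_mul _) (hgi.const_mul _),
    intervalIntegral.integral_const_mul, intervalIntegral.integral_const_mul]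
  refine add_le_add (mul_le_mul_of_nonneg_left ?_ pL) (mul_le_mul_of_nonneg_left hgm hM0)
  exact intervalIntegral.integral_mono_interval le_rfl hτ0 hτ1
    (Filter.Eventually.of_forall fun θ => norm_nonneg _) (hVc.norm.intervalIntegrable _ _)

theorem ZX2_avg {A : ℝ → ℝ} (hA : Continuous A)
    (mono : ∀ x y : ℝ, 0 ≤ x → x ≤ y → y ≤ π → A x ≤ A y)
    (h0 : ∫ θ in (0 : ℝ)..π, A θ = 0) {τ b : ℝ} (hτ : 0 ≤ τ) (hτb : τ ≤ b) (hb : b ≤ π) :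
    π * A τ ≤ τ * (A τ - A 0) - (π - b) * (A b - A τ) := by
  have hi : ∀ x y : ℝ, IntervalIntegrable A volume x y := fun x y => hA.intervalIntegrable x y
  have e1 : ∫ θ in (0 : ℝ)..π, A θ = (∫ θ in (0 : ℝ)..τ, A θ) + (∫ θ in τ..b, A θ) +
      ∫ θ in b..π, A θ := by
    rw [intervalIntegral.integral_add_adjacent_intervals (hi _ _) (hi _ _),
      intervalIntegral.integral_add_adjacent_intervals (hi _ _) (hi _ _)]
  have key : ∀ x y : ℝ, 0 ≤ x → x ≤ y → y ≤ π → (y - x) * A x ≤ ∫ θ in x..y, A θ := by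
    intro x y hx hxy hy
    have h1 : ∫ θ in x..y, A x ≤ ∫ θ in x..y, A θ := by
      refine intervalIntegral.integral_mono_on hxy (by simp) (hi _ _) ?_
      intro θ hθ
      exact mono x θ hx hθ.1 (hθ.2.trans hy)
    rwa [intervalIntegral.integral_const, smul_eq_mul] at h1
  have k1 := key 0 τ le_rfl hτ (hτb.trans hb)
  have k2 := key τ b hτ hτb hb
  have k3 := key b π (hτ.trans hτb) hb le_rfl
  rw [h0] at e1
  nlinarith

theorem ZX2 {E : Set ℝ} {v₀ : ℝ} {e : ℝ → ℝ} (hLk : Lock E v₀ e) (hsub : E ⊆ Ioo (-1) 1)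
    (hv₀ : v₀ ∈ E) (δ : ℝ) (hδ : 0 < δ) (h1 : -1 < v₀ - δ) (h2 : v₀ + δ < 1)
    (hmass : δ / 8 ≤ ∫ v in (v₀ + δ / 4)..(v₀ + 3 * δ / 4), e v) :
    ∃ κ : ℝ, 0 < κ ∧ κ ≤ 1 ∧ ∀ p : ℂ → ℂ, IsP (Vb v₀ δ e κ π) p →
      ∃ a : ℝ, 0 < a ∧ ∀ᶠ r : ℝ in 𝓝[<] 1,
        (p (r * Complex.exp (Real.arccos (-v₀) * Complex.I))).im ≤ -a := by
  have hv₀' : v₀ ∈ Ioo (-1 : ℝ) 1 := hsub hv₀
  have hpi := Real.pi_pos
  have hpi3 := Real.pi_gt_three
  have hpi4 := Real.pi_lt_four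
  obtain ⟨C, hC⟩ := ZVL_b hLk hsub hv₀ δ hδ h1.le h2.le
  obtain ⟨c, r₁, hc, hr₁, hr₁', hlow⟩ := ZVL_low hLk hsub hv₀ δ hδ h1.le h2.le
  set τ := Real.arccos (-v₀) with hτdef
  set a := Real.arccos (-(v₀ + δ / 4)) with hadef
  set b := Real.arccos (-(v₀ + 3 * δ / 4)) with hbdef
  have hcτ : Real.cos τ = -v₀ := Real.cos_arccos (by linarith [hv₀'.2]) (by linarith [hv₀'.1])
  have hca : Real.cos a = -(v₀ + δ / 4) :=
    Real.cos_arccos (by linarith [hv₀'.2]) (by linarith [hv₀'.1])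
  have hcb : Real.cos b = -(v₀ + 3 * δ / 4) :=
    Real.cos_arccos (by linarith [hv₀'.2]) (by linarith [hv₀'.1])
  have hτ0 : 0 < τ := Real.arccos_pos.2 (by linarith [hv₀'.1])
  have hτa : τ < a := Real.strictAntiOn_arccos ⟨by linarith [hv₀'.2], by linarith [hv₀'.1]⟩
    ⟨by linarith [hv₀'.2], by linarith [hv₀'.1]⟩ (by linarith)
  have hab : a < b := Real.strictAntiOn_arccos ⟨by linarith [hv₀'.2], by linarith [hv₀'.1]⟩
    ⟨by linarith [hv₀'.2], by linarith [hv₀'.1]⟩ (by linarith)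
  have hbpi : b < π := Real.arccos_lt_pi.2 (by linarith)
  have ha0 : 0 < a := hτ0.trans hτa
  set B := (π - b) * (c * δ / 40) with hB
  have hB0 : 0 < B := mul_pos (by linarith) (by positivity)
  set κ := min 1 (B / (4 * π * (|C| + 1))) with hκ
  have hC0 : 0 < |C| + 1 := by positivity
  have hκ0 : 0 < κ := lt_min one_pos (by positivity)
  have hκ1 : κ ≤ 1 := min_le_left _ _
  have hκB : π * (κ * (|C| + 1)) ≤ B / 4 := by
    have h3 : κ ≤ B / (4 * π * (|C| + 1)) := min_le_right _ _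
    rw [le_div_iff₀ (by positivity)] at h3
    linarith
  refine ⟨κ, hκ0, hκ1, fun p hp => ⟨B / (2 * π), by positivity, ?_⟩⟩
  obtain ⟨M, hM⟩ := ZV_b hLk hsub hv₀ δ hδ h1.le h2.le κ π hκ0.le hpi.le (by linarith)
  have hM0 : 0 ≤ M := (norm_nonneg _).trans (hM 0 (mem_ball_self one_pos))
  set ε := B / (4 * (π * M + π * c + 1)) with hε
  have hεpos : 0 < ε := by positivity
  have hεB : (π * M + π * c) * ε ≤ B / 4 := by
    have h4 : (π * M + π * c) * ε ≤ (π * M + π * c + 1) * ε :=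
      mul_le_mul_of_nonneg_right (by linarith) hεpos.le
    have h5 : (π * M + π * c + 1) * ε = B / 4 := by
      rw [hε]
      have : 0 < π * M + π * c + 1 := by positivity
      field_simp
    linarith
  have hI := ZQ_b hLk hv₀' δ hδ κ π
  have hI' := (tendsto_order.1 hI).2 ε hεpos
  filter_upwards [hI', Ioo_mem_nhdsLT hr₁'] with r hIr hr
  have hr0 : 0 < r := by linarith [hr.1]
  have hr1 : r < 1 := hr.2
  have hI1 : ∫ θ in (0 : ℝ)..π, ZX2_g v₀ δ e κ π r θ < ε := hIr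
  have hAc : Continuous (fun θ => (p (ZX2_z r θ)).im) :=
    Complex.continuous_im.comp (hp.diff.continuousOn.comp_continuous (ZX2_zcont r)
      (fun θ => ZX2_ball hr0.le hr1 θ))
  have havg := ZX2_avg hAc
    (fun x y hx hxy hy => ZX0_mono hLk hv₀' hδ hκ0.le hpi.le (by linarith) le_rfl hp hr0.le hr1
      hx hxy hy) (ZX0_mean hp hr0.le hr1) hτ0.le (hτa.trans hab).le hbpi.le
  have hK := ZX2_K hLk hv₀' hδ hκ0.le (by linarith) hr0 hr1 hM hτ0.le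
    ((hτa.trans hab).trans hbpi).le (by
      intro θ hθ
      have := Real.strictAntiOn_cos (show θ ∈ Icc 0 π from ⟨hθ.1.le, by linarith [hθ.2]⟩)
        (show τ ∈ Icc 0 π from ⟨hτ0.le, by linarith⟩) hθ.2
      rw [hcτ] at this
      linarith)
  have hJ := ZX2_J hLk hv₀' hδ hκ0.le (by linarith) hr0 hr1 hc.le ha0 hab.le hbpi
    (by rw [hca, neg_neg]) (by rw [hcb, neg_neg])
    (fun θ hθ g1 g2 => (hlow κ π hκ0.le (by linarith) hpi.le (by linarith) r hr.1 hr1 θ hθ g1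
      g2).1) hmass
  rw [ZX2_diff hLk hv₀' hδ hp hr0.le hr1] at hK hJ
  have hCr : ∫ θ in (0 : ℝ)..π, ‖Vb v₀ δ e κ π (ZX2_z r θ)‖ ≤ C :=
    hC κ π hκ0.le (by linarith) hpi.le (by linarith) (by linarith) r (by linarith [hr.1]) hr1
  have hmτa : (p (ZX2_z r τ)).im ≤ (p (ZX2_z r a)).im :=
    ZX0_mono hLk hv₀' hδ hκ0.le hpi.le (by linarith) le_rfl hp hr0.le hr1 hτ0.le hτa.le
      (by linarith)
  show (p (ZX2_z r τ)).im ≤ -(B / (2 * π))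
  have hK2 : (p (ZX2_z r τ)).im - (p (ZX2_z r 0)).im ≤ κ * (|C| + 1) + M * ε := by
    have g1 : κ * (∫ θ in (0 : ℝ)..π, ‖Vb v₀ δ e κ π (ZX2_z r θ)‖) ≤ κ * (|C| + 1) :=
      mul_le_mul_of_nonneg_left (by linarith [le_abs_self C]) hκ0.le
    have g2 := mul_le_mul_of_nonneg_left hI1.le hM0
    linarith
  have hJ2 : c * (δ / 40 - ε) ≤ (p (ZX2_z r b)).im - (p (ZX2_z r τ)).im := by
    have g1 := mul_le_mul_of_nonneg_left (show δ / 40 - ε ≤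
      δ / 40 - ∫ θ in (0 : ℝ)..π, ZX2_g v₀ δ e κ π r θ by linarith) hc.le
    linarith
  have hτK : τ * ((p (ZX2_z r τ)).im - (p (ZX2_z r 0)).im) ≤ π * (κ * (|C| + 1) + M * ε) := by
    have g0 : 0 ≤ κ * (|C| + 1) + M * ε := by positivity
    exact (mul_le_mul_of_nonneg_left hK2 hτ0.le).trans
      (mul_le_mul_of_nonneg_right (by linarith) g0)
  have hbJ : (π - b) * (c * (δ / 40 - ε)) ≤
      (π - b) * ((p (ZX2_z r b)).im - (p (ZX2_z r τ)).im) :=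
    mul_le_mul_of_nonneg_left hJ2 (by linarith)
  have hbJ2 : B - π * c * ε ≤ (π - b) * (c * (δ / 40 - ε)) := by
    have g1 : (π - b) * (c * ε) ≤ π * (c * ε) :=
      mul_le_mul_of_nonneg_right (by linarith [ha0.trans hab]) (by positivity)
    rw [hB]
    linarith
  have hfin : π * (p (ZX2_z r τ)).im ≤ -(B / 2) := by
    have g1 : (π * M + π * c) * ε = π * (M * ε) + π * c * ε := by ring
    have g2 : π * (κ * (|C| + 1) + M * ε) = π * (κ * (|C| + 1)) + π * (M * ε) := by ring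
    linarith
  have e9 : -(B / (2 * π)) = -(B / 2) / π := by field_simp
  rw [e9, le_div_iff₀ hpi]
  linarith

end

end Pool.H90.VK
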