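import Pool.Agent.H90.VK.ZX0
import Pool.Agent.H90.VK.ZVL
import Pool.Agent.H90.VK.ZVW
import Pool.Agent.H90.VK.ZQL

/-!
# ZY1 : the case of the negative part: `Im p ≥ 0` on the upper semicircle

`V = Va` with `hL = hR = h = π + κ`, `0 < κ ≤ 1/10`; `V = |V| e^{iΘ}`, `Θ = pha` (`ZQ_phase`), `|V| ≤ M_κ`
(`ZV_a`), `∫_0^π |V(re^{iθ})| dθ ≤ C` (`ZVL_a`), `|V| ≥ c` on the two zones
`δ/4 ≤ |v - v₀| ≤ 3δ/4`, `v = -cos θ`, for `r > r₁` (`ZVL_low`), `C, c` independent of `κ`.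
`B = bda`: `B = h chiL(v) e(v)` for `v < v₀`, `B = 2π - h chiR(v) e(v)` for `v ≥ v₀`.
For `0 ≤ a ≤ b ≤ π`: `∫_a^b Im V(re^{iθ}) dθ = ∫_a^b |V| sin Θ ≥ ∫_a^b |V| sin B dθ - M_κ ∫_0^π |Θ - B| dθ`,
same upper bound, and the last term tends to 0 (`ZQ_a`).
Signs: for `v < v₀`: `0 ≤ B ≤ π + κ`, so `sin B ≥ -κ`; `sin B ≥ 0` if `v ≤ v₀ - δ/4` (then
`chiL ≤ 3/4`, `B ≤ π`); on `v₀ - 3δ/4 ≤ v ≤ v₀ - δ/4`, `chiL ∈ [1/4,3/4]`, `B ≤ 2.44`, `sin B ≥ B/4 ≥ 0.15 e(v)`.
For `v > v₀` the same for `-sin B = sin (h chiR e)`.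
Let `A_r(θ) = Im p(re^{iθ})`; `p` is real on the real axis (`ZX0_conj_a`): `A_r(0) = A_r(π) = 0`, so
`A_r(θ) = ∫_0^θ Im V = -∫_θ^π Im V`.
Let `τ = arccos(-v₀)`, `-cos θ_b = v₀ - δ/4`.
* `θ ≤ θ_b`: `A_r(θ) ≥ -o(1)`.
* `θ_b ≤ θ ≤ τ`: `A_r(θ) ≥ c · 0.15 ∫_{zone} e dθ - κ C - o(1) ≥ c δ/60 - κC - o(1)`
  (`∫ e(-cos θ) dθ ≥ ∫ e dv ≥ δ/8` over the zone).
* `θ ≥ τ`: the same from the right.
Choose `κ` with `κ C ≤ c δ/120`. So for every `θ ∈ [0,π]` and `ε > 0`, `A_r(θ) ≥ -ε` for `r` near 1; and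
`A_r(τ) ≥ cδ/240` for `r` near 1, so `p ≢ 0`.
-/

open MeasureTheory Set Filter Topology Metric
open scoped Real ENNReal ComplexConjugate

namespace Pool.H90.VK

noncomputable section

theorem ZY1_sin_ge {κ x : ℝ} (hκ : 0 ≤ κ) (hκ1 : κ ≤ 1 / 10) (h0 : 0 ≤ x) (h1 : x ≤ π + κ) :
    -κ ≤ Real.sin x := by
  rcases le_total x π with h | h
  · have := Real.sin_nonneg_of_nonneg_of_le_pi h0 h
    linarith
  · have h2 := Real.sin_le (sub_nonneg.2 h)
    rw [Real.sin_sub_pi] at h2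
    linarith

theorem ZY1_sin_ge' {κ x : ℝ} (hκ : 0 ≤ κ) (hκ1 : κ ≤ 1 / 10) (h0 : 0 ≤ x)
    (h1 : x ≤ 3 / 4 * (π + κ)) : x / 10 ≤ Real.sin x := by
  have hπ := Real.pi_gt_three
  have hπ4 := Real.pi_le_four
  rcases le_total x (π / 2) with h | h
  · have h2 := Real.mul_le_sin h0 h
    refine le_trans ?_ h2
    rw [div_eq_inv_mul]
    refine mul_le_mul_of_nonneg_right ?_ h0
    rw [le_div_iff₀ (by linarith)]
    linarith
  · have h2 := Real.mul_le_sin (x := π - x) (by linarith) (by linarith)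
    rw [Real.sin_pi_sub] at h2
    refine le_trans ?_ h2
    have h3 : (1 / 2 : ℝ) ≤ 2 / π := by
      rw [le_div_iff₀ (by linarith)]
      linarith
    have h4 : 1 / 2 * (π - x) ≤ 2 / π * (π - x) :=
      mul_le_mul_of_nonneg_right h3 (by linarith)
    linarith

theorem ZY1_chiL {v₀ δ : ℝ} (hδ : 0 < δ) (v : ℝ) : 0 ≤ chiL v₀ δ v ∧ chiL v₀ δ v ≤ 1 ∧
    (v ≤ v₀ - δ / 4 → chiL v₀ δ v ≤ 3 / 4) ∧
    (v₀ - 3 * δ / 4 ≤ v → v ≤ v₀ - δ / 4 → 1 / 4 ≤ chiL v₀ δ v) := by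
  unfold chiL
  split_ifs with h
  · obtain ⟨h1, h2⟩ := h
    have e1 : (v₀ - v) / δ ≤ 1 := by rw [div_le_one hδ]; linarith
    have e2 : 0 ≤ (v₀ - v) / δ := div_nonneg (by linarith) hδ.le
    refine ⟨by linarith, by linarith, fun h3 => ?_, fun h3 _ => ?_⟩
    · have : 1 / 4 ≤ (v₀ - v) / δ := by rw [le_div_iff₀ hδ]; linarith
      linarith
    · have : (v₀ - v) / δ ≤ 3 / 4 := by rw [div_le_iff₀ hδ]; linarith
      linarith
  · refine ⟨le_rfl, by norm_num, fun _ => by norm_num, fun h3 h4 => ?_⟩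
    exact absurd ⟨by linarith, by linarith⟩ h

theorem ZY1_chiR {v₀ δ : ℝ} (hδ : 0 < δ) (v : ℝ) : 0 ≤ chiR v₀ δ v ∧ chiR v₀ δ v ≤ 1 ∧
    (v₀ + δ / 4 ≤ v → chiR v₀ δ v ≤ 3 / 4) ∧
    (v₀ + δ / 4 ≤ v → v ≤ v₀ + 3 * δ / 4 → 1 / 4 ≤ chiR v₀ δ v) := by
  unfold chiR
  split_ifs with h
  · obtain ⟨h1, h2⟩ := h
    have e1 : (v - v₀) / δ ≤ 1 := by rw [div_le_one hδ]; linarith
    have e2 : 0 ≤ (v - v₀) / δ := div_nonneg (by linarith) hδ.le
    refine ⟨by linarith, by linarith, fun h3 => ?_, fun _ h3 => ?_⟩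
    · have : 1 / 4 ≤ (v - v₀) / δ := by rw [le_div_iff₀ hδ]; linarith
      linarith
    · have : (v - v₀) / δ ≤ 3 / 4 := by rw [div_le_iff₀ hδ]; linarith
      linarith
  · refine ⟨le_rfl, by norm_num, fun _ => by norm_num, fun h3 h4 => ?_⟩
    exact absurd ⟨by linarith, by linarith⟩ h

theorem ZY1_chiL_meas (v₀ δ : ℝ) : Measurable (chiL v₀ δ) := by
  unfold chiL
  refine Measurable.ite ?_ (by fun_prop) measurable_const
  exact (measurableSet_lt measurable_const measurable_id).inter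
    (measurableSet_lt measurable_id measurable_const)

theorem ZY1_chiR_meas (v₀ δ : ℝ) : Measurable (chiR v₀ δ) := by
  unfold chiR
  refine Measurable.ite ?_ (by fun_prop) measurable_const
  exact (measurableSet_lt measurable_const measurable_id).inter
    (measurableSet_lt measurable_id measurable_const)

/-- bounded measurable functions are interval integrable -/
theorem ZY1_int {g : ℝ → ℝ} (hg : Measurable g) {M a b : ℝ} (hab : a ≤ b)
    (hM : ∀ x ∈ Ioo a b, |g x| ≤ M) : IntervalIntegrable g volume a b := by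
  rw [intervalIntegrable_iff_integrableOn_Ioo_of_le hab]
  refine Measure.integrableOn_of_bounded (M := M) (by simp) hg.aestronglyMeasurable ?_
  exact (ae_restrict_iff' measurableSet_Ioo).2 (Eventually.of_forall hM)

/-- change of variables -/
theorem ZY1_cov {e : ℝ → ℝ} (he : Measurable e) (h0 : ∀ v, 0 ≤ e v) (h1 : ∀ v, e v ≤ 1) {x y : ℝ}
    (hx : -1 ≤ x) (hxy : x ≤ y) (hy : y ≤ 1) :
    ∫ v in x..y, e v ≤ ∫ θ in (Real.arccos (-x))..(Real.arccos (-y)), e (-Real.cos θ) := by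
  obtain ⟨m, hm⟩ : ∃ m, m = Real.arccos (-x) := ⟨_, rfl⟩
  obtain ⟨n, hn⟩ : ∃ n, n = Real.arccos (-y) := ⟨_, rfl⟩
  rw [← hm, ← hn]
  have hmn : m ≤ n := by rw [hm, hn]; exact Real.arccos_le_arccos (by linarith)
  have hm0 : 0 ≤ m := by rw [hm]; exact Real.arccos_nonneg _
  have hnπ : n ≤ π := by rw [hn]; exact Real.arccos_le_pi _
  have hcm : -Real.cos m = x := by rw [hm, Real.cos_arccos (by linarith) (by linarith)]; ring
  have hcn : -Real.cos n = y := by rw [hn, Real.cos_arccos (by linarith) (by linarith)]; ring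
  have him : (fun θ : ℝ => -Real.cos θ) '' Icc m n = Icc x y := by
    apply Subset.antisymm
    · rintro _ ⟨θ, hθ, rfl⟩
      constructor
      · rw [← hcm]
        exact neg_le_neg (Real.cos_le_cos_of_nonneg_of_le_pi hm0 (hθ.2.trans hnπ) hθ.1)
      · rw [← hcn]
        exact neg_le_neg (Real.cos_le_cos_of_nonneg_of_le_pi (hm0.trans hθ.1) hnπ hθ.2)
    · have := intermediate_value_Icc hmn (f := fun θ : ℝ => -Real.cos θ) (by fun_prop)
      simp only [hcm, hcn] at this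
      exact this
  have h := MeasureTheory.integral_image_eq_integral_abs_deriv_smul (s := Icc m n)
    (f := fun θ : ℝ => -Real.cos θ) (f' := fun θ => Real.sin θ) measurableSet_Icc
    (fun θ _ => by
      have := (Real.hasDerivAt_cos θ).neg
      rw [neg_neg] at this
      exact this.hasDerivWithinAt)
    (fun a ha b hb hab => Real.injOn_cos ⟨hm0.trans ha.1, ha.2.trans hnπ⟩
      ⟨hm0.trans hb.1, hb.2.trans hnπ⟩ (neg_injective hab)) e
  rw [him] at h
  rw [intervalIntegral.integral_of_le hxy, intervalIntegral.integral_of_le hmn,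
    ← integral_Icc_eq_integral_Ioc, ← integral_Icc_eq_integral_Ioc, h]
  have hme : Measurable (fun θ : ℝ => e (-Real.cos θ)) := he.comp (by fun_prop)
  refine setIntegral_mono_on ?_ ?_ measurableSet_Icc ?_
  · refine Measure.integrableOn_of_bounded (M := 1) (by simp)
      (by
        have : Measurable (fun θ : ℝ => |Real.sin θ| • e (-Real.cos θ)) :=
          (by fun_prop : Measurable fun θ : ℝ => |Real.sin θ|).mul hme
        exact this.aestronglyMeasurable) (Eventually.of_forall fun θ => ?_)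
    rw [smul_eq_mul, Real.norm_eq_abs, abs_mul, abs_abs, abs_of_nonneg (h0 _)]
    exact mul_le_one₀ (Real.abs_sin_le_one θ) (h0 _) (h1 _)
  · refine Measure.integrableOn_of_bounded (M := 1) (by simp) hme.aestronglyMeasurable
      (Eventually.of_forall fun θ => ?_)
    rw [Real.norm_eq_abs, abs_of_nonneg (h0 _)]
    exact h1 _
  · intro θ _
    rw [smul_eq_mul]
    calc |Real.sin θ| * e (-Real.cos θ) ≤ 1 * e (-Real.cos θ) :=
          mul_le_mul_of_nonneg_right (Real.abs_sin_le_one θ) (h0 _)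
      _ = _ := one_mul _

/-- the basic lower bound -/
theorem ZY1_low {N s w : ℝ → ℝ} {a b m n κ c C D : ℝ} (ham : a ≤ m) (hmn : m ≤ n) (hnb : n ≤ b)
    (hκ : 0 ≤ κ) (hN : IntervalIntegrable N volume a b)
    (hNs : IntervalIntegrable (fun θ => N θ * s θ) volume a b)
    (hw : IntervalIntegrable w volume m n) (hN0 : ∀ θ ∈ Ioo a b, 0 ≤ N θ)
    (hs : ∀ θ ∈ Ioo a b, -κ ≤ s θ) (hc0 : 0 ≤ c) (hw0 : ∀ θ, 0 ≤ w θ)
    (hz : ∀ θ ∈ Ioo m n, c ≤ N θ ∧ w θ / 20 ≤ s θ) (hNC : ∫ θ in a..b, N θ ≤ C)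
    (hwD : D ≤ ∫ θ in m..n, w θ) :
    c * D / 20 - κ * C ≤ ∫ θ in a..b, N θ * s θ := by
  have hab : a ≤ b := ham.trans (hmn.trans hnb)
  have hsum : IntervalIntegrable (fun θ => N θ * s θ + κ * N θ) volume a b :=
    hNs.add (hN.const_mul κ)
  have h1 : ∫ θ in a..b, (N θ * s θ + κ * N θ) = (∫ θ in a..b, N θ * s θ) +
      κ * ∫ θ in a..b, N θ := by
    rw [intervalIntegral.integral_add hNs (hN.const_mul κ), intervalIntegral.integral_const_mul]
  have h2 : ∫ θ in m..n, (N θ * s θ + κ * N θ) ≤ ∫ θ in a..b, (N θ * s θ + κ * N θ) := by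
    refine intervalIntegral.integral_mono_interval ham hmn hnb ?_ hsum
    have : ∀ᵐ θ ∂(volume.restrict (Ioc a b)), θ ∈ Ioo a b := by
      rw [ae_restrict_iff' measurableSet_Ioc]
      have hb : ∀ᵐ θ : ℝ, θ ≠ b := by
        rw [ae_iff]; simp
      filter_upwards [hb] with θ h1 h2
      exact ⟨h2.1, lt_of_le_of_ne h2.2 h1⟩
    filter_upwards [this] with θ hθ
    have := hN0 θ hθ
    have h3 := hs θ hθ
    show 0 ≤ N θ * s θ + κ * N θ
    nlinarith
  have hsub : IntervalIntegrable (fun θ => N θ * s θ + κ * N θ) volume m n := by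
    refine hsum.mono_set ?_
    rw [uIcc_of_le hmn, uIcc_of_le hab]
    exact Icc_subset_Icc ham hnb
  have h3 : ∫ θ in m..n, c / 20 * w θ ≤ ∫ θ in m..n, (N θ * s θ + κ * N θ) := by
    refine intervalIntegral.integral_mono_on_of_le_Ioo hmn (hw.const_mul _) hsub fun θ hθ => ?_
    obtain ⟨h4, h5⟩ := hz θ hθ
    have h6 := hw0 θ
    have h7 : 0 ≤ N θ := hc0.trans h4
    have h8 : c * (w θ / 20) ≤ N θ * s θ := mul_le_mul h4 h5 (by positivity) h7
    have h9 : 0 ≤ κ * N θ := mul_nonneg hκ h7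
    linarith
  rw [intervalIntegral.integral_const_mul] at h3
  have h4 : c / 20 * D ≤ c / 20 * ∫ θ in m..n, w θ :=
    mul_le_mul_of_nonneg_left hwD (by positivity)
  have h5 : κ * ∫ θ in a..b, N θ ≤ κ * C := mul_le_mul_of_nonneg_left hNC hκ
  have h6 : c * D / 20 = c / 20 * D := by ring
  rw [h6]
  linarith

/-- the phase for negative part: bounds for `sin (bda)` on the left -/
theorem ZY1_left {v₀ δ κ : ℝ} {e : ℝ → ℝ} (h0 : ∀ v, 0 ≤ e v) (h1 : ∀ v, e v ≤ 1) (hδ : 0 < δ)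
    (hκ : 0 ≤ κ) (hκ1 : κ ≤ 1 / 10) {θ : ℝ} (hθ : -Real.cos θ ≤ v₀) :
    -κ ≤ Real.sin (bda v₀ δ e (π + κ) (π + κ) θ) ∧
    (-Real.cos θ ≤ v₀ - δ / 4 → 0 ≤ Real.sin (bda v₀ δ e (π + κ) (π + κ) θ)) ∧
    (v₀ - 3 * δ / 4 ≤ -Real.cos θ → -Real.cos θ ≤ v₀ - δ / 4 →
      e (-Real.cos θ) / 20 ≤ Real.sin (bda v₀ δ e (π + κ) (π + κ) θ)) := by
  have hπ := Real.pi_gt_three
  obtain ⟨v, hv⟩ : ∃ v, v = -Real.cos θ := ⟨_, rfl⟩
  unfold bda
  rw [← hv] at hθ ⊢
  obtain ⟨c0, c1, c2, c3⟩ := ZY1_chiL (v₀ := v₀) hδ v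
  have e0 := h0 v
  have e1 := h1 v
  by_cases hlt : v < v₀
  · rw [if_pos hlt]
    have hb0 : 0 ≤ (π + κ) * chiL v₀ δ v * e v := by positivity
    have hb1 : (π + κ) * chiL v₀ δ v * e v ≤ π + κ := by
      have : chiL v₀ δ v * e v ≤ 1 := mul_le_one₀ c1 e0 e1
      rw [mul_assoc]
      calc (π + κ) * (chiL v₀ δ v * e v) ≤ (π + κ) * 1 :=
            mul_le_mul_of_nonneg_left this (by linarith)
        _ = _ := mul_one _
    have hb2 : v ≤ v₀ - δ / 4 → (π + κ) * chiL v₀ δ v * e v ≤ 3 / 4 * (π + κ) := by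
      intro h
      have : chiL v₀ δ v * e v ≤ 3 / 4 := by
        calc chiL v₀ δ v * e v ≤ chiL v₀ δ v * 1 := mul_le_mul_of_nonneg_left e1 c0
          _ ≤ 3 / 4 := by rw [mul_one]; exact c2 h
      rw [mul_assoc]
      calc (π + κ) * (chiL v₀ δ v * e v) ≤ (π + κ) * (3 / 4) :=
            mul_le_mul_of_nonneg_left this (by linarith)
        _ = _ := by ring
    refine ⟨ZY1_sin_ge hκ hκ1 hb0 hb1, fun h => ?_, fun h h' => ?_⟩
    · refine le_trans (by positivity) (ZY1_sin_ge' hκ hκ1 hb0 (hb2 h))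
    · refine le_trans ?_ (ZY1_sin_ge' hκ hκ1 hb0 (hb2 h'))
      have h5 := c3 h h'
      have h6 : 1 / 2 ≤ (π + κ) * chiL v₀ δ v := by nlinarith
      have h7 : 1 / 2 * e v ≤ (π + κ) * chiL v₀ δ v * e v := mul_le_mul_of_nonneg_right h6 e0
      linarith
  · rw [if_neg hlt]
    have hvv : v = v₀ := le_antisymm hθ (not_lt.1 hlt)
    have hcr : chiR v₀ δ v = 0 := by
      unfold chiR
      rw [if_neg]
      rintro ⟨h, -⟩
      linarith
    rw [hcr, mul_zero, zero_mul, sub_zero, Real.sin_two_pi]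
    refine ⟨by linarith, fun _ => le_rfl, fun _ h => ?_⟩
    linarith

/-- bounds for `-sin (bda)` on the right -/
theorem ZY1_right {v₀ δ κ : ℝ} {e : ℝ → ℝ} (h0 : ∀ v, 0 ≤ e v) (h1 : ∀ v, e v ≤ 1) (hδ : 0 < δ)
    (hκ : 0 ≤ κ) (hκ1 : κ ≤ 1 / 10) {θ : ℝ} (hθ : v₀ ≤ -Real.cos θ) :
    -κ ≤ -Real.sin (bda v₀ δ e (π + κ) (π + κ) θ) ∧
    (v₀ + δ / 4 ≤ -Real.cos θ → 0 ≤ -Real.sin (bda v₀ δ e (π + κ) (π + κ) θ)) ∧
    (v₀ + δ / 4 ≤ -Real.cos θ → -Real.cos θ ≤ v₀ + 3 * δ / 4 →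
      e (-Real.cos θ) / 20 ≤ -Real.sin (bda v₀ δ e (π + κ) (π + κ) θ)) := by
  have hπ := Real.pi_gt_three
  obtain ⟨v, hv⟩ : ∃ v, v = -Real.cos θ := ⟨_, rfl⟩
  unfold bda
  rw [← hv] at hθ ⊢
  obtain ⟨c0, c1, c2, c3⟩ := ZY1_chiR (v₀ := v₀) hδ v
  have e0 := h0 v
  have e1 := h1 v
  rw [if_neg (not_lt.2 hθ)]
  have hs : -Real.sin (2 * π - (π + κ) * chiR v₀ δ v * e v) =
      Real.sin ((π + κ) * chiR v₀ δ v * e v) := by
    rw [Real.sin_two_pi_sub, neg_neg]
  rw [hs]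
  have hb0 : 0 ≤ (π + κ) * chiR v₀ δ v * e v := by positivity
  have hb1 : (π + κ) * chiR v₀ δ v * e v ≤ π + κ := by
    have : chiR v₀ δ v * e v ≤ 1 := mul_le_one₀ c1 e0 e1
    rw [mul_assoc]
    calc (π + κ) * (chiR v₀ δ v * e v) ≤ (π + κ) * 1 :=
          mul_le_mul_of_nonneg_left this (by linarith)
      _ = _ := mul_one _
  have hb2 : v₀ + δ / 4 ≤ v → (π + κ) * chiR v₀ δ v * e v ≤ 3 / 4 * (π + κ) := by
    intro h
    have : chiR v₀ δ v * e v ≤ 3 / 4 := by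
      calc chiR v₀ δ v * e v ≤ chiR v₀ δ v * 1 := mul_le_mul_of_nonneg_left e1 c0
        _ ≤ 3 / 4 := by rw [mul_one]; exact c2 h
    rw [mul_assoc]
    calc (π + κ) * (chiR v₀ δ v * e v) ≤ (π + κ) * (3 / 4) :=
          mul_le_mul_of_nonneg_left this (by linarith)
      _ = _ := by ring
  refine ⟨ZY1_sin_ge hκ hκ1 hb0 hb1, fun h => ?_, fun h h' => ?_⟩
  · refine le_trans (by positivity) (ZY1_sin_ge' hκ hκ1 hb0 (hb2 h))
  · refine le_trans ?_ (ZY1_sin_ge' hκ hκ1 hb0 (hb2 h))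
    have h5 := c3 h h'
    have h6 : 1 / 2 ≤ (π + κ) * chiR v₀ δ v := by nlinarith
    have h7 : 1 / 2 * e v ≤ (π + κ) * chiR v₀ δ v * e v := mul_le_mul_of_nonneg_right h6 e0
    linarith

theorem ZY1_bda_meas {v₀ δ hL hR : ℝ} {e : ℝ → ℝ} (he : Measurable e) :
    Measurable (bda v₀ δ e hL hR) := by
  have hc : Measurable (fun θ : ℝ => -Real.cos θ) := by fun_prop
  have h1 : Measurable (fun θ : ℝ => chiL v₀ δ (-Real.cos θ)) := (ZY1_chiL_meas v₀ δ).comp hc
  have h2 : Measurable (fun θ : ℝ => chiR v₀ δ (-Real.cos θ)) := (ZY1_chiR_meas v₀ δ).comp hc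
  have h3 : Measurable (fun θ : ℝ => e (-Real.cos θ)) := he.comp hc
  unfold bda
  exact Measurable.ite (measurableSet_lt hc measurable_const)
    ((measurable_const.mul h1).mul h3) (measurable_const.sub ((measurable_const.mul h2).mul h3))

/-- the comparison of the integral of `Im V` with that of `|V| sin (bda)` -/
theorem ZY1_cmp {E : Set ℝ} {v₀ : ℝ} {e : ℝ → ℝ} (hLk : Lock E v₀ e)
    (hv₀ : v₀ ∈ Ioo (-1 : ℝ) 1) {δ : ℝ} (hδ : 0 < δ) {h M : ℝ} (hh : 0 ≤ h)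
    (hM : ∀ z ∈ ball (0 : ℂ) 1, ‖Va v₀ δ e h h z‖ ≤ M) {p : ℂ → ℂ} (hp : IsP (Va v₀ δ e h h) p)
    {r : ℝ} (hr0 : 0 < r) (hr1 : r < 1) :
    Continuous (fun θ : ℝ => ‖Va v₀ δ e h h (r * Complex.exp (θ * Complex.I))‖) ∧
    ∀ a b : ℝ, 0 ≤ a → a ≤ b → b ≤ π →
      |((p (r * Complex.exp (b * Complex.I))).im - (p (r * Complex.exp (a * Complex.I))).im) -
        ∫ θ in a..b, ‖Va v₀ δ e h h (r * Complex.exp (θ * Complex.I))‖ *
          Real.sin (bda v₀ δ e h h θ)| ≤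
        M * ∫ θ in (0 : ℝ)..π, |pha v₀ δ e h h (r * Complex.exp (θ * Complex.I)) -
          bda v₀ δ e h h θ| := by
  have hVd := (ZV_diff hLk hv₀ δ hδ h h).2
  have hmem : ∀ θ : ℝ, (r : ℂ) * Complex.exp (θ * Complex.I) ∈ ball (0 : ℂ) 1 := by
    intro θ
    rw [mem_ball_zero_iff, norm_mul, Complex.norm_real, Real.norm_eq_abs, abs_of_pos hr0,
      Complex.norm_exp_ofReal_mul_I, mul_one]
    exact hr1
  have hM0 : 0 ≤ M := (norm_nonneg _).trans (hM _ (hmem 0))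
  have hVc : Continuous (fun θ : ℝ => Va v₀ δ e h h (r * Complex.exp (θ * Complex.I))) :=
    hVd.continuousOn.comp_continuous (by fun_prop) hmem
  refine ⟨hVc.norm, fun a b ha hab hb => ?_⟩
  have him : ∀ θ ∈ Ioo (0 : ℝ) π, 0 < ((r : ℂ) * Complex.exp (θ * Complex.I)).im := by
    intro θ hθ
    rw [Complex.im_ofReal_mul, Complex.exp_ofReal_mul_I_im]
    exact mul_pos hr0 (Real.sin_pos_of_pos_of_lt_pi hθ.1 hθ.2)
  have hVim : ∀ θ ∈ Ioo (0 : ℝ) π, (Va v₀ δ e h h (r * Complex.exp (θ * Complex.I))).im =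
      ‖Va v₀ δ e h h (r * Complex.exp (θ * Complex.I))‖ *
        Real.sin (pha v₀ δ e h h (r * Complex.exp (θ * Complex.I))) := by
    intro θ hθ
    have h1 := (ZQ_phase hv₀ δ e h h (mem_ball_zero_iff.1 (hmem θ)) (him θ hθ)).2
    have h2 := congrArg Complex.im h1
    rw [Complex.im_ofReal_mul, Complex.exp_ofReal_mul_I_im] at h2
    exact h2
  -- polar formula
  have hpol : ∫ θ in a..b, (Va v₀ δ e h h (r * Complex.exp (θ * Complex.I))).im =
      (p (r * Complex.exp (b * Complex.I))).im - (p (r * Complex.exp (a * Complex.I))).im := by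
    have h1 := ZP_polar _ p hVd hp.diff hp.eq hr0.le hr1 a b
    have h2 := Complex.imCLM.intervalIntegral_comp_comm (hVc.intervalIntegrable a b
      (μ := volume))
    rw [h1] at h2
    rw [← Complex.sub_im]
    exact h2
  -- measurability and bounds of the phases
  obtain ⟨φL, hφL⟩ : ∃ φ : ℝ → ℝ, φ = fun v => chiL v₀ δ v * e v := ⟨_, rfl⟩
  obtain ⟨φR, hφR⟩ : ∃ φ : ℝ → ℝ, φ = fun v => chiR v₀ δ v * e v := ⟨_, rfl⟩
  have hφLm : Measurable φL := by rw [hφL]; exact (ZY1_chiL_meas v₀ δ).mul hLk.meas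
  have hφRm : Measurable φR := by rw [hφR]; exact (ZY1_chiR_meas v₀ δ).mul hLk.meas
  have hφL0 : ∀ v, 0 ≤ φL v := fun v => by
    rw [hφL]; exact mul_nonneg (ZY1_chiL hδ v).1 (hLk.nonneg v)
  have hφR0 : ∀ v, 0 ≤ φR v := fun v => by
    rw [hφR]; exact mul_nonneg (ZY1_chiR hδ v).1 (hLk.nonneg v)
  have hφL1 : ∀ v, φL v ≤ 1 := fun v => by
    rw [hφL]; exact mul_le_one₀ (ZY1_chiL hδ v).2.1 (hLk.nonneg v) (hLk.le_one v)
  have hφR1 : ∀ v, φR v ≤ 1 := fun v => by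
    rw [hφR]; exact mul_le_one₀ (ZY1_chiR hδ v).2.1 (hLk.nonneg v) (hLk.le_one v)
  have hCv : ∀ φ : ℝ → ℝ, Measurable φ → (∀ v, 0 ≤ φ v) → (∀ v, φ v ≤ 1) →
      Continuous (fun θ : ℝ => (Cv φ (r * Complex.exp (θ * Complex.I))).im) ∧
      ∀ θ ∈ Ioo (0 : ℝ) π, 0 ≤ (Cv φ (r * Complex.exp (θ * Complex.I))).im ∧
        (Cv φ (r * Complex.exp (θ * Complex.I))).im ≤ 1 := by
    intro φ hφ hφ0 hφ1
    constructor
    · have h1 := ZF_diff φ hφ 1 (fun v => by rw [abs_of_nonneg (hφ0 v)]; exact hφ1 v)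
      exact Complex.continuous_im.comp (h1.continuousOn.comp_continuous (by fun_prop) hmem)
    · intro θ hθ
      exact ZF_im_bound φ hφ 0 1 hφ0 hφ1 le_rfl zero_le_one (mem_ball_zero_iff.1 (hmem θ))
        (him θ hθ)
  obtain ⟨cL, bL⟩ := hCv φL hφLm hφL0 hφL1
  obtain ⟨cR, bR⟩ := hCv φR hφRm hφR0 hφR1
  have hπ := Real.pi_pos
  have hpm : Measurable (fun θ : ℝ => pha v₀ δ e h h (r * Complex.exp (θ * Complex.I))) := by
    unfold pha uz
    rw [← hφL, ← hφR]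
    have m1 : Measurable (fun θ : ℝ => Complex.arg ((((r : ℂ) * Complex.exp (θ * Complex.I)) ^ 2 - 1) /
        (2 * Complex.I * ((r : ℂ) * Complex.exp (θ * Complex.I))))) :=
      Complex.measurable_arg.comp (by fun_prop)
    have m2 : Measurable (fun θ : ℝ => Complex.arg ((v₀ : ℂ) -
        -(((r : ℂ) * Complex.exp (θ * Complex.I)) + 1 / ((r : ℂ) * Complex.exp (θ * Complex.I))) / 2)) :=
      Complex.measurable_arg.comp (by fun_prop)
    exact ((m1.sub (measurable_const.mul m2)).add (measurable_const.mul cL.measurable)).sub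
      (measurable_const.mul cR.measurable)
  have hGm : Measurable (fun θ : ℝ => |pha v₀ δ e h h (r * Complex.exp (θ * Complex.I)) -
      bda v₀ δ e h h θ|) := (hpm.sub (ZY1_bda_meas hLk.meas)).norm
  have hGb : ∀ θ ∈ Ioo (0 : ℝ) π, |(|pha v₀ δ e h h (r * Complex.exp (θ * Complex.I)) -
      bda v₀ δ e h h θ|)| ≤ 5 * π + 3 * h := by
    intro θ hθ
    rw [abs_abs]
    have h1 : |pha v₀ δ e h h (r * Complex.exp (θ * Complex.I))| ≤ 3 * π + 2 * h := by
      unfold pha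
      rw [← hφL, ← hφR]
      have a1 := abs_le.1 (Complex.abs_arg_le_pi ((((r : ℂ) * Complex.exp (θ * Complex.I)) ^ 2 - 1) /
        (2 * Complex.I * ((r : ℂ) * Complex.exp (θ * Complex.I)))))
      have a2 := abs_le.1 (Complex.abs_arg_le_pi ((v₀ : ℂ) - uz ((r : ℂ) * Complex.exp (θ * Complex.I))))
      obtain ⟨a3, a4⟩ := bL θ hθ
      obtain ⟨a5, a6⟩ := bR θ hθ
      have a7 : 0 ≤ h * (Cv φL (r * Complex.exp (θ * Complex.I))).im := mul_nonneg hh a3
      have a8 : h * (Cv φL (r * Complex.exp (θ * Complex.I))).im ≤ h := by nlinarith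
      have a9 : 0 ≤ h * (Cv φR (r * Complex.exp (θ * Complex.I))).im := mul_nonneg hh a5
      have a10 : h * (Cv φR (r * Complex.exp (θ * Complex.I))).im ≤ h := by nlinarith
      rw [abs_le]
      constructor <;> linarith [a1.1, a1.2, a2.1, a2.2]
    have h2 : |bda v₀ δ e h h θ| ≤ 2 * π + h := by
      unfold bda
      have b1 := hφL0 (-Real.cos θ)
      have b2 := hφL1 (-Real.cos θ)
      have b3 := hφR0 (-Real.cos θ)
      have b4 := hφR1 (-Real.cos θ)
      rw [hφL] at b1 b2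
      rw [hφR] at b3 b4
      simp only at b1 b2 b3 b4
      split_ifs
      · rw [mul_assoc, abs_of_nonneg (mul_nonneg hh b1)]
        nlinarith
      · rw [mul_assoc, abs_le]
        constructor <;> nlinarith [mul_nonneg hh b3]
    calc |pha v₀ δ e h h (r * Complex.exp (θ * Complex.I)) - bda v₀ δ e h h θ|
        ≤ |pha v₀ δ e h h (r * Complex.exp (θ * Complex.I))| + |bda v₀ δ e h h θ| := abs_sub _ _
      _ ≤ (3 * π + 2 * h) + (2 * π + h) := add_le_add h1 h2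
      _ = _ := by ring
  have hGi : IntervalIntegrable (fun θ : ℝ => |pha v₀ δ e h h (r * Complex.exp (θ * Complex.I)) -
      bda v₀ δ e h h θ|) volume 0 π := ZY1_int hGm hπ.le hGb
  have hGi' : IntervalIntegrable (fun θ : ℝ => |pha v₀ δ e h h (r * Complex.exp (θ * Complex.I)) -
      bda v₀ δ e h h θ|) volume a b := by
    refine hGi.mono_set ?_
    rw [uIcc_of_le hab, uIcc_of_le hπ.le]
    exact Icc_subset_Icc ha hb
  have hsm : Measurable (fun θ : ℝ => Real.sin (bda v₀ δ e h h θ)) :=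
    Real.measurable_sin.comp (ZY1_bda_meas hLk.meas)
  have hNsi : IntervalIntegrable (fun θ : ℝ => ‖Va v₀ δ e h h (r * Complex.exp (θ * Complex.I))‖ *
      Real.sin (bda v₀ δ e h h θ)) volume a b := by
    refine ZY1_int (hVc.norm.measurable.mul hsm) (M := M) hab fun θ _ => ?_
    show |‖Va v₀ δ e h h (r * Complex.exp (θ * Complex.I))‖ * Real.sin (bda v₀ δ e h h θ)| ≤ M
    rw [abs_mul, abs_norm]
    calc ‖Va v₀ δ e h h (r * Complex.exp (θ * Complex.I))‖ * |Real.sin (bda v₀ δ e h h θ)|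
        ≤ M * 1 := mul_le_mul (hM _ (hmem θ)) (Real.abs_sin_le_one _) (abs_nonneg _) hM0
      _ = M := mul_one _
  have hVimi : IntervalIntegrable (fun θ : ℝ =>
      (Va v₀ δ e h h (r * Complex.exp (θ * Complex.I))).im) volume a b :=
    (Complex.continuous_im.comp hVc).intervalIntegrable a b
  rw [← hpol, ← intervalIntegral.integral_sub hVimi hNsi]
  refine (intervalIntegral.abs_integral_le_integral_abs hab).trans ?_
  have h1 : ∫ θ in a..b, |(Va v₀ δ e h h (r * Complex.exp (θ * Complex.I))).im -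
      ‖Va v₀ δ e h h (r * Complex.exp (θ * Complex.I))‖ * Real.sin (bda v₀ δ e h h θ)| ≤
      ∫ θ in a..b, M * |pha v₀ δ e h h (r * Complex.exp (θ * Complex.I)) -
      bda v₀ δ e h h θ| := by
    refine intervalIntegral.integral_mono_on_of_le_Ioo hab (hVimi.sub hNsi).abs
      (hGi'.const_mul M) fun θ hθ => ?_
    rw [hVim θ ⟨ha.trans_lt hθ.1, hθ.2.trans_le hb⟩, ← mul_sub, abs_mul, abs_norm]
    exact mul_le_mul (hM _ (hmem θ)) (Real.abs_sin_sub_sin_le _ _) (abs_nonneg _) hM0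
  refine h1.trans ?_
  rw [intervalIntegral.integral_const_mul]
  refine mul_le_mul_of_nonneg_left ?_ hM0
  exact intervalIntegral.integral_mono_interval ha hab hb
    (Eventually.of_forall fun θ => abs_nonneg _) hGi

theorem ZY1 {E : Set ℝ} {v₀ : ℝ} {e : ℝ → ℝ} (hLk : Lock E v₀ e) (hsub : E ⊆ Ioo (-1) 1)
    (hv₀ : v₀ ∈ E) (δ : ℝ) (hδ : 0 < δ) (h1 : -1 < v₀ - δ) (h2 : v₀ + δ < 1)
    (hmassL : δ / 8 ≤ ∫ v in (v₀ - 3 * δ / 4)..(v₀ - δ / 4), e v)
    (hmassR : δ / 8 ≤ ∫ v in (v₀ + δ / 4)..(v₀ + 3 * δ / 4), e v) :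
    ∃ κ : ℝ, 0 < κ ∧ κ ≤ 1 / 10 ∧ ∀ p : ℂ → ℂ, IsP (Va v₀ δ e (π + κ) (π + κ)) p →
      (∀ θ : ℝ, 0 ≤ θ → θ ≤ π → ∀ ε : ℝ, 0 < ε → ∀ᶠ r : ℝ in 𝓝[<] 1,
        -ε ≤ (p (r * Complex.exp (θ * Complex.I))).im) ∧
      ∃ z ∈ ball (0 : ℂ) 1, p z ≠ 0 := by
  have hπ := Real.pi_gt_three
  have hπ4 := Real.pi_le_four
  obtain ⟨C, hC⟩ := ZVL_a hLk hsub hv₀ δ hδ h1.le h2.le
  obtain ⟨c, r₁, hc, hr₁, hr₁1, hlow⟩ := ZVL_low hLk hsub hv₀ δ hδ h1.le h2.le
  obtain ⟨κ, hκdef⟩ : ∃ κ : ℝ, κ = min (1 / 10) (c * δ / (320 * (|C| + 1))) := ⟨_, rfl⟩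
  have hCp : 0 < |C| + 1 := by positivity
  have hκ0 : 0 < κ := by rw [hκdef]; exact lt_min (by norm_num) (by positivity)
  have hκ1 : κ ≤ 1 / 10 := by rw [hκdef]; exact min_le_left _ _
  have hκC : κ * C ≤ c * δ / 320 := by
    have e1 : κ ≤ c * δ / (320 * (|C| + 1)) := by rw [hκdef]; exact min_le_right _ _
    calc κ * C ≤ κ * (|C| + 1) :=
          mul_le_mul_of_nonneg_left (by linarith [le_abs_self C]) hκ0.le
      _ ≤ c * δ / (320 * (|C| + 1)) * (|C| + 1) := mul_le_mul_of_nonneg_right e1 hCp.le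
      _ = c * δ / 320 := by field_simp
  refine ⟨κ, hκ0, hκ1, fun p hp => ?_⟩
  have hv₀' : v₀ ∈ Ioo (-1 : ℝ) 1 := hsub hv₀
  have hh : 0 ≤ π + κ := by linarith
  have hh5 : π + κ ≤ 5 := by linarith
  obtain ⟨M, hM⟩ := ZV_a hLk hsub hv₀ δ hδ h1.le h2.le (π + κ) (π + κ) hh hh (by linarith)
  -- the angles
  obtain ⟨τ, hτ⟩ : ∃ τ, τ = Real.arccos (-v₀) := ⟨_, rfl⟩
  have hcos : ∀ x : ℝ, -1 ≤ x → x ≤ 1 → -Real.cos (Real.arccos (-x)) = x := by
    intro x hx hx'
    rw [Real.cos_arccos (by linarith) (by linarith)]; ring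
  have hmono : ∀ θ₁ θ₂ : ℝ, 0 ≤ θ₁ → θ₁ ≤ θ₂ → θ₂ ≤ π → -Real.cos θ₁ ≤ -Real.cos θ₂ := by
    intro θ₁ θ₂ h3 h4 h5
    exact neg_le_neg (Real.cos_le_cos_of_nonneg_of_le_pi h3 h5 h4)
  have hcτ : -Real.cos τ = v₀ := by rw [hτ]; exact hcos v₀ hv₀'.1.le hv₀'.2.le
  have hτ0 : 0 ≤ τ := by rw [hτ]; exact Real.arccos_nonneg _
  have hτπ : τ ≤ π := by rw [hτ]; exact Real.arccos_le_pi _
  obtain ⟨m, hm⟩ : ∃ m, m = Real.arccos (-(v₀ - 3 * δ / 4)) := ⟨_, rfl⟩
  obtain ⟨n, hn⟩ : ∃ n, n = Real.arccos (-(v₀ - δ / 4)) := ⟨_, rfl⟩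
  obtain ⟨m', hm'⟩ : ∃ m, m = Real.arccos (-(v₀ + δ / 4)) := ⟨_, rfl⟩
  obtain ⟨n', hn'⟩ : ∃ n, n = Real.arccos (-(v₀ + 3 * δ / 4)) := ⟨_, rfl⟩
  have hcm : -Real.cos m = v₀ - 3 * δ / 4 := by
    rw [hm]; exact hcos _ (by linarith) (by linarith)
  have hcn : -Real.cos n = v₀ - δ / 4 := by
    rw [hn]; exact hcos _ (by linarith) (by linarith)
  have hcm' : -Real.cos m' = v₀ + δ / 4 := by
    rw [hm']; exact hcos _ (by linarith) (by linarith)
  have hcn' : -Real.cos n' = v₀ + 3 * δ / 4 := by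
    rw [hn']; exact hcos _ (by linarith) (by linarith)
  have hm0 : 0 ≤ m := by rw [hm]; exact Real.arccos_nonneg _
  have hmn : m ≤ n := by rw [hm, hn]; exact Real.arccos_le_arccos (by linarith)
  have hnτ : n ≤ τ := by rw [hτ, hn]; exact Real.arccos_le_arccos (by linarith)
  have hτm' : τ ≤ m' := by rw [hτ, hm']; exact Real.arccos_le_arccos (by linarith)
  have hm'n' : m' ≤ n' := by rw [hm', hn']; exact Real.arccos_le_arccos (by linarith)
  have hn'π : n' ≤ π := by rw [hn']; exact Real.arccos_le_pi _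
  have hmL : δ / 8 ≤ ∫ θ in m..n, e (-Real.cos θ) := by
    rw [hm, hn]
    exact hmassL.trans (ZY1_cov hLk.meas hLk.nonneg hLk.le_one (by linarith) (by linarith)
      (by linarith))
  have hmR : δ / 8 ≤ ∫ θ in m'..n', e (-Real.cos θ) := by
    rw [hm', hn']
    exact hmassR.trans (ZY1_cov hLk.meas hLk.nonneg hLk.le_one (by linarith) (by linarith)
      (by linarith))
  have hem : Measurable (fun θ : ℝ => e (-Real.cos θ)) := hLk.meas.comp (by fun_prop)
  have hei : ∀ a b : ℝ, a ≤ b → IntervalIntegrable (fun θ : ℝ => e (-Real.cos θ)) volume a b := by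
    intro a b hab
    refine ZY1_int hem (M := 1) hab fun θ _ => ?_
    rw [abs_of_nonneg (hLk.nonneg _)]
    exact hLk.le_one _
  -- the error term
  obtain ⟨ω, hω⟩ : ∃ ω : ℝ → ℝ, ω = fun r : ℝ => ∫ θ in (0 : ℝ)..π,
      |pha v₀ δ e (π + κ) (π + κ) (r * Complex.exp (θ * Complex.I)) -
        bda v₀ δ e (π + κ) (π + κ) θ| := ⟨_, rfl⟩
  have hω0 : Tendsto (fun r => M * ω r) (𝓝[<] 1) (𝓝 0) := by
    have := (ZQ_a hLk hv₀' δ hδ (π + κ) (π + κ)).const_mul M
    rw [mul_zero] at this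
    rw [hω]
    exact this
  have hωε : ∀ ε : ℝ, 0 < ε → ∀ᶠ r in 𝓝[<] (1 : ℝ), M * ω r ≤ ε := fun ε hε =>
    (hω0.eventually (Iio_mem_nhds hε)).mono fun r hr => le_of_lt hr
  have hev : ∀ᶠ r in 𝓝[<] (1 : ℝ), r₁ < r ∧ r < 1 := by
    filter_upwards [nhdsWithin_le_nhds (Ioi_mem_nhds hr₁1), self_mem_nhdsWithin] with r h3 h4
    exact ⟨h3, h4⟩
  -- main estimates
  have key : ∀ r : ℝ, r₁ < r → r < 1 → ∀ θ : ℝ, 0 ≤ θ → θ ≤ π →
      -(M * ω r) ≤ (p (r * Complex.exp (θ * Complex.I))).im ∧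
      (θ = τ → c * δ / 320 - M * ω r ≤ (p (r * Complex.exp (θ * Complex.I))).im) := by
    intro r hr1 hr2 θ hθ0 hθπ
    have hr0 : 0 < r := by linarith
    obtain ⟨hNc, hcmp⟩ := ZY1_cmp hLk hv₀' hδ hh hM hp hr0 hr2
    have hmem : ∀ θ : ℝ, (r : ℂ) * Complex.exp (θ * Complex.I) ∈ ball (0 : ℂ) 1 := by
      intro θ
      rw [mem_ball_zero_iff, norm_mul, Complex.norm_real, Real.norm_eq_abs, abs_of_pos hr0,
        Complex.norm_exp_ofReal_mul_I, mul_one]
      exact hr2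
    obtain ⟨N, hN⟩ : ∃ N : ℝ → ℝ, N = fun θ : ℝ =>
      ‖Va v₀ δ e (π + κ) (π + κ) (r * Complex.exp (θ * Complex.I))‖ := ⟨_, rfl⟩
    obtain ⟨s, hs⟩ : ∃ s : ℝ → ℝ, s = fun θ : ℝ =>
      Real.sin (bda v₀ δ e (π + κ) (π + κ) θ) := ⟨_, rfl⟩
    have hNc' : Continuous N := by rw [hN]; exact hNc
    have hN0 : ∀ θ, 0 ≤ N θ := fun θ => by rw [hN]; exact norm_nonneg _
    have hcmp' : ∀ a b : ℝ, 0 ≤ a → a ≤ b → b ≤ π →
        |((p (r * Complex.exp (b * Complex.I))).im - (p (r * Complex.exp (a * Complex.I))).im) -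
          ∫ θ in a..b, N θ * s θ| ≤ M * ω r := by
      rw [hN, hs, hω]
      exact hcmp
    have hreal : ∀ x : ℝ, |x| < 1 → (p (x : ℂ)).im = 0 := by
      intro x hx
      have h3 := ZX0_conj_a hp (x : ℂ) (by
        rw [mem_ball_zero_iff, Complex.norm_real]; exact hx)
      rw [Complex.conj_ofReal] at h3
      exact Complex.conj_eq_iff_im.1 h3.symm
    have hp0 : (p (r * Complex.exp ((0 : ℝ) * Complex.I))).im = 0 := by
      have : (r : ℂ) * Complex.exp (((0 : ℝ) : ℂ) * Complex.I) = ((r : ℝ) : ℂ) := by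
        simp
      rw [this]
      exact hreal r (by rw [abs_of_pos hr0]; exact hr2)
    have hpπ : (p (r * Complex.exp ((π : ℝ) * Complex.I))).im = 0 := by
      have : (r : ℂ) * Complex.exp (((π : ℝ) : ℂ) * Complex.I) = ((-r : ℝ) : ℂ) := by
        rw [Complex.exp_pi_mul_I]
        push_cast
        ring
      rw [this]
      exact hreal (-r) (by rw [abs_neg, abs_of_pos hr0]; exact hr2)
    have hsm : Measurable s := by
      rw [hs]; exact Real.measurable_sin.comp (ZY1_bda_meas hLk.meas)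
    have hs1 : ∀ θ, |s θ| ≤ 1 := fun θ => by rw [hs]; exact Real.abs_sin_le_one _
    have hNM : ∀ θ, N θ ≤ M := fun θ => by rw [hN]; exact hM _ (hmem θ)
    have hM0 : 0 ≤ M := (hN0 0).trans (hNM 0)
    have hNi : ∀ a b : ℝ, IntervalIntegrable N volume a b := fun a b =>
      hNc'.intervalIntegrable a b
    have hNsi : ∀ a b : ℝ, a ≤ b → IntervalIntegrable (fun θ => N θ * s θ) volume a b := by
      intro a b hab
      refine ZY1_int (hNc'.measurable.mul hsm) (M := M) hab fun θ _ => ?_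
      show |N θ * s θ| ≤ M
      rw [abs_mul, abs_of_nonneg (hN0 θ)]
      calc N θ * |s θ| ≤ M * 1 := mul_le_mul (hNM θ) (hs1 θ) (abs_nonneg _) hM0
        _ = M := mul_one _
    have hNC : ∀ a b : ℝ, 0 ≤ a → a ≤ b → b ≤ π → ∫ θ in a..b, N θ ≤ C := by
      intro a b ha hab hb
      refine le_trans ?_ (hC (π + κ) (π + κ) hh hh5 hh hh5 (by linarith) r (by linarith) hr2)
      have h3 : ∫ θ in a..b, N θ ≤ ∫ θ in (0 : ℝ)..π, N θ :=
        intervalIntegral.integral_mono_interval ha hab hb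
          (Eventually.of_forall fun θ => hN0 θ) (hNi 0 π)
      rw [hN] at h3 ⊢
      exact h3
    have hzoneN : ∀ θ ∈ Ioo (0 : ℝ) π, δ / 4 ≤ |-Real.cos θ - v₀| →
        |-Real.cos θ - v₀| ≤ 3 * δ / 4 → c ≤ N θ := by
      intro θ hθ h3 h4
      rw [hN]
      exact (hlow (π + κ) (π + κ) hh hh5 hh hh5 r hr1 hr2 θ hθ h3 h4).2
    rcases le_total θ τ with hle | hge
    · -- left part
      have hA : (∫ θ in (0 : ℝ)..θ, N θ * s θ) - M * ω r ≤
          (p (r * Complex.exp (θ * Complex.I))).im := by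
        have h3 := hcmp' 0 θ le_rfl hθ0 hθπ
        rw [hp0, sub_zero] at h3
        have h4 := (abs_le.1 h3).1
        linarith
      have hbd : ∀ x ∈ Ioo (0 : ℝ) θ, -Real.cos x ≤ v₀ := by
        intro x hx
        rw [← hcτ]
        exact hmono x τ hx.1.le (hx.2.le.trans hle) hτπ
      have hbig : n ≤ θ → c * δ / 320 ≤ ∫ θ in (0 : ℝ)..θ, N θ * s θ := by
        intro hnθ
        have h3 := ZY1_low (N := N) (s := s) (w := fun θ => e (-Real.cos θ)) (a := 0) (b := θ)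
          (m := m) (n := n) (κ := κ) (c := c) (C := C) (D := δ / 8) hm0 hmn hnθ hκ0.le
          (hNi 0 θ) (hNsi 0 θ hθ0) (hei m n hmn) (fun x _ => hN0 x) (fun x hx => by
            rw [hs]
            exact (ZY1_left hLk.nonneg hLk.le_one hδ hκ0.le hκ1 (hbd x hx)).1) hc.le
          (fun x => hLk.nonneg _) (fun x hx => by
            have hx0 : 0 < x := hm0.trans_lt hx.1
            have hxθ : x < θ := hx.2.trans_le hnθ
            have g1 : v₀ - 3 * δ / 4 ≤ -Real.cos x := by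
              rw [← hcm]; exact hmono m x hm0 hx.1.le (hxθ.le.trans hθπ)
            have g2 : -Real.cos x ≤ v₀ - δ / 4 := by
              rw [← hcn]; exact hmono x n hx0.le hx.2.le (hnτ.trans hτπ)
            have g3 : |-Real.cos x - v₀| = v₀ - -Real.cos x := by
              rw [abs_of_nonpos (by linarith)]; ring
            refine ⟨hzoneN x ⟨hx0, hxθ.trans_le hθπ⟩ (by rw [g3]; linarith)
              (by rw [g3]; linarith), ?_⟩
            rw [hs]
            exact (ZY1_left hLk.nonneg hLk.le_one hδ hκ0.le hκ1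
              (hbd x ⟨hx0, hxθ⟩)).2.2 g1 g2) (hNC 0 θ le_rfl hθ0 hθπ) hmL
        have h4 : c * (δ / 8) / 20 - κ * C ≥ c * δ / 320 := by
          have : c * (δ / 8) / 20 = c * δ / 160 := by ring
          rw [this]
          linarith
        linarith
      constructor
      · rcases le_total n θ with hnθ | hθn
        · have h3 := hbig hnθ
          have h4 : 0 ≤ c * δ / 320 := by positivity
          linarith
        · have h3 : 0 ≤ ∫ θ in (0 : ℝ)..θ, N θ * s θ := by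
            have h4 : ∫ _θ in (0 : ℝ)..θ, (0 : ℝ) ≤ ∫ θ in (0 : ℝ)..θ, N θ * s θ := by
              refine intervalIntegral.integral_mono_on_of_le_Ioo hθ0
                (by simp) (hNsi 0 θ hθ0) fun x hx => ?_
              refine mul_nonneg (hN0 x) ?_
              rw [hs]
              refine (ZY1_left hLk.nonneg hLk.le_one hδ hκ0.le hκ1 (hbd x hx)).2.1 ?_
              rw [← hcn]
              exact hmono x n hx.1.le (hx.2.le.trans hθn) (hnτ.trans hτπ)
            simpa using h4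
          linarith
      · intro hθτ
        have h3 := hbig (by rw [hθτ]; exact hnτ)
        linarith
    · -- right part
      have hA : (∫ θ in θ..π, N θ * (-s θ)) - M * ω r ≤
          (p (r * Complex.exp (θ * Complex.I))).im := by
        have h3 := hcmp' θ π hθ0 hθπ le_rfl
        rw [hpπ, zero_sub] at h3
        have h4 := (abs_le.1 h3).2
        have h5 : ∫ θ in θ..π, N θ * (-s θ) = -∫ θ in θ..π, N θ * s θ := by
          rw [← intervalIntegral.integral_neg]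
          exact intervalIntegral.integral_congr fun x _ => by ring
        have h6 := (abs_le.1 h3).1
        rw [h5]
        linarith
      have hbd : ∀ x ∈ Ioo θ π, v₀ ≤ -Real.cos x := by
        intro x hx
        rw [← hcτ]
        exact hmono τ x hτ0 (hge.trans hx.1.le) hx.2.le
      have hNsi' : IntervalIntegrable (fun θ => N θ * (-s θ)) volume θ π := by
        have h3 := (hNsi θ π hθπ).neg
        refine h3.congr_ae (Eventually.of_forall fun x => ?_)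
        show -(N x * s x) = N x * (-s x)
        ring
      have hbig : θ ≤ m' → c * δ / 320 ≤ ∫ θ in θ..π, N θ * (-s θ) := by
        intro hθm
        have hθ0' : 0 ≤ θ := hθ0
        have h3 := ZY1_low (N := N) (s := fun θ => -s θ) (w := fun θ => e (-Real.cos θ)) (a := θ)
          (b := π) (m := m') (n := n') (κ := κ) (c := c) (C := C) (D := δ / 8) hθm hm'n' hn'π
          hκ0.le (hNi θ π) hNsi' (hei m' n' hm'n') (fun x _ => hN0 x) (fun x hx => by
            rw [hs]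
            exact (ZY1_right hLk.nonneg hLk.le_one hδ hκ0.le hκ1 (hbd x hx)).1) hc.le
          (fun x => hLk.nonneg _) (fun x hx => by
            have hxθ : θ < x := hθm.trans_lt hx.1
            have hxπ : x < π := hx.2.trans_le hn'π
            have hx0 : 0 < x := hθ0.trans_lt hxθ
            have g1 : v₀ + δ / 4 ≤ -Real.cos x := by
              rw [← hcm']; exact hmono m' x (hτ0.trans hτm') hx.1.le hxπ.le
            have g2 : -Real.cos x ≤ v₀ + 3 * δ / 4 := by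
              rw [← hcn']; exact hmono x n' hx0.le hx.2.le hn'π
            have g3 : |-Real.cos x - v₀| = -Real.cos x - v₀ := abs_of_nonneg (by linarith)
            refine ⟨hzoneN x ⟨hx0, hxπ⟩ (by rw [g3]; linarith) (by rw [g3]; linarith), ?_⟩
            rw [hs]
            exact (ZY1_right hLk.nonneg hLk.le_one hδ hκ0.le hκ1
              (hbd x ⟨hxθ, hxπ⟩)).2.2 g1 g2) (hNC θ π hθ0 hθπ le_rfl) hmR
        have h4 : c * (δ / 8) / 20 - κ * C ≥ c * δ / 320 := by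
          have : c * (δ / 8) / 20 = c * δ / 160 := by ring
          rw [this]
          linarith
        linarith
      constructor
      · rcases le_total θ m' with hnθ | hθn
        · have h3 := hbig hnθ
          have h4 : 0 ≤ c * δ / 320 := by positivity
          linarith
        · have h3 : 0 ≤ ∫ θ in θ..π, N θ * (-s θ) := by
            have h4 : ∫ _θ in θ..π, (0 : ℝ) ≤ ∫ θ in θ..π, N θ * (-s θ) := by
              refine intervalIntegral.integral_mono_on_of_le_Ioo hθπ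
                (by simp) hNsi' fun x hx => ?_
              refine mul_nonneg (hN0 x) ?_
              rw [hs]
              refine (ZY1_right hLk.nonneg hLk.le_one hδ hκ0.le hκ1 (hbd x hx)).2.1 ?_
              rw [← hcm']
              exact hmono m' x (hτ0.trans hτm') (hθn.trans hx.1.le) hx.2.le
            simpa using h4
          linarith
      · intro hθτ
        have h3 := hbig (by rw [hθτ]; exact hτm')
        linarith
  constructor
  · intro θ hθ0 hθπ ε hε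
    filter_upwards [hev, hωε ε hε] with r h3 h4
    have h5 := (key r h3.1 h3.2 θ hθ0 hθπ).1
    linarith
  · have hpos : 0 < c * δ / 640 := by positivity
    obtain ⟨r, h3, h4⟩ := (hev.and (hωε _ hpos)).exists
    have h5 := (key r h3.1 h3.2 τ hτ0 hτπ).2 rfl
    have hr0 : 0 < r := by linarith [h3.1]
    refine ⟨r * Complex.exp (τ * Complex.I), ?_, fun h6 => ?_⟩
    · rw [mem_ball_zero_iff, norm_mul, Complex.norm_real, Real.norm_eq_abs, abs_of_pos hr0,
        Complex.norm_exp_ofReal_mul_I, mul_one]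
      exact h3.2
    · rw [h6, Complex.zero_im] at h5
      have h7 : c * δ / 320 = 2 * (c * δ / 640) := by ring
      linarith

end

end Pool.H90.VK
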