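import Pool.Agent.H90.VK.ZX1
import Pool.Agent.H90.VK.ZX2
import Pool.Agent.H90.VK.ZY1

/-!
# CB : the perturbation functions `p` for a compact set `E ⊂ (-1,1)` of positive measure

Points of the circle are described by `v = -Re ζ`. In both cases `p` is analytic on the disc, `p(0) = 0`,
`p ≢ 0`, `p` and `V = i z p'` bounded, and at every `ζ` of the circle with `-Re ζ ∉ E`, `p → p₀`, `V → V₀ ∈ ℝ`
(limits in the disc) with `V₀ Im p₀ ≤ 0` (`CB_beta`), resp. `V₀ Im p₀ ≥ 0` (`CB_alpha`).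

Choice of `δ`: `ZE` gives `v₀ ∈ E` and `Lock E v₀ e`. By `Lock.leb` with `ε = 1/10` choose `δ` small with
`-1 < v₀-δ`, `v₀+δ < 1`, `∫_{v₀-δ}^{v₀+δ} (1-e) ≤ δ/10`; so `∫_{v₀-3δ/4}^{v₀-δ/4} e ≥ δ/2 - δ/10 ≥ δ/8`, and
the same on the right (`CB_delta`).

`CB_beta`: `ZX1` gives `κ₁`, `ZX2` gives `κ₂`; `V₁ = Vb(π, κ₁)`, `V₂ = Vb(κ₂, π)` are bounded (`ZV_b`),
`p₁, p₂` from `ZP`. With `τ = arccos(-v₀)` let `a₁ = lim Im p₁(re^{iτ}) > 0`, `a₂ = lim Im p₂(re^{iτ}) < 0`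
(the limits exist by `ZP`), `λ ∈ (0,1)` with `λ a₁ + (1-λ) a₂ = 0`, `p = λ p₁ + (1-λ) p₂`.
`Im p(re^{iθ})` is nondecreasing in `θ ∈ [0,π]` (`ZX0_mono`) and even in `θ` (`ZX0_conj_b`), limit 0 at
`θ = τ`. So at `ζ = e^{iθ₀}`, `0 ≤ |θ₀| ≤ π`: `Im p₀ ≤ 0` if `|θ₀| < τ`, i.e. `-Re ζ < v₀`, and `Im p₀ ≥ 0` if
`-Re ζ > v₀`. `V₀ = (λ c₁ + (1-λ)c₂)/(v₀ + Re ζ)`, `c_i > 0` (`ZV_lim`), is positive iff `-Re ζ < v₀`.
`p ≢ 0`: else `V = 0`, but `V₁, V₂` have `Im ≥ 0` on the upper half disc (`ZQ_range`), so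
`Im V₁ = 0` there, `p₁` would have constant imaginary part along semicircles..., simplest:
`Im V = 0` on the upper half disc forces `Im V₁ = Im V₂ = 0` there, so `Im p₁(re^{iθ})` is constant in
`θ ∈ [0,π]` (`ZP_polar`), and `= 0` by `ZX0_mean`, contradicting `ZX1`.

`CB_alpha`: `κ` from `ZY1`, `V = Va(π+κ, π+κ)` bounded (`ZV_a`), `p` from `ZP`. At `ζ = e^{iθ₀}`,
`0 ≤ θ₀ ≤ π`: `Im p₀ ≥ 0`, `V₀ = c Im ζ ≥ 0` (`ZV_lim`). For `Im ζ < 0`: `p(conj z) = conj p(z)`, so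
`Im p₀ ≤ 0` and `V₀ = c Im ζ < 0`.
-/

open MeasureTheory Set Filter Topology Metric
open scoped Real ENNReal ComplexConjugate

namespace Pool.H90.VK

noncomputable section

/-- the properties of the perturbation; `s = 1` for the positive, `s = -1` for the negative part;
`S` is the exceptional set on the circle -/
structure Pert (s : ℝ) (S : Set ℂ) (p : ℂ → ℂ) : Prop where
  diff : DifferentiableOn ℂ p (ball (0 : ℂ) 1)
  zero : p 0 = 0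
  ne : ∃ z ∈ ball (0 : ℂ) 1, p z ≠ 0
  bdd : ∃ C : ℝ, ∀ z ∈ ball (0 : ℂ) 1, ‖p z‖ ≤ C ∧ ‖Complex.I * z * deriv p z‖ ≤ C
  lim : ∀ ζ : ℂ, ‖ζ‖ = 1 → ζ ∉ S → ∃ V₀ : ℝ, ∃ p₀ : ℂ,
    Tendsto p (𝓝[ball (0 : ℂ) 1] ζ) (𝓝 p₀) ∧
    Tendsto (fun z => Complex.I * z * deriv p z) (𝓝[ball (0 : ℂ) 1] ζ) (𝓝 (V₀ : ℂ)) ∧
    s * (V₀ * p₀.im) ≤ 0

theorem CB_delta {E : Set ℝ} {v₀ : ℝ} {e : ℝ → ℝ} (hLk : Lock E v₀ e) (hsub : E ⊆ Ioo (-1) 1)
    (hv₀ : v₀ ∈ E) :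
    ∃ δ : ℝ, 0 < δ ∧ -1 < v₀ - δ ∧ v₀ + δ < 1 ∧
      δ / 8 ≤ ∫ v in (v₀ - 3 * δ / 4)..(v₀ - δ / 4), e v ∧
      δ / 8 ≤ ∫ v in (v₀ + δ / 4)..(v₀ + 3 * δ / 4), e v := by
  obtain ⟨s₀, hs₀, hs⟩ := hLk.leb (1 / 10) (by norm_num)
  have hv := hsub hv₀
  have h1 : 0 < 1 - v₀ := by linarith [hv.2]
  have h2 : 0 < 1 + v₀ := by linarith [hv.1]
  have hint : ∀ a b : ℝ, IntervalIntegrable e volume a b := by
    intro a b
    refine (intervalIntegrable_const (c := (1 : ℝ))).mono_fun' hLk.meas.aestronglyMeasurable ?_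
    filter_upwards with v
    rw [Real.norm_eq_abs, abs_of_nonneg (hLk.nonneg v)]
    exact hLk.le_one v
  have hint1 : ∀ a b : ℝ, IntervalIntegrable (fun v => 1 - e v) volume a b := fun a b =>
    intervalIntegrable_const.sub (hint a b)
  obtain ⟨δ, hδ, hδs, hδ1, hδ2⟩ : ∃ δ : ℝ, 0 < δ ∧ δ ≤ s₀ ∧ δ < 1 - v₀ ∧ δ < 1 + v₀ := by
    refine ⟨min s₀ (min ((1 - v₀) / 2) ((1 + v₀) / 2)), ?_, min_le_left _ _, ?_, ?_⟩
    · positivity
    · exact ((min_le_right _ _).trans (min_le_left _ _)).trans_lt (by linarith)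
    · exact ((min_le_right _ _).trans (min_le_right _ _)).trans_lt (by linarith)
  have hmain := hs δ hδ hδs
  have key : ∀ a b : ℝ, v₀ - δ ≤ a → a ≤ b → b ≤ v₀ + δ → b - a = δ / 2 →
      δ / 8 ≤ ∫ v in a..b, e v := by
    intro a b ha hab hb hba
    have h3 : ∫ v in a..b, (1 - e v) ≤ ∫ v in (v₀ - δ)..(v₀ + δ), (1 - e v) := by
      refine intervalIntegral.integral_mono_interval ha hab hb ?_ (hint1 _ _)
      filter_upwards with v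
      show 0 ≤ 1 - e v
      linarith [hLk.le_one v]
    rw [intervalIntegral.integral_sub intervalIntegrable_const (hint a b),
      intervalIntegral.integral_const, smul_eq_mul, mul_one, hba] at h3
    linarith
  refine ⟨δ, hδ, by linarith, by linarith, key _ _ ?_ ?_ ?_ ?_, key _ _ ?_ ?_ ?_ ?_⟩ <;> linarith

/-- radial approach to a point of the circle -/
theorem CB_rad (θ : ℝ) : Tendsto (fun r : ℝ => (r : ℂ) * Complex.exp (θ * Complex.I)) (𝓝[<] 1)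
    (𝓝[ball (0 : ℂ) 1] (Complex.exp (θ * Complex.I))) := by
  refine tendsto_nhdsWithin_iff.2 ⟨?_, ?_⟩
  · have h : Tendsto (fun r : ℝ => (r : ℂ) * Complex.exp (θ * Complex.I)) (𝓝 1)
        (𝓝 (((1 : ℝ) : ℂ) * Complex.exp (θ * Complex.I))) :=
      Continuous.tendsto (by fun_prop) 1
    rw [Complex.ofReal_one, one_mul] at h
    exact h.mono_left nhdsWithin_le_nhds
  · filter_upwards [Ioo_mem_nhdsLT (show (0 : ℝ) < 1 by norm_num)] with r hr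
    rw [mem_ball_zero_iff, norm_mul, Complex.norm_exp_ofReal_mul_I, mul_one, Complex.norm_real,
      Real.norm_eq_abs, abs_of_pos hr.1]
    exact hr.2

theorem CB_im_lim {p : ℂ → ℂ} {p₀ : ℂ} {θ : ℝ}
    (h : Tendsto p (𝓝[ball (0 : ℂ) 1] (Complex.exp (θ * Complex.I))) (𝓝 p₀)) :
    Tendsto (fun r : ℝ => (p (r * Complex.exp (θ * Complex.I))).im) (𝓝[<] 1) (𝓝 p₀.im) :=
  (Complex.continuous_im.tendsto _).comp (h.comp (CB_rad θ))

theorem CB_exp_arg {ζ : ℂ} (hζ : ‖ζ‖ = 1) : Complex.exp (ζ.arg * Complex.I) = ζ := by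
  have := Complex.norm_mul_exp_arg_mul_I ζ
  rwa [hζ, Complex.ofReal_one, one_mul] at this

theorem CB_re_arg {ζ : ℂ} (hζ : ‖ζ‖ = 1) : ζ.re = Real.cos |ζ.arg| := by
  rw [Real.cos_abs]
  conv_lhs => rw [← CB_exp_arg hζ]
  rw [Complex.exp_ofReal_mul_I_re]

theorem CB_im_arg {ζ : ℂ} (hζ : ‖ζ‖ = 1) : ζ.im = Real.sin ζ.arg := by
  conv_lhs => rw [← CB_exp_arg hζ]
  rw [Complex.exp_ofReal_mul_I_im]

theorem CB_conj_exp (r θ : ℝ) : conj ((r : ℂ) * Complex.exp (θ * Complex.I)) =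
    (r : ℂ) * Complex.exp (((-θ : ℝ) : ℂ) * Complex.I) := by
  rw [map_mul, Complex.conj_ofReal, ← Complex.exp_conj, map_mul, Complex.conj_ofReal, Complex.conj_I]
  congr 2
  push_cast
  ring

theorem CB_mem {r θ : ℝ} (h0 : 0 ≤ r) (h1 : r < 1) :
    (r : ℂ) * Complex.exp (θ * Complex.I) ∈ ball (0 : ℂ) 1 := by
  rw [mem_ball_zero_iff, norm_mul, Complex.norm_exp_ofReal_mul_I, mul_one, Complex.norm_real,
    Real.norm_eq_abs, abs_of_nonneg h0]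
  exact h1

theorem CB_near : ∀ᶠ r : ℝ in 𝓝[<] 1, 0 ≤ r ∧ r < 1 := by
  filter_upwards [Ioo_mem_nhdsLT (show (0 : ℝ) < 1 by norm_num)] with r hr
  exact ⟨hr.1.le, hr.2⟩

/-- evenness of `Im p` -/
theorem CB_even {p : ℂ → ℂ} (h : ∀ z ∈ ball (0 : ℂ) 1, (p (conj z)).im = (p z).im) {r : ℝ}
    (h0 : 0 ≤ r) (h1 : r < 1) (θ : ℝ) :
    (p (r * Complex.exp (θ * Complex.I))).im =
      (p (r * Complex.exp (((|θ| : ℝ) : ℂ) * Complex.I))).im := by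
  rcases le_total 0 θ with hθ | hθ
  · rw [abs_of_nonneg hθ]
  · rw [abs_of_nonpos hθ, ← CB_conj_exp]
    exact (h _ (CB_mem h0 h1)).symm

theorem CB_beta (E : Set ℝ) (hE : IsCompact E) (hsub : E ⊆ Ioo (-1) 1) (hpos : 0 < volume E) :
    ∃ p : ℂ → ℂ, Pert 1 {ζ : ℂ | -ζ.re ∈ E} p := by
  obtain ⟨v₀, hv₀, e, hLk⟩ := ZE E hE hsub hpos
  obtain ⟨δ, hδ, hδ1, hδ2, hmL, hmR⟩ := CB_delta hLk hsub hv₀
  have hv : v₀ ∈ Ioo (-1 : ℝ) 1 := hsub hv₀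
  obtain ⟨κ₁, hκ₁, hκ₁', hX1⟩ := ZX1 hLk hsub hv₀ δ hδ hδ1 hδ2 hmL
  obtain ⟨κ₂, hκ₂, hκ₂', hX2⟩ := ZX2 hLk hsub hv₀ δ hδ hδ1 hδ2 hmR
  have hpi := Real.pi_pos
  have hpi3 := Real.pi_gt_three
  obtain ⟨M₁, hM₁⟩ := ZV_b hLk hsub hv₀ δ hδ hδ1.le hδ2.le π κ₁ hpi.le hκ₁.le (by linarith)
  obtain ⟨M₂, hM₂⟩ := ZV_b hLk hsub hv₀ δ hδ hδ1.le hδ2.le κ₂ π hκ₂.le hpi.le (by linarith)
  have hd₁ := (ZV_diff hLk hv δ hδ π κ₁).1
  have hd₂ := (ZV_diff hLk hv δ hδ κ₂ π).1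
  obtain ⟨p₁, hp₁d, hp₁0, hp₁e, hp₁b, -, hp₁l⟩ := ZP _ hd₁ (ZV_zero v₀ δ e π κ₁).1 M₁ hM₁
  obtain ⟨p₂, hp₂d, hp₂0, hp₂e, hp₂b, -, hp₂l⟩ := ZP _ hd₂ (ZV_zero v₀ δ e κ₂ π).1 M₂ hM₂
  have hI₁ : IsP (Vb v₀ δ e π κ₁) p₁ := ⟨hp₁d, hp₁0, hp₁e⟩
  have hI₂ : IsP (Vb v₀ δ e κ₂ π) p₂ := ⟨hp₂d, hp₂0, hp₂e⟩
  obtain ⟨a, ha, haE⟩ := hX1 p₁ hI₁
  obtain ⟨b, hb, hbE⟩ := hX2 p₂ hI₂
  set τ : ℝ := Real.arccos (-v₀) with hτ
  have hnorm : ∀ θ : ℝ, ‖Complex.exp (θ * Complex.I)‖ = 1 := Complex.norm_exp_ofReal_mul_I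
  obtain ⟨q₁, hq₁⟩ := hp₁l _ (hnorm τ)
  obtain ⟨q₂, hq₂⟩ := hp₂l _ (hnorm τ)
  have hq₁' := CB_im_lim hq₁
  have hq₂' := CB_im_lim hq₂
  have ha₁ : 0 < q₁.im := ha.trans_le (ge_of_tendsto hq₁' haE)
  have ha₂ : q₂.im < 0 := (le_of_tendsto hq₂' hbE).trans_lt (neg_lt_zero.2 hb)
  -- the weight
  obtain ⟨l, hl0, hl1, hl⟩ : ∃ l : ℝ, 0 < l ∧ l < 1 ∧ l * q₁.im + (1 - l) * q₂.im = 0 := by
    have hD : 0 < q₁.im - q₂.im := by linarith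
    refine ⟨-q₂.im / (q₁.im - q₂.im), by apply div_pos <;> linarith, ?_, ?_⟩
    · rw [div_lt_one hD]
      linarith
    · field_simp
      ring
  have hl1' : 0 < 1 - l := by linarith
  set p : ℂ → ℂ := fun z => (l : ℂ) * p₁ z + ((1 - l : ℝ) : ℂ) * p₂ z with hp
  have him : ∀ z, (p z).im = l * (p₁ z).im + (1 - l) * (p₂ z).im := by
    intro z
    rw [hp]
    show ((l : ℂ) * p₁ z + ((1 - l : ℝ) : ℂ) * p₂ z).im = _
    rw [Complex.add_im, Complex.im_ofReal_mul, Complex.im_ofReal_mul]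
  have hderiv : ∀ z ∈ ball (0 : ℂ) 1, Complex.I * z * deriv p z =
      (l : ℂ) * Vb v₀ δ e π κ₁ z + ((1 - l : ℝ) : ℂ) * Vb v₀ δ e κ₂ π z := by
    intro z hz
    have e1 : HasDerivAt p₁ (deriv p₁ z) z :=
      (hp₁d.differentiableAt (isOpen_ball.mem_nhds hz)).hasDerivAt
    have e2 : HasDerivAt p₂ (deriv p₂ z) z :=
      (hp₂d.differentiableAt (isOpen_ball.mem_nhds hz)).hasDerivAt
    have e3 : deriv p z = (l : ℂ) * deriv p₁ z + ((1 - l : ℝ) : ℂ) * deriv p₂ z :=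
      ((e1.const_mul (l : ℂ)).add (e2.const_mul ((1 - l : ℝ) : ℂ))).deriv
    rw [e3, ← hp₁e z hz, ← hp₂e z hz]
    ring
  have hev₁ : ∀ z ∈ ball (0 : ℂ) 1, (p₁ (conj z)).im = (p₁ z).im := by
    intro z hz
    rw [ZX0_conj_b hI₁ z hz]
    simp
  have hev₂ : ∀ z ∈ ball (0 : ℂ) 1, (p₂ (conj z)).im = (p₂ z).im := by
    intro z hz
    rw [ZX0_conj_b hI₂ z hz]
    simp
  have hev : ∀ z ∈ ball (0 : ℂ) 1, (p (conj z)).im = (p z).im := by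
    intro z hz
    rw [him, him, hev₁ z hz, hev₂ z hz]
  have hmono₁ : ∀ r : ℝ, 0 ≤ r → r < 1 → ∀ θ₁ θ₂ : ℝ, 0 ≤ θ₁ → θ₁ ≤ θ₂ → θ₂ ≤ π →
      (p₁ (r * Complex.exp (θ₁ * Complex.I))).im ≤ (p₁ (r * Complex.exp (θ₂ * Complex.I))).im :=
    fun r h0 h1 θ₁ θ₂ h2 h3 h4 => ZX0_mono hLk hv hδ hpi.le hκ₁.le le_rfl (by linarith) hI₁ h0 h1
      h2 h3 h4
  have hmono₂ : ∀ r : ℝ, 0 ≤ r → r < 1 → ∀ θ₁ θ₂ : ℝ, 0 ≤ θ₁ → θ₁ ≤ θ₂ → θ₂ ≤ π →
      (p₂ (r * Complex.exp (θ₁ * Complex.I))).im ≤ (p₂ (r * Complex.exp (θ₂ * Complex.I))).im :=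
    fun r h0 h1 θ₁ θ₂ h2 h3 h4 => ZX0_mono hLk hv hδ hκ₂.le hpi.le (by linarith) le_rfl hI₂ h0 h1
      h2 h3 h4
  have hmono : ∀ r : ℝ, 0 ≤ r → r < 1 → ∀ θ₁ θ₂ : ℝ, 0 ≤ θ₁ → θ₁ ≤ θ₂ → θ₂ ≤ π →
      (p (r * Complex.exp (θ₁ * Complex.I))).im ≤ (p (r * Complex.exp (θ₂ * Complex.I))).im := by
    intro r h0 h1 θ₁ θ₂ h2 h3 h4
    rw [him, him]
    exact add_le_add (mul_le_mul_of_nonneg_left (hmono₁ r h0 h1 θ₁ θ₂ h2 h3 h4) hl0.le)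
      (mul_le_mul_of_nonneg_left (hmono₂ r h0 h1 θ₁ θ₂ h2 h3 h4) hl1'.le)
  have hτ0 : 0 ≤ τ := Real.arccos_nonneg _
  have hτπ : τ ≤ π := Real.arccos_le_pi _
  have hcosτ : Real.cos τ = -v₀ := Real.cos_arccos (by linarith [hv.2]) (by linarith [hv.1])
  have hτlim : Tendsto (fun r : ℝ => (p (r * Complex.exp (τ * Complex.I))).im) (𝓝[<] 1) (𝓝 0) := by
    have h := (hq₁'.const_mul l).add (hq₂'.const_mul (1 - l))
    rw [hl] at h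
    refine h.congr fun r => ?_
    rw [him]
  refine ⟨p, ⟨?_, ?_, ?_, ?_, ?_⟩⟩
  · exact (hp₁d.const_mul _).add (hp₂d.const_mul _)
  · show (l : ℂ) * p₁ 0 + ((1 - l : ℝ) : ℂ) * p₂ 0 = 0
    rw [hp₁0, hp₂0, mul_zero, mul_zero, add_zero]
  · by_contra hcon
    push Not at hcon
    -- `Im p₁` is constant on half circles, hence zero
    have hz : ∀ r : ℝ, 0 ≤ r → r < 1 → (p₁ (r * Complex.exp (τ * Complex.I))).im = 0 := by
      intro r h0 h1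
      have hc : ∀ θ₁ θ₂ : ℝ, 0 ≤ θ₁ → θ₁ ≤ θ₂ → θ₂ ≤ π →
          (p₁ (r * Complex.exp (θ₁ * Complex.I))).im =
            (p₁ (r * Complex.exp (θ₂ * Complex.I))).im := by
        intro θ₁ θ₂ h2 h3 h4
        have e1 := hmono₁ r h0 h1 θ₁ θ₂ h2 h3 h4
        have e2 := hmono₂ r h0 h1 θ₁ θ₂ h2 h3 h4
        have e3 := him (r * Complex.exp (θ₁ * Complex.I))
        have e4 := him (r * Complex.exp (θ₂ * Complex.I))
        rw [hcon _ (CB_mem h0 h1), Complex.zero_im] at e3 e4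
        nlinarith
      have hmean := ZX0_mean hI₁ h0 h1
      have h5 : ∫ θ in (0 : ℝ)..π, (p₁ (r * Complex.exp (θ * Complex.I))).im =
          ∫ θ in (0 : ℝ)..π, (p₁ (r * Complex.exp (τ * Complex.I))).im := by
        apply intervalIntegral.integral_congr
        intro θ hθ
        rw [uIcc_of_le hpi.le] at hθ
        show (p₁ (r * Complex.exp (θ * Complex.I))).im = (p₁ (r * Complex.exp (τ * Complex.I))).im
        rw [hc 0 θ le_rfl hθ.1 hθ.2 |>.symm, hc 0 τ le_rfl hτ0 hτπ]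
      rw [h5, intervalIntegral.integral_const, sub_zero, smul_eq_mul] at hmean
      exact (mul_eq_zero.1 hmean).resolve_left hpi.ne'
    have h6 : ∀ᶠ r : ℝ in 𝓝[<] 1, False := by
      filter_upwards [haE, CB_near] with r hr hr1
      rw [hz r hr1.1 hr1.2] at hr
      linarith
    rw [eventually_false_iff_eq_bot] at h6
    exact (inferInstance : NeBot (𝓝[<] (1 : ℝ))).ne h6
  · refine ⟨M₁ + M₂, fun z hz => ?_⟩
    have hM₁0 : 0 ≤ M₁ := (norm_nonneg _).trans (hM₁ z hz)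
    have hM₂0 : 0 ≤ M₂ := (norm_nonneg _).trans (hM₂ z hz)
    have hcomb : ∀ x y : ℂ, ‖x‖ ≤ M₁ → ‖y‖ ≤ M₂ →
        ‖(l : ℂ) * x + ((1 - l : ℝ) : ℂ) * y‖ ≤ M₁ + M₂ := by
      intro x y hx hy
      refine (norm_add_le _ _).trans ?_
      rw [norm_mul, norm_mul, Complex.norm_real, Complex.norm_real, Real.norm_eq_abs,
        Real.norm_eq_abs, abs_of_pos hl0, abs_of_pos hl1']
      have e1 : l * ‖x‖ ≤ 1 * M₁ := mul_le_mul hl1.le hx (norm_nonneg _) (by norm_num)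
      have e2 : (1 - l) * ‖y‖ ≤ 1 * M₂ :=
        mul_le_mul (by linarith) hy (norm_nonneg _) (by norm_num)
      linarith
    refine ⟨hcomb _ _ (hp₁b z hz) (hp₂b z hz), ?_⟩
    rw [hderiv z hz]
    exact hcomb _ _ (hM₁ z hz) (hM₂ z hz)
  · intro ζ hζ hζS
    have hζE : -ζ.re ∉ E := hζS
    obtain ⟨⟨c₁, hc₁, hV₁⟩, -⟩ := ZV_lim hLk hE hsub hv₀ δ hδ π κ₁ hζ hζE
    obtain ⟨⟨c₂, hc₂, hV₂⟩, -⟩ := ZV_lim hLk hE hsub hv₀ δ hδ κ₂ π hζ hζE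
    obtain ⟨P₁, hP₁⟩ := hp₁l ζ hζ
    obtain ⟨P₂, hP₂⟩ := hp₂l ζ hζ
    have hplim : Tendsto p (𝓝[ball (0 : ℂ) 1] ζ)
        (𝓝 ((l : ℂ) * P₁ + ((1 - l : ℝ) : ℂ) * P₂)) :=
      (hP₁.const_mul _).add (hP₂.const_mul _)
    refine ⟨l * (c₁ / (v₀ + ζ.re)) + (1 - l) * (c₂ / (v₀ + ζ.re)),
      (l : ℂ) * P₁ + ((1 - l : ℝ) : ℂ) * P₂, hplim, ?_, ?_⟩
    · have h := (hV₁.const_mul (l : ℂ)).add (hV₂.const_mul ((1 - l : ℝ) : ℂ))
      have h7 : ((l * (c₁ / (v₀ + ζ.re)) + (1 - l) * (c₂ / (v₀ + ζ.re)) : ℝ) : ℂ) =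
          (l : ℂ) * ((c₁ / (v₀ + ζ.re) : ℝ) : ℂ) +
            ((1 - l : ℝ) : ℂ) * ((c₂ / (v₀ + ζ.re) : ℝ) : ℂ) := by
        push_cast
        ring
      rw [h7]
      refine h.congr' ?_
      filter_upwards [self_mem_nhdsWithin] with z hz
      exact (hderiv z hz).symm
    · -- the sign
      have hrad : Tendsto (fun r : ℝ => (p (r * Complex.exp (ζ.arg * Complex.I))).im) (𝓝[<] 1)
          (𝓝 ((l : ℂ) * P₁ + ((1 - l : ℝ) : ℂ) * P₂).im) := by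
        apply CB_im_lim
        rw [CB_exp_arg hζ]
        exact hplim
      have habs0 : 0 ≤ |ζ.arg| := abs_nonneg _
      have habsπ : |ζ.arg| ≤ π := Complex.abs_arg_le_pi ζ
      set W : ℝ := l * c₁ + (1 - l) * c₂ with hW
      have hWpos : 0 < W := by positivity
      have hV0 : l * (c₁ / (v₀ + ζ.re)) + (1 - l) * (c₂ / (v₀ + ζ.re)) = W / (v₀ + ζ.re) := by
        rw [hW]
        ring
      rw [hV0, one_mul]
      rcases lt_trichotomy (-ζ.re) v₀ with hlt | heq | hgt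
      · have h8 : |ζ.arg| ≤ τ := by
          by_contra hcon
          push Not at hcon
          have h9 := Real.cos_le_cos_of_nonneg_of_le_pi hτ0 habsπ hcon.le
          rw [← CB_re_arg hζ, hcosτ] at h9
          linarith
        have h10 : ((l : ℂ) * P₁ + ((1 - l : ℝ) : ℂ) * P₂).im ≤ 0 := by
          refine le_of_tendsto_of_tendsto hrad hτlim ?_
          filter_upwards [CB_near] with r hr
          rw [CB_even hev hr.1 hr.2 ζ.arg]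
          exact hmono r hr.1 hr.2 _ _ habs0 h8 hτπ
        have h11 : 0 < W / (v₀ + ζ.re) := div_pos hWpos (by linarith)
        exact mul_nonpos_of_nonneg_of_nonpos h11.le h10
      · exact absurd (heq ▸ hv₀) hζE
      · have h8 : τ ≤ |ζ.arg| := by
          by_contra hcon
          push Not at hcon
          have h9 := Real.cos_le_cos_of_nonneg_of_le_pi habs0 hτπ hcon.le
          rw [← CB_re_arg hζ, hcosτ] at h9
          linarith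
        have h10 : 0 ≤ ((l : ℂ) * P₁ + ((1 - l : ℝ) : ℂ) * P₂).im := by
          refine le_of_tendsto_of_tendsto hτlim hrad ?_
          filter_upwards [CB_near] with r hr
          rw [CB_even hev hr.1 hr.2 ζ.arg]
          exact hmono r hr.1 hr.2 _ _ hτ0 h8 habsπ
        have h11 : W / (v₀ + ζ.re) < 0 := div_neg_of_pos_of_neg hWpos (by linarith)
        exact mul_nonpos_of_nonpos_of_nonneg h11.le h10

theorem CB_alpha (E : Set ℝ) (hE : IsCompact E) (hsub : E ⊆ Ioo (-1) 1) (hpos : 0 < volume E) :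
    ∃ p : ℂ → ℂ, Pert (-1) {ζ : ℂ | -ζ.re ∈ E} p := by
  obtain ⟨v₀, hv₀, e, hLk⟩ := ZE E hE hsub hpos
  obtain ⟨δ, hδ, hδ1, hδ2, hmL, hmR⟩ := CB_delta hLk hsub hv₀
  have hv : v₀ ∈ Ioo (-1 : ℝ) 1 := hsub hv₀
  obtain ⟨κ, hκ, hκ', hY⟩ := ZY1 hLk hsub hv₀ δ hδ hδ1 hδ2 hmL hmR
  have hpi := Real.pi_pos
  obtain ⟨M, hM⟩ := ZV_a hLk hsub hv₀ δ hδ hδ1.le hδ2.le (π + κ) (π + κ) (by linarith)
    (by linarith) (by linarith)
  have hd := (ZV_diff hLk hv δ hδ (π + κ) (π + κ)).2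
  obtain ⟨p, hpd, hp0, hpe, hpb, -, hpl⟩ := ZP _ hd (ZV_zero v₀ δ e (π + κ) (π + κ)).2 M hM
  have hI : IsP (Va v₀ δ e (π + κ) (π + κ)) p := ⟨hpd, hp0, hpe⟩
  obtain ⟨hYp, hYn⟩ := hY p hI
  refine ⟨p, ⟨hpd, hp0, hYn, ⟨M, fun z hz => ⟨hpb z hz, ?_⟩⟩, ?_⟩⟩
  · rw [hpe z hz]
    exact hM z hz
  · intro ζ hζ hζS
    have hζE : -ζ.re ∉ E := hζS
    obtain ⟨-, ⟨c, hc, hV⟩⟩ := ZV_lim hLk hE hsub hv₀ δ hδ (π + κ) (π + κ) hζ hζE
    obtain ⟨P, hP⟩ := hpl ζ hζ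
    refine ⟨c * ζ.im, P, hP, ?_, ?_⟩
    · refine hV.congr' ?_
      filter_upwards [self_mem_nhdsWithin] with z hz
      exact (hpe z hz).symm
    · have hrad : Tendsto (fun r : ℝ => (p (r * Complex.exp (ζ.arg * Complex.I))).im) (𝓝[<] 1)
          (𝓝 P.im) := by
        apply CB_im_lim
        rw [CB_exp_arg hζ]
        exact hP
      rcases le_or_gt 0 ζ.arg with harg | harg
      · have h1 : 0 ≤ P.im := by
          refine le_of_forall_pos_le_add fun ε hε => ?_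
          have h2 := ge_of_tendsto hrad (hYp ζ.arg harg (Complex.arg_le_pi ζ) ε hε)
          linarith
        have h3 : 0 ≤ ζ.im := by
          rw [CB_im_arg hζ]
          exact Real.sin_nonneg_of_nonneg_of_le_pi harg (Complex.arg_le_pi ζ)
        have h4 : 0 ≤ c * ζ.im * P.im := by positivity
        linarith
      · have h1 : P.im ≤ 0 := by
          refine le_of_forall_pos_le_add fun ε hε => ?_
          have h2 : ∀ᶠ r : ℝ in 𝓝[<] 1, (p (r * Complex.exp (ζ.arg * Complex.I))).im ≤ ε := by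
            filter_upwards [CB_near, hYp (-ζ.arg) (by linarith)
              (by linarith [Complex.neg_pi_lt_arg ζ]) ε hε] with r hr hr'
            have h5 := CB_conj_exp r (-ζ.arg)
            rw [neg_neg] at h5
            rw [← h5, ZX0_conj_a hI _ (CB_mem hr.1 hr.2), Complex.conj_im]
            linarith
          have h6 := le_of_tendsto hrad h2
          linarith
        have h3 : ζ.im ≤ 0 := by
          rw [CB_im_arg hζ]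
          exact Real.sin_nonpos_of_nonpos_of_neg_pi_le harg.le (Complex.neg_pi_lt_arg ζ).le
        have h4 : 0 ≤ c * ζ.im * P.im :=
          mul_nonneg_of_nonpos_of_nonpos (mul_nonpos_of_nonneg_of_nonpos hc.le h3) h1
        linarith

end

end Pool.H90.VK
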