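import Pool.Agent.H90.VK.CHE

/-!
# CHA : boundary values of the chord functions

Use `1 - e^{iα} = -2i sin(α/2) e^{iα/2}`, so for `0 < |α| < 2π`
`log (1 - e^{iα}) = log (2|sin(α/2)|) + i (α/2 - (π/2) sgn α)` (the imaginary part is in `(-π/2, π/2)`).
With `α = θ - φ`, `chL φ (e^{iθ}) = log (2|sin((θ-φ)/2)|) + i ((θ-φ)/2 - (π/2) sgn(θ-φ))`.
Imaginary part of `Λ(e^{iθ})`: the linear parts cancel because of `κ = κ₁+κ₂` and `mom`, leaving
`-(π/2)(κ sgn(θ-ψ) - κ₁ sgn(θ-φ₁) - κ₂ sgn(θ-φ₂))`: `0, πκ₁, -πκ₂, 0` on the four intervals.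
`CHA_one` : the same at `θ = 0` (`chL φ 1 = log (2 sin (φ/2)) + i (π-φ)/2` for `0 < φ < 2π`).
`CHA_K` : `(1+e^{iα})/(1-e^{iα}) = i cot(α/2)`.
`CHA_J` : `(1 - e^{i(θ-ψ)})/(1 - e^{iθ}) = (sin((θ-ψ)/2)/sin(θ/2)) e^{-iψ/2}`.
-/

open MeasureTheory Set Filter Topology Metric
open scoped Real ENNReal ComplexConjugate

namespace Pool.H90.VK

noncomputable section

variable {φ₁ ψ φ₂ κ₁ κ₂ : ℝ}

theorem CHA_ex (x : ℝ) : Complex.exp (x * Complex.I) = (Real.cos x : ℂ) + (Real.sin x : ℂ) * Complex.I := by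
  rw [Complex.exp_mul_I, Complex.ofReal_cos, Complex.ofReal_sin]

theorem CHA_sq (β : ℝ) : (Real.sin β : ℂ) ^ 2 + (Real.cos β : ℂ) ^ 2 = 1 := by
  exact_mod_cast congrArg (fun t : ℝ => (t : ℂ)) (Real.sin_sq_add_cos_sq β)

theorem CHA_exp2 (β : ℝ) : Complex.exp (((2 * β : ℝ) : ℂ) * Complex.I) =
    ((Real.cos β : ℂ) + (Real.sin β : ℂ) * Complex.I) ^ 2 := by
  rw [← CHA_ex, sq, ← Complex.exp_add]
  congr 1
  push_cast
  ring

/-- `1 - e^{iα} = -2i sin(α/2) e^{iα/2}` -/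
theorem CHA_one_sub (α : ℝ) : 1 - Complex.exp (α * Complex.I) =
    -2 * Complex.I * (Real.sin (α / 2) : ℂ) * Complex.exp (((α / 2 : ℝ) : ℂ) * Complex.I) := by
  have h1 : (α : ℂ) = ((2 * (α / 2) : ℝ) : ℂ) := by push_cast; ring
  rw [h1, CHA_exp2, CHA_ex]
  have h2 := CHA_sq (α / 2)
  have hI : Complex.I ^ 2 = -1 := Complex.I_sq
  linear_combination (-1) * h2 + (Real.sin (α / 2) : ℂ) ^ 2 * hI

theorem CHA_log_pos {α : ℝ} (h0 : 0 < α) (h1 : α < 2 * π) :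
    Complex.log (1 - Complex.exp (α * Complex.I)) =
      (Real.log (2 * |Real.sin (α / 2)|) : ℂ) + ((α / 2 - π / 2 : ℝ) : ℂ) * Complex.I := by
  have hs : 0 < Real.sin (α / 2) := Real.sin_pos_of_pos_of_lt_pi (by linarith) (by linarith)
  have h2 : 1 - Complex.exp (α * Complex.I) = ((2 * |Real.sin (α / 2)| : ℝ) : ℂ) *
      Complex.exp (((α / 2 - π / 2 : ℝ) : ℂ) * Complex.I) := by
    rw [CHA_one_sub, abs_of_pos hs, CHA_ex, CHA_ex, Real.cos_sub_pi_div_two, Real.sin_sub_pi_div_two]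
    push_cast
    have hI : Complex.I ^ 2 = -1 := Complex.I_sq
    linear_combination (-2 * Complex.sin ((α : ℂ) / 2) ^ 2) * hI
  rw [h2, Complex.log_ofReal_mul (by positivity) (Complex.exp_ne_zero _), Complex.log_exp]
  · simp only [Complex.mul_im, Complex.ofReal_re, Complex.I_im, mul_one, Complex.ofReal_im,
      Complex.I_re, mul_zero, add_zero]
    have := Real.pi_pos
    linarith
  · simp only [Complex.mul_im, Complex.ofReal_re, Complex.I_im, mul_one, Complex.ofReal_im,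
      Complex.I_re, mul_zero, add_zero]
    have := Real.pi_pos
    linarith

theorem CHA_log_neg {α : ℝ} (h0 : α < 0) (h1 : -(2 * π) < α) :
    Complex.log (1 - Complex.exp (α * Complex.I)) =
      (Real.log (2 * |Real.sin (α / 2)|) : ℂ) + ((α / 2 + π / 2 : ℝ) : ℂ) * Complex.I := by
  have hs : Real.sin (α / 2) < 0 := Real.sin_neg_of_neg_of_neg_pi_lt (by linarith) (by linarith)
  have h2 : 1 - Complex.exp (α * Complex.I) = ((2 * |Real.sin (α / 2)| : ℝ) : ℂ) *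
      Complex.exp (((α / 2 + π / 2 : ℝ) : ℂ) * Complex.I) := by
    rw [CHA_one_sub, abs_of_neg hs, CHA_ex, CHA_ex, Real.cos_add_pi_div_two, Real.sin_add_pi_div_two]
    push_cast
    have hI : Complex.I ^ 2 = -1 := Complex.I_sq
    linear_combination (-2 * Complex.sin ((α : ℂ) / 2) ^ 2) * hI
  have hs2 : 0 < |Real.sin (α / 2)| := abs_pos.2 hs.ne
  rw [h2, Complex.log_ofReal_mul (by positivity) (Complex.exp_ne_zero _), Complex.log_exp]
  · simp only [Complex.mul_im, Complex.ofReal_re, Complex.I_im, mul_one, Complex.ofReal_im,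
      Complex.I_re, mul_zero, add_zero]
    have := Real.pi_pos
    linarith
  · simp only [Complex.mul_im, Complex.ofReal_re, Complex.I_im, mul_one, Complex.ofReal_im,
      Complex.I_re, mul_zero, add_zero]
    have := Real.pi_pos
    linarith

theorem CHA_chL (φ θ : ℝ) : chL φ (Complex.exp (θ * Complex.I)) =
    Complex.log (1 - Complex.exp (((θ - φ : ℝ) : ℂ) * Complex.I)) := by
  unfold chL
  rw [← Complex.exp_add]
  congr 3
  push_cast
  ring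

theorem CHA_chL_pos {φ θ : ℝ} (h0 : φ < θ) (h1 : θ - φ < 2 * π) :
    chL φ (Complex.exp (θ * Complex.I)) =
      (Real.log (2 * |Real.sin ((θ - φ) / 2)|) : ℂ) + (((θ - φ) / 2 - π / 2 : ℝ) : ℂ) * Complex.I := by
  rw [CHA_chL, CHA_log_pos (by linarith) h1]

theorem CHA_chL_neg {φ θ : ℝ} (h0 : θ < φ) (h1 : -(2 * π) < θ - φ) :
    chL φ (Complex.exp (θ * Complex.I)) =
      (Real.log (2 * |Real.sin ((θ - φ) / 2)|) : ℂ) + (((θ - φ) / 2 + π / 2 : ℝ) : ℂ) * Complex.I := by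
  rw [CHA_chL, CHA_log_neg (by linarith) h1]

theorem CHA_val (h : ChordData φ₁ ψ φ₂ κ₁ κ₂) {θ : ℝ} (hθ : θ ∈ Ioo 0 (2 * π)) (h1 : θ ≠ φ₁)
    (h2 : θ ≠ ψ) (h3 : θ ≠ φ₂) :
    chLam φ₁ ψ φ₂ κ₁ κ₂ (Complex.exp (θ * Complex.I)) =
      chRho φ₁ ψ φ₂ κ₁ κ₂ θ + chPsi φ₁ ψ φ₂ κ₁ κ₂ θ * Complex.I := by
  obtain ⟨ht0, ht1⟩ := hθ
  have hh0 := h.h0
  have hh1 := h.h1
  have hh2 := h.h2
  have hh3 := h.h3
  have hm : ((κ₁ : ℂ) + κ₂) * ψ = κ₁ * φ₁ + κ₂ * φ₂ := by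
    exact_mod_cast congrArg (fun t : ℝ => (t : ℂ)) h.mom
  unfold chLam chRho chPsi
  rcases lt_or_gt_of_ne h1 with a1 | a1
  · rw [if_pos a1, CHA_chL_neg a1 (by linarith), CHA_chL_neg (a1.trans hh1) (by linarith),
      CHA_chL_neg (a1.trans (hh1.trans hh2)) (by linarith)]
    push_cast
    linear_combination (-(1 / 2) * Complex.I) * hm
  · rw [if_neg (not_lt.2 a1.le), CHA_chL_pos a1 (by linarith)]
    rcases lt_or_gt_of_ne h2 with a2 | a2
    · rw [if_pos a2, CHA_chL_neg a2 (by linarith), CHA_chL_neg (a2.trans hh2) (by linarith)]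
      push_cast
      linear_combination (-(1 / 2) * Complex.I) * hm
    · rw [if_neg (not_lt.2 a2.le), CHA_chL_pos a2 (by linarith)]
      rcases lt_or_gt_of_ne h3 with a3 | a3
      · rw [if_pos a3, CHA_chL_neg a3 (by linarith)]
        push_cast
        linear_combination (-(1 / 2) * Complex.I) * hm
      · rw [if_neg (not_lt.2 a3.le), CHA_chL_pos a3 (by linarith)]
        push_cast
        linear_combination (-(1 / 2) * Complex.I) * hm

theorem CHA_chL_one {φ : ℝ} (h0 : 0 < φ) (h1 : φ < 2 * π) :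
    chL φ 1 = (Real.log (2 * Real.sin (φ / 2)) : ℂ) + ((-(φ / 2) + π / 2 : ℝ) : ℂ) * Complex.I := by
  have h2 := CHA_chL_neg (φ := φ) (θ := 0) h0 (by linarith)
  have h3 : Complex.exp (((0 : ℝ) : ℂ) * Complex.I) = 1 := by simp
  have hs : 0 < Real.sin (φ / 2) := Real.sin_pos_of_pos_of_lt_pi (by linarith) (by linarith)
  rw [h3] at h2
  rw [h2, show (0 - φ) / 2 = -(φ / 2) by ring, Real.sin_neg, abs_neg, abs_of_pos hs]

theorem CHA_one (h : ChordData φ₁ ψ φ₂ κ₁ κ₂) : chLam φ₁ ψ φ₂ κ₁ κ₂ 1 = 0 := by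
  have hh0 := h.h0
  have hh1 := h.h1
  have hh2 := h.h2
  have hh3 := h.h3
  have hm : ((κ₁ : ℂ) + κ₂) * ψ = κ₁ * φ₁ + κ₂ * φ₂ := by
    exact_mod_cast congrArg (fun t : ℝ => (t : ℂ)) h.mom
  unfold chLam chEll
  rw [CHA_chL_one hh0 (by linarith), CHA_chL_one (hh0.trans hh1) (by linarith),
    CHA_chL_one (hh0.trans (hh1.trans hh2)) hh3]
  push_cast
  linear_combination (-(1 / 2) * Complex.I) * hm

theorem CHA_K {φ θ : ℝ} (hne : Real.sin ((θ - φ) / 2) ≠ 0) :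
    chK φ (Complex.exp (θ * Complex.I)) = Real.cot ((θ - φ) / 2) * Complex.I := by
  have h1 : Complex.exp (θ * Complex.I) = Complex.exp (φ * Complex.I) *
      ((Real.cos ((θ - φ) / 2) : ℂ) + (Real.sin ((θ - φ) / 2) : ℂ) * Complex.I) ^ 2 := by
    rw [← CHA_exp2, ← Complex.exp_add]
    congr 1
    push_cast
    ring
  have h2 := CHA_sq ((θ - φ) / 2)
  have hne' : (Real.sin ((θ - φ) / 2) : ℂ) ≠ 0 := by exact_mod_cast hne
  have hI : Complex.I ^ 2 = -1 := Complex.I_sq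
  have hE := Complex.exp_ne_zero (φ * Complex.I)
  unfold chK
  rw [h1, Real.cot_eq_cos_div_sin, Complex.ofReal_div]
  generalize (Real.sin ((θ - φ) / 2) : ℂ) = s at *
  generalize (Real.cos ((θ - φ) / 2) : ℂ) = c at *
  generalize Complex.exp (φ * Complex.I) = E at *
  have h3 : E + E * (c + s * Complex.I) ^ 2 = E * (2 * c * (c + s * Complex.I)) := by
    linear_combination (-E) * h2 + (E * s ^ 2) * hI
  have h4 : E - E * (c + s * Complex.I) ^ 2 = E * (-(2 * s * Complex.I) * (c + s * Complex.I)) := by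
    linear_combination (-E) * h2 + (E * s ^ 2) * hI
  have h5 : (c + s * Complex.I) * (c - s * Complex.I) = 1 := by
    linear_combination h2 - s ^ 2 * hI
  have h6 : c + s * Complex.I ≠ 0 := left_ne_zero_of_mul_eq_one h5
  rw [h3, h4, div_eq_iff]
  · field_simp
    linear_combination c * hI
  · refine mul_ne_zero hE (mul_ne_zero (neg_ne_zero.2 (mul_ne_zero (mul_ne_zero two_ne_zero hne')
      Complex.I_ne_zero)) h6)

theorem CHA_sin_ne {φ θ : ℝ} (h0 : 0 < φ) (h1 : φ < 2 * π) (hθ : θ ∈ Ioo 0 (2 * π)) (h : θ ≠ φ) :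
    Real.sin ((θ - φ) / 2) ≠ 0 := by
  obtain ⟨ht0, ht1⟩ := hθ
  rcases lt_or_gt_of_ne h with a | a
  · exact (Real.sin_neg_of_neg_of_neg_pi_lt (by linarith) (by linarith)).ne
  · exact (Real.sin_pos_of_pos_of_lt_pi (by linarith) (by linarith)).ne'

theorem CHA_DL (h : ChordData φ₁ ψ φ₂ κ₁ κ₂) {θ : ℝ} (hθ : θ ∈ Ioo 0 (2 * π)) (h1 : θ ≠ φ₁)
    (h2 : θ ≠ ψ) (h3 : θ ≠ φ₂) :
    chDL φ₁ ψ φ₂ κ₁ κ₂ (Complex.exp (θ * Complex.I)) =
      -(chDR φ₁ ψ φ₂ κ₁ κ₂ θ : ℂ) * Complex.I := by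
  have hh0 := h.h0
  have hh1 := h.h1
  have hh2 := h.h2
  have hh3 := h.h3
  unfold chDL chDR
  rw [CHA_K (CHA_sin_ne hh0 (by linarith) hθ h1), CHA_K (CHA_sin_ne (by linarith) (by linarith) hθ h2),
    CHA_K (CHA_sin_ne (by linarith) hh3 hθ h3)]
  push_cast
  ring

theorem CHA_J (ψ : ℝ) {θ : ℝ} (hθ : θ ∈ Ioo 0 (2 * π)) :
    chJ ψ (Complex.exp (θ * Complex.I)) =
      -((Real.sin ((θ - ψ) / 2) / Real.sin (θ / 2) : ℝ) : ℂ) * Complex.I := by
  obtain ⟨ht0, ht1⟩ := hθ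
  have hs : 0 < Real.sin (θ / 2) := Real.sin_pos_of_pos_of_lt_pi (by linarith) (by linarith)
  have hs' : (Real.sin (θ / 2) : ℂ) ≠ 0 := by exact_mod_cast hs.ne'
  have h1 : Complex.exp (-(ψ * Complex.I)) * Complex.exp (θ * Complex.I) =
      Complex.exp (((θ - ψ : ℝ) : ℂ) * Complex.I) := by
    rw [← Complex.exp_add]
    congr 1
    push_cast
    ring
  unfold chJ
  have h5 : ((Real.sin ((θ - ψ) / 2) / Real.sin (θ / 2) : ℝ) : ℂ) =
      (Real.sin ((θ - ψ) / 2) : ℂ) / (Real.sin (θ / 2) : ℂ) := Complex.ofReal_div _ _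
  rw [h1, CHA_one_sub, CHA_one_sub, h5]
  have h2 : Complex.exp (((θ / 2 : ℝ) : ℂ) * Complex.I) =
      Complex.exp (ψ / 2 * Complex.I) * Complex.exp ((((θ - ψ) / 2 : ℝ) : ℂ) * Complex.I) := by
    rw [← Complex.exp_add]
    congr 1
    push_cast
    ring
  have hE1 := Complex.exp_ne_zero (ψ / 2 * Complex.I)
  have hE2 := Complex.exp_ne_zero ((((θ - ψ) / 2 : ℝ) : ℂ) * Complex.I)
  have hI := Complex.I_ne_zero
  rw [h2]
  generalize Complex.exp (ψ / 2 * Complex.I) = E at *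
  generalize Complex.exp ((((θ - ψ) / 2 : ℝ) : ℂ) * Complex.I) = E' at *
  field_simp

end

end Pool.H90.VK
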