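import Pool.Agent.H90.VK.CHD

/-!
# CHB : signs

`CHB_sign`. With `s₁ = sin((ψ-φ₁)/2) > 0`, `s₂ = sin((φ₂-ψ)/2) > 0` and
`cot a - cot b = sin(b-a)/(sin a sin b)`:
`2 chDR θ = κ₁[cot((θ-ψ)/2) - cot((θ-φ₁)/2)] + κ₂[cot((θ-ψ)/2) - cot((θ-φ₂)/2)]
 = [κ₁ s₁ sin((θ-φ₂)/2) - κ₂ s₂ sin((θ-φ₁)/2)] / (sin((θ-ψ)/2) sin((θ-φ₁)/2) sin((θ-φ₂)/2))`.
The numerator is `A sin(θ/2) + B cos(θ/2)`, and at `θ = 0` it vanishes by the hypothesis `cot`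
(`B = -κ₁s₁ sin(φ₂/2) + κ₂s₂ sin(φ₁/2) = 0`: multiply `cot` by `sin(ψ/2) sin(φ₁/2) sin(φ₂/2)`), so it is
`c₀ sin(θ/2)` with `c₀ = κ₁s₁ cos(φ₂/2) - κ₂s₂ cos(φ₁/2) = κ₁ s₁ sin((φ₁-φ₂)/2)/sin(φ₁/2) < 0`.
All the sines `sin((θ-·)/2)` have the sign of `θ - ·` as `|θ - ·| < 2π`.

`CHB_pos`. `chRho` is continuous on `[0, φ₁)` and `(φ₂, 2π]`, `chRho 0 = chRho (2π) = 0`
(`sin((0-φ)/2) = -sin(φ/2)`, `sin((2π-φ)/2) = sin(φ/2)`), with derivative `chDR` (derivative of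
`log(2|sin((θ-φ)/2)|)` is `(1/2) cot((θ-φ)/2)`), positive on `(0,φ₁)`, negative on `(φ₂,2π)`.

`CHB_ell`. `ℓ > 0`: `log` is concave and `sin` is strictly concave on `[0,π]`, `κψ = κ₁φ₁+κ₂φ₂`, `φ₁ ≠ φ₂`:
`sin(ψ/2) > (κ₁ sin(φ₁/2) + κ₂ sin(φ₂/2))/κ`, then Jensen for `log`.
-/

open MeasureTheory Set Filter Topology Metric
open scoped Real ENNReal ComplexConjugate

namespace Pool.H90.VK

noncomputable section

variable {φ₁ ψ φ₂ κ₁ κ₂ : ℝ}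

private theorem CHB_sin_pos {x : ℝ} (h0 : 0 < x) (h1 : x < 2 * π) : 0 < Real.sin (x / 2) :=
  Real.sin_pos_of_pos_of_lt_pi (by linarith) (by linarith)

private theorem CHB_cot_sub {a b : ℝ} (ha : Real.sin a ≠ 0) (hb : Real.sin b ≠ 0) :
    Real.cot a - Real.cot b = Real.sin (b - a) / (Real.sin a * Real.sin b) := by
  rw [Real.cot_eq_cos_div_sin, Real.cot_eq_cos_div_sin, Real.sin_sub, div_sub_div _ _ ha hb]
  congr 1
  ring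

/-- the constant `c₀` -/
private def CHB_c (φ₁ ψ φ₂ κ₁ κ₂ : ℝ) : ℝ :=
  κ₁ * Real.sin ((ψ - φ₁) / 2) * Real.cos (φ₂ / 2) - κ₂ * Real.sin ((φ₂ - ψ) / 2) * Real.cos (φ₁ / 2)

private theorem CHB_B (h : ChordData φ₁ ψ φ₂ κ₁ κ₂) :
    κ₁ * Real.sin ((ψ - φ₁) / 2) * Real.sin (φ₂ / 2) =
      κ₂ * Real.sin ((φ₂ - ψ) / 2) * Real.sin (φ₁ / 2) := by
  obtain ⟨h0, h1, h2, h3, k1, k2, ks, mom, cot⟩ := h
  have s1 : 0 < Real.sin (φ₁ / 2) := CHB_sin_pos h0 (by linarith)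
  have sψ : 0 < Real.sin (ψ / 2) := CHB_sin_pos (by linarith) (by linarith)
  have s2 : 0 < Real.sin (φ₂ / 2) := CHB_sin_pos (by linarith) (by linarith)
  have e1 := CHB_cot_sub sψ.ne' s1.ne'
  have e2 := CHB_cot_sub sψ.ne' s2.ne'
  have e3 : κ₁ * (Real.cot (ψ / 2) - Real.cot (φ₁ / 2)) +
      κ₂ * (Real.cot (ψ / 2) - Real.cot (φ₂ / 2)) = 0 := by linarith
  rw [e1, e2, show φ₁ / 2 - ψ / 2 = -((ψ - φ₁) / 2) by ring, Real.sin_neg,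
    show φ₂ / 2 - ψ / 2 = (φ₂ - ψ) / 2 by ring] at e3
  field_simp at e3
  linarith

private theorem CHB_c_neg (h : ChordData φ₁ ψ φ₂ κ₁ κ₂) : CHB_c φ₁ ψ φ₂ κ₁ κ₂ < 0 := by
  have hB := CHB_B h
  obtain ⟨h0, h1, h2, h3, k1, k2, ks, mom, cot⟩ := h
  have s1 : 0 < Real.sin (φ₁ / 2) := CHB_sin_pos h0 (by linarith)
  have s3 : 0 < Real.sin ((ψ - φ₁) / 2) := CHB_sin_pos (by linarith) (by linarith)
  have s4 : 0 < Real.sin ((φ₂ - φ₁) / 2) := CHB_sin_pos (by linarith) (by linarith)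
  have e : CHB_c φ₁ ψ φ₂ κ₁ κ₂ * Real.sin (φ₁ / 2) =
      -(κ₁ * Real.sin ((ψ - φ₁) / 2) * Real.sin ((φ₂ - φ₁) / 2)) := by
    unfold CHB_c
    rw [show (φ₂ - φ₁) / 2 = φ₂ / 2 - φ₁ / 2 by ring, Real.sin_sub]
    linear_combination (Real.cos (φ₁ / 2)) * hB
  have e2 : 0 < κ₁ * Real.sin ((ψ - φ₁) / 2) * Real.sin ((φ₂ - φ₁) / 2) := by positivity
  by_contra hc
  rw [not_lt] at hc
  have := mul_nonneg hc s1.le
  linarith

private theorem CHB_formula (h : ChordData φ₁ ψ φ₂ κ₁ κ₂) {θ : ℝ}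
    (ha : Real.sin ((θ - ψ) / 2) ≠ 0) (hb : Real.sin ((θ - φ₁) / 2) ≠ 0)
    (hc : Real.sin ((θ - φ₂) / 2) ≠ 0) :
    2 * chDR φ₁ ψ φ₂ κ₁ κ₂ θ = CHB_c φ₁ ψ φ₂ κ₁ κ₂ * Real.sin (θ / 2) /
      (Real.sin ((θ - ψ) / 2) * Real.sin ((θ - φ₁) / 2) * Real.sin ((θ - φ₂) / 2)) := by
  have hB := CHB_B h
  have e1 := CHB_cot_sub ha hb
  have e2 := CHB_cot_sub ha hc
  have e3 : 2 * chDR φ₁ ψ φ₂ κ₁ κ₂ θ =
      κ₁ * (Real.cot ((θ - ψ) / 2) - Real.cot ((θ - φ₁) / 2)) +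
        κ₂ * (Real.cot ((θ - ψ) / 2) - Real.cot ((θ - φ₂) / 2)) := by
    unfold chDR
    ring
  have e4 : κ₁ * Real.sin ((ψ - φ₁) / 2) * Real.sin ((θ - φ₂) / 2) -
      κ₂ * Real.sin ((φ₂ - ψ) / 2) * Real.sin ((θ - φ₁) / 2) =
        CHB_c φ₁ ψ φ₂ κ₁ κ₂ * Real.sin (θ / 2) := by
    unfold CHB_c
    rw [show (θ - φ₂) / 2 = θ / 2 - φ₂ / 2 by ring, show (θ - φ₁) / 2 = θ / 2 - φ₁ / 2 by ring,
      Real.sin_sub, Real.sin_sub]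
    linear_combination (-Real.cos (θ / 2)) * hB
  rw [e3, e1, e2, ← e4, show (θ - φ₁) / 2 - (θ - ψ) / 2 = (ψ - φ₁) / 2 by ring,
    show (θ - φ₂) / 2 - (θ - ψ) / 2 = -((φ₂ - ψ) / 2) by ring, Real.sin_neg]
  field_simp
  ring

theorem CHB_sign (h : ChordData φ₁ ψ φ₂ κ₁ κ₂) :
    (∀ θ ∈ Ioo 0 φ₁, 0 < chDR φ₁ ψ φ₂ κ₁ κ₂ θ) ∧ (∀ θ ∈ Ioo φ₁ ψ, chDR φ₁ ψ φ₂ κ₁ κ₂ θ < 0) ∧
    (∀ θ ∈ Ioo ψ φ₂, 0 < chDR φ₁ ψ φ₂ κ₁ κ₂ θ) ∧
    (∀ θ ∈ Ioo φ₂ (2 * π), chDR φ₁ ψ φ₂ κ₁ κ₂ θ < 0) := by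
  have hc := CHB_c_neg h
  have hF := fun θ => CHB_formula h (θ := θ)
  obtain ⟨h0, h1, h2, h3, k1, k2, ks, mom, cot⟩ := h
  have neg : ∀ θ φ : ℝ, 0 < θ → θ < φ → φ < 2 * π → Real.sin ((θ - φ) / 2) < 0 := by
    intro θ φ a b c
    have := CHB_sin_pos (x := φ - θ) (by linarith) (by linarith)
    rw [show (θ - φ) / 2 = -((φ - θ) / 2) by ring, Real.sin_neg]
    linarith
  have pos : ∀ θ φ : ℝ, 0 < φ → φ < θ → θ < 2 * π → 0 < Real.sin ((θ - φ) / 2) := by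
    intro θ φ a b c
    exact CHB_sin_pos (by linarith) (by linarith)
  refine ⟨fun θ hθ => ?_, fun θ hθ => ?_, fun θ hθ => ?_, fun θ hθ => ?_⟩
  · have a := neg θ ψ hθ.1 (by linarith [hθ.2]) (by linarith)
    have b := neg θ φ₁ hθ.1 (by linarith [hθ.2]) (by linarith)
    have c := neg θ φ₂ hθ.1 (by linarith [hθ.2]) (by linarith)
    have s : 0 < Real.sin (θ / 2) := CHB_sin_pos hθ.1 (by linarith [hθ.2])
    have e := hF θ a.ne b.ne c.ne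
    have e2 : 0 < CHB_c φ₁ ψ φ₂ κ₁ κ₂ * Real.sin (θ / 2) /
      (Real.sin ((θ - ψ) / 2) * Real.sin ((θ - φ₁) / 2) * Real.sin ((θ - φ₂) / 2)) :=
      div_pos_of_neg_of_neg (mul_neg_of_neg_of_pos hc s)
        (mul_neg_of_pos_of_neg (mul_pos_of_neg_of_neg a b) c)
    linarith
  · have a := neg θ ψ (by linarith [hθ.1]) (by linarith [hθ.2]) (by linarith)
    have b := pos θ φ₁ (by linarith) hθ.1 (by linarith [hθ.2])
    have c := neg θ φ₂ (by linarith [hθ.1]) (by linarith [hθ.2]) (by linarith)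
    have s : 0 < Real.sin (θ / 2) := CHB_sin_pos (by linarith [hθ.1]) (by linarith [hθ.2])
    have e := hF θ a.ne b.ne' c.ne
    have e2 : CHB_c φ₁ ψ φ₂ κ₁ κ₂ * Real.sin (θ / 2) /
      (Real.sin ((θ - ψ) / 2) * Real.sin ((θ - φ₁) / 2) * Real.sin ((θ - φ₂) / 2)) < 0 :=
      div_neg_of_neg_of_pos (mul_neg_of_neg_of_pos hc s)
        (mul_pos_of_neg_of_neg (mul_neg_of_neg_of_pos a b) c)
    linarith
  · have a := pos θ ψ (by linarith) hθ.1 (by linarith [hθ.2])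
    have b := pos θ φ₁ (by linarith) (by linarith [hθ.1]) (by linarith [hθ.2])
    have c := neg θ φ₂ (by linarith [hθ.1]) (by linarith [hθ.2]) (by linarith)
    have s : 0 < Real.sin (θ / 2) := CHB_sin_pos (by linarith [hθ.1]) (by linarith [hθ.2])
    have e := hF θ a.ne' b.ne' c.ne
    have e2 : 0 < CHB_c φ₁ ψ φ₂ κ₁ κ₂ * Real.sin (θ / 2) /
      (Real.sin ((θ - ψ) / 2) * Real.sin ((θ - φ₁) / 2) * Real.sin ((θ - φ₂) / 2)) :=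
      div_pos_of_neg_of_neg (mul_neg_of_neg_of_pos hc s)
        (mul_neg_of_pos_of_neg (mul_pos a b) c)
    linarith
  · have a := pos θ ψ (by linarith) (by linarith [hθ.1]) hθ.2
    have b := pos θ φ₁ (by linarith) (by linarith [hθ.1]) hθ.2
    have c := pos θ φ₂ (by linarith) hθ.1 hθ.2
    have s : 0 < Real.sin (θ / 2) := CHB_sin_pos (by linarith [hθ.1]) hθ.2
    have e := hF θ a.ne' b.ne' c.ne'
    have e2 : CHB_c φ₁ ψ φ₂ κ₁ κ₂ * Real.sin (θ / 2) /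
      (Real.sin ((θ - ψ) / 2) * Real.sin ((θ - φ₁) / 2) * Real.sin ((θ - φ₂) / 2)) < 0 :=
      div_neg_of_neg_of_pos (mul_neg_of_neg_of_pos hc s) (mul_pos (mul_pos a b) c)
    linarith

private theorem CHB_deriv1 {φ θ : ℝ} (h : Real.sin ((θ - φ) / 2) ≠ 0) :
    HasDerivAt (fun t => Real.log (2 * |Real.sin ((t - φ) / 2)|)) (1 / 2 * Real.cot ((θ - φ) / 2)) θ := by
  have e : (fun t => Real.log (2 * |Real.sin ((t - φ) / 2)|)) =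
      fun t => Real.log (2 * Real.sin ((t - φ) / 2)) := by
    funext t
    rw [← Real.log_abs (2 * Real.sin ((t - φ) / 2)), abs_mul, abs_of_pos (by norm_num : (0 : ℝ) < 2)]
  rw [e]
  have h1 : HasDerivAt (fun t : ℝ => (t - φ) / 2) (1 / 2) θ := by
    simpa using ((hasDerivAt_id θ).sub_const φ).div_const 2
  have h2 := (((Real.hasDerivAt_sin ((θ - φ) / 2)).comp θ h1).const_mul 2).log (by
    simpa using h)
  have h3 : HasDerivAt (fun t => Real.log (2 * Real.sin ((t - φ) / 2)))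
      (2 * (Real.cos ((θ - φ) / 2) * (1 / 2)) / (2 * Real.sin ((θ - φ) / 2))) θ := h2
  refine h3.congr_deriv ?_
  rw [Real.cot_eq_cos_div_sin]
  field_simp

private theorem CHB_deriv {θ : ℝ} (h : Real.sin ((θ - ψ) / 2) ≠ 0)
    (h1 : Real.sin ((θ - φ₁) / 2) ≠ 0) (h2 : Real.sin ((θ - φ₂) / 2) ≠ 0) :
    HasDerivAt (chRho φ₁ ψ φ₂ κ₁ κ₂) (chDR φ₁ ψ φ₂ κ₁ κ₂ θ) θ := by
  have h3 := ((((CHB_deriv1 h).const_mul (κ₁ + κ₂)).sub ((CHB_deriv1 h1).const_mul κ₁)).sub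
    ((CHB_deriv1 h2).const_mul κ₂)).sub_const (chEll φ₁ ψ φ₂ κ₁ κ₂)
  have h4 : HasDerivAt (chRho φ₁ ψ φ₂ κ₁ κ₂) ((κ₁ + κ₂) * (1 / 2 * Real.cot ((θ - ψ) / 2)) -
    κ₁ * (1 / 2 * Real.cot ((θ - φ₁) / 2)) - κ₂ * (1 / 2 * Real.cot ((θ - φ₂) / 2))) θ := h3
  refine h4.congr_deriv ?_
  unfold chDR
  ring

theorem CHB_pos (h : ChordData φ₁ ψ φ₂ κ₁ κ₂) {θ : ℝ} (hθ : θ ∈ Ioo 0 (2 * π))
    (h1 : θ < φ₁ ∨ φ₂ < θ) : 0 < chRho φ₁ ψ φ₂ κ₁ κ₂ θ := by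
  obtain ⟨hs1, -, -, hs4⟩ := CHB_sign h
  obtain ⟨h0, h1', h2, h3, k1, k2, ks, mom, cot⟩ := h
  have neg : ∀ θ φ : ℝ, 0 ≤ θ → θ < φ → φ < 2 * π → Real.sin ((θ - φ) / 2) < 0 := by
    intro θ φ a b c
    have := CHB_sin_pos (x := φ - θ) (by linarith) (by linarith)
    rw [show (θ - φ) / 2 = -((φ - θ) / 2) by ring, Real.sin_neg]
    linarith
  have pos : ∀ θ φ : ℝ, 0 < φ → φ < θ → θ ≤ 2 * π → 0 < Real.sin ((θ - φ) / 2) := by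
    intro θ φ a b c
    exact CHB_sin_pos (by linarith) (by linarith)
  rcases h1 with h1 | h1
  · have z : chRho φ₁ ψ φ₂ κ₁ κ₂ 0 = 0 := by
      have e : ∀ φ : ℝ, 0 < φ → φ < 2 * π → |Real.sin ((0 - φ) / 2)| = Real.sin (φ / 2) := by
        intro φ a b
        rw [abs_of_neg (neg 0 φ le_rfl a b), ← Real.sin_neg]
        congr 1
        ring
      unfold chRho chEll
      rw [e ψ (by linarith) (by linarith), e φ₁ (by linarith) (by linarith),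
        e φ₂ (by linarith) (by linarith)]
      ring
    have d : ∀ t ∈ Icc 0 θ, HasDerivAt (chRho φ₁ ψ φ₂ κ₁ κ₂) (chDR φ₁ ψ φ₂ κ₁ κ₂ t) t := by
      intro t ht
      exact CHB_deriv (neg t ψ ht.1 (by linarith [ht.2]) (by linarith)).ne
        (neg t φ₁ ht.1 (by linarith [ht.2]) (by linarith)).ne
        (neg t φ₂ ht.1 (by linarith [ht.2]) (by linarith)).ne
    have m : StrictMonoOn (chRho φ₁ ψ φ₂ κ₁ κ₂) (Icc 0 θ) := by
      refine strictMonoOn_of_deriv_pos (convex_Icc 0 θ)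
        (fun t ht => (d t ht).continuousAt.continuousWithinAt) (fun t ht => ?_)
      rw [interior_Icc] at ht
      rw [(d t ⟨ht.1.le, ht.2.le⟩).deriv]
      exact hs1 t ⟨ht.1, by linarith [ht.2]⟩
    have := m (left_mem_Icc.2 hθ.1.le) (right_mem_Icc.2 hθ.1.le) hθ.1
    rwa [z] at this
  · have z : chRho φ₁ ψ φ₂ κ₁ κ₂ (2 * π) = 0 := by
      have e : ∀ φ : ℝ, 0 < φ → φ < 2 * π → |Real.sin ((2 * π - φ) / 2)| = Real.sin (φ / 2) := by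
        intro φ a b
        rw [abs_of_pos (pos (2 * π) φ a b le_rfl), show (2 * π - φ) / 2 = π - φ / 2 by ring,
          Real.sin_pi_sub]
      unfold chRho chEll
      rw [e ψ (by linarith) (by linarith), e φ₁ (by linarith) (by linarith),
        e φ₂ (by linarith) (by linarith)]
      ring
    have d : ∀ t ∈ Icc θ (2 * π), HasDerivAt (chRho φ₁ ψ φ₂ κ₁ κ₂) (chDR φ₁ ψ φ₂ κ₁ κ₂ t) t := by
      intro t ht
      exact CHB_deriv (pos t ψ (by linarith) (by linarith [ht.1]) ht.2).ne'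
        (pos t φ₁ (by linarith) (by linarith [ht.1]) ht.2).ne'
        (pos t φ₂ (by linarith) (by linarith [ht.1]) ht.2).ne'
    have m : StrictAntiOn (chRho φ₁ ψ φ₂ κ₁ κ₂) (Icc θ (2 * π)) := by
      refine strictAntiOn_of_deriv_neg (convex_Icc θ (2 * π))
        (fun t ht => (d t ht).continuousAt.continuousWithinAt) (fun t ht => ?_)
      rw [interior_Icc] at ht
      rw [(d t ⟨ht.1.le, ht.2.le⟩).deriv]
      exact hs4 t ⟨by linarith [ht.1], ht.2⟩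
    have := m (left_mem_Icc.2 hθ.2.le) (right_mem_Icc.2 hθ.2.le) hθ.2
    rwa [z] at this

theorem CHB_ell (h : ChordData φ₁ ψ φ₂ κ₁ κ₂) : 0 < chEll φ₁ ψ φ₂ κ₁ κ₂ := by
  obtain ⟨h0, h1, h2, h3, k1, k2, ks, mom, cot⟩ := h
  have s1 : 0 < Real.sin (φ₁ / 2) := CHB_sin_pos h0 (by linarith)
  have sψ : 0 < Real.sin (ψ / 2) := CHB_sin_pos (by linarith) (by linarith)
  have s2 : 0 < Real.sin (φ₂ / 2) := CHB_sin_pos (by linarith) (by linarith)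
  have kk : 0 < κ₁ + κ₂ := by linarith
  have t1 : 0 < κ₁ / (κ₁ + κ₂) := by positivity
  have t2 : 0 < κ₂ / (κ₁ + κ₂) := by positivity
  have t12 : κ₁ / (κ₁ + κ₂) + κ₂ / (κ₁ + κ₂) = 1 := by field_simp
  have a := strictConcaveOn_sin_Icc.2 (x := φ₁ / 2) (y := φ₂ / 2)
    ⟨by linarith, by linarith⟩ ⟨by linarith, by linarith⟩ (by
      intro hh
      linarith) t1 t2 t12
  have b := strictConcaveOn_log_Ioi.concaveOn.2 (x := 2 * Real.sin (φ₁ / 2))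
    (y := 2 * Real.sin (φ₂ / 2)) (mem_Ioi.2 (by positivity)) (mem_Ioi.2 (by positivity))
    t1.le t2.le t12
  simp only [smul_eq_mul] at a b
  have e : κ₁ / (κ₁ + κ₂) * (φ₁ / 2) + κ₂ / (κ₁ + κ₂) * (φ₂ / 2) = ψ / 2 := by
    field_simp
    linarith
  rw [e] at a
  have c : Real.log (κ₁ / (κ₁ + κ₂) * (2 * Real.sin (φ₁ / 2)) +
      κ₂ / (κ₁ + κ₂) * (2 * Real.sin (φ₂ / 2))) < Real.log (2 * Real.sin (ψ / 2)) := by
    refine Real.log_lt_log (by positivity) ?_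
    linarith
  have d := b.trans_lt c
  have f := mul_lt_mul_of_pos_left d kk
  have g : (κ₁ + κ₂) * (κ₁ / (κ₁ + κ₂) * Real.log (2 * Real.sin (φ₁ / 2)) +
      κ₂ / (κ₁ + κ₂) * Real.log (2 * Real.sin (φ₂ / 2))) =
      κ₁ * Real.log (2 * Real.sin (φ₁ / 2)) + κ₂ * Real.log (2 * Real.sin (φ₂ / 2)) := by
    field_simp
  rw [g] at f
  unfold chEll
  linarith

end

end Pool.H90.VK
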