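import Pool.Agent.H90.VK.Defs

/-!
# MNP : minimum principle with finitely many exceptional boundary points

Let `F` be analytic on the disc, continuous with nonnegative real part at all points of the circle outside a
finite set `E`, and `‖F z‖ ≤ C ‖z - ζ‖^(-s)` near each `ζ ∈ E`, `0 < s < 1`. Then `Re F ≥ 0` on the disc.

Proof. Let `s' = (1+s)/2 < 1` and `B(z) = Σ_{ζ∈E} (1 - conj ζ z)^(-s')` (principal power, `Re (1 - conj ζ z) > 0`),
so `Re B ≥ Σ cos(π s'/2) |z - ζ|^(-s') ≥ 0` on the disc (`|1 - conj ζ z| = |z - ζ|` for `|ζ| = 1`).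
Fix `ε, δ > 0` and `G = F + ε B`. Every point `ζ` of the circle has a neighbourhood in which
`Re G ≥ -δ` on the disc: for `ζ ∉ E` since `Re F(z) → Re F(ζ) ≥ 0`; for `ζ ∈ E` since
`Re G ≥ -C|z-ζ|^(-s) + ε c |z-ζ|^(-s') → +∞`. By compactness of the circle there is `r₀ < 1` with `Re G ≥ -δ` for
`r₀ < |z| < 1`. The maximum principle for `exp(-G)` on `|z| ≤ r`, `r₀ < r < 1`
(`Complex.norm_le_of_forall_mem_frontier_norm_le`) gives `Re G ≥ -δ` on the disc. Let `δ → 0`, then `ε → 0`.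
-/

open MeasureTheory Set Filter Topology Metric
open scoped Real ENNReal ComplexConjugate

namespace Pool.H90.VK

noncomputable section

/-- the barrier function -/
def MNP_b (t : ℝ) (ζ z : ℂ) : ℂ := Complex.exp (-(t : ℂ) * Complex.log (1 - conj ζ * z))

theorem MNP_norm (ζ z : ℂ) (hζ : ‖ζ‖ = 1) : ‖1 - conj ζ * z‖ = ‖z - ζ‖ := by
  have h1 : (1 : ℂ) = conj ζ * ζ := by
    rw [mul_comm, Complex.mul_conj, Complex.normSq_eq_norm_sq, hζ]
    simp
  have h2 : 1 - conj ζ * z = -(conj ζ * (z - ζ)) := by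
    rw [mul_sub, ← h1]; ring
  rw [h2, norm_neg, norm_mul, RCLike.norm_conj, hζ, one_mul]

theorem MNP_re_pos (ζ z : ℂ) (hζ : ‖ζ‖ = 1) (hz : z ∈ ball (0 : ℂ) 1) : 0 < (1 - conj ζ * z).re := by
  have h1 : ‖z‖ < 1 := by simpa using hz
  have h2 : (conj ζ * z).re ≤ ‖conj ζ * z‖ := Complex.re_le_norm _
  rw [norm_mul, RCLike.norm_conj, hζ, one_mul] at h2
  rw [Complex.sub_re, Complex.one_re]
  linarith

theorem MNP_b_re (t : ℝ) (ht0 : 0 < t) (ht1 : t < 1) (ζ z : ℂ) (hζ : ‖ζ‖ = 1) (hz : z ∈ ball (0 : ℂ) 1) :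
    Real.cos (t * (π / 2)) * ‖z - ζ‖ ^ (-t) ≤ (MNP_b t ζ z).re := by
  have hpos := MNP_re_pos ζ z hζ hz
  set w : ℂ := 1 - conj ζ * z with hw
  have hw0 : w ≠ 0 := by
    intro h
    rw [h] at hpos
    simp at hpos
  have hwn : 0 < ‖w‖ := norm_pos_iff.mpr hw0
  have harg : |w.arg| < π / 2 := Complex.abs_arg_lt_pi_div_two_iff.mpr (Or.inl hpos)
  have h1 : (MNP_b t ζ z).re = ‖w‖ ^ (-t) * Real.cos (t * w.arg) := by
    unfold MNP_b
    rw [← hw, Complex.exp_re]
    have e1 : (-(t : ℂ) * Complex.log w).re = -t * Real.log ‖w‖ := by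
      simp [Complex.mul_re, Complex.log_re]
    have e2 : (-(t : ℂ) * Complex.log w).im = -(t * w.arg) := by
      simp [Complex.mul_im, Complex.log_im]
    rw [e1, e2, Real.cos_neg, Real.rpow_def_of_pos hwn]
    congr 2
    ring
  rw [h1, ← MNP_norm ζ z hζ, ← hw, mul_comm]
  apply mul_le_mul_of_nonneg_left _ (Real.rpow_nonneg hwn.le _)
  rw [← Real.cos_abs (t * w.arg), abs_mul, abs_of_pos ht0]
  apply Real.cos_le_cos_of_nonneg_of_le_pi
  · positivity
  · nlinarith [Real.pi_pos]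
  · exact mul_le_mul_of_nonneg_left harg.le ht0.le

theorem MNP_b_diff (t : ℝ) (ζ : ℂ) (hζ : ‖ζ‖ = 1) : DifferentiableOn ℂ (MNP_b t ζ) (ball (0 : ℂ) 1) := by
  unfold MNP_b
  apply DifferentiableOn.cexp
  apply DifferentiableOn.const_mul
  apply DifferentiableOn.clog
  · fun_prop
  · intro z hz
    exact Complex.mem_slitPlane_iff.mpr (Or.inl (MNP_re_pos ζ z hζ hz))

theorem MNP_max (G : ℂ → ℂ) (hG : DifferentiableOn ℂ G (ball (0 : ℂ) 1)) (δ : ℝ)
    (h : ∀ ζ : ℂ, ‖ζ‖ = 1 → ∀ᶠ z in 𝓝[ball (0 : ℂ) 1] ζ, -δ ≤ (G z).re) :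
    ∀ z ∈ ball (0 : ℂ) 1, -δ ≤ (G z).re := by
  set A : Set ℂ := {z : ℂ | z ∈ ball (0 : ℂ) 1 → -δ ≤ (G z).re} with hA
  have hA1 : sphere (0 : ℂ) 1 ⊆ interior A := by
    intro ζ hζ
    have hζ1 : ‖ζ‖ = 1 := by simpa using hζ
    rw [mem_interior_iff_mem_nhds]
    have := h ζ hζ1
    rw [eventually_nhdsWithin_iff] at this
    exact this
  obtain ⟨d, hd, hdA⟩ := (isCompact_sphere (0 : ℂ) 1).exists_thickening_subset_open isOpen_interior hA1
  intro z hz
  have hz1 : ‖z‖ < 1 := by simpa using hz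
  obtain ⟨r, hr1, hr2⟩ : ∃ r, max (max ‖z‖ (1 - d)) 0 < r ∧ r < 1 := by
    apply exists_between
    simp [hz1, hd]
  have hrz : ‖z‖ < r := lt_of_le_of_lt ((le_max_left _ _).trans (le_max_left _ _)) hr1
  have hrd : 1 - d < r := lt_of_le_of_lt ((le_max_right _ _).trans (le_max_left _ _)) hr1
  have hr0 : 0 < r := lt_of_le_of_lt (le_max_right _ _) hr1
  have hsub : closedBall (0 : ℂ) r ⊆ ball (0 : ℂ) 1 := closedBall_subset_ball hr2
  have hdc : DiffContOnCl ℂ (fun z => Complex.exp (-(G z))) (ball (0 : ℂ) r) := by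
    apply DifferentiableOn.diffContOnCl
    rw [closure_ball _ hr0.ne']
    exact ((hG.mono hsub).neg).cexp
  have hfr : ∀ w ∈ frontier (ball (0 : ℂ) r), ‖Complex.exp (-(G w))‖ ≤ Real.exp δ := by
    intro w hw
    rw [frontier_ball _ hr0.ne'] at hw
    have hwr : ‖w‖ = r := by simpa using hw
    rw [Complex.norm_exp, Real.exp_le_exp, Complex.neg_re]
    have hwA : w ∈ interior A := by
      apply hdA
      rw [mem_thickening_iff]
      refine ⟨(‖w‖ : ℂ)⁻¹ * w, ?_, ?_⟩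
      · simp [hwr, hr0.ne', abs_of_pos hr0]
      · rw [hwr, dist_eq_norm]
        have : w - (r : ℂ)⁻¹ * w = ((1 - r⁻¹ : ℝ) : ℂ) * w := by
          push_cast; ring
        rw [this, norm_mul, hwr, Complex.norm_real, Real.norm_eq_abs]
        have h1 : 1 - r⁻¹ ≤ 0 := by
          have : 1 ≤ r⁻¹ := by
            rw [one_le_inv₀ hr0]
            exact hr2.le
          linarith
        rw [abs_of_nonpos h1]
        have : -(1 - r⁻¹) * r = 1 - r := by field_simp; ring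
        rw [this]; linarith
    have hwA' : w ∈ A := interior_subset hwA
    have hwb : w ∈ ball (0 : ℂ) 1 := by
      simp [hwr, hr2]
    have := hwA' hwb
    linarith
  have hmax := Complex.norm_le_of_forall_mem_frontier_norm_le (isBounded_ball) hdc hfr
    (z := z) (subset_closure (by simpa using hrz))
  rw [Complex.norm_exp, Real.exp_le_exp, Complex.neg_re] at hmax
  linarith

theorem MNP_pt (C c s t ε : ℝ) (hst : s < t) (hc : 0 < c) (hε : 0 < ε) (δ : ℝ) (hδ : 0 < δ) :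
    ∀ᶠ x in 𝓝[>] (0 : ℝ), -δ ≤ -(C * x ^ (-s)) + ε * (c * x ^ (-t)) := by
  have h1 : Tendsto (fun x : ℝ => x ^ (t - s)) (𝓝[>] (0 : ℝ)) (𝓝 0) := by
    have h2 : ContinuousAt (fun x : ℝ => x ^ (t - s)) 0 :=
      Real.continuousAt_rpow_const _ _ (Or.inr (by linarith))
    have h3 := h2.tendsto
    rw [Real.zero_rpow (by linarith)] at h3
    exact h3.mono_left nhdsWithin_le_nhds
  have h4 : Tendsto (fun x : ℝ => C * x ^ (t - s)) (𝓝[>] (0 : ℝ)) (𝓝 0) := by
    simpa using h1.const_mul C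
  have h5 : ∀ᶠ x in 𝓝[>] (0 : ℝ), C * x ^ (t - s) < ε * c :=
    h4.eventually_lt_const (by positivity)
  filter_upwards [h5, self_mem_nhdsWithin] with x hx hx0
  have hx0' : (0 : ℝ) < x := hx0
  have h6 : x ^ (-s) = x ^ (t - s) * x ^ (-t) := by
    rw [← Real.rpow_add hx0']
    congr 1; ring
  have h7 : 0 ≤ x ^ (-t) := Real.rpow_nonneg hx0'.le _
  rw [h6]
  nlinarith

theorem MNP (F : ℂ → ℂ) (hF : DifferentiableOn ℂ F (ball (0 : ℂ) 1)) (E : Finset ℂ) (s C : ℝ)
    (hs0 : 0 < s) (hs : s < 1)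
    (hreg : ∀ ζ : ℂ, ‖ζ‖ = 1 → ζ ∉ E → ContinuousAt F ζ ∧ 0 ≤ (F ζ).re)
    (hE : ∀ ζ ∈ E, ‖ζ‖ = 1 ∧ ∀ᶠ z in 𝓝[ball (0 : ℂ) 1] ζ, ‖F z‖ ≤ C * ‖z - ζ‖ ^ (-s)) :
    ∀ z ∈ ball (0 : ℂ) 1, 0 ≤ (F z).re := by
  set t : ℝ := (1 + s) / 2 with ht
  have ht0 : 0 < t := by rw [ht]; linarith
  have ht1 : t < 1 := by rw [ht]; linarith
  have hst : s < t := by rw [ht]; linarith
  set c : ℝ := Real.cos (t * (π / 2)) with hc
  have hc0 : 0 < c := by
    apply Real.cos_pos_of_mem_Ioo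
    constructor
    · nlinarith [Real.pi_pos]
    · nlinarith [Real.pi_pos]
  set B : ℂ → ℂ := fun z => ∑ ζ ∈ E, MNP_b t ζ z with hB
  have hBd : DifferentiableOn ℂ B (ball (0 : ℂ) 1) := by
    apply DifferentiableOn.fun_sum
    intro ζ hζ
    exact MNP_b_diff t ζ (hE ζ hζ).1
  have hb0 : ∀ ζ ∈ E, ∀ z ∈ ball (0 : ℂ) 1, 0 ≤ (MNP_b t ζ z).re := by
    intro ζ hζ z hz
    refine le_trans ?_ (MNP_b_re t ht0 ht1 ζ z (hE ζ hζ).1 hz)
    exact mul_nonneg hc0.le (Real.rpow_nonneg (norm_nonneg _) _)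
  have hBre : ∀ z, (B z).re = ∑ ζ ∈ E, (MNP_b t ζ z).re := by
    intro z
    rw [hB]
    simp
  have hB0 : ∀ z ∈ ball (0 : ℂ) 1, 0 ≤ (B z).re := by
    intro z hz
    rw [hBre]
    exact Finset.sum_nonneg (fun ζ hζ => hb0 ζ hζ z hz)
  have hmain : ∀ ε : ℝ, 0 < ε → ∀ δ : ℝ, 0 < δ → ∀ z ∈ ball (0 : ℂ) 1, -δ ≤ (F z + (ε : ℂ) * B z).re := by
    intro ε hε δ hδ
    apply MNP_max (fun z => F z + (ε : ℂ) * B z) (hF.add (hBd.const_mul _)) δ
    intro ζ hζ
    by_cases hζE : ζ ∈ E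
    · have h1 := (hE ζ hζE).2
      have h2 := MNP_pt C c s t ε hst hc0 hε δ hδ
      have h3 : Tendsto (fun z : ℂ => ‖z - ζ‖) (𝓝[ball (0 : ℂ) 1] ζ) (𝓝[>] (0 : ℝ)) := by
        apply tendsto_nhdsWithin_iff.mpr
        constructor
        · have : ContinuousAt (fun z : ℂ => ‖z - ζ‖) ζ := by fun_prop
          have h4 := this.tendsto
          simp only [sub_self, norm_zero] at h4
          exact h4.mono_left nhdsWithin_le_nhds
        · filter_upwards [self_mem_nhdsWithin] with z hz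
          have hz1 : ‖z‖ < 1 := by simpa using hz
          have : z - ζ ≠ 0 := by
            intro h
            rw [sub_eq_zero] at h
            rw [h, hζ] at hz1
            exact lt_irrefl _ hz1
          exact norm_pos_iff.mpr this
      filter_upwards [h1, h3.eventually h2, self_mem_nhdsWithin] with z hz1 hz2 hz3
      have h5 : -(C * ‖z - ζ‖ ^ (-s)) ≤ (F z).re := by
        have := Complex.abs_re_le_norm (F z)
        have := neg_abs_le (F z).re
        linarith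
      have h6 : c * ‖z - ζ‖ ^ (-t) ≤ (B z).re := by
        rw [hBre]
        refine le_trans (MNP_b_re t ht0 ht1 ζ z hζ hz3) ?_
        exact Finset.single_le_sum (f := fun ζ => (MNP_b t ζ z).re) (fun ζ hζ => hb0 ζ hζ z hz3) hζE
      have h7 : (F z + (ε : ℂ) * B z).re = (F z).re + ε * (B z).re := by
        simp
      rw [h7]
      have h8 := mul_le_mul_of_nonneg_left h6 hε.le
      linarith
    · obtain ⟨h1, h2⟩ := hreg ζ hζ hζE
      have h3 : ContinuousAt (fun z => (F z).re) ζ := Complex.continuous_re.continuousAt.comp h1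
      have h4 : ∀ᶠ z in 𝓝 ζ, -δ < (F z).re := h3.tendsto.eventually_const_lt (by linarith)
      filter_upwards [nhdsWithin_le_nhds h4, self_mem_nhdsWithin] with z hz1 hz3
      have h7 : (F z + (ε : ℂ) * B z).re = (F z).re + ε * (B z).re := by
        simp
      rw [h7]
      have := mul_nonneg hε.le (hB0 z hz3)
      linarith
  intro z hz
  by_contra hneg
  push Not at hneg
  have hBz := hB0 z hz
  set m : ℝ := -(F z).re with hm
  have hm0 : 0 < m := by rw [hm]; linarith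
  have h1 := hmain (m / (2 * ((B z).re + 1))) (by positivity) (m / 4) (by positivity) z hz
  have h7 : (F z + ((m / (2 * ((B z).re + 1)) : ℝ) : ℂ) * B z).re
      = (F z).re + m / (2 * ((B z).re + 1)) * (B z).re := by
    simp only [Complex.add_re, Complex.re_ofReal_mul]
  rw [h7] at h1
  have h8 : m / (2 * ((B z).re + 1)) * (B z).re ≤ m / 2 := by
    rw [div_mul_eq_mul_div, div_le_div_iff₀ (by positivity) (by norm_num)]
    nlinarith
  have h9 : (F z).re = -m := by rw [hm]; ring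
  rw [h9] at h1
  linarith

end

end Pool.H90.VK
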