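import Pool.Agent.H90.VK.CHA
import Pool.Agent.H90.VK.CHB
import Pool.Agent.H90.VK.MNP

/-!
# CHC : `e^Λ ≠ 1` in the disc

Let `F(z) = J(z) (1 - e^{Λ(z)})`, `J = chJ ψ`. `MNP` with `E = {1, e^{iφ₁}, e^{iφ₂}, e^{iψ}}`,
`s = max κ₁ κ₂ < 1` (any `s ∈ (max κ₁ κ₂, 1)` is fine):
* at `ζ = e^{iθ}`, `θ ∈ (0,2π)`, `θ ≠ φ₁, ψ, φ₂`: `F` is continuous (`CHE_Lam_an`), `J = -i j`,
  `j = sin((θ-ψ)/2)/sin(θ/2)`, `Re F = Re(-i j (1 - e^Λ)) = -j e^ρ sin Ψ ≥ 0`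
  [`Im (1 - e^Λ) = -e^ρ sin Ψ`, `Re(-i j w) = j Im w`]: `Ψ = 0`, or `θ ∈ (φ₁,ψ)`, `j < 0`,
  `Ψ = πκ₁ ∈ (0,π)`, or `θ ∈ (ψ,φ₂)`, `j > 0`, `Ψ = -πκ₂ ∈ (-π,0)`;
* near `1`: `Λ` is analytic at 1 with `Λ(1) = 0`, so `|1 - e^Λ| ≤ C|1-z|`, `|J| ≤ 2/|1-z|`: `F` bounded;
* near `e^{iφ_j}`: `|F| ≤ |J|(1 + |e^Λ|) ≤ C |z - x_j|^{-κ_j}` (`CHE_size`); near `e^{iψ}`: `F` bounded.
(`‖F z‖ ≤ C` gives `‖F z‖ ≤ C 2^s ‖z - ζ‖^(-s)`.)
So `Re F ≥ 0` on the disc. If `e^{Λ(z₀)} = 1` then `F(z₀) = 0`, `|exp(-F)| ≤ 1 = |exp(-F(z₀))|`, so by the maximum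
principle `exp(-F)` is constant `= 1` on the disc; but `|exp(-F(0))| = exp(-sin(ψ/2)(1 - e^{-ℓ})) < 1`
(`J(0) = -i e^{iψ/2}`, real part `sin(ψ/2) > 0`, `Λ(0) = -ℓ < 0` by `CHB_ell`).
-/

open MeasureTheory Set Filter Topology Metric
open scoped Real ENNReal ComplexConjugate

namespace Pool.H90.VK

noncomputable section

variable {φ₁ ψ φ₂ κ₁ κ₂ : ℝ}

/-- the function `F` -/
def CHC_F (φ₁ ψ φ₂ κ₁ κ₂ : ℝ) (z : ℂ) : ℂ :=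
  chJ ψ z * (1 - Complex.exp (chLam φ₁ ψ φ₂ κ₁ κ₂ z))

theorem CHC_ne {θ φ : ℝ} (h1 : 0 < θ) (h2 : θ < 2 * π) (h3 : 0 ≤ φ) (h4 : φ < 2 * π) (hne : θ ≠ φ) :
    Complex.exp (θ * Complex.I) ≠ Complex.exp (φ * Complex.I) := by
  intro h
  rw [Complex.exp_eq_exp_iff_exists_int] at h
  obtain ⟨n, hn⟩ := h
  have h5 := congrArg Complex.im hn
  have h6 : θ = φ + n * (2 * π) := by
    have e1 : ((θ : ℂ) * Complex.I).im = θ := by simp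
    have e2 : ((φ : ℂ) * Complex.I + n * (2 * π * Complex.I)).im = φ + n * (2 * π) := by simp
    rw [e1, e2] at h5
    exact h5
  have hpi := Real.pi_pos
  have h7 : n = 0 := by
    have e1 : (n : ℝ) * (2 * π) < 1 * (2 * π) := by linarith
    have e2 : (-1 : ℝ) * (2 * π) < n * (2 * π) := by linarith
    have e3 : (n : ℝ) < 1 := lt_of_mul_lt_mul_right e1 (by linarith)
    have e4 : (-1 : ℝ) < n := lt_of_mul_lt_mul_right e2 (by linarith)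
    have e5 : n < 1 := by exact_mod_cast e3
    have e6 : -1 < n := by exact_mod_cast e4
    omega
  rw [h7] at h6
  simp at h6
  exact hne h6

theorem CHC_ne_one {θ : ℝ} (h1 : 0 < θ) (h2 : θ < 2 * π) : Complex.exp (θ * Complex.I) ≠ 1 := by
  have := CHC_ne h1 h2 le_rfl (by linarith) (φ := 0) h1.ne'
  simpa using this

theorem CHC_unit (θ : ℝ) : ‖Complex.exp (θ * Complex.I)‖ = 1 := Complex.norm_exp_ofReal_mul_I θ

theorem CHC_J_cont (ψ : ℝ) {z : ℂ} (hz : z ≠ 1) : ContinuousAt (chJ ψ) z := by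
  unfold chJ
  apply ContinuousAt.div
  · fun_prop
  · fun_prop
  · exact sub_ne_zero.2 hz.symm

theorem CHC_J_diff (ψ : ℝ) : DifferentiableOn ℂ (chJ ψ) (ball (0 : ℂ) 1) := by
  intro z hz
  unfold chJ
  apply DifferentiableAt.differentiableWithinAt
  apply DifferentiableAt.div
  · fun_prop
  · fun_prop
  · intro h
    have h1 : z = 1 := (sub_eq_zero.1 h).symm
    rw [h1, mem_ball_zero_iff, norm_one] at hz
    exact lt_irrefl _ hz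

/-- bound near an exceptional point -/
theorem CHC_bd {F : ℂ → ℂ} {g : ℂ → ℝ} {ζ : ℂ} (hζ : ‖ζ‖ = 1) {r s : ℝ} (hrs : r ≤ s)
    (hg : ContinuousAt g ζ)
    (h : ∀ᶠ z in 𝓝[ball (0 : ℂ) 1] ζ, ‖F z‖ ≤ g z * ‖z - ζ‖ ^ (-r)) :
    ∃ C, 0 ≤ C ∧ ∀ᶠ z in 𝓝[ball (0 : ℂ) 1] ζ, ‖F z‖ ≤ C * ‖z - ζ‖ ^ (-s) := by
  refine ⟨|g ζ| + 1, by positivity, ?_⟩
  have h1 : ∀ᶠ z in 𝓝[ball (0 : ℂ) 1] ζ, g z < |g ζ| + 1 :=
    mem_nhdsWithin_of_mem_nhds (hg.eventually_lt_const (by linarith [le_abs_self (g ζ)]))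
  have h2 : ∀ᶠ z in 𝓝[ball (0 : ℂ) 1] ζ, z ∈ ball ζ 1 :=
    mem_nhdsWithin_of_mem_nhds (ball_mem_nhds ζ one_pos)
  filter_upwards [h, h1, h2, self_mem_nhdsWithin] with z h3 h4 h5 h6
  have h7 : ‖z - ζ‖ < 1 := by rw [← dist_eq_norm]; exact h5
  have h8 : 0 < ‖z - ζ‖ := by
    rw [norm_pos_iff, sub_ne_zero]
    rintro rfl
    rw [mem_ball_zero_iff, hζ] at h6
    exact lt_irrefl _ h6
  have h9 : ‖z - ζ‖ ^ (-r) ≤ ‖z - ζ‖ ^ (-s) :=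
    Real.rpow_le_rpow_of_exponent_ge h8 h7.le (by linarith)
  calc ‖F z‖ ≤ g z * ‖z - ζ‖ ^ (-r) := h3
    _ ≤ (|g ζ| + 1) * ‖z - ζ‖ ^ (-r) :=
        mul_le_mul_of_nonneg_right h4.le (Real.rpow_nonneg h8.le _)
    _ ≤ (|g ζ| + 1) * ‖z - ζ‖ ^ (-s) := mul_le_mul_of_nonneg_left h9 (by positivity)

theorem CHC_pw {x ζ : ℂ} (hx : ζ ≠ x) (a : ℝ) : ContinuousAt (fun z : ℂ => ‖z - x‖ ^ a) ζ := by
  apply ContinuousAt.rpow_const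
  · fun_prop
  · left
    exact (norm_pos_iff.2 (sub_ne_zero.2 hx)).ne'

theorem CHC_pw' (x ζ : ℂ) {a : ℝ} (ha : 0 ≤ a) : ContinuousAt (fun z : ℂ => ‖z - x‖ ^ a) ζ := by
  apply ContinuousAt.rpow_const
  · fun_prop
  · right
    exact ha

theorem CHC_Fbd (ψ : ℝ) (L : ℂ) (z : ℂ) :
    ‖chJ ψ z * (1 - Complex.exp L)‖ ≤ ‖chJ ψ z‖ * (1 + ‖Complex.exp L‖) := by
  rw [norm_mul]
  apply mul_le_mul_of_nonneg_left _ (norm_nonneg _)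
  exact (norm_sub_le _ _).trans (by rw [norm_one])

theorem CHC_ball_ne {z x : ℂ} (hz : z ∈ ball (0 : ℂ) 1) (hx : ‖x‖ = 1) : z ≠ x := by
  rintro rfl
  rw [mem_ball_zero_iff, hx] at hz
  exact lt_irrefl _ hz

theorem CHC_near_one (h : ChordData φ₁ ψ φ₂ κ₁ κ₂) :
    ∃ C, 0 ≤ C ∧ ∀ᶠ z in 𝓝[ball (0 : ℂ) 1] 1,
      ‖CHC_F φ₁ ψ φ₂ κ₁ κ₂ z‖ ≤ C * ‖z - 1‖ ^ (-(κ₁ + κ₂)) := by
  have hL : AnalyticAt ℂ (chLam φ₁ ψ φ₂ κ₁ κ₂) 1 :=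
    (CHE_Lam_an (by simp) (CHC_ne_one h.h0 (by linarith [h.h1, h.h2, h.h3])).symm
      (CHC_ne_one (by linarith [h.h0, h.h1]) (by linarith [h.h2, h.h3])).symm
      (CHC_ne_one (by linarith [h.h0, h.h1, h.h2]) h.h3).symm).1
  have hd : DifferentiableAt ℂ (fun z => 1 - Complex.exp (chLam φ₁ ψ φ₂ κ₁ κ₂ z)) 1 :=
    (hL.differentiableAt.cexp).const_sub 1
  have hO := hd.isBigO_sub
  obtain ⟨C, hC⟩ := hO.bound
  refine CHC_bd (F := CHC_F φ₁ ψ φ₂ κ₁ κ₂) (r := 0)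
    (g := fun z => ‖-Complex.I * Complex.exp (ψ / 2 * Complex.I) *
      (1 - Complex.exp (-(ψ * Complex.I)) * z)‖ * C) (by simp)
    (by linarith [h.k1, h.k2]) (by fun_prop) ?_
  filter_upwards [mem_nhdsWithin_of_mem_nhds hC, self_mem_nhdsWithin] with z hz hzb
  have hz1 : z ≠ 1 := CHC_ball_ne hzb (by simp)
  have hz2 : 0 < ‖z - 1‖ := norm_pos_iff.2 (sub_ne_zero.2 hz1)
  rw [CHA_one h, Complex.exp_zero, sub_self, sub_zero] at hz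
  rw [neg_zero, Real.rpow_zero, mul_one]
  unfold CHC_F chJ
  rw [norm_mul, norm_div, norm_sub_rev 1 z, div_mul_eq_mul_div, div_le_iff₀ hz2]
  exact (mul_le_mul_of_nonneg_left hz (norm_nonneg (-Complex.I * Complex.exp (ψ / 2 * Complex.I) *
    (1 - Complex.exp (-(ψ * Complex.I)) * z)))).trans (le_of_eq (by ring))

theorem CHC_near_x (h1 : 0 < κ₁) (h2 : 0 < κ₂) {ζ : ℂ} (hζ : ‖ζ‖ = 1) (hζ1 : ζ ≠ 1) {r : ℝ}
    (hr : 0 ≤ r) (hrs : r ≤ κ₁ + κ₂) {g : ℂ → ℝ} (hg : ContinuousAt g ζ)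
    (hge : ∀ z ∈ ball (0 : ℂ) 1, ‖Complex.exp (chLam φ₁ ψ φ₂ κ₁ κ₂ z)‖ = g z * ‖z - ζ‖ ^ (-r)) :
    ∃ C, 0 ≤ C ∧ ∀ᶠ z in 𝓝[ball (0 : ℂ) 1] ζ,
      ‖CHC_F φ₁ ψ φ₂ κ₁ κ₂ z‖ ≤ C * ‖z - ζ‖ ^ (-(κ₁ + κ₂)) := by
  refine CHC_bd (F := CHC_F φ₁ ψ φ₂ κ₁ κ₂) (r := r)
    (g := fun z => ‖chJ ψ z‖ * (‖z - ζ‖ ^ r + g z)) hζ hrs
    ((CHC_J_cont ψ hζ1).norm.mul ((CHC_pw' ζ ζ hr).add hg)) ?_
  filter_upwards [self_mem_nhdsWithin] with z hzb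
  have hz2 : 0 < ‖z - ζ‖ := norm_pos_iff.2 (sub_ne_zero.2 (CHC_ball_ne hzb hζ))
  refine (CHC_Fbd ψ _ z).trans (le_of_eq ?_)
  rw [hge z hzb, mul_assoc, add_mul, ← Real.rpow_add hz2, add_neg_cancel, Real.rpow_zero]

theorem CHC_reg (h : ChordData φ₁ ψ φ₂ κ₁ κ₂) {θ : ℝ} (hθ : θ ∈ Ioo 0 (2 * π)) (h1 : θ ≠ φ₁)
    (h2 : θ ≠ ψ) (h3 : θ ≠ φ₂) :
    0 ≤ (CHC_F φ₁ ψ φ₂ κ₁ κ₂ (Complex.exp (θ * Complex.I))).re := by
  have hpi := Real.pi_pos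
  unfold CHC_F
  rw [CHA_J ψ hθ, CHA_val h hθ h1 h2 h3]
  set j : ℝ := Real.sin ((θ - ψ) / 2) / Real.sin (θ / 2) with hj
  set ρ := chRho φ₁ ψ φ₂ κ₁ κ₂ θ
  set Ψ := chPsi φ₁ ψ φ₂ κ₁ κ₂ θ with hΨ
  have hre : (-(j : ℂ) * Complex.I * (1 - Complex.exp ((ρ : ℂ) + (Ψ : ℂ) * Complex.I))).re =
      -(j * Real.exp ρ * Real.sin Ψ) := by
    rw [Complex.exp_add, ← Complex.ofReal_exp, Complex.exp_mul_I, ← Complex.ofReal_cos,
      ← Complex.ofReal_sin]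
    generalize Real.exp ρ = E
    generalize Real.sin Ψ = s'
    generalize Real.cos Ψ = c'
    simp only [Complex.mul_re, Complex.mul_im, Complex.neg_re, Complex.neg_im, Complex.ofReal_re,
      Complex.ofReal_im, Complex.I_re, Complex.I_im, Complex.sub_re, Complex.sub_im, Complex.one_re,
      Complex.one_im, Complex.add_re, Complex.add_im]
    ring
  rw [hre]
  have hs : 0 < Real.sin (θ / 2) :=
    Real.sin_pos_of_pos_of_lt_pi (by linarith [hθ.1]) (by linarith [hθ.2])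
  have he : 0 < Real.exp ρ := Real.exp_pos _
  unfold chPsi at hΨ
  split_ifs at hΨ with c1 c2 c3
  · rw [hΨ]; simp
  · have hsψ : 0 < Real.sin Ψ := by
      rw [hΨ]
      apply Real.sin_pos_of_pos_of_lt_pi (mul_pos hpi h.k1)
      nlinarith [h.ks, h.k1, h.k2]
    have hjn : j ≤ 0 := by
      rw [hj]
      apply div_nonpos_of_nonpos_of_nonneg _ hs.le
      apply Real.sin_nonpos_of_nonpos_of_neg_pi_le
      · linarith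
      · linarith [h.h2, h.h3, hθ.1]
    have : j * Real.exp ρ * Real.sin Ψ ≤ 0 :=
      mul_nonpos_of_nonpos_of_nonneg (mul_nonpos_of_nonpos_of_nonneg hjn he.le) hsψ.le
    linarith
  · have hsψ : Real.sin Ψ ≤ 0 := by
      rw [hΨ, Real.sin_neg]
      have : 0 < Real.sin (π * κ₂) := by
        apply Real.sin_pos_of_pos_of_lt_pi (mul_pos hpi h.k2)
        nlinarith [h.ks, h.k1, h.k2]
      linarith
    have hjn : 0 ≤ j := by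
      rw [hj]
      apply div_nonneg _ hs.le
      apply Real.sin_nonneg_of_nonneg_of_le_pi
      · have : ψ < θ := lt_of_le_of_ne (not_lt.1 c2) h2.symm
        linarith
      · linarith [h.h0, h.h1, hθ.2]
    have : j * Real.exp ρ * Real.sin Ψ ≤ 0 :=
      mul_nonpos_of_nonneg_of_nonpos (mul_nonneg hjn he.le) hsψ
    linarith
  · rw [hΨ]; simp

theorem CHC_pos (h : ChordData φ₁ ψ φ₂ κ₁ κ₂) {z : ℂ} (hz : z ∈ ball (0 : ℂ) 1) :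
    0 ≤ (CHC_F φ₁ ψ φ₂ κ₁ κ₂ z).re := by
  classical
  have hpi := Real.pi_pos
  have a0 := h.h0
  have a1 := h.h1
  have a2 := h.h2
  have a3 := h.h3
  have hk1 := h.k1
  have hk2 := h.k2
  have hF : DifferentiableOn ℂ (CHC_F φ₁ ψ φ₂ κ₁ κ₂) (ball (0 : ℂ) 1) :=
    (CHC_J_diff ψ).mul ((differentiableOn_const 1).sub CHE_Lam_diff.1.cexp)
  have nxu : Complex.exp (φ₁ * Complex.I) ≠ Complex.exp (ψ * Complex.I) :=
    CHC_ne a0 (by linarith) (by linarith) (by linarith) a1.ne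
  have nxy : Complex.exp (φ₁ * Complex.I) ≠ Complex.exp (φ₂ * Complex.I) :=
    CHC_ne a0 (by linarith) (by linarith) (by linarith) (by linarith)
  have nuy : Complex.exp (ψ * Complex.I) ≠ Complex.exp (φ₂ * Complex.I) :=
    CHC_ne (by linarith) (by linarith) (by linarith) (by linarith) (by linarith)
  obtain ⟨C0, hC0, hb0⟩ := CHC_near_one h
  obtain ⟨C1, hC1, hb1⟩ := CHC_near_x (φ₁ := φ₁) (ψ := ψ) (φ₂ := φ₂) hk1 hk2 (CHC_unit φ₁)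
    (CHC_ne_one a0 (by linarith)) hk1.le (by linarith)
    (g := fun z => Real.exp (-chEll φ₁ ψ φ₂ κ₁ κ₂) *
      ‖z - Complex.exp (ψ * Complex.I)‖ ^ (κ₁ + κ₂) * ‖z - Complex.exp (φ₂ * Complex.I)‖ ^ (-κ₂))
    ((continuousAt_const.mul (CHC_pw' _ _ (by linarith))).mul (CHC_pw nxy _))
    (fun z hz => by rw [CHE_size hk1 hk2 hz]; ring)
  obtain ⟨C2, hC2, hb2⟩ := CHC_near_x (φ₁ := φ₁) (ψ := ψ) (φ₂ := φ₂) hk1 hk2 (CHC_unit φ₂)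
    (CHC_ne_one (by linarith) (by linarith)) hk2.le (by linarith)
    (g := fun z => Real.exp (-chEll φ₁ ψ φ₂ κ₁ κ₂) *
      ‖z - Complex.exp (ψ * Complex.I)‖ ^ (κ₁ + κ₂) * ‖z - Complex.exp (φ₁ * Complex.I)‖ ^ (-κ₁))
    ((continuousAt_const.mul (CHC_pw' _ _ (by linarith))).mul (CHC_pw nxy.symm _))
    (fun z hz => by rw [CHE_size hk1 hk2 hz])
  obtain ⟨C3, hC3, hb3⟩ := CHC_near_x (φ₁ := φ₁) (ψ := ψ) (φ₂ := φ₂) hk1 hk2 (CHC_unit ψ)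
    (CHC_ne_one (by linarith) (by linarith)) le_rfl (by linarith)
    (g := fun z => Real.exp (-chEll φ₁ ψ φ₂ κ₁ κ₂) *
      ‖z - Complex.exp (ψ * Complex.I)‖ ^ (κ₁ + κ₂) *
      ‖z - Complex.exp (φ₁ * Complex.I)‖ ^ (-κ₁) * ‖z - Complex.exp (φ₂ * Complex.I)‖ ^ (-κ₂))
    (((continuousAt_const.mul (CHC_pw' _ _ (by linarith))).mul (CHC_pw nxu.symm _)).mul
      (CHC_pw nuy _))
    (fun z hz => by rw [CHE_size hk1 hk2 hz, neg_zero, Real.rpow_zero, mul_one])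
  have hup : ∀ {C : ℝ} {ζ : ℂ}, C ≤ C0 + C1 + C2 + C3 →
      (∀ᶠ z in 𝓝[ball (0 : ℂ) 1] ζ, ‖CHC_F φ₁ ψ φ₂ κ₁ κ₂ z‖ ≤ C * ‖z - ζ‖ ^ (-(κ₁ + κ₂))) →
      ∀ᶠ z in 𝓝[ball (0 : ℂ) 1] ζ, ‖CHC_F φ₁ ψ φ₂ κ₁ κ₂ z‖ ≤
        (C0 + C1 + C2 + C3) * ‖z - ζ‖ ^ (-(κ₁ + κ₂)) := by
    intro C ζ hC hb
    filter_upwards [hb] with z hz
    exact hz.trans (mul_le_mul_of_nonneg_right hC (Real.rpow_nonneg (norm_nonneg _) _))
  refine MNP (CHC_F φ₁ ψ φ₂ κ₁ κ₂) hF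
    {1, Complex.exp (φ₁ * Complex.I), Complex.exp (ψ * Complex.I), Complex.exp (φ₂ * Complex.I)}
    (κ₁ + κ₂) (C0 + C1 + C2 + C3) (by linarith) h.ks ?_ ?_ z hz
  · intro ζ hζ hζE
    simp only [Finset.mem_insert, Finset.mem_singleton, not_or] at hζE
    obtain ⟨e1, e2, e3, e4⟩ := hζE
    constructor
    · have hL := (CHE_Lam_an (κ₁ := κ₁) (κ₂ := κ₂) hζ.le e2 e3 e4).1.continuousAt
      exact (CHC_J_cont ψ e1).mul (continuousAt_const.sub hL.cexp)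
    · have harg : Complex.exp (ζ.arg * Complex.I) = ζ := by
        have := Complex.norm_mul_exp_arg_mul_I ζ
        rwa [hζ, Complex.ofReal_one, one_mul] at this
      obtain ⟨θ, hθ, hθe⟩ : ∃ θ ∈ Ioo 0 (2 * π), Complex.exp (θ * Complex.I) = ζ := by
        have g1 := Complex.neg_pi_lt_arg ζ
        have g2 := Complex.arg_le_pi ζ
        rcases lt_trichotomy ζ.arg 0 with g | g | g
        · refine ⟨ζ.arg + 2 * π, ⟨by linarith, by linarith⟩, ?_⟩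
          push_cast
          rw [add_mul, Complex.exp_add, Complex.exp_two_pi_mul_I, mul_one, harg]
        · rw [g] at harg
          simp at harg
          exact absurd harg.symm e1
        · exact ⟨ζ.arg, ⟨g, by linarith⟩, harg⟩
      rw [← hθe] at e2 e3 e4 ⊢
      exact CHC_reg h hθ (fun hh => e2 (by rw [hh])) (fun hh => e3 (by rw [hh]))
        (fun hh => e4 (by rw [hh]))
  · intro ζ hζ
    simp only [Finset.mem_insert, Finset.mem_singleton] at hζ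
    rcases hζ with rfl | rfl | rfl | rfl
    · exact ⟨by simp, hup (by linarith) hb0⟩
    · exact ⟨CHC_unit _, hup (by linarith) hb1⟩
    · exact ⟨CHC_unit _, hup (by linarith) hb3⟩
    · exact ⟨CHC_unit _, hup (by linarith) hb2⟩

theorem CHC (h : ChordData φ₁ ψ φ₂ κ₁ κ₂) {z : ℂ} (hz : z ∈ ball (0 : ℂ) 1) :
    Complex.exp (chLam φ₁ ψ φ₂ κ₁ κ₂ z) ≠ 1 := by
  intro hexp
  have hpi := Real.pi_pos
  have hF : DifferentiableOn ℂ (CHC_F φ₁ ψ φ₂ κ₁ κ₂) (ball (0 : ℂ) 1) :=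
    (CHC_J_diff ψ).mul ((differentiableOn_const 1).sub CHE_Lam_diff.1.cexp)
  have hF0 : CHC_F φ₁ ψ φ₂ κ₁ κ₂ z = 0 := by
    unfold CHC_F
    rw [hexp, sub_self, mul_zero]
  have hmax : IsMaxOn (norm ∘ fun w => Complex.exp (-CHC_F φ₁ ψ φ₂ κ₁ κ₂ w)) (ball (0 : ℂ) 1) z := by
    intro w hw
    show ‖Complex.exp (-CHC_F φ₁ ψ φ₂ κ₁ κ₂ w)‖ ≤ ‖Complex.exp (-CHC_F φ₁ ψ φ₂ κ₁ κ₂ z)‖
    rw [hF0, neg_zero, Complex.exp_zero, norm_one, Complex.norm_exp, Complex.neg_re,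
      Real.exp_le_one_iff]
    linarith [CHC_pos h hw]
  have heq := Complex.eqOn_of_isPreconnected_of_isMaxOn_norm
    (convex_ball (0 : ℂ) 1).isPreconnected isOpen_ball hF.neg.cexp hz hmax
  have h0 : (0 : ℂ) ∈ ball (0 : ℂ) 1 := mem_ball_self one_pos
  have h1 : Complex.exp (-CHC_F φ₁ ψ φ₂ κ₁ κ₂ 0) = Complex.exp (-CHC_F φ₁ ψ φ₂ κ₁ κ₂ z) := heq h0
  have h2 : ‖Complex.exp (-CHC_F φ₁ ψ φ₂ κ₁ κ₂ 0)‖ = 1 := by
    rw [h1, hF0, neg_zero, Complex.exp_zero, norm_one]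
  rw [Complex.norm_exp, Complex.neg_re, Real.exp_eq_one_iff] at h2
  have h3 : (CHC_F φ₁ ψ φ₂ κ₁ κ₂ 0).re =
      Real.sin (ψ / 2) * (1 - Real.exp (-chEll φ₁ ψ φ₂ κ₁ κ₂)) := by
    unfold CHC_F chJ
    rw [CHE_Lam_zero.1]
    have e1 : Complex.exp (-(chEll φ₁ ψ φ₂ κ₁ κ₂ : ℂ)) =
        ((Real.exp (-chEll φ₁ ψ φ₂ κ₁ κ₂) : ℝ) : ℂ) := by push_cast; rfl
    have e2 : Complex.exp (ψ / 2 * Complex.I) =
        (Real.cos (ψ / 2) : ℂ) + (Real.sin (ψ / 2) : ℂ) * Complex.I := by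
      rw [Complex.exp_mul_I]
      push_cast
      rfl
    rw [e1, e2, mul_zero, sub_zero, div_one, mul_one]
    generalize Real.exp (-chEll φ₁ ψ φ₂ κ₁ κ₂) = E
    generalize Real.sin (ψ / 2) = s'
    generalize Real.cos (ψ / 2) = c'
    simp only [Complex.mul_re, Complex.mul_im, Complex.neg_re, Complex.neg_im, Complex.ofReal_re,
      Complex.ofReal_im, Complex.I_re, Complex.I_im, Complex.sub_re, Complex.sub_im, Complex.one_re,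
      Complex.one_im, Complex.add_re, Complex.add_im]
    ring
  have hsin : 0 < Real.sin (ψ / 2) :=
    Real.sin_pos_of_pos_of_lt_pi (by linarith [h.h0, h.h1]) (by linarith [h.h2, h.h3])
  have hell : Real.exp (-chEll φ₁ ψ φ₂ κ₁ κ₂) < 1 := by
    rw [Real.exp_lt_one_iff]
    linarith [CHB_ell h]
  have : 0 < Real.sin (ψ / 2) * (1 - Real.exp (-chEll φ₁ ψ φ₂ κ₁ κ₂)) :=
    mul_pos hsin (by linarith)
  linarith

end

end Pool.H90.VK
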