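import Pool.Agent.H90.VK.Defs

/-!
# CHD : chord perturbations, definitions

`y = 1`, `x_j = e^{iφ_j}`, `u = e^{iψ}`, `0 < φ₁ < ψ < φ₂ < 2π`, `κ = κ₁ + κ₂ < 1`, with
`κ ψ = κ₁ φ₁ + κ₂ φ₂` and `κ cot(ψ/2) = κ₁ cot(φ₁/2) + κ₂ cot(φ₂/2)`, that is, the point `(ψ, cot(ψ/2))` lies
on the chord from `(φ₁, cot(φ₁/2))` to `(φ₂, cot(φ₂/2))`.

`chLam z = κ log(1 - conj u z) - κ₁ log(1 - conj x₁ z) - κ₂ log(1 - conj x₂ z) - ℓ`, `chLam 1 = 0`.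
-/

open MeasureTheory Set Filter Topology Metric
open scoped Real ENNReal ComplexConjugate

namespace Pool.H90.VK

noncomputable section

structure ChordData (φ₁ ψ φ₂ κ₁ κ₂ : ℝ) : Prop where
  h0 : 0 < φ₁
  h1 : φ₁ < ψ
  h2 : ψ < φ₂
  h3 : φ₂ < 2 * π
  k1 : 0 < κ₁
  k2 : 0 < κ₂
  ks : κ₁ + κ₂ < 1
  mom : (κ₁ + κ₂) * ψ = κ₁ * φ₁ + κ₂ * φ₂
  cot : (κ₁ + κ₂) * Real.cot (ψ / 2) = κ₁ * Real.cot (φ₁ / 2) + κ₂ * Real.cot (φ₂ / 2)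

/-- `log (1 - e^{-iφ} z)` -/
def chL (φ : ℝ) (z : ℂ) : ℂ := Complex.log (1 - Complex.exp (-(φ * Complex.I)) * z)

/-- `(e^{iφ} + z) / (e^{iφ} - z)` -/
def chK (φ : ℝ) (z : ℂ) : ℂ := (Complex.exp (φ * Complex.I) + z) / (Complex.exp (φ * Complex.I) - z)

/-- the constant `ℓ` -/
def chEll (φ₁ ψ φ₂ κ₁ κ₂ : ℝ) : ℝ :=
  (κ₁ + κ₂) * Real.log (2 * Real.sin (ψ / 2)) - κ₁ * Real.log (2 * Real.sin (φ₁ / 2)) -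
    κ₂ * Real.log (2 * Real.sin (φ₂ / 2))

/-- the function `Λ` -/
def chLam (φ₁ ψ φ₂ κ₁ κ₂ : ℝ) (z : ℂ) : ℂ :=
  (κ₁ + κ₂) * chL ψ z - κ₁ * chL φ₁ z - κ₂ * chL φ₂ z - chEll φ₁ ψ φ₂ κ₁ κ₂

/-- `z Λ'(z)` -/
def chDL (φ₁ ψ φ₂ κ₁ κ₂ : ℝ) (z : ℂ) : ℂ :=
  (1 / 2) * (κ₁ * chK φ₁ z + κ₂ * chK φ₂ z - (κ₁ + κ₂) * chK ψ z)

/-- real part of `Λ(e^{iθ})` -/
def chRho (φ₁ ψ φ₂ κ₁ κ₂ : ℝ) (θ : ℝ) : ℝ :=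
  (κ₁ + κ₂) * Real.log (2 * |Real.sin ((θ - ψ) / 2)|) - κ₁ * Real.log (2 * |Real.sin ((θ - φ₁) / 2)|) -
    κ₂ * Real.log (2 * |Real.sin ((θ - φ₂) / 2)|) - chEll φ₁ ψ φ₂ κ₁ κ₂

/-- imaginary part of `Λ(e^{iθ})` -/
def chPsi (φ₁ ψ φ₂ κ₁ κ₂ : ℝ) (θ : ℝ) : ℝ :=
  if θ < φ₁ then 0 else if θ < ψ then π * κ₁ else if θ < φ₂ then -(π * κ₂) else 0

/-- derivative of `chRho` -/
def chDR (φ₁ ψ φ₂ κ₁ κ₂ : ℝ) (θ : ℝ) : ℝ :=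
  (1 / 2) * ((κ₁ + κ₂) * Real.cot ((θ - ψ) / 2) - κ₁ * Real.cot ((θ - φ₁) / 2) -
    κ₂ * Real.cot ((θ - φ₂) / 2))

/-- the multiplier `J`, purely imaginary on the circle, with a pole at 1 and a zero at `e^{iψ}` -/
def chJ (ψ : ℝ) (z : ℂ) : ℂ :=
  -Complex.I * Complex.exp (ψ / 2 * Complex.I) * (1 - Complex.exp (-(ψ * Complex.I)) * z) / (1 - z)

/-- `R = K₁ - (κ/2) K_u + z Λ' / (e^Λ - 1)` -/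
def chR (φ₁ ψ φ₂ κ₁ κ₂ : ℝ) (z : ℂ) : ℂ :=
  (1 + z) / (1 - z) - (κ₁ + κ₂) / 2 * chK ψ z +
    chDL φ₁ ψ φ₂ κ₁ κ₂ z / (Complex.exp (chLam φ₁ ψ φ₂ κ₁ κ₂ z) - 1)

end

end Pool.H90.VK
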