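import Pool.Agent.H90.VK.CHD

/-!
# CHE : the chord functions inside the disc and at regular boundary points

For `x = e^{iφ}` and `|z| < 1`, `1 - e^{-iφ} z` has positive real part. `chL φ` is analytic on the disc with
`z (chL φ)'(z) = - z/(x - z) = -(1/2)(chK φ z - 1)`. So `z Λ'(z) = chDL z` (the constants cancel because
`κ = κ₁ + κ₂`). `Re chL φ z = log |x - z|` (`|1 - e^{-iφ} z| = |x - z|`).
At a point `ζ` of the circle, `ζ ≠ x`: `1 - e^{-iφ} ζ` has positive real part (it is `1 - w`, `|w| = 1`, `w ≠ 1`), so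
`chL φ`, `chK φ` are continuous (even analytic) there.
-/

open MeasureTheory Set Filter Topology Metric
open scoped Real ENNReal ComplexConjugate

namespace Pool.H90.VK

noncomputable section

variable {φ₁ ψ φ₂ κ₁ κ₂ : ℝ}

private lemma CHE_norm_exp (φ : ℝ) : ‖Complex.exp (-(φ * Complex.I))‖ = 1 := by
  have h : (-(φ * Complex.I) : ℂ) = ((-φ : ℝ) : ℂ) * Complex.I := by push_cast; ring
  rw [h, Complex.norm_exp_ofReal_mul_I]

private lemma CHE_mul_exp (φ : ℝ) :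
    Complex.exp (-(φ * Complex.I)) * Complex.exp (φ * Complex.I) = 1 := by
  rw [← Complex.exp_add, neg_add_cancel, Complex.exp_zero]

theorem CHE_re_pos {φ : ℝ} {z : ℂ} (hz : ‖z‖ ≤ 1) (hne : z ≠ Complex.exp (φ * Complex.I)) :
    0 < (1 - Complex.exp (-(φ * Complex.I)) * z).re := by
  set w := Complex.exp (-(φ * Complex.I)) * z with hw
  have hw1 : ‖w‖ ≤ 1 := by rw [hw, norm_mul, CHE_norm_exp, one_mul]; exact hz
  have hwne : w ≠ 1 := by
    intro h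
    apply hne
    have h2 : Complex.exp (φ * Complex.I) * w = z := by
      rw [hw, ← mul_assoc, mul_comm (Complex.exp (φ * Complex.I)), CHE_mul_exp, one_mul]
    rw [← h2, h, mul_one]
  have hre : w.re ≤ 1 := (Complex.re_le_norm w).trans hw1
  rw [Complex.sub_re, Complex.one_re]
  rcases lt_or_eq_of_le hre with h | h
  · linarith
  · exfalso
    apply hwne
    have h3 : w.re * w.re + w.im * w.im ≤ 1 := by
      have h4 : Complex.normSq w = ‖w‖ ^ 2 := Complex.normSq_eq_norm_sq w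
      rw [Complex.normSq_apply] at h4
      rw [h4]
      exact pow_le_one₀ (norm_nonneg _) hw1
    rw [h] at h3
    have h5 : w.im = 0 := by nlinarith
    exact Complex.ext (by simpa using h) (by simpa using h5)

theorem CHE_norm (φ : ℝ) (z : ℂ) :
    ‖1 - Complex.exp (-(φ * Complex.I)) * z‖ = ‖z - Complex.exp (φ * Complex.I)‖ := by
  have h : 1 - Complex.exp (-(φ * Complex.I)) * z =
      Complex.exp (-(φ * Complex.I)) * (Complex.exp (φ * Complex.I) - z) := by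
    rw [mul_sub, CHE_mul_exp]
  rw [h, norm_mul, CHE_norm_exp, one_mul, norm_sub_rev]

theorem CHE_an {φ : ℝ} {z : ℂ} (hz : ‖z‖ ≤ 1) (hne : z ≠ Complex.exp (φ * Complex.I)) :
    AnalyticAt ℂ (chL φ) z ∧ AnalyticAt ℂ (chK φ) z := by
  constructor
  · refine AnalyticAt.clog (by fun_prop) ?_
    exact Or.inl (CHE_re_pos hz hne)
  · refine AnalyticAt.div (by fun_prop) (by fun_prop) ?_
    exact sub_ne_zero.2 hne.symm

theorem CHE_deriv {φ : ℝ} {z : ℂ} (hz : ‖z‖ ≤ 1) (hne : z ≠ Complex.exp (φ * Complex.I)) :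
    z * deriv (chL φ) z = -(1 / 2) * (chK φ z - 1) := by
  have hslit : 1 - Complex.exp (-(φ * Complex.I)) * z ∈ Complex.slitPlane :=
    Or.inl (CHE_re_pos hz hne)
  have h1 : HasDerivAt (fun z : ℂ => 1 - Complex.exp (-(φ * Complex.I)) * z)
      (-(Complex.exp (-(φ * Complex.I)))) z := by
    have := ((hasDerivAt_id z).const_mul (Complex.exp (-(φ * Complex.I)))).const_sub 1
    simpa using this
  have h2 : HasDerivAt (chL φ) (-(Complex.exp (-(φ * Complex.I))) /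
      (1 - Complex.exp (-(φ * Complex.I)) * z)) z := h1.clog hslit
  rw [h2.deriv]
  unfold chK
  have hx : Complex.exp (φ * Complex.I) - z ≠ 0 := sub_ne_zero.2 hne.symm
  have hd : 1 - Complex.exp (-(φ * Complex.I)) * z ≠ 0 := Complex.slitPlane_ne_zero hslit
  have hm := CHE_mul_exp φ
  have ha : Complex.exp (-(φ * Complex.I)) ≠ 0 := Complex.exp_ne_zero _
  generalize Complex.exp (-(φ * Complex.I)) = a at *
  generalize Complex.exp (φ * Complex.I) = x at *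
  have hd' : 1 - a * z = a * (x - z) := by rw [mul_sub, hm]
  rw [hd', neg_div, div_mul_eq_div_div, div_self ha]
  field_simp
  ring

/-- all three exceptional points are different from `z` -/
theorem CHE_Lam_an {z : ℂ} (hz : ‖z‖ ≤ 1) (h1 : z ≠ Complex.exp (φ₁ * Complex.I))
    (h2 : z ≠ Complex.exp (ψ * Complex.I)) (h3 : z ≠ Complex.exp (φ₂ * Complex.I)) :
    AnalyticAt ℂ (chLam φ₁ ψ φ₂ κ₁ κ₂) z ∧ AnalyticAt ℂ (chDL φ₁ ψ φ₂ κ₁ κ₂) z ∧
      z * deriv (chLam φ₁ ψ φ₂ κ₁ κ₂) z = chDL φ₁ ψ φ₂ κ₁ κ₂ z := by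
  obtain ⟨a1, b1⟩ := CHE_an hz h1
  obtain ⟨a2, b2⟩ := CHE_an hz h2
  obtain ⟨a3, b3⟩ := CHE_an hz h3
  refine ⟨?_, ?_, ?_⟩
  · exact (((analyticAt_const.mul a2).sub (analyticAt_const.mul a1)).sub
      (analyticAt_const.mul a3)).sub analyticAt_const
  · exact analyticAt_const.mul (((analyticAt_const.mul b1).add (analyticAt_const.mul b3)).sub
      (analyticAt_const.mul b2))
  · have d1 := a1.differentiableAt.hasDerivAt
    have d2 := a2.differentiableAt.hasDerivAt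
    have d3 := a3.differentiableAt.hasDerivAt
    have hd : HasDerivAt (chLam φ₁ ψ φ₂ κ₁ κ₂)
        ((κ₁ + κ₂) * deriv (chL ψ) z - κ₁ * deriv (chL φ₁) z - κ₂ * deriv (chL φ₂) z) z :=
      (((d2.const_mul _).sub (d1.const_mul _)).sub (d3.const_mul _)).sub_const _
    rw [hd.deriv]
    have e1 := CHE_deriv hz h1
    have e2 := CHE_deriv hz h2
    have e3 := CHE_deriv hz h3
    unfold chDL
    linear_combination ((κ₁ : ℂ) + κ₂) * e2 - κ₁ * e1 - κ₂ * e3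

private lemma CHE_ne {z : ℂ} (hz : z ∈ ball (0 : ℂ) 1) (φ : ℝ) : z ≠ Complex.exp (φ * Complex.I) := by
  rintro rfl
  rw [mem_ball_zero_iff, Complex.norm_exp_ofReal_mul_I] at hz
  exact lt_irrefl _ hz

theorem CHE_Lam_diff : DifferentiableOn ℂ (chLam φ₁ ψ φ₂ κ₁ κ₂) (ball (0 : ℂ) 1) ∧
    DifferentiableOn ℂ (chDL φ₁ ψ φ₂ κ₁ κ₂) (ball (0 : ℂ) 1) ∧
    ∀ φ : ℝ, DifferentiableOn ℂ (chK φ) (ball (0 : ℂ) 1) := by
  refine ⟨fun z hz => ?_, fun z hz => ?_, fun φ z hz => ?_⟩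
  · exact (CHE_Lam_an (mem_ball_zero_iff.1 hz).le (CHE_ne hz _) (CHE_ne hz _)
      (CHE_ne hz _)).1.differentiableAt.differentiableWithinAt
  · exact (CHE_Lam_an (mem_ball_zero_iff.1 hz).le (CHE_ne hz _) (CHE_ne hz _)
      (CHE_ne hz _)).2.1.differentiableAt.differentiableWithinAt
  · exact (CHE_an (mem_ball_zero_iff.1 hz).le (CHE_ne hz _)).2.differentiableAt.differentiableWithinAt

theorem CHE_Lam_zero : chLam φ₁ ψ φ₂ κ₁ κ₂ 0 = -(chEll φ₁ ψ φ₂ κ₁ κ₂ : ℂ) ∧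
    chDL φ₁ ψ φ₂ κ₁ κ₂ 0 = 0 := by
  constructor
  · unfold chLam chL
    simp
  · unfold chDL chK
    have h : ∀ φ : ℝ, (Complex.exp (φ * Complex.I) + 0) / (Complex.exp (φ * Complex.I) - 0) = 1 := by
      intro φ
      rw [add_zero, sub_zero, div_self (Complex.exp_ne_zero _)]
    rw [h, h, h]
    ring

private lemma CHE_reL (φ : ℝ) (z : ℂ) :
    (chL φ z).re = Real.log ‖z - Complex.exp (φ * Complex.I)‖ := by
  unfold chL
  rw [Complex.log_re, CHE_norm]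

/-- size of `e^Λ` on the disc -/
theorem CHE_size (h1 : 0 < κ₁) (h2 : 0 < κ₂) {z : ℂ} (hz : z ∈ ball (0 : ℂ) 1) :
    ‖Complex.exp (chLam φ₁ ψ φ₂ κ₁ κ₂ z)‖ = Real.exp (-chEll φ₁ ψ φ₂ κ₁ κ₂) *
      ‖z - Complex.exp (ψ * Complex.I)‖ ^ (κ₁ + κ₂) *
      ‖z - Complex.exp (φ₁ * Complex.I)‖ ^ (-κ₁) * ‖z - Complex.exp (φ₂ * Complex.I)‖ ^ (-κ₂) := by
  have hpos : ∀ φ : ℝ, 0 < ‖z - Complex.exp (φ * Complex.I)‖ := fun φ =>
    norm_pos_iff.2 (sub_ne_zero.2 (CHE_ne hz φ))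
  rw [Complex.norm_exp, Real.rpow_def_of_pos (hpos ψ), Real.rpow_def_of_pos (hpos φ₁),
    Real.rpow_def_of_pos (hpos φ₂), ← Real.exp_add, ← Real.exp_add, ← Real.exp_add]
  congr 1
  unfold chLam
  have hre : ((κ₁ + κ₂) * chL ψ z - κ₁ * chL φ₁ z - κ₂ * chL φ₂ z - chEll φ₁ ψ φ₂ κ₁ κ₂ : ℂ).re =
      (κ₁ + κ₂) * (chL ψ z).re - κ₁ * (chL φ₁ z).re - κ₂ * (chL φ₂ z).re - chEll φ₁ ψ φ₂ κ₁ κ₂ := by
    have e : ((κ₁ : ℂ) + κ₂) = ((κ₁ + κ₂ : ℝ) : ℂ) := by push_cast; ring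
    rw [e]
    simp only [Complex.sub_re, Complex.re_ofReal_mul, Complex.ofReal_re]
  rw [hre, CHE_reL, CHE_reL, CHE_reL]
  ring

end

end Pool.H90.VK
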