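import Pool.Agent.H90.VK.CHA

/-!
# CHY : `chR` is bounded near 1

`Λ` and `chDL` are analytic at `1` (`CHE_Lam_an`), `Λ(1) = 0` (`CHA_one`), `z Λ' = chDL`.
`chDL 1 = 0`: `chK φ 1 = -i cot(φ/2)` (`CHA_K` with `θ = 0`), and the hypothesis `cot`.
`d₁ := chDL'(1) ≠ 0`: `(chK φ)'(z) = 2x/(x-z)²`, at `z = 1`: `2x/(x-1)² = -1/(2 sin²(φ/2))`
(`(e^{iφ}-1)² = -4 e^{iφ} sin²(φ/2)`), so
`4 d₁ = κ/sin²(ψ/2) - κ₁/sin²(φ₁/2) - κ₂/sin²(φ₂/2) = κ c² - κ₁ c₁² - κ₂ c₂²` (`c = cot(ψ/2)`, ...;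
`1/sin² = 1 + cot²`), which is `< 0` by strict convexity of the square, `κ c = κ₁c₁ + κ₂c₂`, `c₁ ≠ c₂`
(`c₁ - c₂ = sin((φ₂-φ₁)/2)/(sin(φ₁/2) sin(φ₂/2)) > 0`).
So near 1: `chDL z = (z-1) d(z)`, `e^{Λ} - 1 = (z-1)² μ(z)`, with `d, μ` analytic at `1`, `d(1) = d₁`,
`μ(1) = d₁/2 ≠ 0` (`(e^Λ - 1)'' = Λ'' = d₁` at `1` as `Λ' = chDL/z`). Hence
`chR z = -(κ/2) chK ψ z + (d(z)/μ(z) - (1+z))/(z-1)` near `1`, `z ≠ 1`, and the numerator is analytic and vanishes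
at `1`. So `chR` is bounded near `1` (`z ≠ 1`).
(Mathlib: `dslope`, `AnalyticAt.dslope`-like facts, or `AnalyticAt.exists_eventuallyEq_pow_smul_nonzero_iff`.)
-/

open MeasureTheory Set Filter Topology Metric
open scoped Real ENNReal ComplexConjugate

namespace Pool.H90.VK

noncomputable section

variable {φ₁ ψ φ₂ κ₁ κ₂ : ℝ}

private theorem CHY_sub_one (φ : ℝ) :
    Complex.exp (φ * Complex.I) - 1 =
      2 * Complex.I * Complex.sin (φ / 2) * Complex.exp (φ / 2 * Complex.I) := by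
  have h1 : Complex.exp (φ * Complex.I) = Complex.exp (φ / 2 * Complex.I) * Complex.exp (φ / 2 * Complex.I) := by
    rw [← Complex.exp_add]; congr 1; ring
  have h2 : Complex.exp (-(φ / 2) * Complex.I) * Complex.exp (φ / 2 * Complex.I) = 1 := by
    rw [← Complex.exp_add]
    have : -((φ : ℂ) / 2) * Complex.I + φ / 2 * Complex.I = 0 := by ring
    rw [this, Complex.exp_zero]
  rw [Complex.sin, h1]
  linear_combination (-(Complex.I ^ 2)) * h2 + (Complex.exp (φ / 2 * Complex.I) * Complex.exp (φ / 2 * Complex.I) - 1) * Complex.I_sq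

private theorem CHY_quot {φ : ℝ} (hs : Real.sin (φ / 2) ≠ 0) :
    Complex.exp (φ * Complex.I) / (Complex.exp (φ * Complex.I) - 1) ^ 2 =
      -(1 / 4) * (1 + (Real.cot (φ / 2) : ℂ) ^ 2) := by
  have h1 : Complex.exp (φ * Complex.I) = Complex.exp (φ / 2 * Complex.I) * Complex.exp (φ / 2 * Complex.I) := by
    rw [← Complex.exp_add]; congr 1; ring
  have hs' : Complex.sin ((φ : ℂ) / 2) ≠ 0 := by
    have : ((Real.sin (φ / 2) : ℝ) : ℂ) ≠ 0 := by exact_mod_cast hs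
    simpa using this
  have hc : (Real.cot (φ / 2) : ℂ) = Complex.cos (φ / 2) / Complex.sin (φ / 2) := by
    rw [Real.cot_eq_cos_div_sin]; push_cast; rfl
  have hsc := Complex.sin_sq_add_cos_sq ((φ : ℂ) / 2)
  rw [CHY_sub_one, hc, h1]
  have he := Complex.exp_ne_zero ((φ : ℂ) / 2 * Complex.I)
  field_simp
  rw [Complex.I_sq]
  linear_combination (-4 : ℂ) * hsc

private theorem CHY_an_dslope {f : ℂ → ℂ} (hf : AnalyticAt ℂ f 1) : AnalyticAt ℂ (dslope f 1) 1 := by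
  obtain ⟨p, hp⟩ := hf
  exact ⟨_, hp.has_fpower_series_dslope_fslope⟩

private theorem CHY_core {L D : ℂ → ℂ} (hL : AnalyticAt ℂ L 1) (hD : AnalyticAt ℂ D 1)
    (hL1 : L 1 = 0) (hD1 : D 1 = 0) (hd : deriv D 1 ≠ 0)
    (hLD : ∀ᶠ z in 𝓝 (1 : ℂ), z * deriv L z = D z) :
    ∃ C : ℝ, ∀ᶠ z in 𝓝[≠] (1 : ℂ), ‖(1 + z) / (1 - z) + D z / (Complex.exp (L z) - 1)‖ ≤ C := by
  set E : ℂ → ℂ := fun z => Complex.exp (L z) - 1 with hE
  have hEan : AnalyticAt ℂ E 1 := hL.cexp.sub analyticAt_const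
  have hE1 : E 1 = 0 := by simp [hE, hL1]
  set d := dslope D 1 with hdd
  set e := dslope E 1 with hee
  set μ := dslope e 1 with hmm
  have hdan : AnalyticAt ℂ d 1 := CHY_an_dslope hD
  have hean : AnalyticAt ℂ e 1 := CHY_an_dslope hEan
  have hman : AnalyticAt ℂ μ 1 := CHY_an_dslope hean
  have hDd : ∀ z, D z = (z - 1) * d z := by
    intro z
    have := sub_smul_dslope D 1 z
    rw [hD1, sub_zero, smul_eq_mul] at this
    exact this.symm
  have hLev : ∀ᶠ z in 𝓝 (1 : ℂ), AnalyticAt ℂ L z := hL.eventually_analyticAt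
  have hE' : ∀ᶠ z in 𝓝 (1 : ℂ), deriv E z = deriv L z * Complex.exp (L z) := by
    filter_upwards [hLev] with z hz
    have h1 := (hz.differentiableAt.hasDerivAt.cexp).sub_const 1
    rw [mul_comm]
    exact h1.deriv
  have hLp1 : deriv L 1 = 0 := by
    have := hLD.self_of_nhds
    rw [one_mul, hD1] at this
    exact this
  have he1 : e 1 = 0 := by
    rw [hee, dslope_same, hE'.self_of_nhds, hLp1, zero_mul]
  have hEe : ∀ z, E z = (z - 1) * e z := by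
    intro z
    have := sub_smul_dslope E 1 z
    rw [hE1, sub_zero, smul_eq_mul] at this
    exact this.symm
  have hem : ∀ z, e z = (z - 1) * μ z := by
    intro z
    have := sub_smul_dslope e 1 z
    rw [he1, sub_zero, smul_eq_mul] at this
    exact this.symm
  have hEm : ∀ z, E z = (z - 1) ^ 2 * μ z := by
    intro z
    rw [hEe, hem]; ring
  have hd1 : d 1 ≠ 0 := by rw [hdd, dslope_same]; exact hd
  have hEder : ∀ᶠ z in 𝓝 (1 : ℂ), deriv E z = 2 * (z - 1) * μ z + (z - 1) ^ 2 * deriv μ z := by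
    filter_upwards [hman.eventually_analyticAt] with z hz
    have h1 : HasDerivAt (fun z : ℂ => (z - 1) ^ 2) (2 * (z - 1)) z := by
      simpa using ((hasDerivAt_id z).sub_const (1 : ℂ)).fun_pow 2
    have h2 := h1.mul hz.differentiableAt.hasDerivAt
    have h3 : E = (fun z : ℂ => (z - 1) ^ 2) * μ := by
      funext w; rw [hEm]; rfl
    rw [h3]
    exact h2.deriv
  have hkey : ∀ᶠ z in 𝓝[≠] (1 : ℂ), z * (2 * μ z + (z - 1) * deriv μ z) = d z * Complex.exp (L z) := by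
    rw [eventually_nhdsWithin_iff]
    filter_upwards [hEder, hE', hLD] with z h1 h2 h3 hz
    have hz' : z - 1 ≠ 0 := sub_ne_zero.mpr hz
    have h4 : (z - 1) * (z * (2 * μ z + (z - 1) * deriv μ z)) = (z - 1) * (d z * Complex.exp (L z)) := by
      have h5 : z * deriv E z = D z * Complex.exp (L z) := by
        rw [h2, ← mul_assoc, h3]
      rw [h1, hDd] at h5
      linear_combination h5
    exact mul_left_cancel₀ hz' h4
  have hm1 : 2 * μ 1 = d 1 := by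
    have hc1 : ContinuousAt (fun z : ℂ => z * (2 * μ z + (z - 1) * deriv μ z)) 1 := by
      have := hman.deriv.continuousAt
      have := hman.continuousAt
      fun_prop
    have hc2 : ContinuousAt (fun z : ℂ => d z * Complex.exp (L z)) 1 :=
      hdan.continuousAt.mul hL.cexp.continuousAt
    have h1 : Tendsto (fun z : ℂ => z * (2 * μ z + (z - 1) * deriv μ z)) (𝓝[≠] 1)
        (𝓝 (1 * (2 * μ 1 + (1 - 1) * deriv μ 1))) := hc1.tendsto.mono_left nhdsWithin_le_nhds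
    have h2 : Tendsto (fun z : ℂ => z * (2 * μ z + (z - 1) * deriv μ z)) (𝓝[≠] 1)
        (𝓝 (d 1 * Complex.exp (L 1))) := by
      refine (hc2.tendsto.mono_left nhdsWithin_le_nhds).congr' ?_
      filter_upwards [hkey] with z hz using hz.symm
    have h3 := tendsto_nhds_unique h1 h2
    rw [hL1, Complex.exp_zero] at h3
    linear_combination h3
  have hm0 : μ 1 ≠ 0 := by
    intro h0
    rw [h0, mul_zero] at hm1
    exact hd1 hm1.symm
  set N : ℂ → ℂ := fun z => d z - (1 + z) * μ z with hN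
  have hNan : AnalyticAt ℂ N 1 :=
    hdan.sub ((analyticAt_const.add analyticAt_id).mul hman)
  have hN1 : N 1 = 0 := by
    simp only [hN]
    linear_combination -hm1
  set n := dslope N 1 with hnn
  have hnan : AnalyticAt ℂ n 1 := CHY_an_dslope hNan
  have hNn : ∀ z, N z = (z - 1) * n z := by
    intro z
    have := sub_smul_dslope N 1 z
    rw [hN1, sub_zero, smul_eq_mul] at this
    exact this.symm
  have hcont : ContinuousAt (fun z => n z / μ z) 1 := hnan.continuousAt.div hman.continuousAt hm0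
  have hbd : ∀ᶠ z in 𝓝 (1 : ℂ), ‖n z / μ z‖ < ‖n 1 / μ 1‖ + 1 :=
    hcont.norm.eventually (gt_mem_nhds (lt_add_one _))
  have hmne : ∀ᶠ z in 𝓝 (1 : ℂ), μ z ≠ 0 := hman.continuousAt.eventually_ne hm0
  refine ⟨‖n 1 / μ 1‖ + 1, ?_⟩
  rw [eventually_nhdsWithin_iff]
  filter_upwards [hbd, hmne] with z h1 h2 hz
  have hz' : z - 1 ≠ 0 := sub_ne_zero.mpr hz
  have hz'' : 1 - z ≠ 0 := by
    intro h; apply hz'; linear_combination -h
  have heq : (1 + z) / (1 - z) + D z / (Complex.exp (L z) - 1) = n z / μ z := by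
    have h3 : Complex.exp (L z) - 1 = (z - 1) ^ 2 * μ z := hEm z
    have h4 : (z - 1) * n z = d z - (1 + z) * μ z := (hNn z).symm
    rw [h3, hDd z]
    have h5 : (1 + z) / (1 - z) = -(1 + z) / (z - 1) := by
      rw [div_eq_div_iff hz'' hz']; ring
    rw [h5]
    field_simp
    linear_combination -h4
  rw [heq]
  exact h1.le

private theorem CHY_sin_pos {φ : ℝ} (h0 : 0 < φ) (h1 : φ < 2 * π) : 0 < Real.sin (φ / 2) :=
  Real.sin_pos_of_pos_of_lt_pi (by linarith) (by linarith)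

private theorem CHY_exp_ne {φ : ℝ} (h0 : 0 < φ) (h1 : φ < 2 * π) :
    Complex.exp (φ * Complex.I) - 1 ≠ 0 := by
  rw [CHY_sub_one]
  have hs : Complex.sin ((φ : ℂ) / 2) ≠ 0 := by
    have : ((Real.sin (φ / 2) : ℝ) : ℂ) ≠ 0 := by exact_mod_cast (CHY_sin_pos h0 h1).ne'
    simpa using this
  exact mul_ne_zero (mul_ne_zero (mul_ne_zero two_ne_zero Complex.I_ne_zero) hs)
    (Complex.exp_ne_zero _)

private theorem CHY_K_deriv {φ : ℝ} (h0 : 0 < φ) (h1 : φ < 2 * π) :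
    HasDerivAt (chK φ) (-(1 / 2) * (1 + (Real.cot (φ / 2) : ℂ) ^ 2)) 1 := by
  have hx := CHY_exp_ne h0 h1
  have h := ((hasDerivAt_id (1 : ℂ)).const_add (Complex.exp (φ * Complex.I))).div
    ((hasDerivAt_id (1 : ℂ)).const_sub (Complex.exp (φ * Complex.I))) hx
  have hq := CHY_quot (CHY_sin_pos h0 h1).ne'
  have he : (1 * (Complex.exp (φ * Complex.I) - id 1) -
      (Complex.exp (φ * Complex.I) + id 1) * -1) / (Complex.exp (φ * Complex.I) - id 1) ^ 2 =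
      -(1 / 2) * (1 + (Real.cot (φ / 2) : ℂ) ^ 2) := by
    simp only [id]
    have : (1 * (Complex.exp (φ * Complex.I) - 1) -
      (Complex.exp (φ * Complex.I) + 1) * -1) / (Complex.exp (φ * Complex.I) - 1) ^ 2 =
      2 * (Complex.exp (φ * Complex.I) / (Complex.exp (φ * Complex.I) - 1) ^ 2) := by
      field_simp; ring
    rw [this, hq]; ring
  rw [he] at h
  exact h

private theorem CHY_K_one {φ : ℝ} (h0 : 0 < φ) (h1 : φ < 2 * π) :
    chK φ 1 = -(Real.cot (φ / 2) : ℂ) * Complex.I := by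
  have hne : Real.sin ((0 - φ) / 2) ≠ 0 := by
    rw [zero_sub, neg_div, Real.sin_neg]
    exact neg_ne_zero.mpr (CHY_sin_pos h0 h1).ne'
  have h := CHA_K hne
  rw [Complex.ofReal_zero, zero_mul, Complex.exp_zero] at h
  rw [h, zero_sub, neg_div]
  have : Real.cot (-(φ / 2)) = -Real.cot (φ / 2) := by
    rw [Real.cot_eq_cos_div_sin, Real.cot_eq_cos_div_sin, Real.sin_neg, Real.cos_neg, div_neg]
  rw [this]; push_cast; ring

private theorem CHY_cot_ne (h : ChordData φ₁ ψ φ₂ κ₁ κ₂) :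
    Real.cot (φ₁ / 2) ≠ Real.cot (φ₂ / 2) := by
  have a1 := h.h0
  have a2 := h.h1
  have a3 := h.h2
  have a4 := h.h3
  have s1 := CHY_sin_pos a1 (by linarith)
  have s2 := CHY_sin_pos (by linarith : 0 < φ₂) a4
  have s3 : 0 < Real.sin (φ₂ / 2 - φ₁ / 2) :=
    Real.sin_pos_of_pos_of_lt_pi (by linarith) (by linarith)
  rw [Real.sin_sub] at s3
  intro heq
  rw [Real.cot_eq_cos_div_sin, Real.cot_eq_cos_div_sin, div_eq_div_iff s1.ne' s2.ne'] at heq
  linarith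

theorem CHY (h : ChordData φ₁ ψ φ₂ κ₁ κ₂) :
    ∃ C : ℝ, ∀ᶠ z in 𝓝[≠] (1 : ℂ), ‖chR φ₁ ψ φ₂ κ₁ κ₂ z‖ ≤ C := by
  have a1 := h.h0
  have a2 := h.h1
  have a3 := h.h2
  have a4 := h.h3
  have k1 := h.k1
  have k2 := h.k2
  have e1 : (1 : ℂ) ≠ Complex.exp (φ₁ * Complex.I) := by
    intro hh; exact CHY_exp_ne a1 (by linarith) (by rw [← hh]; ring)
  have e2 : (1 : ℂ) ≠ Complex.exp (ψ * Complex.I) := by
    intro hh; exact CHY_exp_ne (by linarith : 0 < ψ) (by linarith) (by rw [← hh]; ring)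
  have e3 : (1 : ℂ) ≠ Complex.exp (φ₂ * Complex.I) := by
    intro hh; exact CHY_exp_ne (by linarith : 0 < φ₂) a4 (by rw [← hh]; ring)
  obtain ⟨hL, hD, -⟩ := CHE_Lam_an (κ₁ := κ₁) (κ₂ := κ₂) (by simp : ‖(1 : ℂ)‖ ≤ 1) e1 e2 e3
  have hL1 := CHA_one h
  have hD1 : chDL φ₁ ψ φ₂ κ₁ κ₂ 1 = 0 := by
    rw [chDL, CHY_K_one a1 (by linarith), CHY_K_one (by linarith : 0 < φ₂) a4,
      CHY_K_one (by linarith : 0 < ψ) (by linarith)]
    have hc : ((κ₁ + κ₂ : ℝ) : ℂ) * (Real.cot (ψ / 2) : ℂ) =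
        κ₁ * (Real.cot (φ₁ / 2) : ℂ) + κ₂ * (Real.cot (φ₂ / 2) : ℂ) := by
      exact_mod_cast h.cot
    rw [Complex.ofReal_add] at hc
    linear_combination (1 / 2 * Complex.I) * hc
  have hDd : HasDerivAt (chDL φ₁ ψ φ₂ κ₁ κ₂)
      ((1 / 2) * (κ₁ * (-(1 / 2) * (1 + (Real.cot (φ₁ / 2) : ℂ) ^ 2)) +
        κ₂ * (-(1 / 2) * (1 + (Real.cot (φ₂ / 2) : ℂ) ^ 2)) -
        (κ₁ + κ₂) * (-(1 / 2) * (1 + (Real.cot (ψ / 2) : ℂ) ^ 2)))) 1 := by
    have h1 := (CHY_K_deriv a1 (by linarith)).const_mul (κ₁ : ℂ)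
    have h2 := (CHY_K_deriv (by linarith : 0 < φ₂) a4).const_mul (κ₂ : ℂ)
    have h3 := (CHY_K_deriv (by linarith : 0 < ψ) (by linarith)).const_mul ((κ₁ : ℂ) + κ₂)
    exact ((h1.add h2).sub h3).const_mul (1 / 2)
  have hd0 : deriv (chDL φ₁ ψ φ₂ κ₁ κ₂) 1 ≠ 0 := by
    rw [hDd.deriv]
    have hc := h.cot
    have hne := CHY_cot_ne h
    generalize Real.cot (φ₁ / 2) = c1 at hc hne ⊢
    generalize Real.cot (φ₂ / 2) = c2 at hc hne ⊢
    generalize Real.cot (ψ / 2) = c at hc ⊢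
    have hreal : (1 / 2) * (κ₁ * (-(1 / 2) * (1 + c1 ^ 2)) +
        κ₂ * (-(1 / 2) * (1 + c2 ^ 2)) -
        (κ₁ + κ₂) * (-(1 / 2) * (1 + c ^ 2))) ≠ 0 := by
      have hpos : 0 < κ₁ * κ₂ * (c1 - c2) ^ 2 := by
        have : 0 < (c1 - c2) ^ 2 := by
          have := sub_ne_zero.mpr hne
          positivity
        positivity
      intro h0
      have h1 : κ₁ * κ₂ * (c1 - c2) ^ 2 = (κ₁ + κ₂) * (κ₁ * c1 ^ 2 + κ₂ * c2 ^ 2 - (κ₁ + κ₂) * c ^ 2) := by
        have : ((κ₁ + κ₂) * c) ^ 2 = (κ₁ * c1 + κ₂ * c2) ^ 2 := by rw [hc]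
        linear_combination this
      have h2 : κ₁ * c1 ^ 2 + κ₂ * c2 ^ 2 - (κ₁ + κ₂) * c ^ 2 = 0 := by linear_combination (-4) * h0
      rw [h2, mul_zero] at h1
      linarith
    have hreal' := Complex.ofReal_ne_zero.mpr hreal
    push_cast at hreal'
    exact hreal'
  have hLD : ∀ᶠ z in 𝓝 (1 : ℂ), z * deriv (chLam φ₁ ψ φ₂ κ₁ κ₂) z = chDL φ₁ ψ φ₂ κ₁ κ₂ z := by
    have hf : AnalyticAt ℂ (fun z => z * deriv (chLam φ₁ ψ φ₂ κ₁ κ₂) z) 1 :=
      analyticAt_id.mul hL.deriv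
    refine (hf.frequently_eq_iff_eventually_eq hD).mp ?_
    have hne1 : ∀ᶠ z in 𝓝 (1 : ℂ), z ≠ Complex.exp (φ₁ * Complex.I) := eventually_ne_nhds e1
    have hne2 : ∀ᶠ z in 𝓝 (1 : ℂ), z ≠ Complex.exp (ψ * Complex.I) := eventually_ne_nhds e2
    have hne3 : ∀ᶠ z in 𝓝 (1 : ℂ), z ≠ Complex.exp (φ₂ * Complex.I) := eventually_ne_nhds e3
    have ht : Tendsto (fun t : ℝ => (1 : ℂ) - (t : ℂ)) (𝓝[>] 0) (𝓝[≠] 1) := by
      refine tendsto_nhdsWithin_iff.mpr ⟨?_, ?_⟩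
      · have hc : Continuous (fun t : ℝ => (1 : ℂ) - (t : ℂ)) := by fun_prop
        have := hc.tendsto 0
        simp only [Complex.ofReal_zero, sub_zero] at this
        exact this.mono_left nhdsWithin_le_nhds
      · filter_upwards [self_mem_nhdsWithin] with t ht
        have ht' : (0 : ℝ) < t := ht
        intro hh
        have : (1 : ℂ) - t = 1 := hh
        have h2 : (t : ℂ) = 0 := by linear_combination -this
        exact ht'.ne' (by exact_mod_cast h2)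
    refine ht.frequently ?_
    refine Filter.Eventually.frequently ?_
    have ht' : Tendsto (fun t : ℝ => (1 : ℂ) - (t : ℂ)) (𝓝[>] 0) (𝓝 1) :=
      ht.mono_right nhdsWithin_le_nhds
    have hlt : ∀ᶠ t in 𝓝[>] (0 : ℝ), t < 1 :=
      (eventually_lt_nhds one_pos).filter_mono nhdsWithin_le_nhds
    filter_upwards [ht'.eventually hne1, ht'.eventually hne2, ht'.eventually hne3, hlt,
      self_mem_nhdsWithin] with t h1 h2 h3 h4 h5
    have h5' : (0 : ℝ) < t := h5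
    have hn : ‖(1 : ℂ) - t‖ ≤ 1 := by
      have : (1 : ℂ) - t = ((1 - t : ℝ) : ℂ) := by push_cast; ring
      rw [this, Complex.norm_real, Real.norm_eq_abs, abs_of_nonneg (by linarith)]
      linarith
    exact (CHE_Lam_an hn h1 h2 h3).2.2
  obtain ⟨C, hC⟩ := CHY_core hL hD hL1 hD1 hd0 hLD
  have hK : ContinuousAt (chK ψ) 1 := (CHY_K_deriv (by linarith : 0 < ψ) (by linarith)).continuousAt
  have hKc : ContinuousAt (fun z => ((κ₁ : ℂ) + κ₂) / 2 * chK ψ z) 1 := continuousAt_const.mul hK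
  have hKb : ∀ᶠ z in 𝓝 (1 : ℂ), ‖((κ₁ : ℂ) + κ₂) / 2 * chK ψ z‖ < ‖((κ₁ : ℂ) + κ₂) / 2 * chK ψ 1‖ + 1 :=
    hKc.norm.eventually (gt_mem_nhds (lt_add_one _))
  refine ⟨C + (‖((κ₁ : ℂ) + κ₂) / 2 * chK ψ 1‖ + 1), ?_⟩
  filter_upwards [hC, hKb.filter_mono nhdsWithin_le_nhds] with z h1 h2
  have heq : chR φ₁ ψ φ₂ κ₁ κ₂ z =
      ((1 + z) / (1 - z) + chDL φ₁ ψ φ₂ κ₁ κ₂ z / (Complex.exp (chLam φ₁ ψ φ₂ κ₁ κ₂ z) - 1)) -
        ((κ₁ : ℂ) + κ₂) / 2 * chK ψ z := by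
    rw [chR]; ring
  rw [heq]
  exact (norm_sub_le _ _).trans (add_le_add h1 h2.le)

end

end Pool.H90.VK
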