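import Pool.Agent.H90.VK.CHC
import Pool.Agent.H90.VK.CHY

/-!
# CHR : `Re chR ≥ 0` on the disc

`chR` is analytic on the disc (`CHC`). `MNP` with `E = {1, e^{iφ₁}, e^{iφ₂}, e^{iψ}}` and
`s = max (1-κ₁) (1-κ₂) ∈ (0,1)`:
* at `ζ = e^{iθ}`, `θ ∈ (0,2π)`, `θ ≠ φ₁, ψ, φ₂`: `Λ(ζ) = ρ + iΨ` (`CHA_val`), `e^{Λ(ζ)} ≠ 1`: if `Ψ = 0` because
  `ρ > 0` (`CHB_pos`), else because `0 < |Ψ| < π`. So `chR` is continuous at `ζ`. There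
  `(1+z)/(1-z)` and `chK ψ` are purely imaginary (`CHA_K`), `chDL = -i D`, `D = chDR θ`,
  `Re(-i D/(e^{ρ+iΨ} - 1)) = D Im (1/(e^{ρ+iΨ}-1)) = -D e^ρ sin Ψ/|e^Λ-1|² ≥ 0`:
  `θ ∈ (φ₁,ψ)`: `D < 0`, `sin Ψ > 0`; `θ ∈ (ψ,φ₂)`: `D > 0`, `sin Ψ < 0` (`CHB_sign`);
* near `1`: `CHY`;
* near `x_j = e^{iφ_j}`: `|chDL| ≤ C/|z-x_j|`, `|e^Λ| ≥ c|z-x_j|^{-κ_j}` (`CHE_size`), so
  `|chDL/(e^Λ-1)| ≤ C'|z-x_j|^{-1+κ_j}`;
* near `u = e^{iψ}`: `1/(e^Λ - 1) = -1 + e^Λ/(e^Λ-1)`, `|e^Λ| ≤ C|z-u|^κ → 0`, and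
  `chR = (1+z)/(1-z) - (κ/2)chK ψ - chDL + chDL e^Λ/(e^Λ-1)` with `-(κ/2) chK ψ - chDL = -(1/2)(κ₁ chK φ₁ + κ₂ chK φ₂)`
  bounded near `u`, `|chDL e^Λ/(e^Λ-1)| ≤ C|z-u|^{-1+κ}`.
`CHR_zero`: `chK φ 0 = 1`, `chDL 0 = 0`.
-/

open MeasureTheory Set Filter Topology Metric
open scoped Real ENNReal ComplexConjugate

namespace Pool.H90.VK

noncomputable section

variable {φ₁ ψ φ₂ κ₁ κ₂ : ℝ}

theorem CHR_diff (h : ChordData φ₁ ψ φ₂ κ₁ κ₂) :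
    DifferentiableOn ℂ (chR φ₁ ψ φ₂ κ₁ κ₂) (ball (0 : ℂ) 1) := by
  obtain ⟨hL, hD, hK⟩ := CHE_Lam_diff (φ₁ := φ₁) (ψ := ψ) (φ₂ := φ₂) (κ₁ := κ₁) (κ₂ := κ₂)
  have h1 : DifferentiableOn ℂ (fun z : ℂ => (1 + z) / (1 - z)) (ball (0 : ℂ) 1) := by
    refine DifferentiableOn.div (by fun_prop) (by fun_prop) ?_
    intro z hz h0
    have h2 : z = 1 := by linear_combination -h0
    rw [h2] at hz
    simp at hz
  have h2 := ((hK ψ).const_mul ((κ₁ + κ₂) / 2 : ℂ))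
  have h3 : DifferentiableOn ℂ (fun z => chDL φ₁ ψ φ₂ κ₁ κ₂ z /
      (Complex.exp (chLam φ₁ ψ φ₂ κ₁ κ₂ z) - 1)) (ball (0:ℂ) 1) := by
    refine hD.div (hL.cexp.sub_const 1) ?_
    intro z hz h0
    exact CHC h hz (by linear_combination h0)
  exact (h1.sub h2).add h3

theorem CHR_zero (h : ChordData φ₁ ψ φ₂ κ₁ κ₂) :
    chR φ₁ ψ φ₂ κ₁ κ₂ 0 = 1 - ((κ₁ + κ₂) / 2 : ℝ) := by
  have h1 : chK ψ 0 = 1 := by
    unfold chK
    rw [add_zero, sub_zero, div_self (Complex.exp_ne_zero _)]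
  have h2 := (CHE_Lam_zero (φ₁ := φ₁) (ψ := ψ) (φ₂ := φ₂) (κ₁ := κ₁) (κ₂ := κ₂)).2
  unfold chR
  rw [h1, h2]
  push_cast
  simp

theorem CHR_angle {ζ : ℂ} (hζ : ‖ζ‖ = 1) (h1 : ζ ≠ 1) :
    ∃ θ ∈ Ioo 0 (2 * π), ζ = Complex.exp ((θ : ℝ) * Complex.I) := by
  have hz : ζ = Complex.exp (Complex.arg ζ * Complex.I) := by
    have := Complex.norm_mul_exp_arg_mul_I ζ
    rw [hζ] at this
    simpa using this.symm
  have ha1 := Complex.neg_pi_lt_arg ζ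
  have ha2 := Complex.arg_le_pi ζ
  have hpi := Real.pi_pos
  rcases lt_trichotomy (Complex.arg ζ) 0 with h0 | h0 | h0
  · refine ⟨Complex.arg ζ + 2 * π, ⟨by linarith, by linarith⟩, ?_⟩
    push_cast
    rw [add_mul, Complex.exp_add, Complex.exp_two_pi_mul_I, mul_one]
    exact hz
  · exfalso
    apply h1
    rw [hz, h0]
    simp
  · exact ⟨Complex.arg ζ, ⟨h0, by linarith⟩, hz⟩

theorem CHR_sin_ne {φ θ : ℝ} (h1 : θ ≠ φ) (h2 : θ - φ < 2 * π) (h3 : -(2 * π) < θ - φ) :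
    Real.sin ((θ - φ) / 2) ≠ 0 := by
  have hpi := Real.pi_pos
  rcases lt_or_gt_of_ne h1 with h | h
  · exact (Real.sin_neg_of_neg_of_neg_pi_lt (by linarith) (by linarith)).ne
  · exact (Real.sin_pos_of_pos_of_lt_pi (by linarith) (by linarith)).ne'

theorem CHR_re_I (r : ℝ) : ((r : ℂ) * Complex.I).re = 0 := by simp

theorem CHR_K_zero (z : ℂ) : (1 + z) / (1 - z) = chK 0 z := by
  unfold chK
  simp

theorem CHR_re_term (D w : ℝ) (r : ℂ) (hw : r.im = w) :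
    (-(D : ℂ) * Complex.I / r).re = -(D * w) / Complex.normSq r := by
  rw [Complex.div_re]
  simp [hw]

theorem CHR_psi_cases (h : ChordData φ₁ ψ φ₂ κ₁ κ₂) {θ : ℝ} (hθ : θ ∈ Ioo 0 (2 * π)) (h1 : θ ≠ φ₁)
    (h2 : θ ≠ ψ) (h3 : θ ≠ φ₂) :
    (chPsi φ₁ ψ φ₂ κ₁ κ₂ θ = 0 ∧ 0 < chRho φ₁ ψ φ₂ κ₁ κ₂ θ) ∨
    (0 < chPsi φ₁ ψ φ₂ κ₁ κ₂ θ ∧ chPsi φ₁ ψ φ₂ κ₁ κ₂ θ < π ∧ chDR φ₁ ψ φ₂ κ₁ κ₂ θ < 0) ∨
    (chPsi φ₁ ψ φ₂ κ₁ κ₂ θ < 0 ∧ -π < chPsi φ₁ ψ φ₂ κ₁ κ₂ θ ∧ 0 < chDR φ₁ ψ φ₂ κ₁ κ₂ θ) := by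
  have hpi := Real.pi_pos
  obtain ⟨hs1, hs2, hs3, hs4⟩ := CHB_sign h
  have hk1 := h.k1
  have hk2 := h.k2
  have hks := h.ks
  rcases lt_or_gt_of_ne h1 with ha | ha
  · left
    refine ⟨?_, CHB_pos h hθ (Or.inl ha)⟩
    unfold chPsi
    rw [if_pos ha]
  rcases lt_or_gt_of_ne h2 with hb | hb
  · right; left
    have : chPsi φ₁ ψ φ₂ κ₁ κ₂ θ = π * κ₁ := by
      unfold chPsi
      rw [if_neg (not_lt.mpr ha.le), if_pos hb]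
    rw [this]
    refine ⟨by positivity, by nlinarith, hs2 θ ⟨ha, hb⟩⟩
  rcases lt_or_gt_of_ne h3 with hc | hc
  · right; right
    have : chPsi φ₁ ψ φ₂ κ₁ κ₂ θ = -(π * κ₂) := by
      unfold chPsi
      rw [if_neg (not_lt.mpr ha.le), if_neg (not_lt.mpr hb.le), if_pos hc]
    rw [this]
    have : 0 < π * κ₂ := by positivity
    refine ⟨by linarith, by nlinarith, hs3 θ ⟨hb, hc⟩⟩
  · left
    refine ⟨?_, CHB_pos h hθ (Or.inr hc)⟩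
    unfold chPsi
    rw [if_neg (not_lt.mpr ha.le), if_neg (not_lt.mpr hb.le), if_neg (not_lt.mpr hc.le)]

theorem CHR_bdry (h : ChordData φ₁ ψ φ₂ κ₁ κ₂) {ζ : ℂ} (hζ : ‖ζ‖ = 1) (g0 : ζ ≠ 1)
    (g1 : ζ ≠ Complex.exp (φ₁ * Complex.I)) (g2 : ζ ≠ Complex.exp (ψ * Complex.I))
    (g3 : ζ ≠ Complex.exp (φ₂ * Complex.I)) :
    ContinuousAt (chR φ₁ ψ φ₂ κ₁ κ₂) ζ ∧ 0 ≤ (chR φ₁ ψ φ₂ κ₁ κ₂ ζ).re := by
  obtain ⟨θ, hθ, hθe⟩ := CHR_angle hζ g0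
  have h1 : θ ≠ φ₁ := by
    rintro rfl; exact g1 hθe
  have h2 : θ ≠ ψ := by
    rintro rfl; exact g2 hθe
  have h3 : θ ≠ φ₂ := by
    rintro rfl; exact g3 hθe
  have hpi := Real.pi_pos
  have hval := CHA_val h hθ h1 h2 h3
  rw [← hθe] at hval
  have hDL := CHA_DL h hθ h1 h2 h3
  rw [← hθe] at hDL
  have hcases := CHR_psi_cases h hθ h1 h2 h3
  set ρ := chRho φ₁ ψ φ₂ κ₁ κ₂ θ with hρ
  set Ψ := chPsi φ₁ ψ φ₂ κ₁ κ₂ θ with hΨ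
  set D := chDR φ₁ ψ φ₂ κ₁ κ₂ θ with hD
  have hne : Complex.exp (chLam φ₁ ψ φ₂ κ₁ κ₂ ζ) - 1 ≠ 0 := by
    intro h0
    have h4 : Complex.exp (chLam φ₁ ψ φ₂ κ₁ κ₂ ζ) = 1 := by linear_combination h0
    rw [Complex.exp_eq_one_iff] at h4
    obtain ⟨n, hn⟩ := h4
    rw [hval] at hn
    have hre := congrArg Complex.re hn
    have him := congrArg Complex.im hn
    simp at hre him
    rcases hcases with ⟨ha, hb⟩ | ⟨ha, hb, -⟩ | ⟨ha, hb, -⟩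
    · rw [hre] at hb; exact lt_irrefl _ hb
    · rw [him] at ha hb
      have e1 : (0:ℝ) < n := by
        by_contra hcon
        push Not at hcon
        nlinarith
      have e2 : (1:ℝ) ≤ n := by
        have : (0:ℤ) < n := by exact_mod_cast e1
        exact_mod_cast this
      nlinarith
    · rw [him] at ha hb
      have e1 : (n:ℝ) < 0 := by
        by_contra hcon
        push Not at hcon
        nlinarith
      have e2 : (n:ℝ) ≤ -1 := by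
        have : n < (0:ℤ) := by exact_mod_cast e1
        have : n ≤ -1 := by omega
        exact_mod_cast this
      nlinarith
  obtain ⟨aL, aD, -⟩ := CHE_Lam_an (κ₁ := κ₁) (κ₂ := κ₂) hζ.le g1 g2 g3
  obtain ⟨-, aK⟩ := CHE_an hζ.le g2
  have h1z : (1:ℂ) - ζ ≠ 0 := sub_ne_zero.mpr g0.symm
  refine ⟨?_, ?_⟩
  · have c1 : ContinuousAt (fun z : ℂ => (1 + z) / (1 - z)) ζ := by
      refine ContinuousAt.div (by fun_prop) (by fun_prop) h1z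
    have c2 : ContinuousAt (fun z : ℂ => ((κ₁ + κ₂) / 2 : ℂ) * chK ψ z) ζ :=
      continuousAt_const.mul aK.continuousAt
    have c3 : ContinuousAt (fun z => chDL φ₁ ψ φ₂ κ₁ κ₂ z /
        (Complex.exp (chLam φ₁ ψ φ₂ κ₁ κ₂ z) - 1)) ζ := by
      refine aD.continuousAt.div (aL.continuousAt.cexp.sub continuousAt_const) hne
    exact (c1.sub c2).add c3
  · have e0 : (1 + ζ) / (1 - ζ) = Real.cot ((θ - 0) / 2) * Complex.I := by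
      rw [CHR_K_zero, hθe]
      exact CHA_K (CHR_sin_ne (by have := hθ.1; exact this.ne') (by have := hθ.2; linarith)
        (by have := hθ.1; linarith))
    have e1 : chK ψ ζ = Real.cot ((θ - ψ) / 2) * Complex.I := by
      rw [hθe]
      exact CHA_K (CHR_sin_ne h2 (by have := hθ.2; have := h.h0; have := h.h1; linarith)
        (by have := hθ.1; have := h.h2; have := h.h3; linarith))
    have e2 : (Complex.exp (chLam φ₁ ψ φ₂ κ₁ κ₂ ζ) - 1).im = Real.exp ρ * Real.sin Ψ := by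
      rw [hval, Complex.sub_im, Complex.exp_im]
      simp
    have e3 : (chR φ₁ ψ φ₂ κ₁ κ₂ ζ).re = -(D * (Real.exp ρ * Real.sin Ψ)) /
        Complex.normSq (Complex.exp (chLam φ₁ ψ φ₂ κ₁ κ₂ ζ) - 1) := by
      rw [← CHR_re_term D _ _ e2]
      unfold chR
      rw [e0, e1, hDL, Complex.add_re, Complex.sub_re]
      have e4 : ((Real.cot ((θ - 0) / 2) : ℂ) * Complex.I).re = 0 := CHR_re_I _
      have e5 : ((κ₁ + κ₂) / 2 * ((Real.cot ((θ - ψ) / 2) : ℂ) * Complex.I)).re = 0 := by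
        have : ((κ₁ + κ₂) / 2 * ((Real.cot ((θ - ψ) / 2) : ℂ) * Complex.I)) =
          (((κ₁ + κ₂) / 2 * Real.cot ((θ - ψ) / 2) : ℝ) : ℂ) * Complex.I := by push_cast; ring
        rw [this]; exact CHR_re_I _
      rw [e4, e5]
      simp
    rw [e3]
    apply div_nonneg _ (Complex.normSq_nonneg _)
    have hexp := Real.exp_pos ρ
    rcases hcases with ⟨ha, hb⟩ | ⟨ha, hb, hc⟩ | ⟨ha, hb, hc⟩
    · rw [ha]; simp
    · have hs := Real.sin_pos_of_pos_of_lt_pi ha hb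
      have := mul_pos hexp hs
      nlinarith
    · have hs := Real.sin_neg_of_neg_of_neg_pi_lt ha hb
      have := mul_neg_of_pos_of_neg hexp hs
      nlinarith

/-! ### growth at the exceptional points -/

theorem CHR_isBigO_one {f : ℂ → ℂ} {ζ : ℂ} (hf : ContinuousAt f ζ) :
    f =O[𝓝[ball (0 : ℂ) 1] ζ] (fun _ => (1 : ℝ)) :=
  (hf.tendsto.isBigO_one ℝ).mono nhdsWithin_le_nhds

theorem CHR_near_le {ζ : ℂ} (hζ : ‖ζ‖ = 1) :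
    ∀ᶠ z in 𝓝[ball (0 : ℂ) 1] ζ, 0 < ‖z - ζ‖ ∧ ‖z - ζ‖ ≤ 1 := by
  have h1 : ∀ᶠ z in 𝓝[ball (0 : ℂ) 1] ζ, ‖z - ζ‖ ≤ 1 := by
    have : ∀ᶠ z in 𝓝 ζ, ‖z - ζ‖ < 1 := by
      have := Metric.ball_mem_nhds ζ one_pos
      filter_upwards [this] with z hz
      simpa [dist_eq_norm] using hz
    exact (this.filter_mono nhdsWithin_le_nhds).mono fun z hz => hz.le
  filter_upwards [h1, self_mem_nhdsWithin] with z hz hz2
  refine ⟨?_, hz⟩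
  rw [norm_pos_iff, sub_ne_zero]
  rintro rfl
  simp [hζ] at hz2

theorem CHR_pow_mono {ζ : ℂ} (hζ : ‖ζ‖ = 1) {a b : ℝ} (hab : b ≤ a) :
    (fun z : ℂ => ‖z - ζ‖ ^ a) =O[𝓝[ball (0 : ℂ) 1] ζ] (fun z : ℂ => ‖z - ζ‖ ^ b) := by
  refine Asymptotics.IsBigO.of_bound 1 ?_
  filter_upwards [CHR_near_le hζ] with z hz
  rw [Real.norm_of_nonneg (Real.rpow_nonneg hz.1.le _), Real.norm_of_nonneg (Real.rpow_nonneg hz.1.le _),
    one_mul]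
  exact Real.rpow_le_rpow_of_exponent_ge hz.1 hz.2 hab

theorem CHR_one_le_pow {ζ : ℂ} (hζ : ‖ζ‖ = 1) {b : ℝ} (hb : b ≤ 0) :
    (fun _ : ℂ => (1 : ℝ)) =O[𝓝[ball (0 : ℂ) 1] ζ] (fun z : ℂ => ‖z - ζ‖ ^ b) := by
  have := CHR_pow_mono hζ hb
  simpa using this

theorem CHR_chK_near (φ : ℝ) :
    (chK φ) =O[𝓝[ball (0 : ℂ) 1] (Complex.exp (φ * Complex.I))]
      (fun z : ℂ => ‖z - Complex.exp (φ * Complex.I)‖ ^ (-1 : ℝ)) := by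
  have hn : ‖Complex.exp (φ * Complex.I)‖ = 1 := Complex.norm_exp_ofReal_mul_I φ
  refine Asymptotics.IsBigO.of_bound 2 ?_
  filter_upwards [CHR_near_le hn, self_mem_nhdsWithin] with z hz hz2
  rw [Real.norm_of_nonneg (Real.rpow_nonneg hz.1.le _), Real.rpow_neg_one]
  unfold chK
  rw [norm_div, norm_sub_rev (Complex.exp (φ * Complex.I)) z, div_eq_mul_inv]
  refine mul_le_mul_of_nonneg_right ?_ (inv_nonneg.mpr hz.1.le)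
  have hz3 : ‖z‖ < 1 := by simpa using hz2
  calc ‖Complex.exp (φ * Complex.I) + z‖ ≤ ‖Complex.exp (φ * Complex.I)‖ + ‖z‖ := norm_add_le _ _
    _ ≤ 2 := by rw [hn]; linarith

/-- the quotient near a point where `e^Λ` is large -/
theorem CHR_large {ζ : ℂ} (hζ : ‖ζ‖ = 1) (A E : ℂ → ℂ) {a : ℝ} (ha : 0 < a)
    (hA : A =O[𝓝[ball (0 : ℂ) 1] ζ] (fun z : ℂ => ‖z - ζ‖ ^ (-1 : ℝ))) {c : ℝ} (hc : 0 < c)
    (hE : ∀ᶠ z in 𝓝[ball (0 : ℂ) 1] ζ, c * ‖z - ζ‖ ^ (-a) ≤ ‖E z‖) :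
    (fun z => A z / (E z - 1)) =O[𝓝[ball (0 : ℂ) 1] ζ] (fun z : ℂ => ‖z - ζ‖ ^ (-(1 - a))) := by
  have h1 : (fun z => (E z - 1)⁻¹) =O[𝓝[ball (0 : ℂ) 1] ζ] (fun z : ℂ => ‖z - ζ‖ ^ a) := by
    have h2 : ∀ᶠ z in 𝓝[ball (0 : ℂ) 1] ζ, ‖z - ζ‖ ^ a < c / 2 := by
      have h3 : Tendsto (fun z : ℂ => ‖z - ζ‖ ^ a) (𝓝 ζ) (𝓝 0) := by
        have h4 : ContinuousAt (fun z : ℂ => ‖z - ζ‖ ^ a) ζ := by
          refine ContinuousAt.rpow_const (by fun_prop) (Or.inr ha.le)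
        have h5 := h4.tendsto
        simpa [Real.zero_rpow ha.ne'] using h5
      exact (h3.eventually (gt_mem_nhds (by positivity))).filter_mono nhdsWithin_le_nhds
    refine Asymptotics.IsBigO.of_bound (2 / c) ?_
    filter_upwards [CHR_near_le hζ, hE, h2] with z hz hz2 hz3
    have hp : 0 < ‖z - ζ‖ ^ a := Real.rpow_pos_of_pos hz.1 _
    rw [norm_inv, Real.norm_of_nonneg hp.le]
    rw [Real.rpow_neg hz.1.le] at hz2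
    have h6 : 1 ≤ c / 2 * (‖z - ζ‖ ^ a)⁻¹ := by
      rw [← div_eq_mul_inv, le_div_iff₀ hp]; linarith
    have h7 : c / 2 * (‖z - ζ‖ ^ a)⁻¹ ≤ ‖E z - 1‖ := by
      have h8 : ‖E z‖ - ‖(1:ℂ)‖ ≤ ‖E z - 1‖ := norm_sub_norm_le _ _
      rw [norm_one] at h8
      linarith
    have h9 : 0 < c / 2 * (‖z - ζ‖ ^ a)⁻¹ := by positivity
    calc ‖E z - 1‖⁻¹ ≤ (c / 2 * (‖z - ζ‖ ^ a)⁻¹)⁻¹ := inv_anti₀ h9 h7
      _ = 2 / c * ‖z - ζ‖ ^ a := by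
        rw [mul_inv, inv_inv, inv_div]
  have h2 := hA.mul h1
  refine (h2.congr' (Eventually.of_forall fun z => ?_) ?_)
  · simp only [div_eq_mul_inv]
  · filter_upwards [CHR_near_le hζ] with z hz
    rw [← Real.rpow_add hz.1]
    congr 1
    ring

/-- the quotient near a point where `e^Λ` is small -/
theorem CHR_small {ζ : ℂ} (hζ : ‖ζ‖ = 1) (A E : ℂ → ℂ) {a : ℝ} (ha : 0 < a)
    (hA : A =O[𝓝[ball (0 : ℂ) 1] ζ] (fun z : ℂ => ‖z - ζ‖ ^ (-1 : ℝ)))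
    (hE : E =O[𝓝[ball (0 : ℂ) 1] ζ] (fun z : ℂ => ‖z - ζ‖ ^ a)) :
    (fun z => A z * (E z / (E z - 1))) =O[𝓝[ball (0 : ℂ) 1] ζ]
      (fun z : ℂ => ‖z - ζ‖ ^ (-(1 - a))) := by
  have h3 : Tendsto (fun z : ℂ => ‖z - ζ‖ ^ a) (𝓝[ball (0 : ℂ) 1] ζ) (𝓝 0) := by
    have h4 : ContinuousAt (fun z : ℂ => ‖z - ζ‖ ^ a) ζ := by
      refine ContinuousAt.rpow_const (by fun_prop) (Or.inr ha.le)
    have h5 := h4.tendsto.mono_left (nhdsWithin_le_nhds (s := ball (0:ℂ) 1))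
    simpa [Real.zero_rpow ha.ne'] using h5
  have h4 : Tendsto E (𝓝[ball (0 : ℂ) 1] ζ) (𝓝 0) := hE.trans_tendsto h3
  have h5 : Tendsto (fun z => (E z - 1)⁻¹) (𝓝[ball (0 : ℂ) 1] ζ) (𝓝 (0 - 1)⁻¹) :=
    (h4.sub_const 1).inv₀ (by norm_num)
  have h6 := hA.mul (hE.mul (h5.isBigO_one ℝ))
  refine (h6.congr' (Eventually.of_forall fun z => ?_) ?_)
  · simp only [div_eq_mul_inv]
  · filter_upwards [CHR_near_le hζ] with z hz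
    rw [mul_one, ← Real.rpow_add hz.1]
    congr 1
    ring

theorem CHR_final {ζ : ℂ} (hζ : ‖ζ‖ = 1) {f : ℂ → ℂ} {a s : ℝ} (has : 1 - a ≤ s)
    (hf : f =O[𝓝[ball (0 : ℂ) 1] ζ] (fun z : ℂ => ‖z - ζ‖ ^ (-(1 - a)))) :
    ∃ C : ℝ, ∀ᶠ z in 𝓝[ball (0 : ℂ) 1] ζ, ‖f z‖ ≤ C * ‖z - ζ‖ ^ (-s) := by
  have h1 := hf.trans (CHR_pow_mono hζ (a := -(1 - a)) (b := -s) (by linarith))
  obtain ⟨C, hC⟩ := h1.bound
  refine ⟨C, ?_⟩
  filter_upwards [hC, CHR_near_le hζ] with z hz hz2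
  rwa [Real.norm_of_nonneg (Real.rpow_nonneg hz2.1.le _)] at hz

theorem CHR_exp_ne {a b : ℝ} (hab : a ≠ b) (h1 : a - b < 2 * π) (h2 : -(2 * π) < a - b) :
    Complex.exp (a * Complex.I) ≠ Complex.exp (b * Complex.I) := by
  intro h
  rw [Complex.exp_eq_exp_iff_exists_int] at h
  obtain ⟨n, hn⟩ := h
  have him := congrArg Complex.im hn
  simp at him
  have hpi := Real.pi_pos
  have h3 : a - b = n * (2 * π) := by linarith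
  rw [h3] at h1 h2
  have e1 : (n:ℝ) < 1 := by
    by_contra hcon
    push Not at hcon
    nlinarith
  have e2 : (-1:ℝ) < n := by
    by_contra hcon
    push Not at hcon
    nlinarith
  have e3 : n < 1 := by exact_mod_cast e1
  have e4 : -1 < n := by exact_mod_cast e2
  have e5 : n = 0 := by omega
  apply hab
  rw [e5] at h3
  simp at h3
  linarith

theorem CHR_chK_any {ζ : ℂ} (hζ : ‖ζ‖ = 1) (φ : ℝ) :
    (chK φ) =O[𝓝[ball (0 : ℂ) 1] ζ] (fun z : ℂ => ‖z - ζ‖ ^ (-1 : ℝ)) := by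
  by_cases hc : ζ = Complex.exp (φ * Complex.I)
  · rw [hc]; exact CHR_chK_near φ
  · exact (CHR_isBigO_one (CHE_an hζ.le hc).2.continuousAt).trans (CHR_one_le_pow hζ (by norm_num))

theorem CHR_DL_near {ζ : ℂ} (hζ : ‖ζ‖ = 1) :
    (chDL φ₁ ψ φ₂ κ₁ κ₂) =O[𝓝[ball (0 : ℂ) 1] ζ] (fun z : ℂ => ‖z - ζ‖ ^ (-1 : ℝ)) := by
  have h1 := (CHR_chK_any hζ φ₁).const_mul_left (κ₁ : ℂ)
  have h2 := (CHR_chK_any hζ φ₂).const_mul_left (κ₂ : ℂ)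
  have h3 := (CHR_chK_any hζ ψ).const_mul_left ((κ₁ : ℂ) + κ₂)
  exact ((h1.add h2).sub h3).const_mul_left (1 / 2 : ℂ)

theorem CHR_pt1 (h : ChordData φ₁ ψ φ₂ κ₁ κ₂) {s : ℝ} (hs : 1 - κ₁ ≤ s) :
    ∃ C : ℝ, ∀ᶠ z in 𝓝[ball (0 : ℂ) 1] (Complex.exp (φ₁ * Complex.I)),
      ‖chR φ₁ ψ φ₂ κ₁ κ₂ z‖ ≤ C * ‖z - Complex.exp (φ₁ * Complex.I)‖ ^ (-s) := by
  have hpi := Real.pi_pos
  obtain ⟨h0, h1, h2, h3, k1, k2, ks, -, -⟩ := h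
  have hn : ‖Complex.exp (φ₁ * Complex.I)‖ = 1 := Complex.norm_exp_ofReal_mul_I φ₁
  have d0 : Complex.exp (φ₁ * Complex.I) ≠ Complex.exp ((0:ℝ) * Complex.I) :=
    CHR_exp_ne (by linarith) (by linarith) (by linarith)
  have d1 : Complex.exp (φ₁ * Complex.I) ≠ Complex.exp (ψ * Complex.I) :=
    CHR_exp_ne (by linarith) (by linarith) (by linarith)
  have d2 : Complex.exp (φ₁ * Complex.I) ≠ Complex.exp (φ₂ * Complex.I) :=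
    CHR_exp_ne (by linarith) (by linarith) (by linarith)
  refine CHR_final hn hs ?_
  have hreg : (fun z => chK 0 z - (κ₁ + κ₂) / 2 * chK ψ z)
      =O[𝓝[ball (0 : ℂ) 1] (Complex.exp (φ₁ * Complex.I))]
      (fun z : ℂ => ‖z - Complex.exp (φ₁ * Complex.I)‖ ^ (-(1 - κ₁))) := by
    refine (CHR_isBigO_one ?_).trans (CHR_one_le_pow hn (by linarith))
    exact (CHE_an hn.le d0).2.continuousAt.sub
      (continuousAt_const.mul (CHE_an hn.le d1).2.continuousAt)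
  have hc : ∃ c : ℝ, 0 < c ∧ ∀ᶠ z in 𝓝[ball (0 : ℂ) 1] (Complex.exp (φ₁ * Complex.I)),
      c * ‖z - Complex.exp (φ₁ * Complex.I)‖ ^ (-κ₁) ≤
        ‖Complex.exp (chLam φ₁ ψ φ₂ κ₁ κ₂ z)‖ := by
    have hcont : ContinuousAt (fun z : ℂ => Real.exp (-chEll φ₁ ψ φ₂ κ₁ κ₂) *
        ‖z - Complex.exp (ψ * Complex.I)‖ ^ (κ₁ + κ₂) * ‖z - Complex.exp (φ₂ * Complex.I)‖ ^ (-κ₂))
        (Complex.exp (φ₁ * Complex.I)) := by
      refine ContinuousAt.mul (ContinuousAt.mul continuousAt_const ?_) ?_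
      · exact ContinuousAt.rpow_const (by fun_prop) (Or.inl (norm_ne_zero_iff.mpr (sub_ne_zero.mpr d1)))
      · exact ContinuousAt.rpow_const (by fun_prop) (Or.inl (norm_ne_zero_iff.mpr (sub_ne_zero.mpr d2)))
    have hpos : 0 < Real.exp (-chEll φ₁ ψ φ₂ κ₁ κ₂) *
        ‖Complex.exp (φ₁ * Complex.I) - Complex.exp (ψ * Complex.I)‖ ^ (κ₁ + κ₂) *
        ‖Complex.exp (φ₁ * Complex.I) - Complex.exp (φ₂ * Complex.I)‖ ^ (-κ₂) := by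
      have e1 := norm_pos_iff.mpr (sub_ne_zero.mpr d1)
      have e2 := norm_pos_iff.mpr (sub_ne_zero.mpr d2)
      have e3 := Real.rpow_pos_of_pos e1 (κ₁ + κ₂)
      have e4 := Real.rpow_pos_of_pos e2 (-κ₂)
      have e5 := Real.exp_pos (-chEll φ₁ ψ φ₂ κ₁ κ₂)
      positivity
    refine ⟨_, half_pos hpos, ?_⟩
    have hev := (hcont.eventually (lt_mem_nhds (half_lt_self hpos))).filter_mono
      (nhdsWithin_le_nhds (s := ball (0:ℂ) 1))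
    filter_upwards [hev, CHR_near_le hn, self_mem_nhdsWithin] with z hz hz2 hz3
    rw [CHE_size k1 k2 hz3]
    have e6 : 0 ≤ ‖z - Complex.exp (φ₁ * Complex.I)‖ ^ (-κ₁) := Real.rpow_nonneg hz2.1.le _
    have e7 := mul_le_mul_of_nonneg_right hz.le e6
    refine e7.trans (le_of_eq ?_)
    ring
  obtain ⟨c, hc, hE⟩ := hc
  have hq := CHR_large hn (chDL φ₁ ψ φ₂ κ₁ κ₂) (fun z => Complex.exp (chLam φ₁ ψ φ₂ κ₁ κ₂ z)) k1
    (CHR_DL_near hn) hc hE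
  refine (hreg.add hq).congr_left fun z => ?_
  unfold chR
  rw [CHR_K_zero]

theorem CHR_pt2 (h : ChordData φ₁ ψ φ₂ κ₁ κ₂) {s : ℝ} (hs : 1 - κ₂ ≤ s) :
    ∃ C : ℝ, ∀ᶠ z in 𝓝[ball (0 : ℂ) 1] (Complex.exp (φ₂ * Complex.I)),
      ‖chR φ₁ ψ φ₂ κ₁ κ₂ z‖ ≤ C * ‖z - Complex.exp (φ₂ * Complex.I)‖ ^ (-s) := by
  have hpi := Real.pi_pos
  obtain ⟨h0, h1, h2, h3, k1, k2, ks, -, -⟩ := h
  have hn : ‖Complex.exp (φ₂ * Complex.I)‖ = 1 := Complex.norm_exp_ofReal_mul_I φ₂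
  have d0 : Complex.exp (φ₂ * Complex.I) ≠ Complex.exp ((0:ℝ) * Complex.I) :=
    CHR_exp_ne (by linarith) (by linarith) (by linarith)
  have d1 : Complex.exp (φ₂ * Complex.I) ≠ Complex.exp (ψ * Complex.I) :=
    CHR_exp_ne (by linarith) (by linarith) (by linarith)
  have d2 : Complex.exp (φ₂ * Complex.I) ≠ Complex.exp (φ₁ * Complex.I) :=
    CHR_exp_ne (by linarith) (by linarith) (by linarith)
  refine CHR_final hn hs ?_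
  have hreg : (fun z => chK 0 z - (κ₁ + κ₂) / 2 * chK ψ z)
      =O[𝓝[ball (0 : ℂ) 1] (Complex.exp (φ₂ * Complex.I))]
      (fun z : ℂ => ‖z - Complex.exp (φ₂ * Complex.I)‖ ^ (-(1 - κ₂))) := by
    refine (CHR_isBigO_one ?_).trans (CHR_one_le_pow hn (by linarith))
    exact (CHE_an hn.le d0).2.continuousAt.sub
      (continuousAt_const.mul (CHE_an hn.le d1).2.continuousAt)
  have hc : ∃ c : ℝ, 0 < c ∧ ∀ᶠ z in 𝓝[ball (0 : ℂ) 1] (Complex.exp (φ₂ * Complex.I)),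
      c * ‖z - Complex.exp (φ₂ * Complex.I)‖ ^ (-κ₂) ≤
        ‖Complex.exp (chLam φ₁ ψ φ₂ κ₁ κ₂ z)‖ := by
    have hcont : ContinuousAt (fun z : ℂ => Real.exp (-chEll φ₁ ψ φ₂ κ₁ κ₂) *
        ‖z - Complex.exp (ψ * Complex.I)‖ ^ (κ₁ + κ₂) * ‖z - Complex.exp (φ₁ * Complex.I)‖ ^ (-κ₁))
        (Complex.exp (φ₂ * Complex.I)) := by
      refine ContinuousAt.mul (ContinuousAt.mul continuousAt_const ?_) ?_
      · exact ContinuousAt.rpow_const (by fun_prop) (Or.inl (norm_ne_zero_iff.mpr (sub_ne_zero.mpr d1)))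
      · exact ContinuousAt.rpow_const (by fun_prop) (Or.inl (norm_ne_zero_iff.mpr (sub_ne_zero.mpr d2)))
    have hpos : 0 < Real.exp (-chEll φ₁ ψ φ₂ κ₁ κ₂) *
        ‖Complex.exp (φ₂ * Complex.I) - Complex.exp (ψ * Complex.I)‖ ^ (κ₁ + κ₂) *
        ‖Complex.exp (φ₂ * Complex.I) - Complex.exp (φ₁ * Complex.I)‖ ^ (-κ₁) := by
      have e1 := norm_pos_iff.mpr (sub_ne_zero.mpr d1)
      have e2 := norm_pos_iff.mpr (sub_ne_zero.mpr d2)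
      have e3 := Real.rpow_pos_of_pos e1 (κ₁ + κ₂)
      have e4 := Real.rpow_pos_of_pos e2 (-κ₁)
      have e5 := Real.exp_pos (-chEll φ₁ ψ φ₂ κ₁ κ₂)
      positivity
    refine ⟨_, half_pos hpos, ?_⟩
    have hev := (hcont.eventually (lt_mem_nhds (half_lt_self hpos))).filter_mono
      (nhdsWithin_le_nhds (s := ball (0:ℂ) 1))
    filter_upwards [hev, CHR_near_le hn, self_mem_nhdsWithin] with z hz hz2 hz3
    rw [CHE_size k1 k2 hz3]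
    have e6 : 0 ≤ ‖z - Complex.exp (φ₂ * Complex.I)‖ ^ (-κ₂) := Real.rpow_nonneg hz2.1.le _
    have e7 := mul_le_mul_of_nonneg_right hz.le e6
    refine e7.trans (le_of_eq ?_)
    ring
  obtain ⟨c, hc, hE⟩ := hc
  have hq := CHR_large hn (chDL φ₁ ψ φ₂ κ₁ κ₂) (fun z => Complex.exp (chLam φ₁ ψ φ₂ κ₁ κ₂ z)) k2
    (CHR_DL_near hn) hc hE
  refine (hreg.add hq).congr_left fun z => ?_
  unfold chR
  rw [CHR_K_zero]

theorem CHR_pt3 (h : ChordData φ₁ ψ φ₂ κ₁ κ₂) {s : ℝ} (hs : 1 - (κ₁ + κ₂) ≤ s) :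
    ∃ C : ℝ, ∀ᶠ z in 𝓝[ball (0 : ℂ) 1] (Complex.exp (ψ * Complex.I)),
      ‖chR φ₁ ψ φ₂ κ₁ κ₂ z‖ ≤ C * ‖z - Complex.exp (ψ * Complex.I)‖ ^ (-s) := by
  have hpi := Real.pi_pos
  have hCHC := @CHC _ _ _ _ _ h
  obtain ⟨h0, h1, h2, h3, k1, k2, ks, -, -⟩ := h
  have hn : ‖Complex.exp (ψ * Complex.I)‖ = 1 := Complex.norm_exp_ofReal_mul_I ψ
  have d0 : Complex.exp (ψ * Complex.I) ≠ Complex.exp ((0:ℝ) * Complex.I) :=
    CHR_exp_ne (by linarith) (by linarith) (by linarith)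
  have d1 : Complex.exp (ψ * Complex.I) ≠ Complex.exp (φ₁ * Complex.I) :=
    CHR_exp_ne (by linarith) (by linarith) (by linarith)
  have d2 : Complex.exp (ψ * Complex.I) ≠ Complex.exp (φ₂ * Complex.I) :=
    CHR_exp_ne (by linarith) (by linarith) (by linarith)
  refine CHR_final hn hs ?_
  have hreg : (fun z => chK 0 z - 1 / 2 * (κ₁ * chK φ₁ z + κ₂ * chK φ₂ z))
      =O[𝓝[ball (0 : ℂ) 1] (Complex.exp (ψ * Complex.I))]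
      (fun z : ℂ => ‖z - Complex.exp (ψ * Complex.I)‖ ^ (-(1 - (κ₁ + κ₂)))) := by
    refine (CHR_isBigO_one ?_).trans (CHR_one_le_pow hn (by linarith))
    exact (CHE_an hn.le d0).2.continuousAt.sub
      (continuousAt_const.mul ((continuousAt_const.mul (CHE_an hn.le d1).2.continuousAt).add
        (continuousAt_const.mul (CHE_an hn.le d2).2.continuousAt)))
  have hE : (fun z => Complex.exp (chLam φ₁ ψ φ₂ κ₁ κ₂ z))
      =O[𝓝[ball (0 : ℂ) 1] (Complex.exp (ψ * Complex.I))]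
      (fun z : ℂ => ‖z - Complex.exp (ψ * Complex.I)‖ ^ (κ₁ + κ₂)) := by
    have hcont : ContinuousAt (fun z : ℂ => Real.exp (-chEll φ₁ ψ φ₂ κ₁ κ₂) *
        ‖z - Complex.exp (φ₁ * Complex.I)‖ ^ (-κ₁) * ‖z - Complex.exp (φ₂ * Complex.I)‖ ^ (-κ₂))
        (Complex.exp (ψ * Complex.I)) := by
      refine ContinuousAt.mul (ContinuousAt.mul continuousAt_const ?_) ?_
      · exact ContinuousAt.rpow_const (by fun_prop) (Or.inl (norm_ne_zero_iff.mpr (sub_ne_zero.mpr d1)))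
      · exact ContinuousAt.rpow_const (by fun_prop) (Or.inl (norm_ne_zero_iff.mpr (sub_ne_zero.mpr d2)))
    have hb := (hcont.tendsto.isBigO_one ℝ).mono (nhdsWithin_le_nhds (s := ball (0:ℂ) 1))
    have hb2 := hb.mul (Asymptotics.isBigO_refl
      (fun z : ℂ => ‖z - Complex.exp (ψ * Complex.I)‖ ^ (κ₁ + κ₂))
      (𝓝[ball (0 : ℂ) 1] (Complex.exp (ψ * Complex.I))))
    simp only [one_mul] at hb2
    refine Asymptotics.IsBigO.trans ?_ hb2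
    refine Asymptotics.IsBigO.of_bound 1 ?_
    filter_upwards [CHR_near_le hn, self_mem_nhdsWithin] with z hz2 hz3
    rw [CHE_size k1 k2 hz3, one_mul]
    refine le_trans (le_of_eq ?_) (le_abs_self _)
    ring
  have hq := CHR_small hn (chDL φ₁ ψ φ₂ κ₁ κ₂) (fun z => Complex.exp (chLam φ₁ ψ φ₂ κ₁ κ₂ z))
    (a := κ₁ + κ₂) (by linarith) (CHR_DL_near hn) hE
  refine (hreg.add hq).congr' ?_ (Eventually.of_forall fun _ => rfl)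
  filter_upwards [self_mem_nhdsWithin] with z hz
  have hne : Complex.exp (chLam φ₁ ψ φ₂ κ₁ κ₂ z) - 1 ≠ 0 := sub_ne_zero.mpr (hCHC hz)
  have e1 : chDL φ₁ ψ φ₂ κ₁ κ₂ z * (Complex.exp (chLam φ₁ ψ φ₂ κ₁ κ₂ z) /
      (Complex.exp (chLam φ₁ ψ φ₂ κ₁ κ₂ z) - 1)) = chDL φ₁ ψ φ₂ κ₁ κ₂ z +
      chDL φ₁ ψ φ₂ κ₁ κ₂ z / (Complex.exp (chLam φ₁ ψ φ₂ κ₁ κ₂ z) - 1) := by
    field_simp
    ring
  show chK 0 z - 1 / 2 * (κ₁ * chK φ₁ z + κ₂ * chK φ₂ z) + chDL φ₁ ψ φ₂ κ₁ κ₂ z *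
    (Complex.exp (chLam φ₁ ψ φ₂ κ₁ κ₂ z) / (Complex.exp (chLam φ₁ ψ φ₂ κ₁ κ₂ z) - 1)) =
    chR φ₁ ψ φ₂ κ₁ κ₂ z
  rw [e1]
  unfold chR
  rw [CHR_K_zero]
  generalize chDL φ₁ ψ φ₂ κ₁ κ₂ z / (Complex.exp (chLam φ₁ ψ φ₂ κ₁ κ₂ z) - 1) = T
  unfold chDL
  ring

theorem CHR_pt0 (h : ChordData φ₁ ψ φ₂ κ₁ κ₂) {s : ℝ} (hs : 0 ≤ s) :
    ∃ C : ℝ, ∀ᶠ z in 𝓝[ball (0 : ℂ) 1] (1 : ℂ),
      ‖chR φ₁ ψ φ₂ κ₁ κ₂ z‖ ≤ C * ‖z - 1‖ ^ (-s) := by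
  obtain ⟨C, hC⟩ := CHY h
  have h1 : 𝓝[ball (0 : ℂ) 1] (1 : ℂ) ≤ 𝓝[≠] (1 : ℂ) := by
    refine nhdsWithin_mono _ ?_
    rintro z hz rfl
    simp at hz
  have h2 : (chR φ₁ ψ φ₂ κ₁ κ₂) =O[𝓝[ball (0 : ℂ) 1] (1 : ℂ)] (fun _ => (1 : ℝ)) := by
    refine Asymptotics.IsBigO.of_bound C ?_
    filter_upwards [h1 hC] with z hz
    simpa using hz
  have h3 := h2.trans (CHR_one_le_pow (ζ := (1:ℂ)) (by simp) (b := -s) (by linarith))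
  obtain ⟨C', hC'⟩ := h3.bound
  refine ⟨C', ?_⟩
  filter_upwards [hC'] with z hz
  rwa [Real.norm_of_nonneg (Real.rpow_nonneg (norm_nonneg _) _)] at hz

theorem CHR (h : ChordData φ₁ ψ φ₂ κ₁ κ₂) {z : ℂ} (hz : z ∈ ball (0 : ℂ) 1) :
    0 ≤ (chR φ₁ ψ φ₂ κ₁ κ₂ z).re := by
  have k1 := h.k1
  have k2 := h.k2
  have ks := h.ks
  obtain ⟨C0, hC0⟩ := CHR_pt0 h (s := max (1 - κ₁) (1 - κ₂))
    (le_max_of_le_left (by linarith))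
  obtain ⟨C1, hC1⟩ := CHR_pt1 h (s := max (1 - κ₁) (1 - κ₂)) (le_max_left _ _)
  obtain ⟨C2, hC2⟩ := CHR_pt2 h (s := max (1 - κ₁) (1 - κ₂)) (le_max_right _ _)
  obtain ⟨C3, hC3⟩ := CHR_pt3 h (s := max (1 - κ₁) (1 - κ₂)) (le_max_of_le_left (by linarith))
  have key : ∀ (ζ : ℂ) (C : ℝ), C ≤ max (max C0 C1) (max C2 C3) →
      (∀ᶠ z in 𝓝[ball (0 : ℂ) 1] ζ, ‖chR φ₁ ψ φ₂ κ₁ κ₂ z‖ ≤
        C * ‖z - ζ‖ ^ (-(max (1 - κ₁) (1 - κ₂)))) →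
      (∀ᶠ z in 𝓝[ball (0 : ℂ) 1] ζ, ‖chR φ₁ ψ φ₂ κ₁ κ₂ z‖ ≤
        max (max C0 C1) (max C2 C3) * ‖z - ζ‖ ^ (-(max (1 - κ₁) (1 - κ₂)))) := by
    intro ζ C hC hev
    filter_upwards [hev] with z hz
    exact hz.trans (mul_le_mul_of_nonneg_right hC (Real.rpow_nonneg (norm_nonneg _) _))
  refine MNP (chR φ₁ ψ φ₂ κ₁ κ₂) (CHR_diff h) {1, Complex.exp (φ₁ * Complex.I),
    Complex.exp (φ₂ * Complex.I), Complex.exp (ψ * Complex.I)} (max (1 - κ₁) (1 - κ₂))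
    (max (max C0 C1) (max C2 C3)) (lt_max_of_lt_left (by linarith))
    (max_lt (by linarith) (by linarith)) ?_ ?_ z hz
  · intro ζ hζ hne
    simp only [Finset.mem_insert, Finset.mem_singleton, not_or] at hne
    exact CHR_bdry h hζ hne.1 hne.2.1 hne.2.2.2 hne.2.2.1
  · intro ζ hζ
    simp only [Finset.mem_insert, Finset.mem_singleton] at hζ
    rcases hζ with rfl | rfl | rfl | rfl
    · exact ⟨by simp, key _ _ (by simp) hC0⟩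
    · exact ⟨Complex.norm_exp_ofReal_mul_I _, key _ _ (by simp) hC1⟩
    · exact ⟨Complex.norm_exp_ofReal_mul_I _, key _ _ (by simp) hC2⟩
    · exact ⟨Complex.norm_exp_ofReal_mul_I _, key _ _ (by simp) hC3⟩

end

end Pool.H90.VK
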