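import Pool.Agent.H90.VK.MEM

/-!
# DEC : a decomposition lemma

Let `f ∈ V_k` and let `Q₁, Q₂` be analytic without zeros on the disc, `Q₁(0) = Q₂(0) = 1`,
`t Q₁ + (1-t) Q₂ = 1`, `Q₁ ≢ 1`.  Let `g, h` be the primitives with `g(0) = h(0) = 0`,
`g' = f' Q₁`, `h' = f' Q₂` (holomorphic functions on a disc have primitives:
`DifferentiableOn.isExactOn_ball` or `Complex.IsExactOn` in Mathlib, or integrate along rays).
Then `f = t g + (1-t) h` on the disc (both sides vanish at 0 and have the same derivative), `g ≠ h`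
(if `g = h` on the disc then `Q₁ = Q₂` there, so `Q₁ = 1`).
`g'' = f'' Q₁ + f' Q₁'`, so `1 + z g''/g' = 1 + z f''/f' + z Q₁'/Q₁`, and `g ∈ V_k` by `MEM_inV`.
(Note `deriv g = f' Q₁` only on the ball; for `deriv (deriv g) z` use that the ball is open:
`Filter.EventuallyEq.deriv_eq`.)
-/

open MeasureTheory Set Filter Topology Metric
open scoped Real ENNReal ComplexConjugate

namespace Pool.H90.VK

noncomputable section

/-- primitives on the disc -/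
theorem DEC_prim (F : ℂ → ℂ) (hF : DifferentiableOn ℂ F (ball (0 : ℂ) 1)) :
    ∃ g : ℂ → ℂ, DifferentiableOn ℂ g (ball (0 : ℂ) 1) ∧ g 0 = 0 ∧
      ∀ z ∈ ball (0 : ℂ) 1, HasDerivAt g (F z) z := by
  obtain ⟨g, hg⟩ := hF.isExactOn_ball
  refine ⟨fun z => g z - g 0, ?_, by simp, fun z hz => (hg z hz).sub_const _⟩
  exact fun z hz => ((hg z hz).sub_const _).differentiableAt.differentiableWithinAt

theorem DEC_mem {k : ℝ} {f g : ℂ → ℂ} (hf : InV k f) (Q : ℂ → ℂ)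
    (d1 : DifferentiableOn ℂ Q (ball (0 : ℂ) 1)) (z1 : Q 0 = 1)
    (n1 : ∀ z ∈ ball (0 : ℂ) 1, Q z ≠ 0)
    (a₁ b₁ : ℂ → ℂ)
    (da₁ : DifferentiableOn ℂ a₁ (ball (0 : ℂ) 1)) (db₁ : DifferentiableOn ℂ b₁ (ball (0 : ℂ) 1))
    (pa₁ : ∀ z ∈ ball (0 : ℂ) 1, 0 ≤ (a₁ z).re) (pb₁ : ∀ z ∈ ball (0 : ℂ) 1, 0 ≤ (b₁ z).re)
    (m₁ : (a₁ 0).re + (b₁ 0).re ≤ k / 2)
    (h₁ : ∀ z ∈ ball (0 : ℂ) 1,
      (1 + z * deriv (deriv f) z / deriv f z + z * deriv Q z / Q z).re = (a₁ z).re - (b₁ z).re)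
    (hgd : DifferentiableOn ℂ g (ball (0 : ℂ) 1)) (hg0 : g 0 = 0)
    (hg : ∀ z ∈ ball (0 : ℂ) 1, HasDerivAt g (deriv f z * Q z) z) : InV k g := by
  have h0 : (0 : ℂ) ∈ ball (0 : ℂ) 1 := mem_ball_self one_pos
  have hf' : DifferentiableOn ℂ (deriv f) (ball (0 : ℂ) 1) := hf.diff.deriv isOpen_ball
  refine MEM_inV hgd hg0 ?_ ?_ a₁ b₁ da₁ db₁ pa₁ pb₁ ?_ m₁
  · rw [(hg 0 h0).deriv, hf.one, z1, one_mul]
  · intro z hz
    rw [(hg z hz).deriv]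
    exact mul_ne_zero (hf.ne_zero z hz) (n1 z hz)
  · intro z hz
    rw [← h₁ z hz]
    have hnb : ball (0 : ℂ) 1 ∈ 𝓝 z := isOpen_ball.mem_nhds hz
    have e1 : deriv g =ᶠ[𝓝 z] fun w => deriv f w * Q w := by
      filter_upwards [hnb] with w hw
      exact (hg w hw).deriv
    have e2 : deriv (deriv g) z = deriv (deriv f) z * Q z + deriv f z * deriv Q z := by
      rw [e1.deriv_eq]
      exact deriv_fun_mul (hf'.differentiableAt hnb) (d1.differentiableAt hnb)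
    rw [e2, (hg z hz).deriv]
    have hfz := hf.ne_zero z hz
    have hQz := n1 z hz
    congr 1
    field_simp
    ring

theorem DEC {k : ℝ} {f : ℂ → ℂ} (hf : InV k f) (Q₁ Q₂ : ℂ → ℂ) (t : ℝ) (ht0 : 0 < t) (ht1 : t < 1)
    (d1 : DifferentiableOn ℂ Q₁ (ball (0 : ℂ) 1)) (d2 : DifferentiableOn ℂ Q₂ (ball (0 : ℂ) 1))
    (z1 : Q₁ 0 = 1) (z2 : Q₂ 0 = 1)
    (n1 : ∀ z ∈ ball (0 : ℂ) 1, Q₁ z ≠ 0) (n2 : ∀ z ∈ ball (0 : ℂ) 1, Q₂ z ≠ 0)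
    (hsum : ∀ z ∈ ball (0 : ℂ) 1, t * Q₁ z + (1 - t) * Q₂ z = 1)
    (hne : ∃ z ∈ ball (0 : ℂ) 1, Q₁ z ≠ 1)
    (a₁ b₁ a₂ b₂ : ℂ → ℂ)
    (da₁ : DifferentiableOn ℂ a₁ (ball (0 : ℂ) 1)) (db₁ : DifferentiableOn ℂ b₁ (ball (0 : ℂ) 1))
    (da₂ : DifferentiableOn ℂ a₂ (ball (0 : ℂ) 1)) (db₂ : DifferentiableOn ℂ b₂ (ball (0 : ℂ) 1))
    (pa₁ : ∀ z ∈ ball (0 : ℂ) 1, 0 ≤ (a₁ z).re) (pb₁ : ∀ z ∈ ball (0 : ℂ) 1, 0 ≤ (b₁ z).re)
    (pa₂ : ∀ z ∈ ball (0 : ℂ) 1, 0 ≤ (a₂ z).re) (pb₂ : ∀ z ∈ ball (0 : ℂ) 1, 0 ≤ (b₂ z).re)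
    (m₁ : (a₁ 0).re + (b₁ 0).re ≤ k / 2) (m₂ : (a₂ 0).re + (b₂ 0).re ≤ k / 2)
    (h₁ : ∀ z ∈ ball (0 : ℂ) 1,
      (1 + z * deriv (deriv f) z / deriv f z + z * deriv Q₁ z / Q₁ z).re = (a₁ z).re - (b₁ z).re)
    (h₂ : ∀ z ∈ ball (0 : ℂ) 1,
      (1 + z * deriv (deriv f) z / deriv f z + z * deriv Q₂ z / Q₂ z).re = (a₂ z).re - (b₂ z).re) :
    ¬ IsExtreme k f := by
  rintro ⟨-, hcon⟩
  apply hcon
  have h0 : (0 : ℂ) ∈ ball (0 : ℂ) 1 := mem_ball_self one_pos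
  have hf' : DifferentiableOn ℂ (deriv f) (ball (0 : ℂ) 1) := hf.diff.deriv isOpen_ball
  obtain ⟨g, hgd, hg0, hg⟩ := DEC_prim (fun z => deriv f z * Q₁ z) (hf'.mul d1)
  obtain ⟨h, hhd, hh0, hh⟩ := DEC_prim (fun z => deriv f z * Q₂ z) (hf'.mul d2)
  refine ⟨g, h, t, DEC_mem hf Q₁ d1 z1 n1 a₁ b₁ da₁ db₁ pa₁ pb₁ m₁ h₁ hgd hg0 hg,
    DEC_mem hf Q₂ d2 z2 n2 a₂ b₂ da₂ db₂ pa₂ pb₂ m₂ h₂ hhd hh0 hh, ht0, ht1, ?_, ?_⟩
  · have hder : ∀ z ∈ ball (0 : ℂ) 1,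
        HasDerivAt (fun z => t * g z + (1 - t) * h z) (deriv f z) z := by
      intro z hz
      have h3 := ((hg z hz).const_mul (t : ℂ)).add ((hh z hz).const_mul (1 - t : ℂ))
      have h4 : (t : ℂ) * (deriv f z * Q₁ z) + (1 - t) * (deriv f z * Q₂ z) = deriv f z := by
        linear_combination (deriv f z) * hsum z hz
      rw [h4] at h3
      exact h3
    have hEq : EqOn f (fun z => t * g z + (1 - t) * h z) (ball (0 : ℂ) 1) := by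
      apply isOpen_ball.eqOn_of_deriv_eq (convex_ball (0 : ℂ) 1).isPreconnected hf.diff
        (fun z hz => (hder z hz).differentiableAt.differentiableWithinAt) _ h0
      · show f 0 = t * g 0 + (1 - t) * h 0
        rw [hf.zero, hg0, hh0]
        ring
      · intro z hz
        exact ((hder z hz).deriv).symm
    exact hEq
  · by_contra hcon2
    push Not at hcon2
    obtain ⟨z, hz, hQ⟩ := hne
    apply hQ
    have e1 : g =ᶠ[𝓝 z] h := by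
      filter_upwards [isOpen_ball.mem_nhds hz] with w hw
      exact hcon2 w hw
    have e2 := e1.deriv_eq
    rw [(hg z hz).deriv, (hh z hz).deriv] at e2
    have e3 := mul_left_cancel₀ (hf.ne_zero z hz) e2
    have e4 := hsum z hz
    rw [← e3] at e4
    linear_combination e4

end

end Pool.H90.VK
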