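import Pool.Agent.H90.VK.Defs

/-!
# NBK : the lens inequality

Let `|x₁| = |x₂| = 1`, `|z| < 1`, `0 < g ≤ 1`,
`R = exp (g * (log (1 - conj x₁ z) - log (1 - conj x₂ z)))`, `p_j = (x_j + z)/(x_j - z)`.
Then `1 + R ≠ 0` and `0 ≤ Re ((p₂ + R p₁)/(1 + R))`.

Proof. Let `ψ = arg (1 - conj x₁ z) - arg (1 - conj x₂ z)`, `|ψ| < π` (both args are in
`(-π/2, π/2)`), `ρ = |1 - conj x₁ z|/|1 - conj x₂ z| > 0`; `R = ρ^g e^{i g ψ}`, and `|gψ| < π`, so
`R` is not a negative real: `1 + R ≠ 0`.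
`Re ((p₂ + R p₁)/(1+R)) = Re ((p₂ + R p₁)(1 + conj R)) / |1+R|^2` and
`Re ((p₂ + R p₁)(1 + conj R)) = Re p₂ + |R|^2 Re p₁ + Re (p₂ conj R + p₁ R)`.
Here `Re p_j > 0`. It remains: `Re (p₂ conj R + p₁ R) ≥ 0`.
With `X = Re p₁ + Re p₂ ≥ 0`, `Y = Im p₂ - Im p₁`:
`Re (p₂ conj R + p₁ R) = |R| (X cos(gψ) + Y sin(gψ))`.
* `g = 1`: here `R = (1 - conj x₁ z)/(1 - conj x₂ z)`, `p₁ R = (1 + conj x₁ z)/(1 - conj x₂ z)`, and
  `Re (p₂ conj R + p₁ R) = (2 - 2 |z|^2 Re(conj x₁ x₂))/|1 - conj x₂ z|^2 ≥ 0`.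
  [expand `(1 + conj x₂ z)(1 - x₁ conj z) + (1 + conj x₁ z)(1 - x₂ conj z)`; the linear terms have
  total real part 0.]  So `X cos ψ + Y sin ψ ≥ 0`.
* `0 < g ≤ 1`: if `ψ = 0`, `cos = 1, sin = 0`, fine. Otherwise, by
  `(X cos φ + Y sin φ) sin ψ = X sin(ψ - φ) + (X cos ψ + Y sin ψ) sin φ` with `φ = gψ`
  (for `ψ > 0`: `sin ψ > 0`, `sin (ψ-φ) ≥ 0`, `sin φ ≥ 0`; for `ψ < 0` all three are `≤ 0`).
-/

open MeasureTheory Set Filter Topology Metric
open scoped Real ENNReal ComplexConjugate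

namespace Pool.H90.VK

noncomputable section

/-- the exponent function -/
def lensR (x₁ x₂ : ℂ) (g : ℝ) (z : ℂ) : ℂ :=
  Complex.exp (g * (Complex.log (1 - conj x₁ * z) - Complex.log (1 - conj x₂ * z)))

theorem NBK_S {X Y ψ g : ℝ} (hX : 0 ≤ X) (hψ : |ψ| < π) (hg0 : 0 < g) (hg1 : g ≤ 1)
    (hS : 0 ≤ X * Real.cos ψ + Y * Real.sin ψ) :
    0 ≤ X * Real.cos (g * ψ) + Y * Real.sin (g * ψ) := by
  have key : (X * Real.cos (g * ψ) + Y * Real.sin (g * ψ)) * Real.sin ψ =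
      X * Real.sin (ψ - g * ψ) + (X * Real.cos ψ + Y * Real.sin ψ) * Real.sin (g * ψ) := by
    rw [Real.sin_sub]
    ring
  obtain ⟨hψ1, hψ2⟩ := abs_lt.1 hψ
  rcases lt_trichotomy ψ 0 with h | h | h
  · have h1 : Real.sin ψ < 0 := Real.sin_neg_of_neg_of_neg_pi_lt h hψ1
    have h2 : Real.sin (ψ - g * ψ) ≤ 0 :=
      Real.sin_nonpos_of_nonpos_of_neg_pi_le (by nlinarith) (by nlinarith)
    have h3 : Real.sin (g * ψ) ≤ 0 :=
      Real.sin_nonpos_of_nonpos_of_neg_pi_le (by nlinarith) (by nlinarith)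
    by_contra hc
    push Not at hc
    have h4 := mul_pos_of_neg_of_neg hc h1
    have h5 := mul_nonpos_of_nonneg_of_nonpos hX h2
    have h6 := mul_nonpos_of_nonneg_of_nonpos hS h3
    linarith
  · subst h
    simpa using hX
  · have h1 : 0 < Real.sin ψ := Real.sin_pos_of_pos_of_lt_pi h hψ2
    have h2 : 0 ≤ Real.sin (ψ - g * ψ) :=
      Real.sin_nonneg_of_nonneg_of_le_pi (by nlinarith) (by nlinarith)
    have h3 : 0 ≤ Real.sin (g * ψ) :=
      Real.sin_nonneg_of_nonneg_of_le_pi (by nlinarith) (by nlinarith)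
    by_contra hc
    push Not at hc
    have h4 := mul_neg_of_neg_of_pos hc h1
    have h5 := mul_nonneg hX h2
    have h6 := mul_nonneg hS h3
    linarith

theorem NBK_arg {w₁ w₂ : ℂ} (h1 : ‖w₁‖ < 1) (h2 : ‖w₂‖ < 1) :
    |(Complex.log (1 - w₁) - Complex.log (1 - w₂)).im| < π := by
  have ha : ∀ w : ℂ, ‖w‖ < 1 → |Complex.arg (1 - w)| < π / 2 := by
    intro w hw
    rw [Complex.abs_arg_lt_pi_div_two_iff]
    left
    have := Complex.re_le_norm w
    simp only [Complex.sub_re, Complex.one_re]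
    linarith
  rw [Complex.sub_im, Complex.log_im, Complex.log_im]
  have h3 := abs_lt.1 (ha w₁ h1)
  have h4 := abs_lt.1 (ha w₂ h2)
  rw [abs_lt]
  constructor <;> linarith

theorem NBK_ne' {D : ℂ} (hD : |D.im| < π) {g : ℝ} (hg0 : 0 < g) (hg1 : g ≤ 1) :
    1 + Complex.exp (g * D) ≠ 0 := by
  intro h
  have h1 : (1 + Complex.exp (g * D)).im = 0 := by rw [h]; rfl
  have h2 : (1 + Complex.exp (g * D)).re = 0 := by rw [h]; rfl
  rw [Complex.add_im, Complex.exp_im, Complex.one_im, zero_add, Complex.re_ofReal_mul,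
    Complex.im_ofReal_mul] at h1
  rw [Complex.add_re, Complex.exp_re, Complex.one_re, Complex.re_ofReal_mul,
    Complex.im_ofReal_mul] at h2
  obtain ⟨hD1, hD2⟩ := abs_lt.1 hD
  have h3 : Real.sin (g * D.im) = 0 := by
    rcases mul_eq_zero.1 h1 with h | h
    · exact absurd h (Real.exp_pos _).ne'
    · exact h
  have h4 : |g * D.im| < π := by
    rw [abs_mul, abs_of_pos hg0]
    have := abs_nonneg D.im
    nlinarith
  obtain ⟨h5, h6⟩ := abs_lt.1 h4
  have h7 : g * D.im = 0 := (Real.sin_eq_zero_iff_of_lt_of_lt h5 h6).1 h3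
  rw [h7, Real.cos_zero, mul_one] at h2
  have := Real.exp_pos (g * D.re)
  linarith

theorem NBK_w {w₁ w₂ : ℂ} (h1 : ‖w₁‖ < 1) (h2 : ‖w₂‖ < 1) {g : ℝ} (hg0 : 0 < g)
    (hg1 : g ≤ 1) :
    0 ≤ (((1 + w₂) / (1 - w₂) + Complex.exp (g * (Complex.log (1 - w₁) - Complex.log (1 - w₂))) *
      ((1 + w₁) / (1 - w₁))) /
      (1 + Complex.exp (g * (Complex.log (1 - w₁) - Complex.log (1 - w₂))))).re := by
  have hn1 : 1 - w₁ ≠ 0 := by
    intro h
    rw [sub_eq_zero] at h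
    rw [← h, norm_one] at h1
    exact lt_irrefl _ h1
  have hn2 : 1 - w₂ ≠ 0 := by
    intro h
    rw [sub_eq_zero] at h
    rw [← h, norm_one] at h2
    exact lt_irrefl _ h2
  set D : ℂ := Complex.log (1 - w₁) - Complex.log (1 - w₂) with hD
  have hexp : Complex.exp D = (1 - w₁) / (1 - w₂) := by
    rw [hD, Complex.exp_sub, Complex.exp_log hn1, Complex.exp_log hn2]
  have hψ : |D.im| < π := NBK_arg h1 h2
  set p₁ : ℂ := (1 + w₁) / (1 - w₁) with hp1
  set p₂ : ℂ := (1 + w₂) / (1 - w₂) with hp2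
  have hN1 : 0 < (1 - w₁.re) ^ 2 + w₁.im ^ 2 := by
    have := Complex.normSq_pos.2 hn1
    rw [Complex.normSq_apply] at this
    simp only [Complex.sub_re, Complex.one_re, Complex.sub_im, Complex.one_im] at this
    nlinarith
  have hN2 : 0 < (1 - w₂.re) ^ 2 + w₂.im ^ 2 := by
    have := Complex.normSq_pos.2 hn2
    rw [Complex.normSq_apply] at this
    simp only [Complex.sub_re, Complex.one_re, Complex.sub_im, Complex.one_im] at this
    nlinarith
  have hq1 : w₁.re ^ 2 + w₁.im ^ 2 < 1 := by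
    have h3 : ‖w₁‖ ^ 2 < 1 := by
      have := norm_nonneg w₁
      nlinarith
    rw [← Complex.normSq_eq_norm_sq, Complex.normSq_apply] at h3
    nlinarith
  have hq2 : w₂.re ^ 2 + w₂.im ^ 2 < 1 := by
    have h3 : ‖w₂‖ ^ 2 < 1 := by
      have := norm_nonneg w₂
      nlinarith
    rw [← Complex.normSq_eq_norm_sq, Complex.normSq_apply] at h3
    nlinarith
  have nsq : ∀ w : ℂ, Complex.normSq (1 - w) = (1 - w.re) ^ 2 + w.im ^ 2 := by
    intro w
    rw [Complex.normSq_apply]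
    simp only [Complex.sub_re, Complex.one_re, Complex.sub_im, Complex.one_im]
    ring
  have p1re : p₁.re = (1 - w₁.re ^ 2 - w₁.im ^ 2) / ((1 - w₁.re) ^ 2 + w₁.im ^ 2) := by
    rw [hp1, Complex.div_re, nsq]
    simp only [Complex.sub_re, Complex.one_re, Complex.sub_im, Complex.one_im, Complex.add_re,
      Complex.add_im]
    ring
  have p1im : p₁.im = 2 * w₁.im / ((1 - w₁.re) ^ 2 + w₁.im ^ 2) := by
    rw [hp1, Complex.div_im, nsq]
    simp only [Complex.sub_re, Complex.one_re, Complex.sub_im, Complex.one_im, Complex.add_re,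
      Complex.add_im]
    ring
  have p2re : p₂.re = (1 - w₂.re ^ 2 - w₂.im ^ 2) / ((1 - w₂.re) ^ 2 + w₂.im ^ 2) := by
    rw [hp2, Complex.div_re, nsq]
    simp only [Complex.sub_re, Complex.one_re, Complex.sub_im, Complex.one_im, Complex.add_re,
      Complex.add_im]
    ring
  have p2im : p₂.im = 2 * w₂.im / ((1 - w₂.re) ^ 2 + w₂.im ^ 2) := by
    rw [hp2, Complex.div_im, nsq]
    simp only [Complex.sub_re, Complex.one_re, Complex.sub_im, Complex.one_im, Complex.add_re,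
      Complex.add_im]
    ring
  have ere : (Complex.exp D).re = ((1 - w₁.re) * (1 - w₂.re) + w₁.im * w₂.im) /
      ((1 - w₂.re) ^ 2 + w₂.im ^ 2) := by
    rw [hexp, Complex.div_re, nsq]
    simp only [Complex.sub_re, Complex.one_re, Complex.sub_im, Complex.one_im]
    ring
  have eim : (Complex.exp D).im = ((1 - w₁.re) * w₂.im - w₁.im * (1 - w₂.re)) /
      ((1 - w₂.re) ^ 2 + w₂.im ^ 2) := by
    rw [hexp, Complex.div_im, nsq]
    simp only [Complex.sub_re, Complex.one_re, Complex.sub_im, Complex.one_im]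
    ring
  have hp1pos : 0 ≤ p₁.re := by
    rw [p1re]
    exact div_nonneg (by linarith) hN1.le
  have hp2pos : 0 ≤ p₂.re := by
    rw [p2re]
    exact div_nonneg (by linarith) hN2.le
  have hS1 : (p₁.re + p₂.re) * (Complex.exp D).re + (p₂.im - p₁.im) * (Complex.exp D).im =
      (2 - 2 * (w₁.re * w₂.re + w₁.im * w₂.im)) / ((1 - w₂.re) ^ 2 + w₂.im ^ 2) := by
    rw [p1re, p1im, p2re, p2im, ere, eim]
    field_simp
    ring
  have hS2 : 0 ≤ (p₁.re + p₂.re) * (Complex.exp D).re + (p₂.im - p₁.im) * (Complex.exp D).im := by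
    rw [hS1]
    apply div_nonneg _ hN2.le
    nlinarith [sq_nonneg (w₁.re - w₂.re), sq_nonneg (w₁.im - w₂.im)]
  have hS : 0 ≤ (p₁.re + p₂.re) * Real.cos D.im + (p₂.im - p₁.im) * Real.sin D.im := by
    rw [Complex.exp_re, Complex.exp_im] at hS2
    have h3 : (p₁.re + p₂.re) * (Real.exp D.re * Real.cos D.im) +
        (p₂.im - p₁.im) * (Real.exp D.re * Real.sin D.im) =
        Real.exp D.re * ((p₁.re + p₂.re) * Real.cos D.im + (p₂.im - p₁.im) * Real.sin D.im) := by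
      ring
    rw [h3] at hS2
    exact nonneg_of_mul_nonneg_right hS2 (Real.exp_pos _)
  have hSg := NBK_S (add_nonneg hp1pos hp2pos) hψ hg0 hg1 hS
  have hR : 0 ≤ (p₁.re + p₂.re) * (Complex.exp (g * D)).re +
      (p₂.im - p₁.im) * (Complex.exp (g * D)).im := by
    rw [Complex.exp_re, Complex.exp_im, Complex.re_ofReal_mul, Complex.im_ofReal_mul]
    have h3 := mul_nonneg (Real.exp_pos (g * D.re)).le hSg
    calc 0 ≤ _ := h3
      _ = _ := by ring
  set R : ℂ := Complex.exp (g * D) with hRdef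
  rw [Complex.div_re, ← add_div]
  apply div_nonneg _ (Complex.normSq_nonneg _)
  simp only [Complex.add_re, Complex.add_im, Complex.mul_re, Complex.mul_im, Complex.one_re,
    Complex.one_im]
  have h4 : 0 ≤ (R.re ^ 2 + R.im ^ 2) * p₁.re := mul_nonneg (by positivity) hp1pos
  nlinarith

theorem NBK_conj {x z : ℂ} (h : ‖x‖ = 1) : ‖conj x * z‖ = ‖z‖ := by
  rw [norm_mul, Complex.norm_conj, h, one_mul]

theorem NBK_frac {x z : ℂ} (h : ‖x‖ = 1) :
    (x + z) / (x - z) = (1 + conj x * z) / (1 - conj x * z) := by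
  have hx : conj x * x = 1 := by
    rw [mul_comm, Complex.mul_conj, Complex.normSq_eq_norm_sq, h]
    norm_num
  have hc : conj x ≠ 0 := by
    intro h0
    rw [h0, zero_mul] at hx
    exact zero_ne_one hx
  rw [← mul_div_mul_left (x + z) (x - z) hc, mul_add, mul_sub, hx]

theorem NBK_ne {x₁ x₂ z : ℂ} (h1 : ‖x₁‖ = 1) (h2 : ‖x₂‖ = 1) (hz : ‖z‖ < 1) {g : ℝ} (hg0 : 0 < g)
    (hg1 : g ≤ 1) : 1 + lensR x₁ x₂ g z ≠ 0 :=
  NBK_ne' (NBK_arg (by rw [NBK_conj h1]; exact hz) (by rw [NBK_conj h2]; exact hz)) hg0 hg1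

theorem NBK_re {x₁ x₂ z : ℂ} (h1 : ‖x₁‖ = 1) (h2 : ‖x₂‖ = 1) (hz : ‖z‖ < 1) {g : ℝ} (hg0 : 0 < g)
    (hg1 : g ≤ 1) :
    0 ≤ (((x₂ + z) / (x₂ - z) + lensR x₁ x₂ g z * ((x₁ + z) / (x₁ - z))) /
      (1 + lensR x₁ x₂ g z)).re := by
  rw [NBK_frac h1, NBK_frac h2]
  exact NBK_w (by rw [NBK_conj h1]; exact hz) (by rw [NBK_conj h2]; exact hz) hg0 hg1

end

end Pool.H90.VK
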