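import Pool.Agent.H90.VK.DEC
import Pool.Agent.H90.VK.NBK

/-!
# NB : two atoms of the positive part imply not extreme

Let `β{x₁} ≠ 0`, `β{x₂} ≠ 0`, `x₁ ≠ x₂` (both on the circle since `β` is carried by it), and
`g = min 1 (min (β.real {x₁}) (β.real {x₂})) > 0`.  Let `R = lensR x₁ x₂ g`, `t = 1/2`,
`Q₁ = 2R/(1+R)`, `Q₂ = 2/(1+R)` (`R(0) = 1`, `R ≠ 0`, `1 + R ≠ 0` by `NBK_ne`); `Q₁ ≢ 1` since
otherwise `R ≡ 1`, i.e. `g (log(1 - conj x₁ z) - log(1 - conj x₂ z)) ∈ 2πiℤ`, constant, `= 0`, so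
`x₁ = x₂` (take e.g. the derivative at 0: `R'(0) = -g (conj x₁ - conj x₂) ≠ 0`).
With `p_j = (x_j+z)/(x_j-z)`: `z R'/R = (g/2)(p₂ - p₁)`,
`z Q₁'/Q₁ = (z R'/R)/(1+R)`, `z Q₂'/Q₂ = - (z R'/R) R/(1+R)`.
Let `β' ` be the measure `β - g δ_{x₁} - g δ_{x₂}` : it exists as a nonnegative measure, e.g.
`β' = β.restrict {x₁,x₂}ᶜ + (β{x₁} - g) δ_{x₁} + (β{x₂} - g) δ_{x₂}`, and
`Kg β = Kg β' + g p₁ + g p₂`.  Put `M = (p₂ + R p₁)/(1+R)` (`Re M ≥ 0`, `NBK_re`). Then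
`a₁ = Kg β'/2 + (g/2) p₂ + (g/2) M`, `b₁ = Kg α/2`,
`a₂ = Kg β'/2 + (g/2) p₁ + (g/2) M`, `b₂ = Kg α/2`:
indeed `(g/2)p₁ + (g/2)p₂ + (g/2)(p₂-p₁)/(1+R) = (g/2) p₂ + (g/2) M` and
`(g/2)p₁ + (g/2)p₂ - (g/2)(p₂-p₁)R/(1+R) = (g/2) p₁ + (g/2) M`.
At `0`: `a_i(0) = (β(T) - 2g)/2 + g/2 + g/2 = β(T)/2`, `b_i(0) = α(T)/2`. Apply `DEC`.
-/

open MeasureTheory Set Filter Topology Metric
open scoped Real ENNReal ComplexConjugate

namespace Pool.H90.VK

noncomputable section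

theorem NB_cc {x : ℂ} (hx : ‖x‖ = 1) : conj x * x = 1 := by
  rw [mul_comm, Complex.mul_conj, Complex.normSq_eq_norm_sq, hx]
  simp

theorem NB_re_pos {x z : ℂ} (hx : ‖x‖ = 1) (hz : ‖z‖ < 1) : 0 < (1 - conj x * z).re := by
  have h1 : ‖conj x * z‖ < 1 := by
    rw [norm_mul, RCLike.norm_conj, hx, one_mul]
    exact hz
  have h2 := (Complex.re_le_norm (conj x * z)).trans_lt h1
  rw [Complex.sub_re, Complex.one_re]
  linarith

theorem NB_one_ne {x z : ℂ} (hx : ‖x‖ = 1) (hz : ‖z‖ < 1) : 1 - conj x * z ≠ 0 := by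
  intro h
  have := NB_re_pos hx hz
  rw [h, Complex.zero_re] at this
  exact lt_irrefl _ this

theorem NB_sub_ne {x z : ℂ} (hx : ‖x‖ = 1) (hz : ‖z‖ < 1) : x - z ≠ 0 := by
  intro h
  have h1 : x = z := sub_eq_zero.mp h
  rw [h1] at hx
  exact absurd hx (ne_of_lt hz)

theorem NB_p {x z : ℂ} (hx : ‖x‖ = 1) (hz : ‖z‖ < 1) :
    (x + z) / (x - z) = (1 + conj x * z) / (1 - conj x * z) := by
  rw [div_eq_div_iff (NB_sub_ne hx hz) (NB_one_ne hx hz)]
  linear_combination (-2 * z) * NB_cc hx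

theorem NB_pdiff {x : ℂ} (hx : ‖x‖ = 1) :
    DifferentiableOn ℂ (fun z => (x + z) / (x - z)) (ball (0 : ℂ) 1) := by
  refine ((differentiableOn_const x).add differentiableOn_id).div
    ((differentiableOn_const x).sub differentiableOn_id) fun z hz => ?_
  exact NB_sub_ne hx (by rwa [mem_ball_zero_iff] at hz)

theorem NB_p_re {x z : ℂ} (hx : ‖x‖ = 1) (hz : ‖z‖ < 1) : 0 ≤ ((x + z) / (x - z)).re := by
  rw [KA_kernel_re hx hz]
  have h1 : ‖z‖ ^ 2 ≤ 1 := by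
    have := norm_nonneg z
    nlinarith
  exact div_nonneg (by linarith) (by positivity)

/-- the logarithmic derivative of `lensR` -/
def NB_L (x₁ x₂ : ℂ) (g : ℝ) (z : ℂ) : ℂ :=
  g * (-(conj x₁) / (1 - conj x₁ * z) - -(conj x₂) / (1 - conj x₂ * z))

theorem NB_Rderiv {x₁ x₂ z : ℂ} (h1 : ‖x₁‖ = 1) (h2 : ‖x₂‖ = 1) (hz : ‖z‖ < 1) (g : ℝ) :
    HasDerivAt (lensR x₁ x₂ g) (lensR x₁ x₂ g z * NB_L x₁ x₂ g z) z := by
  have hl : ∀ x : ℂ, ‖x‖ = 1 → HasDerivAt (fun z => Complex.log (1 - conj x * z))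
      (-(conj x) / (1 - conj x * z)) z := by
    intro x hx
    have h3 : HasDerivAt (fun z : ℂ => 1 - conj x * z) (-(conj x)) z := by
      have := ((hasDerivAt_id z).const_mul (conj x)).const_sub 1
      simpa using this
    exact h3.clog (Or.inl (NB_re_pos hx hz))
  have h3 := (((hl x₁ h1).sub (hl x₂ h2)).const_mul (g : ℂ)).cexp
  exact h3

theorem NB_Lmul {x₁ x₂ z : ℂ} (h1 : ‖x₁‖ = 1) (h2 : ‖x₂‖ = 1) (hz : ‖z‖ < 1) (g : ℝ) :
    z * NB_L x₁ x₂ g z = g / 2 * ((x₂ + z) / (x₂ - z) - (x₁ + z) / (x₁ - z)) := by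
  have key : ∀ (a b D₁ D₂ : ℂ), D₁ ≠ 0 → D₂ ≠ 0 → a * z = 1 - D₁ → b * z = 1 - D₂ →
      z * (g * (-a / D₁ - -b / D₂)) = g / 2 * ((1 + b * z) / D₂ - (1 + a * z) / D₁) := by
    intro a b D₁ D₂ h1 h2 ha hb
    have e : z * (g * (-a / D₁ - -b / D₂)) = g * (-(a * z) / D₁ + (b * z) / D₂) := by ring
    rw [e, ha, hb]
    field_simp
    ring
  rw [NB_p h1 hz, NB_p h2 hz, NB_L]
  exact key _ _ _ _ (NB_one_ne h1 hz) (NB_one_ne h2 hz) (by ring) (by ring)

theorem NB_oncircle {x : ℂ} (hx : ‖x‖ = 1) (c : ENNReal) :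
    OnCircle (c • Measure.dirac x) := by
  unfold OnCircle
  rw [Measure.smul_apply, Measure.dirac_apply' _ (isClosed_sphere.measurableSet.compl),
    indicator_of_notMem, smul_zero]
  simpa using hx

theorem NB_mem {β : Measure ℂ} (hβ : OnCircle β) {x : ℂ} (h : β {x} ≠ 0) : ‖x‖ = 1 := by
  by_contra hx
  apply h
  refine measure_mono_null ?_ hβ
  intro y hy
  rw [mem_singleton_iff] at hy
  subst hy
  simpa using hx

theorem NB {k : ℝ} {f : ℂ → ℂ} {β α : Measure ℂ} (hf : InV k f) (h : PRep k f β α) {x₁ x₂ : ℂ}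
    (hne : x₁ ≠ x₂) (h1 : β {x₁} ≠ 0) (h2 : β {x₂} ≠ 0) : ¬ IsExtreme k f := by
  have hfβ := h.finβ
  have hfα := h.finα
  have hx₁ := NB_mem h.circβ h1
  have hx₂ := NB_mem h.circβ h2
  have hb₁ : 0 < β.real {x₁} := ENNReal.toReal_pos h1 (measure_ne_top _ _)
  have hb₂ : 0 < β.real {x₂} := ENNReal.toReal_pos h2 (measure_ne_top _ _)
  set g : ℝ := min 1 (min (β.real {x₁}) (β.real {x₂})) with hg
  have hg0 : 0 < g := lt_min one_pos (lt_min hb₁ hb₂)
  have hg1 : g ≤ 1 := min_le_left _ _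
  have hgb₁ : g ≤ β.real {x₁} := (min_le_right _ _).trans (min_le_left _ _)
  have hgb₂ : g ≤ β.real {x₂} := (min_le_right _ _).trans (min_le_right _ _)
  -- the measure without the two small atoms
  set β' : Measure ℂ := β.restrict {x₁, x₂}ᶜ +
    (ENNReal.ofReal (β.real {x₁} - g) • Measure.dirac x₁ +
      ENNReal.ofReal (β.real {x₂} - g) • Measure.dirac x₂) with hβ'
  have hfin : ∀ (c : ℝ) (x : ℂ), IsFiniteMeasure (ENNReal.ofReal c • Measure.dirac x) :=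
    fun c x => Measure.smul_finite _ ENNReal.ofReal_ne_top
  have i1 := hfin (β.real {x₁} - g) x₁
  have i2 := hfin (β.real {x₂} - g) x₂
  have i3 := hfin g x₁
  have i4 := hfin g x₂
  have hfβ' : IsFiniteMeasure β' := by
    rw [hβ']
    infer_instance
  have hcβ' : OnCircle β' := by
    unfold OnCircle
    rw [hβ', Measure.add_apply, Measure.add_apply]
    have e1 : (ENNReal.ofReal (β.real {x₁} - g) • Measure.dirac x₁) (sphere (0 : ℂ) 1)ᶜ = 0 :=
      NB_oncircle hx₁ _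
    have e2 : (ENNReal.ofReal (β.real {x₂} - g) • Measure.dirac x₂) (sphere (0 : ℂ) 1)ᶜ = 0 :=
      NB_oncircle hx₂ _
    have e3 : (β.restrict {x₁, x₂}ᶜ) (sphere (0 : ℂ) 1)ᶜ = 0 :=
      le_antisymm ((Measure.restrict_apply_le _ _).trans h.circβ.le) zero_le
    rw [e1, e2, e3, add_zero, add_zero]
  have hsplit : β = β' + (ENNReal.ofReal g • Measure.dirac x₁ +
      ENNReal.ofReal g • Measure.dirac x₂) := by
    have e1 : β {x₁} = ENNReal.ofReal (β.real {x₁} - g) + ENNReal.ofReal g := by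
      rw [← ENNReal.ofReal_add (by linarith) hg0.le, sub_add_cancel, ofReal_measureReal]
    have e2 : β {x₂} = ENNReal.ofReal (β.real {x₂} - g) + ENNReal.ofReal g := by
      rw [← ENNReal.ofReal_add (by linarith) hg0.le, sub_add_cancel, ofReal_measureReal]
    have hms : MeasurableSet ({x₁, x₂} : Set ℂ) := (Set.toFinite _).measurableSet
    have e3 : β.restrict {x₁, x₂} = β {x₁} • Measure.dirac x₁ + β {x₂} • Measure.dirac x₂ := by
      have : ({x₁, x₂} : Set ℂ) = {x₁} ∪ {x₂} := rfl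
      rw [this, Measure.restrict_union (by simpa using hne) (measurableSet_singleton x₂),
        Measure.restrict_singleton, Measure.restrict_singleton]
    have e4 := Measure.restrict_add_restrict_compl (μ := β) hms
    rw [e3] at e4
    conv_lhs => rw [← e4, e1, e2, add_smul, add_smul]
    rw [hβ']
    abel
  have hKg : ∀ z : ℂ, ‖z‖ < 1 → Kg β z = Kg β' z + (g * ((x₁ + z) / (x₁ - z)) +
      g * ((x₂ + z) / (x₂ - z))) := by
    intro z hz
    have hc1 := NB_oncircle hx₁ (ENNReal.ofReal g)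
    have hc2 := NB_oncircle hx₂ (ENNReal.ofReal g)
    have hc3 : OnCircle (ENNReal.ofReal g • Measure.dirac x₁ +
        ENNReal.ofReal g • Measure.dirac x₂) := by
      unfold OnCircle at hc1 hc2 ⊢
      rw [Measure.add_apply, hc1, hc2, add_zero]
    conv_lhs => rw [hsplit]
    rw [KA_add _ _ hcβ' hc3 hz, KA_add _ _ hc1 hc2 hz, KA_dirac _ hg0.le, KA_dirac _ hg0.le]
  -- the functions
  set R : ℂ → ℂ := lensR x₁ x₂ g with hR
  have hball : ∀ z ∈ ball (0 : ℂ) 1, ‖z‖ < 1 := fun z hz => by rwa [mem_ball_zero_iff] at hz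
  have hR0 : R 0 = 1 := by
    simp [hR, lensR]
  have hRne : ∀ z, R z ≠ 0 := fun z => Complex.exp_ne_zero _
  have hR1 : ∀ z ∈ ball (0 : ℂ) 1, 1 + R z ≠ 0 := fun z hz =>
    NBK_ne hx₁ hx₂ (hball z hz) hg0 hg1
  have hRd : ∀ z ∈ ball (0 : ℂ) 1, HasDerivAt R (R z * NB_L x₁ x₂ g z) z := fun z hz =>
    NB_Rderiv hx₁ hx₂ (hball z hz) g
  have hRdiff : DifferentiableOn ℂ R (ball (0 : ℂ) 1) := fun z hz =>
    (hRd z hz).differentiableAt.differentiableWithinAt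
  have hQ₁d : ∀ z ∈ ball (0 : ℂ) 1, HasDerivAt (fun z => 2 * R z / (1 + R z))
      (2 * R z * NB_L x₁ x₂ g z / (1 + R z) ^ 2) z := by
    intro z hz
    have e := ((hRd z hz).const_mul 2).div ((hRd z hz).const_add 1) (hR1 z hz)
    refine e.congr_deriv ?_
    have := hR1 z hz
    field_simp
    ring
  have hQ₂d : ∀ z ∈ ball (0 : ℂ) 1, HasDerivAt (fun z => 2 / (1 + R z))
      (-(2 * R z * NB_L x₁ x₂ g z) / (1 + R z) ^ 2) z := by
    intro z hz
    have e := (hasDerivAt_const z (2 : ℂ)).div ((hRd z hz).const_add 1) (hR1 z hz)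
    refine e.congr_deriv ?_
    have := hR1 z hz
    field_simp
    ring
  have h0b : (0 : ℂ) ∈ ball (0 : ℂ) 1 := mem_ball_self one_pos
  have hQne : ∃ z ∈ ball (0 : ℂ) 1, 2 * R z / (1 + R z) ≠ 1 := by
    by_contra hcon
    push Not at hcon
    have e1 : (fun z => 2 * R z / (1 + R z)) =ᶠ[𝓝 0] fun _ => (1 : ℂ) := by
      filter_upwards [isOpen_ball.mem_nhds h0b] with z hz
      exact hcon z hz
    have e2 : deriv (fun z => 2 * R z / (1 + R z)) 0 = 0 := by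
      rw [e1.deriv_eq, deriv_const]
    rw [(hQ₁d 0 h0b).deriv, hR0] at e2
    have e3 : NB_L x₁ x₂ g 0 = 0 := by
      have e4 : NB_L x₁ x₂ g 0 = 2 * (2 * 1 * NB_L x₁ x₂ g 0 / (1 + 1) ^ 2) := by ring
      rw [e4, e2, mul_zero]
    rw [NB_L] at e3
    simp only [mul_zero, sub_zero, div_one] at e3
    rcases mul_eq_zero.mp e3 with e4 | e4
    · exact hg0.ne' (by exact_mod_cast e4)
    · apply hne
      have e5 : conj x₁ = conj x₂ := by linear_combination -e4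
      exact (starRingEnd ℂ).injective e5
  have hM : DifferentiableOn ℂ (fun z => ((x₂ + z) / (x₂ - z) + R z * ((x₁ + z) / (x₁ - z))) /
      (1 + R z)) (ball (0 : ℂ) 1) :=
    ((NB_pdiff hx₂).add (hRdiff.mul (NB_pdiff hx₁))).div
      ((differentiableOn_const (1 : ℂ)).add hRdiff) hR1
  have hK0 : Kg β' 0 = (β.real univ : ℂ) - 2 * g := by
    have e1 := hKg 0 (by simp)
    have n1 : x₁ ≠ 0 := by
      rintro rfl
      simp at hx₁
    have n2 : x₂ ≠ 0 := by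
      rintro rfl
      simp at hx₂
    rw [KA_zero β h.circβ, add_zero, sub_zero, div_self n1, add_zero, sub_zero, div_self n2] at e1
    linear_combination -e1
  have hp0 : ∀ x : ℂ, ‖x‖ = 1 → (x + 0) / (x - 0) = 1 := by
    intro x hx
    have n1 : x ≠ 0 := by
      rintro rfl
      simp at hx
    rw [add_zero, sub_zero, div_self n1]
  have hαK0 : (1 / 2 * Kg α 0).re = α.real univ / 2 := by
    rw [KA_zero α h.circα]
    simp
    ring
  have hre : ∀ (w₁ w₂ w₃ : ℂ), (1 / 2 * w₁ + g / 2 * w₂ + g / 2 * w₃).re =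
      1 / 2 * w₁.re + g / 2 * w₂.re + g / 2 * w₃.re := by
    intro w₁ w₂ w₃
    have c1 : (1 / 2 : ℂ) = ((1 / 2 : ℝ) : ℂ) := by push_cast; ring
    have c2 : (g / 2 : ℂ) = ((g / 2 : ℝ) : ℂ) := by push_cast; ring
    rw [c1, c2, Complex.add_re, Complex.add_re, Complex.re_ofReal_mul, Complex.re_ofReal_mul,
      Complex.re_ofReal_mul]
  have hreα : ∀ z ∈ ball (0 : ℂ) 1, 0 ≤ (1 / 2 * Kg α z).re := by
    intro z hz
    have c1 : (1 / 2 : ℂ) = ((1 / 2 : ℝ) : ℂ) := by push_cast; ring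
    rw [c1, Complex.re_ofReal_mul]
    have := KA_re_nonneg α h.circα (hball z hz)
    positivity
  have hdα : DifferentiableOn ℂ (fun z => 1 / 2 * Kg α z) (ball (0 : ℂ) 1) :=
    (KA_diff α h.circα).const_mul _
  have hpa : ∀ x : ℂ, ‖x‖ = 1 → ∀ z ∈ ball (0 : ℂ) 1, 0 ≤ (1 / 2 * Kg β' z +
      g / 2 * ((x + z) / (x - z)) + g / 2 * (((x₂ + z) / (x₂ - z) +
        R z * ((x₁ + z) / (x₁ - z))) / (1 + R z))).re := by
    intro x hx z hz
    rw [hre]
    have e1 := KA_re_nonneg β' hcβ' (hball z hz)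
    have e2 := NB_p_re hx (hball z hz)
    have e3 := NBK_re hx₁ hx₂ (hball z hz) hg0 hg1
    have e3' : 0 ≤ (((x₂ + z) / (x₂ - z) + R z * ((x₁ + z) / (x₁ - z))) / (1 + R z)).re := e3
    positivity
  have hda : ∀ x : ℂ, ‖x‖ = 1 → DifferentiableOn ℂ (fun z => 1 / 2 * Kg β' z +
      g / 2 * ((x + z) / (x - z)) + g / 2 * (((x₂ + z) / (x₂ - z) +
        R z * ((x₁ + z) / (x₁ - z))) / (1 + R z))) (ball (0 : ℂ) 1) := by
    intro x hx
    exact (((KA_diff β' hcβ').const_mul _).add ((NB_pdiff hx).const_mul _)).add (hM.const_mul _)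
  have hm : ∀ x : ℂ, ‖x‖ = 1 → (1 / 2 * Kg β' 0 +
      g / 2 * ((x + 0) / (x - 0)) + g / 2 * (((x₂ + 0) / (x₂ - 0) +
        R 0 * ((x₁ + 0) / (x₁ - 0))) / (1 + R 0))).re + (1 / 2 * Kg α 0).re ≤ k / 2 := by
    intro x hx
    rw [hαK0, hp0 x hx, hp0 x₁ hx₁, hp0 x₂ hx₂, hR0, hK0]
    have e1 : (1 / 2 * ((β.real univ : ℂ) - 2 * g) + g / 2 * 1 +
        g / 2 * ((1 + 1 * 1) / (1 + 1))) = ((β.real univ / 2 : ℝ) : ℂ) := by
      push_cast
      ring
    rw [e1, Complex.ofReal_re]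
    have := h.sum
    linarith
  refine DEC hf (fun z => 2 * R z / (1 + R z)) (fun z => 2 / (1 + R z)) (1 / 2) (by norm_num)
    (by norm_num) (fun z hz => (hQ₁d z hz).differentiableAt.differentiableWithinAt)
    (fun z hz => (hQ₂d z hz).differentiableAt.differentiableWithinAt)
    (by simp only [hR0]; norm_num) (by simp only [hR0]; norm_num)
    (fun z hz => div_ne_zero (mul_ne_zero two_ne_zero (hRne z)) (hR1 z hz))
    (fun z hz => div_ne_zero two_ne_zero (hR1 z hz))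
    (fun z hz => ?_) hQne
    (fun z => 1 / 2 * Kg β' z + g / 2 * ((x₂ + z) / (x₂ - z)) + g / 2 * (((x₂ + z) / (x₂ - z) +
        R z * ((x₁ + z) / (x₁ - z))) / (1 + R z)))
    (fun z => 1 / 2 * Kg α z)
    (fun z => 1 / 2 * Kg β' z + g / 2 * ((x₁ + z) / (x₁ - z)) + g / 2 * (((x₂ + z) / (x₂ - z) +
        R z * ((x₁ + z) / (x₁ - z))) / (1 + R z)))
    (fun z => 1 / 2 * Kg α z)
    (hda x₂ hx₂) hdα (hda x₁ hx₁) hdα (hpa x₂ hx₂) hreα (hpa x₁ hx₁) hreα (hm x₂ hx₂) (hm x₁ hx₁)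
    (fun z hz => ?_) (fun z hz => ?_)
  · have := hR1 z hz
    push_cast
    field_simp
    ring
  · rw [← Complex.sub_re, MEM_rep h hz, hKg z (hball z hz), (hQ₁d z hz).deriv]
    congr 1
    have e1 := hR1 z hz
    have e2 := hRne z
    have e3 : z * (2 * R z * NB_L x₁ x₂ g z / (1 + R z) ^ 2) / (2 * R z / (1 + R z)) =
        (z * NB_L x₁ x₂ g z) / (1 + R z) := by
      field_simp
    rw [e3, NB_Lmul hx₁ hx₂ (hball z hz)]
    field_simp
    ring
  · rw [← Complex.sub_re, MEM_rep h hz, hKg z (hball z hz), (hQ₂d z hz).deriv]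
    congr 1
    have e1 := hR1 z hz
    have e2 := hRne z
    have e3 : z * (-(2 * R z * NB_L x₁ x₂ g z) / (1 + R z) ^ 2) / (2 / (1 + R z)) =
        -(z * NB_L x₁ x₂ g z) * R z / (1 + R z) := by
      field_simp
    rw [e3, NB_Lmul hx₁ hx₂ (hball z hz)]
    field_simp
    ring

end

end Pool.H90.VK
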