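import Pool.Agent.H90.VK.CHR
import Pool.Agent.H90.VK.DEC
import Pool.Agent.H90.VK.NB

/-!
# CHX : functions that satisfy the necessary conditions but are not extreme

`CHX`. Let `m = β{y}`, `x_j = y e^{iφ_j}`, `u = y e^{iψ}`, `κ = κ₁+κ₂`, `Λ = chLam`, `t = 1 - e^{-ℓ} ∈ (0,1)`
(`CHB_ell`),
`Q₁(z) = (1 - e^{Λ(conj y z)})/(1 - e^{-ℓ})`, `Q₂(z) = e^{Λ(conj y z) + ℓ}`: analytic and zero-free on the disc (`CHC`),
`Q₁(0) = Q₂(0) = 1` (`CHE_Lam_zero`), `t Q₁ + (1-t) Q₂ = 1`, `Q₁ ≢ 1` (else `e^Λ = e^{-ℓ} < 1` on the disc, but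
`Λ` is continuous at `1`, `Λ(1) = 0` by `CHE_Lam_an`, `CHA_one`, so `e^{Λ(r)} → 1` as `r → 1`).
With `w = conj y z`: `(y e^{iφ} + z)/(y e^{iφ} - z) = chK φ w`, `z Q₂'/Q₂ = chDL w`, and
`z Q₁'/Q₁ = -chDL e^Λ/(1-e^Λ) = chDL + chDL/(e^Λ-1) = chR w - (1+w)/(1-w) + (κ₁/2) chK φ₁ w + (κ₂/2) chK φ₂ w`.
`DEC` with (recall `1 + z f''/f' = Kg β/2 - Kg α/2`, `MEM_rep`):
`β' = β.restrict {y}ᶜ`, so `Kg β = Kg β' + m chK 0 w` (`chK 0 w = (1+w)/(1-w)`),
`α' = α - κ₁ δ_{x₁} - κ₂ δ_{x₂}` (a measure, `Measure.sub`, or restrict to the complement of `{x₁,x₂}` and add the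
remaining point masses; `x₁ ≠ x₂`), `Kg α = Kg α' + κ₁ chK φ₁ w + κ₂ chK φ₂ w`;
`a₁ = Kg β'/2 + (max (m-2) 0/2) chK 0 w + chR w`, `b₁ = Kg α'/2 + (max (2-m) 0/2) chK 0 w`,
`a₂ = Kg β/2`, `b₂ = Kg α'/2 + (κ/2) chK ψ w`.
At 0: `a₁+b₁ = (β(T)-m)/2 + |m-2|/2 + 1 - κ/2 + (α(T)-κ)/2 = (β(T)+α(T))/2 + (|m-2| - m + 2)/2 - κ ≤ k/2`
as `m + κ ≥ 2`; `a₂ + b₂ = (β(T)+α(T))/2`.
-/

open MeasureTheory Set Filter Topology Metric
open scoped Real ENNReal ComplexConjugate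

namespace Pool.H90.VK

noncomputable section

theorem CHX_split (β : Measure ℂ) [IsFiniteMeasure β] (hc : OnCircle β) {x₁ x₂ : ℂ}
    (hne : x₁ ≠ x₂) (hx₁ : ‖x₁‖ = 1) (hx₂ : ‖x₂‖ = 1) {g₁ g₂ : ℝ} (h1 : 0 ≤ g₁) (h2 : 0 ≤ g₂)
    (k1 : g₁ ≤ β.real {x₁}) (k2 : g₂ ≤ β.real {x₂}) :
    ∃ β' : Measure ℂ, IsFiniteMeasure β' ∧ OnCircle β' ∧ ∀ z : ℂ, ‖z‖ < 1 →
      Kg β z = Kg β' z + (g₁ * ((x₁ + z) / (x₁ - z)) + g₂ * ((x₂ + z) / (x₂ - z))) := by
  set β' : Measure ℂ := β.restrict {x₁, x₂}ᶜ +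
    (ENNReal.ofReal (β.real {x₁} - g₁) • Measure.dirac x₁ +
      ENNReal.ofReal (β.real {x₂} - g₂) • Measure.dirac x₂) with hβ'
  have hfin : ∀ (c : ℝ) (x : ℂ), IsFiniteMeasure (ENNReal.ofReal c • Measure.dirac x) :=
    fun c x => Measure.smul_finite _ ENNReal.ofReal_ne_top
  have i1 := hfin (β.real {x₁} - g₁) x₁
  have i2 := hfin (β.real {x₂} - g₂) x₂
  have i3 := hfin g₁ x₁
  have i4 := hfin g₂ x₂
  have hfβ' : IsFiniteMeasure β' := by
    rw [hβ']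
    infer_instance
  have hcβ' : OnCircle β' := by
    unfold OnCircle
    rw [hβ', Measure.add_apply, Measure.add_apply]
    have e1 : (ENNReal.ofReal (β.real {x₁} - g₁) • Measure.dirac x₁) (sphere (0 : ℂ) 1)ᶜ = 0 :=
      NB_oncircle hx₁ _
    have e2 : (ENNReal.ofReal (β.real {x₂} - g₂) • Measure.dirac x₂) (sphere (0 : ℂ) 1)ᶜ = 0 :=
      NB_oncircle hx₂ _
    have e3 : (β.restrict {x₁, x₂}ᶜ) (sphere (0 : ℂ) 1)ᶜ = 0 :=
      le_antisymm ((Measure.restrict_apply_le _ _).trans hc.le) zero_le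
    rw [e1, e2, e3, add_zero, add_zero]
  have hsplit : β = β' + (ENNReal.ofReal g₁ • Measure.dirac x₁ +
      ENNReal.ofReal g₂ • Measure.dirac x₂) := by
    have e1 : β {x₁} = ENNReal.ofReal (β.real {x₁} - g₁) + ENNReal.ofReal g₁ := by
      rw [← ENNReal.ofReal_add (by linarith) h1, sub_add_cancel, ofReal_measureReal]
    have e2 : β {x₂} = ENNReal.ofReal (β.real {x₂} - g₂) + ENNReal.ofReal g₂ := by
      rw [← ENNReal.ofReal_add (by linarith) h2, sub_add_cancel, ofReal_measureReal]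
    have hms : MeasurableSet ({x₁, x₂} : Set ℂ) := (Set.toFinite _).measurableSet
    have e3 : β.restrict {x₁, x₂} = β {x₁} • Measure.dirac x₁ + β {x₂} • Measure.dirac x₂ := by
      have : ({x₁, x₂} : Set ℂ) = {x₁} ∪ {x₂} := rfl
      rw [this, Measure.restrict_union (by simpa using hne) (measurableSet_singleton x₂),
        Measure.restrict_singleton, Measure.restrict_singleton]
    have e4 := Measure.restrict_add_restrict_compl (μ := β) hms
    rw [e3] at e4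
    conv_lhs => rw [← e4, e1, e2, add_smul, add_smul]
    rw [hβ']
    abel
  refine ⟨β', hfβ', hcβ', fun z hz => ?_⟩
  have hc1 := NB_oncircle hx₁ (ENNReal.ofReal g₁)
  have hc2 := NB_oncircle hx₂ (ENNReal.ofReal g₂)
  have hc3 : OnCircle (ENNReal.ofReal g₁ • Measure.dirac x₁ +
      ENNReal.ofReal g₂ • Measure.dirac x₂) := by
    unfold OnCircle at hc1 hc2 ⊢
    rw [Measure.add_apply, hc1, hc2, add_zero]
  conv_lhs => rw [hsplit]
  rw [KA_add _ _ hcβ' hc3 hz, KA_add _ _ hc1 hc2 hz, KA_dirac _ h1, KA_dirac _ h2]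

theorem CHX_exp_ne {a b : ℝ} (h1 : a < b) (h2 : b < a + 2 * π) :
    Complex.exp (a * Complex.I) ≠ Complex.exp (b * Complex.I) := by
  intro h
  obtain ⟨n, hn⟩ := Complex.exp_eq_exp_iff_exists_int.mp h
  have e := congrArg Complex.im hn
  simp at e
  have hpi := Real.pi_pos
  have e1 : (n : ℝ) < 0 := by
    by_contra hcon
    push Not at hcon
    nlinarith
  have e2 : (-1 : ℝ) < n := by
    by_contra hcon
    push Not at hcon
    nlinarith
  have e3 : n < 0 := by exact_mod_cast e1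
  have e4 : -1 < n := by exact_mod_cast e2
  omega

theorem CHX_one_ne {φ : ℝ} (h1 : 0 < φ) (h2 : φ < 2 * π) :
    (1 : ℂ) ≠ Complex.exp (φ * Complex.I) := by
  have := CHX_exp_ne (a := 0) (b := φ) h1 (by linarith)
  simpa using this

theorem CHX_frac {y : ℂ} (hy : ‖y‖ = 1) (φ : ℝ) {z : ℂ} (hz : ‖z‖ < 1) :
    (y * Complex.exp (φ * Complex.I) + z) / (y * Complex.exp (φ * Complex.I) - z) =
      chK φ (conj y * z) := by
  have hyc := NB_cc hy
  have hn : ‖y * Complex.exp (φ * Complex.I)‖ = 1 := by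
    rw [norm_mul, hy, Complex.norm_exp_ofReal_mul_I, one_mul]
  have hn' : ‖Complex.exp (φ * Complex.I)‖ = 1 := Complex.norm_exp_ofReal_mul_I φ
  have hw : ‖conj y * z‖ < 1 := by
    rw [norm_mul, RCLike.norm_conj, hy, one_mul]
    exact hz
  rw [chK, div_eq_div_iff (NB_sub_ne hn hz) (NB_sub_ne hn' hw)]
  linear_combination (2 * z * Complex.exp (φ * Complex.I) * (-1)) * hyc

theorem CHX_K0 {w : ℂ} : chK 0 w = (1 + w) / (1 - w) := by
  simp [chK]

theorem CHX_half_re (w₁ w₂ : ℂ) (s : ℝ) : (1 / 2 * w₁ + (s / 2 : ℝ) * w₂).re =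
    1 / 2 * w₁.re + s / 2 * w₂.re := by
  have c1 : (1 / 2 : ℂ) = ((1 / 2 : ℝ) : ℂ) := by push_cast; ring
  rw [c1, Complex.add_re, Complex.re_ofReal_mul, Complex.re_ofReal_mul]

theorem CHX {k : ℝ} {f : ℂ → ℂ} {β α : Measure ℂ} (hf : InV k f) (h : PRep k f β α) {y : ℂ}
    (hy : ‖y‖ = 1) {φ₁ ψ φ₂ κ₁ κ₂ : ℝ} (hc : ChordData φ₁ ψ φ₂ κ₁ κ₂)
    (h1 : κ₁ ≤ α.real {y * Complex.exp (φ₁ * Complex.I)})
    (h2 : κ₂ ≤ α.real {y * Complex.exp (φ₂ * Complex.I)})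
    (hm : 2 ≤ β.real {y} + κ₁ + κ₂) : ¬ IsExtreme k f := by
  have hfβ := h.finβ
  have hfα := h.finα
  set m : ℝ := β.real {y} with hmdef
  have hm0 : 0 ≤ m := measureReal_nonneg
  set x₁ : ℂ := y * Complex.exp (φ₁ * Complex.I) with hx1
  set x₂ : ℂ := y * Complex.exp (φ₂ * Complex.I) with hx2
  have hy0 : y ≠ 0 := by
    rintro rfl
    simp at hy
  have hn : ∀ φ : ℝ, ‖y * Complex.exp (φ * Complex.I)‖ = 1 := fun φ => by
    rw [norm_mul, hy, Complex.norm_exp_ofReal_mul_I, one_mul]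
  have q0 := hc.h0
  have q1 := hc.h1
  have q2 := hc.h2
  have q3 := hc.h3
  have hne : x₁ ≠ x₂ := by
    intro hcon
    exact CHX_exp_ne (a := φ₁) (b := φ₂) (by linarith) (by linarith)
      (mul_left_cancel₀ hy0 hcon)
  have hyne : y ≠ -y := by
    intro hcon
    apply hy0
    have : (2 : ℂ) * y = 0 := by linear_combination hcon
    simpa using this
  obtain ⟨β', fβ', cβ', eβ⟩ := CHX_split β h.circβ hyne hy (by rw [norm_neg]; exact hy) hm0 le_rfl
    le_rfl measureReal_nonneg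
  obtain ⟨α', fα', cα', eα⟩ := CHX_split α h.circα hne (hn _) (hn _) hc.k1.le hc.k2.le h1 h2
  -- the chord functions
  set L : ℂ → ℂ := chLam φ₁ ψ φ₂ κ₁ κ₂ with hL
  set ℓ : ℝ := chEll φ₁ ψ φ₂ κ₁ κ₂ with hℓ
  have hℓ0 : 0 < ℓ := CHB_ell hc
  set e : ℝ := Real.exp (-ℓ) with he
  have he0 : 0 < e := Real.exp_pos _
  have he1 : e < 1 := by rw [he, Real.exp_lt_one_iff]; linarith
  have hec : Complex.exp (-(ℓ : ℂ)) = (e : ℂ) := by rw [he]; push_cast; rfl
  have hwb : ∀ z ∈ ball (0 : ℂ) 1, conj y * z ∈ ball (0 : ℂ) 1 := by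
    intro z hz
    rw [mem_ball_zero_iff] at hz ⊢
    rw [norm_mul, RCLike.norm_conj, hy, one_mul]
    exact hz
  have hball : ∀ z ∈ ball (0 : ℂ) 1, ‖z‖ < 1 := fun z hz => by rwa [mem_ball_zero_iff] at hz
  obtain ⟨dL, dD, dK⟩ := CHE_Lam_diff (φ₁ := φ₁) (ψ := ψ) (φ₂ := φ₂) (κ₁ := κ₁) (κ₂ := κ₂)
  obtain ⟨L0, D0⟩ := CHE_Lam_zero (φ₁ := φ₁) (ψ := ψ) (φ₂ := φ₂) (κ₁ := κ₁) (κ₂ := κ₂)
  -- E = exp (L (conj y z))
  set E : ℂ → ℂ := fun z => Complex.exp (L (conj y * z)) with hE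
  have hE0 : E 0 = e := by
    simp only [hE, mul_zero]
    rw [hL, L0, ← hec]
  have hEne : ∀ z, E z ≠ 0 := fun z => Complex.exp_ne_zero _
  have hE1 : ∀ z ∈ ball (0 : ℂ) 1, E z ≠ 1 := fun z hz => CHC hc (hwb z hz)
  have hEd : ∀ z ∈ ball (0 : ℂ) 1, HasDerivAt E (E z * (deriv L (conj y * z) * conj y)) z := by
    intro z hz
    have a1 : HasDerivAt L (deriv L (conj y * z)) (conj y * z) :=
      (dL.differentiableAt (isOpen_ball.mem_nhds (hwb z hz))).hasDerivAt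
    have a2 : HasDerivAt (fun z : ℂ => conj y * z) (conj y) z := by
      simpa using (hasDerivAt_id z).const_mul (conj y)
    exact (a1.comp z a2).cexp
  have hDz : ∀ z ∈ ball (0 : ℂ) 1, z * (deriv L (conj y * z) * conj y) =
      chDL φ₁ ψ φ₂ κ₁ κ₂ (conj y * z) := by
    intro z hz
    have hw := hball _ (hwb z hz)
    have hne' : ∀ φ : ℝ, conj y * z ≠ Complex.exp (φ * Complex.I) := by
      intro φ hcon
      rw [hcon, Complex.norm_exp_ofReal_mul_I] at hw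
      exact lt_irrefl _ hw
    rw [← (CHE_Lam_an hw.le (hne' φ₁) (hne' ψ) (hne' φ₂)).2.2]
    ring
  have het : (1 : ℂ) - e ≠ 0 := by
    have : ((1 - e : ℝ) : ℂ) ≠ 0 := by
      rw [Complex.ofReal_ne_zero]
      linarith
    simpa using this
  have hec0 : (e : ℂ) ≠ 0 := by
    rw [Complex.ofReal_ne_zero]
    exact he0.ne'
  have hQ₁d : ∀ z ∈ ball (0 : ℂ) 1, HasDerivAt (fun z => (1 - E z) / (1 - e))
      (-(E z * (deriv L (conj y * z) * conj y)) / (1 - e)) z := fun z hz =>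
    ((hEd z hz).const_sub 1).div_const _
  have hQ₂d : ∀ z ∈ ball (0 : ℂ) 1, HasDerivAt (fun z => E z / e)
      ((E z * (deriv L (conj y * z) * conj y)) / e) z := fun z hz =>
    (hEd z hz).div_const _
  have h0b : (0 : ℂ) ∈ ball (0 : ℂ) 1 := mem_ball_self one_pos
  have hQne : ∃ z ∈ ball (0 : ℂ) 1, (1 - E z) / (1 - e) ≠ 1 := by
    by_contra hcon
    push Not at hcon
    have e1 : ∀ z ∈ ball (0 : ℂ) 1, E z = e := by
      intro z hz
      have := hcon z hz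
      rw [div_eq_one_iff_eq het] at this
      linear_combination -this
    have c1 : ContinuousAt L 1 := (CHE_Lam_an (by simp) (CHX_one_ne q0 (by linarith))
      (CHX_one_ne (by linarith) (by linarith)) (CHX_one_ne (by linarith) q3)).1.continuousAt
    have c2 : Tendsto (fun r : ℝ => Complex.exp (L (r : ℂ))) (𝓝[<] 1) (𝓝 (Complex.exp (L 1))) := by
      have c3 : Tendsto (fun r : ℝ => (r : ℂ)) (𝓝[<] 1) (𝓝 1) := by
        have : Tendsto (fun r : ℝ => (r : ℂ)) (𝓝 1) (𝓝 ((1 : ℝ) : ℂ)) :=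
          Complex.continuous_ofReal.continuousAt
        rw [Complex.ofReal_one] at this
        exact this.mono_left nhdsWithin_le_nhds
      exact (c1.tendsto.comp c3).cexp
    have c4 : (fun r : ℝ => Complex.exp (L (r : ℂ))) =ᶠ[𝓝[<] 1] fun _ => (e : ℂ) := by
      have c5 : Ioo (0 : ℝ) 1 ∈ 𝓝[<] (1 : ℝ) := Ioo_mem_nhdsLT one_pos
      filter_upwards [c5] with r hr
      have c6 : (r : ℂ) * y ∈ ball (0 : ℂ) 1 := by
        rw [mem_ball_zero_iff, norm_mul, hy, mul_one, Complex.norm_real, Real.norm_eq_abs,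
          abs_of_pos hr.1]
        exact hr.2
      have c7 := e1 _ c6
      simp only [hE] at c7
      have c8 : conj y * (r * y) = r := by linear_combination (r : ℂ) * NB_cc hy
      rw [c8] at c7
      exact c7
    have c9 : Complex.exp (L 1) = e :=
      tendsto_nhds_unique c2 ((tendsto_congr' c4).mpr tendsto_const_nhds)
    rw [hL, CHA_one hc, Complex.exp_zero] at c9
    have : (1 : ℝ) = e := by exact_mod_cast c9
    linarith
  -- the two numbers
  obtain ⟨s₁, s₂, hs1, hs2, hs3, hs4⟩ : ∃ s₁ s₂ : ℝ, 0 ≤ s₁ ∧ 0 ≤ s₂ ∧ s₁ - s₂ = m - 2 ∧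
      s₁ + s₂ - m + 2 ≤ 2 * (κ₁ + κ₂) := by
    rcases le_total 2 m with hm2 | hm2
    · refine ⟨m - 2, 0, by linarith, le_rfl, by ring, ?_⟩
      have := hc.k1
      have := hc.k2
      linarith
    · refine ⟨0, 2 - m, le_rfl, by linarith, by ring, ?_⟩
      linarith
  have hKβ0 : Kg β' 0 = (β.real univ - m : ℝ) := by
    have e1 := eβ 0 (by simp)
    rw [KA_zero β h.circβ, add_zero, sub_zero, div_self hy0, Complex.ofReal_zero, zero_mul] at e1
    push_cast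
    linear_combination -e1
  have hKα0 : Kg α' 0 = (α.real univ - (κ₁ + κ₂) : ℝ) := by
    have e1 := eα 0 (by simp)
    have n1 : x₁ ≠ 0 := mul_ne_zero hy0 (Complex.exp_ne_zero _)
    have n2 : x₂ ≠ 0 := mul_ne_zero hy0 (Complex.exp_ne_zero _)
    rw [KA_zero α h.circα, add_zero, sub_zero, div_self n1, add_zero, sub_zero,
      div_self n2] at e1
    push_cast
    linear_combination -e1
  have hchK0 : ∀ φ : ℝ, chK φ 0 = 1 := by
    intro φ
    rw [chK, add_zero, sub_zero, div_self (Complex.exp_ne_zero _)]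
  have hchKd : ∀ φ : ℝ, DifferentiableOn ℂ (fun z => chK φ (conj y * z)) (ball (0 : ℂ) 1) :=
    fun φ => (dK φ).comp ((differentiableOn_const _).mul differentiableOn_id) hwb
  have hchRd : DifferentiableOn ℂ (fun z => chR φ₁ ψ φ₂ κ₁ κ₂ (conj y * z)) (ball (0 : ℂ) 1) :=
    (CHR_diff hc).comp ((differentiableOn_const _).mul differentiableOn_id) hwb
  have hchKre : ∀ φ : ℝ, ∀ z ∈ ball (0 : ℂ) 1, 0 ≤ (chK φ (conj y * z)).re := by
    intro φ z hz
    rw [chK]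
    exact NB_p_re (Complex.norm_exp_ofReal_mul_I φ) (hball _ (hwb z hz))
  have hκ : 0 ≤ κ₁ + κ₂ := by
    have := hc.k1
    have := hc.k2
    linarith
  refine DEC hf (fun z => (1 - E z) / (1 - e)) (fun z => E z / e) (1 - e) (by linarith)
    (by linarith) (fun z hz => (hQ₁d z hz).differentiableAt.differentiableWithinAt)
    (fun z hz => (hQ₂d z hz).differentiableAt.differentiableWithinAt)
    (by simp only [hE0]; exact div_self het)
    (by simp only [hE0]; exact div_self hec0)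
    (fun z hz => div_ne_zero (sub_ne_zero.mpr (hE1 z hz).symm) het)
    (fun z hz => div_ne_zero (hEne z) hec0)
    (fun z hz => ?_) hQne
    (fun z => (1 / 2 * Kg β' z + (s₁ / 2 : ℝ) * chK 0 (conj y * z)) +
      chR φ₁ ψ φ₂ κ₁ κ₂ (conj y * z))
    (fun z => 1 / 2 * Kg α' z + (s₂ / 2 : ℝ) * chK 0 (conj y * z))
    (fun z => 1 / 2 * Kg β z + (0 / 2 : ℝ) * chK 0 (conj y * z))
    (fun z => 1 / 2 * Kg α' z + ((κ₁ + κ₂) / 2 : ℝ) * chK ψ (conj y * z))
    ((((KA_diff β' cβ').const_mul _).add ((hchKd 0).const_mul _)).add hchRd)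
    (((KA_diff α' cα').const_mul _).add ((hchKd 0).const_mul _))
    (((KA_diff β h.circβ).const_mul _).add ((hchKd 0).const_mul _))
    (((KA_diff α' cα').const_mul _).add ((hchKd ψ).const_mul _))
    (fun z hz => ?_) (fun z hz => ?_) (fun z hz => ?_) (fun z hz => ?_) ?_ ?_
    (fun z hz => ?_) (fun z hz => ?_)
  · push_cast
    field_simp
    ring
  · rw [Complex.add_re, CHX_half_re]
    have e1 := KA_re_nonneg β' cβ' (hball z hz)
    have e2 := hchKre 0 z hz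
    have e3 := CHR hc (hwb z hz)
    positivity
  · rw [CHX_half_re]
    have e1 := KA_re_nonneg α' cα' (hball z hz)
    have e2 := hchKre 0 z hz
    positivity
  · rw [CHX_half_re]
    have e1 := KA_re_nonneg β h.circβ (hball z hz)
    have e2 := hchKre 0 z hz
    positivity
  · rw [CHX_half_re]
    have e1 := KA_re_nonneg α' cα' (hball z hz)
    have e2 := hchKre ψ z hz
    positivity
  · simp only [mul_zero]
    rw [Complex.add_re, CHX_half_re, CHX_half_re, hchK0, hKβ0, hKα0, CHR_zero hc,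
      Complex.ofReal_re, Complex.ofReal_re, Complex.one_re]
    have e1 : ((1 : ℂ) - ((κ₁ + κ₂) / 2 : ℝ)).re = 1 - (κ₁ + κ₂) / 2 := by
      rw [Complex.sub_re, Complex.one_re, Complex.ofReal_re]
    rw [e1]
    have := h.sum
    linarith
  · simp only [mul_zero]
    rw [CHX_half_re, CHX_half_re, hchK0, hchK0, hKα0, KA_zero β h.circβ,
      Complex.ofReal_re, Complex.ofReal_re, Complex.one_re]
    have := h.sum
    linarith
  · rw [← Complex.sub_re, MEM_rep h hz, eβ z (hball z hz), eα z (hball z hz), (hQ₁d z hz).deriv,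
      hx1, hx2, CHX_frac hy φ₁ (hball z hz), CHX_frac hy φ₂ (hball z hz)]
    have g1 : (y + z) / (y - z) = chK 0 (conj y * z) := by
      have := CHX_frac hy 0 (hball z hz)
      simpa using this
    have g2 : z * (-(E z * (deriv L (conj y * z) * conj y)) / (1 - e)) / ((1 - E z) / (1 - e)) =
        chDL φ₁ ψ φ₂ κ₁ κ₂ (conj y * z) + chDL φ₁ ψ φ₂ κ₁ κ₂ (conj y * z) / (E z - 1) := by
      have e1 : (1 : ℂ) - E z ≠ 0 := sub_ne_zero.mpr (hE1 z hz).symm
      have e2 : E z - 1 ≠ 0 := sub_ne_zero.mpr (hE1 z hz)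
      rw [← hDz z hz]
      field_simp
      ring
    rw [g1, g2]
    congr 1
    have g3 : chR φ₁ ψ φ₂ κ₁ κ₂ (conj y * z) = chK 0 (conj y * z) -
        (κ₁ + κ₂) / 2 * chK ψ (conj y * z) + chDL φ₁ ψ φ₂ κ₁ κ₂ (conj y * z) / (E z - 1) := by
      rw [chR, CHX_K0]
    rw [g3]
    have g4 : (s₁ : ℂ) - s₂ = m - 2 := by exact_mod_cast hs3
    have g5 : chDL φ₁ ψ φ₂ κ₁ κ₂ (conj y * z) = (1 / 2) * (κ₁ * chK φ₁ (conj y * z) +
      κ₂ * chK φ₂ (conj y * z) - (κ₁ + κ₂) * chK ψ (conj y * z)) := rfl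
    push_cast
    linear_combination g5 - (1 / 2 * chK 0 (conj y * z)) * g4
  · rw [← Complex.sub_re, MEM_rep h hz, eα z (hball z hz), (hQ₂d z hz).deriv,
      hx1, hx2, CHX_frac hy φ₁ (hball z hz), CHX_frac hy φ₂ (hball z hz)]
    have g2 : z * (E z * (deriv L (conj y * z) * conj y) / e) / (E z / e) =
        chDL φ₁ ψ φ₂ κ₁ κ₂ (conj y * z) := by
      have e1 := hEne z
      rw [← hDz z hz]
      field_simp
    rw [g2]
    congr 1
    have g5 : chDL φ₁ ψ φ₂ κ₁ κ₂ (conj y * z) = (1 / 2) * (κ₁ * chK φ₁ (conj y * z) +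
      κ₂ * chK φ₂ (conj y * z) - (κ₁ + κ₂) * chK ψ (conj y * z)) := rfl
    push_cast
    linear_combination g5

end

end Pool.H90.VK
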