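import Pool.Agent.H90.VK.CHD

/-!
# CHZ : examples of `ChordData`

`CHZ_sym`: `φ₁ = φ`, `ψ = π`, `φ₂ = 2π-φ`, `κ₁ = κ₂ = κ` (`cot(π/2) = 0`, `cot((2π-φ)/2) = -cot(φ/2)`).

`CHZ_chord`: with `F(θ) = cot(θ/2) - [chord from (φ₁,cot(φ₁/2)) to (φ₂,cot(φ₂/2))](θ)`, the two inequalities say
`F'(φ₁) < 0`, `F'(φ₂) < 0` (`F'(θ) = -1/(2 sin²(θ/2)) + (cot(φ₁/2)-cot(φ₂/2))/(φ₂-φ₁)`), `F(φ₁) = F(φ₂) = 0`;
so `F < 0` right of `φ₁` and `F > 0` left of `φ₂`; intermediate value theorem: `F(ψ) = 0` for some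
`ψ ∈ (φ₁,φ₂)`. Then `κ₁ = l(φ₂-ψ)`, `κ₂ = l(ψ-φ₁)`, `0 < l < ε/(φ₂-φ₁)`, `l < 1/(φ₂-φ₁)`.
-/

open MeasureTheory Set Filter Topology Metric
open scoped Real ENNReal ComplexConjugate

namespace Pool.H90.VK

noncomputable section

theorem CHZ_sym {φ κ : ℝ} (h0 : 0 < φ) (h1 : φ < π) (h2 : 0 < κ) (h3 : κ < 1 / 2) :
    ChordData φ π (2 * π - φ) κ κ where
  h0 := h0
  h1 := h1
  h2 := by linarith
  h3 := by linarith
  k1 := h2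
  k2 := h2
  ks := by linarith
  mom := by ring
  cot := by
    rw [Real.cot_eq_cos_div_sin, Real.cot_eq_cos_div_sin, Real.cot_eq_cos_div_sin,
      show (2 * π - φ) / 2 = π - φ / 2 by ring, Real.cos_pi_sub, Real.sin_pi_sub,
      Real.cos_pi_div_two]
    ring

private theorem CHZ_right {f : ℝ → ℝ} {f' x b : ℝ} (h : HasDerivAt f f' x) (hf : f' < 0)
    (hb : x < b) : ∃ t ∈ Ioo x b, f t < f x := by
  have h1 := (hasDerivAt_iff_tendsto_slope.1 h).mono_left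
    (nhdsWithin_mono x (fun t ht => (ne_of_gt ht : t ≠ x)) : 𝓝[>] x ≤ 𝓝[≠] x)
  have h2 : ∀ᶠ t in 𝓝[>] x, slope f x t < 0 := h1.eventually (gt_mem_nhds hf)
  have h3 : ∀ᶠ t in 𝓝[>] x, t ∈ Ioo x b := Ioo_mem_nhdsGT hb
  obtain ⟨t, ht, ht2⟩ := (h2.and h3).exists
  refine ⟨t, ht2, ?_⟩
  rw [slope_def_field, div_neg_iff] at ht
  rcases ht with ⟨_, h⟩ | ⟨h, _⟩
  · linarith [ht2.1]
  · linarith

private theorem CHZ_left {f : ℝ → ℝ} {f' x b : ℝ} (h : HasDerivAt f f' x) (hf : f' < 0)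
    (hb : b < x) : ∃ t ∈ Ioo b x, f x < f t := by
  have h1 := (hasDerivAt_iff_tendsto_slope.1 h).mono_left
    (nhdsWithin_mono x (fun t ht => (ne_of_lt ht : t ≠ x)) : 𝓝[<] x ≤ 𝓝[≠] x)
  have h2 : ∀ᶠ t in 𝓝[<] x, slope f x t < 0 := h1.eventually (gt_mem_nhds hf)
  have h3 : ∀ᶠ t in 𝓝[<] x, t ∈ Ioo b x := Ioo_mem_nhdsLT hb
  obtain ⟨t, ht, ht2⟩ := (h2.and h3).exists
  refine ⟨t, ht2, ?_⟩
  rw [slope_def_field, div_neg_iff] at ht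
  rcases ht with ⟨h, _⟩ | ⟨_, h⟩
  · linarith
  · linarith [ht2.2]

private theorem CHZ_deriv {s θ : ℝ} (h : Real.sin (θ / 2) ≠ 0) :
    HasDerivAt (fun t => Real.cos (t / 2) / Real.sin (t / 2) + s * t)
      (-(1 / (2 * Real.sin (θ / 2) ^ 2)) + s) θ := by
  have h1 : HasDerivAt (fun t : ℝ => t / 2) (1 / 2) θ := (hasDerivAt_id θ).div_const 2
  have h2 := (Real.hasDerivAt_cos (θ / 2)).comp θ h1
  have h3 := (Real.hasDerivAt_sin (θ / 2)).comp θ h1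
  have h4 := (h2.div h3 h).add ((hasDerivAt_id θ).const_mul s)
  have h5 : HasDerivAt (fun t => Real.cos (t / 2) / Real.sin (t / 2) + s * t)
    ((-Real.sin (θ / 2) * (1 / 2) * Real.sin (θ / 2) -
      Real.cos (θ / 2) * (Real.cos (θ / 2) * (1 / 2))) / Real.sin (θ / 2) ^ 2 + s * 1) θ := h4
  refine h5.congr_deriv ?_
  have h6 := Real.sin_sq_add_cos_sq (θ / 2)
  have h7 : -Real.sin (θ / 2) * (1 / 2) * Real.sin (θ / 2) -
      Real.cos (θ / 2) * (Real.cos (θ / 2) * (1 / 2)) = -(1 / 2) := by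
    linear_combination (-(1 / 2)) * h6
  rw [h7, mul_one]
  congr 1
  field_simp

theorem CHZ_chord {φ₁ φ₂ ε : ℝ} (h0 : 0 < φ₁) (h1 : φ₁ < φ₂) (h2 : φ₂ < 2 * π) (hε : 0 < ε)
    (i1 : (Real.cot (φ₁ / 2) - Real.cot (φ₂ / 2)) / (φ₂ - φ₁) < 1 / (2 * Real.sin (φ₁ / 2) ^ 2))
    (i2 : (Real.cot (φ₁ / 2) - Real.cot (φ₂ / 2)) / (φ₂ - φ₁) < 1 / (2 * Real.sin (φ₂ / 2) ^ 2)) :
    ∃ ψ κ₁ κ₂ : ℝ, ChordData φ₁ ψ φ₂ κ₁ κ₂ ∧ κ₁ < ε ∧ κ₂ < ε := by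
  have hsin : ∀ t ∈ Icc φ₁ φ₂, Real.sin (t / 2) ≠ 0 := fun t ht =>
    (Real.sin_pos_of_pos_of_lt_pi (by linarith [ht.1]) (by linarith [ht.2])).ne'
  have hd : 0 < φ₂ - φ₁ := by linarith
  set s := (Real.cot (φ₁ / 2) - Real.cot (φ₂ / 2)) / (φ₂ - φ₁) with hs
  set G : ℝ → ℝ := fun t => Real.cos (t / 2) / Real.sin (t / 2) + s * t with hG
  have hGc : ∀ t, G t = Real.cot (t / 2) + s * t := fun t => by
    rw [hG, Real.cot_eq_cos_div_sin]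
  have hs' : s * (φ₂ - φ₁) = Real.cot (φ₁ / 2) - Real.cot (φ₂ / 2) := by
    rw [hs]
    field_simp
  have hGe : G φ₁ = G φ₂ := by
    rw [hGc, hGc]
    linarith
  have hD : ∀ t ∈ Icc φ₁ φ₂, HasDerivAt G (-(1 / (2 * Real.sin (t / 2) ^ 2)) + s) t :=
    fun t ht => CHZ_deriv (hsin t ht)
  obtain ⟨t1, ht1, hl1⟩ := CHZ_right (hD φ₁ ⟨le_rfl, h1.le⟩) (by linarith) h1
  obtain ⟨t2, ht2, hl2⟩ := CHZ_left (hD φ₂ ⟨h1.le, le_rfl⟩) (by linarith) h1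
  have hsub : uIcc t1 t2 ⊆ Ioo φ₁ φ₂ := by
    intro x hx
    rw [mem_uIcc] at hx
    rcases hx with hx | hx
    · exact ⟨by linarith [ht1.1, hx.1], by linarith [ht2.2, hx.2]⟩
    · exact ⟨by linarith [ht2.1, hx.1], by linarith [ht1.2, hx.2]⟩
  have hcont : ContinuousOn G (uIcc t1 t2) := fun x hx =>
    (hD x (Ioo_subset_Icc_self (hsub hx))).continuousAt.continuousWithinAt
  have hivt := intermediate_value_uIcc hcont
  have hmem : G φ₁ ∈ uIcc (G t1) (G t2) := by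
    rw [mem_uIcc]
    exact Or.inl ⟨hl1.le, by linarith⟩
  obtain ⟨ψ, hψ, hψe⟩ := hivt hmem
  have hψ' := hsub hψ
  have h3 : 0 < ψ - φ₁ := by linarith [hψ'.1]
  have h4 : 0 < φ₂ - ψ := by linarith [hψ'.2]
  set l := min ε 1 / (2 * (φ₂ - φ₁)) with hl
  have hl0 : 0 < l := by positivity
  have hl1' : l * (φ₂ - φ₁) = min ε 1 / 2 := by
    rw [hl]
    field_simp
  have hm : 0 < min ε 1 := lt_min hε one_pos
  have hcot : (φ₂ - φ₁) * Real.cot (ψ / 2) =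
      (φ₂ - ψ) * Real.cot (φ₁ / 2) + (ψ - φ₁) * Real.cot (φ₂ / 2) := by
    rw [hGc, hGc] at hψe
    have e1 : Real.cot (ψ / 2) = Real.cot (φ₁ / 2) - s * (ψ - φ₁) := by linarith
    rw [e1]
    linear_combination (-(ψ - φ₁)) * hs'
  refine ⟨ψ, l * (φ₂ - ψ), l * (ψ - φ₁), ⟨h0, hψ'.1, hψ'.2, h2, by positivity, by positivity, ?_, ?_, ?_⟩,
    ?_, ?_⟩
  · have : l * (φ₂ - ψ) + l * (ψ - φ₁) = l * (φ₂ - φ₁) := by ring
    rw [this, hl1']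
    linarith [min_le_right ε 1]
  · ring
  · linear_combination l * hcot
  · have : l * (φ₂ - ψ) < l * (φ₂ - φ₁) := mul_lt_mul_of_pos_left (by linarith) hl0
    linarith [min_le_left ε 1]
  · have : l * (ψ - φ₁) < l * (φ₂ - φ₁) := mul_lt_mul_of_pos_left (by linarith) hl0
    linarith [min_le_left ε 1]

end

end Pool.H90.VK
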