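import Pool.Agent.H90.VK.Defs

/-!
# CMP : compactness of finite measures on the circle (along ultrafilters)

`m i`, `i : ι`, finite measures carried by the unit circle with masses `≤ C`; along an ultrafilter
they converge weakly to a finite measure carried by the circle.

Proof (either way).
(1) Riesz–Markov–Kakutani: for `g : C(X, ℝ)`, `X = sphere (0:ℂ) 1` (compact), the bounded function
`i ↦ ∫ g d(m i)` (measure pulled back to the subtype by `Measure.comap Subtype.val`, or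
integrate an extension) has a limit `Λ g` along the ultrafilter (bounded sets in `ℝ` are relatively
compact: `IsCompact.ultrafilter_le_nhds`); `Λ` is positive and linear, so `RealRMK.rieszMeasure`
gives a measure `ν` on `X` with `∫ g dν = Λ g`; `μ = ν.map Subtype.val`.
(2) or `CompactSpace (ProbabilityMeasure X)` (Mathlib, Prokhorov) after normalising the masses.
The complex-valued version follows from real and imaginary parts.
-/

open MeasureTheory Set Filter Topology Metric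
open scoped Real ENNReal ComplexConjugate

namespace Pool.H90.VK

noncomputable section

theorem CMP_restrict {μ : Measure ℂ} (h : OnCircle μ) : μ.restrict (sphere (0 : ℂ) 1) = μ := by
  refine Measure.restrict_eq_self_of_ae_mem ?_
  rw [ae_iff]
  exact h

theorem CMP_ae {μ : Measure ℂ} (h : OnCircle μ) {E : Type*} {g g' : ℂ → E}
    (hg : ∀ ζ ∈ sphere (0 : ℂ) 1, g ζ = g' ζ) : g =ᵐ[μ] g' := by
  have h1 : ∀ᵐ ζ ∂μ, ζ ∈ sphere (0 : ℂ) 1 := by
    rw [ae_iff]
    exact h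
  filter_upwards [h1] with ζ hζ
  exact hg ζ hζ

theorem CMP_int {μ : Measure ℂ} [IsFiniteMeasure μ] (h : OnCircle μ) {g : ℂ → ℂ}
    (hg : ContinuousOn g (sphere (0 : ℂ) 1)) : Integrable g μ := by
  have h1 : IntegrableOn g (sphere (0 : ℂ) 1) μ := hg.integrableOn_compact (isCompact_sphere 0 1)
  rwa [IntegrableOn, CMP_restrict h] at h1

theorem CMP {ι : Type*} (U : Ultrafilter ι) (m : ι → Measure ℂ) (hfin : ∀ i, IsFiniteMeasure (m i))
    (hcirc : ∀ i, OnCircle (m i)) (C : ℝ) (hC : ∀ i, (m i).real univ ≤ C) :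
    ∃ μ : Measure ℂ, IsFiniteMeasure μ ∧ OnCircle μ ∧
      (∀ g : ℂ → ℝ, ContinuousOn g (sphere (0 : ℂ) 1) →
        Tendsto (fun i => ∫ ζ, g ζ ∂(m i)) U (𝓝 (∫ ζ, g ζ ∂μ))) ∧
      (∀ g : ℂ → ℂ, ContinuousOn g (sphere (0 : ℂ) 1) →
        Tendsto (fun i => ∫ ζ, g ζ ∂(m i)) U (𝓝 (∫ ζ, g ζ ∂μ))) := by
  have hne : Nonempty ι := U.neBot.nonempty
  have hC0 : 0 ≤ C := by
    obtain ⟨i⟩ := hne
    exact measureReal_nonneg.trans (hC i)
  let M : ι → FiniteMeasure ℂ := fun i => ⟨m i, hfin i⟩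
  have hS : IsCompact {μ : FiniteMeasure ℂ | μ.mass ≤ C.toNNReal ∧ μ (sphere (0 : ℂ) 1)ᶜ = 0} :=
    isCompact_setOfPred_finiteMeasure_le_of_isCompact C.toNNReal (isCompact_sphere 0 1)
  have hM : ∀ i, M i ∈ {μ : FiniteMeasure ℂ | μ.mass ≤ C.toNNReal ∧
      μ (sphere (0 : ℂ) 1)ᶜ = 0} := by
    intro i
    constructor
    · have h1 : ((M i).mass : ℝ) ≤ C := hC i
      rw [← NNReal.coe_le_coe, Real.coe_toNNReal C hC0]
      exact h1
    · have h1 : m i (sphere (0 : ℂ) 1)ᶜ = 0 := hcirc i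
      change (m i (sphere (0 : ℂ) 1)ᶜ).toNNReal = 0
      rw [h1]
      rfl
  obtain ⟨μ, hμS, hμ⟩ := hS.ultrafilter_le_nhds (U.map M)
    (by
      rw [Ultrafilter.coe_map, le_principal_iff, mem_map]
      exact Filter.univ_mem' hM)
  have hlim : Tendsto M U (𝓝 μ) := by
    rw [Ultrafilter.coe_map] at hμ
    exact hμ
  have hμc : OnCircle (μ : Measure ℂ) := by
    have h1 := hμS.2
    have h2 : ((μ (sphere (0 : ℂ) 1)ᶜ : NNReal) : ENNReal) = (μ : Measure ℂ) (sphere (0 : ℂ) 1)ᶜ :=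
      FiniteMeasure.ennreal_coeFn_eq_coeFn_toMeasure _ _
    rw [h1] at h2
    exact h2.symm
  have hreal : ∀ g : ℂ → ℝ, ContinuousOn g (sphere (0 : ℂ) 1) →
      Tendsto (fun i => ∫ ζ, g ζ ∂(m i)) U (𝓝 (∫ ζ, g ζ ∂(μ : Measure ℂ))) := by
    intro g hg
    have hcomp : CompactSpace (sphere (0 : ℂ) 1) :=
      isCompact_iff_compactSpace.1 (isCompact_sphere 0 1)
    let f : C(sphere (0 : ℂ) 1, ℝ) := ⟨(sphere (0 : ℂ) 1).domRestrict g, hg.domRestrict⟩
    obtain ⟨g', -, hg'⟩ := BoundedContinuousFunction.exists_norm_eq_domRestrict_eq_of_closed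
      (BoundedContinuousFunction.mkOfCompact f) isClosed_sphere
    have hgg : ∀ ζ ∈ sphere (0 : ℂ) 1, g ζ = g' ζ := by
      intro ζ hζ
      have h1 := DFunLike.congr_fun hg' ⟨ζ, hζ⟩
      exact h1.symm
    have h1 := (FiniteMeasure.tendsto_iff_forall_integral_tendsto.1 hlim) g'
    have h2 : ∀ i, ∫ ζ, g ζ ∂(m i) = ∫ ζ, g' ζ ∂(M i : Measure ℂ) := fun i =>
      integral_congr_ae (CMP_ae (hcirc i) hgg)
    have h3 : ∫ ζ, g ζ ∂(μ : Measure ℂ) = ∫ ζ, g' ζ ∂(μ : Measure ℂ) :=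
      integral_congr_ae (CMP_ae hμc hgg)
    simp only [h2, h3]
    exact h1
  refine ⟨μ, inferInstance, hμc, hreal, ?_⟩
  intro g hg
  have hre : ContinuousOn (fun ζ => (g ζ).re) (sphere (0 : ℂ) 1) :=
    Complex.continuous_re.comp_continuousOn hg
  have him : ContinuousOn (fun ζ => (g ζ).im) (sphere (0 : ℂ) 1) :=
    Complex.continuous_im.comp_continuousOn hg
  have h1 : ∀ i, ∫ ζ, g ζ ∂(m i) = ((∫ ζ, (g ζ).re ∂(m i) : ℝ) : ℂ) +
      ((∫ ζ, (g ζ).im ∂(m i) : ℝ) : ℂ) * Complex.I := by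
    intro i
    have := hfin i
    exact (integral_re_add_im (CMP_int (hcirc i) hg)).symm
  have h2 : ∫ ζ, g ζ ∂(μ : Measure ℂ) = ((∫ ζ, (g ζ).re ∂(μ : Measure ℂ) : ℝ) : ℂ) +
      ((∫ ζ, (g ζ).im ∂(μ : Measure ℂ) : ℝ) : ℂ) * Complex.I :=
    (integral_re_add_im (CMP_int hμc hg)).symm
  simp only [h1, h2]
  exact ((Complex.continuous_ofReal.tendsto _).comp (hreal _ hre)).add
    (((Complex.continuous_ofReal.tendsto _).comp (hreal _ him)).mul_const _)

end

end Pool.H90.VK
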