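import Mathlib

/-!
# MP_62a01d (extreme points of Paatero's class V_k, 2 < k < 4): definitions

Finite Borel measures on the unit circle are finite measures `μ` on `ℂ` with
`μ (sphere 0 1)ᶜ = 0` (`OnCircle μ`).
-/

open MeasureTheory Set Filter Topology Metric
open scoped Real ENNReal ComplexConjugate

namespace Pool.H90.VK

noncomputable section

/-- The measure `μ` is carried by the unit circle. -/
def OnCircle (μ : Measure ℂ) : Prop := μ (sphere (0 : ℂ) 1)ᶜ = 0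

/-- `Lg μ z = ∫ log (1 - conj ζ * z) dμ(ζ)` (principal branch; used for `‖z‖ < 1`). -/
def Lg (μ : Measure ℂ) (z : ℂ) : ℂ := ∫ ζ, Complex.log (1 - conj ζ * z) ∂μ

/-- Herglotz integral `Kg μ z = ∫ (ζ + z) / (ζ - z) dμ(ζ)` (used for `‖z‖ < 1`). -/
def Kg (μ : Measure ℂ) (z : ℂ) : ℂ := ∫ ζ, (ζ + z) / (ζ - z) ∂μ

/-- `Ag μ z = ∫ arg (1 - conj ζ * z) dμ(ζ)`; for `‖z‖ < 1` this is the imaginary part of `Lg μ z`,
but it is also used for `‖z‖ = 1` (recall `arg 0 = 0`). -/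
def Ag (μ : Measure ℂ) (z : ℂ) : ℝ := ∫ ζ, Complex.arg (1 - conj ζ * z) ∂μ

/-- Paatero's class `V_k`: functions of boundary rotation at most `kπ`. -/
structure InV (k : ℝ) (f : ℂ → ℂ) : Prop where
  diff : DifferentiableOn ℂ f (ball (0 : ℂ) 1)
  zero : f 0 = 0
  one : deriv f 0 = 1
  ne_zero : ∀ z ∈ ball (0 : ℂ) 1, deriv f z ≠ 0
  rot : ∀ r : ℝ, 0 < r → r < 1 →
    ∫ θ in (0 : ℝ)..(2 * π),
      |(1 + (r * Complex.exp (θ * Complex.I)) *
          deriv (deriv f) (r * Complex.exp (θ * Complex.I)) /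
            deriv f (r * Complex.exp (θ * Complex.I))).re| ≤ k * π

/-- `f` is an extreme point of `V_k`: it is not a proper convex combination of two distinct
members of `V_k` (functions on the open unit disc). -/
def IsExtreme (k : ℝ) (f : ℂ → ℂ) : Prop :=
  InV k f ∧ ¬ ∃ g h : ℂ → ℂ, ∃ t : ℝ, InV k g ∧ InV k h ∧ 0 < t ∧ t < 1 ∧
    (∀ z ∈ ball (0 : ℂ) 1, f z = t * g z + (1 - t) * h z) ∧
    ∃ z ∈ ball (0 : ℂ) 1, g z ≠ h z

/-- `(β, α)` represents `f` in `V_k`:
`f' = exp (- ∫ log (1 - conj ζ z) d(β - α))`, `β(T) - α(T) = 2`, `β(T) + α(T) ≤ k`. -/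
structure PRep (k : ℝ) (f : ℂ → ℂ) (β α : Measure ℂ) : Prop where
  finβ : IsFiniteMeasure β
  finα : IsFiniteMeasure α
  circβ : OnCircle β
  circα : OnCircle α
  rep : ∀ z ∈ ball (0 : ℂ) 1, deriv f z = Complex.exp (Lg α z - Lg β z)
  diff : β.real univ - α.real univ = 2
  sum : β.real univ + α.real univ ≤ k

/-- Arc length on the unit circle (total mass `2π`). -/
def arcLen : Measure ℂ :=
  Measure.map (fun θ : ℝ => Complex.exp (θ * Complex.I)) (volume.restrict (Ioc (-π) π))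

/-- The set where the logarithmic potential of `Λ` is infinite. -/
def potInf (Λ : Measure ℂ) : Set ℂ :=
  {ζ | ∫⁻ ξ, ENNReal.ofReal (Real.log (2 / ‖ξ - ζ‖)) ∂Λ = ⊤}

/-- `ν` charges no polar set: no set where the potential of a finite measure on the circle is
infinite. -/
def NonPolar (ν : Measure ℂ) : Prop :=
  ∀ Λ : Measure ℂ, IsFiniteMeasure Λ → OnCircle Λ → ν (potInf Λ) = 0

/-- The atoms of a measure. -/
def atoms (μ : Measure ℂ) : Set ℂ := {ζ | μ {ζ} ≠ 0}

end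

end Pool.H90.VK
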