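import Pool.Agent.H90.VK.CHX
import Pool.Agent.H90.VK.CHZ

/-!
# EXA : explicit conditions for not being extreme
-/

open MeasureTheory Set Filter Topology Metric
open scoped Real ENNReal ComplexConjugate

namespace Pool.H90.VK

noncomputable section

/-- two atoms of `α` in position with respect to an atom of mass at least 2 of `β` -/
theorem EXA_slope {k : ℝ} {f : ℂ → ℂ} {β α : Measure ℂ} (hf : InV k f) (h : PRep k f β α) {y : ℂ}
    (hy : ‖y‖ = 1) (hm : 2 ≤ β.real {y}) {φ₁ φ₂ : ℝ} (h0 : 0 < φ₁) (h1 : φ₁ < φ₂)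
    (h2 : φ₂ < 2 * π) (a1 : α {y * Complex.exp (φ₁ * Complex.I)} ≠ 0)
    (a2 : α {y * Complex.exp (φ₂ * Complex.I)} ≠ 0)
    (i1 : (Real.cot (φ₁ / 2) - Real.cot (φ₂ / 2)) / (φ₂ - φ₁) < 1 / (2 * Real.sin (φ₁ / 2) ^ 2))
    (i2 : (Real.cot (φ₁ / 2) - Real.cot (φ₂ / 2)) / (φ₂ - φ₁) < 1 / (2 * Real.sin (φ₂ / 2) ^ 2)) :
    ¬ IsExtreme k f := by
  have := h.finα
  have b1 : 0 < α.real {y * Complex.exp (φ₁ * Complex.I)} :=
    ENNReal.toReal_pos a1 (measure_ne_top _ _)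
  have b2 : 0 < α.real {y * Complex.exp (φ₂ * Complex.I)} :=
    ENNReal.toReal_pos a2 (measure_ne_top _ _)
  obtain ⟨ψ, κ₁, κ₂, hc, c1, c2⟩ := CHZ_chord h0 h1 h2 (lt_min b1 b2) i1 i2
  refine CHX hf h hy hc (c1.le.trans (min_le_left _ _)) (c2.le.trans (min_le_right _ _)) ?_
  have := hc.k1
  have := hc.k2
  linarith

/-- two atoms of `α` of mass at least `κ` symmetric with respect to the atom `y` of `β` -/
theorem EXA_sym {k : ℝ} {f : ℂ → ℂ} {β α : Measure ℂ} (hf : InV k f) (h : PRep k f β α) {y : ℂ}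
    (hy : ‖y‖ = 1) {φ κ : ℝ} (h0 : 0 < φ) (h1 : φ < π) (hκ : 0 < κ) (hκ2 : κ < 1 / 2)
    (a1 : κ ≤ α.real {y * Complex.exp (φ * Complex.I)})
    (a2 : κ ≤ α.real {y * Complex.exp (-φ * Complex.I)}) (hm : 2 ≤ β.real {y} + 2 * κ) :
    ¬ IsExtreme k f := by
  have e : Complex.exp (((2 * π - φ : ℝ) : ℂ) * Complex.I) = Complex.exp (-φ * Complex.I) := by
    have : ((2 * π - φ : ℝ) : ℂ) * Complex.I = -φ * Complex.I + 2 * π * Complex.I := by
      push_cast; ring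
    rw [this, Complex.exp_add, Complex.exp_two_pi_mul_I, mul_one]
  refine CHX hf h hy (CHZ_sym h0 h1 hκ hκ2) a1 (by rw [e]; exact a2) ?_
  linarith

end

end Pool.H90.VK
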