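import Pool.Agent.H90.VK.ARC

/-!
# FMA : peak functions for compact sets of arc length zero

Let `K ⊂ circle` be compact with `arcLen K = 0`. There are functions `F n`, each analytic on a
neighbourhood of the closed unit disc, with `|F n| ≤ 1` on the closed disc, `F n → 1` pointwise on
`K`, and `F n → 0` pointwise on the closed disc minus `K`.

Proof. `arcLen` is a finite Borel measure on `ℂ`, outer regular: choose open `U_n ⊃ K`,
`U_n ⊂ {dist(·, K) < 1/n}`, `arcLen U_n ≤ 1/n²`. Let `m_n = n • arcLen.restrict U_n`, a finite measure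
on the circle of mass `≤ 1/n`, `H_n = Kg m_n`, `Re H_n ≥ 0` on the open disc.
For `ζ ∈ K`: `Re Kg (arcLen.restrict U_n) (ρ ζ) → 2π` as `ρ → 1`, uniformly for `ζ ∈ K` (the points of
the circle at distance `< d_n` from `K` belong to `U_n`, for some `d_n > 0` by compactness; and
`∫_{|ξ-ζ| ≥ d} (1-ρ²)/|ξ-ρζ|² d arcLen(ξ) → 0` uniformly). So there is `ρ_n ∈ (1 - 1/n, 1)` with
`Re H_n(ρ_n ζ) ≥ n` for all `ζ ∈ K`. Put `F n z = H_n(ρ_n z)/(1 + H_n(ρ_n z))`, analytic on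
`|z| < 1/ρ_n`. Since `Re H_n ≥ 0`: `|1+H_n| ≥ max 1 |H_n|`, so `|F n| ≤ 1`; on `K`:
`|1 - F n| = 1/|1+H_n| ≤ 1/n`. Off `K`: if `z` is in the closed disc, `z ∉ K`, let
`d = dist(z, K) > 0`; for large `n`, `ρ_n z` has distance `≥ d/2` from `U_n ⊂ {dist(·,K) < 1/n}`,
so `|H_n(ρ_n z)| ≤ (1/n) · 2/(d/2) → 0`. (If `K = ∅` take `F n = 0`.)
-/

open MeasureTheory Set Filter Topology Metric
open scoped Real ENNReal ComplexConjugate

namespace Pool.H90.VK

noncomputable section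

theorem FMA_alg {w : ℂ} (hw : 0 ≤ w.re) : 1 + w ≠ 0 ∧ ‖w / (1 + w)‖ ≤ 1 ∧
    ‖w / (1 + w)‖ ≤ ‖w‖ ∧ ∀ c : ℝ, 0 < c → c⁻¹ ≤ w.re → ‖1 - w / (1 + w)‖ ≤ c := by
  have h1 : 1 + w.re ≤ ‖1 + w‖ := by
    have := Complex.re_le_norm (1 + w)
    simpa using this
  have h2 : 1 ≤ ‖1 + w‖ := by linarith
  have h0 : 1 + w ≠ 0 := by
    intro h
    rw [h, norm_zero] at h2
    linarith
  have h3 : ‖w‖ ≤ ‖1 + w‖ := by
    rw [← Real.sqrt_sq (norm_nonneg w), ← Real.sqrt_sq (norm_nonneg (1 + w))]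
    apply Real.sqrt_le_sqrt
    rw [Complex.sq_norm, Complex.sq_norm, Complex.normSq_apply, Complex.normSq_apply]
    simp only [Complex.add_re, Complex.one_re, Complex.add_im, Complex.one_im]
    nlinarith
  refine ⟨h0, ?_, ?_, ?_⟩
  · rw [norm_div]
    exact div_le_one_of_le₀ h3 (norm_nonneg _)
  · rw [norm_div]
    exact div_le_self (norm_nonneg _) h2
  · intro c hc hcw
    have e : 1 - w / (1 + w) = (1 + w)⁻¹ := by
      field_simp
      ring
    rw [e, norm_inv]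
    refine inv_le_of_inv_le₀ hc ?_
    linarith

theorem FMA_circ {U : Set ℂ} : OnCircle (arcLen.restrict U) := by
  have h := arcLen_circ
  unfold OnCircle at h ⊢
  exact le_antisymm ((Measure.restrict_apply_le U _).trans h.le) bot_le

theorem FMA_rho (K : Set ℂ) (hK : IsCompact K) (hsub : K ⊆ sphere (0 : ℂ) 1) {U : Set ℂ}
    (hU : IsOpen U) (hKU : K ⊆ U) {ε : ℝ} (hε : 0 < ε) (hε1 : ε < 1) :
    ∃ ρ : ℝ, 0 < ρ ∧ ρ < 1 ∧ 1 - ρ ≤ ε ∧
      ∀ ζ ∈ K, 1 ≤ (Kg (arcLen.restrict U) ((ρ : ℂ) * ζ)).re := by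
  have hfin : IsFiniteMeasure arcLen := arcLen_finite
  obtain ⟨δ, hδ, hδU⟩ := hK.exists_thickening_subset_open hU hKU
  set C : ℝ := arcLen.real univ with hC
  have hC0 : 0 ≤ C := measureReal_nonneg
  set τ : ℝ := min (min ε (δ / 2)) (δ ^ 2 / (8 * (C + 1))) with hτ
  have hτ0 : 0 < τ := lt_min (lt_min hε (by positivity)) (by positivity)
  have hτ1 : τ ≤ ε := (min_le_left _ _).trans (min_le_left _ _)
  have hτ2 : τ ≤ δ / 2 := (min_le_left _ _).trans (min_le_right _ _)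
  have hτ3 : τ ≤ δ ^ 2 / (8 * (C + 1)) := min_le_right _ _
  refine ⟨1 - τ, by linarith, by linarith, by linarith, ?_⟩
  intro ζ hζ
  have hζ1 : ‖ζ‖ = 1 := by simpa using hsub hζ
  set z : ℂ := ((1 - τ : ℝ) : ℂ) * ζ with hz
  have hzn : ‖z‖ = 1 - τ := by
    rw [hz, norm_mul, hζ1, mul_one, Complex.norm_real, Real.norm_of_nonneg (by linarith)]
  have hz1 : ‖z‖ < 1 := by rw [hzn]; linarith
  have hsum := KA_add (arcLen.restrict U) (arcLen.restrict Uᶜ) FMA_circ FMA_circ hz1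
  rw [Measure.restrict_add_restrict_compl hU.measurableSet, FMA_Kg_arcLen hz1] at hsum
  have hre := congrArg Complex.re hsum
  rw [Complex.add_re, KA_re (arcLen.restrict Uᶜ) FMA_circ hz1] at hre
  have h2pi : ((2 * π : ℂ)).re = 2 * π := by
    rw [← Complex.ofReal_ofNat, ← Complex.ofReal_mul, Complex.ofReal_re]
  rw [h2pi] at hre
  have hb : ∀ᵐ ξ ∂(arcLen.restrict Uᶜ), ‖(1 - ‖z‖ ^ 2) / ‖ξ - z‖ ^ 2‖ ≤ 8 * τ / δ ^ 2 := by
    have a1 : ∀ᵐ ξ ∂(arcLen.restrict Uᶜ), ξ ∈ sphere (0 : ℂ) 1 := FMA_circ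
    have a2 : ∀ᵐ ξ ∂(arcLen.restrict Uᶜ), ξ ∈ Uᶜ :=
      ae_restrict_mem hU.measurableSet.compl
    filter_upwards [a2] with ξ h2
    have h3 : δ ≤ dist ξ ζ := by
      by_contra hcon
      push Not at hcon
      exact h2 (hδU (mem_thickening_iff.2 ⟨ζ, hζ, hcon⟩))
    have h4 : dist ζ z = τ := by
      rw [dist_eq_norm, hz]
      have : ζ - ((1 - τ : ℝ) : ℂ) * ζ = (τ : ℂ) * ζ := by
        push_cast
        ring
      rw [this, norm_mul, hζ1, mul_one, Complex.norm_real, Real.norm_of_nonneg hτ0.le]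
    have h5 : δ / 2 ≤ ‖ξ - z‖ := by
      rw [← dist_eq_norm]
      have := dist_triangle ξ z ζ
      rw [dist_comm z ζ, h4] at this
      linarith
    have h6 : 0 ≤ 1 - ‖z‖ ^ 2 := by rw [hzn]; nlinarith
    have h7 : 1 - ‖z‖ ^ 2 ≤ 2 * τ := by rw [hzn]; nlinarith
    rw [Real.norm_of_nonneg (by positivity)]
    have h8 : (δ / 2) ^ 2 ≤ ‖ξ - z‖ ^ 2 := pow_le_pow_left₀ (by positivity) h5 2
    calc (1 - ‖z‖ ^ 2) / ‖ξ - z‖ ^ 2 ≤ (2 * τ) / (δ / 2) ^ 2 :=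
          div_le_div₀ (by positivity) h7 (by positivity) h8
      _ = 8 * τ / δ ^ 2 := by
          field_simp
          ring
  have hI := norm_integral_le_of_norm_le_const hb
  have hm : (arcLen.restrict Uᶜ).real univ ≤ C := by
    rw [hC]
    exact ENNReal.toReal_mono (measure_ne_top _ _) (Measure.restrict_apply_le _ _)
  have h9 : 8 * τ / δ ^ 2 * (arcLen.restrict Uᶜ).real univ ≤ 1 := by
    calc 8 * τ / δ ^ 2 * (arcLen.restrict Uᶜ).real univ ≤ 8 * τ / δ ^ 2 * (C + 1) :=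
          mul_le_mul_of_nonneg_left (by linarith) (by positivity)
      _ ≤ 8 * (δ ^ 2 / (8 * (C + 1))) / δ ^ 2 * (C + 1) := by gcongr
      _ = 1 := by field_simp
  have h10 := (Real.le_norm_self _).trans (hI.trans h9)
  have := Real.pi_gt_three
  linarith

theorem FMA_step (K : Set ℂ) (hK : IsCompact K) (hsub : K ⊆ sphere (0 : ℂ) 1) (h0 : arcLen K = 0)
    {ε : ℝ} (hε : 0 < ε) (hε1 : ε < 1) :
    ∃ F : ℂ → ℂ, ∃ ρ : ℝ, (1 < ρ ∧ DifferentiableOn ℂ F (ball (0 : ℂ) ρ)) ∧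
      (∀ z ∈ closedBall (0 : ℂ) 1, ‖F z‖ ≤ 1) ∧ (∀ z ∈ K, ‖1 - F z‖ ≤ ε) ∧
      (∀ z ∈ closedBall (0 : ℂ) 1, ∀ d : ℝ, 4 * ε ≤ d → (∀ w ∈ K, d ≤ dist z w) →
        ‖F z‖ ≤ 4 * ε / d) := by
  have hfin : IsFiniteMeasure arcLen := arcLen_finite
  obtain ⟨U0, hKU0, hU0, hU0m⟩ := K.exists_isOpen_le_add arcLen
    (ε := ENNReal.ofReal (ε ^ 2)) (by simp [hε.ne'])
  rw [h0, zero_add] at hU0m
  set U : Set ℂ := U0 ∩ thickening ε K with hUd
  have hU : IsOpen U := hU0.inter isOpen_thickening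
  have hKU : K ⊆ U := subset_inter hKU0 (self_subset_thickening hε K)
  have hUm : arcLen U ≤ ENNReal.ofReal (ε ^ 2) := (measure_mono inter_subset_left).trans hU0m
  obtain ⟨ρ, hρ0, hρ1, hρε, hρ⟩ := FMA_rho K hK hsub hU hKU hε hε1
  set σ : Measure ℂ := arcLen.restrict U with hσ
  have hσc : OnCircle σ := FMA_circ
  set H : ℂ → ℂ := fun z => ((ε⁻¹ : ℝ) : ℂ) * Kg σ z with hH
  have hHre : ∀ z : ℂ, ‖z‖ < 1 → 0 ≤ (H z).re := by
    intro z hz
    simp only [hH]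
    rw [Complex.re_ofReal_mul]
    exact mul_nonneg (by positivity) (KA_re_nonneg σ hσc hz)
  have hHd : DifferentiableOn ℂ H (ball (0 : ℂ) 1) := (KA_diff σ hσc).const_mul _
  have hmap : ∀ z ∈ ball (0 : ℂ) ρ⁻¹, (ρ : ℂ) * z ∈ ball (0 : ℂ) 1 := by
    intro z hz
    rw [mem_ball_zero_iff] at hz ⊢
    rw [norm_mul, Complex.norm_real, Real.norm_of_nonneg hρ0.le]
    calc ρ * ‖z‖ < ρ * ρ⁻¹ := mul_lt_mul_of_pos_left hz hρ0
      _ = 1 := mul_inv_cancel₀ hρ0.ne'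
  have hρ2 : 1 < ρ⁻¹ := (one_lt_inv₀ hρ0).2 hρ1
  have hcb : ∀ z ∈ closedBall (0 : ℂ) 1, ‖(ρ : ℂ) * z‖ < 1 := by
    intro z hz
    have : z ∈ ball (0 : ℂ) ρ⁻¹ := closedBall_subset_ball hρ2 hz
    simpa using hmap z this
  refine ⟨fun z => H (ρ * z) / (1 + H (ρ * z)), ρ⁻¹, ⟨hρ2, ?_⟩, ?_, ?_, ?_⟩
  · have h1 : DifferentiableOn ℂ (fun z : ℂ => H (ρ * z)) (ball (0 : ℂ) ρ⁻¹) :=
      hHd.comp (differentiableOn_id.const_mul _) hmap
    refine h1.div (h1.const_add 1) ?_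
    intro z hz
    exact (FMA_alg (hHre _ (by simpa using hmap z hz))).1
  · intro z hz
    exact (FMA_alg (hHre _ (hcb z hz))).2.1
  · intro z hz
    have hz1 : z ∈ closedBall (0 : ℂ) 1 := sphere_subset_closedBall (hsub hz)
    refine (FMA_alg (hHre _ (hcb z hz1))).2.2.2 ε hε ?_
    simp only [hH]
    rw [Complex.re_ofReal_mul]
    calc ε⁻¹ = ε⁻¹ * 1 := (mul_one _).symm
      _ ≤ _ := mul_le_mul_of_nonneg_left (hρ z hz) (by positivity)
  · intro z hz d hd hdK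
    refine (FMA_alg (hHre _ (hcb z hz))).2.2.1.trans ?_
    have hd0 : 0 < d := by linarith
    have hzn : ‖z‖ ≤ 1 := by simpa using hz
    have hb : ∀ᵐ ξ ∂σ, ‖(ξ + (ρ : ℂ) * z) / (ξ - (ρ : ℂ) * z)‖ ≤ 4 / d := by
      have a1 : ∀ᵐ ξ ∂σ, ξ ∈ sphere (0 : ℂ) 1 := hσc
      have a2 : ∀ᵐ ξ ∂σ, ξ ∈ U := ae_restrict_mem hU.measurableSet
      filter_upwards [a1, a2] with ξ h1 h2
      obtain ⟨w, hwK, hw⟩ := mem_thickening_iff.1 h2.2
      have h3 := hdK w hwK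
      have hξ : ‖ξ‖ = 1 := by simpa using h1
      have h4 : dist z ((ρ : ℂ) * z) ≤ ε := by
        rw [dist_eq_norm]
        have e : z - (ρ : ℂ) * z = ((1 - ρ : ℝ) : ℂ) * z := by
          push_cast
          ring
        rw [e, norm_mul, Complex.norm_real, Real.norm_of_nonneg (by linarith)]
        nlinarith [norm_nonneg z]
      have h5 : d / 2 ≤ ‖ξ - (ρ : ℂ) * z‖ := by
        rw [← dist_eq_norm]
        have b1 := dist_triangle z ((ρ : ℂ) * z) ξ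
        have b2 := dist_triangle z ξ w
        have b3 := dist_comm ((ρ : ℂ) * z) ξ
        linarith
      have h6 : ‖ξ + (ρ : ℂ) * z‖ ≤ 2 := by
        refine (norm_add_le _ _).trans ?_
        have := hcb z hz
        linarith
      rw [norm_div]
      calc ‖ξ + (ρ : ℂ) * z‖ / ‖ξ - (ρ : ℂ) * z‖ ≤ 2 / (d / 2) :=
            div_le_div₀ (by norm_num) h6 (by positivity) h5
        _ = 4 / d := by
            field_simp
            ring
    have hI := norm_integral_le_of_norm_le_const hb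
    have hm : σ.real univ ≤ ε ^ 2 := by
      have : σ univ = arcLen U := by rw [hσ, Measure.restrict_apply_univ]
      rw [measureReal_def, this]
      refine (ENNReal.toReal_mono (by simp) hUm).trans ?_
      rw [ENNReal.toReal_ofReal (by positivity)]
    simp only [hH]
    rw [norm_mul, Complex.norm_real, Real.norm_of_nonneg (by positivity)]
    calc ε⁻¹ * ‖Kg σ ((ρ : ℂ) * z)‖ ≤ ε⁻¹ * (4 / d * ε ^ 2) := by
          refine mul_le_mul_of_nonneg_left (hI.trans ?_) (by positivity)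
          exact mul_le_mul_of_nonneg_left hm (by positivity)
      _ = 4 * ε / d := by
          field_simp

theorem FMA (K : Set ℂ) (hK : IsCompact K) (hsub : K ⊆ sphere (0 : ℂ) 1) (h0 : arcLen K = 0) :
    ∃ F : ℕ → ℂ → ℂ, ∃ ρ : ℕ → ℝ, (∀ n, 1 < ρ n ∧ DifferentiableOn ℂ (F n) (ball (0 : ℂ) (ρ n))) ∧
      (∀ n, ∀ z ∈ closedBall (0 : ℂ) 1, ‖F n z‖ ≤ 1) ∧
      (∀ z ∈ K, Tendsto (fun n => F n z) atTop (𝓝 1)) ∧
      (∀ z ∈ closedBall (0 : ℂ) 1, z ∉ K → Tendsto (fun n => F n z) atTop (𝓝 0)) := by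
  have hε : ∀ n : ℕ, (0 : ℝ) < 1 / (n + 2) ∧ (1 : ℝ) / (n + 2) < 1 := by
    intro n
    have : (0 : ℝ) ≤ n := Nat.cast_nonneg n
    refine ⟨by positivity, ?_⟩
    rw [div_lt_one (by linarith)]
    linarith
  choose F ρ hF1 hF2 hF3 hF4 using fun n : ℕ => FMA_step K hK hsub h0 (hε n).1 (hε n).2
  have hlim : Tendsto (fun n : ℕ => (1 : ℝ) / (n + 2)) atTop (𝓝 0) := by
    have h := (tendsto_add_atTop_iff_nat (f := fun n : ℕ => (1 : ℝ) / n) 2).2
      tendsto_one_div_atTop_nhds_zero_nat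
    refine h.congr fun n => ?_
    push_cast
    rfl
  refine ⟨F, ρ, hF1, hF2, ?_, ?_⟩
  · intro z hz
    rw [tendsto_iff_norm_sub_tendsto_zero]
    refine squeeze_zero (fun _ => norm_nonneg _) (fun n => ?_) hlim
    rw [norm_sub_rev]
    exact hF3 n z hz
  · intro z hz hzK
    obtain ⟨d, hd, hdK⟩ := Metric.isOpen_iff.1 hK.isClosed.isOpen_compl z hzK
    have hdK' : ∀ w ∈ K, d ≤ dist z w := by
      intro w hw
      by_contra hcon
      push Not at hcon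
      exact hdK (mem_ball'.2 hcon) hw
    have h2 : Tendsto (fun n : ℕ => 4 * ((1 : ℝ) / (n + 2)) / d) atTop (𝓝 0) := by
      have := (hlim.const_mul 4).div_const d
      simpa using this
    have h3 : ∀ᶠ n : ℕ in atTop, 4 * ((1 : ℝ) / (n + 2)) ≤ d := by
      have h4 : Tendsto (fun n : ℕ => 4 * ((1 : ℝ) / (n + 2))) atTop (𝓝 0) := by
        simpa using hlim.const_mul 4
      exact (h4.eventually (gt_mem_nhds hd)).mono fun n hn => le_of_lt hn
    rw [tendsto_zero_iff_norm_tendsto_zero]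
    refine squeeze_zero' (Eventually.of_forall fun _ => norm_nonneg _) ?_ h2
    filter_upwards [h3] with n hn
    exact hF4 n z hz d hn hdK'

end

end Pool.H90.VK
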