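import Pool.Agent.H90.VK.PW
import Pool.Agent.H90.VK.FMA
import Pool.Agent.H90.VK.CMP

/-!
# FMB : local F. and M. Riesz theorem

Let `P, N` be finite measures on the circle, `X = Kg P - Kg N`, `0 < ρ < π`, and suppose
`∫_{θ₀-ρ}^{θ₀+ρ} |X(R e^{iθ})| dθ ≤ C` for all `R ∈ (r₀, 1)`.
Then `P B = N B` for every Borel `B ⊂ arc (θ₀-ρ) (θ₀+ρ)` with `arcLen B = 0`.

Proof. By inner regularity (applied to `P`, `N` and compact subsets of `B`; it is enough to show
`P K = N K` for all compact `K ⊂ B`: then `P B = sup P K = sup N K = N B`) let `B = K` be compact.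
Choose `θ₁ < θ₂` in `(θ₀-ρ, θ₀+ρ)` with `K ⊂ arc θ₁ θ₂`, with no mass of `P`, `N` at `e^{iθ_j}` (all but
countably many are allowed) and `∫_{r₁}^1 |X(r e^{iθ_j})| dr < ∞`, `r₁ = max r₀ (1/2)` (by Tonelli
`∫_{r₁}^1 ∫ |X(re^{iθ})| dθ dr ≤ C`, so this holds for a.e. `θ`).
For `R ∈ (r₁, 1)` and the peak functions `F n` of `FMA`, Cauchy's theorem on the rectangle
`log r₁ ≤ Re w ≤ log R`, `θ₁ ≤ Im w ≤ θ₂` for `w ↦ F n (e^w) X(e^w)` gives
`∫_{θ₁}^{θ₂} F n (R e^{iθ}) X(R e^{iθ}) dθ = ε_n(R)`, where (sides at `θ₁`, `θ₂` and at radius `r₁`)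
`|ε_n(R)| ≤ ∫_{θ₁}^{θ₂} |F n X|(r₁ e^{iθ}) dθ + Σ_j ∫_{r₁}^1 |F n X|(r e^{iθ_j}) dr/r =: ε_n`,
and `ε_n → 0` by dominated convergence (`F n → 0` off `K`, `|F n| ≤ 1`).
Take real parts: `∫ Re F n · Re X - ∫ Im F n · Im X = Re ε_n(R)`. Let `R → 1` along an ultrafilter
`U ≤ 𝓝[<] 1`: by `PW` (for `P` and `N`) the first integral tends to
`2π (∫_{arc} Re F n dP - ∫_{arc} Re F n dN)`. Let `κ` be the weak limit (`CMP`) of the measures
`|X(R e^{iθ})| dθ` on `(θ₁, θ₂)` pushed to the circle (mass `≤ C`), so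
`lim sup |∫ Im F n Im X| ≤ lim ∫ |Im F n (R e^{iθ})| |X(R e^{iθ})| dθ = ∫ |Im F n| dκ`
(`F n` is uniformly continuous on the closed disc, so `F n (R e^{iθ}) - F n (e^{iθ}) → 0` uniformly).
Hence `2π |∫_{arc} Re F n dP - ∫_{arc} Re F n dN| ≤ ε_n + ∫ |Im F n| dκ`. Let `n → ∞`:
`Im F n → 0` everywhere on the circle (`F n → 1` on `K`, `→ 0` off `K`), `Re F n → 1_K`;
dominated convergence gives `2π |P K - N K| ≤ 0`.
-/

open MeasureTheory Set Filter Topology Metric
open scoped Real ENNReal ComplexConjugate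

namespace Pool.H90.VK

noncomputable section

theorem FMB_exp_inj {x y : ℝ} (h : |x - y| < 2 * π)
    (he : Complex.exp (x * Complex.I) = Complex.exp (y * Complex.I)) : x = y := by
  rw [Complex.exp_eq_exp_iff_exists_int] at he
  obtain ⟨n, hn⟩ := he
  have h1 : (x : ℂ) = y + n * (2 * π) := by
    have : (x : ℂ) * Complex.I = (y + n * (2 * π)) * Complex.I := by rw [hn]; ring
    exact mul_right_cancel₀ Complex.I_ne_zero this
  have h2 : x = y + n * (2 * π) := by exact_mod_cast h1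
  have h3 : |(n : ℝ)| < 1 := by
    have h4 : |x - y| = |(n:ℝ)| * (2 * π) := by
      rw [h2, add_sub_cancel_left, abs_mul, abs_of_pos Real.two_pi_pos]
    rw [h4] at h
    by_contra hc
    push Not at hc
    nlinarith [Real.two_pi_pos]
  have h5 : n = 0 := by
    have : |n| < 1 := by exact_mod_cast h3
    exact Int.abs_lt_one_iff.1 this
  rw [h2, h5]; simp

theorem FMB_cexp : Continuous (fun θ : ℝ => Complex.exp (θ * Complex.I)) := by fun_prop

theorem FMB_arcs {K : Set ℂ} (hK : IsCompact K) {a b : ℝ} (hab : a < b) (hb : b < a + 2 * π)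
    (hsub : K ⊆ arc a b) : ∃ α β : ℝ, a < α ∧ α ≤ β ∧ β < b ∧
      K ⊆ (fun θ : ℝ => Complex.exp (θ * Complex.I)) '' Icc α β := by
  set T : Set ℝ := Icc a b ∩ (fun θ : ℝ => Complex.exp (θ * Complex.I)) ⁻¹' K with hT
  have hTc : IsCompact T := isCompact_Icc.inter_right (hK.isClosed.preimage FMB_cexp)
  have hKT : K ⊆ (fun θ : ℝ => Complex.exp (θ * Complex.I)) '' T := by
    intro ζ hζ
    obtain ⟨θ, hθ, rfl⟩ := hsub hζ
    exact ⟨θ, ⟨Ioo_subset_Icc_self hθ, hζ⟩, rfl⟩
  rcases T.eq_empty_or_nonempty with hE | hne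
  · refine ⟨(a + b) / 2, (a + b) / 2, by linarith, le_rfl, by linarith, ?_⟩
    rw [hE, image_empty] at hKT
    exact hKT.trans (empty_subset _)
  · have h1 := hTc.sInf_mem hne
    have h2 := hTc.sSup_mem hne
    have hend : ∀ x ∈ T, x ≠ a ∧ x ≠ b := by
      rintro x ⟨⟨hx1, hx2⟩, hx3⟩
      obtain ⟨θ, hθ, he⟩ := hsub hx3
      have h3 : θ = x := FMB_exp_inj (by rw [abs_lt]; constructor <;> linarith [hθ.1, hθ.2]) he
      constructor
      · rintro rfl
        exact hθ.1.ne' h3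
      · rintro rfl
        exact hθ.2.ne h3
    refine ⟨sInf T, sSup T, lt_of_le_of_ne h1.1.1 (Ne.symm (hend _ h1).1), ?_,
      lt_of_le_of_ne h2.1.2 (hend _ h2).2, ?_⟩
    · exact csInf_le_csSup hne hTc.bddBelow hTc.bddAbove
    · refine hKT.trans (image_mono fun x hx => ⟨csInf_le hTc.bddBelow hx, le_csSup hTc.bddAbove hx⟩)

theorem FMB_good {X : ℂ → ℂ} (hX : ContinuousOn X (ball (0 : ℂ) 1)) {a b C s₀ : ℝ} (hab : a < b)
    (h : ∀ x : ℝ, s₀ < x → x < 0 →
      ∫ θ in a..b, ‖X (Complex.exp (x + θ * Complex.I))‖ ≤ C) :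
    ∀ᵐ θ : ℝ ∂(volume.restrict (Ioo a b)),
      IntegrableOn (fun x : ℝ => X (Complex.exp (x + θ * Complex.I))) (Ioo s₀ 0) := by
  set f : ℝ × ℝ → ℂ := fun q => X (Complex.exp (q.1 + q.2 * Complex.I)) with hf
  have hmem : ∀ x θ : ℝ, x < 0 → Complex.exp (x + θ * Complex.I) ∈ ball (0 : ℂ) 1 := by
    intro x θ hx
    rw [mem_ball_zero_iff, Complex.norm_exp]
    simp [hx]
  have hcont : ContinuousOn f (Ioo s₀ 0 ×ˢ Ioo a b) := by
    refine hX.comp (Continuous.continuousOn (by fun_prop)) ?_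
    rintro ⟨x, θ⟩ hq
    exact hmem x θ hq.1.2
  have hmeas : AEStronglyMeasurable f
      ((volume.restrict (Ioo s₀ 0)).prod (volume.restrict (Ioo a b))) := by
    rw [Measure.prod_restrict]
    exact hcont.aestronglyMeasurable (measurableSet_Ioo.prod measurableSet_Ioo)
  have hint : Integrable f ((volume.restrict (Ioo s₀ 0)).prod (volume.restrict (Ioo a b))) := by
    rw [integrable_prod_iff hmeas]
    constructor
    · refine (ae_restrict_iff' measurableSet_Ioo).2 (ae_of_all _ fun x hx => ?_)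
      have h1 : ContinuousOn (fun θ : ℝ => f (x, θ)) (Icc a b) := by
        refine hX.comp (Continuous.continuousOn (by fun_prop)) ?_
        intro θ _
        exact hmem x θ hx.2
      exact (h1.integrableOn_Icc).mono_set Ioo_subset_Icc_self
    · have h2 := hmeas.norm.integral_prod_right'
      refine Integrable.of_bound h2 C ?_
      refine (ae_restrict_iff' measurableSet_Ioo).2 (ae_of_all _ fun x hx => ?_)
      have h3 := h x hx.1 hx.2
      rw [intervalIntegral.integral_of_le hab.le, integral_Ioc_eq_integral_Ioo] at h3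
      rw [Real.norm_of_nonneg (integral_nonneg fun _ => norm_nonneg _)]
      exact h3
  exact hint.prod_left_ae

theorem FMB_atoms (P : Measure ℂ) [IsFiniteMeasure P] {a b : ℝ} (hb : b < a + 2 * π) :
    ∀ᵐ θ : ℝ ∂(volume.restrict (Ioo a b)), P {Complex.exp (θ * Complex.I)} = 0 := by
  have hZ : {ζ : ℂ | 0 < P {ζ}}.Countable := by
    have := Measure.countable_meas_level_set_pos (μ := P) (g := fun x : ℂ => x) measurable_id
    simpa using this
  have hS : {θ : ℝ | θ ∈ Ioo a b ∧ P {Complex.exp (θ * Complex.I)} ≠ 0}.Countable := by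
    refine MapsTo.countable_of_injOn (f := fun θ : ℝ => Complex.exp (θ * Complex.I))
      (t := {ζ : ℂ | 0 < P {ζ}}) ?_ ?_ hZ
    · rintro θ ⟨-, hθ⟩
      exact pos_iff_ne_zero.2 hθ
    · rintro x ⟨hx, -⟩ y ⟨hy, -⟩ hxy
      exact FMB_exp_inj (by rw [abs_lt]; constructor <;> linarith [hx.1, hx.2, hy.1, hy.2]) hxy
  rw [ae_restrict_iff' measurableSet_Ioo, ae_iff]
  refine measure_mono_null ?_ (hS.measure_zero volume)
  intro θ hθ
  simp only [mem_ofPred_eq, not_forall] at hθ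
  obtain ⟨h1, h2⟩ := hθ
  exact ⟨h1, h2⟩

theorem FMB_pick {p : ℝ → Prop} {a b c d : ℝ} (h : ∀ᵐ θ ∂(volume.restrict (Ioo a b)), p θ)
    (hac : a ≤ c) (hcd : c < d) (hdb : d ≤ b) : ∃ θ ∈ Ioo c d, p θ := by
  by_contra hc
  push Not at hc
  rw [ae_restrict_iff' measurableSet_Ioo, ae_iff] at h
  have h1 : volume (Ioo c d) = 0 := by
    refine measure_mono_null ?_ h
    intro θ hθ
    simp only [mem_ofPred_eq, not_forall]
    exact ⟨⟨hac.trans_lt hθ.1, hθ.2.trans_le hdb⟩, hc θ hθ⟩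
  rw [Real.volume_Ioo, ENNReal.ofReal_eq_zero] at h1
  linarith

theorem FMB_cauchy {Φ : ℂ → ℂ} (hΦ : DifferentiableOn ℂ Φ (ball (0 : ℂ) 1)) {s₀ s θ₁ θ₂ : ℝ}
    (hs : s₀ ≤ s) (hs0 : s < 0) :
    ‖∫ y in θ₁..θ₂, Φ (Complex.exp (s + y * Complex.I))‖ ≤
      ‖∫ y in θ₁..θ₂, Φ (Complex.exp (s₀ + y * Complex.I))‖ +
      ‖∫ x in s₀..s, Φ (Complex.exp (x + θ₁ * Complex.I))‖ +
      ‖∫ x in s₀..s, Φ (Complex.exp (x + θ₂ * Complex.I))‖ := by
  have hmem : ∀ w : ℂ, w.re < 0 → Complex.exp w ∈ ball (0 : ℂ) 1 := by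
    intro w hw
    rw [mem_ball_zero_iff, Complex.norm_exp]
    simpa using hw
  have h1 := Complex.integral_boundary_rect_eq_zero_of_differentiableOn
    (fun w => Φ (Complex.exp w)) (s₀ + θ₁ * Complex.I) (s + θ₂ * Complex.I) (by
      refine hΦ.comp Complex.differentiable_exp.differentiableOn ?_
      intro w hw
      apply hmem
      have h2 := hw.1
      simp only [Complex.add_re, Complex.ofReal_re, Complex.mul_re, Complex.I_re, mul_zero,
        Complex.ofReal_im, Complex.I_im, mul_one, sub_self, add_zero, mem_preimage] at h2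
      rw [uIcc_of_le hs] at h2
      linarith [h2.2])
  simp only [Complex.add_re, Complex.ofReal_re, Complex.mul_re, Complex.I_re, mul_zero,
    Complex.ofReal_im, Complex.I_im, mul_one, sub_self, add_zero, Complex.add_im, Complex.mul_im,
    zero_add, smul_eq_mul] at h1
  set J := ∫ y in θ₁..θ₂, Φ (Complex.exp (s + y * Complex.I))
  set J0 := ∫ y in θ₁..θ₂, Φ (Complex.exp (s₀ + y * Complex.I))
  set A1 := ∫ x in s₀..s, Φ (Complex.exp (x + θ₁ * Complex.I))
  set A2 := ∫ x in s₀..s, Φ (Complex.exp (x + θ₂ * Complex.I))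
  have h3 : Complex.I * J = Complex.I * J0 - A1 + A2 := by linear_combination h1
  calc ‖J‖ = ‖Complex.I * J‖ := by rw [norm_mul, Complex.norm_I, one_mul]
    _ = ‖Complex.I * J0 - A1 + A2‖ := by rw [h3]
    _ ≤ ‖Complex.I * J0 - A1‖ + ‖A2‖ := norm_add_le _ _
    _ ≤ ‖Complex.I * J0‖ + ‖A1‖ + ‖A2‖ := by gcongr; exact norm_sub_le _ _
    _ = ‖J0‖ + ‖A1‖ + ‖A2‖ := by rw [norm_mul, Complex.norm_I, one_mul]

theorem FMB_dom {μ : Measure ℝ} {F : ℕ → ℂ → ℂ} {X : ℂ → ℂ} {γ : ℝ → ℂ}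
    (hint : Integrable (fun t => X (γ t)) μ)
    (hmeas : ∀ n, AEStronglyMeasurable (fun t => F n (γ t) * X (γ t)) μ)
    (hb : ∀ n, ∀ᵐ t ∂μ, ‖F n (γ t)‖ ≤ 1)
    (h0 : ∀ᵐ t ∂μ, Tendsto (fun n => F n (γ t)) atTop (𝓝 0)) :
    Tendsto (fun n => ∫ t, ‖F n (γ t) * X (γ t)‖ ∂μ) atTop (𝓝 0) := by
  have h1 := tendsto_integral_of_dominated_convergence (μ := μ)
    (F := fun n t => ‖F n (γ t) * X (γ t)‖) (f := fun _ => (0 : ℝ)) (fun t => ‖X (γ t)‖)
    (fun n => (hmeas n).norm) hint.norm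
    (fun n => by
      filter_upwards [hb n] with t ht
      rw [norm_norm, norm_mul]
      exact mul_le_of_le_one_left (norm_nonneg _) ht)
    (by
      filter_upwards [h0] with t ht
      have h2 := (ht.mul_const (X (γ t))).norm
      simpa using h2)
  simpa using h1


theorem FMB_polar (x θ : ℝ) : Complex.exp (x + θ * Complex.I) =
    (Real.exp x : ℝ) * Complex.exp (θ * Complex.I) := by
  rw [Complex.exp_add, Complex.ofReal_exp]

theorem FMB_norm {R : ℝ} (hR : 0 ≤ R) (θ : ℝ) : ‖(R : ℂ) * Complex.exp (θ * Complex.I)‖ = R := by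
  rw [norm_mul, Complex.norm_exp_ofReal_mul_I, mul_one, Complex.norm_real, Real.norm_of_nonneg hR]

theorem FMB_cont {X : ℂ → ℂ} (hX : ContinuousOn X (ball (0 : ℂ) 1)) {R : ℝ} (hR : 0 ≤ R)
    (hR1 : R < 1) : Continuous (fun θ : ℝ => X (R * Complex.exp (θ * Complex.I))) := by
  refine hX.comp_continuous (by fun_prop) fun θ => ?_
  rw [mem_ball_zero_iff, FMB_norm hR]
  exact hR1

theorem FMB_contF {F : ℂ → ℂ} (hF : ContinuousOn F (closedBall (0 : ℂ) 1)) {R : ℝ} (hR : 0 ≤ R)
    (hR1 : R ≤ 1) : Continuous (fun θ : ℝ => F (R * Complex.exp (θ * Complex.I))) := by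
  refine hF.comp_continuous (by fun_prop) fun θ => ?_
  rw [mem_closedBall_zero_iff, FMB_norm hR]
  exact hR1

/-- the measures `‖X (R e^{iθ})‖ dθ` -/
def FMB_m (X : ℂ → ℂ) (θ₁ θ₂ R : ℝ) : Measure ℂ :=
  Measure.map (fun θ : ℝ => Complex.exp (θ * Complex.I))
    ((volume.restrict (Ioo θ₁ θ₂)).withDensity
      (fun θ => (‖X (R * Complex.exp (θ * Complex.I))‖₊ : ℝ≥0∞)))

theorem FMB_m_circ (X : ℂ → ℂ) (θ₁ θ₂ R : ℝ) : OnCircle (FMB_m X θ₁ θ₂ R) := by
  unfold OnCircle FMB_m
  rw [Measure.map_apply FMB_cexp.measurable isClosed_sphere.measurableSet.compl]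
  have h1 : (fun θ : ℝ => Complex.exp (θ * Complex.I)) ⁻¹' (sphere (0 : ℂ) 1)ᶜ = ∅ := by
    ext θ
    simp [Complex.norm_exp_ofReal_mul_I]
  rw [h1, measure_empty]

theorem FMB_meas {μ : Measure ℂ} (hμ : OnCircle μ) {g : ℂ → ℝ}
    (hg : ContinuousOn g (sphere (0 : ℂ) 1)) : AEStronglyMeasurable g μ := by
  have h1 : μ.restrict (sphere (0 : ℂ) 1) = μ := Measure.restrict_eq_self_of_ae_mem (by
    rw [ae_iff]
    exact hμ)
  have h2 := hg.aestronglyMeasurable (μ := μ) isClosed_sphere.measurableSet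
  rwa [h1] at h2

theorem FMB_m_integral {X : ℂ → ℂ} (hX : ContinuousOn X (ball (0 : ℂ) 1)) {θ₁ θ₂ R : ℝ}
    (hR : 0 ≤ R) (hR1 : R < 1) {g : ℂ → ℝ} (hg : ContinuousOn g (sphere (0 : ℂ) 1)) :
    ∫ ζ, g ζ ∂(FMB_m X θ₁ θ₂ R) = ∫ θ in Ioo θ₁ θ₂,
      ‖X (R * Complex.exp (θ * Complex.I))‖ * g (Complex.exp (θ * Complex.I)) := by
  have h1 := FMB_meas (FMB_m_circ X θ₁ θ₂ R) hg
  unfold FMB_m at h1 ⊢
  rw [integral_map FMB_cexp.measurable.aemeasurable h1]
  rw [integral_withDensity_eq_integral_smul (FMB_cont hX hR hR1).nnnorm.measurable]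
  rfl

theorem FMB_m_finite {X : ℂ → ℂ} (hX : ContinuousOn X (ball (0 : ℂ) 1)) {θ₁ θ₂ R : ℝ}
    (hR : 0 ≤ R) (hR1 : R < 1) : IsFiniteMeasure (FMB_m X θ₁ θ₂ R) := by
  have h1 : IntegrableOn (fun θ : ℝ => X (R * Complex.exp (θ * Complex.I))) (Ioo θ₁ θ₂) :=
    ((FMB_cont hX hR hR1).integrableOn_Icc).mono_set Ioo_subset_Icc_self
  have h2 : IsFiniteMeasure ((volume.restrict (Ioo θ₁ θ₂)).withDensity
      (fun θ => (‖X (R * Complex.exp (θ * Complex.I))‖₊ : ℝ≥0∞))) :=
    isFiniteMeasure_withDensity h1.hasFiniteIntegral.ne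
  unfold FMB_m
  infer_instance

theorem FMB_m_mass {X : ℂ → ℂ} (hX : ContinuousOn X (ball (0 : ℂ) 1)) {θ₁ θ₂ R : ℝ}
    (hR : 0 ≤ R) (hR1 : R < 1) : (FMB_m X θ₁ θ₂ R).real univ = ∫ θ in Ioo θ₁ θ₂,
      ‖X (R * Complex.exp (θ * Complex.I))‖ := by
  have h1 := FMB_m_integral hX (θ₁ := θ₁) (θ₂ := θ₂) hR hR1 (g := fun _ => (1 : ℝ))
    continuousOn_const
  simpa using h1

theorem FMB_step (P N : Measure ℂ) [IsFiniteMeasure P] [IsFiniteMeasure N] (hP : OnCircle P)
    (hN : OnCircle N) {θ₁ θ₂ : ℝ} (h12 : θ₁ < θ₂) (h2π : θ₂ < θ₁ + 2 * π)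
    (e1 : P {Complex.exp (θ₁ * Complex.I)} = 0) (e2 : P {Complex.exp (θ₂ * Complex.I)} = 0)
    (e3 : N {Complex.exp (θ₁ * Complex.I)} = 0) (e4 : N {Complex.exp (θ₂ * Complex.I)} = 0)
    {F : ℂ → ℂ} (hF : ContinuousOn F (closedBall (0 : ℂ) 1)) {ε C : ℝ} {s : ℕ → ℝ}
    (hs : ∀ k, s k < 0) (hs0 : Tendsto s atTop (𝓝 0))
    (hC : ∀ k, ∫ θ in Ioo θ₁ θ₂, ‖Kg P (Real.exp (s k) * Complex.exp (θ * Complex.I)) -
      Kg N (Real.exp (s k) * Complex.exp (θ * Complex.I))‖ ≤ C)
    (hε : ∀ k, ‖∫ y in θ₁..θ₂, F (Real.exp (s k) * Complex.exp (y * Complex.I)) *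
      (Kg P (Real.exp (s k) * Complex.exp (y * Complex.I)) -
      Kg N (Real.exp (s k) * Complex.exp (y * Complex.I)))‖ ≤ ε)
    {U : Ultrafilter ℕ} (hU : (U : Filter ℕ) ≤ atTop) {κ : Measure ℂ}
    (hκ : ∀ g : ℂ → ℝ, ContinuousOn g (sphere (0 : ℂ) 1) →
      Tendsto (fun k => ∫ ζ, g ζ ∂(FMB_m (fun z => Kg P z - Kg N z) θ₁ θ₂ (Real.exp (s k)))) U
        (𝓝 (∫ ζ, g ζ ∂κ))) :
    |2 * π * ∫ ζ in arc θ₁ θ₂, (F ζ).re ∂P - 2 * π * ∫ ζ in arc θ₁ θ₂, (F ζ).re ∂N| ≤
      ε + ∫ ζ, |(F ζ).im| ∂κ := by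
  set X : ℂ → ℂ := fun z => Kg P z - Kg N z with hXdef
  have hKP := (KA_diff P hP).continuousOn
  have hKN := (KA_diff N hN).continuousOn
  have hX : ContinuousOn X (ball (0 : ℂ) 1) := hKP.sub hKN
  have hR0 : ∀ k, 0 ≤ Real.exp (s k) := fun k => (Real.exp_pos _).le
  have hR1 : ∀ k, Real.exp (s k) < 1 := fun k => Real.exp_lt_one_iff.2 (hs k)
  have hRt : Tendsto (fun k => Real.exp (s k)) atTop (𝓝 1) := by
    have := (Real.continuous_exp.tendsto 0).comp hs0
    rwa [Real.exp_zero] at this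
  have hR : Tendsto (fun k => Real.exp (s k)) atTop (𝓝[<] 1) :=
    tendsto_nhdsWithin_iff.2 ⟨hRt, Eventually.of_forall fun k => hR1 k⟩
  have hFre : ContinuousOn (fun z => (F z).re) (closedBall (0 : ℂ) 1) :=
    Complex.continuous_re.comp_continuousOn hF
  have hPl := (PW P hP h12 h2π e1 e2 (fun z => (F z).re) hFre).comp hR
  have hNl := (PW N hN h12 h2π e3 e4 (fun z => (F z).re) hFre).comp hR
  have hdiff := ((hPl.sub hNl).abs).mono_left hU
  have hFim : ContinuousOn (fun z => |(F z).im|) (sphere (0 : ℂ) 1) :=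
    ((Complex.continuous_im.comp_continuousOn hF).abs).mono sphere_subset_closedBall
  have hUC : UniformContinuousOn F (closedBall (0 : ℂ) 1) :=
    (isCompact_closedBall _ _).uniformContinuousOn_of_continuous hF
  have hC0 : 0 ≤ C := (integral_nonneg fun _ => norm_nonneg _).trans (hC 0)
  have key : ∀ η > 0, |2 * π * ∫ ζ in arc θ₁ θ₂, (F ζ).re ∂P -
      2 * π * ∫ ζ in arc θ₁ θ₂, (F ζ).re ∂N| ≤ ε + ∫ ζ, |(F ζ).im| ∂κ + η * C := by
    intro η hη
    have hκ' := ((hκ _ hFim).const_add ε).add_const (η * C)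
    refine le_of_tendsto_of_tendsto hdiff hκ' ?_
    obtain ⟨δ, hδ, hFδ⟩ := Metric.uniformContinuousOn_iff.1 hUC η hη
    have hev : ∀ᶠ k in atTop, 1 - δ < Real.exp (s k) :=
      hRt.eventually (lt_mem_nhds (by linarith))
    filter_upwards [hU hev] with k hk
    show |(∫ θ in θ₁..θ₂, (F (Real.exp (s k) * Complex.exp (θ * Complex.I))).re *
        (Kg P (Real.exp (s k) * Complex.exp (θ * Complex.I))).re) -
      ∫ θ in θ₁..θ₂, (F (Real.exp (s k) * Complex.exp (θ * Complex.I))).re *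
        (Kg N (Real.exp (s k) * Complex.exp (θ * Complex.I))).re| ≤
      ε + ∫ ζ, |(F ζ).im| ∂(FMB_m X θ₁ θ₂ (Real.exp (s k))) + η * C
    set R := Real.exp (s k) with hRk
    have r0 : 0 ≤ R := hR0 k
    have r1 : R < 1 := hR1 k
    have cF : Continuous (fun θ : ℝ => F (R * Complex.exp (θ * Complex.I))) :=
      FMB_contF hF r0 r1.le
    have cP : Continuous (fun θ : ℝ => Kg P (R * Complex.exp (θ * Complex.I))) :=
      FMB_cont hKP r0 r1
    have cN : Continuous (fun θ : ℝ => Kg N (R * Complex.exp (θ * Complex.I))) :=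
      FMB_cont hKN r0 r1
    have cX : Continuous (fun θ : ℝ => X (R * Complex.exp (θ * Complex.I))) :=
      FMB_cont hX r0 r1
    have cE : Continuous (fun θ : ℝ => F (Complex.exp (θ * Complex.I))) := by
      have := FMB_contF hF (R := 1) zero_le_one le_rfl
      simpa using this
    have cFr := Complex.continuous_re.comp cF
    have cFi := Complex.continuous_im.comp cF
    have h1 : (∫ θ in θ₁..θ₂, (F (R * Complex.exp (θ * Complex.I))).re *
        (Kg P (R * Complex.exp (θ * Complex.I))).re) -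
        (∫ θ in θ₁..θ₂, (F (R * Complex.exp (θ * Complex.I))).re *
        (Kg N (R * Complex.exp (θ * Complex.I))).re) =
        (∫ θ in θ₁..θ₂, (F (R * Complex.exp (θ * Complex.I)) *
          X (R * Complex.exp (θ * Complex.I))).re) +
        ∫ θ in θ₁..θ₂, (F (R * Complex.exp (θ * Complex.I))).im *
          (X (R * Complex.exp (θ * Complex.I))).im := by
      rw [← intervalIntegral.integral_sub, ← intervalIntegral.integral_add]
      · congr 1
        funext θ
        simp only [hXdef, Complex.mul_re, Complex.sub_re, Complex.sub_im]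
        ring
      · exact (Complex.continuous_re.comp (cF.mul cX)).intervalIntegrable _ _
      · exact (cFi.mul (Complex.continuous_im.comp cX)).intervalIntegrable _ _
      · exact (cFr.mul (Complex.continuous_re.comp cP)).intervalIntegrable _ _
      · exact (cFr.mul (Complex.continuous_re.comp cN)).intervalIntegrable _ _
    have h2 : (∫ θ in θ₁..θ₂, (F (R * Complex.exp (θ * Complex.I)) *
          X (R * Complex.exp (θ * Complex.I))).re) =
        (∫ θ in θ₁..θ₂, F (R * Complex.exp (θ * Complex.I)) *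
          X (R * Complex.exp (θ * Complex.I))).re := by
      have hii : IntervalIntegrable (fun θ : ℝ => F (R * Complex.exp (θ * Complex.I)) *
          X (R * Complex.exp (θ * Complex.I))) volume θ₁ θ₂ :=
        (cF.mul cX).intervalIntegrable _ _
      have := Complex.reCLM.intervalIntegral_comp_comm hii
      simpa using this
    have h3 : |∫ θ in θ₁..θ₂, (F (R * Complex.exp (θ * Complex.I))).im *
          (X (R * Complex.exp (θ * Complex.I))).im| ≤
        ∫ ζ, |(F ζ).im| ∂(FMB_m X θ₁ θ₂ R) + η * C := by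
      rw [FMB_m_integral hX r0 r1 hFim]
      have h4 : ∫ θ in Ioo θ₁ θ₂, |(F (R * Complex.exp (θ * Complex.I))).im *
          (X (R * Complex.exp (θ * Complex.I))).im| ≤
          ∫ θ in Ioo θ₁ θ₂, (‖X (R * Complex.exp (θ * Complex.I))‖ *
            |(F (Complex.exp (θ * Complex.I))).im| +
            η * ‖X (R * Complex.exp (θ * Complex.I))‖) := by
        refine setIntegral_mono_on ?_ ?_ measurableSet_Ioo ?_
        · exact (((cFi.mul (Complex.continuous_im.comp cX)).abs).integrableOn_Icc).mono_set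
            Ioo_subset_Icc_self
        · exact (((cX.norm.mul (Complex.continuous_im.comp cE).abs).add
            (cX.norm.const_mul η)).integrableOn_Icc).mono_set Ioo_subset_Icc_self
        · intro θ _
          have h5 : dist (F (R * Complex.exp (θ * Complex.I))) (F (Complex.exp (θ * Complex.I))) < η := by
            apply hFδ
            · rw [mem_closedBall_zero_iff, FMB_norm r0]; exact r1.le
            · rw [mem_closedBall_zero_iff, Complex.norm_exp_ofReal_mul_I]
            · have h6 : (R : ℂ) * Complex.exp (θ * Complex.I) - Complex.exp (θ * Complex.I) =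
                  ((R - 1 : ℝ) : ℂ) * Complex.exp (θ * Complex.I) := by
                push_cast; ring
              rw [dist_eq_norm, h6, norm_mul, Complex.norm_exp_ofReal_mul_I, mul_one,
                Complex.norm_real, Real.norm_eq_abs, abs_lt]
              constructor <;> linarith
          have h7 : |(F (R * Complex.exp (θ * Complex.I))).im| ≤
              |(F (Complex.exp (θ * Complex.I))).im| + η := by
            have h8 : |(F (R * Complex.exp (θ * Complex.I))).im -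
                (F (Complex.exp (θ * Complex.I))).im| ≤ η := by
              rw [← Complex.sub_im]
              exact (Complex.abs_im_le_norm _).trans (by rw [← dist_eq_norm]; exact h5.le)
            have h9 := abs_sub_abs_le_abs_sub (F (R * Complex.exp (θ * Complex.I))).im
              (F (Complex.exp (θ * Complex.I))).im
            linarith
          rw [abs_mul]
          calc |(F (R * Complex.exp (θ * Complex.I))).im| *
                |(X (R * Complex.exp (θ * Complex.I))).im|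
              ≤ (|(F (Complex.exp (θ * Complex.I))).im| + η) *
                ‖X (R * Complex.exp (θ * Complex.I))‖ :=
                mul_le_mul h7 (Complex.abs_im_le_norm _) (abs_nonneg _) (by positivity)
            _ = _ := by ring
      have h10 : ∫ θ in Ioo θ₁ θ₂, (‖X (R * Complex.exp (θ * Complex.I))‖ *
            |(F (Complex.exp (θ * Complex.I))).im| +
            η * ‖X (R * Complex.exp (θ * Complex.I))‖) =
          (∫ θ in Ioo θ₁ θ₂, ‖X (R * Complex.exp (θ * Complex.I))‖ *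
            |(F (Complex.exp (θ * Complex.I))).im|) +
          η * ∫ θ in Ioo θ₁ θ₂, ‖X (R * Complex.exp (θ * Complex.I))‖ := by
        rw [← integral_const_mul]
        refine integral_add ?_ ?_
        · exact ((cX.norm.mul (Complex.continuous_im.comp cE).abs).integrableOn_Icc).mono_set
            Ioo_subset_Icc_self
        · exact ((cX.norm.const_mul η).integrableOn_Icc).mono_set Ioo_subset_Icc_self
      have h11 := intervalIntegral.abs_integral_le_integral_abs (μ := volume)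
        (f := fun θ : ℝ => (F (R * Complex.exp (θ * Complex.I))).im *
          (X (R * Complex.exp (θ * Complex.I))).im) h12.le
      rw [intervalIntegral.integral_of_le (f := fun θ : ℝ =>
        |(F (R * Complex.exp (θ * Complex.I))).im * (X (R * Complex.exp (θ * Complex.I))).im|)
        h12.le, integral_Ioc_eq_integral_Ioo] at h11
      have h12' := mul_le_mul_of_nonneg_left (hC k) hη.le
      have h13 : η * ∫ θ in Ioo θ₁ θ₂, ‖X (R * Complex.exp (θ * Complex.I))‖ ≤ η * C := h12'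
      linarith
    rw [h1, h2]
    have h14 := hε k
    calc |(∫ θ in θ₁..θ₂, F (R * Complex.exp (θ * Complex.I)) *
          X (R * Complex.exp (θ * Complex.I))).re +
        ∫ θ in θ₁..θ₂, (F (R * Complex.exp (θ * Complex.I))).im *
          (X (R * Complex.exp (θ * Complex.I))).im|
        ≤ |(∫ θ in θ₁..θ₂, F (R * Complex.exp (θ * Complex.I)) *
          X (R * Complex.exp (θ * Complex.I))).re| +
        |∫ θ in θ₁..θ₂, (F (R * Complex.exp (θ * Complex.I))).im *
          (X (R * Complex.exp (θ * Complex.I))).im| := abs_add_le _ _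
      _ ≤ ε + (∫ ζ, |(F ζ).im| ∂(FMB_m X θ₁ θ₂ R) + η * C) :=
        add_le_add ((Complex.abs_re_le_norm _).trans h14) h3
      _ = _ := by ring
  by_contra hcon
  push Not at hcon
  set Q := |2 * π * ∫ ζ in arc θ₁ θ₂, (F ζ).re ∂P -
      2 * π * ∫ ζ in arc θ₁ θ₂, (F ζ).re ∂N| with hQ
  set T := ε + ∫ ζ, |(F ζ).im| ∂κ with hT
  have h15 := key ((Q - T) / (2 * (C + 1))) (div_pos (by linarith) (by linarith))
  have h16 : (Q - T) / (2 * (C + 1)) * C ≤ (Q - T) / 2 := by
    rw [div_mul_eq_mul_div, div_le_div_iff₀ (by linarith) (by norm_num)]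
    nlinarith
  linarith

theorem FMB_K (P N : Measure ℂ) [IsFiniteMeasure P] [IsFiniteMeasure N] (hP : OnCircle P)
    (hN : OnCircle N) (θ₀ ρ C r₀ : ℝ) (hρ : 0 < ρ) (hρπ : ρ < π) (hr : r₀ < 1)
    (h : ∀ R : ℝ, r₀ < R → R < 1 →
      ∫ θ in (θ₀ - ρ)..(θ₀ + ρ),
        ‖Kg P (R * Complex.exp (θ * Complex.I)) - Kg N (R * Complex.exp (θ * Complex.I))‖ ≤ C)
    (K : Set ℂ) (hK : IsCompact K) (hKsub : K ⊆ arc (θ₀ - ρ) (θ₀ + ρ)) (h0 : arcLen K = 0) :
    P K = N K := by
  set X : ℂ → ℂ := fun z => Kg P z - Kg N z with hXdef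
  have hXd : DifferentiableOn ℂ X (ball (0 : ℂ) 1) := (KA_diff P hP).sub (KA_diff N hN)
  have hX : ContinuousOn X (ball (0 : ℂ) 1) := hXd.continuousOn
  set a := θ₀ - ρ with ha
  set b := θ₀ + ρ with hb
  have hab : a < b := by linarith
  have hb2 : b < a + 2 * π := by linarith
  obtain ⟨α, β, haα, hαβ, hβb, hKαβ⟩ := FMB_arcs hK hab hb2 hKsub
  set s₀ := Real.log (max r₀ (1 / 2)) with hs₀
  have hpos : 0 < max r₀ (1 / 2) := lt_of_lt_of_le (by norm_num) (le_max_right _ _)
  have hs₀neg : s₀ < 0 := Real.log_neg hpos (max_lt hr (by norm_num))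
  have hbd : ∀ x : ℝ, s₀ < x → x < 0 →
      ∫ θ in a..b, ‖X (Real.exp x * Complex.exp (θ * Complex.I))‖ ≤ C := by
    intro x hx hx0
    refine h (Real.exp x) ?_ (Real.exp_lt_one_iff.2 hx0)
    have h1 : max r₀ (1 / 2) < Real.exp x := (Real.log_lt_iff_lt_exp hpos).1 hx
    exact (le_max_left _ _).trans_lt h1
  have hgood := FMB_good hX hab (C := C) (s₀ := s₀) (fun x hx hx0 => by
    simp only [FMB_polar]
    exact hbd x hx hx0)
  have hall : ∀ᵐ θ : ℝ ∂(volume.restrict (Ioo a b)),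
      IntegrableOn (fun x : ℝ => X (Complex.exp (x + θ * Complex.I))) (Ioo s₀ 0) ∧
      P {Complex.exp (θ * Complex.I)} = 0 ∧ N {Complex.exp (θ * Complex.I)} = 0 := by
    filter_upwards [hgood, FMB_atoms P hb2, FMB_atoms N hb2] with θ h1 h2 h3
    exact ⟨h1, h2, h3⟩
  obtain ⟨θ₁, hθ₁, g1, e1, e3⟩ := FMB_pick hall le_rfl haα (by linarith)
  obtain ⟨θ₂, hθ₂, g2, e2, e4⟩ := FMB_pick hall (by linarith) hβb le_rfl
  have h12 : θ₁ < θ₂ := by linarith [hθ₁.2, hθ₂.1]
  have h2π : θ₂ < θ₁ + 2 * π := by linarith [hθ₁.1, hθ₂.2]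
  have hKarc : K ⊆ arc θ₁ θ₂ := by
    intro ζ hζ
    obtain ⟨θ, hθ, rfl⟩ := hKαβ hζ
    exact ⟨θ, ⟨hθ₁.2.trans_le hθ.1, hθ.2.trans_lt hθ₂.1⟩, rfl⟩
  have hKs : K ⊆ sphere (0 : ℂ) 1 := by
    intro ζ hζ
    obtain ⟨θ, -, rfl⟩ := hKarc hζ
    rw [mem_sphere_zero_iff_norm, Complex.norm_exp_ofReal_mul_I]
  obtain ⟨F, ρ', hFρ, hF1, hFK, hF0⟩ := FMA K hK hKs h0
  have hFc : ∀ n, ContinuousOn (F n) (closedBall (0 : ℂ) 1) := fun n =>
    (hFρ n).2.continuousOn.mono (closedBall_subset_ball (hFρ n).1)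
  have hFd : ∀ n, DifferentiableOn ℂ (F n) (ball (0 : ℂ) 1) := fun n =>
    (hFρ n).2.mono (ball_subset_ball (hFρ n).1.le)
  set s : ℕ → ℝ := fun k => s₀ / (k + 2) with hsdef
  have hsk : ∀ k, s₀ < s k ∧ s k < 0 := by
    intro k
    have h1 : (0 : ℝ) < (k : ℝ) + 2 := by positivity
    refine ⟨?_, div_neg_of_neg_of_pos hs₀neg h1⟩
    rw [hsdef]
    show s₀ < s₀ / ((k : ℝ) + 2)
    rw [lt_div_iff₀ h1]
    nlinarith [(Nat.cast_nonneg k : (0 : ℝ) ≤ k)]
  have hs0 : Tendsto s atTop (𝓝 0) := by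
    have h1 := tendsto_const_div_atTop_nhds_zero_nat s₀
    have h2 := (tendsto_add_atTop_iff_nat 2).2 h1
    refine h2.congr fun k => ?_
    rw [hsdef]
    push_cast
    rfl
  have hR0 : ∀ k, 0 ≤ Real.exp (s k) := fun k => (Real.exp_pos _).le
  have hR1 : ∀ k, Real.exp (s k) < 1 := fun k => Real.exp_lt_one_iff.2 (hsk k).2
  have hCk : ∀ k, ∫ θ in Ioo θ₁ θ₂, ‖X (Real.exp (s k) * Complex.exp (θ * Complex.I))‖ ≤ C := by
    intro k
    have h1 := hbd (s k) (hsk k).1 (hsk k).2
    rw [intervalIntegral.integral_of_le hab.le, integral_Ioc_eq_integral_Ioo] at h1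
    refine le_trans ?_ h1
    refine setIntegral_mono_set ?_ (ae_of_all _ fun _ => norm_nonneg _)
      (LE.le.eventuallyLE (Ioo_subset_Ioo hθ₁.1.le hθ₂.2.le))
    exact (((FMB_cont hX (hR0 k) (hR1 k)).norm).integrableOn_Icc).mono_set Ioo_subset_Icc_self
  set U : Ultrafilter ℕ := hyperfilter ℕ with hUdef
  have hU : (U : Filter ℕ) ≤ atTop := Nat.hyperfilter_le_atTop
  obtain ⟨κ, hκf, hκc, hκ, -⟩ := CMP U (fun k => FMB_m X θ₁ θ₂ (Real.exp (s k)))
    (fun k => FMB_m_finite hX (hR0 k) (hR1 k)) (fun k => FMB_m_circ X θ₁ θ₂ _) C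
    (fun k => by
      rw [FMB_m_mass hX (hR0 k) (hR1 k)]
      exact hCk k)
  -- the bounds
  have hball : ∀ x θ : ℝ, x < 0 → Complex.exp (x + θ * Complex.I) ∈ ball (0 : ℂ) 1 := by
    intro x θ hx
    rw [mem_ball_zero_iff, Complex.norm_exp]
    simp [hx]
  set ε : ℕ → ℝ := fun n =>
    (∫ y in Ioc θ₁ θ₂, ‖F n (Complex.exp (s₀ + y * Complex.I)) *
      X (Complex.exp (s₀ + y * Complex.I))‖) +
    (∫ x in Ioo s₀ 0, ‖F n (Complex.exp (x + θ₁ * Complex.I)) *
      X (Complex.exp (x + θ₁ * Complex.I))‖) +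
    ∫ x in Ioo s₀ 0, ‖F n (Complex.exp (x + θ₂ * Complex.I)) *
      X (Complex.exp (x + θ₂ * Complex.I))‖ with hεdef
  have hcside : ∀ n (θ : ℝ), ContinuousOn (fun x : ℝ => F n (Complex.exp (x + θ * Complex.I)) *
      X (Complex.exp (x + θ * Complex.I))) (Iio 0) := by
    intro n θ
    refine ContinuousOn.mul ?_ ?_
    · refine (hFd n).continuousOn.comp (Continuous.continuousOn (by fun_prop)) ?_
      intro x hx
      exact hball x θ hx
    · refine hX.comp (Continuous.continuousOn (by fun_prop)) ?_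
      intro x hx
      exact hball x θ hx
  have hmside : ∀ n (θ : ℝ), AEStronglyMeasurable (fun x : ℝ =>
      F n (Complex.exp (x + θ * Complex.I)) * X (Complex.exp (x + θ * Complex.I)))
      (volume.restrict (Ioo s₀ 0)) := fun n θ =>
    ((hcside n θ).mono (fun x hx => hx.2)).aestronglyMeasurable measurableSet_Ioo
  have hcarc : ∀ n, Continuous (fun y : ℝ => F n (Complex.exp (s₀ + y * Complex.I)) *
      X (Complex.exp (s₀ + y * Complex.I))) := by
    intro n
    refine Continuous.mul ?_ ?_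
    · exact (hFd n).continuousOn.comp_continuous (by fun_prop) fun y => hball s₀ y hs₀neg
    · exact hX.comp_continuous (by fun_prop) fun y => hball s₀ y hs₀neg
  have hside : ∀ n k (θ : ℝ),
      IntegrableOn (fun x : ℝ => X (Complex.exp (x + θ * Complex.I))) (Ioo s₀ 0) →
      ‖∫ x in s₀..(s k), F n (Complex.exp (x + θ * Complex.I)) *
        X (Complex.exp (x + θ * Complex.I))‖ ≤
      ∫ x in Ioo s₀ 0, ‖F n (Complex.exp (x + θ * Complex.I)) *
        X (Complex.exp (x + θ * Complex.I))‖ := by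
    intro n k θ hg
    refine (intervalIntegral.norm_integral_le_integral_norm (hsk k).1.le).trans ?_
    rw [intervalIntegral.integral_of_le (hsk k).1.le, integral_Ioc_eq_integral_Ioo]
    refine setIntegral_mono_set ?_ (ae_of_all _ fun _ => norm_nonneg _)
      (LE.le.eventuallyLE (Ioo_subset_Ioo_right (hsk k).2.le))
    have h1 : Integrable (fun x : ℝ => F n (Complex.exp (x + θ * Complex.I)) *
      X (Complex.exp (x + θ * Complex.I))) (volume.restrict (Ioo s₀ 0)) := by
      refine Integrable.mono' hg.norm (hmside n θ) ?_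
      refine (ae_restrict_iff' measurableSet_Ioo).2 (ae_of_all _ fun x hx => ?_)
      rw [norm_mul]
      exact mul_le_of_le_one_left (norm_nonneg _)
        (hF1 n _ (ball_subset_closedBall (hball x θ hx.2)))
    exact h1.norm
  have hε : ∀ n k, ‖∫ y in θ₁..θ₂, F n (Real.exp (s k) * Complex.exp (y * Complex.I)) *
      X (Real.exp (s k) * Complex.exp (y * Complex.I))‖ ≤ ε n := by
    intro n k
    have h1 := FMB_cauchy (Φ := fun z => F n z * X z) ((hFd n).mul hXd) (s₀ := s₀) (s := s k)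
      (θ₁ := θ₁) (θ₂ := θ₂) (hsk k).1.le (hsk k).2
    have h2 : ‖∫ y in θ₁..θ₂, F n (Complex.exp (s₀ + y * Complex.I)) *
        X (Complex.exp (s₀ + y * Complex.I))‖ ≤
        ∫ y in Ioc θ₁ θ₂, ‖F n (Complex.exp (s₀ + y * Complex.I)) *
        X (Complex.exp (s₀ + y * Complex.I))‖ := by
      refine (intervalIntegral.norm_integral_le_integral_norm h12.le).trans ?_
      rw [intervalIntegral.integral_of_le h12.le]
    have h3 := hside n k θ₁ g1
    have h4 := hside n k θ₂ g2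
    have h5 : ∫ y in θ₁..θ₂, F n (Real.exp (s k) * Complex.exp (y * Complex.I)) *
        X (Real.exp (s k) * Complex.exp (y * Complex.I)) =
        ∫ y in θ₁..θ₂, F n (Complex.exp (s k + y * Complex.I)) *
        X (Complex.exp (s k + y * Complex.I)) := by
      simp only [FMB_polar]
    rw [h5]
    exact h1.trans (add_le_add (add_le_add h2 h3) h4)
  have hlim0 : ∀ x θ : ℝ, x < 0 →
      Tendsto (fun n => F n (Complex.exp (x + θ * Complex.I))) atTop (𝓝 0) := by
    intro x θ hx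
    refine hF0 _ (ball_subset_closedBall (hball x θ hx)) fun hmem => ?_
    have h1 := mem_sphere_zero_iff_norm.1 (hKs hmem)
    have h2 := mem_ball_zero_iff.1 (hball x θ hx)
    linarith
  have hε0 : Tendsto ε atTop (𝓝 0) := by
    have t1 : Tendsto (fun n => ∫ y in Ioc θ₁ θ₂, ‖F n (Complex.exp (s₀ + y * Complex.I)) *
        X (Complex.exp (s₀ + y * Complex.I))‖) atTop (𝓝 0) := by
      refine FMB_dom (γ := fun y : ℝ => Complex.exp (s₀ + y * Complex.I)) ?_
        (fun n => (hcarc n).aestronglyMeasurable) ?_ ?_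
      · have h1 : Continuous (fun y : ℝ => X (Complex.exp (s₀ + y * Complex.I))) :=
          hX.comp_continuous (by fun_prop) fun y => hball s₀ y hs₀neg
        exact (h1.integrableOn_Icc).mono_set Ioc_subset_Icc_self
      · exact fun n => ae_of_all _ fun y => hF1 n _ (ball_subset_closedBall (hball s₀ y hs₀neg))
      · exact ae_of_all _ fun y => hlim0 s₀ y hs₀neg
    have t2 : ∀ θ : ℝ, IntegrableOn (fun x : ℝ => X (Complex.exp (x + θ * Complex.I))) (Ioo s₀ 0) →
        Tendsto (fun n => ∫ x in Ioo s₀ 0, ‖F n (Complex.exp (x + θ * Complex.I)) *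
          X (Complex.exp (x + θ * Complex.I))‖) atTop (𝓝 0) := by
      intro θ hg
      refine FMB_dom (γ := fun x : ℝ => Complex.exp (x + θ * Complex.I)) hg
        (fun n => hmside n θ) ?_ ?_
      · exact fun n => (ae_restrict_iff' measurableSet_Ioo).2 (ae_of_all _ fun x hx =>
          hF1 n _ (ball_subset_closedBall (hball x θ hx.2)))
      · exact (ae_restrict_iff' measurableSet_Ioo).2 (ae_of_all _ fun x hx => hlim0 x θ hx.2)
    have t3 := (t1.add (t2 θ₁ g1)).add (t2 θ₂ g2)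
    rw [add_zero, add_zero] at t3
    exact t3
  -- the inequality for all `n`
  have hstep : ∀ n, |2 * π * ∫ ζ in arc θ₁ θ₂, (F n ζ).re ∂P -
      2 * π * ∫ ζ in arc θ₁ θ₂, (F n ζ).re ∂N| ≤ ε n + ∫ ζ, |(F n ζ).im| ∂κ := fun n =>
    FMB_step P N hP hN h12 h2π e1 e2 e3 e4 (hFc n) (fun k => (hsk k).2) hs0 hCk (hε n) hU hκ
  -- limits on the circle
  have hcirc : ∀ μ : Measure ℂ, OnCircle μ → ∀ᵐ ζ ∂μ, ζ ∈ sphere (0 : ℂ) 1 := by
    intro μ hμ
    rw [ae_iff]
    exact hμ
  have hre : ∀ μ : Measure ℂ, IsFiniteMeasure μ → OnCircle μ →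
      Tendsto (fun n => ∫ ζ in arc θ₁ θ₂, (F n ζ).re ∂μ) atTop (𝓝 (μ.real K)) := by
    intro μ hμf hμ
    have hm : ∀ n, AEStronglyMeasurable (fun ζ => (F n ζ).re) (μ.restrict (arc θ₁ θ₂)) := fun n =>
      (FMB_meas hμ ((Complex.continuous_re.comp_continuousOn (hFc n)).mono
        sphere_subset_closedBall)).restrict
    have h1 := tendsto_integral_of_dominated_convergence (μ := μ.restrict (arc θ₁ θ₂))
      (F := fun n ζ => (F n ζ).re) (f := K.indicator (fun _ => (1 : ℝ))) (fun _ => (1 : ℝ))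
      hm (integrable_const _)
      (fun n => by
        filter_upwards [ae_restrict_of_ae (hcirc μ hμ)] with ζ hζ
        exact (Complex.abs_re_le_norm _).trans (hF1 n ζ (sphere_subset_closedBall hζ)))
      (by
        filter_upwards [ae_restrict_of_ae (hcirc μ hμ)] with ζ hζ
        by_cases hζK : ζ ∈ K
        · rw [indicator_of_mem hζK]
          exact (Complex.continuous_re.tendsto _).comp (hFK ζ hζK)
        · rw [indicator_of_notMem hζK]
          exact (Complex.continuous_re.tendsto _).comp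
            (hF0 ζ (sphere_subset_closedBall hζ) hζK))
    have h2 : ∫ ζ, K.indicator (fun _ => (1 : ℝ)) ζ ∂(μ.restrict (arc θ₁ θ₂)) = μ.real K := by
      rw [integral_indicator hK.measurableSet, Measure.restrict_restrict hK.measurableSet,
        inter_eq_left.2 hKarc]
      simp
    rw [h2] at h1
    exact h1
  have him : Tendsto (fun n => ∫ ζ, |(F n ζ).im| ∂κ) atTop (𝓝 0) := by
    have hm : ∀ n, AEStronglyMeasurable (fun ζ => |(F n ζ).im|) κ := fun n =>
      FMB_meas hκc (((Complex.continuous_im.comp_continuousOn (hFc n)).abs).mono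
        sphere_subset_closedBall)
    have h1 := tendsto_integral_of_dominated_convergence (μ := κ)
      (F := fun n ζ => |(F n ζ).im|) (f := fun _ => (0 : ℝ)) (fun _ => (1 : ℝ))
      hm (integrable_const _)
      (fun n => by
        filter_upwards [hcirc κ hκc] with ζ hζ
        rw [Real.norm_eq_abs, abs_abs]
        exact (Complex.abs_im_le_norm _).trans (hF1 n ζ (sphere_subset_closedBall hζ)))
      (by
        filter_upwards [hcirc κ hκc] with ζ hζ
        by_cases hζK : ζ ∈ K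
        · have := ((Complex.continuous_im.tendsto _).comp (hFK ζ hζK)).abs
          simpa using this
        · have := ((Complex.continuous_im.tendsto _).comp
            (hF0 ζ (sphere_subset_closedBall hζ) hζK)).abs
          simpa using this)
    simpa using h1
  have hfin : |2 * π * P.real K - 2 * π * N.real K| ≤ 0 := by
    have h1 := (((hre P inferInstance hP).const_mul (2 * π)).sub
      ((hre N inferInstance hN).const_mul (2 * π))).abs
    have h2 := hε0.add him
    rw [add_zero] at h2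
    exact le_of_tendsto_of_tendsto' h1 h2 hstep
  have heq : P.real K = N.real K := by
    have h1 := abs_nonpos_iff.1 hfin
    have h2 : 2 * π ≠ 0 := by positivity
    have h3 : 2 * π * (P.real K - N.real K) = 0 := by linarith
    rcases mul_eq_zero.1 h3 with h4 | h4
    · exact absurd h4 h2
    · linarith
  rwa [measureReal_def, measureReal_def, ENNReal.toReal_eq_toReal_iff' (measure_ne_top _ _)
    (measure_ne_top _ _)] at heq

theorem FMB (P N : Measure ℂ) [IsFiniteMeasure P] [IsFiniteMeasure N] (hP : OnCircle P)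
    (hN : OnCircle N) (θ₀ ρ C r₀ : ℝ) (hρ : 0 < ρ) (hρπ : ρ < π) (hr : r₀ < 1)
    (h : ∀ R : ℝ, r₀ < R → R < 1 →
      ∫ θ in (θ₀ - ρ)..(θ₀ + ρ),
        ‖Kg P (R * Complex.exp (θ * Complex.I)) - Kg N (R * Complex.exp (θ * Complex.I))‖ ≤ C)
    (B : Set ℂ) (hB : MeasurableSet B) (hBsub : B ⊆ arc (θ₀ - ρ) (θ₀ + ρ)) (h0 : arcLen B = 0) :
    P B = N B := by
  rw [hB.measure_eq_iSup_isCompact_of_ne_top (measure_ne_top P B),
    hB.measure_eq_iSup_isCompact_of_ne_top (measure_ne_top N B)]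
  refine iSup_congr fun K => iSup_congr fun hKB => iSup_congr fun hK => ?_
  exact FMB_K P N hP hN θ₀ ρ C r₀ hρ hρπ hr h K hK (hKB.trans hBsub)
    (measure_mono_null hKB h0)

end

end Pool.H90.VK
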