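import Pool.Agent.H90.VK.CB

/-!
# FS : final step, part of the measure absolutely continuous implies not extreme

Let `S ⊂ ℂ` be Borel, `c > 0`, `Pert s S p` and `c · arcLen|_S ≤ β` (`s = 1`), resp.
`c · arcLen|_S ≤ α` (`s = -1`). Then `f` is not extreme.

`FS0`: let `|p|, |V| ≤ C` on the disc, `V = i z p'`, `ε` real with `|ε| C ≤ 1/2`,
`Υ(z) = s ε Im (V(z)/(1 + ε p(z)))`, `ω(z) = (1/2π) Re Kg (arcLen.restrict S) z`. Then
`Υ(z) ≥ -2C|ε| ω(z)` on the disc.
Proof. `|Υ| ≤ 2C|ε|`. `V/(1+εp)` is analytic, so for `r < 1` by the Poisson formula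
(`DiffContOnCl.circleAverage_re_herglotzRieszKernel_smul'` for `F(z) = V(rz)/(1+εp(rz))`, imaginary part)
`Υ(rz) = (1/2π) ∫_{-π}^{π} P(z, e^{iθ}) Υ(re^{iθ}) dθ`, `P(z,ζ) = (1-|z|²)/|ζ-z|² ≥ 0`,
`≥ -2C|ε| ω(z) + (1/2π) ∫_{e^{iθ} ∉ S} P(z, e^{iθ}) Υ(re^{iθ}) dθ`. As `r → 1`, for `ζ = e^{iθ} ∉ S`:
`Υ(rζ) → s ε Im(V₀/(1+εp₀)) = s ε V₀ · (-ε Im p₀)/|1+εp₀|² = -ε² s V₀ Im p₀/|1+εp₀|² ≥ 0`. Dominated
convergence.

`FS_beta`: choose `ε > 0` with `εC ≤ 1/2` and `2Cε ≤ π c`. `DEC` with `t = 1/2`, `Q₁ = 1 + εp`, `Q₂ = 1 - εp`,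
`z Q₁'/Q₁ = ε z p'/(1+εp) = -i ε V/(1+εp)`, real part `ε Im(V/(1+εp)) ≥ -2Cε ω = -(Cε/π) Re Kg(arcLen|_S)
≥ -(c/2) ... ≥ -(1/2) Re Kg β` since `c Re Kg (arcLen|_S) ≤ Re Kg β` (`KA_re_mono`, `Kg (c • μ) = c Kg μ`) and
`Cε/π ≤ c/2`. So `a₁ = Kg β/2 + z Q₁'/Q₁`, `b₁ = Kg α/2`; at 0: `z Q₁'/Q₁ = 0`. Same for `Q₂` (`ε → -ε`).
`FS_alpha`: `a₁ = Kg β/2`, `b₁ = Kg α/2 - z Q₁'/Q₁`, `Re b₁ ≥ 0` by `FS0` with `s = -1`.
-/

open MeasureTheory Set Filter Topology Metric
open scoped Real ENNReal ComplexConjugate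

namespace Pool.H90.VK

noncomputable section


/-- Poisson kernel at `e^{iθ}` -/
def FS_P (z : ℂ) (θ : ℝ) : ℝ := (1 - ‖z‖ ^ 2) / ‖Complex.exp (θ * Complex.I) - z‖ ^ 2

theorem FS_den {z : ℂ} (hz : ‖z‖ < 1) (θ : ℝ) : Complex.exp (θ * Complex.I) - z ≠ 0 := by
  intro h0
  have : Complex.exp (θ * Complex.I) = z := sub_eq_zero.1 h0
  have h3 : ‖z‖ = 1 := by rw [← this, Complex.norm_exp_ofReal_mul_I]
  linarith

theorem FS_P_cont {z : ℂ} (hz : ‖z‖ < 1) : Continuous (FS_P z) := by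
  unfold FS_P
  refine Continuous.div continuous_const (by fun_prop) ?_
  intro θ
  have := norm_ne_zero_iff.2 (FS_den hz θ)
  positivity

theorem FS_P_nonneg {z : ℂ} (hz : ‖z‖ < 1) (θ : ℝ) : 0 ≤ FS_P z θ :=
  KA_pos hz _

theorem FS_mem {r : ℝ} (hr0 : 0 ≤ r) (hr1 : r < 1) {w : ℂ} (hw : ‖w‖ ≤ 1) :
    (r : ℂ) * w ∈ ball (0 : ℂ) 1 := by
  rw [mem_ball_zero_iff, norm_mul, Complex.norm_real, Real.norm_eq_abs, abs_of_nonneg hr0]
  have := norm_nonneg w
  nlinarith

theorem FS_poisson {F : ℂ → ℂ} (hF : DifferentiableOn ℂ F (ball (0 : ℂ) 1)) {r : ℝ}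
    (hr0 : 0 ≤ r) (hr1 : r < 1) {z : ℂ} (hz : ‖z‖ < 1) :
    ∫ θ in (-π : ℝ)..π, FS_P z θ * (F (r * Complex.exp (θ * Complex.I))).im =
      2 * π * (F (r * z)).im := by
  have hH : DiffContOnCl ℂ (fun w => F (r * w)) (ball (0 : ℂ) 1) := by
    refine DifferentiableOn.diffContOnCl ?_
    refine DifferentiableOn.mono ?_ (closure_ball_subset_closedBall (x := (0:ℂ)) (ε := 1))
    refine hF.comp (by fun_prop) ?_
    intro w hw
    exact FS_mem hr0 hr1 (by simpa using hw)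
  have h := hH.circleAverage_re_herglotzRieszKernel_smul' (w := z) (by simpa using hz)
  rw [Real.circleAverage_def] at h
  simp only [sub_zero] at h
  have hper : Function.Periodic (fun θ : ℝ => FS_P z θ * (F (r * Complex.exp (θ * Complex.I))).im)
      (2 * π) := by
    intro θ
    have : Complex.exp (((θ + 2 * π : ℝ) : ℂ) * Complex.I) = Complex.exp (θ * Complex.I) := by
      push_cast
      rw [add_mul, Complex.exp_add, Complex.exp_two_pi_mul_I, mul_one]
    simp only [FS_P, this]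
  have hshift := hper.intervalIntegral_add_eq (-π) 0
  have e1 : -π + 2 * π = π := by ring
  rw [e1, zero_add] at hshift
  rw [hshift]
  have hFc : Continuous (fun θ : ℝ => F (r * Complex.exp (θ * Complex.I))) :=
    KA_cont F hF hr0 hr1
  have hcont : Continuous (fun θ : ℝ => ((FS_P z θ : ℝ) : ℂ) * F (r * Complex.exp (θ * Complex.I))) :=
    (Complex.continuous_ofReal.comp (FS_P_cont hz)).mul hFc
  have him := intervalIntegral.intervalIntegral_im (𝕜 := ℂ)
    (hcont.intervalIntegrable (μ := volume) 0 (2 * π))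
  have e2 : ∫ θ in (0 : ℝ)..(2 * π), FS_P z θ * (F (r * Complex.exp (θ * Complex.I))).im =
      (∫ θ in (0 : ℝ)..(2 * π), ((FS_P z θ : ℝ) : ℂ) * F (r * Complex.exp (θ * Complex.I))).im := by
    refine Eq.trans ?_ him
    refine intervalIntegral.integral_congr ?_
    intro θ _
    exact (Complex.im_ofReal_mul _ _).symm
  rw [e2]
  have e3 : ∫ θ in (0 : ℝ)..(2 * π), ((FS_P z θ : ℝ) : ℂ) * F (r * Complex.exp (θ * Complex.I)) =
      ∫ θ in (0 : ℝ)..(2 * π), (((circleMap 0 1 θ + z) / (circleMap 0 1 θ - z)).re •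
        F (r * circleMap 0 1 θ)) := by
    refine intervalIntegral.integral_congr ?_
    intro θ _
    have hc : circleMap 0 1 θ = Complex.exp (θ * Complex.I) := by simp [circleMap]
    simp only [hc]
    rw [KA_kernel_re (by rw [Complex.norm_exp_ofReal_mul_I]) hz, Complex.real_smul]
    rfl
  rw [e3]
  have e4 : ∫ θ in (0 : ℝ)..(2 * π), (((circleMap 0 1 θ + z) / (circleMap 0 1 θ - z)).re •
        F (r * circleMap 0 1 θ)) = ((2 * π : ℝ) : ℂ) * F (r * z) := by
    have hπ : (2 * π : ℝ) ≠ 0 := by positivity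
    rw [← h, ← Complex.real_smul, smul_smul, mul_inv_cancel₀ hπ, one_smul]
  rw [e4, Complex.im_ofReal_mul]

theorem FS_re_restrict {S : Set ℂ} (hS : MeasurableSet S) {z : ℂ} (hz : ‖z‖ < 1) :
    (Kg (arcLen.restrict S) z).re = ∫ θ in (-π : ℝ)..π,
      ((fun θ : ℝ => Complex.exp (θ * Complex.I)) ⁻¹' S).indicator (FS_P z) θ := by
  have := arcLen_finite
  have hc : OnCircle (arcLen.restrict S) := by
    unfold OnCircle
    exact le_antisymm ((Measure.restrict_apply_le _ _).trans arcLen_circ.le) bot_le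
  rw [KA_re _ hc hz, ← integral_indicator hS]
  unfold arcLen
  have hm : Measurable (fun ζ : ℂ => (1 - ‖z‖ ^ 2) / ‖ζ - z‖ ^ 2) := by fun_prop
  rw [integral_map ARC_meas.aemeasurable (hm.indicator hS).aestronglyMeasurable,
    intervalIntegral.integral_of_le (by linarith [Real.pi_pos])]
  rfl

/-- the function `Υ` is nonnegative in the limit -/
theorem FS_sign {s ε V₀ : ℝ} {p₀ : ℂ} (h : s * (V₀ * p₀.im) ≤ 0) :
    0 ≤ s * ε * ((V₀ : ℂ) / (1 + ε * p₀)).im := by
  have h1 : ((V₀ : ℂ) / (1 + ε * p₀)).im = -(V₀ * (ε * p₀.im)) / Complex.normSq (1 + ε * p₀) := by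
    rw [Complex.div_im]
    simp
    ring
  rw [h1]
  have h2 : s * ε * (-(V₀ * (ε * p₀.im)) / Complex.normSq (1 + ε * p₀)) =
      ε ^ 2 * (-(s * (V₀ * p₀.im))) / Complex.normSq (1 + ε * p₀) := by ring
  rw [h2]
  have := Complex.normSq_nonneg (1 + ε * p₀)
  have h3 : 0 ≤ -(s * (V₀ * p₀.im)) := by linarith
  positivity

theorem FS_low {C ε : ℝ} (hε : |ε| * C ≤ 1 / 2) {q : ℂ} (hq : ‖q‖ ≤ C) : 1 / 2 ≤ ‖1 + ε * q‖ := by
  have h1 : ‖(ε : ℂ) * q‖ ≤ 1 / 2 := by
    rw [norm_mul, Complex.norm_real, Real.norm_eq_abs]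
    exact (mul_le_mul_of_nonneg_left hq (abs_nonneg _)).trans hε
  have h2 : ‖(1:ℂ)‖ - ‖-((ε : ℂ) * q)‖ ≤ ‖1 - -((ε : ℂ) * q)‖ := norm_sub_norm_le _ _
  rw [norm_neg, norm_one, sub_neg_eq_add] at h2
  linarith

theorem FS_ne {C ε : ℝ} (hε : |ε| * C ≤ 1 / 2) {q : ℂ} (hq : ‖q‖ ≤ C) : 1 + ε * q ≠ 0 := by
  have := FS_low hε hq
  exact norm_pos_iff.1 (by linarith)

theorem FS0 {s : ℝ} (hs : s = 1 ∨ s = -1) {S : Set ℂ} (hS : MeasurableSet S) {p : ℂ → ℂ}
    (hp : Pert s S p) (C : ℝ) (hC : ∀ z ∈ ball (0 : ℂ) 1, ‖p z‖ ≤ C ∧ ‖Complex.I * z * deriv p z‖ ≤ C)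
    (ε : ℝ) (hε : |ε| * C ≤ 1 / 2) {z : ℂ} (hz : z ∈ ball (0 : ℂ) 1) :
    -(2 * C * |ε|) * ((1 / (2 * π)) * (Kg (arcLen.restrict S) z).re) ≤
      s * ε * ((Complex.I * z * deriv p z) / (1 + ε * p z)).im := by
  have hz1 : ‖z‖ < 1 := by simpa using hz
  have hC0 : 0 ≤ C := (norm_nonneg _).trans (hC z hz).1
  have hpi := Real.pi_pos
  set G : ℂ → ℂ := fun w => (Complex.I * w * deriv p w) / (1 + ε * p w) with hG
  have hGb : ∀ w ∈ ball (0 : ℂ) 1, ‖G w‖ ≤ 2 * C := by
    intro w hw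
    have h1 := FS_low hε (hC w hw).1
    have h2 := (hC w hw).2
    simp only [hG]
    rw [norm_div, div_le_iff₀ (by linarith)]
    nlinarith
  have hGd : DifferentiableOn ℂ G (ball (0 : ℂ) 1) := by
    refine DifferentiableOn.div ?_ ?_ (fun w hw => FS_ne hε (hC w hw).1)
    · refine DifferentiableOn.mul (by fun_prop) (hp.diff.deriv isOpen_ball)
    · exact (differentiableOn_const _).add (hp.diff.const_mul _)
  set U : ℂ → ℝ := fun w => s * ε * (G w).im with hU
  have hsa : |s| = 1 := by rcases hs with h | h <;> simp [h]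
  have hUb : ∀ w ∈ ball (0 : ℂ) 1, |U w| ≤ 2 * C * |ε| := by
    intro w hw
    simp only [hU]
    rw [abs_mul, abs_mul, hsa, one_mul]
    have h1 := (Complex.abs_im_le_norm (G w)).trans (hGb w hw)
    have := abs_nonneg ε
    nlinarith
  set T : Set ℝ := (fun θ : ℝ => Complex.exp (θ * Complex.I)) ⁻¹' S with hT
  have hTm : MeasurableSet T := ARC_meas hS
  set r : ℕ → ℝ := fun n => 1 - 1 / ((n : ℝ) + 2) with hr
  have hr0 : ∀ n, 0 ≤ r n := by
    intro n
    simp only [hr]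
    have : (1 : ℝ) / ((n : ℝ) + 2) ≤ 1 := by
      rw [div_le_one (by positivity)]
      have : (0 : ℝ) ≤ n := Nat.cast_nonneg n
      linarith
    linarith
  have hr1 : ∀ n, r n < 1 := by
    intro n
    simp only [hr]
    have : (0 : ℝ) < 1 / ((n : ℝ) + 2) := by positivity
    linarith
  have hrt : Tendsto r atTop (𝓝 1) := by
    have h1 : Tendsto (fun n : ℕ => 1 / ((n : ℝ) + 2)) atTop (𝓝 0) := by
      refine Tendsto.div_atTop tendsto_const_nhds ?_
      exact tendsto_atTop_add_const_right _ _ tendsto_natCast_atTop_atTop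
    have h2 := (tendsto_const_nhds (x := (1 : ℝ))).sub h1
    rw [sub_zero] at h2
    exact h2
  set ν : Measure ℝ := volume.restrict (Ioc (-π) π) with hν
  set g : ℕ → ℝ → ℝ := fun n => Tᶜ.indicator
    (fun θ => FS_P z θ * max (-(U (r n * Complex.exp (θ * Complex.I)))) 0) with hg
  have hUc : ∀ n, Continuous (fun θ : ℝ => U (r n * Complex.exp (θ * Complex.I))) := by
    intro n
    simp only [hU]
    exact continuous_const.mul (Complex.continuous_im.comp (KA_cont G hGd (hr0 n) (hr1 n)))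
  have hFm : Continuous (FS_P z) := FS_P_cont hz1
  have hgc : ∀ n, Continuous (fun θ : ℝ => FS_P z θ * max (-(U (r n * Complex.exp (θ * Complex.I)))) 0) :=
    fun n => hFm.mul ((hUc n).neg.max continuous_const)
  have hgm : ∀ n, AEStronglyMeasurable (g n) ν :=
    fun n => ((hgc n).measurable.indicator hTm.compl).aestronglyMeasurable
  have hPi : Integrable (FS_P z) ν := by
    have := (hFm.intervalIntegrable (μ := volume) (-π) π).1
    exact this
  have hmem : ∀ n (θ : ℝ), (r n : ℂ) * Complex.exp (θ * Complex.I) ∈ ball (0 : ℂ) 1 :=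
    fun n θ => FS_mem (hr0 n) (hr1 n) (by rw [Complex.norm_exp_ofReal_mul_I])
  have hgb : ∀ n θ, ‖g n θ‖ ≤ FS_P z θ * (2 * C * |ε|) := by
    intro n θ
    have h0 := FS_P_nonneg hz1 θ
    have h3 : 0 ≤ FS_P z θ * (2 * C * |ε|) := by positivity
    simp only [hg]
    by_cases hθ : θ ∈ Tᶜ
    · rw [indicator_of_mem hθ, norm_mul, Real.norm_eq_abs, abs_of_nonneg h0]
      refine mul_le_mul_of_nonneg_left ?_ h0
      have h1 := hUb _ (hmem n θ)
      have h2 := abs_le.1 h1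
      rw [Real.norm_eq_abs, abs_of_nonneg (le_max_right _ _)]
      exact max_le (by linarith) (by positivity)
    · rw [indicator_of_notMem hθ, norm_zero]
      exact h3
  have hgi : ∀ n, Integrable (g n) ν := fun n =>
    Integrable.mono' (hPi.mul_const _) (hgm n) (Eventually.of_forall (hgb n))
  have hg0 : Tendsto (fun n => ∫ θ, g n θ ∂ν) atTop (𝓝 0) := by
    have h0 : ∫ θ, (0 : ℝ) ∂ν = 0 := by simp
    rw [← h0]
    refine tendsto_integral_of_dominated_convergence (fun θ => FS_P z θ * (2 * C * |ε|)) hgm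
      (hPi.mul_const _) (fun n => Eventually.of_forall (hgb n)) (Eventually.of_forall ?_)
    intro θ
    simp only [hg]
    by_cases hθ : θ ∈ Tᶜ
    · simp only [indicator_of_mem hθ]
      obtain ⟨V₀, p₀, hl1, hl2, hl3⟩ := hp.lim (Complex.exp (θ * Complex.I))
        (Complex.norm_exp_ofReal_mul_I _) hθ
      have hw : Tendsto (fun n => (r n : ℂ) * Complex.exp (θ * Complex.I)) atTop
          (𝓝[ball (0 : ℂ) 1] (Complex.exp (θ * Complex.I))) := by
        refine tendsto_nhdsWithin_iff.2 ⟨?_, Eventually.of_forall fun n => hmem n θ⟩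
        have h1 : Tendsto (fun n => (r n : ℂ)) atTop (𝓝 ((1 : ℝ) : ℂ)) :=
          (Complex.continuous_ofReal.tendsto 1).comp hrt
        have h2 := h1.mul_const (Complex.exp (θ * Complex.I))
        simpa using h2
      have hq1 := hl1.comp hw
      have hq2 := hl2.comp hw
      have hp0 : ‖p₀‖ ≤ C := le_of_tendsto hq1.norm (Eventually.of_forall fun n => (hC _ (hmem n θ)).1)
      have hG2 : Tendsto (fun n => G (r n * Complex.exp (θ * Complex.I))) atTop
          (𝓝 ((V₀ : ℂ) / (1 + ε * p₀))) := by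
        exact hq2.div (tendsto_const_nhds.add (hq1.const_mul _)) (FS_ne hε hp0)
      have hU2 : Tendsto (fun n => U (r n * Complex.exp (θ * Complex.I))) atTop
          (𝓝 (s * ε * ((V₀ : ℂ) / (1 + ε * p₀)).im)) := by
        simp only [hU]
        exact ((Complex.continuous_im.tendsto _).comp hG2).const_mul _
      have hsg := FS_sign (ε := ε) hl3
      have h5 := (hU2.neg.max (tendsto_const_nhds (x := (0:ℝ)))).const_mul (FS_P z θ)
      rw [max_eq_right (by linarith), mul_zero] at h5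
      exact h5
    · simp only [indicator_of_notMem hθ]
      exact tendsto_const_nhds
  -- the inequality for each `n`
  have hn : ∀ n, -(2 * C * |ε|) * (Kg (arcLen.restrict S) z).re - ∫ θ, g n θ ∂ν ≤
      2 * π * U (r n * z) := by
    intro n
    have h1 := FS_poisson hGd (hr0 n) (hr1 n) hz1
    have h2 : 2 * π * U (r n * z) = s * ε * (2 * π * (G (r n * z)).im) := by
      simp only [hU]
      ring
    rw [h2, ← h1, ← intervalIntegral.integral_const_mul, FS_re_restrict hS hz1,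
      intervalIntegral.integral_of_le (by linarith), intervalIntegral.integral_of_le (by linarith),
      ← integral_const_mul, ← integral_sub]
    · refine integral_mono ?_ ?_ ?_
      · exact ((hPi.indicator hTm).const_mul _).sub (hgi n)
      · have h3 : Continuous (fun θ : ℝ => s * ε * (FS_P z θ *
            (G (r n * Complex.exp (θ * Complex.I))).im)) :=
          continuous_const.mul (hFm.mul (Complex.continuous_im.comp
            (KA_cont G hGd (hr0 n) (hr1 n))))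
        exact (h3.intervalIntegrable (μ := volume) (-π) π).1
      · intro θ
        have h0 := FS_P_nonneg hz1 θ
        have h4 := abs_le.1 (hUb _ (hmem n θ))
        simp only [hU] at h4
        simp only [hg, hU]
        by_cases hθ : θ ∈ T
        · have hθ' : θ ∉ Tᶜ := fun h => h hθ
          rw [indicator_of_mem hθ, indicator_of_notMem hθ', sub_zero]
          nlinarith [h4.1]
        · have hθ' : θ ∈ Tᶜ := hθ
          rw [indicator_of_notMem hθ, indicator_of_mem hθ', mul_zero, zero_sub]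
          have h6 := le_max_left (-(s * ε * (G (r n * Complex.exp (θ * Complex.I))).im)) 0
          nlinarith
    · exact (hPi.indicator hTm).const_mul _
    · exact hgi n
  -- pass to the limit
  have hUt : Tendsto (fun n => U (r n * z)) atTop (𝓝 (U z)) := by
    have hcz : ContinuousAt U z := by
      have : ContinuousAt G z := (hGd.continuousOn).continuousAt (isOpen_ball.mem_nhds hz)
      exact continuousAt_const.mul (Complex.continuous_im.continuousAt.comp this)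
    have h1 : Tendsto (fun n => (r n : ℂ)) atTop (𝓝 ((1 : ℝ) : ℂ)) :=
      (Complex.continuous_ofReal.tendsto 1).comp hrt
    have h2 := h1.mul_const z
    rw [Complex.ofReal_one, one_mul] at h2
    exact hcz.tendsto.comp h2
  have hfin := le_of_tendsto_of_tendsto' (tendsto_const_nhds.sub hg0) (hUt.const_mul (2 * π)) hn
  rw [sub_zero] at hfin
  have h7 : -(2 * C * |ε|) * ((1 / (2 * π)) * (Kg (arcLen.restrict S) z).re) =
      (-(2 * C * |ε|) * (Kg (arcLen.restrict S) z).re) / (2 * π) := by ring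
  rw [h7, div_le_iff₀ (by positivity)]
  have h8 : U z = s * ε * ((Complex.I * z * deriv p z) / (1 + ε * p z)).im := rfl
  rw [← h8]
  linarith

theorem FS_key {s : ℝ} (hs : s = 1 ∨ s = -1) {S : Set ℂ} (hS : MeasurableSet S) {p : ℂ → ℂ}
    (hp : Pert s S p) (C : ℝ) (hC : ∀ z ∈ ball (0 : ℂ) 1, ‖p z‖ ≤ C ∧ ‖Complex.I * z * deriv p z‖ ≤ C)
    (e : ℝ) (hε : |e| * C ≤ 1 / 2) (μ : Measure ℂ) [IsFiniteMeasure μ] (hμ : OnCircle μ) (c : ℝ)
    (hc : 0 < c) (hle : ENNReal.ofReal c • arcLen.restrict S ≤ μ) (hec : 2 * C * |e| ≤ π * c)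
    {z : ℂ} (hz : z ∈ ball (0 : ℂ) 1) :
    -((1 / 2 : ℂ) * Kg μ z).re ≤ s * (z * ((e : ℂ) * deriv p z) / (1 + e * p z)).re := by
  have hz1 : ‖z‖ < 1 := by simpa using hz
  have hpi := Real.pi_pos
  have := arcLen_finite
  have hcS : OnCircle (arcLen.restrict S) := by
    unfold OnCircle
    exact le_antisymm ((Measure.restrict_apply_le _ _).trans arcLen_circ.le) bot_le
  have hcS' : OnCircle (ENNReal.ofReal c • arcLen.restrict S) := by
    unfold OnCircle at hcS ⊢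
    rw [Measure.smul_apply, hcS, smul_zero]
  have hfin : IsFiniteMeasure (ENNReal.ofReal c • arcLen.restrict S) :=
    isFiniteMeasure_of_le μ hle
  have h0 := FS0 hs hS hp C hC e hε hz
  have h1 := KA_re_mono _ μ hcS' hμ hle hz1
  have h2 : Kg (ENNReal.ofReal c • arcLen.restrict S) z = (c : ℂ) * Kg (arcLen.restrict S) z := by
    unfold Kg
    rw [integral_smul_measure, ENNReal.toReal_ofReal hc.le, Complex.real_smul]
  rw [h2, Complex.re_ofReal_mul] at h1
  have h3 := KA_re_nonneg _ hcS hz1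
  have h4 : (z * ((e : ℂ) * deriv p z) / (1 + e * p z)).re =
      e * ((Complex.I * z * deriv p z) / (1 + e * p z)).im := by
    have : z * ((e : ℂ) * deriv p z) / (1 + e * p z) =
        (e : ℂ) * (-Complex.I * ((Complex.I * z * deriv p z) / (1 + e * p z))) := by
      have hI := Complex.I_mul_I
      linear_combination (e * z * deriv p z / (1 + e * p z)) * hI
    rw [this, Complex.re_ofReal_mul]
    congr 1
    simp
  have h5 : ((1 / 2 : ℂ) * Kg μ z).re = (1 / 2) * (Kg μ z).re := by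
    have : ((1 : ℂ) / 2) = ((1 / 2 : ℝ) : ℂ) := by push_cast; rfl
    rw [this, Complex.re_ofReal_mul]
  rw [h4, h5, ← mul_assoc]
  refine le_trans ?_ h0
  have h6 : (2 * C * |e|) * ((1 / (2 * π)) * (Kg (arcLen.restrict S) z).re) ≤
      (π * c) * ((1 / (2 * π)) * (Kg (arcLen.restrict S) z).re) :=
    mul_le_mul_of_nonneg_right hec (by positivity)
  have h7 : (π * c) * ((1 / (2 * π)) * (Kg (arcLen.restrict S) z).re) =
      (1 / 2) * (c * (Kg (arcLen.restrict S) z).re) := by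
    field_simp
  linarith

theorem FS_deriv {p : ℂ → ℂ} (hp : DifferentiableOn ℂ p (ball (0 : ℂ) 1)) (e : ℝ) {z : ℂ}
    (hz : z ∈ ball (0 : ℂ) 1) : deriv (fun z => 1 + (e : ℂ) * p z) z = e * deriv p z := by
  have h : HasDerivAt p (deriv p z) z := (hp.differentiableAt (isOpen_ball.mem_nhds hz)).hasDerivAt
  exact ((h.const_mul (e : ℂ)).const_add 1).deriv

theorem FS_eps (C c : ℝ) (hC : 0 ≤ C) (hc : 0 < c) :
    ∃ ε : ℝ, 0 < ε ∧ ε * C ≤ 1 / 2 ∧ 2 * C * ε ≤ π * c := by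
  have hpi := Real.pi_pos
  refine ⟨min (1 / (2 * (C + 1))) (π * c / (2 * (C + 1))), by positivity, ?_, ?_⟩
  · have h1 := min_le_left (1 / (2 * (C + 1))) (π * c / (2 * (C + 1)))
    have h2 := mul_le_mul_of_nonneg_right h1 hC
    refine h2.trans ?_
    rw [div_mul_eq_mul_div, div_le_div_iff₀ (by positivity) (by positivity)]
    nlinarith
  · have h1 := min_le_right (1 / (2 * (C + 1))) (π * c / (2 * (C + 1)))
    have h2 := mul_le_mul_of_nonneg_left h1 (by positivity : 0 ≤ 2 * C)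
    refine h2.trans ?_
    rw [mul_div_assoc', div_le_iff₀ (by positivity)]
    have : 0 < π * c := by positivity
    nlinarith

theorem FS_half (w : ℂ) : ((1 / 2 : ℂ) * w).re = (1 / 2) * w.re := by
  have : ((1 : ℂ) / 2) = ((1 / 2 : ℝ) : ℂ) := by push_cast; rfl
  rw [this, Complex.re_ofReal_mul]

theorem FS_Rdiff {p : ℂ → ℂ} (hp : DifferentiableOn ℂ p (ball (0 : ℂ) 1)) {C e : ℝ}
    (hC : ∀ z ∈ ball (0 : ℂ) 1, ‖p z‖ ≤ C) (hε : |e| * C ≤ 1 / 2) :
    DifferentiableOn ℂ (fun z => z * ((e : ℂ) * deriv p z) / (1 + e * p z)) (ball (0 : ℂ) 1) := by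
  refine DifferentiableOn.div ?_ ?_ (fun w hw => FS_ne hε (hC w hw))
  · exact differentiableOn_id.mul ((hp.deriv isOpen_ball).const_mul _)
  · exact (differentiableOn_const _).add (hp.const_mul _)

/-- common part: the positive or the negative part dominates a multiple of arc length on `S` -/
theorem FS_common {k : ℝ} {f : ℂ → ℂ} {β α : Measure ℂ} (hf : InV k f) (h : PRep k f β α)
    {p : ℂ → ℂ} (hpd : DifferentiableOn ℂ p (ball (0 : ℂ) 1)) (hp0 : p 0 = 0)
    (hpne : ∃ z ∈ ball (0 : ℂ) 1, p z ≠ 0) (C ε x y : ℝ) (hC : ∀ z ∈ ball (0 : ℂ) 1, ‖p z‖ ≤ C)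
    (hε0 : 0 < ε) (hε : ε * C ≤ 1 / 2) (hxy : x - y = 1)
    (hx : ∀ e : ℝ, |e| = ε → ∀ z ∈ ball (0 : ℂ) 1,
      0 ≤ ((1 / 2) * Kg β z + x * (z * ((e : ℂ) * deriv p z) / (1 + e * p z))).re)
    (hy : ∀ e : ℝ, |e| = ε → ∀ z ∈ ball (0 : ℂ) 1,
      0 ≤ ((1 / 2) * Kg α z + y * (z * ((e : ℂ) * deriv p z) / (1 + e * p z))).re) :
    ¬ IsExtreme k f := by
  have := h.finβ
  have := h.finα
  have he1 : |ε| = ε := abs_of_pos hε0
  have he2 : |(-ε)| = ε := by rw [abs_neg, he1]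
  have hQd : ∀ e : ℝ, DifferentiableOn ℂ (fun z => 1 + (e : ℂ) * p z) (ball (0 : ℂ) 1) :=
    fun e => (differentiableOn_const _).add (hpd.const_mul _)
  have had : ∀ e : ℝ, |e| = ε → DifferentiableOn ℂ (fun z => (1 / 2) * Kg β z +
      x * (z * ((e : ℂ) * deriv p z) / (1 + e * p z))) (ball (0 : ℂ) 1) := fun e he =>
    ((KA_diff β h.circβ).const_mul _).add ((FS_Rdiff hpd hC (by rw [he]; exact hε)).const_mul _)
  have hbd : ∀ e : ℝ, |e| = ε → DifferentiableOn ℂ (fun z => (1 / 2) * Kg α z +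
      y * (z * ((e : ℂ) * deriv p z) / (1 + e * p z))) (ball (0 : ℂ) 1) := fun e he =>
    ((KA_diff α h.circα).const_mul _).add ((FS_Rdiff hpd hC (by rw [he]; exact hε)).const_mul _)
  have hm : ∀ e : ℝ, ((1 / 2) * Kg β 0 + x * ((0 : ℂ) * ((e : ℂ) * deriv p 0) / (1 + e * p 0))).re +
      ((1 / 2) * Kg α 0 + y * ((0 : ℂ) * ((e : ℂ) * deriv p 0) / (1 + e * p 0))).re ≤ k / 2 := by
    intro e
    rw [zero_mul, zero_div, mul_zero, mul_zero, add_zero, add_zero, FS_half, FS_half,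
      KA_zero β h.circβ, KA_zero α h.circα, Complex.ofReal_re, Complex.ofReal_re]
    have := h.sum
    linarith
  have hQ : ∀ e : ℝ, ∀ z ∈ ball (0 : ℂ) 1,
      (1 + z * deriv (deriv f) z / deriv f z +
        z * deriv (fun z => 1 + (e : ℂ) * p z) z / (1 + (e : ℂ) * p z)).re =
      ((1 / 2) * Kg β z + x * (z * ((e : ℂ) * deriv p z) / (1 + e * p z))).re -
        ((1 / 2) * Kg α z + y * (z * ((e : ℂ) * deriv p z) / (1 + e * p z))).re := by
    intro e z hz
    rw [MEM_rep h hz, FS_deriv hpd e hz, ← Complex.sub_re]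
    congr 1
    have hxy' : (x : ℂ) - y = 1 := by
      rw [← Complex.ofReal_sub, hxy, Complex.ofReal_one]
    linear_combination -(z * ((e : ℂ) * deriv p z) / (1 + e * p z)) * hxy'
  refine DEC hf (fun z => 1 + (ε : ℂ) * p z) (fun z => 1 + ((-ε : ℝ) : ℂ) * p z) (1 / 2) (by norm_num)
    (by norm_num) (hQd ε) (hQd (-ε)) (by simp [hp0]) (by simp [hp0])
    (fun z hz => FS_ne (by rw [he1]; exact hε) (hC z hz))
    (fun z hz => FS_ne (by rw [he2]; exact hε) (hC z hz)) ?_ ?_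
    (fun z => (1 / 2) * Kg β z + x * (z * ((ε : ℂ) * deriv p z) / (1 + ε * p z)))
    (fun z => (1 / 2) * Kg α z + y * (z * ((ε : ℂ) * deriv p z) / (1 + ε * p z)))
    (fun z => (1 / 2) * Kg β z + x * (z * (((-ε : ℝ) : ℂ) * deriv p z) / (1 + ((-ε : ℝ) : ℂ) * p z)))
    (fun z => (1 / 2) * Kg α z + y * (z * (((-ε : ℝ) : ℂ) * deriv p z) / (1 + ((-ε : ℝ) : ℂ) * p z)))
    (had ε he1) (hbd ε he1) (had (-ε) he2) (hbd (-ε) he2) (hx ε he1) (hy ε he1) (hx (-ε) he2)
    (hy (-ε) he2) (hm ε) (hm (-ε)) (hQ ε) (hQ (-ε))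
  · intro z _
    push_cast
    ring
  · obtain ⟨z, hz, hpz⟩ := hpne
    refine ⟨z, hz, ?_⟩
    intro h1
    have h2 : (ε : ℂ) * p z = 0 := by linear_combination h1
    rcases mul_eq_zero.1 h2 with h3 | h3
    · exact hε0.ne' (by exact_mod_cast h3)
    · exact hpz h3

theorem FS_beta {k : ℝ} {f : ℂ → ℂ} {β α : Measure ℂ} (hf : InV k f) (h : PRep k f β α)
    {S : Set ℂ} (hS : MeasurableSet S) (c : ℝ) (hc : 0 < c)
    (hle : ENNReal.ofReal c • arcLen.restrict S ≤ β) {p : ℂ → ℂ} (hp : Pert 1 S p) :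
    ¬ IsExtreme k f := by
  have := h.finβ
  have := h.finα
  obtain ⟨C, hC⟩ := hp.bdd
  have hC0 : 0 ≤ C := (norm_nonneg _).trans (hC 0 (mem_ball_self one_pos)).1
  obtain ⟨ε, hε0, hε1, hε2⟩ := FS_eps C c hC0 hc
  refine FS_common hf h hp.diff hp.zero hp.ne C ε 1 0 (fun z hz => (hC z hz).1) hε0 hε1 (by norm_num)
    ?_ ?_
  · intro e he z hz
    have h1 := FS_key (Or.inl rfl) hS hp C hC e (by rw [he]; exact hε1) β h.circβ c hc hle
      (by rw [he]; exact hε2) hz
    rw [Complex.add_re, Complex.ofReal_one, one_mul]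
    linarith
  · intro e he z hz
    rw [Complex.ofReal_zero, zero_mul, add_zero, FS_half]
    have := KA_re_nonneg α h.circα (z := z) (by simpa using hz)
    linarith

theorem FS_alpha {k : ℝ} {f : ℂ → ℂ} {β α : Measure ℂ} (hf : InV k f) (h : PRep k f β α)
    {S : Set ℂ} (hS : MeasurableSet S) (c : ℝ) (hc : 0 < c)
    (hle : ENNReal.ofReal c • arcLen.restrict S ≤ α) {p : ℂ → ℂ} (hp : Pert (-1) S p) :
    ¬ IsExtreme k f := by
  have := h.finβ
  have := h.finα
  obtain ⟨C, hC⟩ := hp.bdd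
  have hC0 : 0 ≤ C := (norm_nonneg _).trans (hC 0 (mem_ball_self one_pos)).1
  obtain ⟨ε, hε0, hε1, hε2⟩ := FS_eps C c hC0 hc
  refine FS_common hf h hp.diff hp.zero hp.ne C ε 0 (-1) (fun z hz => (hC z hz).1) hε0 hε1
    (by norm_num) ?_ ?_
  · intro e he z hz
    rw [Complex.ofReal_zero, zero_mul, add_zero, FS_half]
    have := KA_re_nonneg β h.circβ (z := z) (by simpa using hz)
    linarith
  · intro e he z hz
    have h1 := FS_key (Or.inr rfl) hS hp C hC e (by rw [he]; exact hε1) α h.circα c hc hle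
      (by rw [he]; exact hε2) hz
    rw [Complex.add_re, Complex.re_ofReal_mul]
    linarith

end

end Pool.H90.VK
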