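import Pool.Agent.H90.VK.LA

/-!
# GR : radial growth of `Lg μ` and boundary behaviour of `Ag μ`

`GR_re`. `Re Lg μ (r y) / log (1 - r) = ∫ log |1 - conj ζ r y| / log(1-r) dμ(ζ)`. For `r` close to 1
(`1/2 ≤ r < 1`): `1 - r ≤ |1 - conj ζ r y| ≤ 2`, so the integrand lies in
`[- log 2/|log (1-r)|, 1]`, bounded by 1 in absolute value; as `r → 1` it tends to
`0` for `ζ ≠ y` (numerator tends to `log |1 - conj ζ y|`, denominator to `-∞`), and is `= 1`
for `ζ = y`. Dominated convergence (filter `𝓝[<] 1` is countably generated).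

`GR_ag_cont`: for `ζ ≠ y` on the circle, `arg (1 - conj ζ z) → arg (1 - conj ζ y)` as
`z → y` (the real part of `1 - conj ζ y` is `> 0`: `continuousAt_arg`); bounded by `π`;
`μ {y} = 0`. Dominated convergence (the filter `𝓝 y` is countably generated).
`GR_ag_radial`: same along `z = r y`, where for `ζ = y` the argument is `arg (1 - r) = 0 = arg 0`.
`GR_bdd`: if the potential of `μ` at `y` is finite and `μ {y} = 0`, then `|Re Lg μ (r y)|` is bounded:
`|ζ - y| ≤ 2 |ζ - r y|` (`1 - r ≤ |ζ - r y|`), so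
`- log 2 ≤ - log |1 - conj ζ r y| ≤ log (2/|ζ - y|)`; and `log (2/|ζ-y|) ≥ 0`
is μ-integrable by hypothesis.
-/

open MeasureTheory Set Filter Topology Metric
open scoped Real ENNReal ComplexConjugate

namespace Pool.H90.VK

noncomputable section

private theorem GR_norm_ge {ζ y : ℂ} (hζ : ‖ζ‖ = 1) (hy : ‖y‖ = 1) {r : ℝ} (hr0 : 0 ≤ r) :
    1 - r ≤ ‖1 - conj ζ * (r * y)‖ := by
  have h1 : ‖conj ζ * (r * y)‖ = r := by
    rw [norm_mul, norm_mul, Complex.norm_conj, hζ, hy, Complex.norm_real,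
      Real.norm_of_nonneg hr0]
    ring
  have h2 := norm_sub_norm_le (1 : ℂ) (conj ζ * (r * y))
  rw [h1, norm_one] at h2
  exact h2

private theorem GR_norm_le {ζ y : ℂ} (hζ : ‖ζ‖ = 1) (hy : ‖y‖ = 1) {r : ℝ} (hr0 : 0 ≤ r)
    (hr1 : r ≤ 1) : ‖1 - conj ζ * (r * y)‖ ≤ 2 := by
  have h1 : ‖conj ζ * (r * y)‖ = r := by
    rw [norm_mul, norm_mul, Complex.norm_conj, hζ, hy, Complex.norm_real,
      Real.norm_of_nonneg hr0]
    ring
  have h2 := norm_sub_le (1 : ℂ) (conj ζ * (r * y))
  rw [h1, norm_one] at h2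
  linarith

private theorem GR_norm_lt {y : ℂ} (hy : ‖y‖ = 1) {r : ℝ} (hr0 : 0 ≤ r) (hr1 : r < 1) :
    ‖(r : ℂ) * y‖ < 1 := by
  rw [norm_mul, hy, Complex.norm_real, Real.norm_of_nonneg hr0, mul_one]
  exact hr1

private theorem GR_conj {y : ℂ} (hy : ‖y‖ = 1) : conj y * y = 1 := by
  rw [mul_comm, Complex.mul_conj, Complex.normSq_eq_norm_sq, hy]
  norm_num

private theorem GR_lg_re (μ : Measure ℂ) [IsFiniteMeasure μ] (hμ : OnCircle μ) {z : ℂ}
    (hz : ‖z‖ < 1) : (Lg μ z).re = ∫ ζ, Real.log ‖1 - conj ζ * z‖ ∂μ := by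
  unfold Lg
  have h1 := (Complex.reCLM.integral_comp_comm (LA_integrable μ hμ hz)).symm
  simp only [Complex.reCLM_apply, Complex.log_re] at h1
  exact h1

private theorem GR_eventually : ∀ᶠ r : ℝ in 𝓝[<] (1 : ℝ), 1 / 2 < r ∧ r < 1 := by
  have h1 : ∀ᶠ r : ℝ in 𝓝[<] (1 : ℝ), 1 / 2 < r :=
    nhdsWithin_le_nhds (lt_mem_nhds (by norm_num))
  filter_upwards [h1, self_mem_nhdsWithin] with r h2 h3
  exact ⟨h2, h3⟩

private theorem GR_log_atBot : Tendsto (fun r : ℝ => Real.log (1 - r)) (𝓝[<] 1) atBot := by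
  have h1 : Tendsto (fun r : ℝ => 1 - r) (𝓝[<] 1) (𝓝[>] 0) := by
    rw [tendsto_nhdsWithin_iff]
    constructor
    · have h2 : Tendsto (fun r : ℝ => 1 - r) (𝓝 1) (𝓝 (1 - 1)) :=
        (continuous_const.sub continuous_id).tendsto 1
      rw [sub_self] at h2
      exact h2.mono_left nhdsWithin_le_nhds
    · filter_upwards [self_mem_nhdsWithin] with r hr
      have : r < 1 := hr
      exact sub_pos.2 this
  exact Real.tendsto_log_nhdsGT_zero.comp h1

private theorem GR_re_lt {ζ y : ℂ} (hζ : ‖ζ‖ = 1) (hy : ‖y‖ = 1) (hne : ζ ≠ y) :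
    0 < (1 - conj ζ * y).re := by
  have h1 : ‖conj ζ * y‖ = 1 := by rw [norm_mul, Complex.norm_conj, hζ, hy, one_mul]
  have h2 : (conj ζ * y).re ≤ 1 := h1 ▸ Complex.re_le_norm _
  have h3 : (conj ζ * y).re ≠ 1 := by
    intro h4
    have h5 : Complex.normSq (conj ζ * y) = 1 := by
      rw [Complex.normSq_eq_norm_sq, h1]; norm_num
    rw [Complex.normSq_apply, h4] at h5
    have h6 : (conj ζ * y).im = 0 := by nlinarith
    have h7 : conj ζ * y = 1 := Complex.ext h4 h6
    apply hne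
    have h8 : ζ * (conj ζ * y) = y := by
      rw [← mul_assoc, mul_comm ζ, GR_conj hζ, one_mul]
    rw [h7, mul_one] at h8
    exact h8
  rw [Complex.sub_re, Complex.one_re]
  have := lt_of_le_of_ne h2 h3
  linarith

theorem GR_re (μ : Measure ℂ) [IsFiniteMeasure μ] (hμ : OnCircle μ) {y : ℂ} (hy : ‖y‖ = 1) :
    Tendsto (fun r : ℝ => (Lg μ (r * y)).re / Real.log (1 - r)) (𝓝[<] 1) (𝓝 (μ.real {y})) := by
  have hlim : Tendsto (fun r : ℝ => ∫ ζ, Real.log ‖1 - conj ζ * (r * y)‖ / Real.log (1 - r) ∂μ)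
      (𝓝[<] 1) (𝓝 (∫ ζ, ({y} : Set ℂ).indicator 1 ζ ∂μ)) := by
    refine tendsto_integral_filter_of_dominated_convergence (fun _ => (1:ℝ)) ?_ ?_
      (integrable_const 1) ?_
    · refine Eventually.of_forall fun r => ?_
      apply Measurable.aestronglyMeasurable
      have h1 : Measurable fun ζ : ℂ => ‖1 - conj ζ * (r * y)‖ := by
        apply Continuous.measurable
        fun_prop
      exact (Real.measurable_log.comp h1).div_const _
    · filter_upwards [GR_eventually] with r hr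
      filter_upwards [LA_ae_norm hμ] with ζ hζ
      have hr0 : 0 ≤ r := by linarith [hr.1]
      have h1 := GR_norm_ge hζ hy hr0
      have h2 := GR_norm_le hζ hy hr0 hr.2.le
      have h3 : 0 < 1 - r := by linarith [hr.2]
      have h4 : Real.log (1 - r) ≤ Real.log ‖1 - conj ζ * (r * y)‖ := Real.log_le_log h3 h1
      have h5 : Real.log ‖1 - conj ζ * (r * y)‖ ≤ Real.log 2 :=
        Real.log_le_log (h3.trans_le h1) h2
      have h6 : Real.log (1 - r) ≤ -Real.log 2 := by
        rw [← Real.log_inv]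
        exact Real.log_le_log h3 (by norm_num; linarith [hr.1])
      have h7 : 0 < Real.log 2 := Real.log_pos (by norm_num)
      rw [Real.norm_eq_abs, abs_div, div_le_one (abs_pos.2 (by linarith))]
      rw [abs_le, abs_of_neg (by linarith : Real.log (1 - r) < 0)]
      constructor <;> linarith
    · filter_upwards [LA_ae_norm hμ] with ζ hζ
      by_cases hζy : ζ = y
      · subst hζy
        rw [indicator_of_mem (mem_singleton ζ)]
        refine tendsto_const_nhds.congr' ?_
        filter_upwards [GR_eventually] with r hr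
        have h3 : 0 < 1 - r := by linarith [hr.2]
        have h1 : (1 : ℂ) - conj ζ * (r * ζ) = ((1 - r : ℝ) : ℂ) := by
          have : conj ζ * (r * ζ) = r * (conj ζ * ζ) := by ring
          rw [this, GR_conj hζ]
          push_cast
          ring
        rw [h1, Complex.norm_real, Real.norm_of_nonneg h3.le]
        have h4 : Real.log (1 - r) ≠ 0 := by
          have : Real.log (1 - r) < 0 := Real.log_neg h3 (by linarith [hr.1])
          exact this.ne
        rw [div_self h4]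
        rfl
      · rw [indicator_of_notMem (by simpa using hζy)]
        have h1 : Tendsto (fun r : ℝ => ‖1 - conj ζ * (r * y)‖) (𝓝[<] 1)
            (𝓝 ‖1 - conj ζ * y‖) := by
          have h2 : Continuous (fun r : ℝ => ‖1 - conj ζ * (r * y)‖) := by fun_prop
          have h3 := h2.tendsto 1
          simp only [Complex.ofReal_one, one_mul] at h3
          exact h3.mono_left nhdsWithin_le_nhds
        have h2 : ‖1 - conj ζ * y‖ ≠ 0 := by
          rw [norm_ne_zero_iff]
          intro h3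
          have := GR_re_lt hζ hy hζy
          rw [h3] at this
          simp at this
        exact (h1.log h2).div_atBot GR_log_atBot
  rw [integral_indicator_one (measurableSet_singleton y)] at hlim
  refine hlim.congr' ?_
  filter_upwards [GR_eventually] with r hr
  have hr0 : 0 ≤ r := by linarith [hr.1]
  rw [GR_lg_re μ hμ (GR_norm_lt hy hr0 hr.2), integral_div]

private theorem GR_arg_meas (μ : Measure ℂ) (z : ℂ) :
    AEStronglyMeasurable (fun ζ : ℂ => Complex.arg (1 - conj ζ * z)) μ := by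
  apply Measurable.aestronglyMeasurable
  apply Complex.measurable_arg.comp
  apply Continuous.measurable
  fun_prop

theorem GR_ag_cont (μ : Measure ℂ) [IsFiniteMeasure μ] (hμ : OnCircle μ) {y : ℂ} (hy : ‖y‖ = 1)
    (h0 : μ {y} = 0) : Tendsto (Ag μ) (𝓝 y) (𝓝 (Ag μ y)) := by
  unfold Ag
  refine tendsto_integral_filter_of_dominated_convergence (fun _ => π) ?_ ?_
    (integrable_const π) ?_
  · exact Eventually.of_forall fun z => GR_arg_meas μ z
  · refine Eventually.of_forall fun z => Eventually.of_forall fun ζ => ?_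
    exact Complex.abs_arg_le_pi _
  · have hne : ∀ᵐ ζ ∂μ, ζ ≠ y := by
      rw [ae_iff]
      simpa using h0
    filter_upwards [LA_ae_norm hμ, hne] with ζ hζ hζy
    have h1 : ContinuousAt (fun z : ℂ => 1 - conj ζ * z) y := by fun_prop
    have h2 : ContinuousAt Complex.arg (1 - conj ζ * y) :=
      Complex.continuousAt_arg (Or.inl (GR_re_lt hζ hy hζy))
    exact (ContinuousAt.comp (g := Complex.arg) (f := fun z : ℂ => 1 - conj ζ * z) h2 h1)

theorem GR_ag_radial (μ : Measure ℂ) [IsFiniteMeasure μ] (hμ : OnCircle μ) {y : ℂ}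
    (hy : ‖y‖ = 1) : Tendsto (fun r : ℝ => Ag μ (r * y)) (𝓝[<] 1) (𝓝 (Ag μ y)) := by
  unfold Ag
  refine tendsto_integral_filter_of_dominated_convergence (fun _ => π) ?_ ?_
    (integrable_const π) ?_
  · exact Eventually.of_forall fun z => GR_arg_meas μ _
  · refine Eventually.of_forall fun z => Eventually.of_forall fun ζ => ?_
    exact Complex.abs_arg_le_pi _
  · filter_upwards [LA_ae_norm hμ] with ζ hζ
    by_cases hζy : ζ = y
    · subst hζy
      refine tendsto_const_nhds.congr' ?_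
      filter_upwards [GR_eventually] with r hr
      have h3 : 0 < 1 - r := by linarith [hr.2]
      have h1 : (1 : ℂ) - conj ζ * (r * ζ) = ((1 - r : ℝ) : ℂ) := by
        have : conj ζ * (r * ζ) = r * (conj ζ * ζ) := by ring
        rw [this, GR_conj hζ]
        push_cast
        ring
      rw [h1, Complex.arg_ofReal_of_nonneg h3.le, GR_conj hζ, sub_self, Complex.arg_zero]
    · have h1 : ContinuousAt (fun r : ℝ => 1 - conj ζ * (r * y)) 1 := by fun_prop
      have h2 : ContinuousAt Complex.arg (1 - conj ζ * ((1:ℝ) * y)) := by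
        rw [Complex.ofReal_one, one_mul]
        exact Complex.continuousAt_arg (Or.inl (GR_re_lt hζ hy hζy))
      have h3 := (ContinuousAt.comp (g := Complex.arg)
        (f := fun r : ℝ => 1 - conj ζ * (r * y)) h2 h1).tendsto
      simp only [Function.comp_apply, Complex.ofReal_one, one_mul] at h3
      exact h3.mono_left nhdsWithin_le_nhds

theorem GR_bdd (μ : Measure ℂ) [IsFiniteMeasure μ] (hμ : OnCircle μ) {y : ℂ} (hy : ‖y‖ = 1)
    (h0 : μ {y} = 0) (hp : y ∉ potInf μ) :
    ∃ C : ℝ, ∀ r : ℝ, 0 ≤ r → r < 1 → |(Lg μ (r * y)).re| ≤ C := by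
  have hmeas : Measurable fun ζ : ℂ => Real.log (2 / ‖ζ - y‖) := by
    apply Real.measurable_log.comp
    exact (measurable_const).div (by fun_prop)
  have hlog2 : 0 < Real.log 2 := Real.log_pos (by norm_num)
  have hnn : ∀ᵐ ζ ∂μ, 0 ≤ Real.log (2 / ‖ζ - y‖) := by
    filter_upwards [LA_ae_norm hμ] with ζ hζ
    have h1 : ‖ζ - y‖ ≤ 2 := (norm_sub_le _ _).trans (by rw [hζ, hy]; norm_num)
    rcases (norm_nonneg (ζ - y)).eq_or_lt with h2 | h2
    · rw [← h2, div_zero, Real.log_zero]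
    · exact Real.log_nonneg (by rw [le_div_iff₀ h2]; linarith)
  have hint : Integrable (fun ζ : ℂ => Real.log (2 / ‖ζ - y‖)) μ := by
    refine ⟨hmeas.aestronglyMeasurable, ?_⟩
    rw [hasFiniteIntegral_iff_ofReal hnn]
    unfold potInf at hp
    exact lt_top_iff_ne_top.2 hp
  have hint2 : Integrable (fun ζ : ℂ => Real.log 2 + Real.log (2 / ‖ζ - y‖)) μ :=
    (integrable_const _).add hint
  refine ⟨∫ ζ, (Real.log 2 + Real.log (2 / ‖ζ - y‖)) ∂μ, fun r hr0 hr1 => ?_⟩
  rw [GR_lg_re μ hμ (GR_norm_lt hy hr0 hr1), ← Real.norm_eq_abs]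
  have hne : ∀ᵐ ζ ∂μ, ζ ≠ y := by
    rw [ae_iff]
    simpa using h0
  refine norm_integral_le_of_norm_le hint2 ?_
  filter_upwards [LA_ae_norm hμ, hne, hnn] with ζ hζ hζy hg
  have h3 : 0 < 1 - r := by linarith
  have h1 := GR_norm_ge hζ hy hr0
  have h2 := GR_norm_le hζ hy hr0 hr1.le
  have hpos : 0 < ‖ζ - y‖ := norm_pos_iff.2 (sub_ne_zero.2 hζy)
  have h4 : ‖ζ - y‖ ≤ 2 * ‖1 - conj ζ * (r * y)‖ := by
    have e1 : ζ * (1 - conj ζ * (r * y)) = ζ - r * y := by
      have : ζ * (1 - conj ζ * (r * y)) = ζ - (conj ζ * ζ) * (r * y) := by ring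
      rw [this, GR_conj hζ, one_mul]
    have e2 : ‖1 - conj ζ * (r * y)‖ = ‖ζ - r * y‖ := by
      rw [← e1, norm_mul, hζ, one_mul]
    have e3 : ζ - y = (ζ - r * y) - ((1 - r : ℝ) : ℂ) * y := by
      push_cast
      ring
    have e4 : ‖((1 - r : ℝ) : ℂ) * y‖ = 1 - r := by
      rw [norm_mul, hy, mul_one, Complex.norm_real, Real.norm_of_nonneg h3.le]
    have e5 : ‖ζ - y‖ ≤ ‖ζ - r * y‖ + (1 - r) := by
      have e6 := norm_sub_le (ζ - r * y) (((1 - r : ℝ) : ℂ) * y)
      rw [e4, ← e3] at e6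
      exact e6
    rw [← e2] at e5
    linarith
  have hN : 0 < ‖1 - conj ζ * (r * y)‖ := h3.trans_le h1
  have h5 : Real.log ‖1 - conj ζ * (r * y)‖ ≤ Real.log 2 := Real.log_le_log hN h2
  have h6 : -Real.log ‖1 - conj ζ * (r * y)‖ ≤ Real.log (2 / ‖ζ - y‖) := by
    rw [← Real.log_inv]
    apply Real.log_le_log (inv_pos.2 hN)
    rw [inv_eq_one_div, div_le_div_iff₀ hN hpos]
    linarith
  rw [Real.norm_eq_abs, abs_le]
  constructor <;> linarith

end

end Pool.H90.VK
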