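import Pool.Agent.H90.VK.Defs

/-!
# KA : basic facts on `Kg`

For `‖ζ‖ = 1`, `‖z‖ < 1`: `Re ((ζ+z)/(ζ-z)) = (1-‖z‖^2)/‖ζ-z‖^2 > 0`, and
`‖(ζ+z)/(ζ-z)‖ ≤ 2/(1-‖z‖)`.  `(ζ + z)/(ζ - z)` is analytic in `z` with derivative
`2ζ/(ζ-z)^2`, bounded by `8/(1-‖z‖)^2` on the ball of radius `(1-‖z‖)/2` around `z`:
differentiate under the integral sign.
`KA_mean0`: mean value property of analytic functions on circles
(`circleAverage` / Cauchy integral formula at the centre).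
`KA_mean0'`: same with the integral from `-π` to `π` (periodicity).
-/

open MeasureTheory Set Filter Topology Metric
open scoped Real ENNReal ComplexConjugate

namespace Pool.H90.VK

noncomputable section

theorem KA_kernel_re {ζ z : ℂ} (hζ : ‖ζ‖ = 1) (hz : ‖z‖ < 1) :
    ((ζ + z) / (ζ - z)).re = (1 - ‖z‖ ^ 2) / ‖ζ - z‖ ^ 2 := by
  have _ := hz
  have h1 : ζ.re * ζ.re + ζ.im * ζ.im = 1 := by
    have := Complex.normSq_apply ζ
    rw [Complex.normSq_eq_norm_sq, hζ] at this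
    linarith
  have h2 : ‖z‖ ^ 2 = z.re * z.re + z.im * z.im := by
    rw [← Complex.normSq_eq_norm_sq, Complex.normSq_apply]
  rw [Complex.div_re, Complex.normSq_eq_norm_sq, ← add_div, h2]
  congr 1
  simp only [Complex.add_re, Complex.sub_re, Complex.add_im, Complex.sub_im]
  linear_combination h1

theorem KA_ae (μ : Measure ℂ) (hμ : OnCircle μ) : ∀ᵐ ζ ∂μ, ‖ζ‖ = 1 := by
  rw [ae_iff]
  have : {ζ : ℂ | ¬ ‖ζ‖ = 1} = (sphere (0 : ℂ) 1)ᶜ := by
    ext ζ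
    simp
  rw [this]
  exact hμ

theorem KA_dist {ζ z : ℂ} (hζ : ‖ζ‖ = 1) : 1 - ‖z‖ ≤ ‖ζ - z‖ := by
  have := norm_sub_norm_le ζ z
  rwa [hζ] at this

theorem KA_bound {ζ z : ℂ} (hζ : ‖ζ‖ = 1) (hz : ‖z‖ < 1) :
    ‖(ζ + z) / (ζ - z)‖ ≤ 2 / (1 - ‖z‖) := by
  rw [norm_div]
  have h1 : ‖ζ + z‖ ≤ 2 := by
    have := norm_add_le ζ z
    rw [hζ] at this
    linarith
  exact div_le_div₀ (by norm_num) h1 (by linarith) (KA_dist hζ)

theorem KA_meas (μ : Measure ℂ) (z : ℂ) :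
    AEStronglyMeasurable (fun ζ : ℂ => (ζ + z) / (ζ - z)) μ :=
  ((measurable_id.add_const z).div (measurable_id.sub_const z)).aestronglyMeasurable

theorem KA_integrable (μ : Measure ℂ) [IsFiniteMeasure μ] (hμ : OnCircle μ) {z : ℂ} (hz : ‖z‖ < 1) :
    Integrable (fun ζ => (ζ + z) / (ζ - z)) μ := by
  refine Integrable.of_bound (KA_meas μ z) (2 / (1 - ‖z‖)) ?_
  filter_upwards [KA_ae μ hμ] with ζ hζ
  exact KA_bound hζ hz

theorem KA_diff (μ : Measure ℂ) [IsFiniteMeasure μ] (hμ : OnCircle μ) :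
    DifferentiableOn ℂ (Kg μ) (ball (0 : ℂ) 1) := by
  intro z₀ hz₀
  rw [mem_ball_zero_iff] at hz₀
  set ε : ℝ := (1 - ‖z₀‖) / 2 with hε
  have hε0 : 0 < ε := by rw [hε]; linarith
  have hx : ∀ x ∈ ball z₀ ε, ε ≤ 1 - ‖x‖ := by
    intro x hx
    rw [mem_ball, dist_eq_norm] at hx
    have h1 := norm_sub_norm_le x z₀
    rw [hε] at hx ⊢
    linarith
  have key := hasDerivAt_integral_of_dominated_loc_of_deriv_le (𝕜 := ℂ) (μ := μ)
    (F := fun z ζ => (ζ + z) / (ζ - z)) (F' := fun z ζ => 2 * ζ / (ζ - z) ^ 2)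
    (x₀ := z₀) (s := ball z₀ ε) (bound := fun _ => 2 / ε ^ 2) (ball_mem_nhds z₀ hε0)
    (Eventually.of_forall fun x => KA_meas μ x) (KA_integrable μ hμ hz₀)
    (((measurable_id.const_mul (2 : ℂ)).div
      ((measurable_id.sub_const z₀).pow_const 2)).aestronglyMeasurable)
    ?_ (integrable_const _) ?_
  · exact key.2.differentiableAt.differentiableWithinAt
  · filter_upwards [KA_ae μ hμ] with ζ hζ x hxs
    have h1 := hx x hxs
    have h2 := KA_dist (z := x) hζ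
    rw [norm_div, norm_mul, norm_pow, hζ]
    simp only [Complex.norm_ofNat, mul_one]
    exact div_le_div_of_nonneg_left (by norm_num) (by positivity)
      (pow_le_pow_left₀ hε0.le (h1.trans h2) 2)
  · filter_upwards [KA_ae μ hμ] with ζ hζ x hxs
    have h1 := hx x hxs
    have h2 := KA_dist (z := x) hζ
    have h3 : ζ - x ≠ 0 := by
      intro h
      rw [h, norm_zero] at h2
      linarith
    have h4 : HasDerivAt (fun x : ℂ => ζ + x) 1 x := (hasDerivAt_id x).const_add ζ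
    have h5 : HasDerivAt (fun x : ℂ => ζ - x) (-1) x := by
      simpa using (hasDerivAt_id x).const_sub ζ
    have h6 := h4.div h5 h3
    have h7 : (1 * (ζ - x) - (ζ + x) * -1) / (ζ - x) ^ 2 = 2 * ζ / (ζ - x) ^ 2 := by
      congr 1
      ring
    rw [h7] at h6
    exact h6

theorem KA_re (μ : Measure ℂ) [IsFiniteMeasure μ] (hμ : OnCircle μ) {z : ℂ} (hz : ‖z‖ < 1) :
    (Kg μ z).re = ∫ ζ, (1 - ‖z‖ ^ 2) / ‖ζ - z‖ ^ 2 ∂μ := by
  unfold Kg
  have h := integral_re (KA_integrable μ hμ hz)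
  have h2 : (∫ ζ, (ζ + z) / (ζ - z) ∂μ).re = ∫ ζ, ((ζ + z) / (ζ - z)).re ∂μ := h.symm
  rw [h2]
  refine integral_congr_ae ?_
  filter_upwards [KA_ae μ hμ] with ζ hζ
  exact KA_kernel_re hζ hz

theorem KA_pos {z : ℂ} (hz : ‖z‖ < 1) (ζ : ℂ) : 0 ≤ (1 - ‖z‖ ^ 2) / ‖ζ - z‖ ^ 2 := by
  have : 0 ≤ 1 - ‖z‖ ^ 2 := by nlinarith [norm_nonneg z]
  positivity

theorem KA_re_nonneg (μ : Measure ℂ) [IsFiniteMeasure μ] (hμ : OnCircle μ) {z : ℂ} (hz : ‖z‖ < 1) :
    0 ≤ (Kg μ z).re := by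
  rw [KA_re μ hμ hz]
  exact integral_nonneg fun ζ => KA_pos hz ζ

theorem KA_zero (μ : Measure ℂ) [IsFiniteMeasure μ] (hμ : OnCircle μ) :
    Kg μ 0 = (μ.real univ : ℂ) := by
  unfold Kg
  have h : ∫ ζ, (ζ + 0) / (ζ - 0) ∂μ = ∫ _ζ, (1 : ℂ) ∂μ := by
    refine integral_congr_ae ?_
    filter_upwards [KA_ae μ hμ] with ζ hζ
    have : ζ ≠ 0 := by
      rintro rfl
      simp at hζ
    rw [add_zero, sub_zero, div_self this]
  rw [h, integral_const]
  simp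

theorem KA_add (μ ν : Measure ℂ) [IsFiniteMeasure μ] [IsFiniteMeasure ν] (hμ : OnCircle μ)
    (hν : OnCircle ν) {z : ℂ} (hz : ‖z‖ < 1) : Kg (μ + ν) z = Kg μ z + Kg ν z :=
  integral_add_measure (KA_integrable μ hμ hz) (KA_integrable ν hν hz)

theorem KA_dirac (c : ℝ) (hc : 0 ≤ c) (x z : ℂ) :
    Kg (ENNReal.ofReal c • Measure.dirac x) z = c * ((x + z) / (x - z)) := by
  unfold Kg
  rw [integral_smul_measure, integral_dirac, ENNReal.toReal_ofReal hc, Complex.real_smul]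

theorem KA_re_mono (μ ν : Measure ℂ) [IsFiniteMeasure μ] [IsFiniteMeasure ν] (hμ : OnCircle μ)
    (hν : OnCircle ν) (hle : μ ≤ ν) {z : ℂ} (hz : ‖z‖ < 1) : (Kg μ z).re ≤ (Kg ν z).re := by
  rw [KA_re μ hμ hz, KA_re ν hν hz]
  refine integral_mono_measure hle (Eventually.of_forall fun ζ => KA_pos hz ζ) ?_
  refine (KA_integrable ν hν hz).re.congr ?_
  filter_upwards [KA_ae ν hν] with ζ hζ
  exact KA_kernel_re hζ hz

theorem KA_dcc (a : ℂ → ℂ) (ha : DifferentiableOn ℂ a (ball (0 : ℂ) 1)) {r : ℝ} (hr0 : 0 ≤ r)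
    (hr1 : r < 1) : DiffContOnCl ℂ a (ball (0 : ℂ) |r|) := by
  rw [abs_of_nonneg hr0]
  refine (ha.mono ?_).diffContOnCl
  exact closure_ball_subset_closedBall.trans (closedBall_subset_ball hr1)

theorem KA_circ (r : ℝ) (θ : ℝ) : (r : ℂ) * Complex.exp (θ * Complex.I) = circleMap 0 r θ := by
  simp [circleMap]

theorem KA_meanC (a : ℂ → ℂ) (ha : DifferentiableOn ℂ a (ball (0 : ℂ) 1)) {r : ℝ} (hr0 : 0 ≤ r)
    (hr1 : r < 1) :
    ∫ θ in (0 : ℝ)..(2 * π), a (r * Complex.exp (θ * Complex.I)) = 2 * π * a 0 := by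
  have h := (KA_dcc a ha hr0 hr1).circleAverage
  rw [Real.circleAverage_def] at h
  have h2 : ∫ θ in (0 : ℝ)..(2 * π), a (r * Complex.exp (θ * Complex.I)) =
      ∫ θ in (0 : ℝ)..(2 * π), a (circleMap 0 r θ) := by
    simp only [KA_circ]
  rw [h2, ← h, Complex.real_smul]
  push_cast
  have hπ : (π : ℂ) ≠ 0 := by exact_mod_cast Real.pi_ne_zero
  field_simp

theorem KA_cont (a : ℂ → ℂ) (ha : DifferentiableOn ℂ a (ball (0 : ℂ) 1)) {r : ℝ} (hr0 : 0 ≤ r)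
    (hr1 : r < 1) : Continuous fun θ : ℝ => a (r * Complex.exp (θ * Complex.I)) := by
  refine ha.continuousOn.comp_continuous (by fun_prop) fun θ => ?_
  rw [mem_ball_zero_iff, norm_mul, Complex.norm_exp_ofReal_mul_I, mul_one, Complex.norm_real,
    Real.norm_eq_abs, abs_of_nonneg hr0]
  exact hr1

theorem KA_mean0 (a : ℂ → ℂ) (ha : DifferentiableOn ℂ a (ball (0 : ℂ) 1)) {r : ℝ} (hr0 : 0 ≤ r)
    (hr1 : r < 1) :
    ∫ θ in (0 : ℝ)..(2 * π), (a (r * Complex.exp (θ * Complex.I))).re = 2 * π * (a 0).re := by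
  have h := KA_meanC a ha hr0 hr1
  have hc := KA_cont a ha hr0 hr1
  have h2 := intervalIntegral.intervalIntegral_re (𝕜 := ℂ)
    (hc.intervalIntegrable (μ := volume) 0 (2 * π))
  have h3 : ∫ θ in (0 : ℝ)..(2 * π), (a (r * Complex.exp (θ * Complex.I))).re =
      (∫ θ in (0 : ℝ)..(2 * π), a (r * Complex.exp (θ * Complex.I))).re := h2
  rw [h3, h]
  simp

theorem KA_mean0' (a : ℂ → ℂ) (ha : DifferentiableOn ℂ a (ball (0 : ℂ) 1)) {r : ℝ} (hr0 : 0 ≤ r)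
    (hr1 : r < 1) :
    ∫ θ in (-π : ℝ)..π, a (r * Complex.exp (θ * Complex.I)) = 2 * π * a 0 := by
  have hper : Function.Periodic (fun θ : ℝ => a (r * Complex.exp (θ * Complex.I))) (2 * π) := by
    intro θ
    have : Complex.exp (((θ + 2 * π : ℝ) : ℂ) * Complex.I) = Complex.exp (θ * Complex.I) := by
      push_cast
      rw [add_mul, Complex.exp_add, Complex.exp_two_pi_mul_I, mul_one]
    simp only [this]
  have h := hper.intervalIntegral_add_eq (-π) 0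
  have e1 : -π + 2 * π = π := by ring
  rw [e1, zero_add] at h
  rw [h]
  exact KA_meanC a ha hr0 hr1

end

end Pool.H90.VK
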