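import Pool.Agent.H90.VK.LA
import Pool.Agent.H90.VK.KA

/-!
# JOR : reduction to mutually singular measures

Let `λ = β + α` (finite), `b = dβ/dλ`, `a = dα/dλ` (`rnDeriv`; `β, α ≪ λ`), and
`β' = λ.withDensity (b - a)` , `α' = λ.withDensity (a - b)` (truncated subtraction in `ℝ≥0∞`).
Then `β' ≤ β`, `α' ≤ α`, `β' ⟂ₘ α'` (carried by `{b > a}` and `{a > b}`), `β + α' = α + β'`
(pointwise `b + (a - b) = max a b = a + (b - a)`; `a, b < ∞` λ-a.e.).
(Alternatively use the Hahn decomposition `MeasureTheory.exists_isHahnDecomposition` /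
`SignedMeasure.toJordanDecomposition`.)
If `β'(T) = β(T)` (finite masses) then `β' = β`, and then `α' = α`, so `β ⟂ₘ α`.

`JOR_rep`: from `β + α' = α + β'` : `Lg α - Lg β = Lg α' - Lg β'` on the disc (`LA_add`), and the
masses: `β'(T) - α'(T) = β(T) - α(T) = 2`.
-/

open MeasureTheory Set Filter Topology Metric
open scoped Real ENNReal ComplexConjugate

namespace Pool.H90.VK

noncomputable section

theorem JOR (β α : Measure ℂ) [IsFiniteMeasure β] [IsFiniteMeasure α] :
    ∃ β' α' : Measure ℂ, β' ≤ β ∧ α' ≤ α ∧ β' ⟂ₘ α' ∧ β + α' = α + β' ∧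
      (β'.real univ = β.real univ → β ⟂ₘ α) := by
  set lam : Measure ℂ := β + α with hlam
  have hβl : β ≪ lam := Measure.absolutelyContinuous_of_le (Measure.le_add_right le_rfl)
  have hαl : α ≪ lam := Measure.absolutelyContinuous_of_le (Measure.le_add_left le_rfl)
  set b : ℂ → ℝ≥0∞ := β.rnDeriv lam with hb
  set a : ℂ → ℝ≥0∞ := α.rnDeriv lam with ha
  have hbm : Measurable b := Measure.measurable_rnDeriv _ _
  have ham : Measurable a := Measure.measurable_rnDeriv _ _
  have hbe : lam.withDensity b = β := Measure.withDensity_rnDeriv_eq β lam hβl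
  have hae : lam.withDensity a = α := Measure.withDensity_rnDeriv_eq α lam hαl
  have h1 : lam.withDensity (fun x => b x - a x) ≤ β := by
    conv_rhs => rw [← hbe]
    exact withDensity_mono (Eventually.of_forall fun x => tsub_le_self)
  have h2 : lam.withDensity (fun x => a x - b x) ≤ α := by
    conv_rhs => rw [← hae]
    exact withDensity_mono (Eventually.of_forall fun x => tsub_le_self)
  have h3 : lam.withDensity (fun x => b x - a x) ⟂ₘ lam.withDensity (fun x => a x - b x) := by
    have hs : MeasurableSet {x | b x ≤ a x} := measurableSet_le hbm ham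
    refine ⟨{x | b x ≤ a x}, hs, ?_, ?_⟩
    · rw [withDensity_apply _ hs]
      rw [setLIntegral_congr_fun hs (g := fun _ => 0)]
      · simp
      · intro x hx
        exact tsub_eq_zero_of_le hx
    · rw [withDensity_apply _ hs.compl]
      rw [setLIntegral_congr_fun hs.compl (g := fun _ => 0)]
      · simp
      · intro x hx
        have hx' : ¬ b x ≤ a x := hx
        exact tsub_eq_zero_of_le (le_of_lt (not_le.mp hx'))
  have h4 : β + lam.withDensity (fun x => a x - b x) =
      α + lam.withDensity (fun x => b x - a x) := by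
    conv_lhs => rw [← hbe]
    conv_rhs => rw [← hae]
    rw [← withDensity_add_left hbm, ← withDensity_add_left ham]
    congr 1
    funext x
    show b x + (a x - b x) = a x + (b x - a x)
    rw [add_tsub_eq_max, add_tsub_eq_max, max_comm]
  refine ⟨_, _, h1, h2, h3, h4, ?_⟩
  intro h5
  have f1 : IsFiniteMeasure (lam.withDensity (fun x => b x - a x)) :=
    isFiniteMeasure_of_le β h1
  have f2 : IsFiniteMeasure (lam.withDensity (fun x => a x - b x)) :=
    isFiniteMeasure_of_le α h2
  have h6 : lam.withDensity (fun x => b x - a x) univ = β univ := by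
    rw [Measure.real, Measure.real] at h5
    exact (ENNReal.toReal_eq_toReal_iff' (measure_ne_top _ _) (measure_ne_top _ _)).1 h5
  have h7 : lam.withDensity (fun x => b x - a x) = β :=
    Measure.eq_of_le_of_measure_univ_eq h1 h6
  have h8 : lam.withDensity (fun x => a x - b x) univ = α univ := by
    have := congrArg (fun m : Measure ℂ => m univ) h4
    simp only [Measure.add_apply] at this
    rw [h6, add_comm (α univ)] at this
    exact (ENNReal.add_right_inj (measure_ne_top β univ)).1 this
  have h9 : lam.withDensity (fun x => a x - b x) = α :=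
    Measure.eq_of_le_of_measure_univ_eq h2 h8
  rw [h7, h9] at h3
  exact h3

theorem JOR_rep {k : ℝ} {f : ℂ → ℂ} {β α : Measure ℂ} (h : PRep k f β α) :
    ∃ β' α' : Measure ℂ, PRep k f β' α' ∧ β' ⟂ₘ α' ∧
      (β ⟂ₘ α ∨ β'.real univ + α'.real univ < β.real univ + α.real univ) := by
  have := h.finβ
  have := h.finα
  obtain ⟨β', α', h1, h2, h3, h4, h5⟩ := JOR β α
  have f1 : IsFiniteMeasure β' := isFiniteMeasure_of_le β h1
  have f2 : IsFiniteMeasure α' := isFiniteMeasure_of_le α h2
  have c1 : OnCircle β' := le_antisymm ((h1 _).trans_eq h.circβ) zero_le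
  have c2 : OnCircle α' := le_antisymm ((h2 _).trans_eq h.circα) zero_le
  have m : β.real univ + α'.real univ = α.real univ + β'.real univ := by
    have e : (β + α').real univ = (α + β').real univ := by rw [h4]
    rwa [measureReal_add_apply, measureReal_add_apply] at e
  have m1 : β'.real univ ≤ β.real univ :=
    ENNReal.toReal_mono (measure_ne_top _ _) (h1 univ)
  have m2 : α'.real univ ≤ α.real univ :=
    ENNReal.toReal_mono (measure_ne_top _ _) (h2 univ)
  have d := h.diff
  have sm := h.sum
  refine ⟨β', α', ⟨f1, f2, c1, c2, ?_, ?_, ?_⟩, h3, ?_⟩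
  · intro z hz
    have hz' : ‖z‖ < 1 := by simpa using hz
    rw [h.rep z hz]
    congr 1
    have e : Lg (β + α') z = Lg (α + β') z := by rw [h4]
    rw [LA_add β α' h.circβ c2 hz', LA_add α β' h.circα c1 hz'] at e
    linear_combination -e
  · linarith
  · linarith
  · rcases eq_or_lt_of_le m1 with he | hl
    · left; exact h5 he
    · right; linarith

end

end Pool.H90.VK
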