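import Pool.Agent.H90.VK.LA
import Pool.Agent.H90.VK.KA

/-!
# MEM : membership in V_k

`MEM_inV`.  On the circle `|z| = r`:
`|Re(1 + z f''/f')| = |Re a - Re b| ≤ Re a + Re b`, and by `KA_mean0` the integral of
`Re a + Re b` over `θ ∈ [0, 2π]` is `2π (Re a(0) + Re b(0)) ≤ kπ`.
(The integrand `|Re (1 + z f''/f')|` is continuous in `θ`: `deriv f`, `deriv (deriv f)` are
continuous on the ball since `f` is differentiable on the open ball, `DifferentiableOn.deriv`.)

`MEM_rep`.  From `deriv f = exp (Lg α - Lg β)` on the ball: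
`deriv (deriv f) z = (deriv (Lg α) z - deriv (Lg β) z) * deriv f z`, so by `LA_kg`
`z f''/f' = -(1/2)(Kg α z - α(T)) + (1/2)(Kg β z - β(T)) = (1/2)(Kg β z - Kg α z) - 1`.

`MEM_of_rep`: `a = Kg β / 2`, `b = Kg α / 2` in `MEM_inV`; `deriv f 0 = exp 0 = 1` by `LA_zero`.
-/

open MeasureTheory Set Filter Topology Metric
open scoped Real ENNReal ComplexConjugate

namespace Pool.H90.VK

noncomputable section

theorem MEM_w_norm {r : ℝ} (hr : 0 ≤ r) (θ : ℝ) : ‖(r : ℂ) * Complex.exp (θ * Complex.I)‖ = r := by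
  rw [norm_mul, Complex.norm_exp_ofReal_mul_I, mul_one, Complex.norm_real, Real.norm_of_nonneg hr]

theorem MEM_cont {a : ℂ → ℂ} (ha : DifferentiableOn ℂ a (ball (0 : ℂ) 1)) {r : ℝ} (hr0 : 0 ≤ r)
    (hr1 : r < 1) : Continuous fun θ : ℝ => (a (r * Complex.exp (θ * Complex.I))).re := by
  have h1 : Continuous fun θ : ℝ => (r : ℂ) * Complex.exp (θ * Complex.I) := by fun_prop
  refine Complex.continuous_re.comp ?_
  refine ha.continuousOn.comp_continuous h1 fun θ => ?_
  rw [mem_ball, dist_zero_right, MEM_w_norm hr0]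
  exact hr1

theorem MEM_inV {k : ℝ} {f : ℂ → ℂ} (hd : DifferentiableOn ℂ f (ball (0 : ℂ) 1)) (h0 : f 0 = 0)
    (h1 : deriv f 0 = 1) (hne : ∀ z ∈ ball (0 : ℂ) 1, deriv f z ≠ 0) (a b : ℂ → ℂ)
    (ha : DifferentiableOn ℂ a (ball (0 : ℂ) 1)) (hb : DifferentiableOn ℂ b (ball (0 : ℂ) 1))
    (ha0 : ∀ z ∈ ball (0 : ℂ) 1, 0 ≤ (a z).re) (hb0 : ∀ z ∈ ball (0 : ℂ) 1, 0 ≤ (b z).re)
    (hab : ∀ z ∈ ball (0 : ℂ) 1,
      (1 + z * deriv (deriv f) z / deriv f z).re = (a z).re - (b z).re)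
    (hk : (a 0).re + (b 0).re ≤ k / 2) : InV k f := by
  refine ⟨hd, h0, h1, hne, ?_⟩
  intro r hr0 hr1
  have hw : ∀ θ : ℝ, (r : ℂ) * Complex.exp (θ * Complex.I) ∈ ball (0 : ℂ) 1 := by
    intro θ
    rw [mem_ball, dist_zero_right, MEM_w_norm hr0.le]
    exact hr1
  have hac := MEM_cont ha hr0.le hr1
  have hbc := MEM_cont hb hr0.le hr1
  have e1 : ∀ θ : ℝ, |(1 + (r * Complex.exp (θ * Complex.I)) *
      deriv (deriv f) (r * Complex.exp (θ * Complex.I)) /
        deriv f (r * Complex.exp (θ * Complex.I))).re| =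
      |(a (r * Complex.exp (θ * Complex.I))).re - (b (r * Complex.exp (θ * Complex.I))).re| := by
    intro θ
    rw [hab _ (hw θ)]
  simp only [e1]
  have h2 : ∫ θ in (0 : ℝ)..(2 * π),
      |(a (r * Complex.exp (θ * Complex.I))).re - (b (r * Complex.exp (θ * Complex.I))).re| ≤
      ∫ θ in (0 : ℝ)..(2 * π), ((a (r * Complex.exp (θ * Complex.I))).re +
        (b (r * Complex.exp (θ * Complex.I))).re) := by
    refine intervalIntegral.integral_mono_on (by positivity)
      (hac.sub hbc).abs.continuousOn.intervalIntegrable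
      (hac.add hbc).continuousOn.intervalIntegrable fun θ _ => ?_
    have h3 := ha0 _ (hw θ)
    have h4 := hb0 _ (hw θ)
    rw [abs_le]
    constructor <;> linarith
  refine h2.trans ?_
  rw [intervalIntegral.integral_add hac.continuousOn.intervalIntegrable
    hbc.continuousOn.intervalIntegrable, KA_mean0 a ha hr0.le hr1, KA_mean0 b hb hr0.le hr1]
  have hpi := Real.pi_pos
  nlinarith

theorem MEM_rep {k : ℝ} {f : ℂ → ℂ} {β α : Measure ℂ} (h : PRep k f β α) {z : ℂ}
    (hz : z ∈ ball (0 : ℂ) 1) :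
    1 + z * deriv (deriv f) z / deriv f z = (1 / 2) * Kg β z - (1 / 2) * Kg α z := by
  have := h.finβ
  have := h.finα
  have hz1 : ‖z‖ < 1 := by simpa using hz
  have hev : deriv f =ᶠ[𝓝 z] fun w => Complex.exp (Lg α w - Lg β w) := by
    filter_upwards [isOpen_ball.mem_nhds hz] with w hw
    exact h.rep w hw
  have hA : HasDerivAt (Lg α) (deriv (Lg α) z) z :=
    (LA_hasDerivAt α h.circα hz1).differentiableAt.hasDerivAt
  have hB : HasDerivAt (Lg β) (deriv (Lg β) z) z :=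
    (LA_hasDerivAt β h.circβ hz1).differentiableAt.hasDerivAt
  have h1 : deriv (deriv f) z = Complex.exp (Lg α z - Lg β z) *
      (deriv (Lg α) z - deriv (Lg β) z) := by
    rw [hev.deriv_eq]
    exact (hA.sub hB).cexp.deriv
  rw [h1, h.rep z hz, mul_left_comm, mul_div_cancel_left₀ _ (Complex.exp_ne_zero _),
    mul_sub, LA_kg α h.circα hz1, LA_kg β h.circβ hz1]
  have h2 : ((β.real univ : ℝ) : ℂ) - ((α.real univ : ℝ) : ℂ) = 2 := by
    rw [← Complex.ofReal_sub, h.diff]
    norm_num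
  linear_combination -(1 / 2) * h2

theorem MEM_of_rep {k : ℝ} {f : ℂ → ℂ} {β α : Measure ℂ}
    (hd : DifferentiableOn ℂ f (ball (0 : ℂ) 1)) (h0 : f 0 = 0) (h : PRep k f β α) : InV k f := by
  have := h.finβ
  have := h.finα
  have hre : ∀ w : ℂ, ((1 / 2 : ℂ) * w).re = w.re / 2 := by
    intro w
    rw [Complex.mul_re]
    norm_num
    ring
  refine MEM_inV hd h0 ?_ ?_ (fun z => (1 / 2) * Kg β z) (fun z => (1 / 2) * Kg α z)
    ((KA_diff β h.circβ).const_mul _) ((KA_diff α h.circα).const_mul _) ?_ ?_ ?_ ?_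
  · rw [h.rep 0 (by simp), LA_zero, LA_zero, sub_zero, Complex.exp_zero]
  · intro z hz
    rw [h.rep z hz]
    exact Complex.exp_ne_zero _
  · intro z hz
    rw [hre]
    have := KA_re_nonneg β h.circβ (z := z) (by simpa using hz)
    linarith
  · intro z hz
    rw [hre]
    have := KA_re_nonneg α h.circα (z := z) (by simpa using hz)
    linarith
  · intro z hz
    rw [MEM_rep h hz, Complex.sub_re]
  · rw [hre, hre, KA_zero β h.circβ, KA_zero α h.circα, Complex.ofReal_re, Complex.ofReal_re]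
    have := h.sum
    linarith

end

end Pool.H90.VK
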