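import Pool.Agent.H90.VK.SUF
import Pool.Agent.H90.VK.MEM
import Pool.Agent.H90.VK.ARC

/-!
# KER : the kernel functions are extreme

`f' = (1 - conj x z)^(k/2-1) / (1 - conj y z)^(k/2+1)`, `x ≠ y` on the circle.
-/

open MeasureTheory Set Filter Topology Metric
open scoped Real ENNReal ComplexConjugate

namespace Pool.H90.VK

noncomputable section

theorem KER_circ {x : ℂ} (hx : ‖x‖ = 1) (c : ℝ≥0∞) : OnCircle (c • Measure.dirac x) := by
  unfold OnCircle
  rw [Measure.smul_apply, Measure.dirac_apply' _ isClosed_sphere.measurableSet.compl]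
  simp [hx]

theorem KER_mass {c : ℝ} (hc : 0 ≤ c) (x : ℂ) :
    (ENNReal.ofReal c • Measure.dirac x).real univ = c := by
  rw [measureReal_def, Measure.smul_apply, measure_univ, smul_eq_mul, mul_one,
    ENNReal.toReal_ofReal hc]

theorem KER_compl (c : ℝ≥0∞) (x : ℂ) : (c • Measure.dirac x) {x}ᶜ = 0 := by
  rw [Measure.smul_apply, Measure.dirac_apply' _ (measurableSet_singleton x).compl]
  simp

theorem KER_atoms_sub (c : ℝ≥0∞) (x : ℂ) : atoms (c • Measure.dirac x) ⊆ {x} := by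
  intro z hz
  by_contra hzx
  refine hz (measure_mono_null ?_ (KER_compl c x))
  intro w hw
  rw [mem_singleton_iff] at hw
  rw [hw]
  exact hzx

theorem KER_np {c : ℝ≥0∞} (hc : c ≠ 0) (x : ℂ) :
    NonPolar ((c • Measure.dirac x).restrict (atoms (c • Measure.dirac x))ᶜ) := by
  have h1 : x ∈ atoms (c • Measure.dirac x) := by
    show (c • Measure.dirac x) {x} ≠ 0
    rw [Measure.smul_apply, Measure.dirac_apply' _ (measurableSet_singleton x)]
    simpa using hc
  have h2 : atoms (c • Measure.dirac x) = {x} :=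
    Subset.antisymm (KER_atoms_sub c x) (singleton_subset_iff.2 h1)
  have h3 : (c • Measure.dirac x).restrict (atoms (c • Measure.dirac x))ᶜ = 0 := by
    rw [h2, Measure.restrict_eq_zero]
    exact KER_compl c x
  rw [h3]
  intro Λ _ _
  simp

theorem KER_arc (c : ℝ≥0∞) (x : ℂ) (h0 : arcLen {x} = 0) : (c • Measure.dirac x) ⟂ₘ arcLen := by
  refine ⟨{x}ᶜ, (measurableSet_singleton x).compl, KER_compl c x, ?_⟩
  rw [compl_compl]
  exact h0

theorem KER_prep {k : ℝ} (h2 : 2 < k) {f : ℂ → ℂ} {x y : ℂ} (hx : ‖x‖ = 1) (hy : ‖y‖ = 1)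
    (hf : ∀ z ∈ ball (0 : ℂ) 1, deriv f z = Complex.exp (((k / 2 - 1 : ℝ) : ℂ) *
      Complex.log (1 - conj x * z) - ((k / 2 + 1 : ℝ) : ℂ) * Complex.log (1 - conj y * z))) :
    PRep k f (ENNReal.ofReal (k / 2 + 1) • Measure.dirac y)
      (ENNReal.ofReal (k / 2 - 1) • Measure.dirac x) := by
  have e1 : (0 : ℝ) ≤ k / 2 + 1 := by linarith
  have e2 : (0 : ℝ) ≤ k / 2 - 1 := by linarith
  refine ⟨?_, ?_, KER_circ hy _, KER_circ hx _, ?_, ?_, ?_⟩
  · exact ⟨by
      rw [Measure.smul_apply, measure_univ, smul_eq_mul, mul_one]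
      exact ENNReal.ofReal_lt_top⟩
  · exact ⟨by
      rw [Measure.smul_apply, measure_univ, smul_eq_mul, mul_one]
      exact ENNReal.ofReal_lt_top⟩
  · intro z hz
    rw [hf z hz, LA_dirac _ e1, LA_dirac _ e2]
  · rw [KER_mass e1, KER_mass e2]; ring
  · rw [KER_mass e1, KER_mass e2]; linarith

theorem KER {k : ℝ} (h2 : 2 < k) (h4 : k < 4) {f : ℂ → ℂ}
    (hd : DifferentiableOn ℂ f (ball (0 : ℂ) 1)) (h0 : f 0 = 0) {x y : ℂ} (hx : ‖x‖ = 1)
    (hy : ‖y‖ = 1) (hxy : x ≠ y)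
    (hf : ∀ z ∈ ball (0 : ℂ) 1, deriv f z = Complex.exp (((k / 2 - 1 : ℝ) : ℂ) *
      Complex.log (1 - conj x * z) - ((k / 2 + 1 : ℝ) : ℂ) * Complex.log (1 - conj y * z))) :
    IsExtreme k f := by
  have e1 : (0 : ℝ) < k / 2 + 1 := by linarith
  have e2 : (0 : ℝ) < k / 2 - 1 := by linarith
  have hP := KER_prep h2 hx hy hf
  have hs : (ENNReal.ofReal (k / 2 + 1) • Measure.dirac y) ⟂ₘ
      (ENNReal.ofReal (k / 2 - 1) • Measure.dirac x) := by
    refine ⟨{y}ᶜ, (measurableSet_singleton y).compl, KER_compl _ y, ?_⟩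
    rw [compl_compl]
    refine measure_mono_null ?_ (KER_compl _ x)
    intro w hw
    rw [mem_singleton_iff] at hw
    rw [hw]
    exact fun h => hxy (mem_singleton_iff.1 h).symm
  refine SUF h2 h4 (MEM_of_rep hd h0 hP) hP ?_ hs (KER_arc _ y (arcLen_singleton y))
    (KER_arc _ x (arcLen_singleton x)) ?_ ?_ ?_ (Or.inr (Or.inl ?_))
  · rw [KER_mass e1.le, KER_mass e2.le]; ring
  · exact subsingleton_singleton.anti (KER_atoms_sub _ y)
  · exact KER_np (by simpa using e1) y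
  · exact KER_np (by simpa using e2) x
  · exact subsingleton_singleton.anti (KER_atoms_sub _ x)

end

end Pool.H90.VK
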