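import Pool.Agent.H90.VK.Defs

/-!
# KWH : moving a single negative atom takes every real value > 1 (half-plane part, (a)-(d) below)

Let `σ` be a finite measure on the circle, `|x| = 1`, `W z = exp (Lg σ z - σ(T) log (1 - conj x z))`.
If `W` omits some real `v > 1` on the disc, then `σ {x}ᶜ = 0`.

Proof. Suppose `σ {x}ᶜ ≠ 0`. Change variables: `s = (1 + conj x z)/(1 - conj x z)` maps the disc onto
`Re s > 0`, `z = x (s-1)/(s+1)`, `z = 0 ↔ s = 1`. For `ζ ≠ x`, `|ζ| = 1`, write
`τ(ζ) = Im ((1 + conj x ζ)/(1 - conj x ζ))` (the quotient is purely imaginary, `= i τ`); then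
`(1 - conj ζ z)/(1 - conj x z) = (s - iτ)/(1 - iτ)`.
Let `λ` be the image of `σ` restricted to `{x}ᶜ` under `τ` (a finite nonzero measure on `ℝ`) and
`g(s) = ∫ (log (s - iτ) - log (1 - iτ)) dλ(τ)` (principal logarithms of numbers with positive
real part). Then `Lg σ z - σ(T) log (1 - conj x z) = g(s)`
[for each `ζ`: `log (1 - conj ζ z) - log (1 - conj x z) = log (s-iτ) - log (1-iτ)`: both sides have
the same exponential, and both sides are continuous in `z` and vanish at `z = 0`; or: the imaginary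
parts of both sides are in `(-π, π)`, so they agree], so `W = exp (g s)`.
(a) For fixed `σ₀ = Re s > 0`, with `s = σ₀ + iη`: `Im g = ∫ (arctan ((η-τ)/σ₀) + arctan τ) dλ(τ)`
is continuous and strictly increasing in `η`, negative for `η → -∞` (limit `∫ (-π/2 + arctan τ) < 0`)
and positive for `η → +∞`. So there is a unique `η(σ₀)` with `Im g = 0`; `η(1) = 0`;
`η(·)` is continuous on `[1, ∞)` (strict monotonicity: `η(σ₀) ∈ (η₁, η₂)` iff
`Im g(σ₀+iη₁) < 0 < Im g(σ₀+iη₂)`, an open condition in `σ₀`).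
(b) `|η(σ₀)| ≤ C σ₀` for `σ₀ ≥ 1`, some `C`: choose `T` and `δ > 0` with
`∫_{|τ| ≤ T} (π/2 - δ + arctan τ) dλ - π λ(|τ| > T) > 0` (possible: `∫ (π/2 + arctan τ) dλ > 0`),
and `C` with `arctan (C - T) ≥ π/2 - δ`; if `η > C σ₀` then for `|τ| ≤ T`,
`(η - τ)/σ₀ ≥ C - T`, so `Im g > 0`. Symmetric for `η < -C σ₀`.
(c) `R(σ₀) = Re g (σ₀ + iη(σ₀)) = ∫ log (|s-iτ|/|1-iτ|) dλ` is continuous, `R(1) = 0`, and
`R(σ₀) → ∞` as `σ₀ → ∞`: for `|τ| ≤ 2Cσ₀`, `|s-iτ|²/(1+τ²) ≥ σ₀²/(1+4C²σ₀²) ≥ 1/(1+4C²)`; for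
`|τ| > 2Cσ₀`, `|η - τ| ≥ |τ|/2` so `|s-iτ|²/(1+τ²) ≥ (τ²/4)/(1+τ²) ≥ 1/8` (take `C ≥ 1`);
for `|τ| ≤ T'` (with `λ([-T', T']) > 0`) `|s-iτ|/|1-iτ| ≥ σ₀/√(1+T'²)`. So
`R(σ₀) ≥ λ([-T',T']) log (σ₀/√(1+T'²)) - C' λ(ℝ) → ∞`.
(d) by the intermediate value theorem `R(σ₀) = log v` for some `σ₀ ≥ 1`, and `W = e^{R} = v` there.
-/

open MeasureTheory Set Filter Topology Metric
open scoped Real ENNReal ComplexConjugate

namespace Pool.H90.VK

noncomputable section

/-- the integrand -/
private def KWH_f (s : ℂ) (τ : ℝ) : ℂ :=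
  Complex.log (s - τ * Complex.I) - Complex.log (1 - τ * Complex.I)

private theorem KWH_re (s : ℂ) (τ : ℝ) : (s - τ * Complex.I).re = s.re := by simp

private theorem KWH_im (s : ℂ) (τ : ℝ) : (s - τ * Complex.I).im = s.im - τ := by simp

private theorem KWH_arg {z : ℂ} (hz : 0 < z.re) : z.arg = Real.arctan (z.im / z.re) := by
  have h := abs_lt.1 (Complex.abs_arg_lt_pi_div_two_iff.2 (Or.inl hz))
  rw [← Complex.tan_arg, Real.arctan_tan h.1 h.2]

private theorem KWH_fim {s : ℂ} (hs : 0 < s.re) (τ : ℝ) :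
    (KWH_f s τ).im = Real.arctan ((s.im - τ) / s.re) + Real.arctan τ := by
  unfold KWH_f
  have h1 : (1 : ℂ).re = 1 := Complex.one_re
  rw [Complex.sub_im, Complex.log_im, Complex.log_im, KWH_arg (by rwa [KWH_re]),
    KWH_arg (z := 1 - τ * Complex.I) (by rw [KWH_re]; norm_num), KWH_re, KWH_im, KWH_re, KWH_im]
  simp [Real.arctan_neg]

private theorem KWH_fre (s : ℂ) (τ : ℝ) :
    (KWH_f s τ).re = Real.log ‖s - τ * Complex.I‖ - Real.log ‖1 - τ * Complex.I‖ := by
  unfold KWH_f
  rw [Complex.sub_re, Complex.log_re, Complex.log_re]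

private theorem KWH_n1 {s : ℂ} (_hs : 0 < s.re) (τ : ℝ) : s.re ≤ ‖s - τ * Complex.I‖ := by
  have h := Complex.re_le_norm (s - τ * Complex.I)
  rwa [KWH_re] at h

private theorem KWH_one (τ : ℝ) : 1 ≤ ‖1 - τ * Complex.I‖ := by
  have h := KWH_n1 (s := 1) (by simp) τ
  simpa using h

private theorem KWH_bound {s : ℂ} (hs : 0 < s.re) (τ : ℝ) :
    ‖KWH_f s τ‖ ≤ ‖s - 1‖ * (1 + 1 / s.re) + π := by
  have h1 := KWH_n1 hs τ
  have h2 := KWH_one τ
  have h3 : ‖s - τ * Complex.I‖ ≤ ‖s - 1‖ + ‖1 - τ * Complex.I‖ := by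
    have : s - τ * Complex.I = (s - 1) + (1 - τ * Complex.I) := by ring
    rw [this]
    exact norm_add_le _ _
  have h4 : ‖1 - τ * Complex.I‖ ≤ ‖s - 1‖ + ‖s - τ * Complex.I‖ := by
    have : 1 - τ * Complex.I = -(s - 1) + (s - τ * Complex.I) := by ring
    rw [this]
    refine (norm_add_le _ _).trans ?_
    rw [norm_neg]
  set a := ‖s - τ * Complex.I‖ with ha
  set b := ‖1 - τ * Complex.I‖ with hb
  have hn := norm_nonneg (s - 1)
  have ha0 : 0 < a := by linarith
  have hb0 : 0 < b := by linarith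
  have h5 : Real.log a - Real.log b ≤ ‖s - 1‖ := by
    rw [← Real.log_div ha0.ne' hb0.ne']
    refine (Real.log_le_sub_one_of_pos (by positivity)).trans ?_
    rw [sub_le_iff_le_add, div_le_iff₀ hb0]
    nlinarith
  have h6 : Real.log b - Real.log a ≤ ‖s - 1‖ * (1 / s.re) := by
    rw [← Real.log_div hb0.ne' ha0.ne']
    refine (Real.log_le_sub_one_of_pos (by positivity)).trans ?_
    rw [sub_le_iff_le_add, div_le_iff₀ ha0]
    have h7 : 1 ≤ 1 / s.re * a := by
      rw [one_div, inv_mul_eq_div, le_div_iff₀ hs]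
      linarith
    nlinarith
  have h8 : |(KWH_f s τ).re| ≤ ‖s - 1‖ * (1 + 1 / s.re) := by
    rw [KWH_fre, ← ha, ← hb, abs_le]
    have h9 : 0 ≤ ‖s - 1‖ * (1 / s.re) := by positivity
    constructor <;> linarith
  have h10 : |(KWH_f s τ).im| ≤ π := by
    rw [KWH_fim hs, abs_le]
    have h11 := Real.neg_pi_div_two_lt_arctan ((s.im - τ) / s.re)
    have h12 := Real.arctan_lt_pi_div_two ((s.im - τ) / s.re)
    have h13 := Real.neg_pi_div_two_lt_arctan τ
    have h14 := Real.arctan_lt_pi_div_two τ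
    constructor <;> linarith
  exact (Complex.norm_le_abs_re_add_abs_im _).trans (add_le_add h8 h10)

private theorem KWH_meas (s : ℂ) : Measurable (KWH_f s) := by
  unfold KWH_f
  have h : Measurable (fun τ : ℝ => (τ : ℂ) * Complex.I) :=
    Complex.measurable_ofReal.mul_const _
  exact (Complex.measurable_log.comp (measurable_const.sub h)).sub
    (Complex.measurable_log.comp (measurable_const.sub h))

private theorem KWH_int (lam : Measure ℝ) [IsFiniteMeasure lam] {s : ℂ} (hs : 0 < s.re) :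
    Integrable (KWH_f s) lam :=
  Integrable.of_bound (KWH_meas s).aestronglyMeasurable _
    (Eventually.of_forall fun τ => KWH_bound hs τ)

private theorem KWH_cont (lam : Measure ℝ) [IsFiniteMeasure lam] {s : ℂ} (hs : 0 < s.re) :
    ContinuousAt (fun s => ∫ τ, KWH_f s τ ∂lam) s := by
  have hre : ∀ᶠ x : ℂ in 𝓝 s, 0 < x.re := Complex.continuous_re.continuousAt.eventually
    (lt_mem_nhds hs)
  have hB : ContinuousAt (fun s : ℂ => ‖s - 1‖ * (1 + 1 / s.re) + π) s := by
    refine ContinuousAt.add (ContinuousAt.mul ?_ ?_) continuousAt_const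
    · exact (continuousAt_id.sub continuousAt_const).norm
    · exact continuousAt_const.add
        (continuousAt_const.div Complex.continuous_re.continuousAt hs.ne')
  refine continuousAt_of_dominated
    (bound := fun _ => (‖s - 1‖ * (1 + 1 / s.re) + π) + 1)
    (Eventually.of_forall fun x => (KWH_meas x).aestronglyMeasurable) ?_
    (integrable_const _) ?_
  · filter_upwards [hre, hB.eventually (gt_mem_nhds (lt_add_one _))] with x hx hx2
    exact Eventually.of_forall fun τ => (KWH_bound hx τ).trans hx2.le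
  · refine Eventually.of_forall fun τ => ?_
    unfold KWH_f
    refine ContinuousAt.sub (ContinuousAt.clog (continuousAt_id.sub continuousAt_const) ?_)
      continuousAt_const
    rw [Complex.mem_slitPlane_iff]
    left
    show 0 < (s - τ * Complex.I).re
    rwa [KWH_re]

private theorem KWH_gim (lam : Measure ℝ) [IsFiniteMeasure lam] {s : ℂ} (hs : 0 < s.re) :
    (∫ τ, KWH_f s τ ∂lam).im = ∫ τ, (Real.arctan ((s.im - τ) / s.re) + Real.arctan τ) ∂lam := by
  have h := Complex.imCLM.integral_comp_comm (KWH_int lam hs)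
  simp only [Complex.imCLM_apply] at h
  rw [← h]
  exact integral_congr_ae (Eventually.of_forall fun τ => KWH_fim hs τ)

private theorem KWH_gre (lam : Measure ℝ) [IsFiniteMeasure lam] {s : ℂ} (hs : 0 < s.re) :
    (∫ τ, KWH_f s τ ∂lam).re = ∫ τ, (KWH_f s τ).re ∂lam := by
  have h := Complex.reCLM.integral_comp_comm (KWH_int lam hs)
  simp only [Complex.reCLM_apply] at h
  exact h.symm

/-- an integral of bounded measurable functions on a nonzero finite measure, strictly comparable -/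
private theorem KWH_lt {lam : Measure ℝ} [IsFiniteMeasure lam] (hne : lam ≠ 0) {f g : ℝ → ℝ}
    (hf : Integrable f lam) (hg : Integrable g lam) (h : ∀ τ, f τ < g τ) :
    ∫ τ, f τ ∂lam < ∫ τ, g τ ∂lam := by
  have h1 : 0 < ∫ τ, (g τ - f τ) ∂lam := by
    rw [integral_pos_iff_support_of_nonneg (f := fun τ => g τ - f τ) (fun τ => by
      have := h τ
      show (0 : ℝ) ≤ g τ - f τ
      linarith) (hg.sub hf)]
    have h2 : Function.support (fun τ => g τ - f τ) = univ := by
      rw [eq_univ_iff_forall]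
      intro τ
      rw [Function.mem_support]
      have := h τ
      exact (sub_pos.2 this).ne'
    rw [h2]
    exact pos_iff_ne_zero.2 (Measure.measure_univ_ne_zero.2 hne)
  rw [integral_sub hg hf] at h1
  linarith

private theorem KWH_atan_int (lam : Measure ℝ) [IsFiniteMeasure lam] {h : ℝ → ℝ}
    (hh : Measurable h) : Integrable (fun τ => Real.arctan (h τ) + Real.arctan τ) lam := by
  refine Integrable.of_bound (C := π) ?_ (Eventually.of_forall fun τ => ?_)
  · exact ((Real.measurable_arctan.comp hh).add Real.measurable_arctan).aestronglyMeasurable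
  · rw [Real.norm_eq_abs, abs_le]
    have h11 := Real.neg_pi_div_two_lt_arctan (h τ)
    have h12 := Real.arctan_lt_pi_div_two (h τ)
    have h13 := Real.neg_pi_div_two_lt_arctan τ
    have h14 := Real.arctan_lt_pi_div_two τ
    constructor <;> linarith

/-- the imaginary part at `σ + iη` -/
private def KWH_P (lam : Measure ℝ) (σ η : ℝ) : ℝ :=
  ∫ τ, (Real.arctan ((η - τ) / σ) + Real.arctan τ) ∂lam

private theorem KWH_mono {lam : Measure ℝ} [IsFiniteMeasure lam] (hne : lam ≠ 0) {σ : ℝ}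
    (hσ : 0 < σ) : StrictMono (KWH_P lam σ) := by
  intro η1 η2 h
  refine KWH_lt hne (KWH_atan_int lam (by fun_prop)) (KWH_atan_int lam (by fun_prop)) ?_
  intro τ
  have h1 : (η1 - τ) / σ < (η2 - τ) / σ := div_lt_div_of_pos_right (by linarith) hσ
  have := Real.arctan_strictMono h1
  linarith

/-- the constant `C` -/
private theorem KWH_C {lam : Measure ℝ} [IsFiniteMeasure lam] (hne : lam ≠ 0) :
    ∃ C > (0 : ℝ), ∀ σ : ℝ, 1 ≤ σ → 0 < KWH_P lam σ (C * σ) ∧ KWH_P lam σ (-(C * σ)) < 0 := by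
  have hT : ∀ τ : ℝ, Tendsto (fun C : ℝ => Real.arctan (C - |τ|)) atTop (𝓝 (π / 2)) := by
    intro τ
    have h1 : Tendsto (fun C : ℝ => C - |τ|) atTop atTop := tendsto_atTop_add_const_right _ _ tendsto_id
    exact (tendsto_nhds_of_tendsto_nhdsWithin Real.tendsto_arctan_atTop).comp h1
  have hpos : ∀ᶠ C : ℝ in atTop, 0 < ∫ τ, (Real.arctan (C - |τ|) + Real.arctan τ) ∂lam := by
    have h1 : Tendsto (fun C : ℝ => ∫ τ, (Real.arctan (C - |τ|) + Real.arctan τ) ∂lam) atTop
        (𝓝 (∫ τ, (π / 2 + Real.arctan τ) ∂lam)) := by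
      refine tendsto_integral_filter_of_dominated_convergence (fun _ => π)
        (Eventually.of_forall fun C =>
          (KWH_atan_int lam (h := fun τ => C - |τ|) (by fun_prop)).aestronglyMeasurable)
        (Eventually.of_forall fun C => Eventually.of_forall fun τ => ?_) (integrable_const _)
        (Eventually.of_forall fun τ => (hT τ).add_const _)
      rw [Real.norm_eq_abs, abs_le]
      have h11 := Real.neg_pi_div_two_lt_arctan (C - |τ|)
      have h12 := Real.arctan_lt_pi_div_two (C - |τ|)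
      have h13 := Real.neg_pi_div_two_lt_arctan τ
      have h14 := Real.arctan_lt_pi_div_two τ
      constructor <;> linarith
    refine h1.eventually (lt_mem_nhds ?_)
    have h2 : Integrable (fun τ : ℝ => π / 2 + Real.arctan τ) lam := by
      refine Integrable.of_bound (C := π)
        (measurable_const.add Real.measurable_arctan).aestronglyMeasurable
        (Eventually.of_forall fun τ => ?_)
      rw [Real.norm_eq_abs, abs_le]
      have h13 := Real.neg_pi_div_two_lt_arctan τ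
      have h14 := Real.arctan_lt_pi_div_two τ
      constructor <;> linarith
    have h3 := KWH_lt hne (f := fun _ => (0 : ℝ)) (integrable_zero ℝ ℝ lam) h2 (fun τ => by
      have h13 := Real.neg_pi_div_two_lt_arctan τ
      linarith)
    simpa using h3
  have hneg : ∀ᶠ C : ℝ in atTop, ∫ τ, (Real.arctan (-(C - |τ|)) + Real.arctan τ) ∂lam < 0 := by
    have h1 : Tendsto (fun C : ℝ => ∫ τ, (Real.arctan (-(C - |τ|)) + Real.arctan τ) ∂lam) atTop
        (𝓝 (∫ τ, (-(π / 2) + Real.arctan τ) ∂lam)) := by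
      refine tendsto_integral_filter_of_dominated_convergence (fun _ => π)
        (Eventually.of_forall fun C =>
          (KWH_atan_int lam (h := fun τ => -(C - |τ|)) (by fun_prop)).aestronglyMeasurable)
        (Eventually.of_forall fun C => Eventually.of_forall fun τ => ?_) (integrable_const _)
        (Eventually.of_forall fun τ => ?_)
      · rw [Real.norm_eq_abs, abs_le]
        have h11 := Real.neg_pi_div_two_lt_arctan (-(C - |τ|))
        have h12 := Real.arctan_lt_pi_div_two (-(C - |τ|))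
        have h13 := Real.neg_pi_div_two_lt_arctan τ
        have h14 := Real.arctan_lt_pi_div_two τ
        constructor <;> linarith
      · simp only [Real.arctan_neg]
        exact (hT τ).neg.add_const _
    refine h1.eventually (gt_mem_nhds ?_)
    have h2 : Integrable (fun τ : ℝ => -(π / 2) + Real.arctan τ) lam := by
      refine Integrable.of_bound (C := π)
        (measurable_const.add Real.measurable_arctan).aestronglyMeasurable
        (Eventually.of_forall fun τ => ?_)
      rw [Real.norm_eq_abs, abs_le]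
      have h13 := Real.neg_pi_div_two_lt_arctan τ
      have h14 := Real.arctan_lt_pi_div_two τ
      constructor <;> linarith
    have h3 := KWH_lt hne (g := fun _ => (0 : ℝ)) h2 (integrable_zero ℝ ℝ lam) (fun τ => by
      have h13 := Real.arctan_lt_pi_div_two τ
      linarith)
    simpa using h3
  obtain ⟨C, h1, h2, h3⟩ := ((hpos.and hneg).and (eventually_gt_atTop 0)).exists.imp
    fun C h => (⟨h.1.1, h.1.2, h.2⟩ : _ ∧ _ ∧ _)
  refine ⟨C, h3, fun σ hσ => ?_⟩
  have hσ0 : 0 < σ := by linarith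
  have hτσ : ∀ τ : ℝ, |τ / σ| ≤ |τ| := by
    intro τ
    rw [abs_div, abs_of_pos hσ0]
    exact div_le_self (abs_nonneg _) hσ
  constructor
  · refine h1.trans_le (integral_mono (KWH_atan_int lam (by fun_prop))
      (KWH_atan_int lam (by fun_prop)) fun τ => ?_)
    have h4 : (C * σ - τ) / σ = C - τ / σ := by field_simp
    have h5 : C - |τ| ≤ (C * σ - τ) / σ := by
      rw [h4]
      have := (le_abs_self (τ / σ)).trans (hτσ τ)
      linarith
    exact add_le_add (Real.arctan_strictMono.monotone h5) le_rfl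
  · refine lt_of_le_of_lt (integral_mono (KWH_atan_int lam (by fun_prop))
      (KWH_atan_int lam (by fun_prop)) fun τ => ?_) h2
    have h4 : (-(C * σ) - τ) / σ = -C - τ / σ := by field_simp
    have h5 : (-(C * σ) - τ) / σ ≤ -(C - |τ|) := by
      rw [h4]
      have := (neg_le_abs (τ / σ)).trans (hτσ τ)
      linarith
    exact add_le_add (Real.arctan_strictMono.monotone h5) le_rfl

/-- lower bound of the real part -/
private theorem KWH_low {s : ℂ} {C : ℝ} (hC : 0 < C) (hs : 1 ≤ s.re) (hη : |s.im| ≤ C * s.re)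
    (τ : ℝ) : -Real.log (3 + C) ≤ (KWH_f s τ).re ∧
      ∀ T : ℝ, 0 ≤ T → |τ| ≤ T → Real.log (s.re / (1 + T)) ≤ (KWH_f s τ).re := by
  have hs0 : 0 < s.re := by linarith
  have h1 := KWH_n1 hs0 τ
  have h2 := KWH_one τ
  have h3 : ‖1 - τ * Complex.I‖ ≤ 1 + |τ| := by
    refine (norm_sub_le _ _).trans ?_
    simp
  have h4 : |τ| ≤ ‖s - τ * Complex.I‖ + (1 + C) * s.re := by
    have h5 : ‖s‖ ≤ (1 + C) * s.re := by
      refine (Complex.norm_le_abs_re_add_abs_im s).trans ?_
      rw [abs_of_pos hs0]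
      linarith
    have h6 : ‖(τ : ℂ) * Complex.I‖ = |τ| := by simp
    have h7 : (τ : ℂ) * Complex.I = -(s - τ * Complex.I) + s := by ring
    rw [← h6]
    conv_lhs => rw [h7]
    refine (norm_add_le _ _).trans ?_
    rw [norm_neg]
    linarith
  rw [KWH_fre]
  set a := ‖s - τ * Complex.I‖ with ha
  set b := ‖1 - τ * Complex.I‖ with hb
  have ha0 : 0 < a := by linarith
  have hb0 : 0 < b := by linarith
  constructor
  · rw [neg_le_sub_iff_le_add, ← Real.log_mul (by positivity) (by positivity)]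
    refine Real.log_le_log hb0 ?_
    nlinarith
  · intro T hT hτ
    rw [Real.log_div hs0.ne' (by positivity)]
    have h8 := Real.log_le_log hs0 h1
    have h9 := Real.log_le_log hb0 (h3.trans (by linarith : 1 + |τ| ≤ 1 + T))
    linarith

/-- the real part tends to infinity -/
private theorem KWH_inf {lam : Measure ℝ} [IsFiniteMeasure lam] (hne : lam ≠ 0) {C : ℝ}
    (hC : 0 < C) (L : ℝ) : ∃ σ : ℝ, 1 ≤ σ ∧ ∀ s : ℂ, s.re = σ → |s.im| ≤ C * s.re →
      L ≤ (∫ τ, KWH_f s τ ∂lam).re := by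
  obtain ⟨T, hT, hTm⟩ : ∃ T : ℕ, 0 < T ∧ 0 < lam (Icc (-(T : ℝ)) T) := by
    by_contra hcon
    push Not at hcon
    apply hne
    rw [← Measure.measure_univ_eq_zero]
    have h1 : (univ : Set ℝ) ⊆ ⋃ T : ℕ, Icc (-((T + 1 : ℕ) : ℝ)) ((T + 1 : ℕ) : ℝ) := by
      intro x _
      obtain ⟨n, hn⟩ := exists_nat_ge |x|
      rw [mem_iUnion]
      refine ⟨n, ?_⟩
      rw [mem_Icc, ← abs_le]
      push_cast
      linarith
    refine measure_mono_null h1 (measure_iUnion_null fun T => ?_)
    exact le_antisymm (hcon (T + 1) (Nat.succ_pos T)) zero_le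
  set A : Set ℝ := Icc (-(T : ℝ)) T with hA
  have hTr : 0 < lam.real A := by
    rw [Measure.real, ENNReal.toReal_pos_iff]
    exact ⟨hTm, measure_lt_top _ _⟩
  set K := Real.log (3 + C) with hK
  have hK0 : 0 ≤ K := Real.log_nonneg (by linarith)
  have hlog : ∃ σ : ℝ, 1 + T ≤ σ ∧ (L + K * lam.real univ) / lam.real A ≤
      Real.log (σ / (1 + T)) := by
    have h1 : Tendsto (fun σ : ℝ => Real.log (σ / (1 + T))) atTop atTop :=
      Real.tendsto_log_atTop.comp (tendsto_id.atTop_div_const (by positivity))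
    exact ((eventually_ge_atTop (1 + (T : ℝ))).and (h1.eventually_ge_atTop _)).exists
  obtain ⟨σ, hσ, hσ2⟩ := hlog
  have hT0 : (0 : ℝ) ≤ T := Nat.cast_nonneg T
  refine ⟨σ, by linarith, fun s hs hη => ?_⟩
  have hs1 : 1 ≤ s.re := by linarith
  have hs0 : 0 < s.re := by linarith
  rw [KWH_gre lam hs0]
  have hl0 : 0 ≤ Real.log (σ / (1 + T)) := by
    apply Real.log_nonneg
    rw [le_div_iff₀ (by positivity)]
    linarith
  have h2 : ∫ τ, (A.indicator (fun _ => Real.log (σ / (1 + T))) τ - K) ∂lam ≤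
      ∫ τ, (KWH_f s τ).re ∂lam := by
    refine integral_mono ?_ ?_ fun τ => ?_
    · exact ((integrable_const _).indicator measurableSet_Icc).sub (integrable_const _)
    · exact (KWH_int lam hs0).re
    · obtain ⟨h3, h4⟩ := KWH_low hC hs1 hη τ
      simp only
      by_cases hτ : τ ∈ A
      · rw [indicator_of_mem hτ]
        have h5 := h4 T hT0 (abs_le.2 hτ)
        rw [hs] at h5
        linarith
      · rw [indicator_of_notMem hτ]
        linarith
  refine le_trans ?_ h2
  rw [integral_sub ((integrable_const _).indicator measurableSet_Icc) (integrable_const _),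
    integral_indicator_const _ measurableSet_Icc, integral_const, smul_eq_mul, smul_eq_mul]
  rw [div_le_iff₀ hTr] at hσ2
  rw [← hA]
  linarith

/-- (a)-(d): the half-plane statement -/
theorem KW_half (lam : Measure ℝ) [IsFiniteMeasure lam] (hne : lam ≠ 0) (v : ℝ) (hv : 1 < v) :
    ∃ s : ℂ, 0 < s.re ∧
      Complex.exp (∫ τ : ℝ, (Complex.log (s - τ * Complex.I) - Complex.log (1 - τ * Complex.I)) ∂lam)
        = v := by
  obtain ⟨C, hC, hCP⟩ := KWH_C hne
  have hPc : ∀ σ η : ℝ, 0 < σ → ContinuousAt (fun q : ℝ × ℝ => KWH_P lam q.1 q.2) (σ, η) := by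
    intro σ η hσ
    have h1 : ContinuousAt (fun q : ℝ × ℝ => (⟨q.1, q.2⟩ : ℂ)) (σ, η) :=
      Complex.equivRealProdCLM.symm.continuous.continuousAt
    have h2 : ContinuousAt (fun q : ℝ × ℝ => (∫ τ, KWH_f (⟨q.1, q.2⟩ : ℂ) τ ∂lam).im) (σ, η) :=
      Complex.continuous_im.continuousAt.comp
        (ContinuousAt.comp (f := fun q : ℝ × ℝ => (⟨q.1, q.2⟩ : ℂ))
          (g := fun s => ∫ τ, KWH_f s τ ∂lam) (KWH_cont lam (s := ⟨σ, η⟩) hσ) h1)
    refine h2.congr ?_
    have h3 : ∀ᶠ q : ℝ × ℝ in 𝓝 (σ, η), 0 < q.1 :=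
      continuousAt_fst.eventually (lt_mem_nhds hσ)
    filter_upwards [h3] with q hq
    rw [KWH_gim lam (s := ⟨q.1, q.2⟩) hq]
    rfl
  -- the zero of the imaginary part
  have hex : ∀ σ : ℝ, 1 ≤ σ → ∃ η : ℝ, |η| ≤ C * σ ∧ KWH_P lam σ η = 0 := by
    intro σ hσ
    have h0 : 0 ≤ C * σ := by nlinarith
    have h1 : ContinuousOn (KWH_P lam σ) (Icc (-(C * σ)) (C * σ)) := by
      intro η _
      have h2 : ContinuousAt (fun η : ℝ => ((σ, η) : ℝ × ℝ)) η :=
        (Continuous.prodMk_right σ).continuousAt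
      exact (ContinuousAt.comp (f := fun η : ℝ => ((σ, η) : ℝ × ℝ))
        (g := fun q : ℝ × ℝ => KWH_P lam q.1 q.2)
        (hPc σ η (by linarith)) h2).continuousWithinAt
    obtain ⟨η, hη, hη2⟩ := intermediate_value_Icc (by linarith) h1
      ⟨(hCP σ hσ).2.le, (hCP σ hσ).1.le⟩
    exact ⟨η, abs_le.2 hη, hη2⟩
  choose! η hη1 hη2 using hex
  have hηc : ∀ σ : ℝ, 1 ≤ σ → ContinuousWithinAt η (Ici 1) σ := by
    intro σ hσ
    have hσ0 : 0 < σ := by linarith
    rw [ContinuousWithinAt, tendsto_order]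
    have hline : ∀ c : ℝ, Tendsto (fun x : ℝ => KWH_P lam x c) (𝓝 σ) (𝓝 (KWH_P lam σ c)) := by
      intro c
      have h2 : ContinuousAt (fun x : ℝ => ((x, c) : ℝ × ℝ)) σ :=
        (Continuous.prodMk_left c).continuousAt
      exact ContinuousAt.comp (f := fun x : ℝ => ((x, c) : ℝ × ℝ))
        (g := fun q : ℝ × ℝ => KWH_P lam q.1 q.2) (hPc σ c hσ0) h2
    constructor
    · intro c hc
      have h1 : KWH_P lam σ c < 0 := by
        rw [← hη2 σ hσ]
        exact KWH_mono hne hσ0 hc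
      filter_upwards [nhdsWithin_le_nhds ((hline c).eventually (gt_mem_nhds h1)),
        self_mem_nhdsWithin] with x hx hx1
      have hx1' : (1 : ℝ) ≤ x := hx1
      rw [← hη2 x hx1'] at hx
      exact (KWH_mono hne (by linarith)).lt_iff_lt.1 hx
    · intro c hc
      have h1 : 0 < KWH_P lam σ c := by
        rw [← hη2 σ hσ]
        exact KWH_mono hne hσ0 hc
      filter_upwards [nhdsWithin_le_nhds ((hline c).eventually (lt_mem_nhds h1)),
        self_mem_nhdsWithin] with x hx hx1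
      have hx1' : (1 : ℝ) ≤ x := hx1
      rw [← hη2 x hx1'] at hx
      exact (KWH_mono hne (by linarith)).lt_iff_lt.1 hx
  obtain ⟨σ1, hσ1, hbig⟩ := KWH_inf hne hC (Real.log v)
  have hRc : ContinuousOn (fun σ : ℝ => (∫ τ, KWH_f (⟨σ, η σ⟩ : ℂ) τ ∂lam).re) (Icc 1 σ1) := by
    intro σ hσ
    have hσ0 : (0 : ℝ) < σ := by linarith [hσ.1]
    have h1 : ContinuousWithinAt (fun σ : ℝ => (⟨σ, η σ⟩ : ℂ)) (Icc 1 σ1) σ := by
      have h2 : ContinuousWithinAt (fun σ : ℝ => ((σ, η σ) : ℝ × ℝ)) (Icc 1 σ1) σ :=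
        continuousWithinAt_id.prodMk ((hηc σ hσ.1).mono Icc_subset_Ici_self)
      exact Complex.equivRealProdCLM.symm.continuous.continuousAt.comp_continuousWithinAt h2
    exact Complex.continuous_re.continuousAt.comp_continuousWithinAt
      (ContinuousAt.comp_continuousWithinAt (f := fun σ : ℝ => (⟨σ, η σ⟩ : ℂ))
        (g := fun s => ∫ τ, KWH_f s τ ∂lam) (KWH_cont lam (s := ⟨σ, η σ⟩) hσ0) h1)
  have hη1' : η 1 = 0 := by
    apply (KWH_mono hne one_pos).injective
    rw [hη2 1 le_rfl]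
    unfold KWH_P
    simp [Real.arctan_neg]
  have hR1 : (∫ τ, KWH_f (⟨1, η 1⟩ : ℂ) τ ∂lam).re = 0 := by
    rw [hη1']
    have h1 : (⟨1, 0⟩ : ℂ) = 1 := rfl
    rw [h1]
    unfold KWH_f
    simp
  obtain ⟨σ, hσ, hR⟩ := intermediate_value_Icc hσ1 hRc
    (show Real.log v ∈ _ from ⟨by
      rw [hR1]
      exact (Real.log_pos hv).le, hbig ⟨σ1, η σ1⟩ rfl (hη1 σ1 hσ1)⟩)
  have hσ0 : (0 : ℝ) < σ := by linarith [hσ.1]
  refine ⟨⟨σ, η σ⟩, hσ0, ?_⟩
  have hfin : (∫ τ, KWH_f (⟨σ, η σ⟩ : ℂ) τ ∂lam) = (Real.log v : ℂ) := by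
    apply Complex.ext
    · rw [Complex.ofReal_re]
      exact hR
    · rw [Complex.ofReal_im, KWH_gim lam (s := ⟨σ, η σ⟩) hσ0]
      exact hη2 σ hσ.1
  have hdef : (∫ τ : ℝ, (Complex.log ((⟨σ, η σ⟩ : ℂ) - τ * Complex.I) -
      Complex.log (1 - τ * Complex.I)) ∂lam) = ∫ τ, KWH_f (⟨σ, η σ⟩ : ℂ) τ ∂lam := rfl
  rw [hdef, hfin, ← Complex.ofReal_exp, Real.exp_log (by linarith)]

end

end Pool.H90.VK
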