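import Pool.Agent.H90.VK.LA
import Pool.Agent.H90.VK.KWH

/-!
# KW : moving a single negative atom takes every real value > 1 (change of variables; `KW_half` is in KWH)

Let `σ` be a finite measure on the circle, `|x| = 1`, `W z = exp (Lg σ z - σ(T) log (1 - conj x z))`.
If `W` omits some real `v > 1` on the disc, then `σ {x}ᶜ = 0`.

Proof. Suppose `σ {x}ᶜ ≠ 0`. Change variables: `s = (1 + conj x z)/(1 - conj x z)` maps the disc onto
`Re s > 0`, `z = x (s-1)/(s+1)`, `z = 0 ↔ s = 1`. For `ζ ≠ x`, `|ζ| = 1`, write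
`τ(ζ) = Im ((1 + conj x ζ)/(1 - conj x ζ))` (the quotient is purely imaginary, `= i τ`); then
`(1 - conj ζ z)/(1 - conj x z) = (s - iτ)/(1 - iτ)`.
Let `λ` be the image of `σ` restricted to `{x}ᶜ` under `τ` (a finite nonzero measure on `ℝ`) and
`g(s) = ∫ (log (s - iτ) - log (1 - iτ)) dλ(τ)` (principal logarithms of numbers with positive
real part). Then `Lg σ z - σ(T) log (1 - conj x z) = g(s)`
[for each `ζ`: `log (1 - conj ζ z) - log (1 - conj x z) = log (s-iτ) - log (1-iτ)`: both sides have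
the same exponential, and both sides are continuous in `z` and vanish at `z = 0`; or: the imaginary
parts of both sides are in `(-π, π)`, so they agree], so `W = exp (g s)`.
(a) For fixed `σ₀ = Re s > 0`, with `s = σ₀ + iη`: `Im g = ∫ (arctan ((η-τ)/σ₀) + arctan τ) dλ(τ)`
is continuous and strictly increasing in `η`, negative for `η → -∞` (limit `∫ (-π/2 + arctan τ) < 0`)
and positive for `η → +∞`. So there is a unique `η(σ₀)` with `Im g = 0`; `η(1) = 0`;
`η(·)` is continuous on `[1, ∞)` (strict monotonicity: `η(σ₀) ∈ (η₁, η₂)` iff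
`Im g(σ₀+iη₁) < 0 < Im g(σ₀+iη₂)`, an open condition in `σ₀`).
(b) `|η(σ₀)| ≤ C σ₀` for `σ₀ ≥ 1`, some `C`: choose `T` and `δ > 0` with
`∫_{|τ| ≤ T} (π/2 - δ + arctan τ) dλ - π λ(|τ| > T) > 0` (possible: `∫ (π/2 + arctan τ) dλ > 0`),
and `C` with `arctan (C - T) ≥ π/2 - δ`; if `η > C σ₀` then for `|τ| ≤ T`,
`(η - τ)/σ₀ ≥ C - T`, so `Im g > 0`. Symmetric for `η < -C σ₀`.
(c) `R(σ₀) = Re g (σ₀ + iη(σ₀)) = ∫ log (|s-iτ|/|1-iτ|) dλ` is continuous, `R(1) = 0`, and
`R(σ₀) → ∞` as `σ₀ → ∞`: for `|τ| ≤ 2Cσ₀`, `|s-iτ|²/(1+τ²) ≥ σ₀²/(1+4C²σ₀²) ≥ 1/(1+4C²)`; for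
`|τ| > 2Cσ₀`, `|η - τ| ≥ |τ|/2` so `|s-iτ|²/(1+τ²) ≥ (τ²/4)/(1+τ²) ≥ 1/8` (take `C ≥ 1`);
for `|τ| ≤ T'` (with `λ([-T', T']) > 0`) `|s-iτ|/|1-iτ| ≥ σ₀/√(1+T'²)`. So
`R(σ₀) ≥ λ([-T',T']) log (σ₀/√(1+T'²)) - C' λ(ℝ) → ∞`.
(d) by the intermediate value theorem `R(σ₀) = log v` for some `σ₀ ≥ 1`, and `W = e^{R} = v` there.
-/

open MeasureTheory Set Filter Topology Metric
open scoped Real ENNReal ComplexConjugate

namespace Pool.H90.VK

noncomputable section

theorem KW_log_div {A B : ℂ} (hA : 0 < A.re) (hB : 0 < B.re) :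
    Complex.log A - Complex.log B = Complex.log (A / B) := by
  have hA0 : A ≠ 0 := by rintro rfl; simp at hA
  have hB0 : B ≠ 0 := by rintro rfl; simp at hB
  have h1 := abs_lt.1 (Complex.abs_arg_lt_pi_div_two_iff.2 (Or.inl hA))
  have h2 := abs_lt.1 (Complex.abs_arg_lt_pi_div_two_iff.2 (Or.inl hB))
  have h3 : (Complex.log A - Complex.log B).im = A.arg - B.arg := by
    rw [Complex.sub_im, Complex.log_im, Complex.log_im]
  rw [← Complex.log_exp (x := Complex.log A - Complex.log B) (by rw [h3]; linarith)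
    (by rw [h3]; linarith), Complex.exp_sub, Complex.exp_log hA0, Complex.exp_log hB0]

theorem KW_tau {w : ℂ} (hw : ‖w‖ = 1) :
    ((1 + w) / (1 - w)) = (((1 + w) / (1 - w)).im : ℂ) * Complex.I := by
  have h0 : ((1 + w) / (1 - w)).re = 0 := by
    rw [Complex.div_re]
    have h1 : w.re ^ 2 + w.im ^ 2 = 1 := by
      have := Complex.sq_norm w
      rw [hw, Complex.normSq_apply] at this
      nlinarith
    rw [← add_div]
    have h2 : (1 + w).re * (1 - w).re + (1 + w).im * (1 - w).im = 0 := by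
      simp
      linear_combination -h1
    rw [h2, zero_div]
  apply Complex.ext
  · rw [h0]; simp
  · simp

theorem KW_point {ζ x s : ℂ} (hζ : ‖ζ‖ = 1) (hx : ‖x‖ = 1) (hne : ζ ≠ x) (hs : 0 < s.re)
    (hz : ‖x * ((s - 1) / (s + 1))‖ < 1) :
    Complex.log (s - (((1 + conj x * ζ) / (1 - conj x * ζ)).im : ℂ) * Complex.I)
      - Complex.log (1 - (((1 + conj x * ζ) / (1 - conj x * ζ)).im : ℂ) * Complex.I)
      = Complex.log (1 - conj ζ * (x * ((s - 1) / (s + 1))))
        - Complex.log (1 - conj x * (x * ((s - 1) / (s + 1)))) := by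
  have hxx : conj x * x = 1 := by
    rw [mul_comm, Complex.mul_conj, Complex.normSq_eq_norm_sq, hx]; norm_num
  have hζζ : conj ζ * ζ = 1 := by
    rw [mul_comm, Complex.mul_conj, Complex.normSq_eq_norm_sq, hζ]; norm_num
  have hw : ‖conj x * ζ‖ = 1 := by
    rw [norm_mul, RCLike.norm_conj, hx, hζ, one_mul]
  have hw1 : 1 - conj x * ζ ≠ 0 := by
    intro h0
    apply hne
    have h1 : conj x * ζ = 1 := (sub_eq_zero.1 h0).symm
    have h2 : x * (conj x * ζ) = x := by rw [h1, mul_one]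
    rw [← mul_assoc, mul_comm x, hxx, one_mul] at h2
    exact h2
  have hs1 : s + 1 ≠ 0 := by
    intro h0
    have := congrArg Complex.re h0
    simp at this
    linarith
  set t : ℝ := ((1 + conj x * ζ) / (1 - conj x * ζ)).im with ht
  have hq : (t : ℂ) * Complex.I = (1 + conj x * ζ) / (1 - conj x * ζ) := (KW_tau hw).symm
  have hA : 0 < (s - (t : ℂ) * Complex.I).re := by simpa using hs
  have hB : 0 < (1 - (t : ℂ) * Complex.I).re := by simp
  have hC := LA_re_pos hζ hz
  have hD := LA_re_pos hx hz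
  rw [KW_log_div hA hB, KW_log_div hC hD]
  congr 1
  have hB0 : (1 - (t : ℂ) * Complex.I) ≠ 0 := by
    intro h0; rw [h0] at hB; simp at hB
  have hD0 : (1 - conj x * (x * ((s - 1) / (s + 1)))) ≠ 0 := by
    intro h0; rw [h0] at hD; simp at hD
  rw [div_eq_div_iff hB0 hD0, hq, ← mul_assoc (conj x) x, hxx, one_mul]
  field_simp
  linear_combination (-2 * (s - 1) * (conj x * x)) * hζζ + (-2 * (s - 1)) * hxx

theorem KW (σ : Measure ℂ) [IsFiniteMeasure σ] (hσ : OnCircle σ) {x : ℂ} (hx : ‖x‖ = 1) (v : ℝ)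
    (hv : 1 < v)
    (h : ∀ z ∈ ball (0 : ℂ) 1,
      Complex.exp (Lg σ z - σ.real univ * Complex.log (1 - conj x * z)) ≠ v) :
    σ {x}ᶜ = 0 := by
  by_contra hcon
  set τ : ℂ → ℝ := fun ζ => ((1 + conj x * ζ) / (1 - conj x * ζ)).im with hτ
  have hτm : Measurable τ := by
    have h1 : Measurable (fun ζ : ℂ => (1 + conj x * ζ) / (1 - conj x * ζ)) :=
      (measurable_const.add (measurable_const.mul measurable_id)).div
        (measurable_const.sub (measurable_const.mul measurable_id))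
    exact Complex.measurable_im.comp h1
  set lam : Measure ℝ := Measure.map τ (σ.restrict {x}ᶜ) with hlam
  have hne : lam ≠ 0 := by
    intro h0
    apply hcon
    have h1 : lam univ = 0 := by rw [h0]; simp
    rw [hlam, Measure.map_apply hτm MeasurableSet.univ, preimage_univ,
      Measure.restrict_apply_univ] at h1
    exact h1
  obtain ⟨s, hs, hval⟩ := KW_half lam hne v hv
  have hs1 : s + 1 ≠ 0 := by
    intro h0
    have := congrArg Complex.re h0
    simp at this
    linarith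
  set z : ℂ := x * ((s - 1) / (s + 1)) with hz
  have hzn : ‖z‖ < 1 := by
    rw [hz, norm_mul, hx, one_mul, norm_div, div_lt_one (norm_pos_iff.2 hs1)]
    apply lt_of_pow_lt_pow_left₀ 2 (norm_nonneg _)
    rw [Complex.sq_norm, Complex.sq_norm, Complex.normSq_apply, Complex.normSq_apply]
    simp
    nlinarith
  apply h z (by rw [mem_ball_zero_iff]; exact hzn)
  rw [← hval]
  congr 1
  -- the two exponents agree
  have hF : AEStronglyMeasurable (fun τ : ℝ => Complex.log (s - τ * Complex.I)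
      - Complex.log (1 - τ * Complex.I)) (Measure.map τ (σ.restrict {x}ᶜ)) := by
    apply Measurable.aestronglyMeasurable
    exact (Complex.measurable_log.comp (measurable_const.sub
      (Complex.measurable_ofReal.mul measurable_const))).sub
      (Complex.measurable_log.comp (measurable_const.sub
      (Complex.measurable_ofReal.mul measurable_const)))
  rw [hlam, integral_map hτm.aemeasurable hF]
  have hcirc : ∀ᵐ ζ ∂σ, ‖ζ‖ = 1 := LA_ae_norm hσ
  have hmeas : MeasurableSet ({x}ᶜ : Set ℂ) := (measurableSet_singleton x).compl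
  have e1 : ∫ ζ in {x}ᶜ, (Complex.log (s - (τ ζ) * Complex.I)
      - Complex.log (1 - (τ ζ) * Complex.I)) ∂σ
      = ∫ ζ in {x}ᶜ, (Complex.log (1 - conj ζ * z) - Complex.log (1 - conj x * z)) ∂σ := by
    apply setIntegral_congr_ae hmeas
    filter_upwards [hcirc] with ζ hζ hζx
    exact KW_point hζ hx hζx hs hzn
  rw [e1]
  have e2 : ∫ ζ in {x}ᶜ, (Complex.log (1 - conj ζ * z) - Complex.log (1 - conj x * z)) ∂σ
      = ∫ ζ, (Complex.log (1 - conj ζ * z) - Complex.log (1 - conj x * z)) ∂σ := by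
    apply setIntegral_eq_integral_of_forall_compl_eq_zero
    intro ζ hζ
    have : ζ = x := by simpa using hζ
    rw [this, sub_self]
  rw [e2, integral_sub (LA_integrable σ hσ hzn) (integrable_const _), integral_const]
  rfl

end

end Pool.H90.VK
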