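import Pool.Agent.H90.VK.Defs

/-!
# LA : basic facts on `Lg`

All are elementary. For `‖z‖ < 1` and `‖ζ‖ = 1` the number `1 - conj ζ * z` has positive real part
`≥ 1 - ‖z‖`, so it is in `Complex.slitPlane`, `|arg| < π/2`, `1 - ‖z‖ ≤ ‖1 - conj ζ z‖ ≤ 2`.

* `LA_integrable`: the integrand is measurable in `ζ` and bounded on the circle (μ-a.e.).
* `LA_hasDerivAt`: differentiation under the integral (`hasDerivAt_integral_of_dominated_loc_of_deriv_le`),
  on the ball of radius `(1-‖z‖)/2` around `z` the derivative of the integrand is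
  `- conj ζ / (1 - conj ζ w)`, bounded by `2/(1-‖z‖)`.
* `LA_kg`: `z * (- conj ζ/(1 - conj ζ z)) = -(1/2) * ((ζ+z)/(ζ-z) - 1)` for `‖ζ‖ = 1`
  (multiply numerator and denominator by `ζ`, `ζ * conj ζ = 1`).
* `LA_im`, `LA_im_le`: `Im log = arg`, `|arg| ≤ π/2`.
* `LA_im_lt`: `|Im Lg| = |∫ arg| ≤ ∫ |arg| < (π/2) μ(T)` since `|arg| < π/2` everywhere and `μ ≠ 0`.
-/

open MeasureTheory Set Filter Topology Metric
open scoped Real ENNReal ComplexConjugate

namespace Pool.H90.VK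

noncomputable section

theorem LA_ae_norm {μ : Measure ℂ} (hμ : OnCircle μ) : ∀ᵐ ζ ∂μ, ‖ζ‖ = 1 := by
  have h := (measure_eq_zero_iff_ae_notMem).1 hμ
  filter_upwards [h] with ζ hζ
  rw [Set.notMem_compl_iff, mem_sphere_zero_iff_norm] at hζ
  exact hζ

theorem LA_re_ge {ζ z : ℂ} (hζ : ‖ζ‖ = 1) : 1 - ‖z‖ ≤ (1 - conj ζ * z).re := by
  have h1 := Complex.re_le_norm (conj ζ * z)
  rw [norm_mul, RCLike.norm_conj, hζ, one_mul] at h1
  rw [Complex.sub_re, Complex.one_re]
  linarith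

theorem LA_re_pos {ζ z : ℂ} (hζ : ‖ζ‖ = 1) (hz : ‖z‖ < 1) : 0 < (1 - conj ζ * z).re := by
  have := LA_re_ge (z := z) hζ
  linarith

theorem LA_norm_ge {ζ z : ℂ} (hζ : ‖ζ‖ = 1) : 1 - ‖z‖ ≤ ‖1 - conj ζ * z‖ :=
  (LA_re_ge hζ).trans (Complex.re_le_norm _)

theorem LA_slit {ζ z : ℂ} (hζ : ‖ζ‖ = 1) (hz : ‖z‖ < 1) :
    1 - conj ζ * z ∈ Complex.slitPlane := Or.inl (LA_re_pos hζ hz)

theorem LA_integrable (μ : Measure ℂ) [IsFiniteMeasure μ] (hμ : OnCircle μ) {z : ℂ} (hz : ‖z‖ < 1) :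
    Integrable (fun ζ => Complex.log (1 - conj ζ * z)) μ := by
  have hK : ContinuousOn (fun ζ : ℂ => Complex.log (1 - conj ζ * z)) (sphere 0 1) := by
    intro ζ hζ
    rw [mem_sphere_zero_iff_norm] at hζ
    have h1 : ContinuousAt (fun ζ : ℂ => 1 - conj ζ * z) ζ := by
      have := Complex.continuous_conj
      fun_prop
    exact (h1.clog (LA_slit hζ hz)).continuousWithinAt
  obtain ⟨C, hC⟩ := (isCompact_sphere (0 : ℂ) 1).exists_bound_of_continuousOn hK
  refine Integrable.of_bound ?_ C ?_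
  · refine (Complex.measurable_log.comp ?_).aestronglyMeasurable
    exact (continuous_const.sub (Complex.continuous_conj.mul continuous_const)).measurable
  · filter_upwards [LA_ae_norm hμ] with ζ hζ
    exact hC ζ (mem_sphere_zero_iff_norm.2 hζ)

theorem LA_deriv (μ : Measure ℂ) [IsFiniteMeasure μ] (hμ : OnCircle μ) {z : ℂ}
    (hz : ‖z‖ < 1) :
    Integrable (fun ζ => -(conj ζ) / (1 - conj ζ * z)) μ ∧
    HasDerivAt (Lg μ) (∫ ζ, -(conj ζ) / (1 - conj ζ * z) ∂μ) z := by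
  have hr : 0 < (1 - ‖z‖) / 2 := by linarith
  have hw : ∀ w ∈ ball z ((1 - ‖z‖) / 2), ‖w‖ < 1 ∧ (1 - ‖z‖) / 2 ≤ 1 - ‖w‖ := by
    intro w hw
    rw [mem_ball, dist_eq_norm] at hw
    have h1 : ‖w‖ ≤ ‖w - z‖ + ‖z‖ := by
      have := norm_add_le (w - z) z
      rwa [sub_add_cancel] at this
    constructor <;> linarith
  refine hasDerivAt_integral_of_dominated_loc_of_deriv_le (s := ball z ((1 - ‖z‖) / 2))
    (F := fun w ζ => Complex.log (1 - conj ζ * w)) (F' := fun w ζ => -(conj ζ) / (1 - conj ζ * w))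
    (bound := fun _ => 1 / ((1 - ‖z‖) / 2)) (ball_mem_nhds z hr) ?_ (LA_integrable μ hμ hz) ?_ ?_
    (integrable_const _) ?_
  · refine Eventually.of_forall (fun w => (Complex.measurable_log.comp ?_).aestronglyMeasurable)
    exact (continuous_const.sub (Complex.continuous_conj.mul continuous_const)).measurable
  · refine Measurable.aestronglyMeasurable ?_
    refine Measurable.div ?_ ?_
    · exact Complex.continuous_conj.measurable.neg
    · exact (continuous_const.sub (Complex.continuous_conj.mul continuous_const)).measurable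
  · filter_upwards [LA_ae_norm hμ] with ζ hζ w hw'
    obtain ⟨h1, h2⟩ := hw w hw'
    rw [norm_div, norm_neg, RCLike.norm_conj, hζ]
    have h3 := LA_norm_ge (z := w) hζ
    exact one_div_le_one_div_of_le hr (h2.trans h3)
  · filter_upwards [LA_ae_norm hμ] with ζ hζ w hw'
    obtain ⟨h1, h2⟩ := hw w hw'
    have h3 : HasDerivAt (fun w : ℂ => 1 - conj ζ * w) (-(conj ζ)) w := by
      simpa using ((hasDerivAt_id w).const_mul (conj ζ)).const_sub 1
    exact h3.clog (LA_slit hζ h1)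

theorem LA_hasDerivAt (μ : Measure ℂ) [IsFiniteMeasure μ] (hμ : OnCircle μ) {z : ℂ}
    (hz : ‖z‖ < 1) :
    HasDerivAt (Lg μ) (∫ ζ, -(conj ζ) / (1 - conj ζ * z) ∂μ) z := (LA_deriv μ hμ hz).2

theorem LA_diff (μ : Measure ℂ) [IsFiniteMeasure μ] (hμ : OnCircle μ) :
    DifferentiableOn ℂ (Lg μ) (ball (0 : ℂ) 1) := by
  intro z hz
  rw [mem_ball_zero_iff] at hz
  exact (LA_hasDerivAt μ hμ hz).differentiableAt.differentiableWithinAt

theorem LA_zero (μ : Measure ℂ) : Lg μ 0 = 0 := by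
  simp [Lg]

theorem LA_kg (μ : Measure ℂ) [IsFiniteMeasure μ] (hμ : OnCircle μ) {z : ℂ} (hz : ‖z‖ < 1) :
    z * deriv (Lg μ) z = -(1 / 2) * (Kg μ z - (μ.real univ : ℂ)) := by
  obtain ⟨hi, hd⟩ := LA_deriv μ hμ hz
  have hpt : ∀ᵐ ζ ∂μ, (ζ + z) / (ζ - z) = 1 - 2 * (z * (-(conj ζ) / (1 - conj ζ * z))) := by
    filter_upwards [LA_ae_norm hμ] with ζ hζ
    have h1 : ζ * conj ζ = 1 := by
      rw [Complex.mul_conj, Complex.normSq_eq_norm_sq, hζ]
      norm_num
    have h2 : 1 - conj ζ * z ≠ 0 := by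
      intro h0
      have := LA_re_pos hζ hz
      rw [h0] at this
      simp at this
    have h3 : ζ - z ≠ 0 := by
      intro h0
      rw [sub_eq_zero] at h0
      rw [← h0, hζ] at hz
      exact lt_irrefl _ hz
    have h4 : ζ - z = ζ * (1 - conj ζ * z) := by
      rw [mul_sub, mul_one, ← mul_assoc, h1, one_mul]
    have hζ0 : ζ ≠ 0 := by
      intro h0
      rw [h0, norm_zero] at hζ
      exact zero_ne_one hζ
    rw [h4, div_eq_iff (mul_ne_zero hζ0 h2)]
    have h5 : (1 - 2 * (z * (-(conj ζ) / (1 - conj ζ * z)))) * (ζ * (1 - conj ζ * z)) =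
        ζ * (1 - conj ζ * z) + 2 * z * (ζ * conj ζ) := by
      have h6 : -(conj ζ) / (1 - conj ζ * z) * (1 - conj ζ * z) = -(conj ζ) := div_mul_cancel₀ _ h2
      linear_combination (-2 * z * ζ) * h6
    rw [h5, h1]
    linear_combination z * h1
  have hK : Kg μ z = ∫ ζ, (1 - 2 * (z * (-(conj ζ) / (1 - conj ζ * z)))) ∂μ :=
    integral_congr_ae hpt
  rw [hK, integral_sub (integrable_const _) ((hi.const_mul z).const_mul 2), integral_const_mul,
    integral_const_mul, hd.deriv, integral_const]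
  rw [Complex.real_smul, mul_one]
  ring

/-- integrability of the (bounded) argument, at every point of the closed disc -/
theorem LA_arg_integrable (μ : Measure ℂ) [IsFiniteMeasure μ] (z : ℂ) :
    Integrable (fun ζ => Complex.arg (1 - conj ζ * z)) μ := by
  refine Integrable.of_bound ?_ π ?_
  · refine (Complex.measurable_arg.comp ?_).aestronglyMeasurable
    exact (continuous_const.sub (Complex.continuous_conj.mul continuous_const)).measurable
  · exact Eventually.of_forall (fun ζ => Complex.abs_arg_le_pi _)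

theorem LA_im (μ : Measure ℂ) [IsFiniteMeasure μ] (hμ : OnCircle μ) {z : ℂ} (hz : ‖z‖ < 1) :
    (Lg μ z).im = Ag μ z := by
  have h := Complex.imCLM.integral_comp_comm (LA_integrable μ hμ hz)
  simp only [Complex.imCLM_apply, Complex.log_im] at h
  exact h.symm

theorem LA_im_le (μ : Measure ℂ) [IsFiniteMeasure μ] (hμ : OnCircle μ) {z : ℂ} (hz : ‖z‖ ≤ 1) :
    |Ag μ z| ≤ π / 2 * μ.real univ := by
  rw [← Real.norm_eq_abs]
  refine norm_integral_le_of_norm_le_const ?_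
  filter_upwards [LA_ae_norm hμ] with ζ hζ
  rw [Real.norm_eq_abs, Complex.abs_arg_le_pi_div_two_iff]
  have := LA_re_ge (z := z) hζ
  linarith

theorem LA_im_lt (μ : Measure ℂ) [IsFiniteMeasure μ] (hμ : OnCircle μ) {z : ℂ} (hz : ‖z‖ < 1)
    (hpos : 0 < μ.real univ) : |(Lg μ z).im| < π / 2 * μ.real univ := by
  rw [LA_im μ hμ hz]
  have hK : ContinuousOn (fun ζ : ℂ => |Complex.arg (1 - conj ζ * z)|) (sphere 0 1) := by
    intro ζ hζ
    rw [mem_sphere_zero_iff_norm] at hζ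
    have h1 : ContinuousAt (fun ζ : ℂ => 1 - conj ζ * z) ζ := by
      have := Complex.continuous_conj
      fun_prop
    have h2 : ContinuousAt (fun ζ : ℂ => Complex.arg (1 - conj ζ * z)) ζ :=
      ContinuousAt.comp (g := Complex.arg) (Complex.continuousAt_arg (LA_slit hζ hz)) h1
    exact h2.abs.continuousWithinAt
  obtain ⟨ζ₀, hζ₀, hmax⟩ := (isCompact_sphere (0 : ℂ) 1).exists_isMaxOn
    ⟨1, by simp⟩ hK
  rw [mem_sphere_zero_iff_norm] at hζ₀
  have hlt : |Complex.arg (1 - conj ζ₀ * z)| < π / 2 :=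
    Complex.abs_arg_lt_pi_div_two_iff.2 (Or.inl (LA_re_pos hζ₀ hz))
  have h3 : ‖Ag μ z‖ ≤ |Complex.arg (1 - conj ζ₀ * z)| * μ.real univ := by
    refine norm_integral_le_of_norm_le_const ?_
    filter_upwards [LA_ae_norm hμ] with ζ hζ
    exact hmax (mem_sphere_zero_iff_norm.2 hζ)
  rw [Real.norm_eq_abs] at h3
  exact h3.trans_lt (mul_lt_mul_of_pos_right hlt hpos)

theorem LA_add (μ ν : Measure ℂ) [IsFiniteMeasure μ] [IsFiniteMeasure ν] (hμ : OnCircle μ)
    (hν : OnCircle ν) {z : ℂ} (hz : ‖z‖ < 1) : Lg (μ + ν) z = Lg μ z + Lg ν z :=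
  integral_add_measure (LA_integrable μ hμ hz) (LA_integrable ν hν hz)

theorem LA_dirac (c : ℝ) (hc : 0 ≤ c) (x z : ℂ) :
    Lg (ENNReal.ofReal c • Measure.dirac x) z = c * Complex.log (1 - conj x * z) := by
  unfold Lg
  rw [integral_smul_measure, integral_dirac, ENNReal.toReal_ofReal hc, Complex.real_smul]

theorem LA_ag_add (μ ν : Measure ℂ) [IsFiniteMeasure μ] [IsFiniteMeasure ν] (z : ℂ) :
    Ag (μ + ν) z = Ag μ z + Ag ν z :=
  integral_add_measure (LA_arg_integrable μ z) (LA_arg_integrable ν z)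

theorem LA_ag_dirac (c : ℝ) (hc : 0 ≤ c) (x z : ℂ) :
    Ag (ENNReal.ofReal c • Measure.dirac x) z = c * Complex.arg (1 - conj x * z) := by
  unfold Ag
  rw [integral_smul_measure, integral_dirac, ENNReal.toReal_ofReal hc, smul_eq_mul]

end

end Pool.H90.VK
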