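import Pool.Agent.H90.VK.LA

/-!
# LIN : measures on the circle as measures on `(-π, π)`

`lin μ = (μ.restrict {-1}ᶜ).map arg`: on the circle `arg` is injective with inverse `θ ↦ e^{iθ}`, and
`arg ζ ∈ (-π, π)` for `ζ ≠ -1`.
`TCB_pot`: `{θ : e^{iθ} ∈ potInf μ}` is Lebesgue-null, because (Tonelli)
`∫_{-π}^{π} ∫ log (2/|ξ - e^{iθ}|) dμ(ξ) dθ = ∫ (∫_{-π}^{π} log (2/|ξ - e^{iθ}|) dθ) dμ(ξ) < ∞`:
the inner integral is the same for all `|ξ| = 1` (rotation, periodicity) and
`log (2/x) ≤ 2 √2 x^{-1/2}` for `0 < x ≤ 2`, `|1 - e^{iθ}| ≥ 2|θ|/π`, so it is finite.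
-/

open MeasureTheory Set Filter Topology Metric
open scoped Real ENNReal ComplexConjugate

namespace Pool.H90.VK

noncomputable section

/-- image on the line of a measure on the circle, with the point `-1` removed -/
def lin (μ : Measure ℂ) : Measure ℝ := (μ.restrict {(-1 : ℂ)}ᶜ).map Complex.arg

theorem TCB_lin_finite (μ : Measure ℂ) [IsFiniteMeasure μ] : IsFiniteMeasure (lin μ) := by
  unfold lin
  infer_instance

theorem LIN_circle {ζ : ℂ} (h : ‖ζ‖ = 1) : ζ = Complex.exp ((Complex.arg ζ : ℝ) * Complex.I) := by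
  have := Complex.norm_mul_exp_arg_mul_I ζ
  rw [h] at this
  simpa using this.symm

theorem LIN_arg_mem {ζ : ℂ} (h : ‖ζ‖ = 1) (h1 : ζ ≠ -1) : Complex.arg ζ ∈ Ioo (-π) π := by
  refine ⟨Complex.neg_pi_lt_arg ζ, lt_of_le_of_ne (Complex.arg_le_pi ζ) ?_⟩
  intro h2
  apply h1
  rw [LIN_circle h, h2, Complex.exp_pi_mul_I]

theorem TCB_lin_carrier (μ : Measure ℂ) [IsFiniteMeasure μ] (hμ : OnCircle μ) :
    lin μ (Ioo (-π) π)ᶜ = 0 := by
  unfold lin
  rw [Measure.map_apply Complex.measurable_arg measurableSet_Ioo.compl,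
    Measure.restrict_apply (Complex.measurable_arg measurableSet_Ioo.compl)]
  refine measure_mono_null ?_ hμ
  rintro ζ ⟨h1, h2⟩ h3
  apply h1
  exact LIN_arg_mem (by simpa using h3) h2

theorem TCB_lin_univ (μ : Measure ℂ) [IsFiniteMeasure μ] :
    (lin μ).real univ = μ.real univ - μ.real {(-1 : ℂ)} := by
  have h1 : (lin μ).real univ = μ.real {(-1 : ℂ)}ᶜ := by
    unfold lin Measure.real
    rw [Measure.map_apply Complex.measurable_arg MeasurableSet.univ, preimage_univ,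
      Measure.restrict_apply MeasurableSet.univ, univ_inter]
  rw [h1, measureReal_compl (measurableSet_singleton _)]

theorem TCB_lin_singleton (μ : Measure ℂ) [IsFiniteMeasure μ] (hμ : OnCircle μ) {θ : ℝ}
    (hθ : θ ∈ Ioo (-π) π) : lin μ {θ} = μ {Complex.exp (θ * Complex.I)} := by
  unfold lin
  rw [Measure.map_apply Complex.measurable_arg (measurableSet_singleton _),
    Measure.restrict_apply (Complex.measurable_arg (measurableSet_singleton _))]
  apply measure_congr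
  have hae : ∀ᵐ ζ ∂μ, ‖ζ‖ = 1 := by
    have h0 : μ (sphere (0 : ℂ) 1)ᶜ = 0 := hμ
    rw [ae_iff]
    convert h0 using 2
    ext ζ
    simp
  filter_upwards [hae] with ζ hζ
  apply propext
  constructor
  · rintro ⟨h1, h2⟩
    have h1' : Complex.arg ζ = θ := h1
    change ζ = _
    rw [← h1']
    exact LIN_circle hζ
  · intro h
    have h' : ζ = Complex.exp (θ * Complex.I) := h
    have h3 : Complex.arg ζ = θ := by
      rw [h', Complex.arg_exp_mul_I, toIocMod_eq_self (by exact Real.two_pi_pos)]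
      exact ⟨hθ.1, by have := hθ.2; linarith [Real.pi_pos]⟩
    refine ⟨h3, ?_⟩
    intro h4
    have h4' : ζ = -1 := h4
    rw [h4', Complex.arg_neg_one] at h3
    exact absurd h3 (ne_of_gt hθ.2)

theorem LIN_norm (ξ : ℂ) (h : ‖ξ‖ = 1) (θ : ℝ) :
    ‖ξ - Complex.exp (θ * Complex.I)‖ = 2 * |Real.sin ((θ - Complex.arg ξ) / 2)| := by
  have e1 : ξ - Complex.exp (θ * Complex.I) =
      -(ξ * (Complex.exp (Complex.I * ((θ - Complex.arg ξ : ℝ) : ℂ)) - 1)) := by
    have h2 : Complex.exp (θ * Complex.I) =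
        ξ * Complex.exp (Complex.I * ((θ - Complex.arg ξ : ℝ) : ℂ)) := by
      have e3 : ξ * Complex.exp (Complex.I * ((θ - Complex.arg ξ : ℝ) : ℂ)) =
          Complex.exp ((Complex.arg ξ : ℝ) * Complex.I) *
            Complex.exp (Complex.I * ((θ - Complex.arg ξ : ℝ) : ℂ)) :=
        congrArg (· * Complex.exp (Complex.I * ((θ - Complex.arg ξ : ℝ) : ℂ))) (LIN_circle h)
      rw [e3, ← Complex.exp_add]
      congr 1
      push_cast
      ring
    rw [h2]
    ring
  rw [e1, norm_neg, norm_mul, h, one_mul, Complex.norm_exp_I_mul_ofReal_sub_one]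
  rw [Real.norm_eq_abs, abs_mul, abs_two]

theorem LIN_log (ξ : ℂ) (h : ‖ξ‖ = 1) (θ : ℝ) :
    Real.log (2 / ‖ξ - Complex.exp (θ * Complex.I)‖) =
      - Real.log (Real.sin ((θ - Complex.arg ξ) / 2)) := by
  rw [LIN_norm ξ h θ]
  rcases eq_or_ne (Real.sin ((θ - Complex.arg ξ) / 2)) 0 with h0 | h0
  · rw [h0]; simp
  · have h1 : |Real.sin ((θ - Complex.arg ξ) / 2)| ≠ 0 := abs_ne_zero.mpr h0
    rw [Real.log_div two_ne_zero (by positivity), Real.log_mul two_ne_zero h1, Real.log_abs]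
    ring

theorem LIN_int : IntervalIntegrable (fun t : ℝ => - Real.log (Real.sin (t / 2))) volume
    (-(2 * π)) (2 * π) := by
  have h1 : IntervalIntegrable (Real.log ∘ Real.sin) volume (-π) π := intervalIntegrable_log_sin
  have h2 := (h1.comp_mul_left (c := (1 / 2 : ℝ))).neg
  have e1 : -π / (1 / 2 : ℝ) = -(2 * π) := by ring
  have e2 : π / (1 / 2 : ℝ) = 2 * π := by ring
  rw [e1, e2] at h2
  refine h2.congr ?_
  intro t _
  simp only [Function.comp, Pi.neg_apply]
  congr 3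
  ring

theorem LIN_fin : ∫⁻ t in Ioc (-(2 * π)) (2 * π),
    ENNReal.ofReal (- Real.log (Real.sin (t / 2))) ≠ ⊤ := by
  have h1 : IntegrableOn (fun t : ℝ => - Real.log (Real.sin (t / 2))) (Ioc (-(2 * π)) (2 * π))
      volume := (intervalIntegrable_iff_integrableOn_Ioc_of_le
        (by linarith [Real.pi_pos])).mp LIN_int
  exact (Integrable.lintegral_lt_top h1).ne

theorem LIN_inner (ξ : ℂ) (h : ‖ξ‖ = 1) :
    ∫⁻ θ in Ioo (-π) π, ENNReal.ofReal (Real.log (2 / ‖ξ - Complex.exp (θ * Complex.I)‖)) ≤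
      ∫⁻ t in Ioc (-(2 * π)) (2 * π), ENNReal.ofReal (- Real.log (Real.sin (t / 2))) := by
  set g : ℝ → ℝ≥0∞ := fun t => (Ioc (-(2 * π)) (2 * π)).indicator
    (fun t => ENNReal.ofReal (- Real.log (Real.sin (t / 2)))) t with hg
  have h1 : ∫⁻ θ in Ioo (-π) π, ENNReal.ofReal (Real.log (2 / ‖ξ - Complex.exp (θ * Complex.I)‖)) ≤
      ∫⁻ θ : ℝ, g (θ - Complex.arg ξ) := by
    rw [← lintegral_indicator measurableSet_Ioo]
    apply lintegral_mono
    intro θ
    by_cases hθ : θ ∈ Ioo (-π) π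
    · have h3 : θ - Complex.arg ξ ∈ Ioc (-(2 * π)) (2 * π) := by
        constructor
        · linarith [hθ.1, Complex.arg_le_pi ξ]
        · linarith [hθ.2, Complex.neg_pi_lt_arg ξ]
      simp only [hg]
      rw [indicator_of_mem hθ, indicator_of_mem h3, LIN_log ξ h θ]
    · rw [indicator_of_notMem hθ]
      exact bot_le
  refine h1.trans ?_
  rw [lintegral_sub_right_eq_self g (Complex.arg ξ), lintegral_indicator measurableSet_Ioc]

theorem LIN_meas : Measurable (fun p : ℝ × ℂ =>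
    ENNReal.ofReal (Real.log (2 / ‖p.2 - Complex.exp (p.1 * Complex.I)‖))) := by
  have h1 : Measurable (fun p : ℝ × ℂ => p.2 - Complex.exp (p.1 * Complex.I)) := by
    refine measurable_snd.sub ?_
    exact Complex.measurable_exp.comp ((Complex.measurable_ofReal.comp measurable_fst).mul_const _)
  exact ENNReal.measurable_ofReal.comp (Real.measurable_log.comp (measurable_const.div h1.norm))

theorem TCB_pot (μ : Measure ℂ) [IsFiniteMeasure μ] (hμ : OnCircle μ) :
    ∀ᵐ θ : ℝ, θ ∈ Ioo (-π) π → Complex.exp (θ * Complex.I) ∉ potInf μ := by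
  have hae : ∀ᵐ ζ ∂μ, ‖ζ‖ = 1 := by
    have h0 : μ (sphere (0 : ℂ) 1)ᶜ = 0 := hμ
    rw [ae_iff]
    convert h0 using 2
    ext ζ
    simp
  have hfin : ∫⁻ θ in Ioo (-π) π, ∫⁻ ξ,
      ENNReal.ofReal (Real.log (2 / ‖ξ - Complex.exp (θ * Complex.I)‖)) ∂μ ≠ ⊤ := by
    rw [lintegral_lintegral_swap (f := fun (θ : ℝ) (ξ : ℂ) =>
      ENNReal.ofReal (Real.log (2 / ‖ξ - Complex.exp (θ * Complex.I)‖))) LIN_meas.aemeasurable]
    have h1 : ∫⁻ ξ, (∫⁻ θ in Ioo (-π) π,
        ENNReal.ofReal (Real.log (2 / ‖ξ - Complex.exp (θ * Complex.I)‖))) ∂μ ≤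
        ∫⁻ _ξ, (∫⁻ t in Ioc (-(2 * π)) (2 * π),
          ENNReal.ofReal (- Real.log (Real.sin (t / 2)))) ∂μ := by
      apply lintegral_mono_ae
      filter_upwards [hae] with ξ hξ
      exact LIN_inner ξ hξ
    refine ne_top_of_le_ne_top ?_ h1
    rw [lintegral_const]
    exact ENNReal.mul_ne_top LIN_fin (measure_ne_top _ _)
  have h2 := ae_lt_top (Measurable.lintegral_prod_right' LIN_meas) hfin
  rw [ae_restrict_iff' measurableSet_Ioo] at h2
  filter_upwards [h2] with θ hθ hmem hpot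
  exact absurd hpot (hθ hmem).ne

end

end Pool.H90.VK
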