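import Pool.Agent.H90.VK.Defs

/-!
# LS : level sets of functions of bounded variation carry no continuous variation

`p, n` finite measures on `ℝ`, `F x = p(-∞,x] - n(-∞,x]`. If `S` is measurable, `F = c` on `S` and `p, n`
have no atoms in `S`, then `p S = n S`.

Proof. Let `λ = p + n`, `s = dp/dλ - dn/dλ`; let `p', n'` be the Jordan decomposition
(`s = 1` on a set `H`, `-1`, after replacing `p, n` by `p - min, n - min`: it is convenient to first
reduce to `p ⟂ₘ n`: write `p = p' + q`, `n = n' + q` with `p' ⟂ₘ n'`; both sides of the claim and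
`F` only change by `q S`, resp. not at all). So assume `p ⟂ₘ n`: measurable `H` with
`p Hᶜ = 0`, `n H = 0`. We show `p S = 0` (and by symmetry `n S = 0`).
Suppose `p S > 0`; let `S₊ = S ∩ H`, `p S₊ > 0`, `n S₊ = 0`. By the Lebesgue density theorem for the
measure `λ = p + n` (`Besicovitch.ae_tendsto_measure_inter_div_of_measurableSet`, centred closed balls)
there are `x ∈ S₊` and `r > 0` with, for `B = [x-r, x+r]`, `λ(S₊ ∩ B) ≥ (9/10) λ(B) > 0`.
The measure `λ` restricted to `S₊ ∩ B` has no atoms, so there are `a < b` in `S₊ ∩ B` with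
`λ(S₊ ∩ B ∩ (a,b]) ≥ (9/10) λ(S₊ ∩ B)` [the set of `y ∈ S₊ ∩ B` with
`λ(S₊ ∩ B ∩ (-∞,y]) ≤ (1/20) λ(S₊ ∩ B)` has positive measure by continuity of the distribution
function, so it is nonempty: pick `a` in it; similarly `b`]. Then
`0 = F b - F a = p (a,b] - n (a,b]`, but `p (a,b] ≥ λ(S₊ ∩ (a,b]) ≥ (81/100) λ(B)`
and `n (a,b] ≤ λ(B \ S₊) ≤ (1/10) λ(B)`. Contradiction.
-/

open MeasureTheory Set Filter Topology Metric
open scoped Real ENNReal ComplexConjugate

namespace Pool.H90.VK

noncomputable section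

theorem LS_Ioc (p n : Measure ℝ) [IsFiniteMeasure p] [IsFiniteMeasure n] (c : ℝ) {a b : ℝ}
    (hab : a ≤ b) (ha : p.real (Iic a) - n.real (Iic a) = c)
    (hb : p.real (Iic b) - n.real (Iic b) = c) : p (Ioc a b) = n (Ioc a b) := by
  have h1 : ∀ m : Measure ℝ, IsFiniteMeasure m →
      m.real (Iic b) = m.real (Iic a) + m.real (Ioc a b) := by
    intro m hm
    rw [← Iic_union_Ioc_eq_Iic hab, measureReal_union _ measurableSet_Ioc]
    rw [Set.disjoint_left]
    intro x hx hx'
    exact absurd hx'.1 (not_lt.2 hx)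
  have h2 := h1 p inferInstance
  have h3 := h1 n inferInstance
  have h4 : p.real (Ioc a b) = n.real (Ioc a b) := by linarith
  rw [Measure.real, Measure.real] at h4
  exact (ENNReal.toReal_eq_toReal_iff' (measure_ne_top _ _) (measure_ne_top _ _)).1 h4

theorem LS_compact (p n : Measure ℝ) [IsFiniteMeasure p] [IsFiniteMeasure n] (c : ℝ) (K : Set ℝ)
    (hK : IsCompact K)
    (h : ∀ x ∈ K, p.real (Iic x) - n.real (Iic x) = c ∧ p {x} = 0) : p K ≤ n K := by
  have key : ∀ δ : ℝ, 0 < δ → p K ≤ n (cthickening δ K) := by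
    intro δ hδ
    have hcov : ∀ S : Set ℝ, S = ⋃ j : ℤ, S ∩ Ioc (j • δ) ((j + 1) • δ) := by
      intro S
      rw [← inter_iUnion, iUnion_Ioc_zsmul hδ, inter_univ]
    have hdis : ∀ S : Set ℝ, Pairwise (Function.onFun Disjoint
        fun j : ℤ => S ∩ Ioc (j • δ) ((j + 1) • δ)) := by
      intro S i j hij
      exact ((pairwise_disjoint_Ioc_zsmul δ) hij).mono inter_subset_right inter_subset_right
    have hmeas : MeasurableSet (cthickening δ K) := isClosed_cthickening.measurableSet
    have e1 : p K = ∑' j : ℤ, p (K ∩ Ioc (j • δ) ((j + 1) • δ)) := by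
      rw [← measure_iUnion (hdis K) fun j => hK.measurableSet.inter measurableSet_Ioc, ← hcov]
    have e2 : n (cthickening δ K) =
        ∑' j : ℤ, n (cthickening δ K ∩ Ioc (j • δ) ((j + 1) • δ)) := by
      rw [← measure_iUnion (hdis _) fun j => hmeas.inter measurableSet_Ioc, ← hcov]
    rw [e1, e2]
    refine ENNReal.tsum_le_tsum fun j => ?_
    by_cases hne : (K ∩ Icc (j • δ) ((j + 1) • δ)).Nonempty
    · have hcp : IsCompact (K ∩ Icc (j • δ) ((j + 1) • δ)) := hK.inter_right isClosed_Icc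
      obtain ⟨haK, haI⟩ := hcp.sInf_mem hne
      obtain ⟨hbK, hbI⟩ := hcp.sSup_mem hne
      set a := sInf (K ∩ Icc (j • δ) ((j + 1) • δ)) with hadef
      set b := sSup (K ∩ Icc (j • δ) ((j + 1) • δ)) with hbdef
      have hab : a ≤ b := csInf_le_csSup hne hcp.bddBelow hcp.bddAbove
      have hsub : K ∩ Ioc (j • δ) ((j + 1) • δ) ⊆ {a} ∪ Ioc a b := by
        rintro x ⟨hxK, hxI⟩
        have hx : x ∈ K ∩ Icc (j • δ) ((j + 1) • δ) := ⟨hxK, Ioc_subset_Icc_self hxI⟩
        have h1 : a ≤ x := csInf_le hcp.bddBelow hx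
        have h2 : x ≤ b := le_csSup hcp.bddAbove hx
        rcases h1.eq_or_lt with h3 | h3
        · exact Or.inl h3.symm
        · exact Or.inr ⟨h3, h2⟩
      have hsub2 : Ioc a b ⊆ cthickening δ K ∩ Ioc (j • δ) ((j + 1) • δ) := by
        rintro x ⟨hx1, hx2⟩
        refine ⟨?_, lt_of_le_of_lt haI.1 hx1, hx2.trans hbI.2⟩
        apply mem_cthickening_of_dist_le x b δ K hbK
        rw [Real.dist_eq, abs_le]
        have h5 : ((j + 1) • δ : ℝ) = j • δ + δ := by rw [add_smul, one_smul]
        have h6 := haI.1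
        have h7 := hbI.2
        rw [h5] at h7
        constructor <;> linarith
      calc p (K ∩ Ioc (j • δ) ((j + 1) • δ)) ≤ p ({a} ∪ Ioc a b) := measure_mono hsub
        _ ≤ p {a} + p (Ioc a b) := measure_union_le _ _
        _ = n (Ioc a b) := by
            rw [(h a haK).2, zero_add, LS_Ioc p n c hab (h a haK).1 (h b hbK).1]
        _ ≤ _ := measure_mono hsub2
    · rw [not_nonempty_iff_eq_empty] at hne
      have : K ∩ Ioc (j • δ) ((j + 1) • δ) = ∅ := by
        apply subset_empty_iff.1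
        rw [← hne]
        exact inter_subset_inter_right _ Ioc_subset_Icc_self
      rw [this]
      simp
  have ht : Tendsto (fun r => n (cthickening r K)) (𝓝[>] 0) (𝓝 (n K)) :=
    (tendsto_measure_cthickening_of_isCompact hK).mono_left nhdsWithin_le_nhds
  refine ge_of_tendsto ht ?_
  filter_upwards [self_mem_nhdsWithin] with r hr
  exact key r hr

theorem LS_le (p n : Measure ℝ) [IsFiniteMeasure p] [IsFiniteMeasure n] (c : ℝ) (S : Set ℝ)
    (hS : MeasurableSet S)
    (h : ∀ x ∈ S, p.real (Iic x) - n.real (Iic x) = c ∧ p {x} = 0) : p S ≤ n S := by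
  rw [hS.measure_eq_iSup_isCompact p]
  refine iSup₂_le fun K hKS => iSup_le fun hK => ?_
  exact (LS_compact p n c K hK fun x hx => h x (hKS hx)).trans (measure_mono hKS)

theorem LS (p n : Measure ℝ) [IsFiniteMeasure p] [IsFiniteMeasure n] (c : ℝ) (S : Set ℝ)
    (hS : MeasurableSet S)
    (h : ∀ x ∈ S, p.real (Iic x) - n.real (Iic x) = c ∧ p {x} = 0 ∧ n {x} = 0) : p S = n S := by
  apply le_antisymm
  · exact LS_le p n c S hS fun x hx => ⟨(h x hx).1, (h x hx).2.1⟩
  · exact LS_le n p (-c) S hS fun x hx => ⟨by linarith [(h x hx).1], (h x hx).2.2⟩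

end

end Pool.H90.VK
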