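import Pool.Agent.H90.VK.ROT

/-!
# ME : selection of a symmetric compact set

Let `μ` be a finite measure on the circle, not singular to arc length. There are `c > 0`, `|η| = 1` and a
compact `E ⊂ (-1,1)` of positive Lebesgue measure with
`c · arcLen restricted to {ζ : -Re (conj η ζ) ∈ E} ≤ μ`.

Proof. Lebesgue decomposition `μ = μ_s + arcLen.withDensity h`; `h` is not a.e. 0, so there are `c > 0` and
Borel `B` with `arcLen B > 0`, `h ≥ c` on `B`; so `c · arcLen|_B ≤ μ`. Let
`B' = {θ ∈ (-π, π) : e^{iθ} ∈ B}`, of positive Lebesgue measure; let `x₀ ∈ B'` be a density point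
(`Besicovitch.ae_tendsto_measure_inter_div_of_measurableSet`). For small `r` (`r < π`,
`(x₀-r, x₀+r) ⊂ (-π,π)`): `|B' ∩ (x₀-r,x₀+r)| > (3/2) r`, so `B'' = {θ ∈ (0,r) : x₀+θ ∈ B', x₀-θ ∈ B'}` has
measure `≥ r - (1/2) r > 0`. Let `η = e^{ix₀}`. For `θ ∈ B''` both `η e^{±iθ} ∈ B`. Let `E` be a compact
subset of positive measure of `{-cos θ : θ ∈ B''} ⊂ (-1,1)` (`θ ↦ -cos θ` is a diffeomorphism
`(0,π) → (-1,1)`; the image of `B''` is `{v ∈ (-1,1) : arccos(-v) ∈ B''}`, measurable, of positive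
measure because `cos` is Lipschitz and... the inverse image of a null set under the diffeomorphism is null;
inner regularity). If `‖ζ‖ = 1` and `-Re(conj η ζ) ∈ E` then `conj η ζ = e^{±iθ}` with `θ ∈ B''`, so
`ζ ∈ B`. Since `arcLen` is carried by the circle, `arcLen.restrict {..} ≤ arcLen.restrict B`.
-/

open MeasureTheory Set Filter Topology Metric
open scoped Real ENNReal ComplexConjugate

namespace Pool.H90.VK

noncomputable section

theorem ME_sym (B : Set ℝ) (hB : MeasurableSet B) (hpos : 0 < volume B) :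
    ∃ x0 : ℝ, 0 < volume {θ : ℝ | x0 + θ ∈ B ∧ x0 - θ ∈ B} := by
  by_contra hcon
  push Not at hcon
  have hzero : ∀ x0 : ℝ, volume {θ : ℝ | x0 + θ ∈ B ∧ x0 - θ ∈ B} = 0 :=
    fun x0 => le_antisymm (hcon x0) bot_le
  have hBm : Measurable (B.indicator (1 : ℝ → ℝ≥0∞)) := measurable_one.indicator hB
  have hF : Measurable (Function.uncurry fun x y : ℝ =>
      B.indicator (1 : ℝ → ℝ≥0∞) y * B.indicator (1 : ℝ → ℝ≥0∞) (x - y)) := by
    have h1 : Measurable fun z : ℝ × ℝ => B.indicator (1 : ℝ → ℝ≥0∞) z.2 :=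
      hBm.comp measurable_snd
    have h2 : Measurable fun z : ℝ × ℝ => B.indicator (1 : ℝ → ℝ≥0∞) (z.1 - z.2) :=
      hBm.comp (measurable_fst.sub measurable_snd)
    exact h1.mul h2
  have hswap := lintegral_lintegral_swap (μ := (volume : Measure ℝ)) (ν := (volume : Measure ℝ))
    hF.aemeasurable
  have hL : ∀ x : ℝ, ∫⁻ y : ℝ, B.indicator (1 : ℝ → ℝ≥0∞) y *
      B.indicator (1 : ℝ → ℝ≥0∞) (x - y) = 0 := by
    intro x
    have h1 : (fun y : ℝ => B.indicator (1 : ℝ → ℝ≥0∞) y * B.indicator (1 : ℝ → ℝ≥0∞) (x - y)) =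
        (B ∩ (fun y => x - y) ⁻¹' B).indicator 1 := by
      funext y
      by_cases h1 : y ∈ B
      · by_cases h2 : x - y ∈ B
        · rw [indicator_of_mem h1, indicator_of_mem h2, indicator_of_mem]
          · simp
          · exact ⟨h1, h2⟩
        · rw [indicator_of_notMem h2, mul_zero, indicator_of_notMem]
          exact fun h => h2 h.2
      · rw [indicator_of_notMem h1, zero_mul, indicator_of_notMem]
        exact fun h => h1 h.1
    have hms : MeasurableSet (B ∩ (fun y => x - y) ⁻¹' B) :=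
      hB.inter ((measurable_const.sub measurable_id : Measurable fun y : ℝ => x - y) hB)
    rw [h1, lintegral_indicator_one hms]
    have h2 := hzero (x / 2)
    rw [← h2, ← measure_preimage_add volume (x / 2) (B ∩ (fun y => x - y) ⁻¹' B)]
    congr 1
    ext θ
    simp only [mem_preimage, mem_inter_iff, mem_ofPred_eq]
    rw [show x - (x / 2 + θ) = x / 2 - θ by ring]
  have hR : ∀ y : ℝ, ∫⁻ x : ℝ, B.indicator (1 : ℝ → ℝ≥0∞) y *
      B.indicator (1 : ℝ → ℝ≥0∞) (x - y) = B.indicator (1 : ℝ → ℝ≥0∞) y * volume B := by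
    intro y
    have h2 : Measurable fun x : ℝ => B.indicator (1 : ℝ → ℝ≥0∞) (x - y) :=
      hBm.comp (measurable_id.sub_const y)
    rw [lintegral_const_mul _ h2, lintegral_sub_right_eq_self (fun x => B.indicator 1 x) y,
      lintegral_indicator_one hB]
  simp only [hL, hR, lintegral_zero] at hswap
  rw [lintegral_mul_const _ hBm, lintegral_indicator_one hB] at hswap
  have h3 : volume B * volume B ≠ 0 := mul_ne_zero hpos.ne' hpos.ne'
  exact h3 hswap.symm

theorem ME_half (S : Set ℝ) (hS : ∀ θ ∈ S, -θ ∈ S) (hpos : 0 < volume S) :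
    0 < volume (S ∩ Ioi 0) := by
  by_contra hcon
  have h0 : volume (S ∩ Ioi 0) = 0 := le_antisymm (not_lt.1 hcon) bot_le
  have h1 : volume (Neg.neg ⁻¹' (S ∩ Ioi 0)) = 0 := by
    rw [Measure.measure_preimage_neg, h0]
  have h2 : S ⊆ (S ∩ Ioi 0) ∪ ({0} ∪ Neg.neg ⁻¹' (S ∩ Ioi 0)) := by
    intro θ hθ
    rcases lt_trichotomy θ 0 with h | h | h
    · right; right
      exact ⟨hS θ hθ, by simpa using h⟩
    · right; left
      exact h
    · left
      exact ⟨hθ, h⟩
  have h3 : volume S ≤ 0 := by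
    refine (measure_mono h2).trans ((measure_union_le _ _).trans ?_)
    rw [h0, zero_add]
    refine (measure_union_le _ _).trans ?_
    rw [h1, add_zero, Real.volume_singleton]
  exact absurd hpos (not_lt.2 h3)

theorem ME_arc (x : ℝ) (w : ℂ) (hw : ‖w‖ = 1) (hre : w.re = Real.cos x) :
    w = Complex.exp (x * Complex.I) ∨ w = Complex.exp ((-x : ℝ) * Complex.I) := by
  have h1 : w.re ^ 2 + w.im ^ 2 = 1 := by
    have := Complex.sq_norm w
    rw [hw, Complex.normSq_apply] at this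
    linarith
  have h2 : w.im ^ 2 = Real.sin x ^ 2 := by
    have := Real.sin_sq_add_cos_sq x
    rw [hre] at h1
    linarith
  rcases sq_eq_sq_iff_eq_or_eq_neg.1 h2 with h | h
  · left
    apply Complex.ext
    · rw [hre, Complex.exp_ofReal_mul_I_re]
    · rw [h, Complex.exp_ofReal_mul_I_im]
  · right
    apply Complex.ext
    · rw [hre, Complex.exp_ofReal_mul_I_re, Real.cos_neg]
    · rw [h, Complex.exp_ofReal_mul_I_im, Real.sin_neg]

theorem ME_image (K : Set ℝ) (hK : IsCompact K) (hK0 : K ⊆ Ioo 0 π) (hpos : 0 < volume K) :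
    0 < volume ((fun θ : ℝ => -Real.cos θ) '' K) := by
  have hm := hK.measurableSet
  have h1 := lintegral_image_eq_lintegral_abs_deriv_mul (s := K) (f := fun θ : ℝ => -Real.cos θ)
    (f' := fun θ => Real.sin θ) hm (fun θ _ => by
      have := (Real.hasDerivAt_cos θ).neg
      rw [neg_neg] at this
      exact this.hasDerivWithinAt) (by
      intro a ha b hb hab
      have h2 : Real.cos a = Real.cos b := by
        have : -Real.cos a = -Real.cos b := hab
        linarith
      exact Real.injOn_cos ⟨(hK0 ha).1.le, (hK0 ha).2.le⟩ ⟨(hK0 hb).1.le, (hK0 hb).2.le⟩ h2)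
    (fun _ => 1)
  rw [setLIntegral_one] at h1
  rw [h1]
  have h3 : Measurable fun x : ℝ => ENNReal.ofReal |Real.sin x| * 1 := by fun_prop
  rw [setLIntegral_pos_iff h3]
  have h4 : Function.support (fun x : ℝ => ENNReal.ofReal |Real.sin x| * 1) ∩ K = K := by
    refine inter_eq_right.2 fun x hx => ?_
    rw [Function.mem_support, mul_one]
    have h5 : 0 < Real.sin x := Real.sin_pos_of_pos_of_lt_pi (hK0 hx).1 (hK0 hx).2
    exact (ENNReal.ofReal_pos.2 (abs_pos.2 h5.ne')).ne'
  rw [h4]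
  exact hpos

theorem ME (μ : Measure ℂ) [IsFiniteMeasure μ] (hμ : OnCircle μ) (hn : ¬ μ ⟂ₘ arcLen) :
    ∃ c : ℝ, 0 < c ∧ ∃ η : ℂ, ‖η‖ = 1 ∧ ∃ E : Set ℝ, IsCompact E ∧ E ⊆ Ioo (-1) 1 ∧ 0 < volume E ∧
      ENNReal.ofReal c • arcLen.restrict {ζ : ℂ | -(conj η * ζ).re ∈ E} ≤ μ := by
  have hE : Measurable (fun θ : ℝ => Complex.exp (θ * Complex.I)) := by fun_prop
  have hfin : IsFiniteMeasure arcLen := by
    unfold arcLen
    infer_instance
  obtain ⟨ε, hε, B, hB, hBpos, hle⟩ := Measure.exists_positive_of_not_mutuallySingular μ arcLen hn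
  -- the set of angles
  obtain ⟨B', hB'⟩ : ∃ B' : Set ℝ, B' = (fun θ : ℝ => Complex.exp (θ * Complex.I)) ⁻¹' B ∩
      Ioo (-π) π := ⟨_, rfl⟩
  have hB'm : MeasurableSet B' := by
    rw [hB']
    exact (hE hB).inter measurableSet_Ioo
  have hB'pos : 0 < volume B' := by
    have h1 : arcLen B = volume ((fun θ : ℝ => Complex.exp (θ * Complex.I)) ⁻¹' B ∩
        Ioc (-π) π) := by
      unfold arcLen
      rw [Measure.map_apply hE hB, Measure.restrict_apply (hE hB)]
    rw [h1] at hBpos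
    refine hBpos.trans_le ?_
    have h2 : (fun θ : ℝ => Complex.exp (θ * Complex.I)) ⁻¹' B ∩ Ioc (-π) π ⊆ B' ∪ {π} := by
      rintro θ ⟨h3, h4, h5⟩
      rcases h5.lt_or_eq with h6 | h6
      · left
        rw [hB']
        exact ⟨h3, h4, h6⟩
      · right
        exact h6
    refine (measure_mono h2).trans ((measure_union_le _ _).trans ?_)
    rw [Real.volume_singleton, add_zero]
  obtain ⟨x0, hx0⟩ := ME_sym B' hB'm hB'pos
  obtain ⟨S, hS⟩ : ∃ S : Set ℝ, S = {θ : ℝ | x0 + θ ∈ B' ∧ x0 - θ ∈ B'} := ⟨_, rfl⟩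
  rw [← hS] at hx0
  have hSsym : ∀ θ ∈ S, -θ ∈ S := by
    intro θ hθ
    rw [hS] at hθ ⊢
    refine ⟨?_, ?_⟩
    · rw [← sub_eq_add_neg]
      exact hθ.2
    · rw [sub_neg_eq_add]
      exact hθ.1
  have hSpos := ME_half S hSsym hx0
  have hSm : MeasurableSet (S ∩ Ioi 0) := by
    rw [hS]
    exact ((measurable_const.add measurable_id hB'm).inter
      (measurable_const.sub measurable_id hB'm)).inter measurableSet_Ioi
  have hSπ : S ∩ Ioi 0 ⊆ Ioo 0 π := by
    rintro θ ⟨h1, h2⟩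
    rw [hS] at h1
    obtain ⟨h3, h4⟩ := h1
    rw [hB'] at h3 h4
    refine ⟨h2, ?_⟩
    have h5 := h3.2.2
    have h6 := h4.2.1
    linarith
  obtain ⟨K, hKS, hKc, hKpos⟩ := hSm.exists_lt_isCompact hSpos
  have hKπ : K ⊆ Ioo 0 π := hKS.trans hSπ
  refine ⟨ε, by exact_mod_cast hε, Complex.exp (x0 * Complex.I), Complex.norm_exp_ofReal_mul_I x0,
    (fun θ : ℝ => -Real.cos θ) '' K, hKc.image (by fun_prop), ?_, ME_image K hKc hKπ hKpos, ?_⟩
  · rintro _ ⟨θ, hθ, rfl⟩
    obtain ⟨h1, h2⟩ := hKπ hθ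
    constructor
    · have h3 : Real.cos θ < Real.cos 0 :=
        Real.cos_lt_cos_of_nonneg_of_le_pi le_rfl h2.le h1
      rw [Real.cos_zero] at h3
      show -1 < -Real.cos θ
      linarith
    · have h3 : Real.cos π < Real.cos θ :=
        Real.cos_lt_cos_of_nonneg_of_le_pi h1.le le_rfl h2
      rw [Real.cos_pi] at h3
      show -Real.cos θ < 1
      linarith
  · obtain ⟨T, hT⟩ : ∃ T : Set ℂ, T = {ζ : ℂ | -(conj (Complex.exp (x0 * Complex.I)) * ζ).re ∈
        (fun θ : ℝ => -Real.cos θ) '' K} := ⟨_, rfl⟩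
    rw [← hT]
    have hTB : T ∩ sphere (0 : ℂ) 1 ⊆ B := by
      rintro ζ ⟨h1, h2⟩
      rw [hT] at h1
      obtain ⟨θ, hθ, h3⟩ := h1
      have h4 : ‖ζ‖ = 1 := by simpa using h2
      obtain ⟨w, hw⟩ : ∃ w : ℂ, w = conj (Complex.exp (x0 * Complex.I)) * ζ := ⟨_, rfl⟩
      rw [← hw] at h3
      have hwn : ‖w‖ = 1 := by
        rw [hw, norm_mul, RCLike.norm_conj, Complex.norm_exp_ofReal_mul_I, h4, one_mul]
      have hζ : ζ = Complex.exp (x0 * Complex.I) * w := by
        rw [hw, ← mul_assoc, mul_comm (Complex.exp _), ROT_conj (Complex.norm_exp_ofReal_mul_I x0),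
          one_mul]
      have hre : w.re = Real.cos θ := by
        have : -Real.cos θ = -w.re := h3
        linarith
      have hθS := (hKS hθ).1
      rw [hS] at hθS
      rcases ME_arc θ w hwn hre with h | h
      · have h5 := hθS.1
        rw [hB'] at h5
        have h6 : Complex.exp (((x0 + θ : ℝ) : ℂ) * Complex.I) ∈ B := h5.1
        have h7 : ζ = Complex.exp (((x0 + θ : ℝ) : ℂ) * Complex.I) := by
          rw [hζ, h, ← Complex.exp_add]
          congr 1
          push_cast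
          ring
        rw [h7]
        exact h6
      · have h5 := hθS.2
        rw [hB'] at h5
        have h6 : Complex.exp (((x0 - θ : ℝ) : ℂ) * Complex.I) ∈ B := h5.1
        have h7 : ζ = Complex.exp (((x0 - θ : ℝ) : ℂ) * Complex.I) := by
          rw [hζ, h, ← Complex.exp_add]
          congr 1
          push_cast
          ring
        rw [h7]
        exact h6
    have hcirc : arcLen (sphere (0 : ℂ) 1)ᶜ = 0 := by
      unfold arcLen
      rw [Measure.map_apply hE isClosed_sphere.measurableSet.compl]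
      have : (fun θ : ℝ => Complex.exp (θ * Complex.I)) ⁻¹' (sphere (0 : ℂ) 1)ᶜ = ∅ := by
        ext θ
        simp [Complex.norm_exp_ofReal_mul_I]
      rw [this, measure_empty]
    refine Measure.le_iff.2 fun A hA => ?_
    rw [Measure.smul_apply, Measure.restrict_apply hA, smul_eq_mul, ENNReal.ofReal_coe_nnreal]
    have h1 : arcLen (A ∩ T) ≤ arcLen (A ∩ B) := by
      have h2 : A ∩ T ⊆ (A ∩ B) ∪ (sphere (0 : ℂ) 1)ᶜ := by
        rintro ζ ⟨h3, h4⟩
        by_cases h5 : ζ ∈ sphere (0 : ℂ) 1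
        · left
          exact ⟨h3, hTB ⟨h4, h5⟩⟩
        · right
          exact h5
      refine (measure_mono h2).trans ((measure_union_le _ _).trans ?_)
      rw [hcirc, add_zero]
    exact (mul_le_mul_right h1 _).trans ((hle A hA).trans (measure_mono inter_subset_left))

end

end Pool.H90.VK
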