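import Pool.Agent.H90.VK.DEC

/-!
# NA : total variation `< k` implies not extreme

Let `δ = k - (β(T)+α(T)) > 0` and choose `0 < ε < 1` with `2 ε/(1-ε) ≤ δ/2`.
`DEC` with `t = 1/2`, `Q₁ = 1 + ε z`, `Q₂ = 1 - ε z`,
`a₁ = Kg β / 2 + ε z/(1+ε z) + ε/(1-ε)`, `b₁ = Kg α / 2 + ε/(1-ε)`,
`a₂ = Kg β / 2 - ε z/(1-ε z) + ε/(1-ε)`, `b₂ = Kg α / 2 + ε/(1-ε)`:
`|ε z/(1 ± ε z)| ≤ ε/(1-ε)`, and at `0`: `Re a + Re b = (β(T)+α(T))/2 + 2ε/(1-ε) ≤ k/2`.
Use `MEM_rep` for `1 + z f''/f'`.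
-/

open MeasureTheory Set Filter Topology Metric
open scoped Real ENNReal ComplexConjugate

namespace Pool.H90.VK

noncomputable section

theorem NA_lower {e z : ℂ} {ε : ℝ} (he : ‖e‖ = ε) (hε1 : ε < 1) (hz : ‖z‖ < 1) :
    1 - ε ≤ ‖1 + e * z‖ := by
  have h1 : ‖e * z‖ ≤ ε := by
    rw [norm_mul, he]
    have := norm_nonneg e
    nlinarith [norm_nonneg z]
  have h2 : ‖(1:ℂ)‖ - ‖-(e * z)‖ ≤ ‖1 - -(e * z)‖ := norm_sub_norm_le _ _
  rw [norm_neg, norm_one, sub_neg_eq_add] at h2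
  linarith

theorem NA_ne {e z : ℂ} {ε : ℝ} (he : ‖e‖ = ε) (hε1 : ε < 1) (hz : ‖z‖ < 1) : 1 + e * z ≠ 0 := by
  have h := NA_lower he hε1 hz
  exact norm_pos_iff.1 (by linarith)

theorem NA_re {e z : ℂ} {ε : ℝ} (he : ‖e‖ = ε) (hε1 : ε < 1) (hz : ‖z‖ < 1) :
    -(ε / (1 - ε)) ≤ (e * z / (1 + e * z)).re := by
  have h0 : 0 < 1 - ε := by linarith
  have h1 : ‖e * z‖ ≤ ε := by
    rw [norm_mul, he]
    have := norm_nonneg e
    nlinarith [norm_nonneg z]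
  have h2 := NA_lower he hε1 hz
  have h3 : ‖e * z / (1 + e * z)‖ ≤ ε / (1 - ε) := by
    rw [norm_div]
    exact div_le_div₀ (by rw [← he]; exact norm_nonneg e) h1 h0 h2
  have h4 := Complex.abs_re_le_norm (e * z / (1 + e * z))
  have h5 := neg_abs_le (e * z / (1 + e * z)).re
  linarith

theorem NA_diff {e : ℂ} {ε : ℝ} (he : ‖e‖ = ε) (hε1 : ε < 1) :
    DifferentiableOn ℂ (fun z => e * z / (1 + e * z)) (ball (0 : ℂ) 1) := by
  intro z hz
  have h := NA_ne he hε1 (mem_ball_zero_iff.1 hz)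
  have h1 : DifferentiableAt ℂ (fun z : ℂ => e * z) z := by fun_prop
  have h2 : DifferentiableAt ℂ (fun z : ℂ => 1 + e * z) z := by fun_prop
  exact (h1.div h2 h).differentiableWithinAt

theorem NA_deriv (e z : ℂ) : deriv (fun z => 1 + e * z) z = e := by
  have h : HasDerivAt (fun z : ℂ => 1 + e * z) e z := by
    simpa using ((hasDerivAt_id z).const_mul e).const_add 1
  exact h.deriv

theorem NA {k : ℝ} {f : ℂ → ℂ} {β α : Measure ℂ} (hf : InV k f) (h : PRep k f β α)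
    (hlt : β.real univ + α.real univ < k) : ¬ IsExtreme k f := by
  have := h.finβ
  have := h.finα
  set δ : ℝ := k - (β.real univ + α.real univ) with hδ
  have hδ0 : 0 < δ := by linarith
  set ε : ℝ := δ / (4 + δ) with hε
  have hε0 : 0 < ε := by positivity
  have hε1 : ε < 1 := by
    rw [hε, div_lt_one (by positivity)]
    linarith
  have hc : ε / (1 - ε) = δ / 4 := by
    rw [hε]
    have h1 : (4 + δ) ≠ 0 := by positivity
    have h2 : 1 - δ / (4 + δ) = 4 / (4 + δ) := by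
      field_simp
      ring
    rw [h2, div_div_div_cancel_right₀ h1]
  have he1 : ‖(ε : ℂ)‖ = ε := by
    rw [Complex.norm_real, Real.norm_eq_abs, abs_of_pos hε0]
  have he2 : ‖-(ε : ℂ)‖ = ε := by rw [norm_neg, he1]
  have hKd : ∀ (μ : Measure ℂ) [IsFiniteMeasure μ], OnCircle μ →
      DifferentiableOn ℂ (fun z => (1 / 2) * Kg μ z + ((δ / 4 : ℝ) : ℂ)) (ball (0 : ℂ) 1) := by
    intro μ _ hμ
    exact ((KA_diff μ hμ).const_mul _).add_const _
  have hKn : ∀ (μ : Measure ℂ) [IsFiniteMeasure μ], OnCircle μ → ∀ z ∈ ball (0:ℂ) 1,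
      0 ≤ ((1 / 2) * Kg μ z).re := by
    intro μ _ hμ z hz
    have h1 := KA_re_nonneg μ hμ (mem_ball_zero_iff.1 hz)
    have h2 : ((1 / 2) * Kg μ z).re = (1 / 2) * (Kg μ z).re := by
      have : ((1 : ℂ) / 2) = ((1 / 2 : ℝ) : ℂ) := by push_cast; rfl
      rw [this, Complex.re_ofReal_mul]
    rw [h2]
    positivity
  have hK0 : ∀ (μ : Measure ℂ) [IsFiniteMeasure μ], OnCircle μ →
      ((1 / 2) * Kg μ 0).re = (1 / 2) * μ.real univ := by
    intro μ _ hμ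
    rw [KA_zero μ hμ]
    have : ((1 : ℂ) / 2) = ((1 / 2 : ℝ) : ℂ) := by push_cast; rfl
    rw [this, Complex.re_ofReal_mul, Complex.ofReal_re]
  have hQ : ∀ e : ℂ, ‖e‖ = ε → ∀ z ∈ ball (0 : ℂ) 1,
      (1 + z * deriv (deriv f) z / deriv f z +
        z * deriv (fun z => 1 + e * z) z / (fun z => 1 + e * z) z).re =
      ((1 / 2) * Kg β z + e * z / (1 + e * z) + ((δ / 4 : ℝ) : ℂ)).re -
        ((1 / 2) * Kg α z + ((δ / 4 : ℝ) : ℂ)).re := by
    intro e he z hz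
    rw [MEM_rep h hz, NA_deriv, ← Complex.sub_re]
    congr 1
    simp only
    ring
  have ha : ∀ e : ℂ, ‖e‖ = ε → ∀ z ∈ ball (0 : ℂ) 1,
      0 ≤ ((1 / 2) * Kg β z + e * z / (1 + e * z) + ((δ / 4 : ℝ) : ℂ)).re := by
    intro e he z hz
    rw [Complex.add_re, Complex.add_re, Complex.ofReal_re]
    have h1 := NA_re he hε1 (mem_ball_zero_iff.1 hz)
    rw [hc] at h1
    have h2 := hKn β h.circβ z hz
    linarith
  have hb : ∀ z ∈ ball (0 : ℂ) 1, 0 ≤ ((1 / 2) * Kg α z + ((δ / 4 : ℝ) : ℂ)).re := by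
    intro z hz
    rw [Complex.add_re, Complex.ofReal_re]
    have h2 := hKn α h.circα z hz
    linarith
  have hm : ∀ e : ℂ, ((1 / 2) * Kg β 0 + e * 0 / (1 + e * 0) + ((δ / 4 : ℝ) : ℂ)).re +
      ((1 / 2) * Kg α 0 + ((δ / 4 : ℝ) : ℂ)).re ≤ k / 2 := by
    intro e
    rw [Complex.add_re, Complex.add_re, Complex.add_re, Complex.ofReal_re, hK0 β h.circβ,
      hK0 α h.circα, mul_zero, zero_div, Complex.zero_re]
    linarith
  have hd : ∀ e : ℂ, ‖e‖ = ε → DifferentiableOn ℂ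
      (fun z => (1 / 2) * Kg β z + e * z / (1 + e * z) + ((δ / 4 : ℝ) : ℂ)) (ball (0 : ℂ) 1) := by
    intro e he
    exact (((KA_diff β h.circβ).const_mul _).add (NA_diff he hε1)).add_const _
  refine DEC hf (fun z => 1 + (ε : ℂ) * z) (fun z => 1 + -(ε : ℂ) * z) (1 / 2) (by norm_num)
    (by norm_num) (by fun_prop) (by fun_prop) (by simp) (by simp)
    (fun z hz => NA_ne he1 hε1 (mem_ball_zero_iff.1 hz))
    (fun z hz => NA_ne he2 hε1 (mem_ball_zero_iff.1 hz)) ?_ ?_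
    (fun z => (1 / 2) * Kg β z + (ε : ℂ) * z / (1 + (ε : ℂ) * z) + ((δ / 4 : ℝ) : ℂ))
    (fun z => (1 / 2) * Kg α z + ((δ / 4 : ℝ) : ℂ))
    (fun z => (1 / 2) * Kg β z + -(ε : ℂ) * z / (1 + -(ε : ℂ) * z) + ((δ / 4 : ℝ) : ℂ))
    (fun z => (1 / 2) * Kg α z + ((δ / 4 : ℝ) : ℂ))
    (hd _ he1) (hKd α h.circα) (hd _ he2) (hKd α h.circα) (ha _ he1) hb (ha _ he2) hb
    (hm _) (hm _) (hQ _ he1) (hQ _ he2)
  · intro z _
    push_cast
    ring
  · refine ⟨1 / 2, ?_, ?_⟩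
    · rw [mem_ball_zero_iff]
      norm_num
    · intro h1
      have h2 : (ε : ℂ) * (1 / 2) = 0 := by
        simpa using h1
      have h3 : (ε : ℂ) ≠ 0 := Complex.ofReal_ne_zero.2 hε0.ne'
      exact (mul_ne_zero h3 (by norm_num)) h2

end

end Pool.H90.VK
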