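import Pool.Agent.H90.VK.Defs

/-!
# The necessary conditions
-/

open MeasureTheory Set Filter Topology Metric
open scoped Real ENNReal ComplexConjugate

namespace Pool.H90.VK

/-- The necessary conditions for an extreme point of `V_k`: `β(T) + α(T) = k`, `β ⟂ α`, `β` and `α` are
singular to arc length, and `β` has at most one atom. -/
structure NecCond (k : ℝ) (β α : Measure ℂ) : Prop where
  mass : β.real univ + α.real univ = k
  sing : β ⟂ₘ α
  singβ : β ⟂ₘ arcLen
  singα : α ⟂ₘ arcLen
  atom : (atoms β).Subsingleton

end Pool.H90.VK
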