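import Pool.Agent.H90.VK.MEM
import Pool.Agent.H90.VK.JOR
import Pool.Agent.H90.VK.CMP

/-!
# PAA : Paatero's representation theorem

Let `f ∈ V_k`, `q z = 1 + z f''(z)/f'(z)`, analytic on the disc, `q 0 = 1`.
For `0 < r < 1` let (push-forward under `θ ↦ e^{iθ}` of measures with densities on `(-π, π]`)
`dβ_r = (1/π) max (Re q(re^{iθ})) 0 dθ`, `dα_r = (1/π) max (- Re q(re^{iθ})) 0 dθ`.
Masses: `β_r(T) - α_r(T) = (1/π) ∫ Re q = 2` (`KA_mean0`), `β_r(T) + α_r(T) = (1/π) ∫ |Re q| ≤ k`
(periodicity: the integral in `InV.rot` is over `[0, 2π]`).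
Herglotz formula at radius `r`: for `|z| < 1`, `q(rz) = (1/2) Kg β_r z - (1/2) Kg α_r z`.
[`F(z) = q(rz)` is analytic on a neighbourhood of the closed disc. Mathlib:
`DiffContOnCl.circleAverage_re_herglotzRieszKernel_smul'`: `F(w)` is the circle average of
`Re((ζ+w)/(ζ-w)) F(ζ)`. Taking real parts, `Re F(w)` is the average of `Re((ζ+w)/(ζ-w)) Re F(ζ)`,
i.e. the real part of `G(w) := (1/2)(Kg β_r w - Kg α_r w)`. So `F - G` is analytic with zero real part,
hence constant `= F(0) - G(0) = 1 - 1 = 0`.]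
Take an ultrafilter `U ≤ 𝓝[<] 1` and `CMP`: `β_r → β`, `α_r → α` weakly along `U` (for `r` outside
`(0,1)` put the zero measure). For fixed `|z| < 1` the kernel `ζ ↦ (ζ+z)/(ζ-z)` is continuous on the
circle, so `q(z) = lim q(rz) = (1/2) Kg β z - (1/2) Kg α z`; masses (g = 1): `β(T) - α(T) = 2`,
`β(T) + α(T) ≤ k`.
Finally `D = f' * exp (Lg β - Lg α)` has `z D' = 0`: by `LA_kg`
`z f''/f' = q - 1 = (1/2)(Kg β - β(T)) - (1/2)(Kg α - α(T)) = - z (Lg β)' + z (Lg α)'`,
so `D' = 0` on the disc minus 0, hence on the disc, and `D(0) = 1`.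
For the mutually singular version apply `JOR_rep`.
-/

open MeasureTheory Set Filter Topology Metric
open scoped Real ENNReal ComplexConjugate

namespace Pool.H90.VK

noncomputable section

/-- Push-forward of the measure with density `u` on `(0, 2π]` to the circle. -/
def PAA_m (u : ℝ → ℝ) : Measure ℂ :=
  Measure.map (fun θ : ℝ => Complex.exp (θ * Complex.I))
    ((volume.restrict (Ioc 0 (2 * π))).withDensity (fun θ => ENNReal.ofReal (u θ)))

theorem PAA_m_finite {u : ℝ → ℝ} (hu : Continuous u) : IsFiniteMeasure (PAA_m u) := by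
  have h : IsFiniteMeasure ((volume.restrict (Ioc 0 (2 * π))).withDensity
      (fun θ => ENNReal.ofReal (u θ))) :=
    isFiniteMeasure_withDensity_ofReal (hu.integrableOn_Ioc (a := 0) (b := 2 * π)).2
  unfold PAA_m
  infer_instance

theorem PAA_m_circ (u : ℝ → ℝ) : OnCircle (PAA_m u) := by
  unfold OnCircle PAA_m
  rw [Measure.map_apply (by fun_prop) isClosed_sphere.measurableSet.compl]
  have : (fun θ : ℝ => Complex.exp (θ * Complex.I)) ⁻¹' (sphere (0 : ℂ) 1)ᶜ = ∅ := by
    ext θ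
    simp [Complex.norm_exp_ofReal_mul_I]
  rw [this, measure_empty]

theorem PAA_m_int {E : Type*} [NormedAddCommGroup E] [NormedSpace ℝ E] {u : ℝ → ℝ}
    (hu : Continuous u) (hu0 : ∀ θ, 0 ≤ u θ) {g : ℂ → E} (hg : StronglyMeasurable g) :
    ∫ ζ, g ζ ∂(PAA_m u) = ∫ θ in (0 : ℝ)..(2 * π), u θ • g (Complex.exp (θ * Complex.I)) := by
  unfold PAA_m
  have hφ : Continuous (fun θ : ℝ => Complex.exp (θ * Complex.I)) := by fun_prop
  rw [integral_map hφ.aemeasurable hg.aestronglyMeasurable,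
    integral_withDensity_eq_integral_toReal_smul (by fun_prop)
      (Eventually.of_forall fun _ => ENNReal.ofReal_lt_top),
    intervalIntegral.integral_of_le (by positivity)]
  refine integral_congr_ae (Eventually.of_forall fun θ => ?_)
  simp only [ENNReal.toReal_ofReal (hu0 θ)]

theorem PAA_m_mass {u : ℝ → ℝ} (hu : Continuous u) (hu0 : ∀ θ, 0 ≤ u θ) :
    (PAA_m u).real univ = ∫ θ in (0 : ℝ)..(2 * π), u θ := by
  have := PAA_m_finite hu
  have h := PAA_m_int hu hu0 (g := fun _ => (1 : ℝ)) stronglyMeasurable_const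
  rw [integral_const, smul_eq_mul, mul_one] at h
  rw [h]
  simp only [smul_eq_mul, mul_one]

theorem PAA_const {H : ℂ → ℂ} (hd : DifferentiableOn ℂ H (ball (0 : ℂ) 1))
    (hre : ∀ z ∈ ball (0 : ℂ) 1, (H z).re = 0) (h0 : H 0 = 0) :
    ∀ z ∈ ball (0 : ℂ) 1, H z = 0 := by
  have h00 : (0 : ℂ) ∈ ball (0 : ℂ) 1 := mem_ball_self one_pos
  rcases (hd.analyticOnNhd isOpen_ball).is_constant_or_isOpen
    (convex_ball (0 : ℂ) 1).isPreconnected with ⟨w, hw⟩ | h
  · intro z hz
    rw [hw z hz, ← hw 0 h00, h0]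
  · exfalso
    have h1 := h _ Subset.rfl isOpen_ball
    have h2 : (0 : ℂ) ∈ H '' ball (0 : ℂ) 1 := ⟨0, h00, h0⟩
    obtain ⟨ε, hε, hsub⟩ := Metric.isOpen_iff.1 h1 0 h2
    have h3 : ((ε / 2 : ℝ) : ℂ) ∈ ball (0 : ℂ) ε := by
      rw [mem_ball_zero_iff, Complex.norm_real, Real.norm_eq_abs, abs_of_pos (by positivity)]
      linarith
    obtain ⟨z, hz, hzε⟩ := hsub h3
    have h4 := hre z hz
    rw [hzε, Complex.ofReal_re] at h4
    linarith

/-- kernel on the circle -/
theorem PAA_ker_cont {z : ℂ} (hz : z ∈ ball (0 : ℂ) 1) :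
    Continuous (fun θ : ℝ => (Complex.exp (θ * Complex.I) + z) / (Complex.exp (θ * Complex.I) - z)) := by
  refine Continuous.div (by fun_prop) (by fun_prop) fun θ h => ?_
  rw [mem_ball_zero_iff] at hz
  rw [← sub_eq_zero.1 h, Complex.norm_exp_ofReal_mul_I] at hz
  exact lt_irrefl _ hz

theorem PAA_ker_contOn {z : ℂ} (hz : z ∈ ball (0 : ℂ) 1) :
    ContinuousOn (fun ζ : ℂ => (ζ + z) / (ζ - z)) (sphere (0 : ℂ) 1) := by
  refine ContinuousOn.div (by fun_prop) (by fun_prop) fun ζ hζ h => ?_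
  rw [mem_ball_zero_iff] at hz
  rw [mem_sphere_zero_iff_norm, sub_eq_zero.1 h] at hζ
  linarith

theorem PAA_ker_meas (z : ℂ) : StronglyMeasurable (fun ζ : ℂ => (ζ + z) / (ζ - z)) :=
  Measurable.stronglyMeasurable (by fun_prop)

/-- Herglotz formula for a function analytic on a neighbourhood of the closed disc. -/
theorem PAA_herglotz {F : ℂ → ℂ} {R : ℝ} (hR : 1 < R) (hF : DifferentiableOn ℂ F (ball (0 : ℂ) R))
    (hF0 : F 0 = 1) :
    (∀ z ∈ ball (0 : ℂ) 1, F z =
      (1 / 2) * Kg (PAA_m (fun θ => 1 / π * max (F (Complex.exp (θ * Complex.I))).re 0)) z -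
      (1 / 2) * Kg (PAA_m (fun θ => 1 / π * max (-(F (Complex.exp (θ * Complex.I))).re) 0)) z) ∧
    (PAA_m (fun θ => 1 / π * max (F (Complex.exp (θ * Complex.I))).re 0)).real univ -
      (PAA_m (fun θ => 1 / π * max (-(F (Complex.exp (θ * Complex.I))).re) 0)).real univ = 2 ∧
    (PAA_m (fun θ => 1 / π * max (F (Complex.exp (θ * Complex.I))).re 0)).real univ +
      (PAA_m (fun θ => 1 / π * max (-(F (Complex.exp (θ * Complex.I))).re) 0)).real univ =
      1 / π * ∫ θ in (0 : ℝ)..(2 * π), |(F (Complex.exp (θ * Complex.I))).re| := by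
  have hπ := Real.pi_pos
  have hsubR : closedBall (0 : ℂ) 1 ⊆ ball (0 : ℂ) R := closedBall_subset_ball hR
  have hmem : ∀ θ : ℝ, Complex.exp (θ * Complex.I) ∈ ball (0 : ℂ) R := by
    intro θ
    apply hsubR
    rw [mem_closedBall_zero_iff, Complex.norm_exp_ofReal_mul_I]
  have hFc : Continuous (fun θ : ℝ => F (Complex.exp (θ * Complex.I))) :=
    hF.continuousOn.comp_continuous (by fun_prop) hmem
  obtain ⟨U, hU⟩ : ∃ U : ℝ → ℝ, U = fun θ : ℝ => (F (Complex.exp (θ * Complex.I))).re :=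
    ⟨_, rfl⟩
  have hUc : Continuous U := by rw [hU]; exact Complex.continuous_re.comp hFc
  obtain ⟨up, hup⟩ : ∃ u : ℝ → ℝ, u = fun θ => 1 / π * max (U θ) 0 := ⟨_, rfl⟩
  obtain ⟨um, hum⟩ : ∃ u : ℝ → ℝ, u = fun θ => 1 / π * max (-(U θ)) 0 := ⟨_, rfl⟩
  have hupc : Continuous up := by rw [hup]; fun_prop
  have humc : Continuous um := by rw [hum]; fun_prop
  have hup0 : ∀ θ, 0 ≤ up θ := by
    intro θ; rw [hup]; exact mul_nonneg (by positivity) (le_max_right _ _)
  have hum0 : ∀ θ, 0 ≤ um θ := by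
    intro θ; rw [hum]; exact mul_nonneg (by positivity) (le_max_right _ _)
  have hdiff : ∀ θ, up θ - um θ = 1 / π * U θ := by
    intro θ
    rw [hup, hum]
    simp only
    rcases le_total 0 (U θ) with h | h
    · rw [max_eq_left h, max_eq_right (by linarith)]; ring
    · rw [max_eq_right h, max_eq_left (by linarith)]; ring
  have hsum : ∀ θ, up θ + um θ = 1 / π * |U θ| := by
    intro θ
    rw [hup, hum]
    simp only
    rcases le_total 0 (U θ) with h | h
    · rw [max_eq_left h, max_eq_right (by linarith), abs_of_nonneg h]; ring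
    · rw [max_eq_right h, max_eq_left (by linarith), abs_of_nonpos h]; ring
  have e1 : (fun θ : ℝ => 1 / π * max (F (Complex.exp (θ * Complex.I))).re 0) = up := by
    rw [hup, hU]
  have e2 : (fun θ : ℝ => 1 / π * max (-(F (Complex.exp (θ * Complex.I))).re) 0) = um := by
    rw [hum, hU]
  rw [e1, e2]
  have fp := PAA_m_finite hupc
  have fm := PAA_m_finite humc
  -- the Poisson formula
  have hdc : DiffContOnCl ℂ F (ball (0 : ℂ) 1) := by
    apply DifferentiableOn.diffContOnCl
    rw [closure_ball (0 : ℂ) one_ne_zero]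
    exact hF.mono hsubR
  have hcirc : ∀ θ : ℝ, circleMap (0 : ℂ) 1 θ = Complex.exp (θ * Complex.I) := by
    intro θ; simp [circleMap]
  have hpois : ∀ z ∈ ball (0 : ℂ) 1, (F z).re = (2 * π)⁻¹ * ∫ θ in (0 : ℝ)..(2 * π),
      U θ * ((Complex.exp (θ * Complex.I) + z) / (Complex.exp (θ * Complex.I) - z)).re := by
    intro z hz
    have h1 := hdc.circleAverage_re_herglotzRieszKernel_smul' hz
    rw [Real.circleAverage_def] at h1
    simp only [hcirc, sub_zero] at h1
    have hk := PAA_ker_cont hz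
    have hint : IntervalIntegrable (fun θ : ℝ =>
        ((Complex.exp (θ * Complex.I) + z) / (Complex.exp (θ * Complex.I) - z)).re •
          F (Complex.exp (θ * Complex.I))) volume 0 (2 * π) :=
      ((Complex.continuous_re.comp hk).smul hFc).intervalIntegrable _ _
    have h2 := Complex.reCLM.intervalIntegral_comp_comm hint
    have h3 : (F z).re = (2 * π)⁻¹ * (∫ θ in (0 : ℝ)..(2 * π),
        ((Complex.exp (θ * Complex.I) + z) / (Complex.exp (θ * Complex.I) - z)).re •
          F (Complex.exp (θ * Complex.I))).re := by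
      rw [← h1, Complex.smul_re, smul_eq_mul]
    rw [h3]
    congr 1
    have h4 : (∫ θ in (0 : ℝ)..(2 * π),
        ((Complex.exp (θ * Complex.I) + z) / (Complex.exp (θ * Complex.I) - z)).re •
          F (Complex.exp (θ * Complex.I))).re = ∫ θ in (0 : ℝ)..(2 * π),
          Complex.reCLM (((Complex.exp (θ * Complex.I) + z) /
            (Complex.exp (θ * Complex.I) - z)).re • F (Complex.exp (θ * Complex.I))) := h2.symm
    rw [h4]
    refine intervalIntegral.integral_congr fun θ _ => ?_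
    simp only [Complex.reCLM_apply, Complex.smul_re, smul_eq_mul, hU]
    ring
  -- real part of `Kg`
  have hKg : ∀ (u : ℝ → ℝ), Continuous u → (∀ θ, 0 ≤ u θ) → ∀ z ∈ ball (0 : ℂ) 1,
      (Kg (PAA_m u) z).re = ∫ θ in (0 : ℝ)..(2 * π),
      u θ * ((Complex.exp (θ * Complex.I) + z) / (Complex.exp (θ * Complex.I) - z)).re := by
    intro u hu hu0 z hz
    have hk := PAA_ker_cont hz
    unfold Kg
    rw [PAA_m_int hu hu0 (PAA_ker_meas z)]
    have hint : IntervalIntegrable (fun θ : ℝ => u θ •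
        ((Complex.exp (θ * Complex.I) + z) / (Complex.exp (θ * Complex.I) - z))) volume 0
          (2 * π) := (hu.smul hk).intervalIntegrable _ _
    have h2 := Complex.reCLM.intervalIntegral_comp_comm hint
    have h4 : (∫ θ in (0 : ℝ)..(2 * π), u θ •
        ((Complex.exp (θ * Complex.I) + z) / (Complex.exp (θ * Complex.I) - z))).re =
        ∫ θ in (0 : ℝ)..(2 * π), Complex.reCLM (u θ •
        ((Complex.exp (θ * Complex.I) + z) / (Complex.exp (θ * Complex.I) - z))) := h2.symm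
    rw [h4]
    refine intervalIntegral.integral_congr fun θ _ => ?_
    simp only [Complex.reCLM_apply, Complex.smul_re, smul_eq_mul]
  have hmean : ∫ θ in (0 : ℝ)..(2 * π), U θ = 2 * π := by
    have h := hpois 0 (mem_ball_self one_pos)
    rw [hF0, Complex.one_re] at h
    have h2 : ∫ θ in (0 : ℝ)..(2 * π), U θ * ((Complex.exp (θ * Complex.I) + 0) /
        (Complex.exp (θ * Complex.I) - 0)).re = ∫ θ in (0 : ℝ)..(2 * π), U θ := by
      refine intervalIntegral.integral_congr fun θ _ => ?_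
      simp only [add_zero, sub_zero]
      rw [div_self (Complex.exp_ne_zero _), Complex.one_re, mul_one]
    rw [h2] at h
    have h3 : (2 * π) ≠ 0 := by positivity
    field_simp at h
    linarith
  have hmass2 : (PAA_m up).real univ - (PAA_m um).real univ = 2 := by
    rw [PAA_m_mass hupc hup0, PAA_m_mass humc hum0,
      ← intervalIntegral.integral_sub (hupc.intervalIntegrable _ _)
        (humc.intervalIntegrable _ _)]
    simp only [hdiff]
    rw [intervalIntegral.integral_const_mul, hmean]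
    field_simp
  refine ⟨?_, hmass2, ?_⟩
  · -- the function with vanishing real part
    have hdK := (KA_diff (PAA_m up) (PAA_m_circ up)).const_mul (1 / 2 : ℂ)
    have hdK' := (KA_diff (PAA_m um) (PAA_m_circ um)).const_mul (1 / 2 : ℂ)
    have hH := PAA_const (H := fun z => F z -
      ((1 / 2) * Kg (PAA_m up) z - (1 / 2) * Kg (PAA_m um) z))
      ((hF.mono (ball_subset_closedBall.trans hsubR)).sub (hdK.sub hdK')) ?_ ?_
    · intro z hz
      exact sub_eq_zero.1 (hH z hz)
    · intro z hz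
      have hk : Continuous (fun θ : ℝ => ((Complex.exp (θ * Complex.I) + z) /
          (Complex.exp (θ * Complex.I) - z)).re) := Complex.continuous_re.comp (PAA_ker_cont hz)
      have i1 : IntervalIntegrable (fun θ : ℝ => up θ * ((Complex.exp (θ * Complex.I) + z) /
          (Complex.exp (θ * Complex.I) - z)).re) volume 0 (2 * π) :=
        (hupc.mul hk).intervalIntegrable _ _
      have i2 : IntervalIntegrable (fun θ : ℝ => um θ * ((Complex.exp (θ * Complex.I) + z) /
          (Complex.exp (θ * Complex.I) - z)).re) volume 0 (2 * π) :=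
        (humc.mul hk).intervalIntegrable _ _
      have r1 : ∀ w : ℂ, ((1 / 2 : ℂ) * w).re = 1 / 2 * w.re := by
        intro w
        have : (1 / 2 : ℂ) = ((1 / 2 : ℝ) : ℂ) := by push_cast; rfl
        rw [this, Complex.re_ofReal_mul]
      simp only [Complex.sub_re, r1]
      rw [hpois z hz, hKg up hupc hup0 z hz, hKg um humc hum0 z hz, ← mul_sub,
        ← intervalIntegral.integral_sub i1 i2]
      have h5 : ∀ θ : ℝ, up θ * ((Complex.exp (θ * Complex.I) + z) /
          (Complex.exp (θ * Complex.I) - z)).re - um θ * ((Complex.exp (θ * Complex.I) + z) /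
          (Complex.exp (θ * Complex.I) - z)).re = 1 / π * (U θ * ((Complex.exp (θ * Complex.I) + z) /
          (Complex.exp (θ * Complex.I) - z)).re) := by
        intro θ
        rw [← sub_mul, hdiff]
        ring
      have h6 : ∫ θ in (0 : ℝ)..(2 * π), (up θ * ((Complex.exp (θ * Complex.I) + z) /
          (Complex.exp (θ * Complex.I) - z)).re - um θ * ((Complex.exp (θ * Complex.I) + z) /
          (Complex.exp (θ * Complex.I) - z)).re) = 1 / π * ∫ θ in (0 : ℝ)..(2 * π),
          (U θ * ((Complex.exp (θ * Complex.I) + z) / (Complex.exp (θ * Complex.I) - z)).re) := by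
        rw [← intervalIntegral.integral_const_mul]
        exact intervalIntegral.integral_congr fun θ _ => h5 θ
      rw [h6, mul_inv]
      ring
    · rw [hF0, KA_zero _ (PAA_m_circ up), KA_zero _ (PAA_m_circ um), ← mul_sub,
        ← Complex.ofReal_sub, hmass2]
      norm_num
  · rw [PAA_m_mass hupc hup0, PAA_m_mass humc hum0,
      ← intervalIntegral.integral_add (hupc.intervalIntegrable _ _)
        (humc.intervalIntegrable _ _)]
    simp only [hsum]
    rw [intervalIntegral.integral_const_mul, hU]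

theorem PAA0 {k : ℝ} {f : ℂ → ℂ} (hf : InV k f) : ∃ β α : Measure ℂ, PRep k f β α := by
  have hπ := Real.pi_pos
  have hd1 : DifferentiableOn ℂ (deriv f) (ball (0 : ℂ) 1) := hf.diff.deriv isOpen_ball
  have hd2 : DifferentiableOn ℂ (deriv (deriv f)) (ball (0 : ℂ) 1) := hd1.deriv isOpen_ball
  obtain ⟨q, hq⟩ : ∃ q : ℂ → ℂ, q = fun z => 1 + z * deriv (deriv f) z / deriv f z := ⟨_, rfl⟩
  have hqd : DifferentiableOn ℂ q (ball (0 : ℂ) 1) := by
    rw [hq]
    exact (differentiableOn_const _).add ((differentiableOn_id.mul hd2).div hd1 hf.ne_zero)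
  have hq0 : q 0 = 1 := by rw [hq]; simp
  have h00 : (0 : ℂ) ∈ ball (0 : ℂ) 1 := mem_ball_self one_pos
  -- dilations
  have hdil : ∀ r : ℝ, 0 < r → r < 1 → 1 < r⁻¹ ∧
      DifferentiableOn ℂ (fun z : ℂ => q (r * z)) (ball (0 : ℂ) r⁻¹) := by
    intro r hr0 hr1
    refine ⟨(one_lt_inv₀ hr0).2 hr1, ?_⟩
    refine hqd.comp (by fun_prop) fun z hz => ?_
    rw [mem_ball_zero_iff] at hz ⊢
    rw [norm_mul, Complex.norm_real, Real.norm_eq_abs, abs_of_pos hr0]
    calc r * ‖z‖ < r * r⁻¹ := mul_lt_mul_of_pos_left hz hr0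
      _ = 1 := mul_inv_cancel₀ hr0.ne'
  have hher := fun (r : ℝ) (hr0 : 0 < r) (hr1 : r < 1) =>
    PAA_herglotz (hdil r hr0 hr1).1 (hdil r hr0 hr1).2 (by rw [mul_zero, hq0])
  obtain ⟨bu, hbu⟩ : ∃ bu : ℝ → ℝ → ℝ, bu = fun r θ : ℝ =>
    1 / π * max (q (r * Complex.exp (θ * Complex.I))).re 0 := ⟨_, rfl⟩
  obtain ⟨au, hau⟩ : ∃ au : ℝ → ℝ → ℝ, au = fun r θ : ℝ =>
    1 / π * max (-(q (r * Complex.exp (θ * Complex.I))).re) 0 := ⟨_, rfl⟩
  have hmem : ∀ r : ℝ, 0 < r → r < 1 → ∀ θ : ℝ,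
      (r : ℂ) * Complex.exp (θ * Complex.I) ∈ ball (0 : ℂ) 1 := by
    intro r hr0 hr1 θ
    rw [mem_ball_zero_iff, norm_mul, Complex.norm_real, Real.norm_eq_abs, abs_of_pos hr0,
      Complex.norm_exp_ofReal_mul_I, mul_one]
    exact hr1
  have hqc : ∀ r : ℝ, 0 < r → r < 1 →
      Continuous (fun θ : ℝ => q (r * Complex.exp (θ * Complex.I))) := fun r hr0 hr1 =>
    hqd.continuousOn.comp_continuous (by fun_prop) (hmem r hr0 hr1)
  have hbuc : ∀ r : ℝ, 0 < r → r < 1 → Continuous (bu r) := by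
    intro r hr0 hr1
    have := Complex.continuous_re.comp (hqc r hr0 hr1)
    rw [hbu]
    exact continuous_const.mul (this.max continuous_const)
  have hauc : ∀ r : ℝ, 0 < r → r < 1 → Continuous (au r) := by
    intro r hr0 hr1
    have := Complex.continuous_re.comp (hqc r hr0 hr1)
    rw [hau]
    exact continuous_const.mul (this.neg.max continuous_const)
  classical
  obtain ⟨mb, hmb⟩ : ∃ mb : ℝ → Measure ℂ, mb = fun r => if 0 < r ∧ r < 1 then PAA_m (bu r)
    else 0 := ⟨_, rfl⟩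
  obtain ⟨ma, hma⟩ : ∃ ma : ℝ → Measure ℂ, ma = fun r => if 0 < r ∧ r < 1 then PAA_m (au r)
    else 0 := ⟨_, rfl⟩
  have hmbp : ∀ r : ℝ, 0 < r → r < 1 → mb r = PAA_m (bu r) := fun r h0 h1 => by
    rw [hmb]; exact if_pos ⟨h0, h1⟩
  have hmap : ∀ r : ℝ, 0 < r → r < 1 → ma r = PAA_m (au r) := fun r h0 h1 => by
    rw [hma]; exact if_pos ⟨h0, h1⟩
  -- the three facts
  have hF1 : ∀ r : ℝ, 0 < r → r < 1 → ∀ z ∈ ball (0 : ℂ) 1,
      q (r * z) = (1 / 2) * Kg (mb r) z - (1 / 2) * Kg (ma r) z := by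
    intro r h0 h1 z hz
    rw [hmbp r h0 h1, hmap r h0 h1, hbu, hau]
    exact (hher r h0 h1).1 z hz
  have hF2 : ∀ r : ℝ, 0 < r → r < 1 → (mb r).real univ - (ma r).real univ = 2 := by
    intro r h0 h1
    rw [hmbp r h0 h1, hmap r h0 h1, hbu, hau]
    exact (hher r h0 h1).2.1
  have hF3 : ∀ r : ℝ, 0 < r → r < 1 → (mb r).real univ + (ma r).real univ ≤ k := by
    intro r h0 h1
    rw [hmbp r h0 h1, hmap r h0 h1, hbu, hau]
    refine (hher r h0 h1).2.2.le.trans ?_
    have h2 := hf.rot r h0 h1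
    have h3 : ∫ θ in (0 : ℝ)..(2 * π), |(q (r * Complex.exp (θ * Complex.I))).re| ≤ k * π := by
      rw [hq]
      exact h2
    calc 1 / π * ∫ θ in (0 : ℝ)..(2 * π), |(q (r * Complex.exp (θ * Complex.I))).re|
        ≤ 1 / π * (k * π) := mul_le_mul_of_nonneg_left h3 (by positivity)
      _ = k := by field_simp
  have hcut : ∀ r : ℝ, ¬ (0 < r ∧ r < 1) → mb r = 0 ∧ ma r = 0 := by
    intro r hr
    constructor
    · rw [hmb]; exact if_neg hr
    · rw [hma]; exact if_neg hr
  have hfinb : ∀ r, IsFiniteMeasure (mb r) := by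
    intro r
    by_cases hr : 0 < r ∧ r < 1
    · rw [hmbp r hr.1 hr.2]; exact PAA_m_finite (hbuc r hr.1 hr.2)
    · rw [(hcut r hr).1]; infer_instance
  have hfina : ∀ r, IsFiniteMeasure (ma r) := by
    intro r
    by_cases hr : 0 < r ∧ r < 1
    · rw [hmap r hr.1 hr.2]; exact PAA_m_finite (hauc r hr.1 hr.2)
    · rw [(hcut r hr).2]; infer_instance
  have hcb : ∀ r, OnCircle (mb r) := by
    intro r
    by_cases hr : 0 < r ∧ r < 1
    · rw [hmbp r hr.1 hr.2]; exact PAA_m_circ _
    · rw [(hcut r hr).1]; unfold OnCircle; simp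
  have hca : ∀ r, OnCircle (ma r) := by
    intro r
    by_cases hr : 0 < r ∧ r < 1
    · rw [hmap r hr.1 hr.2]; exact PAA_m_circ _
    · rw [(hcut r hr).2]; unfold OnCircle; simp
  have hCb : ∀ r, (mb r).real univ ≤ max k 0 := by
    intro r
    by_cases hr : 0 < r ∧ r < 1
    · refine le_max_of_le_left ?_
      have h3 := hF3 r hr.1 hr.2
      have h4 : 0 ≤ (ma r).real univ := measureReal_nonneg
      linarith
    · rw [(hcut r hr).1]
      simp
  have hCa : ∀ r, (ma r).real univ ≤ max k 0 := by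
    intro r
    by_cases hr : 0 < r ∧ r < 1
    · refine le_max_of_le_left ?_
      have h3 := hF3 r hr.1 hr.2
      have h4 : 0 ≤ (mb r).real univ := measureReal_nonneg
      linarith
    · rw [(hcut r hr).2]
      simp
  -- limits
  let U : Ultrafilter ℝ := Ultrafilter.of (𝓝[<] (1 : ℝ))
  have hU : (U : Filter ℝ) ≤ 𝓝[<] (1 : ℝ) := Ultrafilter.of_le _
  obtain ⟨β, finβ, cβ, hβr, hβc⟩ := CMP U mb hfinb hcb (max k 0) hCb
  obtain ⟨α, finα, cα, hαr, hαc⟩ := CMP U ma hfina hca (max k 0) hCa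
  have hev : ∀ᶠ r in (U : Filter ℝ), 0 < r ∧ r < 1 := by
    apply hU
    have h1 : ∀ᶠ r : ℝ in 𝓝[<] 1, 0 < r :=
      nhdsWithin_le_nhds (Ioi_mem_nhds (show (0 : ℝ) < 1 by norm_num))
    filter_upwards [h1, self_mem_nhdsWithin] with r h2 h3
    exact ⟨h2, h3⟩
  have hq1 : ∀ z ∈ ball (0 : ℂ) 1, q z = (1 / 2) * Kg β z - (1 / 2) * Kg α z := by
    intro z hz
    have t1 : Tendsto (fun r : ℝ => q (r * z)) U (𝓝 (q z)) := by
      have c1 : ContinuousAt q z := (hqd.differentiableAt (isOpen_ball.mem_nhds hz)).continuousAt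
      have c2 : Tendsto (fun r : ℝ => (r : ℂ) * z) U (𝓝 z) := by
        have c3 : Tendsto (fun r : ℝ => (r : ℂ) * z) (𝓝 1) (𝓝 (((1 : ℝ) : ℂ) * z)) := by
          have : Continuous (fun r : ℝ => (r : ℂ) * z) := by fun_prop
          exact this.tendsto 1
        rw [Complex.ofReal_one, one_mul] at c3
        exact c3.mono_left (hU.trans nhdsWithin_le_nhds)
      exact c1.tendsto.comp c2
    have t2 := hβc _ (PAA_ker_contOn hz)
    have t3 := hαc _ (PAA_ker_contOn hz)
    have t4 : Tendsto (fun r => (1 / 2 : ℂ) * Kg (mb r) z - (1 / 2) * Kg (ma r) z) U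
        (𝓝 ((1 / 2) * Kg β z - (1 / 2) * Kg α z)) :=
      (t2.const_mul (1 / 2 : ℂ)).sub (t3.const_mul (1 / 2 : ℂ))
    have t5 : Tendsto (fun r : ℝ => q (r * z)) U
        (𝓝 ((1 / 2) * Kg β z - (1 / 2) * Kg α z)) := by
      refine t4.congr' ?_
      filter_upwards [hev] with r hr
      exact (hF1 r hr.1 hr.2 z hz).symm
    exact tendsto_nhds_unique t1 t5
  have tmb : Tendsto (fun r => (mb r).real univ) U (𝓝 (β.real univ)) := by
    have := hβr (fun _ => 1) continuousOn_const
    simpa using this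
  have tma : Tendsto (fun r => (ma r).real univ) U (𝓝 (α.real univ)) := by
    have := hαr (fun _ => 1) continuousOn_const
    simpa using this
  have hm2 : β.real univ - α.real univ = 2 := by
    have t1 := tmb.sub tma
    have t2 : Tendsto (fun r => (mb r).real univ - (ma r).real univ) U (𝓝 2) := by
      refine tendsto_const_nhds.congr' ?_
      filter_upwards [hev] with r hr
      exact (hF2 r hr.1 hr.2).symm
    exact tendsto_nhds_unique t1 t2
  have hmk : β.real univ + α.real univ ≤ k := by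
    refine le_of_tendsto (tmb.add tma) ?_
    filter_upwards [hev] with r hr
    exact hF3 r hr.1 hr.2
  -- the representation
  have hLβ := LA_diff β cβ
  have hLα := LA_diff α cα
  obtain ⟨D, hD⟩ : ∃ D : ℂ → ℂ, D = fun z => deriv f z * Complex.exp (Lg β z - Lg α z) :=
    ⟨_, rfl⟩
  have hDd : DifferentiableOn ℂ D (ball (0 : ℂ) 1) := by
    rw [hD]
    exact hd1.mul (hLβ.sub hLα).cexp
  have hzD : ∀ z ∈ ball (0 : ℂ) 1, z * deriv D z = 0 := by
    intro z hz
    have hzn : ‖z‖ < 1 := mem_ball_zero_iff.1 hz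
    have hn := isOpen_ball.mem_nhds hz
    have a1 := (hd1.differentiableAt hn).hasDerivAt
    have a2 := (hLβ.differentiableAt hn).hasDerivAt
    have a3 := (hLα.differentiableAt hn).hasDerivAt
    have a4 := a1.mul (a2.sub a3).cexp
    have a5 : deriv D z = deriv (deriv f) z * Complex.exp (Lg β z - Lg α z) +
        deriv f z * (Complex.exp (Lg β z - Lg α z) * (deriv (Lg β) z - deriv (Lg α) z)) := by
      rw [hD]
      exact a4.deriv
    have b1 := LA_kg β cβ hzn
    have b2 := LA_kg α cα hzn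
    have b3 := hq1 z hz
    have hne := hf.ne_zero z hz
    have b4 : z * deriv (deriv f) z / deriv f z = (1 / 2) * Kg β z - (1 / 2) * Kg α z - 1 := by
      rw [← b3, hq]
      ring
    have b5 : z * deriv (deriv f) z =
        ((1 / 2) * Kg β z - (1 / 2) * Kg α z - 1) * deriv f z := by
      rw [← b4, div_mul_cancel₀ _ hne]
    have b6 : (β.real univ : ℂ) - (α.real univ : ℂ) = 2 := by
      rw [← Complex.ofReal_sub, hm2]; norm_num
    have b7 : z * deriv D z = (z * deriv (deriv f) z + deriv f z *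
        (z * deriv (Lg β) z - z * deriv (Lg α) z)) * Complex.exp (Lg β z - Lg α z) := by
      rw [a5]; ring
    rw [b7, b5, b1, b2]
    have b8 : ((1 / 2) * Kg β z - (1 / 2) * Kg α z - 1) * deriv f z + deriv f z *
        (-(1 / 2) * (Kg β z - (β.real univ : ℂ)) - -(1 / 2) * (Kg α z - (α.real univ : ℂ))) =
        deriv f z * ((1 / 2) * ((β.real univ : ℂ) - (α.real univ : ℂ)) - 1) := by ring
    rw [b8, b6]
    ring
  have hD' : DifferentiableOn ℂ (deriv D) (ball (0 : ℂ) 1) := hDd.deriv isOpen_ball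
  have hD0 : EqOn (deriv D) 0 (ball (0 : ℂ) 1) := by
    have hne0 : ∀ z ∈ ball (0 : ℂ) 1, z ≠ 0 → deriv D z = 0 := fun z hz hz0 =>
      (mul_eq_zero.1 (hzD z hz)).resolve_left hz0
    intro z hz
    by_cases hz0 : z = 0
    · rw [hz0]
      have c1 : ContinuousAt (deriv D) 0 :=
        (hD'.differentiableAt (isOpen_ball.mem_nhds h00)).continuousAt
      have c2 : Tendsto (deriv D) (𝓝[≠] (0 : ℂ)) (𝓝 (deriv D 0)) :=
        c1.tendsto.mono_left nhdsWithin_le_nhds
      have c3 : Tendsto (deriv D) (𝓝[≠] (0 : ℂ)) (𝓝 0) := by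
        refine tendsto_const_nhds.congr' ?_
        filter_upwards [nhdsWithin_le_nhds (isOpen_ball.mem_nhds h00), self_mem_nhdsWithin] with
          w h1 h2
        exact (hne0 w h1 h2).symm
      exact tendsto_nhds_unique c2 c3
    · exact hne0 z hz hz0
  have hDc : ∀ z ∈ ball (0 : ℂ) 1, D z = 1 := by
    intro z hz
    have h1 := isOpen_ball.is_const_of_deriv_eq_zero (convex_ball (0 : ℂ) 1).isPreconnected hDd
      hD0 hz h00
    rw [h1, hD]
    simp only
    rw [LA_zero, LA_zero, hf.one, sub_zero, Complex.exp_zero, mul_one]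
  refine ⟨β, α, ⟨finβ, finα, cβ, cα, fun z hz => ?_, hm2, hmk⟩⟩
  have h1 := hDc z hz
  rw [hD] at h1
  simp only at h1
  have h2 : Complex.exp (Lg α z - Lg β z) = (Complex.exp (Lg β z - Lg α z))⁻¹ := by
    rw [← Complex.exp_neg, neg_sub]
  rw [h2]
  exact eq_inv_of_mul_eq_one_left h1

theorem PAA {k : ℝ} {f : ℂ → ℂ} (hf : InV k f) :
    ∃ β α : Measure ℂ, PRep k f β α ∧ β ⟂ₘ α := by
  obtain ⟨β, α, h⟩ := PAA0 hf
  obtain ⟨β', α', h1, h2, -⟩ := JOR_rep h
  exact ⟨β', α', h1, h2⟩

end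

end Pool.H90.VK
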