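import Pool.Agent.H90.VK.KA

/-!
# PW : Poisson integrals tested against a continuous function on an arc

Let `-π ≤ θ₁ < θ₂ ≤ π`... (any `θ₁ < θ₂ < θ₁ + 2π`), `μ` a finite measure on the circle without mass at
the two endpoints, `G` continuous on the closed disc. Then, as `R → 1-`,
`∫_{θ₁}^{θ₂} G(R e^{iθ}) Re Kg μ (R e^{iθ}) dθ → 2π ∫_{arc (θ₁,θ₂)} G dμ`.

Proof. By Fubini the left side is `∫ J_R(ζ) dμ(ζ)`, `J_R(ζ) = ∫_{θ₁}^{θ₂} G(R e^{iθ}) P_R(θ, ζ) dθ`,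
`P_R(θ, ζ) = (1-R²)/|ζ - R e^{iθ}|²` (`KA_re`). `|J_R| ≤ 2π sup|G|` since
`∫_{-π}^{π} P_R(θ,ζ) dθ = 2π` (e.g. `KA_mean0` for `μ = dirac ζ`). For `ζ = e^{iφ}` in the open arc
`J_R(ζ) → 2π G(ζ)`, for `ζ` outside the closed arc `J_R(ζ) → 0` (approximate identity:
for `|θ - φ| ≥ δ` mod `2π`, `P_R ≤ (1-R²)/c_δ²`, where `|ζ - R e^{iθ}| ≥ c_δ > 0`;
and `|G(Re^{iθ}) - G(ζ)|` small for `θ` near `φ`, `R` near 1). Dominated convergence
(`𝓝[<] 1` is countably generated). The open arc is `{e^{iθ} : θ₁ < θ < θ₂}`.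
-/

open MeasureTheory Set Filter Topology Metric
open scoped Real ENNReal ComplexConjugate

namespace Pool.H90.VK

noncomputable section

/-- open arc -/
def arc (θ₁ θ₂ : ℝ) : Set ℂ := (fun θ : ℝ => Complex.exp (θ * Complex.I)) '' Ioo θ₁ θ₂

theorem PW_arc_measurable (θ₁ θ₂ : ℝ) : MeasurableSet (arc θ₁ θ₂) := by
  have hc : Continuous (fun θ : ℝ => Complex.exp (θ * Complex.I)) := by fun_prop
  have h1 : Ioo θ₁ θ₂ = ⋃ n : ℕ, Icc (θ₁ + 1 / ((n : ℝ) + 1)) (θ₂ - 1 / ((n : ℝ) + 1)) := by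
    ext x
    simp only [mem_Ioo, mem_iUnion, mem_Icc]
    constructor
    · rintro ⟨h2, h3⟩
      obtain ⟨n, hn⟩ := exists_nat_one_div_lt (lt_min (sub_pos.2 h2) (sub_pos.2 h3))
      rw [lt_min_iff] at hn
      exact ⟨n, by linarith [hn.1], by linarith [hn.2]⟩
    · rintro ⟨n, h2, h3⟩
      have : (0 : ℝ) < 1 / ((n : ℝ) + 1) := by positivity
      exact ⟨by linarith, by linarith⟩
  unfold arc
  rw [h1, image_iUnion]
  exact MeasurableSet.iUnion fun n => ((isCompact_Icc.image hc).isClosed).measurableSet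

/-- the Poisson kernel -/
def PW_P (R θ : ℝ) (ζ : ℂ) : ℝ := (1 - R ^ 2) / ‖ζ - R * Complex.exp (θ * Complex.I)‖ ^ 2

theorem PW_norm {R : ℝ} (hR : 0 ≤ R) (θ : ℝ) : ‖(R : ℂ) * Complex.exp (θ * Complex.I)‖ = R := by
  rw [norm_mul, Complex.norm_exp_ofReal_mul_I, mul_one, Complex.norm_real,
    Real.norm_of_nonneg hR]

theorem PW_den {R : ℝ} (hR : 0 ≤ R) {ζ : ℂ} (hζ : ‖ζ‖ = 1) (θ : ℝ) :
    1 - R ≤ ‖ζ - R * Complex.exp (θ * Complex.I)‖ := by
  have := norm_sub_norm_le ζ (R * Complex.exp (θ * Complex.I))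
  rwa [PW_norm hR, hζ] at this

theorem PW_P_nonneg {R : ℝ} (hR : 0 ≤ R) (hR1 : R < 1) (θ : ℝ) (ζ : ℂ) : 0 ≤ PW_P R θ ζ := by
  unfold PW_P
  have : 0 ≤ 1 - R ^ 2 := by nlinarith
  positivity

theorem PW_P_mul {R : ℝ} (hR : 0 ≤ R) (hR1 : R < 1) {ζ : ℂ} (hζ : ‖ζ‖ = 1) (θ : ℝ) :
    ‖ζ - R * Complex.exp (θ * Complex.I)‖ ^ 2 * PW_P R θ ζ = 1 - R ^ 2 := by
  unfold PW_P
  have h1 := PW_den hR hζ θ
  have h2 : 0 < ‖ζ - R * Complex.exp (θ * Complex.I)‖ := by linarith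
  field_simp

theorem PW_P_le {R : ℝ} (hR : 0 ≤ R) (hR1 : R < 1) {ζ : ℂ} (hζ : ‖ζ‖ = 1) (θ : ℝ) :
    PW_P R θ ζ ≤ (1 - R ^ 2) / (1 - R) ^ 2 := by
  unfold PW_P
  have h1 := PW_den hR hζ θ
  have h0 : 0 ≤ 1 - R ^ 2 := by nlinarith
  exact div_le_div_of_nonneg_left h0 (by nlinarith)
    (pow_le_pow_left₀ (by linarith) h1 2)

theorem PW_P_cont {R : ℝ} (hR : 0 ≤ R) (hR1 : R < 1) {ζ : ℂ} (hζ : ‖ζ‖ = 1) :
    Continuous (fun θ : ℝ => PW_P R θ ζ) := by
  unfold PW_P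
  refine Continuous.div continuous_const (by fun_prop) fun θ => ?_
  have h1 := PW_den hR hζ θ
  have h2 : 0 < ‖ζ - R * Complex.exp (θ * Complex.I)‖ := by linarith
  positivity

theorem PW_mass {R : ℝ} (hR : 0 ≤ R) (hR1 : R < 1) {ζ : ℂ} (hζ : ‖ζ‖ = 1) (a : ℝ) :
    ∫ θ in a..(a + 2 * π), PW_P R θ ζ = 2 * π := by
  have hper : Function.Periodic (fun θ : ℝ => PW_P R θ ζ) (2 * π) := by
    intro θ
    show PW_P R (θ + 2 * π) ζ = PW_P R θ ζ
    unfold PW_P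
    have : Complex.exp (((θ + 2 * π : ℝ) : ℂ) * Complex.I) = Complex.exp (θ * Complex.I) := by
      have h := Complex.exp_periodic ((θ : ℂ) * Complex.I)
      rw [← h]
      congr 1
      push_cast
      ring
    rw [this]
  rw [hper.intervalIntegral_add_eq a 0, zero_add]
  have hd : DifferentiableOn ℂ (fun z : ℂ => (ζ + z) / (ζ - z)) (ball (0 : ℂ) 1) := by
    intro z hz
    have hz1 : ‖z‖ < 1 := by simpa using hz
    have hne : ζ - z ≠ 0 := by
      intro h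
      rw [sub_eq_zero] at h
      rw [← h, hζ] at hz1
      exact lt_irrefl _ hz1
    exact ((differentiableAt_const ζ).add differentiableAt_id).div
      ((differentiableAt_const ζ).sub differentiableAt_id) hne |>.differentiableWithinAt
  have h1 := KA_mean0 (fun z : ℂ => (ζ + z) / (ζ - z)) hd hR hR1
  have hζ0 : ζ ≠ 0 := by
    intro h
    rw [h, norm_zero] at hζ
    exact zero_ne_one hζ
  rw [add_zero, sub_zero, div_self hζ0, Complex.one_re, mul_one] at h1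
  refine Eq.trans ?_ h1
  refine intervalIntegral.integral_congr fun θ _ => ?_
  rw [KA_kernel_re hζ (by rw [PW_norm hR]; exact hR1), PW_norm hR]
  rfl

theorem PW_part {R : ℝ} (hR : 0 ≤ R) (hR1 : R < 1) {ζ : ℂ} (hζ : ‖ζ‖ = 1) {a b : ℝ} (hab : a ≤ b)
    (hb : b ≤ a + 2 * π) : ∫ θ in a..b, PW_P R θ ζ ≤ 2 * π := by
  have hc := PW_P_cont hR hR1 hζ
  have h1 := intervalIntegral.integral_add_adjacent_intervals (μ := volume)
    (hc.intervalIntegrable a b) (hc.intervalIntegrable b (a + 2 * π))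
  rw [PW_mass hR hR1 hζ] at h1
  have h2 : 0 ≤ ∫ θ in b..(a + 2 * π), PW_P R θ ζ :=
    intervalIntegral.integral_nonneg hb fun θ _ => PW_P_nonneg hR hR1 θ ζ
  linarith

theorem PW_ev : ∀ᶠ R : ℝ in 𝓝[<] 1, 0 ≤ R ∧ R < 1 := by
  filter_upwards [Ioo_mem_nhdsLT (zero_lt_one (α := ℝ))] with R hR
  exact ⟨hR.1.le, hR.2⟩

theorem PW_sq : Tendsto (fun R : ℝ => 1 - R ^ 2) (𝓝[<] 1) (𝓝 0) := by
  have h : Continuous (fun R : ℝ => 1 - R ^ 2) := by fun_prop
  have h1 := (h.tendsto 1).mono_left (nhdsWithin_le_nhds (s := Iio (1 : ℝ)))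
  simpa using h1

/-- away from the point the kernel tends to zero -/
theorem PW_out {ζ : ℂ} (hζ : ‖ζ‖ = 1) {a b : ℝ} (hab : a ≤ b)
    (hn : ∀ θ ∈ Icc a b, ζ ≠ Complex.exp (θ * Complex.I)) :
    Tendsto (fun R : ℝ => ∫ θ in a..b, PW_P R θ ζ) (𝓝[<] 1) (𝓝 0) := by
  have hc : Continuous (fun θ : ℝ => ‖ζ - Complex.exp (θ * Complex.I)‖) := by fun_prop
  obtain ⟨θ₀, hθ₀, hmin⟩ := isCompact_Icc.exists_isMinOn (nonempty_Icc.2 hab) hc.continuousOn
  set c : ℝ := ‖ζ - Complex.exp (θ₀ * Complex.I)‖ with hcdef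
  have hc0 : 0 < c := norm_pos_iff.2 (sub_ne_zero.2 (hn θ₀ hθ₀))
  have hcle : ∀ θ ∈ Icc a b, c ≤ ‖ζ - Complex.exp (θ * Complex.I)‖ := fun θ hθ => hmin hθ
  have hev : ∀ᶠ R : ℝ in 𝓝[<] 1, 1 - c / 2 < R := by
    have : Ioo (1 - c / 2) 1 ∈ 𝓝[<] (1 : ℝ) := Ioo_mem_nhdsLT (by linarith)
    filter_upwards [this] with R hR
    exact hR.1
  have hlim : Tendsto (fun R : ℝ => (1 - R ^ 2) / (c / 2) ^ 2 * |b - a|) (𝓝[<] 1) (𝓝 0) := by
    have := (PW_sq.div_const ((c / 2) ^ 2)).mul_const |b - a|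
    simpa using this
  refine squeeze_zero_norm' ?_ hlim
  filter_upwards [PW_ev, hev] with R hR hRc
  refine intervalIntegral.norm_integral_le_of_norm_le_const fun θ hθ => ?_
  rw [uIoc_of_le hab] at hθ
  have h1 := hcle θ ⟨hθ.1.le, hθ.2⟩
  have h2 : c / 2 ≤ ‖ζ - R * Complex.exp (θ * Complex.I)‖ := by
    have e1 : ζ - Complex.exp (θ * Complex.I) =
        (ζ - R * Complex.exp (θ * Complex.I)) - ((1 - R : ℝ) : ℂ) * Complex.exp (θ * Complex.I) := by
      push_cast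
      ring
    have e2 : ‖ζ - Complex.exp (θ * Complex.I)‖ ≤ ‖ζ - R * Complex.exp (θ * Complex.I)‖ + (1 - R) := by
      rw [e1]
      refine (norm_sub_le _ _).trans ?_
      rw [PW_norm (by linarith [hR.2])]
    linarith
  rw [Real.norm_of_nonneg (PW_P_nonneg hR.1 hR.2 θ ζ)]
  unfold PW_P
  have h0 : 0 ≤ 1 - R ^ 2 := by nlinarith [hR.1, hR.2]
  exact div_le_div_of_nonneg_left h0 (by positivity) (pow_le_pow_left₀ (by positivity) h2 2)

/-- at a point of the open arc -/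
theorem PW_in {ζ : ℂ} (hζ : ‖ζ‖ = 1) {θ₁ θ₂ : ℝ} (h2π : θ₂ < θ₁ + 2 * π) (hm : ζ ∈ arc θ₁ θ₂) :
    Tendsto (fun R : ℝ => ∫ θ in θ₁..θ₂, PW_P R θ ζ) (𝓝[<] 1) (𝓝 (2 * π)) := by
  obtain ⟨φ, hφ, rfl⟩ := hm
  have h1 : ∀ θ ∈ Icc θ₂ (θ₁ + 2 * π),
      Complex.exp (φ * Complex.I) ≠ Complex.exp (θ * Complex.I) := by
    intro θ hθ h
    rw [Complex.exp_eq_exp_iff_exists_int] at h
    obtain ⟨n, hn⟩ := h
    have h3 : (φ : ℂ) = θ + n * (2 * π) := by
      have h4 : ((φ : ℂ) - (θ + n * (2 * π))) * Complex.I = 0 := by linear_combination hn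
      rcases mul_eq_zero.1 h4 with h5 | h5
      · exact sub_eq_zero.1 h5
      · exact absurd h5 Complex.I_ne_zero
    have h4 : φ = θ + n * (2 * π) := by exact_mod_cast h3
    have hπ := Real.pi_pos
    have h5 : θ - φ = -n * (2 * π) := by rw [h4]; ring
    have h6 : 0 < θ - φ := by linarith [hθ.1, hφ.2]
    have h7 : θ - φ < 2 * π := by linarith [hθ.2, hφ.1]
    rw [h5] at h6 h7
    have h8 : (0 : ℝ) < -n := by
      by_contra hcon
      push Not at hcon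
      nlinarith
    have h9 : (-n : ℝ) < 1 := by
      by_contra hcon
      push Not at hcon
      nlinarith
    have h10 : (0 : ℤ) < -n := by exact_mod_cast h8
    have h11 : (-n : ℤ) < 1 := by exact_mod_cast h9
    omega
  have h2 := PW_out hζ h2π.le h1
  have h3 : Tendsto (fun R : ℝ => 2 * π - ∫ θ in θ₂..(θ₁ + 2 * π),
      PW_P R θ (Complex.exp (φ * Complex.I))) (𝓝[<] 1) (𝓝 (2 * π - 0)) := h2.const_sub _
  rw [sub_zero] at h3
  refine h3.congr' ?_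
  filter_upwards [PW_ev] with R hR
  have hc := PW_P_cont hR.1 hR.2 hζ
  have h4 := intervalIntegral.integral_add_adjacent_intervals (μ := volume)
    (hc.intervalIntegrable θ₁ θ₂) (hc.intervalIntegrable θ₂ (θ₁ + 2 * π))
  rw [PW_mass hR.1 hR.2 hζ] at h4
  linarith

theorem PW_Gcont {G : ℂ → ℝ} (hG : ContinuousOn G (closedBall (0 : ℂ) 1)) {R : ℝ} (hR : 0 ≤ R)
    (hR1 : R < 1) : Continuous (fun θ : ℝ => G (R * Complex.exp (θ * Complex.I))) := by
  refine hG.comp_continuous (by fun_prop) fun θ => ?_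
  rw [mem_closedBall_zero_iff, PW_norm hR]
  exact hR1.le

/-- approximate identity -/
theorem PW_approx {ζ : ℂ} (hζ : ‖ζ‖ = 1) {θ₁ θ₂ : ℝ} (h12 : θ₁ < θ₂) (h2π : θ₂ < θ₁ + 2 * π)
    {G : ℂ → ℝ} (hG : ContinuousOn G (closedBall (0 : ℂ) 1)) :
    Tendsto (fun R : ℝ => (∫ θ in θ₁..θ₂, G (R * Complex.exp (θ * Complex.I)) * PW_P R θ ζ) -
      G ζ * ∫ θ in θ₁..θ₂, PW_P R θ ζ) (𝓝[<] 1) (𝓝 0) := by
  obtain ⟨M, hM⟩ := (isCompact_closedBall (0 : ℂ) 1).exists_bound_of_continuousOn hG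
  have hζC : ζ ∈ closedBall (0 : ℂ) 1 := by simp [hζ]
  have hM0 : 0 ≤ M := (norm_nonneg _).trans (hM ζ hζC)
  have hπ := Real.pi_pos
  rw [Metric.tendsto_nhds]
  intro ε hε
  set ε' : ℝ := ε / (8 * π) with hε'
  have hε'0 : 0 < ε' := by positivity
  obtain ⟨δ, hδ, hδG⟩ := (Metric.continuousWithinAt_iff.1 (hG ζ hζC)) ε' hε'0
  set K : ℝ := 2 * M / δ ^ 2 with hK
  have hK0 : 0 ≤ K := by positivity
  have hbd : ∀ z ∈ closedBall (0 : ℂ) 1, |G z - G ζ| ≤ ε' + K * ‖ζ - z‖ ^ 2 := by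
    intro z hz
    by_cases h : dist z ζ < δ
    · have h1 := hδG hz h
      rw [Real.dist_eq] at h1
      have : 0 ≤ K * ‖ζ - z‖ ^ 2 := by positivity
      linarith
    · push Not at h
      rw [dist_comm, dist_eq_norm] at h
      have h1 : |G z - G ζ| ≤ 2 * M := by
        have h2 := hM z hz
        have h3 := hM ζ hζC
        rw [Real.norm_eq_abs] at h2 h3
        exact (abs_sub _ _).trans (by linarith)
      have h2 : δ ^ 2 ≤ ‖ζ - z‖ ^ 2 := pow_le_pow_left₀ hδ.le h 2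
      have h3 : 2 * M ≤ K * ‖ζ - z‖ ^ 2 := by
        calc 2 * M = K * δ ^ 2 := by rw [hK]; field_simp
          _ ≤ _ := mul_le_mul_of_nonneg_left h2 hK0
      linarith
  have hev : ∀ᶠ R : ℝ in 𝓝[<] 1, K * (1 - R ^ 2) < ε' := by
    have := PW_sq.const_mul K
    rw [mul_zero] at this
    exact this.eventually_lt_const hε'0
  filter_upwards [PW_ev, hev] with R hR hRK
  have hc := PW_P_cont hR.1 hR.2 hζ
  have hGc := PW_Gcont hG hR.1 hR.2
  have hsub := intervalIntegral.integral_sub (μ := volume) (a := θ₁) (b := θ₂)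
    (f := fun θ : ℝ => G (R * Complex.exp (θ * Complex.I)) * PW_P R θ ζ)
    (g := fun θ : ℝ => G ζ * PW_P R θ ζ) ((hGc.mul hc).intervalIntegrable _ _)
    ((continuous_const.mul hc).intervalIntegrable _ _)
  rw [Real.dist_eq, sub_zero, ← intervalIntegral.integral_const_mul, ← hsub]
  have hb : ∀ θ : ℝ, ‖G (R * Complex.exp (θ * Complex.I)) * PW_P R θ ζ - G ζ * PW_P R θ ζ‖ ≤
      ε' * PW_P R θ ζ + K * (1 - R ^ 2) := by
    intro θ
    have h1 := hbd (R * Complex.exp (θ * Complex.I)) (by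
      rw [mem_closedBall_zero_iff, PW_norm hR.1]
      exact hR.2.le)
    have h2 := PW_P_nonneg hR.1 hR.2 θ ζ
    rw [← sub_mul, norm_mul, Real.norm_of_nonneg h2, Real.norm_eq_abs]
    calc |G (R * Complex.exp (θ * Complex.I)) - G ζ| * PW_P R θ ζ
        ≤ (ε' + K * ‖ζ - R * Complex.exp (θ * Complex.I)‖ ^ 2) * PW_P R θ ζ :=
          mul_le_mul_of_nonneg_right h1 h2
      _ = ε' * PW_P R θ ζ + K * (‖ζ - R * Complex.exp (θ * Complex.I)‖ ^ 2 * PW_P R θ ζ) := by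
          ring
      _ = _ := by rw [PW_P_mul hR.1 hR.2 hζ]
  have h3 := intervalIntegral.norm_integral_le_of_norm_le (μ := volume) h12.le
    (Eventually.of_forall fun θ _ => hb θ)
    (((continuous_const.mul hc).add continuous_const).intervalIntegrable θ₁ θ₂)
  have hadd := intervalIntegral.integral_add (μ := volume) (a := θ₁) (b := θ₂)
    (f := fun θ : ℝ => ε' * PW_P R θ ζ) (g := fun _ : ℝ => K * (1 - R ^ 2))
    ((continuous_const.mul hc).intervalIntegrable _ _) (continuous_const.intervalIntegrable _ _)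
  rw [hadd, intervalIntegral.integral_const_mul,
    intervalIntegral.integral_const, smul_eq_mul] at h3
  have h4 := PW_part hR.1 hR.2 hζ h12.le h2π.le
  have h5 : ε' * ∫ θ in θ₁..θ₂, PW_P R θ ζ ≤ ε' * (2 * π) :=
    mul_le_mul_of_nonneg_left h4 hε'0.le
  have h6 : (θ₂ - θ₁) * (K * (1 - R ^ 2)) ≤ 2 * π * ε' := by
    have h7 : 0 ≤ K * (1 - R ^ 2) := mul_nonneg hK0 (by nlinarith [hR.1, hR.2])
    exact mul_le_mul (by linarith) hRK.le h7 (by positivity)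
  have h8 : ε' * (2 * π) + 2 * π * ε' = ε / 2 := by
    rw [hε']
    field_simp
    ring
  rw [Real.norm_eq_abs] at h3
  linarith

theorem PW_ae {μ : Measure ℂ} (hμ : OnCircle μ) : ∀ᵐ ζ ∂μ, ‖ζ‖ = 1 := by
  unfold OnCircle at hμ
  rw [ae_iff]
  refine measure_mono_null ?_ hμ
  intro ζ hζ
  simpa using hζ

theorem PW_int (μ : Measure ℂ) [IsFiniteMeasure μ] (hμ : OnCircle μ) {θ₁ θ₂ : ℝ} (h12 : θ₁ < θ₂)
    {G : ℂ → ℝ} (hG : ContinuousOn G (closedBall (0 : ℂ) 1)) {R : ℝ} (hR : 0 ≤ R) (hR1 : R < 1) :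
    Integrable (Function.uncurry fun (θ : ℝ) (ζ : ℂ) =>
      G (R * Complex.exp (θ * Complex.I)) * PW_P R θ ζ)
      ((volume.restrict (Ioc θ₁ θ₂)).prod μ) := by
  obtain ⟨M, hM⟩ := (isCompact_closedBall (0 : ℂ) 1).exists_bound_of_continuousOn hG
  have hm : AEStronglyMeasurable (Function.uncurry fun (θ : ℝ) (ζ : ℂ) =>
      G (R * Complex.exp (θ * Complex.I)) * PW_P R θ ζ)
      ((volume.restrict (Ioc θ₁ θ₂)).prod μ) := by
    apply Measurable.aestronglyMeasurable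
    have h1 : Measurable (fun p : ℝ × ℂ => G (R * Complex.exp ((p.1 : ℂ) * Complex.I))) :=
      (PW_Gcont hG hR hR1).measurable.comp measurable_fst
    have h2 : Measurable (fun p : ℝ × ℂ => (1 - R ^ 2) /
        ‖p.2 - R * Complex.exp ((p.1 : ℂ) * Complex.I)‖ ^ 2) := by
      refine measurable_const.div (Continuous.measurable ?_)
      fun_prop
    exact h1.mul h2
  refine Integrable.of_bound hm (M * ((1 - R ^ 2) / (1 - R) ^ 2)) ?_
  have h3 : ∀ᵐ p : ℝ × ℂ ∂((volume.restrict (Ioc θ₁ θ₂)).prod μ), ‖p.2‖ = 1 :=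
    Measure.quasiMeasurePreserving_snd.ae (PW_ae hμ)
  filter_upwards [h3] with p hp
  have hGp : ‖G (R * Complex.exp ((p.1 : ℂ) * Complex.I))‖ ≤ M := hM _ (by
    rw [mem_closedBall_zero_iff, PW_norm hR]
    exact hR1.le)
  show ‖G (R * Complex.exp ((p.1 : ℂ) * Complex.I)) * PW_P R p.1 p.2‖ ≤ _
  rw [norm_mul, Real.norm_of_nonneg (PW_P_nonneg hR hR1 _ _)]
  exact mul_le_mul hGp (PW_P_le hR hR1 hp _) (PW_P_nonneg hR hR1 _ _)
    ((norm_nonneg _).trans hGp)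

theorem PW (μ : Measure ℂ) [IsFiniteMeasure μ] (hμ : OnCircle μ) {θ₁ θ₂ : ℝ} (h12 : θ₁ < θ₂)
    (h2π : θ₂ < θ₁ + 2 * π) (e1 : μ {Complex.exp (θ₁ * Complex.I)} = 0)
    (e2 : μ {Complex.exp (θ₂ * Complex.I)} = 0) (G : ℂ → ℝ)
    (hG : ContinuousOn G (closedBall (0 : ℂ) 1)) :
    Tendsto (fun R : ℝ => ∫ θ in θ₁..θ₂,
        G (R * Complex.exp (θ * Complex.I)) * (Kg μ (R * Complex.exp (θ * Complex.I))).re)
      (𝓝[<] 1) (𝓝 (2 * π * ∫ ζ in arc θ₁ θ₂, G ζ ∂μ)) := by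
  obtain ⟨M, hM⟩ := (isCompact_closedBall (0 : ℂ) 1).exists_bound_of_continuousOn hG
  have hM0 : 0 ≤ M := (norm_nonneg _).trans (hM 0 (by simp))
  have hπ := Real.pi_pos
  -- Fubini
  have hF : ∀ᶠ R : ℝ in 𝓝[<] 1,
      ∫ ζ, (∫ θ in θ₁..θ₂, G (R * Complex.exp (θ * Complex.I)) * PW_P R θ ζ) ∂μ =
      ∫ θ in θ₁..θ₂,
        G (R * Complex.exp (θ * Complex.I)) * (Kg μ (R * Complex.exp (θ * Complex.I))).re := by
    filter_upwards [PW_ev] with R hR
    have hint := PW_int μ hμ h12 hG hR.1 hR.2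
    rw [← uIoc_of_le h12.le] at hint
    rw [← intervalIntegral_integral_swap hint]
    refine intervalIntegral.integral_congr fun θ _ => ?_
    rw [integral_const_mul, KA_re μ hμ (by rw [PW_norm hR.1]; exact hR.2), PW_norm hR.1]
    rfl
  have hlim : Tendsto (fun R : ℝ => ∫ ζ, (∫ θ in θ₁..θ₂,
      G (R * Complex.exp (θ * Complex.I)) * PW_P R θ ζ) ∂μ) (𝓝[<] 1)
      (𝓝 (∫ ζ, 2 * π * (arc θ₁ θ₂).indicator G ζ ∂μ)) := by
    refine tendsto_integral_filter_of_dominated_convergence (fun _ => M * (2 * π)) ?_ ?_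
      (integrable_const _) ?_
    · filter_upwards [PW_ev] with R hR
      have hint := (PW_int μ hμ h12 hG hR.1 hR.2).integral_prod_right
      refine hint.aestronglyMeasurable.congr (Eventually.of_forall fun ζ => ?_)
      show _ = ∫ (θ : ℝ) in θ₁..θ₂, G (R * Complex.exp (θ * Complex.I)) * PW_P R θ ζ
      rw [intervalIntegral.integral_of_le h12.le]
      rfl
    · filter_upwards [PW_ev] with R hR
      filter_upwards [PW_ae hμ] with ζ hζ
      have hc := PW_P_cont hR.1 hR.2 hζ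
      have h3 := intervalIntegral.norm_integral_le_of_norm_le (μ := volume) h12.le
        (f := fun θ : ℝ => G (R * Complex.exp (θ * Complex.I)) * PW_P R θ ζ)
        (g := fun θ : ℝ => M * PW_P R θ ζ)
        (Eventually.of_forall fun θ _ => by
          rw [norm_mul, Real.norm_of_nonneg (PW_P_nonneg hR.1 hR.2 _ _)]
          refine mul_le_mul_of_nonneg_right (hM _ ?_) (PW_P_nonneg hR.1 hR.2 _ _)
          rw [mem_closedBall_zero_iff, PW_norm hR.1]
          exact hR.2.le)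
        ((continuous_const.mul hc).intervalIntegrable θ₁ θ₂)
      rw [intervalIntegral.integral_const_mul] at h3
      exact h3.trans (mul_le_mul_of_nonneg_left (PW_part hR.1 hR.2 hζ h12.le h2π.le) hM0)
    · have n1 : ∀ᵐ ζ ∂μ, ζ ≠ Complex.exp (θ₁ * Complex.I) := by
        rw [ae_iff]
        simpa using e1
      have n2 : ∀ᵐ ζ ∂μ, ζ ≠ Complex.exp (θ₂ * Complex.I) := by
        rw [ae_iff]
        simpa using e2
      filter_upwards [PW_ae hμ, n1, n2] with ζ hζ hn1 hn2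
      have happ := PW_approx hζ h12 h2π hG
      by_cases hmem : ζ ∈ arc θ₁ θ₂
      · rw [indicator_of_mem hmem]
        have h3 := (PW_in hζ h2π hmem).const_mul (G ζ)
        have h4 := happ.add h3
        rw [zero_add, mul_comm (G ζ)] at h4
        refine h4.congr fun R => ?_
        ring
      · rw [indicator_of_notMem hmem, mul_zero]
        have hout : ∀ θ ∈ Icc θ₁ θ₂, ζ ≠ Complex.exp (θ * Complex.I) := by
          intro θ hθ h
          rcases eq_or_lt_of_le hθ.1 with h5 | h5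
          · exact hn1 (by rw [h, ← h5])
          · rcases eq_or_lt_of_le hθ.2 with h6 | h6
            · exact hn2 (by rw [h, h6])
            · exact hmem ⟨θ, ⟨h5, h6⟩, h.symm⟩
        have h3 := (PW_out hζ h12.le hout).const_mul (G ζ)
        have h4 := happ.add h3
        rw [mul_zero, add_zero] at h4
        refine h4.congr fun R => ?_
        ring
  rw [integral_const_mul, integral_indicator (PW_arc_measurable θ₁ θ₂)] at hlim
  exact hlim.congr' hF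

end

end Pool.H90.VK
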