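import Pool.Agent.H90.VK.LA
import Pool.Agent.H90.VK.KA

/-!
# ROT : rotations

For `‖η‖ = 1` and the rotated measure `μ.map (η * ·)`: change of variables
(`integral_map`, `conj (η ζ) z = conj ζ (conj η z)`).
`potInf`: `‖η ξ - ζ‖ = ‖ξ - conj η ζ‖` (`lintegral_map` with the measurable equivalence / homeomorphism
`ζ ↦ η ζ`).
`arcLen` is invariant: push-forward of Lebesgue measure on `(-π, π]` under `θ ↦ e^{i(θ+s)}`
(periodicity), or `arcLen` of arcs.
-/

open MeasureTheory Set Filter Topology Metric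
open scoped Real ENNReal ComplexConjugate

namespace Pool.H90.VK

noncomputable section

def rot (η : ℂ) (μ : Measure ℂ) : Measure ℂ := μ.map (fun ζ => η * ζ)

theorem ROT_meas (η : ℂ) : Measurable (fun ζ : ℂ => η * ζ) := measurable_const_mul η

theorem ROT_ne {η : ℂ} (hη : ‖η‖ = 1) : η ≠ 0 := by
  rintro rfl
  simp at hη

theorem ROT_conj {η : ℂ} (hη : ‖η‖ = 1) : conj η * η = 1 := by
  rw [Complex.conj_mul', hη]
  simp

theorem ROT_emb {η : ℂ} (hη : ‖η‖ = 1) : MeasurableEmbedding (fun ζ : ℂ => η * ζ) :=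
  (Homeomorph.mulLeft₀ η (ROT_ne hη)).measurableEmbedding

theorem ROT_finite (η : ℂ) (μ : Measure ℂ) [IsFiniteMeasure μ] : IsFiniteMeasure (rot η μ) := by
  unfold rot
  infer_instance

theorem ROT_circ {η : ℂ} (hη : ‖η‖ = 1) {μ : Measure ℂ} (hμ : OnCircle μ) :
    OnCircle (rot η μ) := by
  unfold OnCircle rot at *
  rw [Measure.map_apply (ROT_meas η) isClosed_sphere.measurableSet.compl]
  have : (fun ζ : ℂ => η * ζ) ⁻¹' (sphere (0 : ℂ) 1)ᶜ = (sphere (0 : ℂ) 1)ᶜ := by
    ext ζ
    simp [hη]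
  rw [this, hμ]

theorem ROT_real {η : ℂ} (hη : ‖η‖ = 1) (μ : Measure ℂ) (s : Set ℂ) (hs : MeasurableSet s) :
    (rot η μ).real s = μ.real ((fun ζ => η * ζ) ⁻¹' s) := by
  unfold rot
  rw [measureReal_def, measureReal_def, Measure.map_apply (ROT_meas η) hs]

theorem ROT_singleton {η : ℂ} (hη : ‖η‖ = 1) (μ : Measure ℂ) (x : ℂ) :
    rot η μ {x} = μ {conj η * x} := by
  unfold rot
  rw [Measure.map_apply (ROT_meas η) (measurableSet_singleton x)]
  congr 1
  ext ζ
  simp only [mem_preimage, mem_singleton_iff]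
  constructor
  · rintro rfl
    rw [← mul_assoc, ROT_conj hη, one_mul]
  · rintro rfl
    rw [← mul_assoc, mul_comm η, ROT_conj hη, one_mul]

theorem ROT_univ (η : ℂ) (μ : Measure ℂ) : (rot η μ).real univ = μ.real univ := by
  unfold rot
  rw [measureReal_def, measureReal_def, Measure.map_apply (ROT_meas η) MeasurableSet.univ,
    preimage_univ]

theorem ROT_Lg {η : ℂ} (hη : ‖η‖ = 1) (μ : Measure ℂ) (z : ℂ) :
    Lg (rot η μ) z = Lg μ (conj η * z) := by
  unfold Lg rot
  rw [(ROT_emb hη).integral_map]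
  refine integral_congr_ae (Eventually.of_forall fun ζ => ?_)
  simp only [map_mul]
  congr 2
  ring

theorem ROT_Kg {η : ℂ} (hη : ‖η‖ = 1) (μ : Measure ℂ) (z : ℂ) :
    Kg (rot η μ) z = Kg μ (conj η * z) := by
  unfold Kg rot
  rw [(ROT_emb hη).integral_map]
  refine integral_congr_ae (Eventually.of_forall fun ζ => ?_)
  simp only
  have h0 : conj η ≠ 0 := by
    intro h
    exact ROT_ne hη ((map_eq_zero _).1 h)
  have h1 := ROT_conj hη
  have e1 : ζ + conj η * z = conj η * (η * ζ + z) := by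
    linear_combination (-ζ) * h1
  have e2 : ζ - conj η * z = conj η * (η * ζ - z) := by
    linear_combination (-ζ) * h1
  rw [e1, e2, mul_div_mul_left _ _ h0]

theorem ROT_Ag {η : ℂ} (hη : ‖η‖ = 1) (μ : Measure ℂ) (z : ℂ) :
    Ag (rot η μ) z = Ag μ (conj η * z) := by
  unfold Ag rot
  rw [(ROT_emb hη).integral_map]
  refine integral_congr_ae (Eventually.of_forall fun ζ => ?_)
  simp only [map_mul]
  congr 2
  ring

theorem ROT_arcLen {η : ℂ} (hη : ‖η‖ = 1) : rot η arcLen = arcLen := by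
  have hE : Measurable (fun θ : ℝ => Complex.exp (θ * Complex.I)) := by fun_prop
  set s : ℝ := Complex.arg η with hs
  have hηs : η = Complex.exp (s * Complex.I) := by
    have := Complex.norm_mul_exp_arg_mul_I η
    rw [hη, Complex.ofReal_one, one_mul, ← hs] at this
    exact this.symm
  unfold rot arcLen
  ext B hB
  rw [Measure.map_apply (ROT_meas η) hB, Measure.map_apply hE (ROT_meas η hB),
    Measure.map_apply hE hB, Measure.restrict_apply (hE (ROT_meas η hB)),
    Measure.restrict_apply (hE hB)]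
  set A : Set ℝ := (fun θ : ℝ => Complex.exp (θ * Complex.I)) ⁻¹' B with hA
  have hAm : MeasurableSet A := hE hB
  have e1 : (fun θ : ℝ => Complex.exp (θ * Complex.I)) ⁻¹' ((fun ζ => η * ζ) ⁻¹' B) ∩ Ioc (-π) π =
      (fun θ : ℝ => θ + s) ⁻¹' (A ∩ Ioc (-π + s) (-π + s + 2 * π)) := by
    ext θ
    simp only [mem_inter_iff, mem_preimage, mem_Ioc, hA]
    have : η * Complex.exp (θ * Complex.I) = Complex.exp (((θ + s : ℝ) : ℂ) * Complex.I) := by
      rw [hηs, ← Complex.exp_add]
      congr 1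
      push_cast
      ring
    rw [this]
    refine and_congr Iff.rfl ⟨fun h => ⟨by linarith [h.1], by linarith [h.2]⟩,
      fun h => ⟨by linarith [h.1], by linarith [h.2]⟩⟩
  rw [e1, measure_preimage_add_right]
  have hT : (0 : ℝ) < 2 * π := by positivity
  have hper : ∀ g : AddSubgroup.zmultiples (2 * π), (fun x : ℝ => g +ᵥ x) ⁻¹' A = A := by
    rintro ⟨g, hg⟩
    obtain ⟨n, rfl⟩ := AddSubgroup.mem_zmultiples_iff.1 hg
    ext x
    simp only [mem_preimage, hA]
    have : Complex.exp ((((⟨n • (2 * π), hg⟩ : AddSubgroup.zmultiples (2 * π)) +ᵥ x : ℝ) : ℂ) *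
        Complex.I) = Complex.exp ((x : ℂ) * Complex.I) := by
      have e : (((⟨n • (2 * π), hg⟩ : AddSubgroup.zmultiples (2 * π)) +ᵥ x : ℝ) : ℂ) * Complex.I =
          (x : ℂ) * Complex.I + n * (2 * π * Complex.I) := by
        rw [AddSubgroup.vadd_def, vadd_eq_add]
        push_cast
        simp only [zsmul_eq_mul]
        push_cast
        ring
      rw [e, Complex.exp_periodic.int_mul n]
    rw [this]
  have h := (isAddFundamentalDomain_Ioc hT (-π + s)).measure_set_eq
    (isAddFundamentalDomain_Ioc hT (-π)) hAm hper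
  rw [h]
  congr 2
  ring_nf

end

end Pool.H90.VK
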