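import Pool.Agent.H90.VK.GR

/-!
# SEC : the sector argument

Let `a, a₁, a₂` be finite measures on the circle with masses `≤ c < 1`, `0 < t < 1`, and
`exp (Lg a z) = t exp (Lg a₁ z) + (1-t) exp (Lg a₂ z)` on the disc. Then `a₁ {x} ≥ a {x}` for all `x`.

Proof. All three exponentials lie in the sector `|arg| ≤ cπ/2 < π/2` (`LA_im`, `LA_im_le`), so
`cos (cπ/2) |exp (Lg a₁)| ≤ Re exp (Lg a₁) ≤ (1/t) Re exp (Lg a) ≤ (1/t)|exp (Lg a)|` (as
`Re exp (Lg a₂) ≥ 0`). At `z = r x`: `Re Lg a₁ (r x) ≤ Re Lg a (r x) + C`. Divide by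
`log (1-r) < 0` and let `r → 1` (`GR_re`): `a₁.real {x} ≥ a.real {x}`.
(If `‖x‖ ≠ 1` both are 0.)
-/

open MeasureTheory Set Filter Topology Metric
open scoped Real ENNReal ComplexConjugate

namespace Pool.H90.VK

noncomputable section

theorem SEC_key {t c : ℝ} (ht0 : 0 < t) (ht1 : t < 1) (hc0 : 0 ≤ c) (hc : c < 1) {A A₁ A₂ : ℂ}
    (h₁ : |A₁.im| ≤ π / 2 * c) (h₂ : |A₂.im| ≤ π / 2 * c)
    (h : Complex.exp A = t * Complex.exp A₁ + (1 - t) * Complex.exp A₂) :
    A₁.re ≤ A.re + (-Real.log (t * Real.cos (π / 2 * c))) := by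
  have hπ := Real.pi_pos
  have hcpos : 0 < Real.cos (π / 2 * c) := by
    apply Real.cos_pos_of_mem_Ioo
    constructor <;> nlinarith
  have hc1 : Real.cos (π / 2 * c) ≤ Real.cos A₁.im := by
    rw [← Real.cos_abs A₁.im]
    apply Real.cos_le_cos_of_nonneg_of_le_pi (abs_nonneg _) _ h₁
    nlinarith
  have hc2 : 0 ≤ Real.cos A₂.im := by
    refine hcpos.le.trans ?_
    rw [← Real.cos_abs A₂.im]
    apply Real.cos_le_cos_of_nonneg_of_le_pi (abs_nonneg _) _ h₂
    nlinarith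
  have hre := congrArg Complex.re h
  have e : (t * Complex.exp A₁ + (1 - t) * Complex.exp A₂ : ℂ).re
      = t * (Real.exp A₁.re * Real.cos A₁.im) + (1 - t) * (Real.exp A₂.re * Real.cos A₂.im) := by
    have : (1 - t : ℂ) = ((1 - t : ℝ) : ℂ) := by push_cast; ring
    rw [this, Complex.add_re, Complex.re_ofReal_mul, Complex.re_ofReal_mul, Complex.exp_re,
      Complex.exp_re]
  rw [e, Complex.exp_re] at hre
  have h3 : Real.exp A.re * Real.cos A.im ≤ Real.exp A.re := by
    have := Real.cos_le_one A.im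
    have := Real.exp_pos A.re
    nlinarith
  have h4 : 0 ≤ (1 - t) * (Real.exp A₂.re * Real.cos A₂.im) :=
    mul_nonneg (by linarith) (mul_nonneg (Real.exp_pos _).le hc2)
  have h5 : t * Real.cos (π / 2 * c) * Real.exp A₁.re
      ≤ t * (Real.exp A₁.re * Real.cos A₁.im) := by
    have := mul_le_mul_of_nonneg_left hc1 (mul_nonneg ht0.le (Real.exp_pos A₁.re).le)
    nlinarith
  have h6 : t * Real.cos (π / 2 * c) * Real.exp A₁.re ≤ Real.exp A.re := by linarith
  have h7 : 0 < t * Real.cos (π / 2 * c) := mul_pos ht0 hcpos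
  have h8 := Real.log_le_log (mul_pos h7 (Real.exp_pos _)) h6
  rw [Real.log_mul h7.ne' (Real.exp_pos _).ne', Real.log_exp, Real.log_exp] at h8
  linarith

theorem SEC_tend : Tendsto (fun r : ℝ => Real.log (1 - r)) (𝓝[<] 1) atBot := by
  have h : Tendsto (fun r : ℝ => 1 - r) (𝓝[<] 1) (𝓝[>] 0) := by
    apply tendsto_nhdsWithin_of_tendsto_nhds_of_eventually_within
    · have : Tendsto (fun r : ℝ => 1 - r) (𝓝 1) (𝓝 (1 - 1)) := by
        apply Continuous.tendsto
        fun_prop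
      rw [sub_self] at this
      exact this.mono_left nhdsWithin_le_nhds
    · filter_upwards [self_mem_nhdsWithin] with r hr
      simpa using hr
  exact Real.tendsto_log_nhdsGT_zero.comp h

theorem SEC (a a₁ a₂ : Measure ℂ) [IsFiniteMeasure a] [IsFiniteMeasure a₁] [IsFiniteMeasure a₂]
    (ha : OnCircle a) (ha₁ : OnCircle a₁) (ha₂ : OnCircle a₂) (c : ℝ) (hc : c < 1)
    (m : a.real univ ≤ c) (m₁ : a₁.real univ ≤ c) (m₂ : a₂.real univ ≤ c) (t : ℝ) (ht0 : 0 < t)
    (ht1 : t < 1)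
    (h : ∀ z ∈ ball (0 : ℂ) 1, Complex.exp (Lg a z) =
      t * Complex.exp (Lg a₁ z) + (1 - t) * Complex.exp (Lg a₂ z)) (x : ℂ) :
    a.real {x} ≤ a₁.real {x} := by
  by_cases hx : ‖x‖ = 1
  · have hc0 : 0 ≤ c := measureReal_nonneg.trans m
    have hπ := Real.pi_pos
    have hT := GR_re a ha hx
    have hT₁ := GR_re a₁ ha₁ hx
    set C : ℝ := -Real.log (t * Real.cos (π / 2 * c)) with hC
    have hT2 : Tendsto (fun r : ℝ => (Lg a (r * x)).re / Real.log (1 - r) + C / Real.log (1 - r))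
        (𝓝[<] 1) (𝓝 (a.real {x} + 0)) :=
      hT.add (SEC_tend.const_div_atBot C)
    rw [add_zero] at hT2
    refine le_of_tendsto_of_tendsto hT2 hT₁ ?_
    have hev : ∀ᶠ r : ℝ in 𝓝[<] 1, 0 < r := by
      apply mem_nhdsWithin_of_mem_nhds
      exact lt_mem_nhds (by norm_num)
    filter_upwards [self_mem_nhdsWithin, hev] with r hr hr0
    have hr1 : r < 1 := hr
    have hz : ‖(r * x : ℂ)‖ < 1 := by
      rw [norm_mul, hx, mul_one, Complex.norm_real, Real.norm_eq_abs, abs_of_pos hr0]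
      exact hr1
    have hb : (r * x : ℂ) ∈ ball (0 : ℂ) 1 := by simpa using hz
    have hle : ∀ (μ : Measure ℂ) [IsFiniteMeasure μ], OnCircle μ → μ.real univ ≤ c →
        |(Lg μ (r * x)).im| ≤ π / 2 * c := by
      intro μ _ hμ hm
      rw [LA_im μ hμ hz]
      refine (LA_im_le μ hμ hz.le).trans ?_
      exact mul_le_mul_of_nonneg_left hm (by positivity)
    have hk := SEC_key ht0 ht1 hc0 hc (hle a₁ ha₁ m₁) (hle a₂ ha₂ m₂) (h _ hb)
    have hlog : Real.log (1 - r) < 0 := Real.log_neg (by linarith) (by linarith)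
    show (Lg a (r * x)).re / Real.log (1 - r) + C / Real.log (1 - r)
      ≤ (Lg a₁ (r * x)).re / Real.log (1 - r)
    rw [← add_div]
    exact div_le_div_of_nonpos_of_le hlog.le hk
  · have hs : ({x} : Set ℂ) ⊆ (sphere (0 : ℂ) 1)ᶜ := by
      intro y hy
      rw [mem_singleton_iff] at hy
      subst hy
      simpa using hx
    have : a {x} = 0 := measure_mono_null hs ha
    have h0 : a.real {x} = 0 := by simp [measureReal_def, this]
    rw [h0]
    exact measureReal_nonneg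

end

end Pool.H90.VK
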