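import Pool.Agent.H90.VK.FS
import Pool.Agent.H90.VK.ME
import Pool.Agent.H90.VK.NA
import Pool.Agent.H90.VK.NB
import Pool.Agent.H90.VK.JOR

/-!
# SNG : necessary conditions for extreme points

`SNG_beta`: if `β` is not singular to arc length then `f` is not extreme. Proof: `ME` gives `c, η, E`;
`CB_beta` gives `p` for `E`; `p̃(z) = p(conj η z)` satisfies `Pert 1 {ζ : -Re(conj η ζ) ∈ E}`
(`z p̃'(z) = (conj η z) p'(conj η z)`); `FS_beta`. `SNG_alpha`: same with `CB_alpha`, `FS_alpha`.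
`NEC`: combine with `NA` (total mass), `NB` (atoms) and `JOR_rep` + `NA` (mutual singularity: if not
`β ⟂ₘ α`, then `JOR_rep` gives another representation with smaller total mass `< k`, so `NA`
contradicts extremality).
-/

open MeasureTheory Set Filter Topology Metric
open scoped Real ENNReal ComplexConjugate

namespace Pool.H90.VK

noncomputable section

theorem SNG_meas {η : ℂ} {E : Set ℝ} (hE : IsCompact E) :
    MeasurableSet {ζ : ℂ | -(conj η * ζ).re ∈ E} := by
  have hc : Continuous (fun ζ : ℂ => -(conj η * ζ).re) := by fun_prop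
  exact hc.measurable hE.measurableSet

theorem SNG_rot {s : ℝ} {E : Set ℝ} {p : ℂ → ℂ} (hp : Pert s {ζ : ℂ | -ζ.re ∈ E} p) {η : ℂ}
    (hη : ‖η‖ = 1) : Pert s {ζ : ℂ | -(conj η * ζ).re ∈ E} (fun z => p (conj η * z)) := by
  have hmap : MapsTo (fun z : ℂ => conj η * z) (ball (0 : ℂ) 1) (ball (0 : ℂ) 1) := by
    intro z hz
    rw [mem_ball_zero_iff] at hz ⊢
    rw [norm_mul, RCLike.norm_conj, hη, one_mul]
    exact hz
  have hη2 : conj η * η = 1 := by
    rw [mul_comm, Complex.mul_conj, Complex.normSq_eq_norm_sq, hη]; norm_num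
  have hder : ∀ z : ℂ, Complex.I * z * deriv (fun z => p (conj η * z)) z =
      Complex.I * (conj η * z) * deriv p (conj η * z) := by
    intro z
    have h1 : deriv (fun z => p (conj η * z)) z = conj η • deriv p (conj η * z) :=
      deriv_comp_mul_left (conj η) p z
    rw [h1, smul_eq_mul]; ring
  refine ⟨?_, ?_, ?_, ?_, ?_⟩
  · exact hp.diff.comp (by fun_prop) hmap
  · simpa using hp.zero
  · obtain ⟨z, hz, hne⟩ := hp.ne
    refine ⟨η * z, ?_, ?_⟩
    · rw [mem_ball_zero_iff] at hz ⊢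
      rw [norm_mul, hη, one_mul]; exact hz
    · have : conj η * (η * z) = z := by rw [← mul_assoc, hη2, one_mul]
      rw [this]; exact hne
  · obtain ⟨C, hC⟩ := hp.bdd
    refine ⟨C, fun z hz => ?_⟩
    rw [hder z]
    exact hC _ (hmap hz)
  · intro ζ hζ hS
    obtain ⟨V₀, p₀, h1, h2, h3⟩ := hp.lim (conj η * ζ)
      (by rw [norm_mul, RCLike.norm_conj, hη, hζ, one_mul]) (by simpa using hS)
    have ht : Tendsto (fun z : ℂ => conj η * z) (𝓝[ball (0 : ℂ) 1] ζ)
        (𝓝[ball (0 : ℂ) 1] (conj η * ζ)) := by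
      have hc : ContinuousWithinAt (fun z : ℂ => conj η * z) (ball (0 : ℂ) 1) ζ := by fun_prop
      exact hc.tendsto_nhdsWithin hmap
    refine ⟨V₀, p₀, h1.comp ht, ?_, h3⟩
    have h4 := h2.comp ht
    refine h4.congr (fun z => ?_)
    rw [hder z]; rfl

theorem SNG_beta {k : ℝ} {f : ℂ → ℂ} {β α : Measure ℂ} (hf : InV k f) (h : PRep k f β α)
    (hn : ¬ β ⟂ₘ arcLen) : ¬ IsExtreme k f := by
  have := h.finβ
  obtain ⟨c, hc, η, hη, E, hE, hsub, hpos, hle⟩ := ME β h.circβ hn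
  obtain ⟨p, hp⟩ := CB_beta E hE hsub hpos
  exact FS_beta hf h (SNG_meas hE) c hc hle (SNG_rot hp hη)

theorem SNG_alpha {k : ℝ} {f : ℂ → ℂ} {β α : Measure ℂ} (hf : InV k f) (h : PRep k f β α)
    (hn : ¬ α ⟂ₘ arcLen) : ¬ IsExtreme k f := by
  have := h.finα
  obtain ⟨c, hc, η, hη, E, hE, hsub, hpos, hle⟩ := ME α h.circα hn
  obtain ⟨p, hp⟩ := CB_alpha E hE hsub hpos
  exact FS_alpha hf h (SNG_meas hE) c hc hle (SNG_rot hp hη)

theorem NEC {k : ℝ} {f : ℂ → ℂ} {β α : Measure ℂ} (h : PRep k f β α) (he : IsExtreme k f) :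
    β.real univ + α.real univ = k ∧ β ⟂ₘ α ∧ β ⟂ₘ arcLen ∧ α ⟂ₘ arcLen ∧
      (atoms β).Subsingleton := by
  have hf : InV k f := he.1
  refine ⟨?_, ?_, ?_, ?_, ?_⟩
  · by_contra hne
    exact NA hf h (lt_of_le_of_ne h.sum hne) he
  · by_contra hns
    obtain ⟨β', α', h1, -, h3⟩ := JOR_rep h
    rcases h3 with h3 | h3
    · exact hns h3
    · exact NA hf h1 (lt_of_lt_of_le h3 h.sum) he
  · by_contra hn
    exact SNG_beta hf h hn he
  · by_contra hn
    exact SNG_alpha hf h hn he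
  · intro x hx y hy
    by_contra hne
    exact NB hf h hne hx hy he

end

end Pool.H90.VK
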