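import Pool.Agent.H90.VK.TRI
import Pool.Agent.H90.VK.FMB
import Pool.Agent.H90.VK.AF
import Pool.Agent.H90.VK.LS

/-!
# STH : singular continuous (non-polar) parts cancel

With `WData t w P N P' N'` and `B` a Borel subset of the circle of arc length 0, such that no point of `B`
is an atom of `P, N, P', N'` and all four potentials are finite on `B`: `P B = N B`.

Proof. Remove the point `-1` (it has `P`- and `N`-measure 0 if it is in `B`).
Let `A(ζ) = Ag P ζ - Ag N ζ`; on `B` it is (Borel) measurable as a function of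
`θ = arg ζ ∈ (-π, π)` by `AF`, and `A(e^{iθ}) = c₀ - π F(θ)` with `F(θ) = (p - n)(-∞,θ]`,
`p = P.map arg`, `n = N.map arg`, since `p{θ} = n{θ} = 0` for `e^{iθ} ∈ B`
(`arg` is injective on the circle).
`B = B₁ ∪ B₂`, `B₁ = {sin A = 0} = ⋃_{m ∈ ℤ} {A = mπ}`, `B₂ = {sin A ≠ 0}`.
On each level set `{θ : e^{iθ} ∈ B, A = mπ}` the function `F` is constant, so `LS` gives equal masses for
`p` and `n`, that is for `P` and `N`. Countable union: `P B₁ = N B₁`.
Every point `e^{iθ₀}` of `B₂` satisfies the hypotheses of `TRI`, so by `FMB` there is `ρ > 0` with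
`P B' = N B'` for every Borel `B' ⊂ arc (θ₀-ρ) (θ₀+ρ)` of zero arc length. The sets
`arc (θ₀-ρ) (θ₀+ρ)` are relatively open in the circle; countably many of them cover `B₂` (Lindelöf:
`TopologicalSpace.isOpen_iUnion_countable` or `countable_cover_nhds` in the second countable space `ℝ`,
working with `θ`). Disjointify and sum.
-/

open MeasureTheory Set Filter Topology Metric
open scoped Real ENNReal ComplexConjugate

namespace Pool.H90.VK

noncomputable section

/-- the push-forward of a measure on the circle under `arg` -/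
lemma STH_map {P : Measure ℂ} (cP : OnCircle P) (S : Set ℝ) (hS : MeasurableSet S) :
    P.map Complex.arg S = P (Complex.arg ⁻¹' S ∩ sphere (0 : ℂ) 1) := by
  rw [Measure.map_apply Complex.measurable_arg hS]
  refine le_antisymm ?_ (measure_mono inter_subset_left)
  calc P (Complex.arg ⁻¹' S)
      ≤ P (Complex.arg ⁻¹' S ∩ sphere (0 : ℂ) 1 ∪ (sphere (0 : ℂ) 1)ᶜ) := by
        refine measure_mono fun x hx => ?_
        by_cases h : x ∈ sphere (0 : ℂ) 1
        · exact Or.inl ⟨hx, h⟩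
        · exact Or.inr h
    _ ≤ P (Complex.arg ⁻¹' S ∩ sphere (0 : ℂ) 1) + P (sphere (0 : ℂ) 1)ᶜ := measure_union_le _ _
    _ = P (Complex.arg ⁻¹' S ∩ sphere (0 : ℂ) 1) := by
        rw [show P (sphere (0 : ℂ) 1)ᶜ = 0 from cP, add_zero]

lemma STH_exp_arg {ζ : ℂ} (hζ : ζ ∈ sphere (0 : ℂ) 1) :
    Complex.exp (Complex.arg ζ * Complex.I) = ζ := by
  have h := Complex.norm_mul_exp_arg_mul_I ζ
  rw [mem_sphere_zero_iff_norm.1 hζ] at h
  simpa using h

lemma STH_arg_exp {θ : ℝ} (hθ : θ ∈ Ioc (-π) π) :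
    Complex.arg (Complex.exp (θ * Complex.I)) = θ := by
  rw [Complex.arg_exp_mul_I]
  exact (toIocMod_eq_self Real.two_pi_pos).2 (by
    rw [mem_Ioc]; constructor <;> [exact hθ.1; (have := hθ.2; linarith)])

/-- no mass at the point `θ` for the push-forward -/
lemma STH_atom {P : Measure ℂ} (cP : OnCircle P) {θ : ℝ}
    (h : P {Complex.exp (θ * Complex.I)} = 0) : P.map Complex.arg {θ} = 0 := by
  rw [STH_map cP _ (measurableSet_singleton θ)]
  refine measure_mono_null (fun ζ hζ => ?_) h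
  have h1 : Complex.arg ζ = θ := hζ.1
  rw [mem_singleton_iff, ← h1, STH_exp_arg hζ.2]

lemma STH_Iio {p : Measure ℝ} [IsFiniteMeasure p] {θ : ℝ} (h : p {θ} = 0) :
    p.real (Iio θ) = p.real (Iic θ) := by
  unfold Measure.real
  congr 1
  refine le_antisymm (measure_mono Iio_subset_Iic_self) ?_
  calc p (Iic θ) ≤ p (Iio θ ∪ {θ}) := by
        refine measure_mono fun x hx => ?_
        rcases lt_or_eq_of_le (show x ≤ θ from hx) with h1 | h1
        · exact Or.inl h1
        · exact Or.inr h1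
    _ ≤ p (Iio θ) + p {θ} := measure_union_le _ _
    _ = p (Iio θ) := by rw [h, add_zero]

/-- the main point on the interval -/
lemma STH_core {t : ℝ} {w : ℂ → ℂ} {P N P' N' : Measure ℂ} (hW : WData t w P N P' N') (B : Set ℂ)
    (hB : MeasurableSet B) (h0 : arcLen B = 0)
    (ha : ∀ ζ ∈ B, P {ζ} = 0 ∧ N {ζ} = 0 ∧ P' {ζ} = 0 ∧ N' {ζ} = 0)
    (hp : ∀ ζ ∈ B, ζ ∉ potInf P ∧ ζ ∉ potInf N ∧ ζ ∉ potInf P' ∧ ζ ∉ potInf N')
    (T : Set ℝ) (hT : T = (fun θ : ℝ => Complex.exp (θ * Complex.I)) ⁻¹' B ∩ Ioo (-π) π) :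
    P.map Complex.arg T = N.map Complex.arg T := by
  haveI := hW.fP
  haveI := hW.fN
  set p := P.map Complex.arg with hpdef
  set n := N.map Complex.arg with hndef
  haveI : IsFiniteMeasure p := by rw [hpdef]; infer_instance
  haveI : IsFiniteMeasure n := by rw [hndef]; infer_instance
  have hTm : MeasurableSet T := by
    rw [hT]
    refine MeasurableSet.inter ?_ measurableSet_Ioo
    exact (by fun_prop : Measurable fun θ : ℝ => Complex.exp (θ * Complex.I)) hB
  set c₀ : ℝ := -(1 / 2) * ((∫ ζ, Complex.arg ζ ∂P) - ∫ ζ, Complex.arg ζ ∂N) with hc₀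
  set F : ℝ → ℝ := fun θ => p.real (Iic θ) - n.real (Iic θ) with hF
  have hFm : Measurable F := by
    refine Measurable.sub ?_ ?_
    · exact Monotone.measurable fun x y hxy =>
        measureReal_mono (Iic_subset_Iic.2 hxy) (measure_ne_top _ _)
    · exact Monotone.measurable fun x y hxy =>
        measureReal_mono (Iic_subset_Iic.2 hxy) (measure_ne_top _ _)
  have hTB : ∀ θ ∈ T, Complex.exp (θ * Complex.I) ∈ B ∧ θ ∈ Ioo (-π) π := by
    intro θ hθ
    rw [hT] at hθ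
    exact ⟨hθ.1, hθ.2⟩
  have hp0 : ∀ θ ∈ T, p {θ} = 0 := fun θ hθ => STH_atom hW.cP (ha _ (hTB θ hθ).1).1
  have hn0 : ∀ θ ∈ T, n {θ} = 0 := fun θ hθ => STH_atom hW.cN (ha _ (hTB θ hθ).1).2.1
  have hA : ∀ θ ∈ T, Ag P (Complex.exp (θ * Complex.I)) - Ag N (Complex.exp (θ * Complex.I)) =
      c₀ - π * F θ := by
    intro θ hθ
    rw [AF P N hW.cP hW.cN hW.m θ (hTB θ hθ).2]
    have e1 := STH_Iio (hp0 θ hθ)
    have e2 := STH_Iio (hn0 θ hθ)
    rw [← hpdef, ← hndef, e1, e2, ← hc₀]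
    simp only [hF]
    ring
  -- the part where the sine vanishes
  have h1 : p.restrict (⋃ j : ℤ, {θ | θ ∈ T ∧ c₀ - π * F θ = j * π}) =
      n.restrict (⋃ j : ℤ, {θ | θ ∈ T ∧ c₀ - π * F θ = j * π}) := by
    rw [Measure.restrict_iUnion_congr]
    intro j
    have hm : MeasurableSet {θ | θ ∈ T ∧ c₀ - π * F θ = j * π} := by
      refine hTm.inter ?_
      exact measurableSet_eq_fun (by fun_prop) measurable_const
    refine Measure.ext fun S hS => ?_
    rw [Measure.restrict_apply hS, Measure.restrict_apply hS]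
    refine LS p n ((c₀ - j * π) / π) _ (hS.inter hm) ?_
    rintro x ⟨-, hx, hx'⟩
    refine ⟨?_, hp0 x hx, hn0 x hx⟩
    change F x = _
    rw [eq_div_iff Real.pi_ne_zero]
    linarith
  -- the part where the sine does not vanish
  set T₂ : Set ℝ := {θ | θ ∈ T ∧ Real.sin (c₀ - π * F θ) ≠ 0} with hT₂
  have hT₂m : MeasurableSet T₂ := by
    refine hTm.inter ?_
    exact (measurableSet_eq_fun (by fun_prop) measurable_const).compl
  have hloc : ∀ θ₀ ∈ T₂, ∃ ρ : ℝ, 0 < ρ ∧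
      (p.restrict T₂).restrict (Ioo (θ₀ - ρ) (θ₀ + ρ)) =
        (n.restrict T₂).restrict (Ioo (θ₀ - ρ) (θ₀ + ρ)) := by
    rintro θ₀ ⟨hθ, hs⟩
    obtain ⟨hb, hI⟩ := hTB θ₀ hθ
    obtain ⟨a1, a2, a3, a4⟩ := ha _ hb
    obtain ⟨p1, p2, p3, p4⟩ := hp _ hb
    rw [← hA θ₀ hθ] at hs
    obtain ⟨ρ, C, r₀, hρ, hρπ, hr, hC⟩ := TRI hW θ₀ a1 a2 a3 a4 p1 p2 p3 p4 hs
    refine ⟨ρ, hρ, Measure.ext fun S hS => ?_⟩
    rw [Measure.restrict_apply hS, Measure.restrict_apply hS,
      Measure.restrict_apply (hS.inter measurableSet_Ioo),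
      Measure.restrict_apply (hS.inter measurableSet_Ioo)]
    have hm : MeasurableSet (S ∩ Ioo (θ₀ - ρ) (θ₀ + ρ) ∩ T₂) :=
      (hS.inter measurableSet_Ioo).inter hT₂m
    rw [hpdef, hndef, STH_map hW.cP _ hm, STH_map hW.cN _ hm]
    refine FMB P N hW.cP hW.cN θ₀ ρ C r₀ hρ hρπ hr hC _ ?_ ?_ ?_
    · exact (Complex.measurable_arg hm).inter isClosed_sphere.measurableSet
    · rintro ζ ⟨hζ, hζ'⟩
      exact ⟨Complex.arg ζ, hζ.1.2, STH_exp_arg hζ'⟩
    · refine measure_mono_null ?_ h0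
      rintro ζ ⟨hζ, hζ'⟩
      have h2 := (hTB _ hζ.2.1).1
      rwa [STH_exp_arg hζ'] at h2
  choose! ρ hρ hρ' using hloc
  obtain ⟨t, ht, htc, htT⟩ := TopologicalSpace.countable_cover_nhdsWithin (s := T₂)
    (f := fun x => Ioo (x - ρ x) (x + ρ x)) (fun x hx =>
      mem_nhdsWithin_of_mem_nhds (Ioo_mem_nhds (by linarith [hρ x hx]) (by linarith [hρ x hx])))
  have h2 : (p.restrict T₂).restrict (⋃ x ∈ t, Ioo (x - ρ x) (x + ρ x)) =
      (n.restrict T₂).restrict (⋃ x ∈ t, Ioo (x - ρ x) (x + ρ x)) := by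
    rw [Measure.restrict_biUnion_congr htc]
    exact fun x hx => hρ' x (ht hx)
  have h3 : p T₂ = n T₂ := by
    have h4 := congrArg (fun μ : Measure ℝ => μ T₂) h2
    simp only [Measure.restrict_apply hT₂m] at h4
    rw [inter_eq_left.2 htT, Measure.restrict_apply hT₂m, Measure.restrict_apply hT₂m,
      inter_self] at h4
    exact h4
  have h5 : p (⋃ j : ℤ, {θ | θ ∈ T ∧ c₀ - π * F θ = j * π}) =
      n (⋃ j : ℤ, {θ | θ ∈ T ∧ c₀ - π * F θ = j * π}) := by
    have h6 := congrArg (fun μ : Measure ℝ => μ univ) h1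
    simpa using h6
  have hU : T = (⋃ j : ℤ, {θ | θ ∈ T ∧ c₀ - π * F θ = j * π}) ∪ T₂ := by
    ext θ
    simp only [mem_union, mem_iUnion, mem_setOf_eq, hT₂]
    constructor
    · intro hθ
      by_cases hs : Real.sin (c₀ - π * F θ) = 0
      · obtain ⟨j, hj⟩ := Real.sin_eq_zero_iff.1 hs
        exact Or.inl ⟨j, hθ, hj.symm⟩
      · exact Or.inr ⟨hθ, hs⟩
    · rintro (⟨j, hθ, -⟩ | ⟨hθ, -⟩) <;> exact hθ
  have hD : Disjoint (⋃ j : ℤ, {θ | θ ∈ T ∧ c₀ - π * F θ = j * π}) T₂ := by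
    rw [disjoint_left]
    rintro θ hθ ⟨-, hs⟩
    obtain ⟨j, -, hj⟩ := mem_iUnion.1 hθ
    exact hs (by rw [hj]; exact Real.sin_int_mul_pi j)
  rw [hU, measure_union hD hT₂m, measure_union hD hT₂m, h3, h5]

/-- passage from the circle to the interval -/
lemma STH_pass {P : Measure ℂ} (cP : OnCircle P) (B : Set ℂ) (hB : MeasurableSet B)
    (ha : ∀ ζ ∈ B, P {ζ} = 0) :
    P B = P.map Complex.arg
      ((fun θ : ℝ => Complex.exp (θ * Complex.I)) ⁻¹' B ∩ Ioo (-π) π) := by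
  have hTm : MeasurableSet ((fun θ : ℝ => Complex.exp (θ * Complex.I)) ⁻¹' B ∩ Ioo (-π) π) := by
    refine MeasurableSet.inter ?_ measurableSet_Ioo
    exact (by fun_prop : Measurable fun θ : ℝ => Complex.exp (θ * Complex.I)) hB
  rw [STH_map cP _ hTm]
  refine le_antisymm ?_ ?_
  · by_cases h1 : (-1 : ℂ) ∈ B
    · calc P B ≤ P ((Complex.arg ⁻¹' ((fun θ : ℝ => Complex.exp (θ * Complex.I)) ⁻¹' B ∩
            Ioo (-π) π) ∩ sphere (0 : ℂ) 1) ∪ ({-1} ∪ (sphere (0 : ℂ) 1)ᶜ)) := by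
            refine measure_mono fun ζ hζ => ?_
            by_cases hs : ζ ∈ sphere (0 : ℂ) 1
            · rcases eq_or_ne (Complex.arg ζ) π with h | h
              · refine Or.inr (Or.inl ?_)
                have h2 := STH_exp_arg hs
                rw [h, Complex.exp_pi_mul_I] at h2
                exact h2.symm
              · refine Or.inl ⟨⟨?_, ?_⟩, hs⟩
                · change Complex.exp (Complex.arg ζ * Complex.I) ∈ B
                  rwa [STH_exp_arg hs]
                · exact ⟨Complex.neg_pi_lt_arg ζ, lt_of_le_of_ne (Complex.arg_le_pi ζ) h⟩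
            · exact Or.inr (Or.inr hs)
        _ ≤ _ := (measure_union_le _ _).trans (by
            have h2 : P ({-1} ∪ (sphere (0 : ℂ) 1)ᶜ) = 0 :=
              measure_union_null (ha _ h1) cP
            rw [h2, add_zero])
    · calc P B ≤ P ((Complex.arg ⁻¹' ((fun θ : ℝ => Complex.exp (θ * Complex.I)) ⁻¹' B ∩
            Ioo (-π) π) ∩ sphere (0 : ℂ) 1) ∪ (sphere (0 : ℂ) 1)ᶜ) := by
            refine measure_mono fun ζ hζ => ?_
            by_cases hs : ζ ∈ sphere (0 : ℂ) 1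
            · have h : Complex.arg ζ ≠ π := by
                intro h
                have h2 := STH_exp_arg hs
                rw [h, Complex.exp_pi_mul_I] at h2
                exact h1 (h2 ▸ hζ)
              refine Or.inl ⟨⟨?_, ?_⟩, hs⟩
              · change Complex.exp (Complex.arg ζ * Complex.I) ∈ B
                rwa [STH_exp_arg hs]
              · exact ⟨Complex.neg_pi_lt_arg ζ, lt_of_le_of_ne (Complex.arg_le_pi ζ) h⟩
            · exact Or.inr hs
        _ ≤ _ := (measure_union_le _ _).trans (by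
            rw [show P (sphere (0 : ℂ) 1)ᶜ = 0 from cP, add_zero])
  · refine measure_mono ?_
    rintro ζ ⟨⟨h1, -⟩, hs⟩
    have h2 : Complex.exp (Complex.arg ζ * Complex.I) ∈ B := h1
    rwa [STH_exp_arg hs] at h2

theorem STH {t : ℝ} {w : ℂ → ℂ} {P N P' N' : Measure ℂ} (hW : WData t w P N P' N') (B : Set ℂ)
    (hB : MeasurableSet B) (hsub : B ⊆ sphere (0 : ℂ) 1) (h0 : arcLen B = 0)
    (ha : ∀ ζ ∈ B, P {ζ} = 0 ∧ N {ζ} = 0 ∧ P' {ζ} = 0 ∧ N' {ζ} = 0)
    (hp : ∀ ζ ∈ B, ζ ∉ potInf P ∧ ζ ∉ potInf N ∧ ζ ∉ potInf P' ∧ ζ ∉ potInf N') :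
    P B = N B := by
  rw [STH_pass hW.cP B hB (fun ζ hζ => (ha ζ hζ).1),
    STH_pass hW.cN B hB (fun ζ hζ => (ha ζ hζ).2.1)]
  exact STH_core hW B hB h0 ha hp _ rfl

end

end Pool.H90.VK
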