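import Pool.Agent.H90.VK.STH
import Pool.Agent.H90.VK.GR

/-!
# SUA : the continuous parts are preserved

Setting: `exp (Lg α - Lg β) = t exp (Lg αg - Lg βg) + (1-t) exp (Lg αh - Lg βh)` on the disc, all six
measures finite on the circle, `β(T) - α(T) = βg(T) - αg(T) = βh(T) - αh(T)`.
Then `w z = t exp (Lg (β+αg) z - Lg (α+βg) z)` satisfies `WData t w (β+αg) (α+βg) (β+αh) (α+βh)`
(`LA_add`; divide the identity by `exp (Lg α - Lg β)`): lemma `SUA_wdata`.

`SUA`: if moreover `β ⟂ₘ α`, `β, α ⟂ₘ arcLen`, and the non-atomic parts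
`βc = β.restrict (atoms β)ᶜ`, `αc = α.restrict (atoms α)ᶜ` charge no polar set, then
`βc ≤ βg` and `αc ≤ αg`.
Proof. Let `Q` be the set of points of the circle that are not atoms of any of the four measures
`P = β+αg`, `N = α+βg`, `P' = β+αh`, `N' = α+βh` and not in their `potInf` (Borel:
`ζ ↦ ∫⁻ ξ, ofReal (log (2/‖ξ-ζ‖)) dΛ(ξ)` is measurable, `atoms` are countable). Let `S` be Borel with
`β Sᶜ = 0`, `α S = 0`, `arcLen S = 0` (mutual singularities). For Borel `B ⊂ S ∩ Q`: `STH` gives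
`β B + αg B = α B + βg B = βg B`, so `β B ≤ βg B`. Now `βc Qᶜ = 0`: `βc` has no atoms, is carried by the
circle, and charges no `potInf`. So for Borel `B`:
`βc B = βc (B ∩ S ∩ Q) ≤ β (B ∩ S ∩ Q) ≤ βg (B ∩ S ∩ Q) ≤ βg B`. Same for `α` with `S'`,
`α S'ᶜ = 0`, `β S' = 0`: `βg B + α B = β B + αg B = αg B`.
(By the symmetry `t ↔ 1-t`, `g ↔ h` also `βc ≤ βh`, `αc ≤ αh`.)
-/

open MeasureTheory Set Filter Topology Metric
open scoped Real ENNReal ComplexConjugate

namespace Pool.H90.VK

noncomputable section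

/-- a decomposition on the level of measures -/
structure Dec (t : ℝ) (β α βg αg βh αh : Measure ℂ) : Prop where
  t0 : 0 < t
  t1 : t < 1
  f1 : IsFiniteMeasure β
  f2 : IsFiniteMeasure α
  f3 : IsFiniteMeasure βg
  f4 : IsFiniteMeasure αg
  f5 : IsFiniteMeasure βh
  f6 : IsFiniteMeasure αh
  c1 : OnCircle β
  c2 : OnCircle α
  c3 : OnCircle βg
  c4 : OnCircle αg
  c5 : OnCircle βh
  c6 : OnCircle αh
  m : β.real univ - α.real univ = 2
  mg : βg.real univ - αg.real univ = 2
  mh : βh.real univ - αh.real univ = 2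
  eq : ∀ z ∈ ball (0 : ℂ) 1, Complex.exp (Lg α z - Lg β z) =
    t * Complex.exp (Lg αg z - Lg βg z) + (1 - t) * Complex.exp (Lg αh z - Lg βh z)

theorem Dec_symm {t : ℝ} {β α βg αg βh αh : Measure ℂ} (h : Dec t β α βg αg βh αh) :
    Dec (1 - t) β α βh αh βg αg where
  t0 := by linarith [h.t1]
  t1 := by linarith [h.t0]
  f1 := h.f1
  f2 := h.f2
  f3 := h.f5
  f4 := h.f6
  f5 := h.f3
  f6 := h.f4
  c1 := h.c1
  c2 := h.c2
  c3 := h.c5
  c4 := h.c6
  c5 := h.c3
  c6 := h.c4
  m := h.m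
  mg := h.mh
  mh := h.mg
  eq := fun z hz => by
    rw [h.eq z hz]
    push_cast
    ring

theorem SUA_circ_add {μ ν : Measure ℂ} (hμ : OnCircle μ) (hν : OnCircle ν) :
    OnCircle (μ + ν) := by
  unfold OnCircle at *
  rw [Measure.add_apply, hμ, hν, add_zero]

theorem SUA_wdata {t : ℝ} {β α βg αg βh αh : Measure ℂ} (h : Dec t β α βg αg βh αh) :
    WData t (fun z => t * Complex.exp (Lg (β + αg) z - Lg (α + βg) z))
      (β + αg) (α + βg) (β + αh) (α + βh) := by
  have := h.f1
  have := h.f2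
  have := h.f3
  have := h.f4
  have := h.f5
  have := h.f6
  refine
    { t0 := h.t0
      t1 := h.t1
      fP := inferInstance
      fN := inferInstance
      fP' := inferInstance
      fN' := inferInstance
      cP := SUA_circ_add h.c1 h.c4
      cN := SUA_circ_add h.c2 h.c3
      cP' := SUA_circ_add h.c1 h.c6
      cN' := SUA_circ_add h.c2 h.c5
      m := ?_
      m' := ?_
      hw := fun z _ => rfl
      hw' := ?_ }
  · rw [measureReal_add_apply, measureReal_add_apply]
    linarith [h.m, h.mg]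
  · rw [measureReal_add_apply, measureReal_add_apply]
    linarith [h.m, h.mh]
  · intro z hz
    have hz' : ‖z‖ < 1 := by simpa using hz
    rw [LA_add β αg h.c1 h.c4 hz', LA_add α βg h.c2 h.c3 hz', LA_add β αh h.c1 h.c6 hz',
      LA_add α βh h.c2 h.c5 hz']
    have e := h.eq z hz
    have e1 : Complex.exp (Lg β z - Lg α z) * Complex.exp (Lg α z - Lg β z) = 1 := by
      rw [← Complex.exp_add]
      simp
    have e2 : Complex.exp (Lg β z + Lg αg z - (Lg α z + Lg βg z)) =
        Complex.exp (Lg β z - Lg α z) * Complex.exp (Lg αg z - Lg βg z) := by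
      rw [← Complex.exp_add]
      congr 1
      ring
    have e3 : Complex.exp (Lg β z + Lg αh z - (Lg α z + Lg βh z)) =
        Complex.exp (Lg β z - Lg α z) * Complex.exp (Lg αh z - Lg βh z) := by
      rw [← Complex.exp_add]
      congr 1
      ring
    rw [e2, e3]
    rw [e] at e1
    linear_combination -e1

theorem SUA_potInf_measurable (Λ : Measure ℂ) [IsFiniteMeasure Λ] : MeasurableSet (potInf Λ) := by
  have h : Measurable fun ζ : ℂ => ∫⁻ ξ, ENNReal.ofReal (Real.log (2 / ‖ξ - ζ‖)) ∂Λ := by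
    apply Measurable.lintegral_prod_right'
      (f := fun p : ℂ × ℂ => ENNReal.ofReal (Real.log (2 / ‖p.2 - p.1‖)))
    exact ENNReal.measurable_ofReal.comp (Real.measurable_log.comp
      (measurable_const.div (measurable_snd.sub measurable_fst).norm))
  exact h (measurableSet_singleton ⊤)

theorem SUA_countable (μ : Measure ℂ) [IsFiniteMeasure μ] : (atoms μ).Countable := by
  have h := Measure.countable_meas_pos_of_disjoint_iUnion (μ := μ) (As := fun x : ℂ => {x})
    (fun x => measurableSet_singleton x) (fun x y hxy => by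
      simp only [Function.onFun, Set.disjoint_singleton]
      exact hxy)
  refine h.mono fun x hx => ?_
  exact pos_iff_ne_zero.2 hx

theorem SUA_null {μ : Measure ℂ} {s : Set ℂ} (hs : s.Countable) :
    (μ.restrict (atoms μ)ᶜ) s = 0 := by
  rw [measure_null_iff_singleton hs]
  intro x _
  rw [Measure.restrict_apply (measurableSet_singleton x)]
  by_cases hx : x ∈ atoms μ
  · have : ({x} : Set ℂ) ∩ (atoms μ)ᶜ = ∅ := by
      ext y
      simp only [mem_inter_iff, mem_singleton_iff, mem_compl_iff, mem_empty_iff_false, iff_false,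
        not_and, not_not]
      rintro rfl
      exact hx
    rw [this, measure_empty]
  · have h1 : μ {x} = 0 := by
      by_contra h
      exact hx h
    exact measure_mono_null inter_subset_left h1

theorem SUA_main {t : ℝ} {w : ℂ → ℂ} {P N P' N' : Measure ℂ} (hW : WData t w P N P' N')
    {μ ν : Measure ℂ} (hc : OnCircle μ) (np : NonPolar (μ.restrict (atoms μ)ᶜ)) {S : Set ℂ}
    (hS : MeasurableSet S) (hμS : μ Sᶜ = 0) (hSa : arcLen S = 0)
    (hcomp : ∀ B ⊆ S, P B = N B → μ B ≤ ν B) :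
    μ.restrict (atoms μ)ᶜ ≤ ν := by
  have := hW.fP
  have := hW.fN
  have := hW.fP'
  have := hW.fN'
  set U : Set ℂ := ((atoms P ∪ atoms N) ∪ (atoms P' ∪ atoms N')) ∪
    ((potInf P ∪ potInf N) ∪ (potInf P' ∪ potInf N')) with hU
  have hUm : MeasurableSet U :=
    (((SUA_countable P).measurableSet.union (SUA_countable N).measurableSet).union
      ((SUA_countable P').measurableSet.union (SUA_countable N').measurableSet)).union
    (((SUA_potInf_measurable P).union (SUA_potInf_measurable N)).union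
      ((SUA_potInf_measurable P').union (SUA_potInf_measurable N')))
  have hU0 : (μ.restrict (atoms μ)ᶜ) U = 0 := by
    rw [hU]
    refine measure_union_null (measure_union_null (measure_union_null ?_ ?_)
      (measure_union_null ?_ ?_)) (measure_union_null (measure_union_null ?_ ?_)
      (measure_union_null ?_ ?_))
    · exact SUA_null (SUA_countable P)
    · exact SUA_null (SUA_countable N)
    · exact SUA_null (SUA_countable P')
    · exact SUA_null (SUA_countable N')
    · exact np P hW.fP hW.cP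
    · exact np N hW.fN hW.cN
    · exact np P' hW.fP' hW.cP'
    · exact np N' hW.fN' hW.cN'
  have hV0 : (μ.restrict (atoms μ)ᶜ) ((S ∩ sphere (0 : ℂ) 1)ᶜ ∪ U) = 0 := by
    refine measure_union_null ?_ hU0
    have h1 : μ ((S ∩ sphere (0 : ℂ) 1)ᶜ) = 0 := by
      rw [compl_inter]
      exact measure_union_null hμS hc
    exact le_antisymm ((Measure.restrict_le_self _).trans h1.le) (zero_le)
  rw [Measure.le_iff]
  intro B hB
  set B' : Set ℂ := B \ ((S ∩ sphere (0 : ℂ) 1)ᶜ ∪ U) with hB'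
  have hSp : MeasurableSet (sphere (0 : ℂ) 1) := isClosed_sphere.measurableSet
  have hB'm : MeasurableSet B' := hB.diff ((hS.inter hSp).compl.union hUm)
  have hmem : ∀ ζ ∈ B', ζ ∈ S ∧ ζ ∈ sphere (0 : ℂ) 1 ∧ ζ ∉ U := by
    rintro ζ ⟨_, h2⟩
    rw [mem_union, not_or, mem_compl_iff, not_not] at h2
    exact ⟨h2.1.1, h2.1.2, h2.2⟩
  have hnot : ∀ ζ ∈ B', (P {ζ} = 0 ∧ N {ζ} = 0 ∧ P' {ζ} = 0 ∧ N' {ζ} = 0) ∧
      (ζ ∉ potInf P ∧ ζ ∉ potInf N ∧ ζ ∉ potInf P' ∧ ζ ∉ potInf N') := by
    intro ζ hζ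
    have h := (hmem ζ hζ).2.2
    rw [hU] at h
    simp only [mem_union, not_or] at h
    obtain ⟨⟨⟨a1, a2⟩, a3, a4⟩, ⟨a5, a6⟩, a7, a8⟩ := h
    refine ⟨⟨?_, ?_, ?_, ?_⟩, a5, a6, a7, a8⟩
    · by_contra h; exact a1 h
    · by_contra h; exact a2 h
    · by_contra h; exact a3 h
    · by_contra h; exact a4 h
  have hPN : P B' = N B' := by
    refine STH hW B' hB'm (fun ζ hζ => (hmem ζ hζ).2.1) ?_ (fun ζ hζ => (hnot ζ hζ).1)
      (fun ζ hζ => (hnot ζ hζ).2)
    exact measure_mono_null (fun ζ hζ => (hmem ζ hζ).1) hSa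
  calc (μ.restrict (atoms μ)ᶜ) B ≤ (μ.restrict (atoms μ)ᶜ) (B' ∪
        ((S ∩ sphere (0 : ℂ) 1)ᶜ ∪ U)) := measure_mono (by
          intro ζ hζ
          by_cases h : ζ ∈ (S ∩ sphere (0 : ℂ) 1)ᶜ ∪ U
          · exact Or.inr h
          · exact Or.inl ⟨hζ, h⟩)
    _ ≤ (μ.restrict (atoms μ)ᶜ) B' + (μ.restrict (atoms μ)ᶜ) ((S ∩ sphere (0 : ℂ) 1)ᶜ ∪ U) :=
        measure_union_le _ _
    _ = (μ.restrict (atoms μ)ᶜ) B' := by rw [hV0, add_zero]
    _ ≤ μ B' := Measure.restrict_le_self _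
    _ ≤ ν B' := hcomp B' (fun ζ hζ => (hmem ζ hζ).1) hPN
    _ ≤ ν B := measure_mono sdiff_subset

theorem SUA {t : ℝ} {β α βg αg βh αh : Measure ℂ} (h : Dec t β α βg αg βh αh)
    (hs : β ⟂ₘ α) (hβ : β ⟂ₘ arcLen) (hα : α ⟂ₘ arcLen)
    (npβ : NonPolar (β.restrict (atoms β)ᶜ)) (npα : NonPolar (α.restrict (atoms α)ᶜ)) :
    β.restrict (atoms β)ᶜ ≤ βg ∧ α.restrict (atoms α)ᶜ ≤ αg := by
  have := h.f1
  have := h.f2
  have := h.f3
  have := h.f4
  have hW := SUA_wdata h
  obtain ⟨s1, m1, b1, a1⟩ := hs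
  obtain ⟨s2, m2, b2, a2⟩ := hβ
  obtain ⟨s3, m3, b3, a3⟩ := hα
  constructor
  · refine SUA_main hW h.c1 npβ (S := (s1 ∪ s2)ᶜ) (m1.union m2).compl ?_ ?_ ?_
    · rw [compl_compl]
      exact measure_union_null b1 b2
    · exact measure_mono_null (by
        intro x hx hx2
        exact hx (Or.inr hx2)) a2
    · intro B hB hPN
      have hαB : α B = 0 := measure_mono_null (fun x hx hx1 => hB hx (Or.inl hx1)) a1
      rw [Measure.add_apply, Measure.add_apply, hαB, zero_add] at hPN
      rw [← hPN]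
      exact le_self_add
  · refine SUA_main hW h.c2 npα (S := (s1ᶜ ∪ s3)ᶜ) (m1.compl.union m3).compl ?_ ?_ ?_
    · rw [compl_compl]
      exact measure_union_null a1 b3
    · exact measure_mono_null (by
        intro x hx hx2
        exact hx (Or.inr hx2)) a3
    · intro B hB hPN
      have hβB : β B = 0 := measure_mono_null (fun x hx => by
        by_contra hx1
        exact hB hx (Or.inl hx1)) b1
      rw [Measure.add_apply, Measure.add_apply, hβB, zero_add] at hPN
      rw [hPN]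
      exact le_self_add

end

end Pool.H90.VK
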