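import Pool.Agent.H90.VK.TR4

/-!
# TR5 : a second bound for the length of a gap

Same start as in `TR_gap`: `A ≤ -π` on the gap `(-π, -π+ℓ)`, and `A ≤ c + π n(ℝ) ≤ π (n(ℝ) - 1)` everywhere, so
`0 = ∫ A ≤ -πℓ + π (n(ℝ) - 1)(2π - ℓ)`, that is `ℓ n(ℝ) ≤ 2π (n(ℝ) - 1)`.
-/

open MeasureTheory Set Filter Topology Metric
open scoped Real ENNReal ComplexConjugate

namespace Pool.H90.VK

noncomputable section

theorem TR5_claim {c : ℝ} {p n p' n' : Measure ℝ} (h : TRData c p n p' n')
    (hc : c ≤ -π) (l : ℝ) (hl : 0 < l)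
    (hl2 : l < 2 * π) (hgap : n' (Ioo (-π) (-π + l)) = 0) :
    ∀ θ ∈ Ioo (-π) (-π + l), trA c p n θ ≤ -π := by
  have hπ := Real.pi_pos
  have hfp := h.fp
  have hfn := h.fn
  have hfp' := h.fp'
  have hfn' := h.fn'
  -- `Ψ ≤ 0` on the gap
  have hPsi : ∀ y, y < -π + l → trPsi p' n' y ≤ 0 := by
    intro y hy
    have h8 : n' (Iic y) = 0 := by
      refine measure_mono_null ?_ (measure_union_null h.cn' hgap)
      intro z hz
      by_cases h9 : z ∈ Ioo (-π) π
      · exact Or.inr ⟨h9.1, lt_of_le_of_lt hz hy⟩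
      · exact Or.inl h9
    unfold trPsi
    rw [measureReal_def n', h8, ENNReal.toReal_zero, sub_zero]
    have h9 : 0 ≤ p'.real (Iic y) := measureReal_nonneg
    nlinarith
  have hAstart : trA c p n (-π) = c := by
    have h8 : ∀ μ : Measure ℝ, μ (Ioo (-π) π)ᶜ = 0 → μ.real (Iic (-π)) = 0 := by
      intro μ hμ
      rw [measureReal_def, measure_mono_null (s := Iic (-π)) (t := (Ioo (-π) π)ᶜ) _ hμ,
        ENNReal.toReal_zero]
      intro z hz hz'
      exact absurd hz'.1 (not_lt.2 hz)
    unfold trA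
    rw [h8 p h.cp, h8 n h.cn]
    ring
  -- no point with `A` in `(-π, 0)` in the gap
  have hno : ∀ θ, -π ≤ θ → θ < -π + l → -π < trA c p n θ → trA c p n θ < 0 → False := by
    intro θ hθ1 hθ2 hA1 hA2
    obtain ⟨δ, hδ, hr⟩ := TR4_right c p n θ (ε := min (trA c p n θ + π) (-trA c p n θ))
      (lt_min (by linarith) (by linarith))
    have hdense := Measure.dense_of_ae h.sgn
    obtain ⟨y, hy, hy'⟩ := hdense.exists_mem_open (U := Ioo θ (min (θ + δ) (-π + l))) isOpen_Ioo
      (nonempty_Ioo.2 (lt_min (by linarith) hθ2))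
    have hy1 : y < θ + δ := lt_of_lt_of_le hy'.2 (min_le_left _ _)
    have hy2 : y < -π + l := lt_of_lt_of_le hy'.2 (min_le_right _ _)
    have h8 := hr y hy'.1.le hy1
    rw [abs_lt] at h8
    have h9 := min_le_left (trA c p n θ + π) (-trA c p n θ)
    have h10 := min_le_right (trA c p n θ + π) (-trA c p n θ)
    have h11 : Real.sin (trA c p n y) < 0 :=
      Real.sin_neg_of_neg_of_neg_pi_lt (by linarith) (by linarith)
    have h12 := (hy ⟨by linarith [hy'.1], by linarith⟩).2.1 h11
    have h13 := hPsi y hy2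
    linarith
  by_contra hcon
  push Not at hcon
  obtain ⟨θ0, hθ0, hA0⟩ := hcon
  set D : Set ℝ := {θ | θ ∈ Ioo (-π) (-π + l) ∧ -π < trA c p n θ} with hD
  have hDne : D.Nonempty := ⟨θ0, hθ0, hA0⟩
  have hDb : BddBelow D := ⟨-π, fun θ hθ => hθ.1.1.le⟩
  set θs : ℝ := sInf D with hθs
  have hs1 : -π ≤ θs := le_csInf hDne fun θ hθ => hθ.1.1.le
  have hs2 : θs < -π + l := lt_of_le_of_lt (csInf_le hDb ⟨hθ0, hA0⟩) hθ0.2
  by_cases hAs : trA c p n θs < 0
  · obtain ⟨δ, hδ, hr⟩ := TR4_right c p n θs (ε := -trA c p n θs) (by linarith)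
    obtain ⟨θ1, hθ1, hlt⟩ := exists_lt_of_csInf_lt hDne (show sInf D < θs + δ by linarith)
    have h8 := hr θ1 (csInf_le hDb hθ1) hlt
    rw [abs_lt] at h8
    exact hno θ1 hθ1.1.1.le hθ1.1.2 hθ1.2 (by linarith)
  · push Not at hAs
    have hs3 : -π < θs := by
      refine lt_of_le_of_ne hs1 fun he => ?_
      rw [← he, hAstart] at hAs
      linarith
    obtain ⟨δ, hδ, hr⟩ := TR4_left c p n θs (ε := π / 2) (by positivity)
    obtain ⟨y, hy1, hy2⟩ := exists_between (show max (-π) (θs - δ) < θs from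
      max_lt hs3 (by linarith))
    have hy3 : -π < y := lt_of_le_of_lt (le_max_left _ _) hy1
    have hy4 : θs - δ < y := lt_of_le_of_lt (le_max_right _ _) hy1
    have hAy : trA c p n y ≤ -π := by
      by_contra hc2
      push Not at hc2
      have : θs ≤ y := csInf_le hDb ⟨⟨hy3, by linarith⟩, hc2⟩
      linarith
    have h8 := hr y hy4 hy2
    rw [abs_lt] at h8
    have h9 : p.real {θs} < n.real {θs} := by
      by_contra hc2
      push Not at hc2
      have : 0 ≤ π * (p.real {θs} - n.real {θs}) := mul_nonneg hπ.le (by linarith)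
      linarith
    have h10 := h.pole' θs ⟨hs3, by linarith⟩ h9
    have h11 : n'.real {θs} = 0 := by
      rw [measureReal_def, measure_mono_null (s := {θs}) (t := Ioo (-π) (-π + l)) _ hgap,
        ENNReal.toReal_zero]
      intro z hz
      rw [Set.mem_singleton_iff] at hz
      rw [hz]
      exact ⟨hs3, hs2⟩
    have h12 : 0 ≤ p'.real {θs} := measureReal_nonneg
    linarith

theorem TR5_gap {c : ℝ} {p n p' n' : Measure ℝ} (h : TRData c p n p' n')
    (hne : p.real univ ≠ n.real univ) (l : ℝ) (hl : 0 < l)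
    (hl2 : l < 2 * π) (hgap : n' (Ioo (-π) (-π + l)) = 0) :
    l * n.real univ ≤ 2 * π * (n.real univ - 1) := by
  have hπ := Real.pi_pos
  have hfp := h.fp
  have hfn := h.fn
  obtain ⟨i, j, hi, hj, h1, h2, h3, h5, -, -⟩ := TR_main h hne
  have hi' : (i : ℝ) ≤ -1 := by exact_mod_cast hi
  have hc : c ≤ -π := by nlinarith
  have hclaim := TR5_claim h hc l hl hl2 hgap
  have hub : ∀ θ, trA c p n θ ≤ π * (n.real univ - 1) := by
    intro θ
    unfold trA
    have e1 : 0 ≤ p.real (Iic θ) := measureReal_nonneg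
    have e2 : n.real (Iic θ) ≤ n.real univ := measureReal_mono (subset_univ _)
    nlinarith
  have hI1 : ∫ θ in (-π : ℝ)..(-π + l), trA c p n θ ≤ -π * l := by
    have h8 := intervalIntegral.integral_mono_on_of_le_Ioo (μ := volume) (show -π ≤ -π + l by linarith)
      (TR4_int c p n (-π) (-π + l)) (intervalIntegrable_const (c := -π)) hclaim
    rw [intervalIntegral.integral_const, smul_eq_mul] at h8
    linarith
  have hI2 : ∫ θ in (-π + l : ℝ)..π, trA c p n θ ≤ π * (n.real univ - 1) * (2 * π - l) := by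
    have h8 := intervalIntegral.integral_mono_on_of_le_Ioo (μ := volume) (show -π + l ≤ π by linarith)
      (TR4_int c p n (-π + l) π) (intervalIntegrable_const (c := π * (n.real univ - 1)))
      (fun θ _ => hub θ)
    rw [intervalIntegral.integral_const, smul_eq_mul] at h8
    linarith
  have hI := intervalIntegral.integral_add_adjacent_intervals (TR4_int c p n (-π) (-π + l))
    (TR4_int c p n (-π + l) π)
  rw [h.mean] at hI
  have h8 : π * (l * n.real univ) ≤ π * (2 * π * (n.real univ - 1)) := by nlinarith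
  exact le_of_mul_le_mul_left h8 hπ

theorem TR5 {c : ℝ} {p n p' n' : Measure ℝ} (h : TRData c p n p' n')
    (hne : p.real univ ≠ n.real univ) (l : ℝ) (hl : 0 < l)
    (hl2 : l < 2 * π) (hgap : n' (Ioo (-π) (-π + l)) = 0 ∨ n' (Ioo (π - l) π) = 0) :
    l * n.real univ ≤ 2 * π * (n.real univ - 1) := by
  rcases hgap with hgap | hgap
  · exact TR5_gap h hne l hl hl2 hgap
  · have huniv : ∀ μ : Measure ℝ, (μ.map fun x : ℝ => -x).real univ = μ.real univ := by
      intro μ
      rw [measureReal_def, measureReal_def, Measure.map_apply measurable_neg MeasurableSet.univ,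
        Set.preimage_univ]
    have h0 := TR5_gap (TR_refl h).1 (by rw [huniv, huniv]; exact hne) l hl hl2 (by
      rw [Measure.map_apply measurable_neg measurableSet_Ioo]
      have h2 : (fun x : ℝ => -x) ⁻¹' Ioo (-π) (-π + l) = Ioo (π - l) π := by
        ext x
        simp only [Set.mem_preimage, Set.mem_Ioo]
        constructor
        · rintro ⟨h3, h4⟩
          exact ⟨by linarith, by linarith⟩
        · rintro ⟨h3, h4⟩
          exact ⟨by linarith, by linarith⟩
      rw [h2]
      exact hgap)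
    rw [huniv] at h0
    exact h0

end

end Pool.H90.VK
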