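import Pool.Agent.H90.VK.TCB
import Pool.Agent.H90.VK.TR5
import Pool.Agent.H90.VK.ROT

/-!
# TTH : order of vanishing at the positive atom is at least 2

`TTH0` (`y = -1`): `TCB`, `TR_main`: `n(ℝ) - p(ℝ) = P{-1} - N{-1} =: e > 0` (`TCB_lin_univ`, equal masses),
`π e = a₊ - a₋ ≥ (2πj - π) - (2πi + π) ≥ 2π`. Second part: `TR_gap`, `TR5`; the arc
`{-e^{iθ} : 0 < θ < l}` is `{e^{iφ} : -π < φ < -π + l}` and `{-e^{-iθ}}` is `{e^{iφ} : π - l < φ < π}`
(`l < 2π`), and `n'` is purely atomic, so it vanishes on an interval if it has no atoms there.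
`TTH` (general `y`): rotate everything by `η = - conj y` (`ROT`), `w̃(z) = w(conj η z)`.
-/

open MeasureTheory Set Filter Topology Metric
open scoped Real ENNReal ComplexConjugate

namespace Pool.H90.VK

noncomputable section

theorem TTH0 {t : ℝ} {w : ℂ → ℂ} {P N P' N' : Measure ℂ} (hW : WData t w P N P' N')
    (hat : N' {ζ | N' {ζ} = 0} = 0) (hlt : N'.real univ < 1)
    (hlt1 : ∀ ζ : ℂ, ζ ≠ -1 → P.real {ζ} - N.real {ζ} < 1)
    (h3 : P' {(-1 : ℂ)} = 0) (h3' : N' {(-1 : ℂ)} = 0)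
    (h4 : N.real {(-1 : ℂ)} < P.real {(-1 : ℂ)}) :
    2 ≤ P.real {(-1 : ℂ)} - N.real {(-1 : ℂ)} ∧
    (∀ l : ℝ, 0 < l → l < 2 * π →
      ((∀ θ ∈ Ioo 0 l, N' {-1 * Complex.exp (θ * Complex.I)} = 0) ∨
        (∀ θ ∈ Ioo 0 l, N' {-1 * Complex.exp (-θ * Complex.I)} = 0)) →
      l * N.real univ ≤ 2 * π * (N.real univ - 1) ∧
      (P.real {(-1 : ℂ)} - N.real {(-1 : ℂ)} < 4 → l ≤ 4 * π / 3)) := by
  have hπ := Real.pi_pos
  haveI := hW.fP
  haveI := hW.fN
  haveI := hW.fP'
  haveI := hW.fN'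
  obtain ⟨c, hTR⟩ := TCB hW hat hlt hlt1 h3 h3' h4
  have eP := TCB_lin_univ P
  have eN := TCB_lin_univ N
  have hm := hW.m
  have hne : (lin P).real univ ≠ (lin N).real univ := by
    rw [eP, eN, hm]
    intro h
    linarith
  obtain ⟨i, j, hi, hj, h1, h2, h5, h6, -, -⟩ := TR_main hTR hne
  have hi' : (i : ℝ) ≤ -1 := by exact_mod_cast hi
  have hj' : (1 : ℝ) ≤ j := by exact_mod_cast hj
  constructor
  · rw [eP, eN, hm] at h5
    have h7 : 2 * π * ((j : ℝ) - i - 1) ≤ π * (P.real {(-1 : ℂ)} - N.real {(-1 : ℂ)}) := by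
      nlinarith
    have h8 : 2 * π * 1 ≤ 2 * π * ((j : ℝ) - i - 1) :=
      mul_le_mul_of_nonneg_left (by linarith) (by linarith)
    have h9 : π * 2 ≤ π * (P.real {(-1 : ℂ)} - N.real {(-1 : ℂ)}) := by linarith
    exact le_of_mul_le_mul_left h9 hπ
  · intro l hl hl2 hgap
    have hg : (lin N') (Ioo (-π) (-π + l)) = 0 ∨ (lin N') (Ioo (π - l) π) = 0 := by
      rcases hgap with hgap | hgap
      · left
        refine measure_mono_null ?_ hTR.atomic
        intro φ hφ
        show (lin N') {φ} = 0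
        rw [TCB_lin_singleton N' hW.cN' ⟨hφ.1, by linarith [hφ.2]⟩]
        have h8 := hgap (φ + π) ⟨by linarith [hφ.1], by linarith [hφ.2]⟩
        have h9 : -1 * Complex.exp (((φ + π : ℝ) : ℂ) * Complex.I) = Complex.exp (φ * Complex.I) := by
          push_cast
          rw [add_mul, Complex.exp_add, Complex.exp_pi_mul_I]
          ring
        rwa [h9] at h8
      · right
        refine measure_mono_null ?_ hTR.atomic
        intro φ hφ
        show (lin N') {φ} = 0
        rw [TCB_lin_singleton N' hW.cN' ⟨by linarith [hφ.1], hφ.2⟩]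
        have h8 := hgap (π - φ) ⟨by linarith [hφ.2], by linarith [hφ.1]⟩
        have h9 : -1 * Complex.exp (-((π - φ : ℝ) : ℂ) * Complex.I) = Complex.exp (φ * Complex.I) := by
          have e : -((π - φ : ℝ) : ℂ) * Complex.I = φ * Complex.I - π * Complex.I := by
            push_cast; ring
          rw [e, Complex.exp_sub, Complex.exp_pi_mul_I]
          ring
        rwa [h9] at h8
    constructor
    · have h8 := TR5 hTR hne l hl hl2 hg
      rw [eN] at h8
      have h9 : 0 ≤ N.real {(-1 : ℂ)} := measureReal_nonneg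
      nlinarith
    · intro h7
      refine TR_gap hTR hne ?_ l hl hl2 hg
      rw [eP, eN, hm]; linarith

theorem TTH {t : ℝ} {w : ℂ → ℂ} {P N P' N' : Measure ℂ} (hW : WData t w P N P' N') {y : ℂ}
    (hy : ‖y‖ = 1) (hat : N' {ζ | N' {ζ} = 0} = 0) (hlt : N'.real univ < 1)
    (hlt1 : ∀ ζ : ℂ, ζ ≠ y → P.real {ζ} - N.real {ζ} < 1)
    (h3 : P' {y} = 0) (h3' : N' {y} = 0) (h4 : N.real {y} < P.real {y}) :
    2 ≤ P.real {y} - N.real {y} ∧
    (∀ l : ℝ, 0 < l → l < 2 * π →
      ((∀ θ ∈ Ioo 0 l, N' {y * Complex.exp (θ * Complex.I)} = 0) ∨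
        (∀ θ ∈ Ioo 0 l, N' {y * Complex.exp (-θ * Complex.I)} = 0)) →
      l * N.real univ ≤ 2 * π * (N.real univ - 1) ∧
      (P.real {y} - N.real {y} < 4 → l ≤ 4 * π / 3)) := by
  haveI := hW.fP
  haveI := hW.fN
  haveI := hW.fP'
  haveI := hW.fN'
  set η : ℂ := -conj y with hη
  have hη1 : ‖η‖ = 1 := by rw [hη, norm_neg, Complex.norm_conj, hy]
  have hη0 : η ≠ 0 := by
    intro h
    rw [h, norm_zero] at hη1
    exact zero_ne_one hη1
  have hcη : conj η = -y := by rw [hη, map_neg, Complex.conj_conj]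
  have hy0 : y ≠ 0 := by
    intro h
    rw [h, norm_zero] at hy
    exact zero_ne_one hy
  have hcc : conj η * η = 1 := by
    rw [mul_comm, Complex.mul_conj, Complex.normSq_eq_norm_sq, hη1]
    simp
  have hs : ∀ (μ : Measure ℂ) (x : ℂ), (rot η μ).real {x} = μ.real {conj η * x} := by
    intro μ x
    rw [measureReal_def, measureReal_def, ROT_singleton hη1]
  have hneg : conj η * (-1) = y := by rw [hcη]; ring
  have hW2 : WData t (fun z => w (conj η * z)) (rot η P) (rot η N) (rot η P') (rot η N') := by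
    refine ⟨hW.t0, hW.t1, ROT_finite _ _, ROT_finite _ _, ROT_finite _ _, ROT_finite _ _,
      ROT_circ hη1 hW.cP, ROT_circ hη1 hW.cN, ROT_circ hη1 hW.cP', ROT_circ hη1 hW.cN', ?_, ?_, ?_, ?_⟩
    · rw [ROT_univ, ROT_univ, hW.m]
    · rw [ROT_univ, ROT_univ, hW.m']
    · intro z hz
      rw [ROT_Lg hη1, ROT_Lg hη1]
      refine hW.hw _ ?_
      rw [mem_ball_zero_iff, norm_mul, Complex.norm_conj, hη1, one_mul]
      simpa using hz
    · intro z hz
      rw [ROT_Lg hη1, ROT_Lg hη1]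
      refine hW.hw' _ ?_
      rw [mem_ball_zero_iff, norm_mul, Complex.norm_conj, hη1, one_mul]
      simpa using hz
  have hat2 : rot η N' {ζ | rot η N' {ζ} = 0} = 0 := by
    have e : rot η N' = N'.map (MeasurableEquiv.mulLeft₀ η hη0) := rfl
    have e2 : {ζ | rot η N' {ζ} = 0} = {ζ | N' {conj η * ζ} = 0} := by
      ext ζ
      simp only [mem_setOf_eq, ROT_singleton hη1]
    rw [e2, e, MeasurableEquiv.map_apply]
    have e3 : (MeasurableEquiv.mulLeft₀ η hη0) ⁻¹' {ζ | N' {conj η * ζ} = 0} = {ζ | N' {ζ} = 0} := by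
      ext ζ
      simp only [mem_preimage, mem_setOf_eq]
      have : conj η * (MeasurableEquiv.mulLeft₀ η hη0) ζ = ζ := by
        show conj η * (η * ζ) = ζ
        rw [← mul_assoc, hcc, one_mul]
      rw [this]
    rw [e3, hat]
  have key := TTH0 hW2 hat2 (by rw [ROT_univ]; exact hlt)
    (by
      intro ζ hζ
      rw [hs, hs]
      refine hlt1 _ ?_
      intro h
      apply hζ
      rw [hcη] at h
      have : y * (ζ + 1) = 0 := by linear_combination -h
      rcases mul_eq_zero.1 this with h | h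
      · exact absurd h hy0
      · linear_combination h)
    (by rw [ROT_singleton hη1, hneg]; exact h3)
    (by rw [ROT_singleton hη1, hneg]; exact h3')
    (by rw [hs, hs, hneg]; exact h4)
  rw [hs, hs, hneg, ROT_univ] at key
  refine ⟨key.1, fun l hl hl2 hgap => key.2 l hl hl2 ?_⟩
  rcases hgap with hgap | hgap
  · left
    intro θ hθ
    rw [ROT_singleton hη1, ← mul_assoc, hneg]
    exact hgap θ hθ
  · right
    intro θ hθ
    rw [ROT_singleton hη1, ← mul_assoc, hneg]
    exact hgap θ hθ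

end

end Pool.H90.VK
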