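import Pool.Agent.H90.VK.SUBG
import Pool.Agent.H90.VK.SEC
import Pool.Agent.H90.VK.KW
import Pool.Agent.H90.VK.TTH

/-!
# SUB : the sufficient conditions, on the level of measures

`SUB_growth`: at every point `y` of the circle, `β{y} - α{y} ≤ βg{y} - αg{y}` or
`β{y} - α{y} ≤ βh{y} - αh{y}`.
Proof: at `z = r y`, `|e^{Lg α - Lg β}| ≤ |e^{Lg αg - Lg βg}| + |e^{Lg αh - Lg βh}| ≤ 2 max`, so
`Re (Lg α - Lg β) ≤ log 2 + max(...)`; divide by `log (1-r) < 0`, `r → 1`, `GR_re`
(if both inequalities failed, for `r` near 1 the left side would be larger than `log 2 + max`).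

`SUB_full`: suppose also `αc := α.restrict (atoms α)ᶜ ≤ αg, αh`, `βc := β.restrict (atoms β)ᶜ ≤ βg`,
`βh = β`, `βg ⟂ₘ αg`, `βh ⟂ₘ αh`, `β ⟂ₘ α`, `βg(T) ≤ β(T)`, `α(T) < 1`, `β(T) + α(T) < 4`, `atoms β`
has at most one point, and one of
 (i) `β(atoms β) + α(atoms α) < 2`, (ii) `atoms α` has at most one point,
 (iii) an arc of length `l > 4π/3` or `l > 2π(1-1/s)`, `s = β(atoms β) + α(atoms α)`, with endpoint
 `y ∈ atoms β`, free of atoms of `α`.
Then on the disc `exp (Lg αg - Lg βg) = exp (Lg α - Lg β)`.
Proof. Masses: `αg(T) = βg(T) - 2 ≤ α(T)`, `αh(T) = α(T)`. Let `αat = α.restrict (atoms α)`,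
`a' = αat(T)`; there are measures `σg, σh` with `αg = αc + σg`, `αh = αc + σh`, `ρg` with `βg = βc + ρg`
(`Measure.sub`), `σh(T) = a'`, `σg(T) ≤ a' ≤ α(T) < 1`.
Case A: `βg = β`. Then `αg(T) = α(T)`, and after multiplication by `exp (Lg β)` the identity is
`e^{Lg α} = t e^{Lg αg} + (1-t) e^{Lg αh}`; `SEC` gives `αg{x} ≥ α{x}` for all `x`; with `αg ≥ αc` and
`αc` atomless this gives `αg ≥ αc + αat = α` (for Borel `B`: `αg B = αg (B \ atoms α) + Σ_{x ∈ B ∩ atoms α}`),
and equal masses give `αg = α`.
Case B: `βg ≠ β`. Then `atoms β` is nonempty (else `β = βc ≤ βg` and `βg(T) ≤ β(T)` give `βg = β`); let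
`atoms β = {y}`, `m = β{y}`, `β = βc + m δ_y`. If `βg{y} ≥ m` then `βg ≥ βc + m δ_y = β`, so `βg = β`;
so `βg{y} < m`, and `e := m - βg{y} + αg{y} > 0`. With `w z = t exp(Lg (mδ_y + σg) - Lg (ρg + αat))`:
`WData t w (mδ_y + σg) (ρg + αat) σh αat` (common parts cancel).
 (ii): if `αat = 0` then `σh = 0`, `1 - w = 1 - t`, `w = t`, done. If `αat = a' δ_x`, `a' > 0`:
 `(1-w)/(1-t) = exp (Lg σh z - σh(T) log(1 - conj x z))` omits `1/(1-t) > 1` because `w ≠ 0`; `KW`:
 `σh {x}ᶜ = 0`, so `σh = a' δ_x = αat` and `1 - w = 1 - t`, `w = t`, which is the claim.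
 (i), (iii): apply `TTH` at `y`: `N' = αat` is atomic with mass `< 1`; for `ζ ≠ y`,
 `(mδ_y + σg){ζ} ≤ σg(T) < 1`; `αat{y} = 0` since `β ⟂ₘ α` and `β{y} > 0`; `σh{y} ≤ αh{y} = 0` since
 `βh{y} = m > 0`, `βh ⟂ₘ αh`; `P{y} - N{y} = m + σg{y} - ρg{y} = e > 0` (`σg{y} = αg{y}`, `ρg{y} = βg{y}`
 since `αc, βc` have no atoms; `αat{y} = 0`).
 So `2 ≤ e ≤ m + σg(T) ≤ m + a'`, contradicting (i); in case (iii) `e ≤ m + a' ≤ β(T)+α(T) < 4`, so the
 second part of `TTH` (with `l` replaced by `min l (3π/2)`) gives `min l (3π/2) ≤ 4π/3`, a contradiction.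
-/

open MeasureTheory Set Filter Topology Metric
open scoped Real ENNReal ComplexConjugate

namespace Pool.H90.VK

noncomputable section

/-- an open arc of length `l` with the positive atom as endpoint, without negative atoms, where
`l > 4π/3` or `l > 2π (1 - 1/s)`, `s` the total atomic mass -/
def ArcCond (β α : Measure ℂ) : Prop :=
  ∃ l : ℝ, (4 * π / 3 < l ∨ 2 * π * (β.real (atoms β) + α.real (atoms α) - 1) <
      l * (β.real (atoms β) + α.real (atoms α))) ∧ ∀ y ∈ atoms β,
    (∀ θ ∈ Ioo 0 l, α {y * Complex.exp (θ * Complex.I)} = 0) ∨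
    (∀ θ ∈ Ioo 0 l, α {y * Complex.exp (-θ * Complex.I)} = 0)

private theorem SUB_atoms_countable (μ : Measure ℂ) [IsFiniteMeasure μ] : (atoms μ).Countable := by
  have h := Measure.countable_meas_level_set_pos (μ := μ) (g := fun z : ℂ => z) measurable_id
  refine h.mono fun x hx => ?_
  have hx' : μ {x} ≠ 0 := hx
  exact pos_iff_ne_zero.2 hx'

private theorem SUB_atoms_meas (μ : Measure ℂ) [IsFiniteMeasure μ] : MeasurableSet (atoms μ) :=
  (SUB_atoms_countable μ).measurableSet

private theorem SUB_count_le {μ ν : Measure ℂ} {s : Set ℂ} (hs : s.Countable)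
    (h : ∀ x ∈ s, μ {x} ≤ ν {x}) : μ s ≤ ν s := by
  have e : ∀ κ : Measure ℂ, κ s = ∑' x : s, κ {(x : ℂ)} := by
    intro κ
    rw [← measure_biUnion hs, biUnion_of_singleton]
    · intro a _ b _ hab
      exact disjoint_singleton.2 hab
    · intro b _
      exact measurableSet_singleton b
  rw [e μ, e ν]
  exact ENNReal.tsum_le_tsum fun x => h x x.2

private theorem SUB_le {μ ν : Measure ℂ} [IsFiniteMeasure μ] (h1 : μ.restrict (atoms μ)ᶜ ≤ ν)
    (h2 : ∀ x ∈ atoms μ, μ {x} ≤ ν {x}) : μ ≤ ν := by
  refine Measure.le_iff.2 fun B hB => ?_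
  have hA := SUB_atoms_meas μ
  rw [← measure_inter_add_sdiff B hA, ← measure_inter_add_sdiff (μ := ν) B hA]
  refine add_le_add ?_ ?_
  · refine SUB_count_le ((SUB_atoms_countable μ).mono inter_subset_right) fun x hx => h2 x hx.2
  · have h3 := h1 (B \ atoms μ)
    rw [Measure.restrict_apply (hB.diff hA)] at h3
    have e : B \ atoms μ ∩ (atoms μ)ᶜ = B \ atoms μ := by
      ext x; simp
    rwa [e] at h3

private theorem SUB_eq {μ ν : Measure ℂ} [IsFiniteMeasure μ] [IsFiniteMeasure ν] (h1 : μ ≤ ν)
    (h2 : ν.real univ ≤ μ.real univ) : μ = ν := by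
  refine Measure.eq_of_le_of_measure_univ_eq h1 (le_antisymm (h1 univ) ?_)
  exact (ENNReal.toReal_le_toReal (measure_ne_top _ _) (measure_ne_top _ _)).1 h2

private theorem SUB_real_le {μ ν : Measure ℂ} [IsFiniteMeasure ν] (h : μ ≤ ν) (s : Set ℂ) :
    μ.real s ≤ ν.real s :=
  ENNReal.toReal_mono (measure_ne_top _ _) (h s)

private theorem SUB_circ_le {μ ν : Measure ℂ} (h : μ ≤ ν) (hν : OnCircle ν) : OnCircle μ :=
  le_antisymm ((h _).trans hν.le) bot_le

private theorem SUB_circ_add {μ ν : Measure ℂ} (h : OnCircle μ) (hν : OnCircle ν) :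
    OnCircle (μ + ν) := by
  unfold OnCircle at *
  rw [Measure.add_apply, h, hν, add_zero]

private theorem SUB_norm {μ : Measure ℂ} (h : OnCircle μ) {x : ℂ} (hx : μ {x} ≠ 0) : ‖x‖ = 1 := by
  by_contra hne
  apply hx
  refine le_antisymm ?_ bot_le
  refine (measure_mono ?_).trans (le_of_eq h)
  rintro _ rfl
  simpa using hne

private theorem SUB_sing {μ ν : Measure ℂ} (h : μ ⟂ₘ ν) {x : ℂ} (hx : μ {x} ≠ 0) : ν {x} = 0 := by
  obtain ⟨s, _, h1, h2⟩ := h
  by_cases hxs : x ∈ s
  · exact absurd (le_antisymm ((measure_mono (singleton_subset_iff.2 hxs)).trans h1.le) bot_le) hx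
  · refine le_antisymm ?_ bot_le
    exact (measure_mono (singleton_subset_iff.2 (show x ∈ sᶜ from hxs))).trans h2.le

private theorem SUB_split (μ : Measure ℂ) [IsFiniteMeasure μ] :
    μ.restrict (atoms μ)ᶜ + μ.restrict (atoms μ) = μ := by
  rw [add_comm]
  exact Measure.restrict_add_restrict_compl (SUB_atoms_meas μ)

private theorem SUB_sub {μ ν : Measure ℂ} [IsFiniteMeasure μ] [IsFiniteMeasure ν] (h : μ ≤ ν) :
    ∃ σ : Measure ℂ, IsFiniteMeasure σ ∧ μ + σ = ν ∧ σ ≤ ν := by
  refine ⟨ν - μ, ?_, ?_, Measure.sub_le⟩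
  · infer_instance
  · rw [add_comm]; exact Measure.sub_add_cancel_of_le h

private theorem SUB_mass_add (μ ν : Measure ℂ) [IsFiniteMeasure μ] [IsFiniteMeasure ν] (s : Set ℂ) :
    (μ + ν).real s = μ.real s + ν.real s := measureReal_add_apply

private theorem SUB_zero_of_mass {μ : Measure ℂ} [IsFiniteMeasure μ] (h : μ.real univ = 0) :
    μ = 0 := by
  rw [← Measure.measure_univ_eq_zero]
  exact (measureReal_eq_zero_iff (measure_ne_top _ _)).1 h

private theorem SUB_Lg_zero (z : ℂ) : Lg 0 z = 0 := by
  unfold Lg
  rw [integral_zero_measure]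

theorem SUB_full {t : ℝ} {β α βg αg αh : Measure ℂ} (h : Dec t β α βg αg β αh)
    (hs : β ⟂ₘ α) (hsg : βg ⟂ₘ αg) (hsh : β ⟂ₘ αh)
    (hβc : β.restrict (atoms β)ᶜ ≤ βg) (hαc : α.restrict (atoms α)ᶜ ≤ αg)
    (hαh : α.restrict (atoms α)ᶜ ≤ αh) (hle : βg.real univ ≤ β.real univ)
    (ha1 : α.real univ < 1) (h4 : β.real univ + α.real univ < 4)
    (hat : (atoms β).Subsingleton)
    (hcond : β.real (atoms β) + α.real (atoms α) < 2 ∨ (atoms α).Subsingleton ∨ ArcCond β α) :
    ∀ z ∈ ball (0 : ℂ) 1, Complex.exp (Lg αg z - Lg βg z) = Complex.exp (Lg α z - Lg β z) := by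
  have := h.f1
  have := h.f2
  have := h.f3
  have := h.f4
  have := h.f6
  have hm := h.m
  have hmg := h.mg
  have hmh := h.mh
  have ht0 := h.t0
  have ht1 := h.t1
  by_cases hb : βg = β
  · -- case A
    have hdec : ∀ z ∈ ball (0 : ℂ) 1, Complex.exp (Lg α z) =
        t * Complex.exp (Lg αg z) + (1 - t) * Complex.exp (Lg αh z) := by
      intro z hz
      have h1 := h.eq z hz
      rw [hb] at h1
      rw [Complex.exp_sub, Complex.exp_sub, Complex.exp_sub] at h1
      have h2 := Complex.exp_ne_zero (Lg β z)
      field_simp at h1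
      exact h1
    have h1 : αg.real univ = α.real univ := by rw [hb] at hmg; linarith
    have h2 : αh.real univ = α.real univ := by linarith
    have h3 : ∀ x, α.real {x} ≤ αg.real {x} := fun x =>
      SEC α αg αh h.c2 h.c4 h.c6 (α.real univ) ha1 le_rfl h1.le h2.le t ht0 ht1 hdec x
    have h4 : α ≤ αg := SUB_le hαc fun x _ =>
      (ENNReal.toReal_le_toReal (measure_ne_top _ _) (measure_ne_top _ _)).1 (h3 x)
    have h5 : α = αg := SUB_eq h4 h1.le
    intro z _
    rw [hb, ← h5]
  · -- case B
    have hne : (atoms β).Nonempty := by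
      by_contra hemp
      rw [not_nonempty_iff_eq_empty] at hemp
      rw [hemp, compl_empty, Measure.restrict_univ] at hβc
      exact hb (SUB_eq hβc hle).symm
    obtain ⟨y, hy⟩ := hne
    have hyA : atoms β = {y} := hat.eq_singleton_of_mem hy
    have hy' : β {y} ≠ 0 := hy
    have hy1 : ‖y‖ = 1 := SUB_norm h.c1 hy'
    have hlt : βg {y} < β {y} := by
      by_contra hc
      push Not at hc
      apply hb
      refine (SUB_eq (SUB_le hβc fun x hx => ?_) hle).symm
      rw [hyA, mem_singleton_iff] at hx
      rw [hx]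
      exact hc
    have hltr : βg.real {y} < β.real {y} :=
      (ENNReal.toReal_lt_toReal (measure_ne_top _ _) (measure_ne_top _ _)).2 hlt
    -- the pieces
    set βc := β.restrict (atoms β)ᶜ with hβcdef
    set αc := α.restrict (atoms α)ᶜ with hαcdef
    set αat := α.restrict (atoms α) with hαat
    set βat := β.restrict (atoms β) with hβat
    have hβs : βc + βat = β := SUB_split β
    have hαs : αc + αat = α := SUB_split α
    obtain ⟨σg, fσg, eσg, lσg⟩ := SUB_sub hαc
    obtain ⟨σh, fσh, eσh, lσh⟩ := SUB_sub hαh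
    obtain ⟨ρg, fρg, eρg, lρg⟩ := SUB_sub hβc
    have cβc : OnCircle βc := SUB_circ_le Measure.restrict_le_self h.c1
    have cβat : OnCircle βat := SUB_circ_le Measure.restrict_le_self h.c1
    have cαc : OnCircle αc := SUB_circ_le Measure.restrict_le_self h.c2
    have cαat : OnCircle αat := SUB_circ_le Measure.restrict_le_self h.c2
    have cσg : OnCircle σg := SUB_circ_le lσg h.c4
    have cσh : OnCircle σh := SUB_circ_le lσh h.c6
    have cρg : OnCircle ρg := SUB_circ_le lρg h.c3
    -- masses
    have m1 : βc.real univ + βat.real univ = β.real univ := by rw [← SUB_mass_add, hβs]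
    have m2 : αc.real univ + αat.real univ = α.real univ := by rw [← SUB_mass_add, hαs]
    have m3 : αc.real univ + σg.real univ = αg.real univ := by rw [← SUB_mass_add, eσg]
    have m4 : αc.real univ + σh.real univ = αh.real univ := by rw [← SUB_mass_add, eσh]
    have m5 : βc.real univ + ρg.real univ = βg.real univ := by rw [← SUB_mass_add, eρg]
    have m6 : σh.real univ = αat.real univ := by linarith
    have m7 : σg.real univ ≤ αat.real univ := by linarith
    have m8 : αat.real univ < 1 := by
      have := measureReal_nonneg (μ := αc) (s := univ)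
      linarith
    set w : ℂ → ℂ := fun z => t * Complex.exp (Lg (βat + σg) z - Lg (ρg + αat) z) with hw
    have key : ∀ z ∈ ball (0 : ℂ) 1,
        t * Complex.exp (Lg αg z - Lg βg z) = w z * Complex.exp (Lg α z - Lg β z) ∧
        Complex.exp (Lg αh z - Lg β z) = Complex.exp (Lg σh z - Lg αat z) *
          Complex.exp (Lg α z - Lg β z) := by
      intro z hz
      have hz' : ‖z‖ < 1 := by simpa using hz
      have e1 : Lg β z = Lg βc z + Lg βat z := by
        rw [← LA_add βc βat cβc cβat hz', hβs]
      have e2 : Lg α z = Lg αc z + Lg αat z := by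
        rw [← LA_add αc αat cαc cαat hz', hαs]
      have e3 : Lg αg z = Lg αc z + Lg σg z := by
        rw [← LA_add αc σg cαc cσg hz', eσg]
      have e4 : Lg αh z = Lg αc z + Lg σh z := by
        rw [← LA_add αc σh cαc cσh hz', eσh]
      have e5 : Lg βg z = Lg βc z + Lg ρg z := by
        rw [← LA_add βc ρg cβc cρg hz', eρg]
      have e6 : Lg (βat + σg) z = Lg βat z + Lg σg z := LA_add βat σg cβat cσg hz'
      have e7 : Lg (ρg + αat) z = Lg ρg z + Lg αat z := LA_add ρg αat cρg cαat hz'
      constructor
      · rw [hw]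
        simp only
        rw [mul_assoc, ← Complex.exp_add, e1, e2, e3, e5, e6, e7]
        congr 2
        ring
      · rw [← Complex.exp_add, e1, e2, e4]
        congr 1
        ring
    have hW : WData t w (βat + σg) (ρg + αat) σh αat := by
      refine ⟨ht0, ht1, inferInstance, inferInstance, fσh, inferInstance,
        SUB_circ_add cβat cσg, SUB_circ_add cρg cαat, cσh, cαat, ?_, m6, fun z _ => rfl, ?_⟩
      · rw [SUB_mass_add, SUB_mass_add]
        linarith
      · intro z hz
        obtain ⟨k1, k2⟩ := key z hz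
        have h1 := h.eq z hz
        rw [k1, k2] at h1
        have h2 := Complex.exp_ne_zero (Lg α z - Lg β z)
        have h3 : (1 : ℂ) * Complex.exp (Lg α z - Lg β z) =
            (w z + (1 - t) * Complex.exp (Lg σh z - Lg αat z)) * Complex.exp (Lg α z - Lg β z) := by
          rw [one_mul]
          refine h1.trans ?_
          ring
        have h4 := mul_right_cancel₀ h2 h3
        linear_combination h4
    -- the claim follows from `w = t`
    have fin : (∀ z ∈ ball (0 : ℂ) 1, Lg σh z = Lg αat z) →
        ∀ z ∈ ball (0 : ℂ) 1, Complex.exp (Lg αg z - Lg βg z) = Complex.exp (Lg α z - Lg β z) := by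
      intro hL z hz
      have h1 := hW.hw' z hz
      rw [hL z hz, sub_self, Complex.exp_zero, mul_one] at h1
      have h2 : w z = t := by linear_combination -h1
      obtain ⟨k1, _⟩ := key z hz
      rw [h2] at k1
      exact mul_left_cancel₀ (by exact_mod_cast ht0.ne') k1
    have hTTH : (atoms α).Subsingleton ∨ (2 ≤ (βat + σg).real {y} - (ρg + αat).real {y} ∧
      (∀ l : ℝ, 0 < l → l < 2 * π →
        ((∀ θ ∈ Ioo 0 l, αat {y * Complex.exp (θ * Complex.I)} = 0) ∨
          (∀ θ ∈ Ioo 0 l, αat {y * Complex.exp (-θ * Complex.I)} = 0)) →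
        l * (ρg + αat).real univ ≤ 2 * π * ((ρg + αat).real univ - 1) ∧
        ((βat + σg).real {y} - (ρg + αat).real {y} < 4 → l ≤ 4 * π / 3))) := by
      right
      have hαy : αat {y} = 0 :=
        le_antisymm ((Measure.restrict_le_self _).trans (SUB_sing hs hy').le) bot_le
      have hαyr : αat.real {y} = 0 := by rw [measureReal_def, hαy]; rfl
      refine TTH hW hy1 ?_ m8 ?_ ?_ hαy ?_
      · rw [hαat, Measure.restrict_apply' (SUB_atoms_meas α)]
        have : {ζ : ℂ | (α.restrict (atoms α)) {ζ} = 0} ∩ atoms α = ∅ := by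
          ext ζ
          simp only [mem_inter_iff, mem_ofPred_eq, mem_empty_iff_false, iff_false, not_and]
          intro h0 hζ
          rw [Measure.restrict_apply (measurableSet_singleton ζ),
            inter_eq_left.2 (singleton_subset_iff.2 hζ)] at h0
          exact hζ h0
        rw [this, measure_empty]
      · intro ζ hζ
        rw [SUB_mass_add, SUB_mass_add]
        have h1 : βat.real {ζ} = 0 := by
          have : βat {ζ} = 0 := by
            rw [hβat, hyA, Measure.restrict_apply (measurableSet_singleton ζ)]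
            have : ({ζ} : Set ℂ) ∩ {y} = ∅ := by
              rw [← disjoint_iff_inter_eq_empty]
              exact disjoint_singleton.2 hζ
            rw [this, measure_empty]
          rw [measureReal_def, this]; rfl
        have h2 : σg.real {ζ} ≤ σg.real univ := measureReal_mono (subset_univ _)
        have h3 := measureReal_nonneg (μ := ρg) (s := {ζ})
        have h4 := measureReal_nonneg (μ := αat) (s := {ζ})
        linarith
      · exact le_antisymm ((lσh _).trans (SUB_sing hsh hy').le) bot_le
      · rw [SUB_mass_add, SUB_mass_add, hαyr]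
        have h1 : βat.real {y} = β.real {y} := by
          rw [measureReal_def, measureReal_def, hβat, Measure.restrict_apply
            (measurableSet_singleton y), inter_eq_left.2 (singleton_subset_iff.2 hy)]
        have h2 : ρg.real {y} ≤ βg.real {y} := SUB_real_le lρg _
        have h3 := measureReal_nonneg (μ := σg) (s := {y})
        linarith
    have hPle : (βat + σg).real {y} - (ρg + αat).real {y} ≤
        β.real (atoms β) + α.real (atoms α) := by
      have e1 : βat.real univ = β.real (atoms β) := by
        rw [measureReal_def, measureReal_def, hβat, Measure.restrict_apply_univ]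
      have e2 : αat.real univ = α.real (atoms α) := by
        rw [measureReal_def, measureReal_def, hαat, Measure.restrict_apply_univ]
      have h1 : (βat + σg).real {y} ≤ βat.real univ + σg.real univ := by
        rw [SUB_mass_add]
        exact add_le_add (measureReal_mono (subset_univ _)) (measureReal_mono (subset_univ _))
      have h2 := measureReal_nonneg (μ := ρg + αat) (s := {y})
      linarith
    have hii : (atoms α).Subsingleton →
        ∀ z ∈ ball (0 : ℂ) 1, Complex.exp (Lg αg z - Lg βg z) =
          Complex.exp (Lg α z - Lg β z) := by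
      intro hsub
      apply fin
      rcases hsub.eq_empty_or_singleton with he | ⟨x, hx⟩
      · have h1 : αat = 0 := by rw [hαat, he, Measure.restrict_empty]
        have h2 : σh = 0 := by
          apply SUB_zero_of_mass
          rw [m6, h1]; simp
        intro z _
        rw [h1, h2]
      · have hxα : α {x} ≠ 0 := by
          have : x ∈ atoms α := by rw [hx]; exact mem_singleton x
          exact this
        have hx1 : ‖x‖ = 1 := SUB_norm h.c2 hxα
        have h1 : αat = ENNReal.ofReal (αat.real univ) • Measure.dirac x := by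
          rw [ofReal_measureReal (measure_ne_top _ _)]
          rw [hαat, hx, Measure.restrict_singleton]
          simp
        have h2 : ∀ z, Lg αat z = αat.real univ * Complex.log (1 - conj x * z) := by
          intro z
          conv_lhs => rw [h1]
          rw [LA_dirac _ measureReal_nonneg]
        have h3 : σh {x}ᶜ = 0 := by
          refine KW σh cσh hx1 (1 / (1 - t)) ?_ ?_
          · rw [lt_div_iff₀ (by linarith)]; linarith
          · intro z hz hc
            have h4 := hW.hw' z hz
            rw [h2, ← m6, hc] at h4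
            have h5 : (1 - t : ℂ) ≠ 0 := by
              have : ((1 - t : ℝ) : ℂ) ≠ 0 := by exact_mod_cast (sub_pos.2 ht1).ne'
              simpa using this
            have h6 : w z = 0 := by
              push_cast at h4
              rw [mul_one_div_cancel h5] at h4
              linear_combination -h4
            rw [hw] at h6
            rcases mul_eq_zero.1 h6 with h7 | h7
            · exact ht0.ne' (by exact_mod_cast h7)
            · exact Complex.exp_ne_zero _ h7
        intro z _
        have h4 : Lg σh z = σh.real univ * Complex.log (1 - conj x * z) := by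
          unfold Lg
          have h5 : (fun ζ : ℂ => Complex.log (1 - conj ζ * z)) =ᵐ[σh]
              fun _ => Complex.log (1 - conj x * z) := by
            have h6 : ∀ᵐ ζ ∂σh, ζ ∈ ({x} : Set ℂ) := by
              rw [ae_iff]
              exact h3
            filter_upwards [h6] with ζ hζ
            rw [mem_singleton_iff.1 hζ]
          rw [integral_congr_ae h5, integral_const, Complex.real_smul]
        rw [h4, h2, m6]
    rcases hTTH with hsub | ⟨h2, h3⟩
    · exact hii hsub
    rcases hcond with hc | hc | hc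
    · exfalso; linarith
    · exact hii hc
    · exfalso
      obtain ⟨l, hl, harc⟩ := hc
      have hπ := Real.pi_pos
      have hlt4 : (βat + σg).real {y} - (ρg + αat).real {y} < 4 := by
        have e1 : β.real (atoms β) ≤ β.real univ := measureReal_mono (subset_univ _)
        have e2 : α.real (atoms α) ≤ α.real univ := measureReal_mono (subset_univ _)
        linarith
      have hfree : ∀ l' : ℝ, l' ≤ l → (∀ θ ∈ Ioo 0 l', αat {y * Complex.exp (θ * Complex.I)} = 0) ∨
          (∀ θ ∈ Ioo 0 l', αat {y * Complex.exp (-θ * Complex.I)} = 0) := by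
        intro l' hl'
        rcases harc y hy with ha | ha
        · left
          intro θ hθ
          exact le_antisymm ((Measure.restrict_le_self _).trans
            (ha θ ⟨hθ.1, hθ.2.trans_le hl'⟩).le) bot_le
        · right
          intro θ hθ
          exact le_antisymm ((Measure.restrict_le_self _).trans
            (ha θ ⟨hθ.1, hθ.2.trans_le hl'⟩).le) bot_le
      by_cases hl4 : 4 * π / 3 < l
      · have hl' : 4 * π / 3 < min l (3 * π / 2) := lt_min hl4 (by linarith)
        have h5 := (h3 (min l (3 * π / 2)) (by linarith [div_pos (mul_pos four_pos hπ) three_pos])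
          (lt_of_le_of_lt (min_le_right _ _) (by linarith)) (hfree _ (min_le_left _ _))).2 hlt4
        linarith
      · have hl5 := hl.resolve_left hl4
        push Not at hl4
        have hs2 : 2 ≤ β.real (atoms β) + α.real (atoms α) := h2.trans hPle
        have hl0 : 0 < l := by
          by_contra hc
          push Not at hc
          nlinarith
        have h5 := (h3 l hl0 (by linarith) (hfree l le_rfl)).1
        have h6 : (ρg + αat).real univ ≤ β.real (atoms β) + α.real (atoms α) := by
          have e1 : βat.real univ = β.real (atoms β) := by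
            rw [measureReal_def, measureReal_def, hβat, Measure.restrict_apply_univ]
          have e2 : αat.real univ = α.real (atoms α) := by
            rw [measureReal_def, measureReal_def, hαat, Measure.restrict_apply_univ]
          rw [← hW.m, SUB_mass_add]
          linarith
        have h7 : 0 < 2 * π - l := by linarith
        nlinarith [mul_le_mul_of_nonneg_left h6 h7.le]

end

end Pool.H90.VK
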