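import Pool.Agent.H90.VK.SUA

/-!
# SUBG : `SUB_growth`

At every point `y` of the circle, `β{y} - α{y} ≤ βg{y} - αg{y}` or `β{y} - α{y} ≤ βh{y} - αh{y}`.
Proof: at `z = r y`, `|e^{Lg α - Lg β}| ≤ |e^{Lg αg - Lg βg}| + |e^{Lg αh - Lg βh}| ≤ 2 max`, so
`Re (Lg α - Lg β) ≤ log 2 + max(...)`; divide by `log (1-r) < 0`, `r → 1`, `GR_re`
(if both inequalities failed, for `r` near 1 the left side would be larger than `log 2 + max`).
-/

open MeasureTheory Set Filter Topology Metric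
open scoped Real ENNReal ComplexConjugate

namespace Pool.H90.VK

noncomputable section

/-- one direction of the limit -/
theorem SUBG_lim {α β : Measure ℂ} (hα : IsFiniteMeasure α) (hβ : IsFiniteMeasure β)
    (cα : OnCircle α) (cβ : OnCircle β) {y : ℂ} (hy : ‖y‖ = 1) :
    Tendsto (fun r : ℝ => (Lg α (r * y) - Lg β (r * y)).re / Real.log (1 - r)) (𝓝[<] 1)
      (𝓝 (α.real {y} - β.real {y})) := by
  refine ((GR_re α cα hy).sub (GR_re β cβ hy)).congr fun r => ?_
  rw [Complex.sub_re, sub_div]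

theorem SUBG_re {t : ℝ} {β α βg αg βh αh : Measure ℂ} (h : Dec t β α βg αg βh αh) {z : ℂ}
    (hz : z ∈ ball (0 : ℂ) 1) : (Lg α z - Lg β z).re ≤
      max (Lg αg z - Lg βg z).re (Lg αh z - Lg βh z).re := by
  have e := congrArg norm (h.eq z hz)
  have h0 := h.t0
  have h1 := h.t1
  have e1 := norm_add_le ((t : ℂ) * Complex.exp (Lg αg z - Lg βg z))
    ((1 - t) * Complex.exp (Lg αh z - Lg βh z))
  have e2 : ‖(1 - t : ℂ)‖ = 1 - t := by
    rw [show (1 - t : ℂ) = ((1 - t : ℝ) : ℂ) by push_cast; ring, Complex.norm_real,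
      Real.norm_of_nonneg (by linarith)]
  have e3 : ‖(t : ℂ)‖ = t := by rw [Complex.norm_real, Real.norm_of_nonneg h0.le]
  rw [← e, norm_mul, norm_mul, e2, e3, Complex.norm_exp, Complex.norm_exp, Complex.norm_exp] at e1
  rw [← Real.exp_le_exp]
  refine e1.trans ?_
  have m1 : t * Real.exp (Lg αg z - Lg βg z).re ≤
      t * Real.exp (max (Lg αg z - Lg βg z).re (Lg αh z - Lg βh z).re) :=
    mul_le_mul_of_nonneg_left (Real.exp_le_exp.2 (le_max_left _ _)) h0.le
  have m2 : (1 - t) * Real.exp (Lg αh z - Lg βh z).re ≤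
      (1 - t) * Real.exp (max (Lg αg z - Lg βg z).re (Lg αh z - Lg βh z).re) :=
    mul_le_mul_of_nonneg_left (Real.exp_le_exp.2 (le_max_right _ _)) (by linarith)
  calc _ ≤ _ := add_le_add m1 m2
    _ = _ := by ring

theorem SUB_growth {t : ℝ} {β α βg αg βh αh : Measure ℂ} (h : Dec t β α βg αg βh αh) {y : ℂ}
    (hy : ‖y‖ = 1) :
    β.real {y} - α.real {y} ≤ βg.real {y} - αg.real {y} ∨
      β.real {y} - α.real {y} ≤ βh.real {y} - αh.real {y} := by
  have l1 := SUBG_lim h.f2 h.f1 h.c2 h.c1 hy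
  have l2 := SUBG_lim h.f4 h.f3 h.c4 h.c3 hy
  have l3 := SUBG_lim h.f6 h.f5 h.c6 h.c5 hy
  have key : min (αg.real {y} - βg.real {y}) (αh.real {y} - βh.real {y}) ≤
      α.real {y} - β.real {y} := by
    refine le_of_tendsto_of_tendsto (l2.min l3) l1 ?_
    have hev : ∀ᶠ r : ℝ in 𝓝[<] 1, r ∈ Ioo (0 : ℝ) 1 := Ioo_mem_nhdsLT one_pos
    filter_upwards [hev] with r hr
    have hz : (r : ℂ) * y ∈ ball (0 : ℂ) 1 := by
      rw [mem_ball_zero_iff, norm_mul, hy, mul_one, Complex.norm_real, Real.norm_of_nonneg hr.1.le]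
      exact hr.2
    have hl : Real.log (1 - r) ≤ 0 := Real.log_nonpos (by linarith [hr.2]) (by linarith [hr.1])
    rcases le_max_iff.1 (SUBG_re h hz) with h' | h'
    · exact (min_le_left _ _).trans (div_le_div_of_nonpos_of_le hl h')
    · exact (min_le_right _ _).trans (div_le_div_of_nonpos_of_le hl h')
  rcases min_le_iff.1 key with h' | h'
  · left; linarith
  · right; linarith

end

end Pool.H90.VK
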