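import Pool.Agent.H90.VK.SUB
import Pool.Agent.H90.VK.PAA

/-!
# SUF : sufficient conditions for extreme points

Proof. Suppose `f = t g + (1-t) h` on the disc, `g, h ∈ V_k`, `0 < t < 1`. `PAA`: representing pairs
`(βg, αg)`, `(βh, αh)`, each mutually singular. Differentiating, `f' = t g' + (1-t) h'` on the disc, so
`Dec t β α βg αg βh αh`. Masses: `β(T) = k/2+1`, `α(T) = k/2-1 < 1`, `βg(T), βh(T) ≤ k/2 + 1`.
`SUA` (and `SUA` for `Dec_symm`): `βc ≤ βg, βh`, `αc ≤ αg, αh`.
Claim: `βg = β` or `βh = β`. If `β` has no atoms: `β = βc ≤ βh`, `βh(T) ≤ β(T)`, so `βh = β`. If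
`atoms β = {y}`: by `SUB_growth` (`α{y} = 0` by `β ⟂ₘ α`) `βg{y} ≥ β{y}` or `βh{y} ≥ β{y}`; with `βc ≤ βh`
this gives `β = βc + β{y}δ_y ≤ βh`, so `βh = β` (or the same for `g`).
If `βh = β`, `SUB_full` gives `g' = f'` on the disc; then also `h' = f'`. If `βg = β` apply `SUB_full`
to `Dec_symm`: `h' = f'`, then `g' = f'`. In both cases `g' = h'` on the disc, `g(0) = h(0) = 0`, so
`g = h` on the disc (`Convex.is_const_of_fderivWithin_eq_zero` / `is_const` on the ball).
-/

open MeasureTheory Set Filter Topology Metric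
open scoped Real ENNReal ComplexConjugate

namespace Pool.H90.VK

noncomputable section

/-- a measure `β` with at most one atom, dominated by `γ` off the atom and at the atom, of total mass
at least that of `γ`, is equal to `γ` -/
theorem SUF_eq {β γ : Measure ℂ} [IsFiniteMeasure β] [IsFiniteMeasure γ]
    (hat : (atoms β).Subsingleton) (hc : β.restrict (atoms β)ᶜ ≤ γ)
    (hy : ∀ y ∈ atoms β, β.real {y} ≤ γ.real {y}) (hm : γ.real univ ≤ β.real univ) : γ = β := by
  have hle : β ≤ γ := by
    rcases hat.eq_empty_or_singleton with he | ⟨y, he⟩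
    · rw [he, compl_empty, Measure.restrict_univ] at hc
      exact hc
    · rw [he] at hc
      have hyy : β {y} ≤ γ {y} := by
        have h1 := hy y (by rw [he]; exact mem_singleton y)
        exact (ENNReal.toReal_le_toReal (measure_ne_top _ _) (measure_ne_top _ _)).1 h1
      refine Measure.le_iff.2 fun B hB => ?_
      have e1 : β B = β (B \ {y}) + β (B ∩ {y}) := by
        rw [add_comm]
        exact (measure_inter_add_diff B (measurableSet_singleton y)).symm
      have e2 : γ B = γ (B \ {y}) + γ (B ∩ {y}) := by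
        rw [add_comm]
        exact (measure_inter_add_diff B (measurableSet_singleton y)).symm
      rw [e1, e2]
      refine add_le_add ?_ ?_
      · have h1 := hc (B \ {y})
        rw [Measure.restrict_apply (hB.diff (measurableSet_singleton y))] at h1
        have e3 : B \ {y} ∩ {y}ᶜ = B \ {y} := by
          ext x; simp
        rwa [e3] at h1
      · by_cases hyB : y ∈ B
        · have e4 : B ∩ {y} = {y} := by
            ext x
            constructor
            · exact fun h => h.2
            · rintro rfl; exact ⟨hyB, rfl⟩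
          rw [e4]; exact hyy
        · have e4 : B ∩ {y} = ∅ := by
            ext x
            constructor
            · rintro ⟨h1, rfl⟩; exact absurd h1 hyB
            · exact fun h => h.elim
          rw [e4]; simp
  have hm' : β univ = γ univ := by
    refine le_antisymm (hle univ) ?_
    exact (ENNReal.toReal_le_toReal (measure_ne_top _ _) (measure_ne_top _ _)).1 hm
  exact (Measure.eq_of_le_of_measure_univ_eq hle hm').symm

/-- mutually singular measures have no common atom -/
theorem SUF_atom {β α : Measure ℂ} (hs : β ⟂ₘ α) {y : ℂ} (hy : β {y} ≠ 0) : α {y} = 0 := by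
  obtain ⟨s, hsm, h1, h2⟩ := hs
  by_cases h : y ∈ s
  · exact absurd (measure_mono_null (singleton_subset_iff.2 h) h1) hy
  · exact measure_mono_null (singleton_subset_iff.2 h) h2

theorem SUF_circ {β : Measure ℂ} (hc : OnCircle β) {y : ℂ} (hy : β {y} ≠ 0) : ‖y‖ = 1 := by
  by_contra h
  apply hy
  refine measure_mono_null (singleton_subset_iff.2 ?_) hc
  intro h2
  exact h (by simpa using h2)

theorem SUF {k : ℝ} (hk2 : 2 < k) (hk4 : k < 4) {f : ℂ → ℂ} {β α : Measure ℂ} (hf : InV k f)
    (h : PRep k f β α) (hmass : β.real univ + α.real univ = k)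
    (hs : β ⟂ₘ α) (hβ : β ⟂ₘ arcLen) (hα : α ⟂ₘ arcLen) (hat : (atoms β).Subsingleton)
    (npβ : NonPolar (β.restrict (atoms β)ᶜ)) (npα : NonPolar (α.restrict (atoms α)ᶜ))
    (hcond : β.real (atoms β) + α.real (atoms α) < 2 ∨ (atoms α).Subsingleton ∨ ArcCond β α) :
    IsExtreme k f := by
  refine ⟨hf, ?_⟩
  rintro ⟨g, w, t, hg, hw, t0, t1, heq, z, hz, hne⟩
  obtain ⟨βg, αg, Pg, sg⟩ := PAA hg
  obtain ⟨βh, αh, Ph, sh⟩ := PAA hw
  have hball : IsOpen (ball (0 : ℂ) 1) := isOpen_ball
  have hder : ∀ z ∈ ball (0 : ℂ) 1, deriv f z = t * deriv g z + (1 - t) * deriv w z := by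
    intro z hz
    have hn : ball (0 : ℂ) 1 ∈ 𝓝 z := hball.mem_nhds hz
    have h1 : f =ᶠ[𝓝 z] fun z => (t : ℂ) * g z + (1 - t) * w z := by
      filter_upwards [hn] with x hx using heq x hx
    have hgd : DifferentiableAt ℂ g z := hg.diff.differentiableAt hn
    have hwd : DifferentiableAt ℂ w z := hw.diff.differentiableAt hn
    rw [h1.deriv_eq]
    have h2 : HasDerivAt (fun z => (t : ℂ) * g z + (1 - t) * w z)
        ((t : ℂ) * deriv g z + (1 - t) * deriv w z) z :=
      (hgd.hasDerivAt.const_mul _).add (hwd.hasDerivAt.const_mul _)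
    exact h2.deriv
  have hD : Dec t β α βg αg βh αh :=
    { t0 := t0, t1 := t1
      f1 := h.finβ, f2 := h.finα, f3 := Pg.finβ, f4 := Pg.finα, f5 := Ph.finβ, f6 := Ph.finα
      c1 := h.circβ, c2 := h.circα, c3 := Pg.circβ, c4 := Pg.circα, c5 := Ph.circβ, c6 := Ph.circα
      m := h.diff, mg := Pg.diff, mh := Ph.diff
      eq := by
        intro z hz
        rw [← h.rep z hz, ← Pg.rep z hz, ← Ph.rep z hz]
        exact hder z hz }
  have hD' := Dec_symm hD
  haveI := h.finβ
  haveI := h.finα
  haveI := Pg.finβ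
  haveI := Pg.finα
  haveI := Ph.finβ
  haveI := Ph.finα
  obtain ⟨cβg, cαg⟩ := SUA hD hs hβ hα npβ npα
  obtain ⟨cβh, cαh⟩ := SUA hD' hs hβ hα npβ npα
  have hmd := h.diff
  have mg : βg.real univ ≤ β.real univ := by
    have := Pg.diff; have := Pg.sum; linarith
  have mh : βh.real univ ≤ β.real univ := by
    have := Ph.diff; have := Ph.sum; linarith
  have ha1 : α.real univ < 1 := by linarith
  have h4 : β.real univ + α.real univ < 4 := by linarith
  have claim : βg = β ∨ βh = β := by
    rcases hat.eq_empty_or_singleton with he | ⟨y, he⟩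
    · left
      exact SUF_eq hat cβg (by rw [he]; intro y hy; exact hy.elim) mg
    · have hy : β {y} ≠ 0 := by
        have : y ∈ atoms β := by rw [he]; exact mem_singleton y
        exact this
      have hαy : α.real {y} = 0 := by
        rw [measureReal_def, SUF_atom hs hy, ENNReal.toReal_zero]
      have h0g : 0 ≤ αg.real {y} := measureReal_nonneg
      have h0h : 0 ≤ αh.real {y} := measureReal_nonneg
      rcases SUB_growth hD (SUF_circ h.circβ hy) with h1 | h1
      · left
        refine SUF_eq hat cβg ?_ mg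
        intro y' hy'
        rw [he] at hy'
        rw [mem_singleton_iff.1 hy']
        linarith
      · right
        refine SUF_eq hat cβh ?_ mh
        intro y' hy'
        rw [he] at hy'
        rw [mem_singleton_iff.1 hy']
        linarith
  have ht0 : (t : ℂ) ≠ 0 := by exact_mod_cast t0.ne'
  have ht1 : (1 - (t : ℂ)) ≠ 0 := by
    have : (1 - t : ℝ) ≠ 0 := by linarith
    exact_mod_cast this
  have hgw : EqOn (deriv g) (deriv w) (ball (0 : ℂ) 1) := by
    rcases claim with rfl | rfl
    · -- `βg = β`
      have hfull := SUB_full hD' hs sh sg cβh cαh cαg mh ha1 h4 hat hcond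
      intro z hz
      have e1 : deriv w z = deriv f z := by
        rw [Ph.rep z hz, h.rep z hz, hfull z hz]
      have e2 := hder z hz
      rw [e1] at e2
      have e3 : (t : ℂ) * deriv g z = t * deriv f z := by linear_combination -e2
      rw [e1, mul_left_cancel₀ ht0 e3]
    · have hfull := SUB_full hD hs sg sh cβg cαg cαh mg ha1 h4 hat hcond
      intro z hz
      have e1 : deriv g z = deriv f z := by
        rw [Pg.rep z hz, h.rep z hz, hfull z hz]
      have e2 := hder z hz
      rw [e1] at e2
      have e3 : (1 - (t : ℂ)) * deriv w z = (1 - t) * deriv f z := by linear_combination -e2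
      rw [e1, mul_left_cancel₀ ht1 e3]
  have h0 : (0 : ℂ) ∈ ball (0 : ℂ) 1 := mem_ball_self one_pos
  have hconst := hball.eqOn_of_deriv_eq (convex_ball (0 : ℂ) 1).isPreconnected hg.diff hw.diff hgw
    h0 (by rw [hg.zero, hw.zero])
  exact hne (hconst hz)

end

end Pool.H90.VK
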