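import Pool.Agent.H90.VK.TRI

/-!
# TCA : pointwise relations between the boundary values of `arg w` and `arg (1 - w)`

`WData t w P N P' N'` (see TRI). Notation at a point `ζ` of the circle: `A = Ag P ζ - Ag N ζ`,
`Ψ = Ag P' ζ - Ag N' ζ`. On the disc `w = |w| e^{i(Ag P - Ag N)}`, `1-w = |1-w| e^{i(Ag P' - Ag N')}`
(`LA_im`), and along `z = rζ`, `r → 1`, the arguments converge to `A`, `Ψ` (`GR_ag_radial`).
Also `|Ag P' z - Ag N' z| ≤ (π/2)(P'(T) + N'(T)) = π N'(T) < π` if `N'(T) < 1` (`LA_im_le`).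

`TCA_sgn`: with no atoms and finite potentials at `ζ`, `|w|, |1-w|` at `rζ` stay between positive
constants (`GR_bdd`). `Im w = - Im (1-w)`: `|w| sin A_r = - |1-w| sin Ψ_r`. If `sin A > 0` then
`sin Ψ_r ≤ -c < 0` for `r` near 1, so `sin Ψ < 0` and `|Ψ| < π` give `Ψ < 0`; etc.

`TCA_pole`: if `P'{ζ} < N'{ζ}`, then by `GR_re` `Re (Lg P' - Lg N')(rζ) → +∞`, `|1-w| → ∞`, `|w| → ∞`,
`w/(1-w) = (1/(1-w)) - 1 → -1`. So `Re (Lg P - Lg N) - Re (Lg P' - Lg N')` at `rζ` converges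
(to `log ((1-t)/t)`); divided by `log (1-r)`: `(P-N){ζ} = (P'-N'){ζ}`. And
`e^{i(A_r - Ψ_r)} → -1`, so `e^{i(A-Ψ)} = -1`.
`TCA_pole'`: if `P{ζ} < N{ζ}` then `|w| → ∞`, so `|1-w| → ∞`, `w/(1-w) → -1`, the same conclusion
for the masses.
`TCA_zero`: if `N{ζ} < P{ζ}` then `w(rζ) → 0`, `1-w → 1`, so `Re (Lg P' - Lg N')(rζ)` converges, hence
`(P'-N'){ζ} = 0`, and `e^{iΨ_r} → 1`, so `e^{iΨ} = 1`, `|Ψ| < π`, `Ψ = 0`.
-/

open MeasureTheory Set Filter Topology Metric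
open scoped Real ENNReal ComplexConjugate

namespace Pool.H90.VK

noncomputable section

theorem TCA_log : Tendsto (fun r : ℝ => Real.log (1 - r)) (𝓝[<] 1) atBot := by
  refine Real.tendsto_log_nhdsGT_zero.comp ?_
  refine tendsto_nhdsWithin_iff.2 ⟨?_, ?_⟩
  · have h : Tendsto (fun r : ℝ => 1 - r) (𝓝 1) (𝓝 (1 - 1)) := (continuous_const.sub continuous_id).tendsto 1
    rw [sub_self] at h
    exact h.mono_left nhdsWithin_le_nhds
  · filter_upwards [self_mem_nhdsWithin] with r hr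
    exact sub_pos.2 (mem_Iio.1 hr)

theorem TCA_ev : ∀ᶠ r : ℝ in 𝓝[<] 1, 0 < r ∧ r < 1 := Ioo_mem_nhdsLT one_pos

theorem TCA_mem {ζ : ℂ} (hζ : ‖ζ‖ = 1) {r : ℝ} (h : 0 < r ∧ r < 1) :
    (r : ℂ) * ζ ∈ ball (0 : ℂ) 1 := by
  rw [mem_ball_zero_iff, norm_mul, hζ, mul_one, Complex.norm_real, Real.norm_eq_abs,
    abs_of_pos h.1]
  exact h.2

/-- a convergent exponential with nonzero limit -/
theorem TCA_exp {c : ℝ → ℂ} {a : ℂ} (ha : a ≠ 0)
    (h : Tendsto (fun r => Complex.exp (c r)) (𝓝[<] 1) (𝓝 a)) :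
    Tendsto (fun r => (c r).re) (𝓝[<] 1) (𝓝 (Real.log ‖a‖)) ∧
      Tendsto (fun r => Complex.exp ((c r).im * Complex.I)) (𝓝[<] 1) (𝓝 (a / ‖a‖)) := by
  have hn : ‖a‖ ≠ 0 := norm_ne_zero_iff.2 ha
  have h1 := h.norm
  constructor
  · have h2 := h1.log hn
    refine h2.congr fun r => ?_
    rw [Complex.norm_exp, Real.log_exp]
  · have h2 : Tendsto (fun r => ((‖Complex.exp (c r)‖ : ℝ) : ℂ)) (𝓝[<] 1) (𝓝 ((‖a‖ : ℝ) : ℂ)) :=
      (Complex.continuous_ofReal.tendsto _).comp h1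
    have h3 := h.div h2 (Complex.ofReal_ne_zero.2 hn)
    refine h3.congr fun r => ?_
    simp only [Pi.div_apply]
    rw [Complex.norm_exp, Complex.ofReal_exp, ← Complex.exp_sub]
    congr 1
    have e1 := Complex.re_add_im (c r)
    linear_combination -e1

theorem TCA_re {P N : Measure ℂ} [IsFiniteMeasure P] [IsFiniteMeasure N] (cP : OnCircle P)
    (cN : OnCircle N) {ζ : ℂ} (hζ : ‖ζ‖ = 1) :
    Tendsto (fun r : ℝ => (Lg P (r * ζ) - Lg N (r * ζ)).re / Real.log (1 - r)) (𝓝[<] 1)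
      (𝓝 (P.real {ζ} - N.real {ζ})) := by
  refine ((GR_re P cP hζ).sub (GR_re N cN hζ)).congr fun r => ?_
  rw [Complex.sub_re, sub_div]

theorem TCA_re_top {P N : Measure ℂ} [IsFiniteMeasure P] [IsFiniteMeasure N] (cP : OnCircle P)
    (cN : OnCircle N) {ζ : ℂ} (hζ : ‖ζ‖ = 1) (h : P.real {ζ} < N.real {ζ}) :
    Tendsto (fun r : ℝ => (Lg P (r * ζ) - Lg N (r * ζ)).re) (𝓝[<] 1) atTop := by
  have h1 := (TCA_re cP cN hζ).neg_mul_atBot (sub_neg.2 h) TCA_log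
  refine h1.congr' ?_
  filter_upwards [TCA_log.eventually_lt_atBot 0] with r hr
  exact div_mul_cancel₀ _ hr.ne

theorem TCA_re_bot {P N : Measure ℂ} [IsFiniteMeasure P] [IsFiniteMeasure N] (cP : OnCircle P)
    (cN : OnCircle N) {ζ : ℂ} (hζ : ‖ζ‖ = 1) (h : N.real {ζ} < P.real {ζ}) :
    Tendsto (fun r : ℝ => (Lg P (r * ζ) - Lg N (r * ζ)).re) (𝓝[<] 1) atBot := by
  have h1 := (TCA_re cP cN hζ).pos_mul_atBot (sub_pos.2 h) TCA_log
  refine h1.congr' ?_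
  filter_upwards [TCA_log.eventually_lt_atBot 0] with r hr
  exact div_mul_cancel₀ _ hr.ne

/-- a bounded real part gives equal masses -/
theorem TCA_mass {c : ℝ → ℂ} {x y : ℝ}
    (h1 : Tendsto (fun r : ℝ => (c r).re / Real.log (1 - r)) (𝓝[<] 1) (𝓝 x))
    (h2 : Tendsto (fun r => (c r).re) (𝓝[<] 1) (𝓝 y)) : x = 0 := by
  have h3 : Tendsto (fun r : ℝ => (c r).re / Real.log (1 - r)) (𝓝[<] 1) (𝓝 0) :=
    h2.div_atBot TCA_log
  exact tendsto_nhds_unique h1 h3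

theorem TCA_im {P N : Measure ℂ} [IsFiniteMeasure P] [IsFiniteMeasure N] (cP : OnCircle P)
    (cN : OnCircle N) {ζ : ℂ} (hζ : ‖ζ‖ = 1) :
    Tendsto (fun r : ℝ => (Lg P (r * ζ) - Lg N (r * ζ)).im) (𝓝[<] 1)
      (𝓝 (Ag P ζ - Ag N ζ)) := by
  refine ((GR_ag_radial P cP hζ).sub (GR_ag_radial N cN hζ)).congr' ?_
  filter_upwards [TCA_ev] with r hr
  have hz := mem_ball_zero_iff.1 (TCA_mem hζ hr)
  rw [Complex.sub_im, LA_im P cP hz, LA_im N cN hz]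

theorem TCA_bd {t : ℝ} {w : ℂ → ℂ} {P N P' N' : Measure ℂ} (hW : WData t w P N P' N')
    (hlt : N'.real univ < 1) {ζ : ℂ} (hζ : ‖ζ‖ = 1) : |Ag P' ζ - Ag N' ζ| < π := by
  have := hW.fP'
  have := hW.fN'
  have h1 := LA_im_le P' hW.cP' hζ.le
  have h2 := LA_im_le N' hW.cN' hζ.le
  rw [hW.m'] at h1
  have h3 := abs_sub (Ag P' ζ) (Ag N' ζ)
  have h4 : π * N'.real univ < π * 1 := mul_lt_mul_of_pos_left hlt Real.pi_pos
  linarith

theorem TCA_norm {t : ℝ} {w : ℂ → ℂ} {P N P' N' : Measure ℂ} (hW : WData t w P N P' N')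
    {z : ℂ} (hz : z ∈ ball (0 : ℂ) 1) :
    ‖w z‖ = t * Real.exp (Lg P z - Lg N z).re ∧
      ‖1 - w z‖ = (1 - t) * Real.exp (Lg P' z - Lg N' z).re := by
  have h0 := hW.t0
  have h1 := hW.t1
  constructor
  · rw [hW.hw z hz, norm_mul, Complex.norm_exp, Complex.norm_real, Real.norm_eq_abs,
      abs_of_pos h0]
  · have h2 : (1 - (t : ℂ)) = ((1 - t : ℝ) : ℂ) := by push_cast; ring
    rw [hW.hw' z hz, norm_mul, Complex.norm_exp, h2, Complex.norm_real, Real.norm_eq_abs,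
      abs_of_pos (by linarith)]

/-- the imaginary parts -/
theorem TCA_sin {t : ℝ} {w : ℂ → ℂ} {P N P' N' : Measure ℂ} (hW : WData t w P N P' N')
    {z : ℂ} (hz : z ∈ ball (0 : ℂ) 1) :
    t * Real.exp (Lg P z - Lg N z).re * Real.sin (Lg P z - Lg N z).im +
      (1 - t) * Real.exp (Lg P' z - Lg N' z).re * Real.sin (Lg P' z - Lg N' z).im = 0 := by
  have h1 : (w z).im = t * Real.exp (Lg P z - Lg N z).re * Real.sin (Lg P z - Lg N z).im := by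
    rw [hW.hw z hz, Complex.im_ofReal_mul, Complex.exp_im]
    ring
  have h2 : (1 - w z).im =
      (1 - t) * Real.exp (Lg P' z - Lg N' z).re * Real.sin (Lg P' z - Lg N' z).im := by
    have h3 : (1 - (t : ℂ)) = ((1 - t : ℝ) : ℂ) := by push_cast; ring
    rw [hW.hw' z hz, h3, Complex.im_ofReal_mul, Complex.exp_im]
    ring
  rw [← h1, ← h2]
  simp

/-- if `w / (1 - w) → -1` -/
theorem TCA_quot {t : ℝ} {w : ℂ → ℂ} {P N P' N' : Measure ℂ} (hW : WData t w P N P' N')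
    {ζ : ℂ} (hζ : ‖ζ‖ = 1)
    (h : Tendsto (fun r : ℝ => ‖1 - w (r * ζ)‖) (𝓝[<] 1) atTop) :
    N.real {ζ} - P.real {ζ} = N'.real {ζ} - P'.real {ζ} ∧
      ∃ m : ℤ, (Ag P ζ - Ag N ζ) - (Ag P' ζ - Ag N' ζ) = π + 2 * π * m := by
  have := hW.fP
  have := hW.fN
  have := hW.fP'
  have := hW.fN'
  have h0 := hW.t0
  have h1 := hW.t1
  have ht : (t : ℂ) ≠ 0 := Complex.ofReal_ne_zero.2 h0.ne'
  have ht1 : (1 - (t : ℂ)) ≠ 0 := by
    rw [← Complex.ofReal_one, ← Complex.ofReal_sub]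
    exact Complex.ofReal_ne_zero.2 (by linarith)
  obtain ⟨a, ha⟩ : ∃ a : ℝ, a = (1 - t) / t := ⟨_, rfl⟩
  have ha0 : 0 < a := by rw [ha]; exact div_pos (by linarith) h0
  have hlim : Tendsto (fun r : ℝ => Complex.exp ((Lg P (r * ζ) - Lg N (r * ζ)) -
      (Lg P' (r * ζ) - Lg N' (r * ζ)))) (𝓝[<] 1) (𝓝 (-(a : ℂ))) := by
    have h2 : Tendsto (fun r : ℝ => (1 - w (r * ζ))⁻¹) (𝓝[<] 1) (𝓝 0) := by
      rw [tendsto_zero_iff_norm_tendsto_zero]
      simp only [norm_inv]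
      exact h.inv_tendsto_atTop
    have h3 : Tendsto (fun r : ℝ => (a : ℂ) * ((1 - w (r * ζ))⁻¹ - 1)) (𝓝[<] 1)
        (𝓝 ((a : ℂ) * (0 - 1))) := (h2.sub_const 1).const_mul _
    rw [show (a : ℂ) * (0 - 1) = -(a : ℂ) by ring] at h3
    refine h3.congr' ?_
    filter_upwards [TCA_ev] with r hr
    have hz := TCA_mem hζ hr
    have e1 := hW.hw _ hz
    have e2 := hW.hw' _ hz
    have e3 : 1 - w (r * ζ) ≠ 0 := by
      rw [e2]
      exact mul_ne_zero ht1 (Complex.exp_ne_zero _)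
    rw [Complex.exp_sub]
    have e4 : Complex.exp (Lg P (r * ζ) - Lg N (r * ζ)) = w (r * ζ) / t := by
      rw [e1]; field_simp
    have e5 : Complex.exp (Lg P' (r * ζ) - Lg N' (r * ζ)) = (1 - w (r * ζ)) / (1 - t) := by
      rw [e2]; field_simp
    rw [e4, e5, ha]
    push_cast
    field_simp
    ring
  have hane : -(a : ℂ) ≠ 0 := neg_ne_zero.2 (Complex.ofReal_ne_zero.2 ha0.ne')
  obtain ⟨g1, g2⟩ := TCA_exp hane hlim
  constructor
  · have g3 := TCA_mass (x := (P.real {ζ} - N.real {ζ}) - (P'.real {ζ} - N'.real {ζ}))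
      (c := fun r : ℝ => (Lg P (r * ζ) - Lg N (r * ζ)) - (Lg P' (r * ζ) - Lg N' (r * ζ)))
      (((TCA_re hW.cP hW.cN hζ).sub (TCA_re hW.cP' hW.cN' hζ)).congr fun r => by
        rw [Complex.sub_re (Lg P (r * ζ) - Lg N (r * ζ)), sub_div]) g1
    linarith
  · have g4 : Tendsto (fun r : ℝ => Complex.exp ((((Lg P (r * ζ) - Lg N (r * ζ)) -
        (Lg P' (r * ζ) - Lg N' (r * ζ))).im : ℝ) * Complex.I)) (𝓝[<] 1)
        (𝓝 (Complex.exp ((((Ag P ζ - Ag N ζ) - (Ag P' ζ - Ag N' ζ) : ℝ) : ℂ) * Complex.I))) := by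
      have g5 := (TCA_im hW.cP hW.cN hζ).sub (TCA_im hW.cP' hW.cN' hζ)
      have g6 : Continuous fun x : ℝ => Complex.exp ((x : ℂ) * Complex.I) := by fun_prop
      refine ((g6.tendsto _).comp g5).congr fun r => ?_
      simp only [Function.comp]
      rw [Complex.sub_im (Lg P (r * ζ) - Lg N (r * ζ))]
    have g7 := tendsto_nhds_unique g4 g2
    have g8 : -(a : ℂ) / ((‖-(a : ℂ)‖ : ℝ) : ℂ) = -1 := by
      rw [norm_neg, Complex.norm_real, Real.norm_eq_abs, abs_of_pos ha0, neg_div,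
        div_self (Complex.ofReal_ne_zero.2 ha0.ne')]
    rw [g8, ← Complex.exp_pi_mul_I, Complex.exp_eq_exp_iff_exists_int] at g7
    obtain ⟨m, hm⟩ := g7
    refine ⟨m, ?_⟩
    have g9 := congrArg Complex.im hm
    simpa [mul_comm, mul_left_comm, mul_assoc] using g9

theorem TCA_sin_zero {x : ℝ} (h1 : |x| < π) (h2 : Real.sin x = 0) : x = 0 := by
  have h3 := abs_lt.1 h1
  exact (Real.sin_eq_zero_iff_of_lt_of_lt h3.1 h3.2).1 h2

theorem TCA_sgn {t : ℝ} {w : ℂ → ℂ} {P N P' N' : Measure ℂ} (hW : WData t w P N P' N')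
    (hlt : N'.real univ < 1) {ζ : ℂ} (hζ : ‖ζ‖ = 1)
    (a1 : P {ζ} = 0) (a2 : N {ζ} = 0) (a3 : P' {ζ} = 0) (a4 : N' {ζ} = 0)
    (p1 : ζ ∉ potInf P) (p2 : ζ ∉ potInf N) (p3 : ζ ∉ potInf P') (p4 : ζ ∉ potInf N') :
    (0 < Real.sin (Ag P ζ - Ag N ζ) → Ag P' ζ - Ag N' ζ < 0) ∧
    (Real.sin (Ag P ζ - Ag N ζ) < 0 → 0 < Ag P' ζ - Ag N' ζ) ∧
    (Real.sin (Ag P ζ - Ag N ζ) = 0 → Ag P' ζ - Ag N' ζ = 0) := by
  have := hW.fP
  have := hW.fN
  have := hW.fP'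
  have := hW.fN'
  have h0 := hW.t0
  have h1 := hW.t1
  have hΨ := TCA_bd hW hlt hζ
  obtain ⟨C1, hC1⟩ := GR_bdd P hW.cP hζ a1 p1
  obtain ⟨C2, hC2⟩ := GR_bdd N hW.cN hζ a2 p2
  obtain ⟨C3, hC3⟩ := GR_bdd P' hW.cP' hζ a3 p3
  obtain ⟨C4, hC4⟩ := GR_bdd N' hW.cN' hζ a4 p4
  -- the ratio `|w| / |1 - w|`
  obtain ⟨g, hg⟩ : ∃ g : ℝ → ℝ, g = fun r : ℝ => t * Real.exp (Lg P (r * ζ) - Lg N (r * ζ)).re /
      ((1 - t) * Real.exp (Lg P' (r * ζ) - Lg N' (r * ζ)).re) := ⟨_, rfl⟩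
  obtain ⟨K, hK⟩ : ∃ K, K = C1 + C2 + C3 + C4 := ⟨_, rfl⟩
  have hgb : ∀ r : ℝ, 0 < r ∧ r < 1 → t / (1 - t) * Real.exp (-K) ≤ g r ∧
      g r ≤ t / (1 - t) * Real.exp K := by
    intro r hr
    have b1 := abs_le.1 (hC1 r hr.1.le hr.2)
    have b2 := abs_le.1 (hC2 r hr.1.le hr.2)
    have b3 := abs_le.1 (hC3 r hr.1.le hr.2)
    have b4 := abs_le.1 (hC4 r hr.1.le hr.2)
    have e1 : g r = t / (1 - t) * Real.exp ((Lg P (r * ζ) - Lg N (r * ζ)).re -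
        (Lg P' (r * ζ) - Lg N' (r * ζ)).re) := by
      rw [hg, Real.exp_sub]
      simp only
      rw [mul_div_mul_comm]
    have ht : 0 < t / (1 - t) := div_pos h0 (by linarith)
    rw [e1]
    simp only [Complex.sub_re]
    constructor
    · refine mul_le_mul_of_nonneg_left (Real.exp_le_exp.2 ?_) ht.le
      linarith
    · refine mul_le_mul_of_nonneg_left (Real.exp_le_exp.2 ?_) ht.le
      linarith
  have hgs : ∀ r : ℝ, 0 < r ∧ r < 1 → Real.sin (Lg P' (r * ζ) - Lg N' (r * ζ)).im =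
      -(g r * Real.sin (Lg P (r * ζ) - Lg N (r * ζ)).im) := by
    intro r hr
    have e1 := TCA_sin hW (TCA_mem hζ hr)
    have e2 : 0 < (1 - t) * Real.exp (Lg P' (r * ζ) - Lg N' (r * ζ)).re :=
      mul_pos (by linarith) (Real.exp_pos _)
    rw [hg]
    simp only
    rw [div_mul_eq_mul_div, eq_neg_iff_add_eq_zero, add_div_eq_mul_add_div _ _ e2.ne',
      div_eq_zero_iff]
    left
    linarith
  have s1 : Tendsto (fun r : ℝ => Real.sin (Lg P (r * ζ) - Lg N (r * ζ)).im) (𝓝[<] 1)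
      (𝓝 (Real.sin (Ag P ζ - Ag N ζ))) :=
    (Real.continuous_sin.tendsto _).comp (TCA_im hW.cP hW.cN hζ)
  have s2 : Tendsto (fun r : ℝ => Real.sin (Lg P' (r * ζ) - Lg N' (r * ζ)).im) (𝓝[<] 1)
      (𝓝 (Real.sin (Ag P' ζ - Ag N' ζ))) :=
    (Real.continuous_sin.tendsto _).comp (TCA_im hW.cP' hW.cN' hζ)
  have hc : 0 < t / (1 - t) * Real.exp (-K) :=
    mul_pos (div_pos h0 (by linarith)) (Real.exp_pos _)
  obtain ⟨c, hcdef⟩ : ∃ c, c = t / (1 - t) * Real.exp (-K) := ⟨_, rfl⟩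
  rw [← hcdef] at hc
  have s3 := s2.add (s1.const_mul c)
  refine ⟨fun hs => ?_, fun hs => ?_, fun hs => ?_⟩
  · have h2 : Real.sin (Ag P' ζ - Ag N' ζ) + c * Real.sin (Ag P ζ - Ag N ζ) ≤ 0 := by
      refine le_of_tendsto s3 ?_
      filter_upwards [TCA_ev, s1.eventually_const_lt hs] with r hr hsr
      rw [hgs r hr]
      have h3 := (hgb r hr).1
      rw [← hcdef] at h3
      nlinarith
    have h3 : Real.sin (Ag P' ζ - Ag N' ζ) < 0 := by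
      have := mul_pos hc hs
      linarith
    by_contra hn
    push Not at hn
    have := Real.sin_nonneg_of_nonneg_of_le_pi hn (abs_lt.1 hΨ).2.le
    linarith
  · have h2 : 0 ≤ Real.sin (Ag P' ζ - Ag N' ζ) + c * Real.sin (Ag P ζ - Ag N ζ) := by
      refine ge_of_tendsto s3 ?_
      filter_upwards [TCA_ev, s1.eventually_lt_const hs] with r hr hsr
      rw [hgs r hr]
      have h3 := (hgb r hr).1
      rw [← hcdef] at h3
      nlinarith
    have h3 : 0 < Real.sin (Ag P' ζ - Ag N' ζ) := by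
      have := mul_neg_of_pos_of_neg hc hs
      linarith
    by_contra hn
    push Not at hn
    have := Real.sin_nonpos_of_nonpos_of_neg_pi_le hn (abs_lt.1 hΨ).1.le
    linarith
  · apply TCA_sin_zero hΨ
    have h2 : |Real.sin (Ag P' ζ - Ag N' ζ)| ≤
        t / (1 - t) * Real.exp K * |Real.sin (Ag P ζ - Ag N ζ)| := by
      refine le_of_tendsto_of_tendsto s2.abs (s1.abs.const_mul _) ?_
      filter_upwards [TCA_ev] with r hr
      rw [hgs r hr, abs_neg, abs_mul]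
      have h3 := hgb r hr
      rw [← hcdef] at h3
      rw [abs_of_pos (lt_of_lt_of_le hc h3.1)]
      exact mul_le_mul_of_nonneg_right h3.2 (abs_nonneg _)
    rw [hs, abs_zero, mul_zero] at h2
    exact abs_nonpos_iff.1 h2

theorem TCA_pole {t : ℝ} {w : ℂ → ℂ} {P N P' N' : Measure ℂ} (hW : WData t w P N P' N')
    {ζ : ℂ} (hζ : ‖ζ‖ = 1) (h : P'.real {ζ} < N'.real {ζ}) :
    N.real {ζ} - P.real {ζ} = N'.real {ζ} - P'.real {ζ} ∧
      ∃ m : ℤ, (Ag P ζ - Ag N ζ) - (Ag P' ζ - Ag N' ζ) = π + 2 * π * m := by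
  have := hW.fP'
  have := hW.fN'
  refine TCA_quot hW hζ ?_
  have h1 : Tendsto (fun r : ℝ => (1 - t) * Real.exp (Lg P' (r * ζ) - Lg N' (r * ζ)).re)
      (𝓝[<] 1) atTop :=
    (Real.tendsto_exp_atTop.comp (TCA_re_top hW.cP' hW.cN' hζ h)).const_mul_atTop
      (by linarith [hW.t1])
  refine h1.congr' ?_
  filter_upwards [TCA_ev] with r hr
  exact (TCA_norm hW (TCA_mem hζ hr)).2.symm

theorem TCA_pole' {t : ℝ} {w : ℂ → ℂ} {P N P' N' : Measure ℂ} (hW : WData t w P N P' N')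
    {ζ : ℂ} (hζ : ‖ζ‖ = 1) (h : P.real {ζ} < N.real {ζ}) :
    N'.real {ζ} - P'.real {ζ} = N.real {ζ} - P.real {ζ} := by
  have := hW.fP
  have := hW.fN
  have h1 : Tendsto (fun r : ℝ => t * Real.exp (Lg P (r * ζ) - Lg N (r * ζ)).re)
      (𝓝[<] 1) atTop :=
    (Real.tendsto_exp_atTop.comp (TCA_re_top hW.cP hW.cN hζ h)).const_mul_atTop hW.t0
  have h2 := tendsto_atTop_add_const_right _ (-1 : ℝ) h1
  refine (TCA_quot hW hζ (tendsto_atTop_mono' _ ?_ h2)).1.symm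
  filter_upwards [TCA_ev] with r hr
  rw [← (TCA_norm hW (TCA_mem hζ hr)).1]
  have h3 := norm_sub_norm_le (w (r * ζ)) 1
  rw [norm_one, norm_sub_rev] at h3
  linarith

theorem TCA_zero {t : ℝ} {w : ℂ → ℂ} {P N P' N' : Measure ℂ} (hW : WData t w P N P' N')
    (hlt : N'.real univ < 1) {ζ : ℂ} (hζ : ‖ζ‖ = 1) (h : N.real {ζ} < P.real {ζ}) :
    P'.real {ζ} = N'.real {ζ} ∧ Ag P' ζ - Ag N' ζ = 0 := by
  have := hW.fP
  have := hW.fN
  have := hW.fP'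
  have := hW.fN'
  have h0 := hW.t0
  have h1 := hW.t1
  have ht1 : (1 - (t : ℂ)) = ((1 - t : ℝ) : ℂ) := by push_cast; ring
  have ht2 : 0 < 1 - t := by linarith
  have hw0 : Tendsto (fun r : ℝ => w (r * ζ)) (𝓝[<] 1) (𝓝 0) := by
    rw [tendsto_zero_iff_norm_tendsto_zero]
    have h2 : Tendsto (fun r : ℝ => t * Real.exp (Lg P (r * ζ) - Lg N (r * ζ)).re)
        (𝓝[<] 1) (𝓝 (t * 0)) :=
      (Real.tendsto_exp_atBot.comp (TCA_re_bot hW.cP hW.cN hζ h)).const_mul _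
    rw [mul_zero] at h2
    refine h2.congr' ?_
    filter_upwards [TCA_ev] with r hr
    exact (TCA_norm hW (TCA_mem hζ hr)).1.symm
  have hlim : Tendsto (fun r : ℝ => Complex.exp (Lg P' (r * ζ) - Lg N' (r * ζ))) (𝓝[<] 1)
      (𝓝 (((1 - t)⁻¹ : ℝ) : ℂ)) := by
    have h2 : Tendsto (fun r : ℝ => (((1 - t)⁻¹ : ℝ) : ℂ) * (1 - w (r * ζ))) (𝓝[<] 1)
        (𝓝 ((((1 - t)⁻¹ : ℝ) : ℂ) * (1 - 0))) := (hw0.const_sub 1).const_mul _
    rw [sub_zero, mul_one] at h2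
    refine h2.congr' ?_
    filter_upwards [TCA_ev] with r hr
    rw [hW.hw' _ (TCA_mem hζ hr), ht1, ← mul_assoc, ← Complex.ofReal_mul,
      inv_mul_cancel₀ ht2.ne', Complex.ofReal_one, one_mul]
  have ha0 : 0 < (1 - t)⁻¹ := inv_pos.2 ht2
  obtain ⟨g1, g2⟩ := TCA_exp (Complex.ofReal_ne_zero.2 ha0.ne') hlim
  constructor
  · have g3 := TCA_mass (c := fun r : ℝ => Lg P' (r * ζ) - Lg N' (r * ζ))
      (TCA_re hW.cP' hW.cN' hζ) g1
    linarith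
  · have g4 : Tendsto (fun r : ℝ => Complex.exp (((Lg P' (r * ζ) - Lg N' (r * ζ)).im : ℝ) *
        Complex.I)) (𝓝[<] 1) (𝓝 (Complex.exp (((Ag P' ζ - Ag N' ζ : ℝ) : ℂ) * Complex.I))) := by
      have g6 : Continuous fun x : ℝ => Complex.exp ((x : ℂ) * Complex.I) := by fun_prop
      exact (g6.tendsto _).comp (TCA_im hW.cP' hW.cN' hζ)
    have g7 := tendsto_nhds_unique g4 g2
    rw [Complex.norm_real, Real.norm_eq_abs, abs_of_pos ha0,
      div_self (Complex.ofReal_ne_zero.2 ha0.ne')] at g7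
    apply TCA_sin_zero (TCA_bd hW hlt hζ)
    have g8 := congrArg Complex.im g7
    rw [Complex.exp_ofReal_mul_I_im, Complex.one_im] at g8
    exact g8

end

end Pool.H90.VK
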