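import Pool.Agent.H90.VK.Defs

/-!
# TR0 : the tracking lemma (pure real analysis): definitions and complete proofs on paper

The theorems are in TR1 (`TR_lower`), TR2 (`TR_refl`), TR3 (`TR_main`), TR4 (`TR_gap`).

Data: finite measures `p, n, p', n'` on `ℝ` carried by `(-π, π)`, a real `c`;
`A θ = c - π (p(-∞,θ] - n(-∞,θ])`, `Ψ θ = - π (p'(-∞,θ] - n'(-∞,θ])`: right-continuous with left
limits, `A(θ) - A(θ-) = - π (p{θ} - n{θ})`, same for `Ψ`. `A → c =: a₋`, `Ψ → 0` as `θ ↓ -π`;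
`a₊ := c - π (p(ℝ) - n(ℝ))`, `p'(ℝ) = n'(ℝ)`.
Hypotheses (structure `TRData`):
* `sgn`: for Lebesgue-a.e. `θ ∈ (-π, π)`: `sin A > 0 → Ψ < 0`, `sin A < 0 → Ψ > 0`,
  `sin A = 0 → Ψ = 0`;
* `atomic`: `n'` is purely atomic: `n' {θ | n' {θ} = 0} = 0`;
* `pole`: if `p'{θ} < n'{θ}` then `n{θ} - p{θ} = n'{θ} - p'{θ}` and `A θ - Ψ θ = π + 2π m`, `m ∈ ℤ`;
* `pole'`: if `p{θ} < n{θ}` then `n'{θ} - p'{θ} = n{θ} - p{θ}`;
* `zero`: if `n{θ} < p{θ}` then `p'{θ} = n'{θ}` and `Ψ θ = 0`;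
* `lt1`: `p{θ} - n{θ} < 1` for all `θ ∈ (-π, π)`;
* `mean`: `∫_{-π}^{π} A = 0`.

(Call `θ` a *pole* if `p'{θ} < n'{θ}`.)
**Fact 1.** If there is no pole in `(θ₀, θ₁)` then `Ψ θ ≤ Ψ θ₀` for `θ ∈ (θ₀, θ₁)` (also for `θ₀ = -π`
with `Ψ(-π) := 0`, which is literally true): as `n'` is purely atomic,
`n' S = Σ_{θ∈S} n'{θ} ≤ Σ p'{θ} ≤ p' S` for Borel `S ⊂ (θ₀,θ₁)`.
**Fact 2.** If `θ₀ ∈ [-π, π)` and `A θ₀ - Ψ θ₀ ∉ π + 2πℤ` then there is `δ > 0` without poles in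
`(θ₀, θ₀+δ)` (right-continuity, `pole`, and `π + 2πℤ` is closed).
**Fact 3.** The set of `θ` where `sgn` holds is dense.

**TR_lower.** Let `i = ⌊c/(2π)⌋`, `2πi ≤ c < 2πi + 2π`. Then `c ≤ 2πi + π`, and `A θ ≥ 2πi` for all
`θ ∈ (-π, π)`.
Proof. (a) If `c ∈ (2πi+π, 2πi+2π)`: near `-π` also `A θ` is in this interval, `sin A < 0`, so `Ψ > 0`
on a dense set near `-π`. But `A(-π) - Ψ(-π) = c ∉ π+2πℤ`, so (Fact 2) no poles near `-π`, `Ψ ≤ 0`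
(Fact 1). Contradiction.
(b) Suppose `D = {θ ∈ (-π,π) : A θ < 2πi} ≠ ∅`, `θ* = inf D`. By right-continuity `A θ* ≤ 2πi`
(`θ* = -π`: `c ≤ 2πi`, so `c = 2πi`).
 - `θ* = -π`: `A - Ψ = 2πi` there, no poles near, `Ψ ≤ 0` near `-π`. But there are `θ_n ↓ -π` with
   `A θ_n < 2πi`, and close to `2πi`; by right-continuity `A ∈ (2πi-π, 2πi)` on `[θ_n, θ_n+δ_n)`, where
   `Ψ > 0` at dense many points. Contradiction.
 - `θ* > -π`: `A(θ*-) ≥ 2πi ≥ A θ*`, so `p{θ*} ≥ n{θ*}`; `θ*` is not a pole (by `pole` a pole has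
   `n{θ*} > p{θ*}`), so `Ψ θ* ≤ Ψ(θ*-)`. By `lt1`, `A(θ*-) < A θ* + π ≤ 2πi+π`, so on a left
   neighbourhood `A ∈ [2πi, 2πi+π)`, there `Ψ ≤ 0` at dense many points, so `Ψ(θ*-) ≤ 0`, `Ψ θ* ≤ 0`.
   If `A θ* = 2πi`: there are `θ_n ↓ θ*`, `θ_n > θ*`, `A θ_n < 2πi`, as before `Ψ > 0` at points arbitrarily
   close to `θ*` on the right; so `Ψ θ* ≥ 0`, `Ψ θ* = 0`, `A θ* - Ψ θ* = 2πi`, no poles near on the
   right, so `Ψ ≤ 0` there: contradiction.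
   If `A θ* < 2πi`: `p{θ*} > n{θ*}`, by `zero` `Ψ θ* = 0`; `A θ* > A(θ*-) - π ≥ 2πi - π`, so
   `A ∈ (2πi-π, 2πi)` on a right neighbourhood, `Ψ > 0` at dense many points there; but
   `A θ* - Ψ θ* ∉ π + 2πℤ`, no poles near, `Ψ ≤ 0`: contradiction.

**TR_refl.** The reflected data (`p, n, p', n'` mapped by `θ ↦ -θ`, `c` replaced by `-a₊`) satisfy `TRData`;
their `A`-function is `θ ↦ -A((-θ)-)` (left limit), which differs from `-A(-θ)` only at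
countably many `θ`; `Ψ`-function `θ ↦ -Ψ((-θ)-)`. (`pole`: jumps of `A` and `Ψ` at a pole are equal, so
`A(θ-) - Ψ(θ-) = A θ - Ψ θ`. `zero`: `Ψ(θ-) = Ψ θ = 0` as `p'{θ} = n'{θ}`.)

**TR_main.** If `a₊ ≠ a₋` then `a₊ - a₋ ≥ 2π`; more precisely there are integers `i ≤ -1`, `j ≥ 1` with
`2πi ≤ a₋ ≤ 2πi + π`, `2πj - π ≤ a₊ ≤ 2πj`, `2πi ≤ A θ` for all `θ ∈ (-π,π)` and
`A θ ≤ 2πj` for a.e. `θ`.
Proof: `TR_lower` for the data and the reflected data (`j = -i_refl`). `mean`: `0 ≥ 2πi·2π`, so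
`i ≤ 0`; if `i = 0` then `A ≥ 0` with integral 0, so `A = 0` a.e., so `a₋ = a₊ = 0` (one-sided limits at
`∓π`), excluded. Same for `j`.

**TR_gap.** If moreover `a₊ - a₋ < 4π` and `n'` has no mass on `(-π, -π+ℓ)`, `0 < ℓ < 2π`, then
`ℓ ≤ 4π/3`; the same for `(π-ℓ, π)`.
Proof. `a₊ - a₋ ≥ 2π(j-i) - 2π`, so `j - i < 3`, so `i = -1, j = 1`: `a₋ ∈ [-2π, -π]`, `A ≤ 2π` a.e.
No poles in the gap, so `Ψ ≤ 0` on it. Claim: `A ≤ -π` on the gap. Else let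
`θ* = inf {θ in the gap : A θ > -π}`; `A θ* ≥ -π` if `θ* > -π` (right-continuity); if `A θ* < 0` (or
`θ* = -π`, `a₋ ≤ -π < 0`) then there are `θ_n ↓ θ*` (or `θ_n = θ*`) with `A θ_n ∈ (-π, 0)`, also on
`[θ_n, θ_n+δ_n)`, `sin A < 0`, so `Ψ > 0` at some point of the gap: contradiction. So `A θ* ≥ 0` and
`A(θ*-) ≤ -π`: `n{θ*} - p{θ*} ≥ 1 > 0`, by `pole'` `n'{θ*} > p'{θ*} ≥ 0`, contradiction with the gap.
Then `0 = ∫ A ≤ -πℓ + 2π(2π-ℓ)`, i.e. `3ℓ ≤ 4π`. The other gap by reflection.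
-/

open MeasureTheory Set Filter Topology Metric
open scoped Real ENNReal ComplexConjugate

namespace Pool.H90.VK

noncomputable section

def trA (c : ℝ) (p n : Measure ℝ) (θ : ℝ) : ℝ := c - π * (p.real (Iic θ) - n.real (Iic θ))

def trPsi (p' n' : Measure ℝ) (θ : ℝ) : ℝ := -π * (p'.real (Iic θ) - n'.real (Iic θ))

structure TRData (c : ℝ) (p n p' n' : Measure ℝ) : Prop where
  fp : IsFiniteMeasure p
  fn : IsFiniteMeasure n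
  fp' : IsFiniteMeasure p'
  fn' : IsFiniteMeasure n'
  cp : p (Ioo (-π) π)ᶜ = 0
  cn : n (Ioo (-π) π)ᶜ = 0
  cp' : p' (Ioo (-π) π)ᶜ = 0
  cn' : n' (Ioo (-π) π)ᶜ = 0
  m' : p'.real univ = n'.real univ
  sgn : ∀ᵐ θ : ℝ, θ ∈ Ioo (-π) π →
    (0 < Real.sin (trA c p n θ) → trPsi p' n' θ < 0) ∧
    (Real.sin (trA c p n θ) < 0 → 0 < trPsi p' n' θ) ∧
    (Real.sin (trA c p n θ) = 0 → trPsi p' n' θ = 0)
  atomic : n' {θ | n' {θ} = 0} = 0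
  pole : ∀ θ ∈ Ioo (-π) π, p'.real {θ} < n'.real {θ} →
    n.real {θ} - p.real {θ} = n'.real {θ} - p'.real {θ} ∧
    ∃ m : ℤ, trA c p n θ - trPsi p' n' θ = π + 2 * π * m
  pole' : ∀ θ ∈ Ioo (-π) π, p.real {θ} < n.real {θ} →
    n'.real {θ} - p'.real {θ} = n.real {θ} - p.real {θ}
  zero : ∀ θ ∈ Ioo (-π) π, n.real {θ} < p.real {θ} →
    p'.real {θ} = n'.real {θ} ∧ trPsi p' n' θ = 0
  lt1 : ∀ θ ∈ Ioo (-π) π, p.real {θ} - n.real {θ} < 1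
  mean : ∫ θ in (-π : ℝ)..π, trA c p n θ = 0

end

end Pool.H90.VK
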