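import Pool.Agent.H90.VK.TCA
import Pool.Agent.H90.VK.LIN
import Pool.Agent.H90.VK.AF
import Pool.Agent.H90.VK.TR0

/-!
# TCB : from `WData` to `TRData`

Let `p = (P.restrict {-1}ᶜ).map arg` etc. (finite measures on `ℝ` carried by `(-π, π)`, since `arg` of a
unit complex number `≠ -1` is in `(-π,π)`), and `c = -(1/2)(∫ arg dP - ∫ arg dN)`.
* `AF` for `P, N`: for `θ ∈ (-π,π)`,
  `Ag P (e^{iθ}) - Ag N (e^{iθ}) = (trA c p n θ + trA c p n (θ-))/2`,
  where `trA (θ-) = c - π (p-n)(Iio θ)` (`(P.map arg)(Iic θ) = p (Iic θ)` for `θ < π`);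
  same for `P', N'` with the constant `c' = -(1/2)(∫ arg dP' - ∫ arg dN')`.
* `c' = 0`: as `N{-1} < P{-1}`, `TCA_zero` at `ζ = -1` gives `Ag P' (-1) - Ag N' (-1) = 0`; the function
  `Ag P' - Ag N'` is continuous at `-1` (`GR_ag_cont`, no atoms of `P', N'` at `-1`) and its value at
  `e^{iθ}` tends to `c'` as `θ ↓ -π` (`AF`; `(p'-n')(-∞,θ] → 0`).
* `m'`: `p'(ℝ) = P'(T) = N'(T) = n'(ℝ)`.
* `sgn`: `TCA_sgn` at `ζ = e^{iθ}` for all `θ` outside a null set: finitely/countably many atoms, and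
  `{θ : e^{iθ} ∈ potInf P}` is Lebesgue-null, because
  `∫_{-π}^{π} ∫ log (2/|ξ - e^{iθ}|) dP(ξ) dθ < ∞` (Tonelli; `∫_{-π}^{π} log(2/|1-e^{iθ}|) dθ < ∞`:
  `log (2/x) ≤ C x^{-1/2}` and `|1 - e^{iθ}| ≥ 2|θ|/π`). At non-atoms `Ag P ζ - Ag N ζ = trA c p n θ`.
* `atomic`: `n' {θ | n'{θ} = 0} = N'({ζ ≠ -1, N'{ζ} = 0}) = 0` (`arg` injective on the circle).
* `pole, pole', zero`: from `TCA_pole`, ... at `ζ = e^{iθ}` : `p{θ} = P{ζ}` etc.; at a pole the jumps of
  `trA` and `trPsi` agree, so `trA θ - trPsi θ` equals the difference of the midpoint values;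
  at a `zero` point `trPsi` has no jump.
* `lt1`: hypothesis. `mean`: `AF_mean` and `trA c p n θ = Ag P (e^{iθ}) - Ag N (e^{iθ})` for all but
  countably many `θ`.
-/

open MeasureTheory Set Filter Topology Metric
open scoped Real ENNReal ComplexConjugate

namespace Pool.H90.VK

noncomputable section

theorem TCB_arg_exp {θ : ℝ} (hθ : θ ∈ Ioc (-π) π) :
    Complex.arg (Complex.exp (θ * Complex.I)) = θ := by
  rw [← Complex.log_im, Complex.log_exp (by simpa using hθ.1) (by simpa using hθ.2)]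
  simp

theorem TCB_ne {θ : ℝ} (hθ : θ ∈ Ioo (-π) π) : Complex.exp (θ * Complex.I) ≠ -1 := by
  intro h
  have h1 := TCB_arg_exp ⟨hθ.1, hθ.2.le⟩
  rw [h, Complex.arg_neg_one] at h1
  exact absurd h1 hθ.2.ne'

/-- the two ways to go to the line agree below `π` -/
theorem TCB_map (μ : Measure ℂ) {S : Set ℝ} (hS : MeasurableSet S)
    (hπ : π ∉ S) : (μ.map Complex.arg).real S = (lin μ).real S := by
  have h1 : (μ.map Complex.arg) S = (lin μ) S := by
    unfold lin
    rw [Measure.map_apply Complex.measurable_arg hS, Measure.map_apply Complex.measurable_arg hS,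
      Measure.restrict_apply (Complex.measurable_arg hS)]
    congr 1
    ext ζ
    refine ⟨fun h => ⟨h, ?_⟩, fun h => h.1⟩
    intro h2
    rw [mem_singleton_iff] at h2
    rw [h2, mem_preimage, Complex.arg_neg_one] at h
    exact hπ h
  rw [Measure.real, Measure.real, h1]

theorem TCB_Iic (μ : Measure ℝ) [IsFiniteMeasure μ] (θ : ℝ) :
    μ.real (Iic θ) = μ.real (Iio θ) + μ.real {θ} := by
  rw [← Iio_union_right, measureReal_union (by simp) (measurableSet_singleton θ)]

/-- boundary values -/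
theorem TCB_AF (P N : Measure ℂ) [IsFiniteMeasure P] [IsFiniteMeasure N] (hP : OnCircle P)
    (hN : OnCircle N) (hm : P.real univ = N.real univ) (θ : ℝ) (hθ : θ ∈ Ioo (-π) π) :
    Ag P (Complex.exp (θ * Complex.I)) - Ag N (Complex.exp (θ * Complex.I)) =
      trA (-(1 / 2) * ((∫ ζ, Complex.arg ζ ∂P) - ∫ ζ, Complex.arg ζ ∂N)) (lin P) (lin N) θ +
        π / 2 * ((lin P).real {θ} - (lin N).real {θ}) := by
  have := TCB_lin_finite P
  have := TCB_lin_finite N
  have h1 : π ∉ Iio θ := fun h => absurd (h : π < θ) (not_lt.2 hθ.2.le)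
  have h2 : π ∉ Iic θ := fun h => absurd (h : π ≤ θ) (not_le.2 hθ.2)
  rw [AF P N hP hN hm θ hθ, TCB_map P measurableSet_Iio h1, TCB_map N measurableSet_Iio h1,
    TCB_map P measurableSet_Iic h2, TCB_map N measurableSet_Iic h2]
  unfold trA
  rw [TCB_Iic (lin P), TCB_Iic (lin N)]
  ring

theorem TCB_sing (μ : Measure ℂ) [IsFiniteMeasure μ] (hμ : OnCircle μ) {θ : ℝ}
    (hθ : θ ∈ Ioo (-π) π) : (lin μ).real {θ} = μ.real {Complex.exp (θ * Complex.I)} := by
  rw [Measure.real, Measure.real, TCB_lin_singleton μ hμ hθ]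

theorem TCB_atoms (μ : Measure ℝ) [IsFiniteMeasure μ] : {θ : ℝ | μ {θ} ≠ 0}.Countable := by
  have h := Measure.countable_meas_level_set_pos (μ := μ) (g := fun θ : ℝ => θ) measurable_id
  refine h.mono fun θ hθ => ?_
  have : {a : ℝ | a = θ} = {θ} := rfl
  rw [Set.mem_ofPred_eq, this]
  exact pos_iff_ne_zero.2 hθ

theorem TCB_ae (μ : Measure ℝ) [IsFiniteMeasure μ] : ∀ᵐ θ : ℝ, μ {θ} = 0 := by
  have h := (TCB_atoms μ).measure_zero volume
  rw [ae_iff]
  exact h

/-- the masses near `-π` -/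
theorem TCB_left (μ : Measure ℝ) [IsFiniteMeasure μ] (hμ : μ (Ioo (-π) π)ᶜ = 0) :
    Tendsto (fun θ => μ.real (Iic θ)) (𝓝[>] (-π)) (𝓝 0) := by
  have h1 := tendsto_measure_biInter_gt (μ := μ) (s := fun θ : ℝ => Iic θ) (a := -π)
    (fun r _ => measurableSet_Iic.nullMeasurableSet)
    (fun i j _ hij => Iic_subset_Iic.2 hij) ⟨0, by simpa using Real.pi_pos, measure_ne_top _ _⟩
  have h2 : (⋂ r > -π, Iic r) = Iic (-π) := by
    ext x
    simp only [mem_iInter, mem_Iic]
    constructor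
    · intro h
      exact le_of_forall_gt_imp_ge_of_dense h
    · intro h r hr
      exact h.trans (le_of_lt hr)
  have h3 : μ (Iic (-π)) = 0 := by
    refine measure_mono_null ?_ hμ
    intro x hx h
    exact absurd h.1 (not_lt.2 hx)
  rw [h2, h3] at h1
  have h4 := (ENNReal.tendsto_toReal ENNReal.zero_ne_top).comp h1
  simpa [Function.comp_def, Measure.real] using h4

theorem TCB_zero' {t : ℝ} {w : ℂ → ℂ} {P N P' N' : Measure ℂ} (hW : WData t w P N P' N')
    (hlt : N'.real univ < 1) (h3 : P' {(-1 : ℂ)} = 0) (h3' : N' {(-1 : ℂ)} = 0)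
    (h4 : N.real {(-1 : ℂ)} < P.real {(-1 : ℂ)}) :
    -(1 / 2) * ((∫ ζ, Complex.arg ζ ∂P') - ∫ ζ, Complex.arg ζ ∂N') = 0 := by
  have := hW.fP'
  have := hW.fN'
  have hn1 : ‖(-1 : ℂ)‖ = 1 := by simp
  have h5 := (TCA_zero hW hlt hn1 h4).2
  set c' : ℝ := -(1 / 2) * ((∫ ζ, Complex.arg ζ ∂P') - ∫ ζ, Complex.arg ζ ∂N') with hc'
  -- the limit on the circle
  have h6 : Tendsto (fun θ : ℝ => Complex.exp (θ * Complex.I)) (𝓝[>] (-π)) (𝓝 (-1)) := by
    have h7 : Continuous fun θ : ℝ => Complex.exp (θ * Complex.I) := by fun_prop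
    have h8 := h7.tendsto (-π)
    have h9 : Complex.exp (((-π : ℝ) : ℂ) * Complex.I) = -1 := by
      push_cast
      rw [neg_mul, Complex.exp_neg, Complex.exp_pi_mul_I]
      norm_num
    rw [h9] at h8
    exact h8.mono_left nhdsWithin_le_nhds
  have h7 : Tendsto (fun θ : ℝ => Ag P' (Complex.exp (θ * Complex.I)) -
      Ag N' (Complex.exp (θ * Complex.I))) (𝓝[>] (-π)) (𝓝 0) := by
    have h8 := ((GR_ag_cont P' hW.cP' hn1 h3).comp h6).sub ((GR_ag_cont N' hW.cN' hn1 h3').comp h6)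
    rw [h5] at h8
    exact h8
  have := TCB_lin_finite P'
  have := TCB_lin_finite N'
  have hA := TCB_left (lin P') (TCB_lin_carrier P' hW.cP')
  have hB := TCB_left (lin N') (TCB_lin_carrier N' hW.cN')
  have hbd : ∀ (μ : Measure ℝ) [IsFiniteMeasure μ] (θ : ℝ), μ.real {θ} ≤ μ.real (Iic θ) := by
    intro μ _ θ
    rw [TCB_Iic μ θ]
    linarith [measureReal_nonneg (μ := μ) (s := Iio θ)]
  have hA1 : Tendsto (fun θ => (lin P').real {θ}) (𝓝[>] (-π)) (𝓝 0) :=
    squeeze_zero (fun _ => measureReal_nonneg) (hbd (lin P')) hA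
  have hB1 : Tendsto (fun θ => (lin N').real {θ}) (𝓝[>] (-π)) (𝓝 0) :=
    squeeze_zero (fun _ => measureReal_nonneg) (hbd (lin N')) hB
  have h8 : Tendsto (fun θ : ℝ => trA c' (lin P') (lin N') θ +
        π / 2 * ((lin P').real {θ} - (lin N').real {θ})) (𝓝[>] (-π)) (𝓝 c') := by
    have h9 := ((hA.sub hB).const_mul π).const_sub c'
    have h10 := h9.add ((hA1.sub hB1).const_mul (π / 2))
    simpa [trA] using h10
  have h9 : (fun θ : ℝ => Ag P' (Complex.exp (θ * Complex.I)) -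
      Ag N' (Complex.exp (θ * Complex.I))) =ᶠ[𝓝[>] (-π)] fun θ : ℝ =>
      trA c' (lin P') (lin N') θ + π / 2 * ((lin P').real {θ} - (lin N').real {θ}) := by
    have h10 : Ioo (-π) π ∈ 𝓝[>] (-π) := Ioo_mem_nhdsGT (by linarith [Real.pi_pos])
    filter_upwards [h10] with θ hθ
    exact TCB_AF P' N' hW.cP' hW.cN' hW.m' θ hθ
  exact tendsto_nhds_unique (h8.congr' h9.symm) h7

/-- measurability on the circle -/
theorem TCB_int (P : Measure ℂ) [IsFiniteMeasure P] (hP : OnCircle P) :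
    IntervalIntegrable (fun θ : ℝ => Ag P (Complex.exp (θ * Complex.I))) volume (-π) π := by
  have h1 : Measurable (fun x : ℝ × ℂ => Complex.arg (1 - conj x.2 *
      Complex.exp (x.1 * Complex.I))) := by
    refine Complex.measurable_arg.comp ?_
    have : Continuous fun x : ℝ × ℂ => 1 - conj x.2 * Complex.exp (x.1 * Complex.I) := by
      have := Complex.continuous_conj
      fun_prop
    exact this.measurable
  have h2 : StronglyMeasurable (fun θ : ℝ => Ag P (Complex.exp (θ * Complex.I))) :=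
    h1.stronglyMeasurable.integral_prod_right'
  rw [intervalIntegrable_iff, uIoc_of_le (by linarith [Real.pi_pos])]
  refine Integrable.mono' (g := fun _ => π / 2 * P.real univ)
    (integrable_const _) h2.aestronglyMeasurable ?_
  refine ae_of_all _ fun θ => ?_
  rw [Real.norm_eq_abs]
  exact LA_im_le P hP (by rw [Complex.norm_exp_ofReal_mul_I])

theorem TCB {t : ℝ} {w : ℂ → ℂ} {P N P' N' : Measure ℂ} (hW : WData t w P N P' N')
    (hat : N' {ζ | N' {ζ} = 0} = 0) (hlt : N'.real univ < 1)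
    (hlt1 : ∀ ζ : ℂ, ζ ≠ -1 → P.real {ζ} - N.real {ζ} < 1)
    (h3 : P' {(-1 : ℂ)} = 0) (h3' : N' {(-1 : ℂ)} = 0)
    (h4 : N.real {(-1 : ℂ)} < P.real {(-1 : ℂ)}) :
    ∃ c : ℝ, TRData c (lin P) (lin N) (lin P') (lin N') := by
  have := hW.fP
  have := hW.fN
  have := hW.fP'
  have := hW.fN'
  have i1 := TCB_lin_finite P
  have i2 := TCB_lin_finite N
  have i3 := TCB_lin_finite P'
  have i4 := TCB_lin_finite N'
  have hc' := TCB_zero' hW hlt h3 h3' h4
  set c : ℝ := -(1 / 2) * ((∫ ζ, Complex.arg ζ ∂P) - ∫ ζ, Complex.arg ζ ∂N) with hc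
  have hnorm : ∀ θ : ℝ, ‖Complex.exp (θ * Complex.I)‖ = 1 := Complex.norm_exp_ofReal_mul_I
  have hA : ∀ θ ∈ Ioo (-π) π, Ag P (Complex.exp (θ * Complex.I)) -
      Ag N (Complex.exp (θ * Complex.I)) = trA c (lin P) (lin N) θ +
        π / 2 * ((lin P).real {θ} - (lin N).real {θ}) := fun θ hθ =>
    TCB_AF P N hW.cP hW.cN hW.m θ hθ
  have hPsi : ∀ θ ∈ Ioo (-π) π, Ag P' (Complex.exp (θ * Complex.I)) -
      Ag N' (Complex.exp (θ * Complex.I)) = trPsi (lin P') (lin N') θ +
        π / 2 * ((lin P').real {θ} - (lin N').real {θ}) := by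
    intro θ hθ
    have h := TCB_AF P' N' hW.cP' hW.cN' hW.m' θ hθ
    rw [hc'] at h
    rw [h]
    unfold trA trPsi
    ring
  refine ⟨c, { fp := i1, fn := i2, fp' := i3, fn' := i4,
               cp := TCB_lin_carrier P hW.cP, cn := TCB_lin_carrier N hW.cN,
               cp' := TCB_lin_carrier P' hW.cP', cn' := TCB_lin_carrier N' hW.cN',
               m' := ?_, sgn := ?_, atomic := ?_, pole := ?_, pole' := ?_, zero := ?_,
               lt1 := ?_, mean := ?_ }⟩
  · rw [TCB_lin_univ, TCB_lin_univ, hW.m', Measure.real, Measure.real, Measure.real, h3, h3']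
  · filter_upwards [TCB_ae (lin P), TCB_ae (lin N), TCB_ae (lin P'), TCB_ae (lin N'),
      TCB_pot P hW.cP, TCB_pot N hW.cN, TCB_pot P' hW.cP', TCB_pot N' hW.cN'] with
      θ a1 a2 a3 a4 b1 b2 b3 b4 hθ
    have e1 := hA θ hθ
    have e2 := hPsi θ hθ
    have r1 : (lin P).real {θ} = 0 := by rw [Measure.real, a1]; rfl
    have r2 : (lin N).real {θ} = 0 := by rw [Measure.real, a2]; rfl
    have r3 : (lin P').real {θ} = 0 := by rw [Measure.real, a3]; rfl
    have r4 : (lin N').real {θ} = 0 := by rw [Measure.real, a4]; rfl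
    rw [r1, r2, sub_zero, mul_zero, add_zero] at e1
    rw [r3, r4, sub_zero, mul_zero, add_zero] at e2
    rw [TCB_lin_singleton P hW.cP hθ] at a1
    rw [TCB_lin_singleton N hW.cN hθ] at a2
    rw [TCB_lin_singleton P' hW.cP' hθ] at a3
    rw [TCB_lin_singleton N' hW.cN' hθ] at a4
    have h := TCA_sgn hW hlt (hnorm θ) a1 a2 a3 a4 (b1 hθ) (b2 hθ) (b3 hθ) (b4 hθ)
    rw [e1, e2] at h
    exact h
  · -- atomic
    have hmeas : MeasurableSet {θ : ℝ | lin N' {θ} = 0} := by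
      have h1 := (TCB_atoms (lin N')).measurableSet.compl
      have h2 : {θ : ℝ | lin N' {θ} ≠ 0}ᶜ = {θ : ℝ | lin N' {θ} = 0} := by
        ext θ; simp
      rwa [h2] at h1
    have h1 : lin N' ({θ : ℝ | lin N' {θ} = 0} ∩ Ioo (-π) π) = 0 := by
      have hm2 := hmeas.inter (measurableSet_Ioo (a := -π) (b := π))
      unfold lin at hm2 ⊢
      rw [Measure.map_apply Complex.measurable_arg hm2]
      refine measure_mono_null ?_ (nonpos_iff_eq_zero.1 ((Measure.restrict_apply_le _ _).trans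
        (le_of_eq (measure_union_null hat hW.cN'))))
      rintro ζ ⟨hζ1, hζ2⟩
      by_cases hs : ζ ∈ sphere (0 : ℂ) 1
      · left
        have hn : ‖ζ‖ = 1 := by simpa using hs
        have he : Complex.exp (Complex.arg ζ * Complex.I) = ζ := by
          have := Complex.norm_mul_exp_arg_mul_I ζ
          rwa [hn, Complex.ofReal_one, one_mul] at this
        have h5 : lin N' {Complex.arg ζ} = 0 := hζ1
        rw [TCB_lin_singleton N' hW.cN' hζ2, he] at h5
        exact h5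
      · right
        exact hs
    have h2 := TCB_lin_carrier N' hW.cN'
    refine measure_mono_null ?_ (measure_union_null h1 h2)
    intro θ hθ
    by_cases h : θ ∈ Ioo (-π) π
    · exact Or.inl ⟨hθ, h⟩
    · exact Or.inr h
  · intro θ hθ hlt'
    have s1 := TCB_sing P hW.cP hθ
    have s2 := TCB_sing N hW.cN hθ
    have s3 := TCB_sing P' hW.cP' hθ
    have s4 := TCB_sing N' hW.cN' hθ
    have e1 := hA θ hθ
    have e2 := hPsi θ hθ
    have hlt2 : P'.real {Complex.exp (θ * Complex.I)} < N'.real {Complex.exp (θ * Complex.I)} := by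
      rwa [← s3, ← s4]
    obtain ⟨h5, m, hm⟩ := TCA_pole hW (hnorm θ) hlt2
    rw [← s1, ← s2, ← s3, ← s4] at h5
    refine ⟨h5, m, ?_⟩
    rw [e1, e2] at hm
    rw [← hm]
    linear_combination (π / 2) * h5
  · intro θ hθ hlt'
    have s1 := TCB_sing P hW.cP hθ
    have s2 := TCB_sing N hW.cN hθ
    have s3 := TCB_sing P' hW.cP' hθ
    have s4 := TCB_sing N' hW.cN' hθ
    rw [s1, s2] at hlt'
    rw [s1, s2, s3, s4]
    exact TCA_pole' hW (hnorm θ) hlt'
  · intro θ hθ hlt'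
    have s1 := TCB_sing P hW.cP hθ
    have s2 := TCB_sing N hW.cN hθ
    have s3 := TCB_sing P' hW.cP' hθ
    have s4 := TCB_sing N' hW.cN' hθ
    rw [s1, s2] at hlt'
    obtain ⟨h5, h6⟩ := TCA_zero hW hlt (hnorm θ) hlt'
    have e2 := hPsi θ hθ
    rw [← s3, ← s4] at h5
    rw [h6, h5] at e2
    refine ⟨h5, ?_⟩
    linarith
  · intro θ hθ
    rw [TCB_sing P hW.cP hθ, TCB_sing N hW.cN hθ]
    exact hlt1 _ (TCB_ne hθ)
  · have h5 : ∫ θ in (-π : ℝ)..π, trA c (lin P) (lin N) θ = ∫ θ in (-π : ℝ)..π,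
        (Ag P (Complex.exp (θ * Complex.I)) - Ag N (Complex.exp (θ * Complex.I))) := by
      refine intervalIntegral.integral_congr_ae ?_
      have hnull : ∀ᵐ θ : ℝ, θ ≠ π := by
        rw [ae_iff]
        simp
      filter_upwards [TCB_ae (lin P), TCB_ae (lin N), hnull] with θ a1 a2 hne hθ
      rw [uIoc_of_le (by linarith [Real.pi_pos])] at hθ
      have hθ' : θ ∈ Ioo (-π) π := ⟨hθ.1, lt_of_le_of_ne hθ.2 hne⟩
      have e1 := hA θ hθ'
      have r1 : (lin P).real {θ} = 0 := by rw [Measure.real, a1]; rfl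
      have r2 : (lin N).real {θ} = 0 := by rw [Measure.real, a2]; rfl
      rw [r1, r2, sub_zero, mul_zero, add_zero] at e1
      exact e1.symm
    rw [h5, intervalIntegral.integral_sub (TCB_int P hW.cP) (TCB_int N hW.cN),
      AF_mean P hW.cP, AF_mean N hW.cN, sub_zero]

end

end Pool.H90.VK
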