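import Pool.Agent.H90.VK.TR0

/-!
# TR1 : `TR_lower` (no downward crossing); Facts 1, 2, 3 and the proof are in the docstring of TR0

Proof on paper: docstring of `TR0.lean`.
-/

open MeasureTheory Set Filter Topology Metric
open scoped Real ENNReal ComplexConjugate

namespace Pool.H90.VK

noncomputable section

theorem TR1_rc (μ : Measure ℝ) [IsFiniteMeasure μ] (θ : ℝ) :
    Tendsto (fun t => μ.real (Iic t)) (𝓝[≥] θ) (𝓝 (μ.real (Iic θ))) := by
  have h := tendsto_measure_of_tendsto_indicator_of_isFiniteMeasure (𝓝[≥] θ) μ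
    (As := fun t => Iic t) (A := Iic θ) (fun t => measurableSet_Iic) (fun x => by
      by_cases hx : x ≤ θ
      · filter_upwards [self_mem_nhdsWithin] with t ht
        have ht' : θ ≤ t := ht
        simp only [mem_Iic]
        exact ⟨fun _ => hx, fun _ => hx.trans ht'⟩
      · push Not at hx
        have : Iio x ∈ 𝓝[≥] θ := mem_nhdsWithin_of_mem_nhds (Iio_mem_nhds hx)
        filter_upwards [this] with t ht
        simp only [mem_Iic]
        exact ⟨fun h => absurd ht (not_lt.2 h), fun h => absurd hx (not_lt.2 h)⟩)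
  exact (ENNReal.tendsto_toReal (measure_ne_top μ _)).comp h

theorem TR1_lc (μ : Measure ℝ) [IsFiniteMeasure μ] (θ : ℝ) :
    Tendsto (fun t => μ.real (Iic t)) (𝓝[<] θ) (𝓝 (μ.real (Iio θ))) := by
  have h := tendsto_measure_of_tendsto_indicator_of_isFiniteMeasure (𝓝[<] θ) μ
    (As := fun t => Iic t) (A := Iio θ) (fun t => measurableSet_Iic) (fun x => by
      by_cases hx : x < θ
      · have : Ioi x ∈ 𝓝[<] θ := mem_nhdsWithin_of_mem_nhds (Ioi_mem_nhds hx)
        filter_upwards [this] with t ht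
        simp only [mem_Iic, mem_Iio]
        exact ⟨fun _ => hx, fun _ => le_of_lt ht⟩
      · push Not at hx
        filter_upwards [self_mem_nhdsWithin] with t ht
        have ht' : t < θ := ht
        simp only [mem_Iic, mem_Iio]
        exact ⟨fun h => by linarith, fun h => by linarith⟩)
  exact (ENNReal.tendsto_toReal (measure_ne_top μ _)).comp h

theorem TR1_atom {p' n' : Measure ℝ} [IsFiniteMeasure p'] [IsFiniteMeasure n']
    (hat : n' {θ | n' {θ} = 0} = 0) {S : Set ℝ} (h : ∀ t ∈ S, n'.real {t} ≤ p'.real {t}) :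
    n'.real S ≤ p'.real S := by
  have hc : {t : ℝ | 0 < n' {t}}.Countable :=
    Measure.countable_meas_pos_of_disjoint_iUnion (μ := n') (As := fun t : ℝ => ({t} : Set ℝ))
      (fun t => measurableSet_singleton t)
      (fun a b hab => by simpa using hab)
  set At : Set ℝ := {t : ℝ | 0 < n' {t}} with hAt
  have hc2 : (S ∩ At).Countable := hc.mono inter_subset_right
  have h1 : n' S ≤ n' (S ∩ At) := by
    calc n' S ≤ n' ((S ∩ At) ∪ {θ | n' {θ} = 0}) := by
          refine measure_mono fun t ht => ?_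
          by_cases h0 : n' {t} = 0
          · exact Or.inr h0
          · exact Or.inl ⟨ht, pos_iff_ne_zero.2 h0⟩
      _ ≤ n' (S ∩ At) + n' {θ | n' {θ} = 0} := measure_union_le _ _
      _ = n' (S ∩ At) := by rw [hat, add_zero]
  have h2 : ∀ μ : Measure ℝ, μ (S ∩ At) = ∑' t : (S ∩ At : Set ℝ), μ {(t : ℝ)} := by
    intro μ
    have h3 := measure_biUnion (μ := μ) hc2 (f := fun t : ℝ => ({t} : Set ℝ))
      (fun a _ b _ hab => by simpa [Function.onFun] using hab)
      (fun t _ => measurableSet_singleton t)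
    rwa [biUnion_of_singleton] at h3
  have h4 : n' (S ∩ At) ≤ p' (S ∩ At) := by
    rw [h2 n', h2 p']
    refine ENNReal.tsum_le_tsum fun t => ?_
    have h5 := h t t.2.1
    exact (ENNReal.toReal_le_toReal (measure_ne_top _ _) (measure_ne_top _ _)).1 h5
  exact ENNReal.toReal_mono (measure_ne_top _ _)
    (h1.trans (h4.trans (measure_mono inter_subset_left)))

section

variable {c : ℝ} {p n p' n' : Measure ℝ}

theorem TR1_A_rc (h : TRData c p n p' n') (θ : ℝ) :
    Tendsto (trA c p n) (𝓝[≥] θ) (𝓝 (trA c p n θ)) := by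
  haveI := h.fp
  haveI := h.fn
  exact ((TR1_rc p θ).sub (TR1_rc n θ)).const_mul π |>.const_sub c

theorem TR1_Psi_rc (h : TRData c p n p' n') (θ : ℝ) :
    Tendsto (trPsi p' n') (𝓝[≥] θ) (𝓝 (trPsi p' n' θ)) := by
  haveI := h.fp'
  haveI := h.fn'
  exact ((TR1_rc p' θ).sub (TR1_rc n' θ)).const_mul (-π)

theorem TR1_A_lc (h : TRData c p n p' n') (θ : ℝ) :
    Tendsto (trA c p n) (𝓝[<] θ) (𝓝 (trA c p n θ + π * (p.real {θ} - n.real {θ}))) := by
  haveI := h.fp
  haveI := h.fn
  have h1 := ((TR1_lc p θ).sub (TR1_lc n θ)).const_mul π |>.const_sub c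
  have e : ∀ μ : Measure ℝ, IsFiniteMeasure μ → μ.real (Iic θ) = μ.real (Iio θ) + μ.real {θ} := by
    intro μ _
    rw [← Iio_union_right]
    exact measureReal_union (by simp) (measurableSet_singleton θ)
  have e2 : trA c p n θ + π * (p.real {θ} - n.real {θ}) =
      c - π * (p.real (Iio θ) - n.real (Iio θ)) := by
    unfold trA
    rw [e p h.fp, e n h.fn]
    ring
  rw [e2]
  exact h1

theorem TR1_Psi_lc (h : TRData c p n p' n') (θ : ℝ) :
    Tendsto (trPsi p' n') (𝓝[<] θ) (𝓝 (trPsi p' n' θ + π * (p'.real {θ} - n'.real {θ}))) := by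
  haveI := h.fp'
  haveI := h.fn'
  have h1 := ((TR1_lc p' θ).sub (TR1_lc n' θ)).const_mul (-π)
  have e : ∀ μ : Measure ℝ, IsFiniteMeasure μ → μ.real (Iic θ) = μ.real (Iio θ) + μ.real {θ} := by
    intro μ _
    rw [← Iio_union_right]
    exact measureReal_union (by simp) (measurableSet_singleton θ)
  have e2 : trPsi p' n' θ + π * (p'.real {θ} - n'.real {θ}) =
      -π * (p'.real (Iio θ) - n'.real (Iio θ)) := by
    unfold trPsi
    rw [e p' h.fp', e n' h.fn']
    ring
  rw [e2]
  exact h1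

theorem TR1_zero {μ : Measure ℝ} (h : μ (Ioo (-π) π)ᶜ = 0) : μ.real (Iic (-π)) = 0 := by
  have : μ (Iic (-π)) = 0 := measure_mono_null (fun t ht => by
    simp only [mem_compl_iff, mem_Ioo, not_and_or, not_lt]
    exact Or.inl ht) h
  simp [Measure.real, this]

theorem TR1_A_start (h : TRData c p n p' n') : trA c p n (-π) = c := by
  unfold trA
  rw [TR1_zero h.cp, TR1_zero h.cn]
  ring

theorem TR1_Psi_start (h : TRData c p n p' n') : trPsi p' n' (-π) = 0 := by
  unfold trPsi
  rw [TR1_zero h.cp', TR1_zero h.cn']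
  ring

/-- Fact 3 -/
theorem TR1_dense (h : TRData c p n p' n') {a b : ℝ} (ha : -π ≤ a) (hb : b ≤ π) (hab : a < b) :
    ∃ θ ∈ Ioo a b, (0 < Real.sin (trA c p n θ) → trPsi p' n' θ < 0) ∧
      (Real.sin (trA c p n θ) < 0 → 0 < trPsi p' n' θ) ∧
      (Real.sin (trA c p n θ) = 0 → trPsi p' n' θ = 0) := by
  by_contra hcon
  push Not at hcon
  have h0 : volume (Ioo a b) = 0 := by
    refine measure_mono_null (fun θ hθ => ?_) (ae_iff.1 h.sgn)
    intro hP
    have hθ' : θ ∈ Ioo (-π) π := ⟨lt_of_le_of_lt ha hθ.1, lt_of_lt_of_le hθ.2 hb⟩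
    obtain ⟨h1, h2, h3⟩ := hP hθ'
    exact (hcon θ hθ h1 h2).2 (h3 (hcon θ hθ h1 h2).1)
  rw [Real.volume_Ioo, ENNReal.ofReal_eq_zero] at h0
  linarith

/-- Fact 1 -/
theorem TR1_mono (h : TRData c p n p' n') {a t : ℝ} (hat : a ≤ t)
    (hno : ∀ s ∈ Ioc a t, ¬ p'.real {s} < n'.real {s}) : trPsi p' n' t ≤ trPsi p' n' a := by
  haveI := h.fp'
  haveI := h.fn'
  have h1 : n'.real (Ioc a t) ≤ p'.real (Ioc a t) :=
    TR1_atom h.atomic fun s hs => not_lt.1 (hno s hs)
  have e : ∀ μ : Measure ℝ, IsFiniteMeasure μ → μ.real (Iic t) = μ.real (Iic a) + μ.real (Ioc a t) := by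
    intro μ _
    rw [← Iic_union_Ioc_eq_Iic hat]
    exact measureReal_union (by
      rw [Set.disjoint_left]
      intro x hx hx'
      exact absurd hx'.1 (not_lt.2 hx)) measurableSet_Ioc
  unfold trPsi
  rw [e p' h.fp', e n' h.fn']
  nlinarith [Real.pi_pos]

/-- Facts 1 and 2 -/
theorem TR1_nopole (h : TRData c p n p' n') {a : ℝ} (ha : -π ≤ a) (ha' : a < π)
    (h0 : trPsi p' n' a ≤ 0) (hcos : Real.cos (trA c p n a - trPsi p' n' a) ≠ -1) :
    ∃ δ > 0, a + δ ≤ π ∧ ∀ t ∈ Ico a (a + δ), trPsi p' n' t ≤ 0 := by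
  have h1 : Tendsto (fun t => Real.cos (trA c p n t - trPsi p' n' t)) (𝓝[≥] a)
      (𝓝 (Real.cos (trA c p n a - trPsi p' n' a))) :=
    (Real.continuous_cos.tendsto _).comp ((TR1_A_rc h a).sub (TR1_Psi_rc h a))
  have h2 : ∀ᶠ t in 𝓝[≥] a, Real.cos (trA c p n t - trPsi p' n' t) ≠ -1 :=
    h1.eventually_ne hcos
  obtain ⟨b, hb, hb'⟩ := (mem_nhdsGE_iff_exists_Ico_subset).1 h2
  have hb0 : a < b := hb
  refine ⟨min b π - a, by rw [gt_iff_lt, sub_pos]; exact lt_min hb0 ha', by
    have := min_le_right b π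
    linarith, ?_⟩
  intro t ht
  rw [add_sub_cancel] at ht
  refine (TR1_mono h ht.1 fun s hs hpole => ?_).trans h0
  have hs1 : s < min b π := lt_of_le_of_lt hs.2 ht.2
  have hs2 : s ∈ Ioo (-π) π := ⟨lt_of_le_of_lt ha hs.1, lt_of_lt_of_le hs1 (min_le_right _ _)⟩
  obtain ⟨-, m, hm⟩ := h.pole s hs2 hpole
  have h3 := hb' ⟨hs.1.le, lt_of_lt_of_le hs1 (min_le_left _ _)⟩
  apply h3
  rw [hm, show π + 2 * π * m = π + m * (2 * π) by ring, Real.cos_add_int_mul_two_pi, Real.cos_pi]

/-- sign to the right of a point with negative sine -/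
theorem TR1_pos (h : TRData c p n p' n') {a : ℝ} (ha : -π ≤ a) (ha' : a < π)
    (hs : Real.sin (trA c p n a) < 0) {ε : ℝ} (hε : 0 < ε) :
    ∃ t ∈ Ioo a (a + ε), 0 < trPsi p' n' t := by
  have h1 : Tendsto (fun t => Real.sin (trA c p n t)) (𝓝[≥] a)
      (𝓝 (Real.sin (trA c p n a))) :=
    (Real.continuous_sin.tendsto _).comp (TR1_A_rc h a)
  have h2 : ∀ᶠ t in 𝓝[≥] a, Real.sin (trA c p n t) < 0 := h1.eventually_lt_const hs
  obtain ⟨b, hb, hb'⟩ := (mem_nhdsGE_iff_exists_Ico_subset).1 h2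
  have hb0 : a < b := hb
  have h3 : a < min (min b π) (a + ε) := lt_min (lt_min hb0 ha') (by linarith)
  obtain ⟨t, ht, -, h4, -⟩ := TR1_dense h ha
    ((min_le_left _ _).trans (min_le_right b π) : min (min b π) (a + ε) ≤ π) h3
  refine ⟨t, ⟨ht.1, lt_of_lt_of_le ht.2 (min_le_right _ _)⟩, h4 (hb' ⟨ht.1.le, ?_⟩)⟩
  exact lt_of_lt_of_le ht.2 ((min_le_left _ _).trans (min_le_left _ _))

/-- The combination -/
theorem TR1_key (h : TRData c p n p' n') {a : ℝ} (ha : -π ≤ a) (ha' : a < π)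
    (h0 : trPsi p' n' a ≤ 0) (hcos : Real.cos (trA c p n a - trPsi p' n' a) ≠ -1) :
    ∃ δ > 0, ∀ t ∈ Ico a (a + δ), 0 ≤ Real.sin (trA c p n t) := by
  obtain ⟨δ, hδ, hδ', h1⟩ := TR1_nopole h ha ha' h0 hcos
  refine ⟨δ, hδ, fun t ht => ?_⟩
  by_contra hcon
  push Not at hcon
  obtain ⟨s, hs, hs'⟩ := TR1_pos h (ha.trans ht.1) (lt_of_lt_of_le ht.2 hδ') hcon
    (ε := a + δ - t) (by linarith [ht.2])
  have := h1 s ⟨ht.1.trans hs.1.le, by linarith [hs.2]⟩
  linarith

theorem TR1_sin_neg {i : ℤ} {x : ℝ} (h1 : 2 * π * i - π < x) (h2 : x < 2 * π * i) :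
    Real.sin x < 0 := by
  have e : Real.sin x = Real.sin (x - i * (2 * π)) := (Real.sin_sub_int_mul_two_pi x i).symm
  rw [e]
  exact Real.sin_neg_of_neg_of_neg_pi_lt (by linarith) (by linarith)

theorem TR1_sin_nonneg {i : ℤ} {x : ℝ} (h1 : 2 * π * i ≤ x) (h2 : x ≤ 2 * π * i + π) :
    0 ≤ Real.sin x := by
  have e : Real.sin x = Real.sin (x - i * (2 * π)) := (Real.sin_sub_int_mul_two_pi x i).symm
  rw [e]
  exact Real.sin_nonneg_of_nonneg_of_le_pi (by linarith) (by linarith)

theorem TR1_cos_ne {x : ℝ} (h : Real.sin x ≠ 0) : Real.cos x ≠ -1 := by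
  intro hc
  have := Real.sin_sq_add_cos_sq x
  rw [hc] at this
  apply h
  have h2 : Real.sin x ^ 2 = 0 := by linarith
  exact pow_eq_zero_iff (two_ne_zero) |>.1 h2

theorem TR1_cos_int (i : ℤ) : Real.cos (2 * π * i) ≠ -1 := by
  have : Real.cos (2 * π * i) = 1 := by
    rw [show 2 * π * i = i * (2 * π) by ring]
    exact Real.cos_int_mul_two_pi i
  rw [this]
  norm_num

/-- if `A a = 2 π i` and `Ψ a = 0` then `A` does not take smaller values close to `a` on the right -/
theorem TR1_stay (h : TRData c p n p' n') {a : ℝ} (ha : -π ≤ a) (ha' : a < π) {i : ℤ}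
    (hA : trA c p n a = 2 * π * i) (h0 : trPsi p' n' a = 0)
    (hD : ∀ ε > 0, ∃ t ∈ Ioo a (a + ε), trA c p n t < 2 * π * i) : False := by
  obtain ⟨δ, hδ, h1⟩ := TR1_key h ha ha' h0.le (by rw [hA, h0, sub_zero]; exact TR1_cos_int i)
  have h2 : ∀ᶠ t in 𝓝[≥] a, 2 * π * i - π < trA c p n t := by
    refine (TR1_A_rc h a).eventually_const_lt ?_
    rw [hA]
    linarith [Real.pi_pos]
  obtain ⟨b, hb, hb'⟩ := (mem_nhdsGE_iff_exists_Ico_subset).1 h2
  have hb0 : a < b := hb
  obtain ⟨t, ht, ht'⟩ := hD (min δ (b - a)) (lt_min hδ (by linarith))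
  have h3 := h1 t ⟨ht.1.le, lt_of_lt_of_le ht.2 (by linarith [min_le_left δ (b - a)])⟩
  have h4 : 2 * π * i - π < trA c p n t :=
    hb' ⟨ht.1.le, lt_of_lt_of_le ht.2 (by linarith [min_le_right δ (b - a)])⟩
  have := TR1_sin_neg h4 ht'
  linarith

end

theorem TR_lower {c : ℝ} {p n p' n' : Measure ℝ} (h : TRData c p n p' n') :
    ∃ i : ℤ, 2 * π * i ≤ c ∧ c ≤ 2 * π * i + π ∧
      ∀ θ ∈ Ioo (-π) π, 2 * π * i ≤ trA c p n θ := by
  have hpi := Real.pi_pos
  have h2pi : 0 < 2 * π := by positivity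
  set i : ℤ := ⌊c / (2 * π)⌋ with hi
  have hi1 : 2 * π * i ≤ c := by
    have := Int.floor_le (c / (2 * π))
    rw [le_div_iff₀ h2pi] at this
    linarith
  have hi2 : c < 2 * π * i + 2 * π := by
    have := Int.lt_floor_add_one (c / (2 * π))
    rw [div_lt_iff₀ h2pi] at this
    linarith
  have hstart := TR1_A_start h
  have hstart' := TR1_Psi_start h
  refine ⟨i, hi1, ?_, ?_⟩
  · by_contra hcon
    push Not at hcon
    have hs : Real.sin c < 0 := by
      refine TR1_sin_neg (i := i + 1) ?_ ?_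
      · push_cast
        linarith
      · push_cast
        linarith
    obtain ⟨δ, hδ, h1⟩ := TR1_key h le_rfl (by linarith) hstart'.le (by
      rw [hstart, hstart', sub_zero]
      exact TR1_cos_ne hs.ne)
    have := h1 (-π) ⟨le_rfl, by linarith⟩
    rw [hstart] at this
    linarith
  · by_contra hcon
    push Not at hcon
    obtain ⟨θ₀, hθ₀, hθ₀'⟩ := hcon
    set D : Set ℝ := {θ | θ ∈ Ioo (-π) π ∧ trA c p n θ < 2 * π * i} with hD
    have hDne : D.Nonempty := ⟨θ₀, hθ₀, hθ₀'⟩
    have hDb : BddBelow D := ⟨-π, fun t ht => ht.1.1.le⟩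
    set a := sInf D with ha
    have ha1 : -π ≤ a := le_csInf hDne fun t ht => ht.1.1.le
    have ha2 : a < π := lt_of_le_of_lt (csInf_le hDb ⟨hθ₀, hθ₀'⟩) hθ₀.2
    have hbelow : ∀ t, -π < t → t < a → 2 * π * i ≤ trA c p n t := by
      intro t ht1 ht2
      by_contra hcon
      push Not at hcon
      have := csInf_le hDb (show t ∈ D from ⟨⟨ht1, ht2.trans ha2⟩, hcon⟩)
      linarith
    have happ : ∀ ε > 0, ∃ t ∈ Ico a (a + ε), trA c p n t < 2 * π * i := by
      intro ε hε
      obtain ⟨t, ht, ht'⟩ := exists_lt_of_csInf_lt hDne (show sInf D < a + ε by linarith)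
      exact ⟨t, ⟨csInf_le hDb ht, ht'⟩, ht.2⟩
    have hle : trA c p n a ≤ 2 * π * i := by
      by_contra hcon
      push Not at hcon
      have h2 : ∀ᶠ t in 𝓝[≥] a, 2 * π * i < trA c p n t := (TR1_A_rc h a).eventually_const_lt hcon
      obtain ⟨b, hb, hb'⟩ := (mem_nhdsGE_iff_exists_Ico_subset).1 h2
      have hb0 : a < b := hb
      obtain ⟨t, ht, ht'⟩ := happ (b - a) (by linarith)
      have : 2 * π * i < trA c p n t := hb' ⟨ht.1, by linarith [ht.2]⟩
      linarith
    -- if `A a = 2 π i` then there are points of `D` close to `a`, on the right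
    have happ' : trA c p n a = 2 * π * i → ∀ ε > 0, ∃ t ∈ Ioo a (a + ε),
        trA c p n t < 2 * π * i := by
      intro hA ε hε
      obtain ⟨t, ht, ht'⟩ := happ ε hε
      refine ⟨t, ⟨lt_of_le_of_ne ht.1 ?_, ht.2⟩, ht'⟩
      rintro rfl
      linarith
    rcases eq_or_lt_of_le ha1 with haeq | halt
    · -- `a = -π`
      rw [← haeq] at hle happ'
      rw [hstart] at hle happ'
      have hc : c = 2 * π * i := le_antisymm hle hi1
      exact TR1_stay h le_rfl (by linarith) (hstart.trans hc) hstart' (happ' hc)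
    · -- `a > -π`
      have haI : a ∈ Ioo (-π) π := ⟨halt, ha2⟩
      have hLA := TR1_A_lc h a
      have hLP := TR1_Psi_lc h a
      set LA := trA c p n a + π * (p.real {a} - n.real {a}) with hLAdef
      set LP := trPsi p' n' a + π * (p'.real {a} - n'.real {a}) with hLPdef
      have hev : ∀ᶠ t in 𝓝[<] a, 2 * π * i ≤ trA c p n t := by
        have : Ioi (-π) ∈ 𝓝[<] a := mem_nhdsWithin_of_mem_nhds (Ioi_mem_nhds halt)
        filter_upwards [this, self_mem_nhdsWithin] with t ht1 ht2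
        exact hbelow t ht1 ht2
      have hLA1 : 2 * π * i ≤ LA := ge_of_tendsto hLA hev
      have hpn : 0 ≤ p.real {a} - n.real {a} := by
        by_contra hcon
        push Not at hcon
        nlinarith
      have hnp : ¬ p'.real {a} < n'.real {a} := by
        intro hp
        have h1 := (h.pole a haI hp).1
        linarith
      have hLP1 : trPsi p' n' a ≤ LP := by
        push Not at hnp
        nlinarith
      have hLA2 : LA < trA c p n a + π := by
        have := h.lt1 a haI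
        nlinarith
      -- left limit of `Ψ` is nonpositive
      have hLP2 : LP ≤ 0 := by
        by_contra hcon
        push Not at hcon
        have e1 : ∀ᶠ t in 𝓝[<] a, 0 < trPsi p' n' t := hLP.eventually_const_lt hcon
        have e2 : ∀ᶠ t in 𝓝[<] a, trA c p n t < 2 * π * i + π :=
          hLA.eventually_lt_const (by linarith)
        obtain ⟨b, hb, hb'⟩ := (mem_nhdsLT_iff_exists_Ioo_subset).1 (e1.and (e2.and hev))
        have hb0 : b < a := hb
        obtain ⟨t, ht, h1, -, h3⟩ := TR1_dense h (le_max_right b (-π)) ha2.le (max_lt hb0 halt)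
        obtain ⟨f1, f2, f3⟩ := hb' ⟨lt_of_le_of_lt (le_max_left _ _) ht.1, ht.2⟩
        have f1' : 0 < trPsi p' n' t := f1
        have f4 : 0 ≤ Real.sin (trA c p n t) := TR1_sin_nonneg f3 (le_of_lt f2)
        rcases eq_or_lt_of_le f4 with f5 | f5
        · have := h3 f5.symm
          linarith
        · have := h1 f5
          linarith
      have hP0 : trPsi p' n' a ≤ 0 := hLP1.trans hLP2
      rcases eq_or_lt_of_le hle with hA | hA
      · -- `A a = 2 π i`
        have happ2 := happ' hA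
        have hP1 : 0 ≤ trPsi p' n' a := by
          by_contra hcon
          push Not at hcon
          have e1 : ∀ᶠ t in 𝓝[≥] a, trPsi p' n' t < 0 := (TR1_Psi_rc h a).eventually_lt_const hcon
          have e2 : ∀ᶠ t in 𝓝[≥] a, 2 * π * i - π < trA c p n t := by
            refine (TR1_A_rc h a).eventually_const_lt ?_
            rw [hA]
            linarith
          obtain ⟨b, hb, hb'⟩ := (mem_nhdsGE_iff_exists_Ico_subset).1 (e1.and e2)
          have hb0 : a < b := hb
          obtain ⟨t, ht, ht'⟩ := happ2 (min (b - a) (π - a)) (lt_min (by linarith) (by linarith))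
          have g1 := min_le_left (b - a) (π - a)
          have g2 := min_le_right (b - a) (π - a)
          have f1 := hb' ⟨ht.1.le, by linarith [ht.2]⟩
          have f2 : 2 * π * i - π < trA c p n t := f1.2
          obtain ⟨s, hs, hs'⟩ := TR1_pos h (by linarith [ht.1]) (by linarith [ht.2])
            (TR1_sin_neg f2 ht') (ε := b - t) (by linarith [ht.2])
          have f3 : trPsi p' n' s < 0 := (hb' ⟨by linarith [ht.1, hs.1], by linarith [hs.2]⟩).1
          linarith
        exact TR1_stay h ha1 ha2 hA (le_antisymm hP0 hP1) happ2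
      · -- `A a < 2 π i`
        have hpn' : n.real {a} < p.real {a} := by
          by_contra hcon
          push Not at hcon
          nlinarith
        have hP1 := (h.zero a haI hpn').2
        have hs : Real.sin (trA c p n a) < 0 := TR1_sin_neg (by linarith) hA
        obtain ⟨δ, hδ, h1⟩ := TR1_key h ha1 ha2 hP1.le (by
          rw [hP1, sub_zero]
          exact TR1_cos_ne hs.ne)
        have := h1 a ⟨le_rfl, by linarith⟩
        linarith

end

end Pool.H90.VK
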