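import Pool.Agent.H90.VK.TR0

/-!
# TR2 : `TR_refl` (reflection)

Proof on paper: docstring of `TR0.lean`.
-/

open MeasureTheory Set Filter Topology Metric
open scoped Real ENNReal ComplexConjugate

namespace Pool.H90.VK

noncomputable section

theorem TR2_map (μ : Measure ℝ) (S : Set ℝ) : (μ.map (fun x => -x)) S = μ (Neg.neg ⁻¹' S) :=
  (MeasurableEquiv.neg ℝ).map_apply S

theorem TR2_single (μ : Measure ℝ) (θ : ℝ) : (μ.map (fun x => -x)) {θ} = μ {-θ} := by
  rw [TR2_map]
  congr 1
  ext x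
  simp only [mem_preimage, mem_singleton_iff]
  constructor
  · intro h; linarith
  · intro h; linarith

theorem TR2_single' (μ : Measure ℝ) (θ : ℝ) : (μ.map (fun x => -x)).real {θ} = μ.real {-θ} := by
  unfold Measure.real
  rw [TR2_single]

theorem TR2_univ (μ : Measure ℝ) : (μ.map (fun x => -x)).real univ = μ.real univ := by
  unfold Measure.real
  rw [TR2_map, preimage_univ]

theorem TR2_Iic (μ : Measure ℝ) [IsFiniteMeasure μ] (θ : ℝ) :
    (μ.map (fun x => -x)).real (Iic θ) = μ.real univ - μ.real (Iic (-θ)) + μ.real {-θ} := by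
  have h1 : (μ.map (fun x => -x)).real (Iic θ) = μ.real (Ici (-θ)) := by
    unfold Measure.real
    rw [TR2_map]
    congr 2
    ext x
    simp only [mem_preimage, mem_Iic, mem_Ici]
    constructor
    · intro h; linarith
    · intro h; linarith
  have h2 : μ.real univ = μ.real (Ioi (-θ)) + μ.real (Iic (-θ)) := by
    have hd : Disjoint (Ioi (-θ)) (Iic (-θ)) := (Iic_disjoint_Ioi le_rfl).symm
    rw [← measureReal_union hd measurableSet_Iic]
    congr 1
    ext x
    simp only [mem_univ, mem_union, mem_Ioi, mem_Iic, true_iff]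
    exact lt_or_ge _ _
  have h3 : μ.real (Ici (-θ)) = μ.real (Ioi (-θ)) + μ.real {-θ} := by
    rw [← measureReal_union (by simp) (measurableSet_singleton _)]
    congr 1
    ext x
    simp only [mem_Ici, mem_union, mem_Ioi, mem_singleton_iff]
    exact le_iff_lt_or_eq'
  rw [h1, h3]
  linarith

theorem TR2_A (c : ℝ) (p n : Measure ℝ) [IsFiniteMeasure p] [IsFiniteMeasure n] (θ : ℝ) :
    trA (-(c - π * (p.real univ - n.real univ))) (p.map (fun x => -x)) (n.map (fun x => -x)) θ =
      -trA c p n (-θ) - π * (p.real {-θ} - n.real {-θ}) := by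
  unfold trA
  rw [TR2_Iic, TR2_Iic]
  ring

theorem TR2_Psi (p' n' : Measure ℝ) [IsFiniteMeasure p'] [IsFiniteMeasure n']
    (h : p'.real univ = n'.real univ) (θ : ℝ) :
    trPsi (p'.map (fun x => -x)) (n'.map (fun x => -x)) θ =
      -trPsi p' n' (-θ) - π * (p'.real {-θ} - n'.real {-θ}) := by
  unfold trPsi
  rw [TR2_Iic, TR2_Iic, h]
  ring

theorem TR2_countable (μ : Measure ℝ) [IsFiniteMeasure μ] : {x : ℝ | μ {x} ≠ 0}.Countable := by
  have h := Measure.countable_meas_pos_of_disjoint_iUnion (μ := μ) (As := fun x : ℝ => ({x} : Set ℝ))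
    (fun x => measurableSet_singleton x) (by
      intro x y hxy
      simpa using hxy)
  refine h.mono ?_
  intro x hx
  exact pos_iff_ne_zero.2 hx

theorem TR2_ae (μ : Measure ℝ) [IsFiniteMeasure μ] : ∀ᵐ θ : ℝ, μ.real {-θ} = 0 := by
  have h1 : {x : ℝ | μ {-x} ≠ 0}.Countable := by
    have h2 := (TR2_countable μ).image (fun x : ℝ => -x)
    refine h2.mono ?_
    intro x hx
    exact ⟨-x, hx, neg_neg x⟩
  have h3 : volume {x : ℝ | μ {-x} ≠ 0} = 0 := h1.measure_zero _
  have h4 : ∀ᵐ θ : ℝ, ¬ μ {-θ} ≠ 0 := measure_eq_zero_iff_ae_notMem.1 h3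
  filter_upwards [h4] with θ hθ
  have h5 : μ {-θ} = 0 := not_not.1 hθ
  unfold Measure.real
  rw [h5]
  rfl

theorem TR2_car (μ : Measure ℝ) (h : μ (Ioo (-π) π)ᶜ = 0) :
    (μ.map (fun x => -x)) (Ioo (-π) π)ᶜ = 0 := by
  rw [TR2_map]
  have : Neg.neg ⁻¹' (Ioo (-π) π)ᶜ = (Ioo (-π) π)ᶜ := by
    ext x
    simp only [mem_preimage, mem_compl_iff, mem_Ioo]
    constructor
    · intro h1 h2
      exact h1 ⟨by linarith [h2.2], by linarith [h2.1]⟩
    · intro h1 h2
      exact h1 ⟨by linarith [h2.2], by linarith [h2.1]⟩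
  rw [this, h]

theorem TR_refl {c : ℝ} {p n p' n' : Measure ℝ} (h : TRData c p n p' n') :
    TRData (-(c - π * (p.real univ - n.real univ))) (p.map (fun x => -x)) (n.map (fun x => -x))
      (p'.map (fun x => -x)) (n'.map (fun x => -x)) ∧
    ∀ᵐ θ : ℝ, trA (-(c - π * (p.real univ - n.real univ))) (p.map (fun x => -x))
      (n.map (fun x => -x)) θ = -trA c p n (-θ) := by
  have := h.fp
  have := h.fn
  have := h.fp'
  have := h.fn'
  have hA := TR2_A c p n
  have hΨ := TR2_Psi p' n' h.m'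
  have hae : ∀ᵐ θ : ℝ, trA (-(c - π * (p.real univ - n.real univ))) (p.map (fun x => -x))
      (n.map (fun x => -x)) θ = -trA c p n (-θ) := by
    filter_upwards [TR2_ae p, TR2_ae n] with θ h1 h2
    rw [hA, h1, h2]
    ring
  have hmem : ∀ θ : ℝ, θ ∈ Ioo (-π) π → -θ ∈ Ioo (-π) π := by
    intro θ hθ
    exact ⟨by linarith [hθ.2], by linarith [hθ.1]⟩
  refine ⟨?_, hae⟩
  refine
    { fp := ?_
      fn := ?_
      fp' := ?_
      fn' := ?_
      cp := TR2_car _ h.cp
      cn := TR2_car _ h.cn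
      cp' := TR2_car _ h.cp'
      cn' := TR2_car _ h.cn'
      m' := ?_
      sgn := ?_
      atomic := ?_
      pole := ?_
      pole' := ?_
      zero := ?_
      lt1 := ?_
      mean := ?_ }
  · infer_instance
  · infer_instance
  · infer_instance
  · infer_instance
  · rw [TR2_univ, TR2_univ, h.m']
  · have hneg : ∀ᵐ θ : ℝ, -θ ∈ Ioo (-π) π →
        (0 < Real.sin (trA c p n (-θ)) → trPsi p' n' (-θ) < 0) ∧
        (Real.sin (trA c p n (-θ)) < 0 → 0 < trPsi p' n' (-θ)) ∧
        (Real.sin (trA c p n (-θ)) = 0 → trPsi p' n' (-θ) = 0) :=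
      (Measure.measurePreserving_neg (volume : Measure ℝ)).quasiMeasurePreserving.ae h.sgn
    filter_upwards [hae, hneg, TR2_ae p', TR2_ae n'] with θ h1 h2 h3 h4 hθ
    obtain ⟨g1, g2, g3⟩ := h2 (hmem θ hθ)
    rw [h1, hΨ, h3, h4, Real.sin_neg, sub_self, mul_zero, sub_zero]
    refine ⟨fun h5 => ?_, fun h5 => ?_, fun h5 => ?_⟩
    · have := g2 (by linarith)
      linarith
    · have := g1 (by linarith)
      linarith
    · have := g3 (by linarith)
      linarith
  · rw [TR2_map]
    have : Neg.neg ⁻¹' {θ : ℝ | (n'.map (fun x => -x)) {θ} = 0} = {θ : ℝ | n' {θ} = 0} := by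
      ext x
      simp only [mem_preimage, mem_ofPred_eq]
      rw [TR2_single, neg_neg]
    rw [this]
    exact h.atomic
  · intro θ hθ hp
    rw [TR2_single', TR2_single'] at hp
    obtain ⟨g1, m, g2⟩ := h.pole (-θ) (hmem θ hθ) hp
    rw [TR2_single', TR2_single', TR2_single', TR2_single']
    refine ⟨g1, -m - 1, ?_⟩
    rw [hA, hΨ]
    push_cast
    have g3 : π * (n.real {-θ} - p.real {-θ}) = π * (n'.real {-θ} - p'.real {-θ}) := by rw [g1]
    linear_combination -g2 + g3
  · intro θ hθ hp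
    rw [TR2_single', TR2_single'] at hp
    rw [TR2_single', TR2_single', TR2_single', TR2_single']
    exact h.pole' (-θ) (hmem θ hθ) hp
  · intro θ hθ hp
    rw [TR2_single', TR2_single'] at hp
    obtain ⟨g1, g2⟩ := h.zero (-θ) (hmem θ hθ) hp
    rw [TR2_single', TR2_single', hΨ, g1, g2]
    refine ⟨rfl, by ring⟩
  · intro θ hθ
    rw [TR2_single', TR2_single']
    exact h.lt1 (-θ) (hmem θ hθ)
  · have h1 : ∫ θ in (-π : ℝ)..π, trA (-(c - π * (p.real univ - n.real univ)))
        (p.map (fun x => -x)) (n.map (fun x => -x)) θ = ∫ θ in (-π : ℝ)..π, -trA c p n (-θ) := by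
      refine intervalIntegral.integral_congr_ae ?_
      filter_upwards [hae] with θ hθ _
      exact hθ
    rw [h1, intervalIntegral.integral_neg, intervalIntegral.integral_comp_neg (fun θ => trA c p n θ),
      neg_neg, h.mean, neg_zero]

end

end Pool.H90.VK
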