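import Pool.Agent.H90.VK.TR1
import Pool.Agent.H90.VK.TR2

/-!
# TR3 : `TR_main`

Proof on paper: docstring of `TR0.lean`.
-/

open MeasureTheory Set Filter Topology Metric
open scoped Real ENNReal ComplexConjugate

namespace Pool.H90.VK

noncomputable section

theorem TR3_ivl (c : ℝ) (p n : Measure ℝ) [IsFiniteMeasure p] [IsFiniteMeasure n] (a b : ℝ) :
    IntervalIntegrable (trA c p n) volume a b := by
  have h1 : ∀ q : Measure ℝ, IsFiniteMeasure q →
      IntervalIntegrable (fun θ => q.real (Iic θ)) volume a b := by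
    intro q hq
    apply Monotone.intervalIntegrable
    intro x y hxy
    exact measureReal_mono (Iic_subset_Iic.mpr hxy)
  unfold trA
  exact intervalIntegrable_const.sub (((h1 p inferInstance).sub (h1 n inferInstance)).const_mul _)

theorem TR3_lim (q : Measure ℝ) [IsFiniteMeasure q] (hq : q (Ioo (-π) π)ᶜ = 0) :
    Tendsto (fun θ => q.real (Iic θ)) (𝓝[>] (-π)) (𝓝 0) ∧
      Tendsto (fun θ => q.real (Iic θ)) (𝓝[<] π) (𝓝 (q.real univ)) := by
  have hae : ∀ᵐ x ∂q, x ∈ Ioo (-π) π := by
    rw [ae_iff]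
    exact hq
  constructor
  · have h := tendsto_measure_of_ae_tendsto_indicator_of_isFiniteMeasure (𝓝[>] (-π))
      (μ := q) (A := ∅) (As := fun θ : ℝ => Iic θ) MeasurableSet.empty
      (fun θ => measurableSet_Iic) (by
        filter_upwards [hae] with x hx
        have h1 : ∀ᶠ θ in 𝓝[>] (-π), θ < x :=
          mem_nhdsWithin_of_mem_nhds (Iio_mem_nhds hx.1)
        filter_upwards [h1] with θ hθ
        simp only [mem_Iic, mem_empty_iff_false, iff_false, not_le]
        exact hθ)
    rw [measure_empty] at h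
    have h2 := (ENNReal.tendsto_toReal ENNReal.zero_ne_top).comp h
    exact h2
  · have h := tendsto_measure_of_ae_tendsto_indicator_of_isFiniteMeasure (𝓝[<] π)
      (μ := q) (A := univ) (As := fun θ : ℝ => Iic θ) MeasurableSet.univ
      (fun θ => measurableSet_Iic) (by
        filter_upwards [hae] with x hx
        have h1 : ∀ᶠ θ in 𝓝[<] π, x < θ :=
          mem_nhdsWithin_of_mem_nhds (Ioi_mem_nhds hx.2)
        filter_upwards [h1] with θ hθ
        simp only [mem_Iic, mem_univ, iff_true]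
        exact hθ.le)
    have h2 := (ENNReal.tendsto_toReal (measure_ne_top q univ)).comp h
    exact h2

theorem TR3_zero {c : ℝ} {p n : Measure ℝ} [IsFiniteMeasure p] [IsFiniteMeasure n]
    (hp : p (Ioo (-π) π)ᶜ = 0) (hn : n (Ioo (-π) π)ᶜ = 0)
    (h0 : ∀ᵐ θ : ℝ, θ ∈ Ioo (-π) π → trA c p n θ = 0) : p.real univ = n.real univ := by
  have hpi := Real.pi_pos
  obtain ⟨p1, p2⟩ := TR3_lim p hp
  obtain ⟨n1, n2⟩ := TR3_lim n hn
  have t1 : Tendsto (trA c p n) (𝓝[>] (-π)) (𝓝 (c - π * (0 - 0))) :=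
    tendsto_const_nhds.sub ((p1.sub n1).const_mul _)
  have t2 : Tendsto (trA c p n) (𝓝[<] π) (𝓝 (c - π * (p.real univ - n.real univ))) :=
    tendsto_const_nhds.sub ((p2.sub n2).const_mul _)
  have hpos : ∀ a b : ℝ, a < b → -π ≤ a → b ≤ π → ∃ θ ∈ Ioo a b, trA c p n θ = 0 := by
    intro a b hab ha hb
    by_contra hcon
    push Not at hcon
    have h1 : volume (Ioo a b) = 0 := by
      apply measure_mono_null _ (ae_iff.mp h0)
      intro θ hθ
      simp only [mem_setOf_eq]
      intro h
      exact hcon θ hθ (h ⟨by linarith [hθ.1], by linarith [hθ.2]⟩)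
    rw [Real.volume_Ioo, ENNReal.ofReal_eq_zero] at h1
    linarith
  have f1 : ∃ᶠ θ in 𝓝[>] (-π), trA c p n θ = (fun _ => (0:ℝ)) θ := by
    intro hev
    rw [Filter.Eventually, mem_nhdsGT_iff_exists_Ioo_subset] at hev
    obtain ⟨u, hu, hsub⟩ := hev
    have hu' : -π < u := hu
    obtain ⟨θ, hθ, hz⟩ := hpos (-π) (min u π) (lt_min hu' (by linarith)) le_rfl (min_le_right _ _)
    exact hsub ⟨hθ.1, lt_of_lt_of_le hθ.2 (min_le_left _ _)⟩ hz
  have f2 : ∃ᶠ θ in 𝓝[<] π, trA c p n θ = (fun _ => (0:ℝ)) θ := by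
    intro hev
    rw [Filter.Eventually, mem_nhdsLT_iff_exists_Ioo_subset] at hev
    obtain ⟨u, hu, hsub⟩ := hev
    have hu' : u < π := hu
    obtain ⟨θ, hθ, hz⟩ := hpos (max u (-π)) π (max_lt hu' (by linarith)) (le_max_right _ _) le_rfl
    exact hsub ⟨lt_of_le_of_lt (le_max_left _ _) hθ.1, hθ.2⟩ hz
  have e1 := tendsto_nhds_unique_of_frequently_eq t1 tendsto_const_nhds f1
  have e2 := tendsto_nhds_unique_of_frequently_eq t2 tendsto_const_nhds f2
  have e3 : π * (p.real univ - n.real univ) = 0 := by linarith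
  rcases mul_eq_zero.mp e3 with h | h
  · linarith
  · linarith

theorem TR_main {c : ℝ} {p n p' n' : Measure ℝ} (h : TRData c p n p' n')
    (hne : p.real univ ≠ n.real univ) :
    ∃ i j : ℤ, i ≤ -1 ∧ 1 ≤ j ∧ 2 * π * i ≤ c ∧ c ≤ 2 * π * i + π ∧
      2 * π * j - π ≤ c - π * (p.real univ - n.real univ) ∧
      c - π * (p.real univ - n.real univ) ≤ 2 * π * j ∧
      (∀ θ ∈ Ioo (-π) π, 2 * π * i ≤ trA c p n θ) ∧
      (∀ᵐ θ : ℝ, θ ∈ Ioo (-π) π → trA c p n θ ≤ 2 * π * j) := by
  have hpi := Real.pi_pos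
  haveI := h.fp
  haveI := h.fn
  obtain ⟨i, hi1, hi2, hi3⟩ := TR_lower h
  obtain ⟨h', hae⟩ := TR_refl h
  obtain ⟨i', hj1, hj2, hj3⟩ := TR_lower h'
  have hJ : ∀ᵐ θ : ℝ, θ ∈ Ioo (-π) π → trA c p n θ ≤ -(2 * π * i') := by
    have hneg : ∀ᵐ θ : ℝ, trA (-(c - π * (p.real univ - n.real univ))) (p.map (fun x => -x))
        (n.map (fun x => -x)) (-θ) = -trA c p n (-(-θ)) :=
      (Measure.measurePreserving_neg (volume : Measure ℝ)).quasiMeasurePreserving.ae hae
    filter_upwards [hneg] with θ hθ hm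
    have h1 := hj3 (-θ) ⟨by linarith [hm.2], by linarith [hm.1]⟩
    rw [hθ, neg_neg] at h1
    linarith
  have hint := TR3_ivl c p n (-π) π
  have hle : (-π : ℝ) ≤ π := by linarith
  -- the sign of the integers
  have hi0 : (i : ℝ) ≤ 0 := by
    have h1 : ∫ θ in (-π : ℝ)..π, (2 * π * i : ℝ) ≤ ∫ θ in (-π : ℝ)..π, trA c p n θ := by
      apply intervalIntegral.integral_mono_on_of_le_Ioo hle intervalIntegrable_const hint
      exact hi3
    rw [h.mean, intervalIntegral.integral_const, smul_eq_mul] at h1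
    by_contra hcon
    push Not at hcon
    have : 0 < (π - -π) * (2 * π * (i:ℝ)) := mul_pos (by linarith) (mul_pos (by linarith) hcon)
    linarith
  have hj0 : 0 ≤ -(i' : ℝ) := by
    have h1 : ∫ θ in (-π : ℝ)..π, trA c p n θ ≤ ∫ θ in (-π : ℝ)..π, (-(2 * π * i') : ℝ) := by
      apply intervalIntegral.integral_mono_ae_restrict hle hint intervalIntegrable_const
      have h2 : ∀ᵐ θ ∂(volume.restrict (Ioo (-π) π)), trA c p n θ ≤ -(2 * π * i') := by
        rw [ae_restrict_iff' measurableSet_Ioo]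
        exact hJ
      rw [← Measure.restrict_congr_set (Ioo_ae_eq_Icc (μ := volume) (a := -π) (b := π))]
      exact h2
    rw [h.mean, intervalIntegral.integral_const, smul_eq_mul] at h1
    by_contra hcon
    push Not at hcon
    have : 0 < (π - -π) * (2 * π * (i':ℝ)) := by
      have : 0 < (i':ℝ) := by linarith
      exact mul_pos (by linarith) (mul_pos (by linarith) this)
    linarith
  have hi4 : i ≤ -1 := by
    have h1 : i ≤ 0 := by exact_mod_cast hi0
    rcases h1.lt_or_eq with h2 | h2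
    · omega
    · exfalso
      rw [h2] at hi3
      simp only [Int.cast_zero, mul_zero] at hi3
      apply hne
      apply TR3_zero (c := c) h.cp h.cn
      have h3 : ∀ᵐ θ ∂(volume.restrict (Ioc (-π) π)), trA c p n θ = 0 := by
        have h4 := (intervalIntegral.integral_eq_zero_iff_of_le_of_nonneg_ae hle (by
          rw [EventuallyLE, ← Measure.restrict_congr_set
            (Ioo_ae_eq_Ioc (μ := volume) (a := -π) (b := π)), ae_restrict_iff' measurableSet_Ioo]
          exact ae_of_all _ fun θ hθ => hi3 θ hθ) hint).mp h.mean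
        exact h4
      rw [ae_restrict_iff' measurableSet_Ioc] at h3
      filter_upwards [h3] with θ hθ hm
      exact hθ ⟨hm.1, hm.2.le⟩
  have hj4 : i' ≤ -1 := by
    have h1 : i' ≤ 0 := by
      have : (i' : ℝ) ≤ 0 := by linarith
      exact_mod_cast this
    rcases h1.lt_or_eq with h2 | h2
    · omega
    · exfalso
      rw [h2] at hJ
      simp only [Int.cast_zero, mul_zero, neg_zero] at hJ
      apply hne
      apply TR3_zero (c := c) h.cp h.cn
      have h3 : ∀ᵐ θ ∂(volume.restrict (Ioc (-π) π)), -trA c p n θ = 0 := by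
        have h4 := (intervalIntegral.integral_eq_zero_iff_of_le_of_nonneg_ae
          (f := fun θ => -trA c p n θ) hle (by
          rw [EventuallyLE, ← Measure.restrict_congr_set
            (Ioo_ae_eq_Ioc (μ := volume) (a := -π) (b := π)), ae_restrict_iff' measurableSet_Ioo]
          filter_upwards [hJ] with θ hθ hm
          have := hθ hm
          show (0:ℝ) ≤ -trA c p n θ
          linarith) hint.neg).mp (by rw [intervalIntegral.integral_neg, h.mean, neg_zero])
        exact h4
      rw [ae_restrict_iff' measurableSet_Ioc] at h3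
      filter_upwards [h3] with θ hθ hm
      have := hθ ⟨hm.1, hm.2.le⟩
      linarith
  refine ⟨i, -i', hi4, by omega, hi1, hi2, ?_, ?_, hi3, ?_⟩
  · push_cast
    linarith
  · push_cast
    linarith
  · filter_upwards [hJ] with θ hθ hm
    push_cast
    have := hθ hm
    linarith

end

end Pool.H90.VK
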