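import Pool.Agent.H90.VK.TR3

/-!
# TR4 : `TR_gap`

Proof on paper: docstring of `TR0.lean`.
-/

open MeasureTheory Set Filter Topology Metric
open scoped Real ENNReal ComplexConjugate

namespace Pool.H90.VK

noncomputable section

theorem TR4_small (μ : Measure ℝ) [IsFiniteMeasure μ] (a : ℝ) {ε : ℝ} (hε : 0 < ε) :
    ∃ δ : ℝ, 0 < δ ∧ μ.real (Ioo a (a + δ)) < ε := by
  have h1 : Tendsto (fun m : ℕ => μ (Ioo a (a + 1 / ((m : ℝ) + 1)))) atTop
      (𝓝 (μ (⋂ m : ℕ, Ioo a (a + 1 / ((m : ℝ) + 1))))) := by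
    refine tendsto_measure_iInter_atTop (fun m => measurableSet_Ioo.nullMeasurableSet) ?_
      ⟨0, measure_ne_top _ _⟩
    intro m m' hmm
    apply Ioo_subset_Ioo_right
    have h2 : 1 / ((m' : ℝ) + 1) ≤ 1 / ((m : ℝ) + 1) := by
      apply one_div_le_one_div_of_le (by positivity)
      have : (m : ℝ) ≤ m' := by exact_mod_cast hmm
      linarith
    linarith
  have h2 : (⋂ m : ℕ, Ioo a (a + 1 / ((m : ℝ) + 1))) = ∅ := by
    rw [Set.eq_empty_iff_forall_notMem]
    intro x hx
    rw [Set.mem_iInter] at hx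
    have h3 : 0 < x - a := by
      have := (hx 0).1
      linarith
    obtain ⟨m, hm⟩ := exists_nat_one_div_lt h3
    have h4 := (hx m).2
    linarith
  rw [h2, measure_empty] at h1
  have h3 : Tendsto (fun m : ℕ => μ.real (Ioo a (a + 1 / ((m : ℝ) + 1)))) atTop (𝓝 0) := by
    have h4 := (ENNReal.tendsto_toReal (by simp : (0 : ℝ≥0∞) ≠ ⊤)).comp h1
    rw [ENNReal.toReal_zero] at h4
    exact h4
  obtain ⟨m, hm⟩ := (h3.eventually (gt_mem_nhds hε)).exists
  exact ⟨1 / ((m : ℝ) + 1), by positivity, hm⟩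

theorem TR4_small' (μ : Measure ℝ) [IsFiniteMeasure μ] (a : ℝ) {ε : ℝ} (hε : 0 < ε) :
    ∃ δ : ℝ, 0 < δ ∧ μ.real (Ioo (a - δ) a) < ε := by
  obtain ⟨δ, hδ, h1⟩ := TR4_small (μ.map fun x => -x) (-a) hε
  refine ⟨δ, hδ, ?_⟩
  rw [measureReal_def, Measure.map_apply measurable_neg measurableSet_Ioo] at h1
  have h2 : (fun x : ℝ => -x) ⁻¹' Ioo (-a) (-a + δ) = Ioo (a - δ) a := by
    ext x
    simp only [Set.mem_preimage, Set.mem_Ioo]
    constructor
    · rintro ⟨h3, h4⟩
      exact ⟨by linarith, by linarith⟩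
    · rintro ⟨h3, h4⟩
      exact ⟨by linarith, by linarith⟩
  rw [h2] at h1
  exact h1

theorem TR4_Iic (μ : Measure ℝ) [IsFiniteMeasure μ] {x y : ℝ} (hxy : x ≤ y) :
    μ.real (Iic y) = μ.real (Iic x) + μ.real (Ioc x y) := by
  rw [← Iic_union_Ioc_eq_Iic hxy, measureReal_union (Iic_disjoint_Ioc le_rfl) measurableSet_Ioc]

theorem TR4_diff (c : ℝ) (p n : Measure ℝ) [IsFiniteMeasure p] [IsFiniteMeasure n] {x y : ℝ}
    (hxy : x ≤ y) : trA c p n y - trA c p n x = -π * (p.real (Ioc x y) - n.real (Ioc x y)) := by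
  unfold trA
  rw [TR4_Iic p hxy, TR4_Iic n hxy]
  ring

theorem TR4_right (c : ℝ) (p n : Measure ℝ) [IsFiniteMeasure p] [IsFiniteMeasure n] (x : ℝ) {ε : ℝ}
    (hε : 0 < ε) : ∃ δ : ℝ, 0 < δ ∧ ∀ y, x ≤ y → y < x + δ →
      |trA c p n y - trA c p n x| < ε := by
  have hπ := Real.pi_pos
  obtain ⟨δ1, hδ1, h1⟩ := TR4_small p x (ε := ε / π) (by positivity)
  obtain ⟨δ2, hδ2, h2⟩ := TR4_small n x (ε := ε / π) (by positivity)
  refine ⟨min δ1 δ2, lt_min hδ1 hδ2, fun y hxy hy => ?_⟩
  rw [TR4_diff c p n hxy]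
  have h3 : p.real (Ioc x y) < ε / π := by
    refine lt_of_le_of_lt (measureReal_mono ?_) h1
    intro z hz
    exact ⟨hz.1, lt_of_le_of_lt hz.2 (lt_of_lt_of_le hy (by linarith [min_le_left δ1 δ2]))⟩
  have h4 : n.real (Ioc x y) < ε / π := by
    refine lt_of_le_of_lt (measureReal_mono ?_) h2
    intro z hz
    exact ⟨hz.1, lt_of_le_of_lt hz.2 (lt_of_lt_of_le hy (by linarith [min_le_right δ1 δ2]))⟩
  have h5 : 0 ≤ p.real (Ioc x y) := measureReal_nonneg
  have h6 : 0 ≤ n.real (Ioc x y) := measureReal_nonneg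
  rw [lt_div_iff₀ hπ] at h3 h4
  rw [abs_lt]
  constructor <;> nlinarith

theorem TR4_left (c : ℝ) (p n : Measure ℝ) [IsFiniteMeasure p] [IsFiniteMeasure n] (x : ℝ) {ε : ℝ}
    (hε : 0 < ε) : ∃ δ : ℝ, 0 < δ ∧ ∀ y, x - δ < y → y < x →
      |trA c p n x - trA c p n y + π * (p.real {x} - n.real {x})| < ε := by
  have hπ := Real.pi_pos
  obtain ⟨δ1, hδ1, h1⟩ := TR4_small' p x (ε := ε / π) (by positivity)
  obtain ⟨δ2, hδ2, h2⟩ := TR4_small' n x (ε := ε / π) (by positivity)
  refine ⟨min δ1 δ2, lt_min hδ1 hδ2, fun y hy hxy => ?_⟩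
  rw [TR4_diff c p n hxy.le]
  have hsplit : ∀ μ : Measure ℝ, IsFiniteMeasure μ → μ.real (Ioc y x) =
      μ.real (Ioo y x) + μ.real {x} := by
    intro μ _
    rw [← Ioo_union_right hxy, measureReal_union (by simp) (measurableSet_singleton x)]
  rw [hsplit p inferInstance, hsplit n inferInstance]
  have h3 : p.real (Ioo y x) < ε / π := by
    refine lt_of_le_of_lt (measureReal_mono ?_) h1
    intro z hz
    exact ⟨lt_of_le_of_lt (by linarith [min_le_left δ1 δ2]) hz.1, hz.2⟩
  have h4 : n.real (Ioo y x) < ε / π := by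
    refine lt_of_le_of_lt (measureReal_mono ?_) h2
    intro z hz
    exact ⟨lt_of_le_of_lt (by linarith [min_le_right δ1 δ2]) hz.1, hz.2⟩
  have h5 : 0 ≤ p.real (Ioo y x) := measureReal_nonneg
  have h6 : 0 ≤ n.real (Ioo y x) := measureReal_nonneg
  rw [lt_div_iff₀ hπ] at h3 h4
  rw [abs_lt]
  constructor <;> nlinarith

theorem TR4_int (c : ℝ) (p n : Measure ℝ) [IsFiniteMeasure p] [IsFiniteMeasure n] (a b : ℝ) :
    IntervalIntegrable (trA c p n) volume a b := by
  have hm : ∀ μ : Measure ℝ, IsFiniteMeasure μ → IntervalIntegrable (fun θ => μ.real (Iic θ))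
      volume a b := by
    intro μ _
    apply Monotone.intervalIntegrable
    intro x y hxy
    exact measureReal_mono (Iic_subset_Iic.2 hxy)
  exact (intervalIntegrable_const (c := c)).sub (((hm p inferInstance).sub (hm n inferInstance)).const_mul π)

/-- the left gap -/
theorem TR4_gap {c : ℝ} {p n p' n' : Measure ℝ} (h : TRData c p n p' n')
    (hne : p.real univ ≠ n.real univ) (h4 : n.real univ - p.real univ < 4) (l : ℝ) (hl : 0 < l)
    (hl2 : l < 2 * π) (hgap : n' (Ioo (-π) (-π + l)) = 0) : l ≤ 4 * π / 3 := by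
  have hπ := Real.pi_pos
  have hfp := h.fp
  have hfn := h.fn
  have hfp' := h.fp'
  have hfn' := h.fn'
  obtain ⟨i, j, hi, hj, h1, h2, h3, h5, -, h7⟩ := TR_main h hne
  -- `i = -1`, `j = 1`
  have hij : (j : ℝ) - i < 3 := by
    have h8 : 2 * π * (j - i) < 2 * π * 3 := by nlinarith
    exact lt_of_mul_lt_mul_left h8 (by positivity)
  have hij' : j - i < 3 := by exact_mod_cast hij
  have hi1 : i = -1 := by omega
  have hj1 : j = 1 := by omega
  rw [hi1] at h2
  rw [hj1] at h7
  push_cast at h2 h7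
  have hc : c ≤ -π := by linarith
  -- `Ψ ≤ 0` on the gap
  have hPsi : ∀ y, y < -π + l → trPsi p' n' y ≤ 0 := by
    intro y hy
    have h8 : n' (Iic y) = 0 := by
      refine measure_mono_null ?_ (measure_union_null h.cn' hgap)
      intro z hz
      by_cases h9 : z ∈ Ioo (-π) π
      · exact Or.inr ⟨h9.1, lt_of_le_of_lt hz hy⟩
      · exact Or.inl h9
    unfold trPsi
    rw [measureReal_def n', h8, ENNReal.toReal_zero, sub_zero]
    have h9 : 0 ≤ p'.real (Iic y) := measureReal_nonneg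
    nlinarith
  have hAstart : trA c p n (-π) = c := by
    have h8 : ∀ μ : Measure ℝ, μ (Ioo (-π) π)ᶜ = 0 → μ.real (Iic (-π)) = 0 := by
      intro μ hμ
      rw [measureReal_def, measure_mono_null (s := Iic (-π)) (t := (Ioo (-π) π)ᶜ) _ hμ,
        ENNReal.toReal_zero]
      intro z hz hz'
      exact absurd hz'.1 (not_lt.2 hz)
    unfold trA
    rw [h8 p h.cp, h8 n h.cn]
    ring
  -- no point with `A` in `(-π, 0)` in the gap
  have hno : ∀ θ, -π ≤ θ → θ < -π + l → -π < trA c p n θ → trA c p n θ < 0 → False := by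
    intro θ hθ1 hθ2 hA1 hA2
    obtain ⟨δ, hδ, hr⟩ := TR4_right c p n θ (ε := min (trA c p n θ + π) (-trA c p n θ))
      (lt_min (by linarith) (by linarith))
    have hdense := Measure.dense_of_ae h.sgn
    obtain ⟨y, hy, hy'⟩ := hdense.exists_mem_open (U := Ioo θ (min (θ + δ) (-π + l))) isOpen_Ioo
      (nonempty_Ioo.2 (lt_min (by linarith) hθ2))
    have hy1 : y < θ + δ := lt_of_lt_of_le hy'.2 (min_le_left _ _)
    have hy2 : y < -π + l := lt_of_lt_of_le hy'.2 (min_le_right _ _)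
    have h8 := hr y hy'.1.le hy1
    rw [abs_lt] at h8
    have h9 := min_le_left (trA c p n θ + π) (-trA c p n θ)
    have h10 := min_le_right (trA c p n θ + π) (-trA c p n θ)
    have h11 : Real.sin (trA c p n y) < 0 :=
      Real.sin_neg_of_neg_of_neg_pi_lt (by linarith) (by linarith)
    have h12 := (hy ⟨by linarith [hy'.1], by linarith⟩).2.1 h11
    have h13 := hPsi y hy2
    linarith
  -- `A ≤ - π` on the gap
  have hclaim : ∀ θ ∈ Ioo (-π) (-π + l), trA c p n θ ≤ -π := by
    by_contra hcon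
    push Not at hcon
    obtain ⟨θ0, hθ0, hA0⟩ := hcon
    set D : Set ℝ := {θ | θ ∈ Ioo (-π) (-π + l) ∧ -π < trA c p n θ} with hD
    have hDne : D.Nonempty := ⟨θ0, hθ0, hA0⟩
    have hDb : BddBelow D := ⟨-π, fun θ hθ => hθ.1.1.le⟩
    set θs : ℝ := sInf D with hθs
    have hs1 : -π ≤ θs := le_csInf hDne fun θ hθ => hθ.1.1.le
    have hs2 : θs < -π + l := lt_of_le_of_lt (csInf_le hDb ⟨hθ0, hA0⟩) hθ0.2
    by_cases hAs : trA c p n θs < 0
    · obtain ⟨δ, hδ, hr⟩ := TR4_right c p n θs (ε := -trA c p n θs) (by linarith)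
      obtain ⟨θ1, hθ1, hlt⟩ := exists_lt_of_csInf_lt hDne (show sInf D < θs + δ by linarith)
      have h8 := hr θ1 (csInf_le hDb hθ1) hlt
      rw [abs_lt] at h8
      exact hno θ1 hθ1.1.1.le hθ1.1.2 hθ1.2 (by linarith)
    · push Not at hAs
      have hs3 : -π < θs := by
        refine lt_of_le_of_ne hs1 fun he => ?_
        rw [← he, hAstart] at hAs
        linarith
      obtain ⟨δ, hδ, hr⟩ := TR4_left c p n θs (ε := π / 2) (by positivity)
      obtain ⟨y, hy1, hy2⟩ := exists_between (show max (-π) (θs - δ) < θs from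
        max_lt hs3 (by linarith))
      have hy3 : -π < y := lt_of_le_of_lt (le_max_left _ _) hy1
      have hy4 : θs - δ < y := lt_of_le_of_lt (le_max_right _ _) hy1
      have hAy : trA c p n y ≤ -π := by
        by_contra hc2
        push Not at hc2
        have : θs ≤ y := csInf_le hDb ⟨⟨hy3, by linarith⟩, hc2⟩
        linarith
      have h8 := hr y hy4 hy2
      rw [abs_lt] at h8
      have h9 : p.real {θs} < n.real {θs} := by
        by_contra hc2
        push Not at hc2
        have : 0 ≤ π * (p.real {θs} - n.real {θs}) := mul_nonneg hπ.le (by linarith)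
        linarith
      have h10 := h.pole' θs ⟨hs3, by linarith⟩ h9
      have h11 : n'.real {θs} = 0 := by
        rw [measureReal_def, measure_mono_null (s := {θs}) (t := Ioo (-π) (-π + l)) _ hgap,
          ENNReal.toReal_zero]
        intro z hz
        rw [Set.mem_singleton_iff] at hz
        rw [hz]
        exact ⟨hs3, hs2⟩
      have h12 : 0 ≤ p'.real {θs} := measureReal_nonneg
      linarith
  -- integrate
  have hI1 : ∫ θ in (-π : ℝ)..(-π + l), trA c p n θ ≤ -π * l := by
    have h8 := intervalIntegral.integral_mono_on_of_le_Ioo (μ := volume) (show -π ≤ -π + l by linarith)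
      (TR4_int c p n (-π) (-π + l)) (intervalIntegrable_const (c := -π)) hclaim
    rw [intervalIntegral.integral_const, smul_eq_mul] at h8
    linarith
  have hI2 : ∫ θ in (-π + l : ℝ)..π, trA c p n θ ≤ 2 * π * (2 * π - l) := by
    have h8 : ∫ θ in (-π + l : ℝ)..π, trA c p n θ ≤ ∫ _ in (-π + l : ℝ)..π, 2 * π := by
      refine intervalIntegral.integral_mono_ae_restrict (by linarith)
        (TR4_int c p n (-π + l) π) (intervalIntegrable_const (c := 2 * π)) ?_
      rw [Filter.EventuallyLE, ae_restrict_iff' measurableSet_Icc]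
      have h9 : ∀ᵐ θ : ℝ, θ ≠ π := by
        rw [ae_iff]
        simp
      filter_upwards [h7, h9] with θ hθ hne' hθ'
      have h10 := hθ ⟨by linarith [hθ'.1], lt_of_le_of_ne hθ'.2 hne'⟩
      linarith
    rw [intervalIntegral.integral_const, smul_eq_mul] at h8
    linarith
  have hI := intervalIntegral.integral_add_adjacent_intervals (TR4_int c p n (-π) (-π + l))
    (TR4_int c p n (-π + l) π)
  rw [h.mean] at hI
  have h8 : π * (3 * l) ≤ π * (4 * π) := by nlinarith
  have h9 : 3 * l ≤ 4 * π := le_of_mul_le_mul_left h8 hπ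
  linarith

theorem TR_gap {c : ℝ} {p n p' n' : Measure ℝ} (h : TRData c p n p' n')
    (hne : p.real univ ≠ n.real univ) (h4 : n.real univ - p.real univ < 4) (l : ℝ) (hl : 0 < l)
    (hl2 : l < 2 * π) (hgap : n' (Ioo (-π) (-π + l)) = 0 ∨ n' (Ioo (π - l) π) = 0) :
    l ≤ 4 * π / 3 := by
  rcases hgap with hgap | hgap
  · exact TR4_gap h hne h4 l hl hl2 hgap
  · have huniv : ∀ μ : Measure ℝ, (μ.map fun x : ℝ => -x).real univ = μ.real univ := by
      intro μ
      rw [measureReal_def, measureReal_def, Measure.map_apply measurable_neg MeasurableSet.univ,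
        Set.preimage_univ]
    refine TR4_gap (TR_refl h).1 (by rw [huniv, huniv]; exact hne) (by rw [huniv, huniv]; exact h4)
      l hl hl2 ?_
    rw [Measure.map_apply measurable_neg measurableSet_Ioo]
    have h2 : (fun x : ℝ => -x) ⁻¹' Ioo (-π) (-π + l) = Ioo (π - l) π := by
      ext x
      simp only [Set.mem_preimage, Set.mem_Ioo]
      constructor
      · rintro ⟨h3, h4⟩
        exact ⟨by linarith, by linarith⟩
      · rintro ⟨h3, h4⟩
        exact ⟨by linarith, by linarith⟩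
    rw [h2]
    exact hgap

end

end Pool.H90.VK
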