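import Pool.Agent.H90.VK.GR
import Pool.Agent.H90.VK.KA

/-!
# TRI : local L¹ bound near a boundary point with nonreal finite limit

Hypotheses (used throughout the block): `P, N, P', N'` finite measures on the circle,
`P(T) = N(T)`, `P'(T) = N'(T)`, `0 < t < 1`,
`w z = t exp (Lg P z - Lg N z)` and `1 - w z = (1-t) exp (Lg P' z - Lg N' z)` on the disc.

`TRI_alg` (law of sines): `w = |w| e^{ia}`, `1 - w = |1-w| e^{-ib}`: `|w| sin (a+b) = sin b` and
`|1-w| sin (a+b) = sin a` (from imaginary and real part of `w + (1-w) = 1`: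
`|w| sin a = |1-w| sin b`, `|w| cos a + |1-w| cos b = 1`).

`TRI_lin`: if moreover `D` is any complex number and `ξ = Re (D/w)`, `ξ' = Re (D/(1-w))`,
`sin (a+b) ≥ δ > 0`, `sin b ≥ δ`, `|sin a| ≤ 1` (so `w, 1-w ≠ 0`): `|D/w| ≤ |ξ| + |η|`, `η = Im (D/w)`, and
`D/(1-w) = (D/w) · (w/(1-w))`, `w/(1-w) = (|w|/|1-w|) e^{i(a+b)}` give
`ξ' = (|w|/|1-w|)(ξ cos(a+b) - η sin(a+b))`, so `|η| ≤ (|ξ| + (|1-w|/|w|)|ξ'|)/δ` and
`|1-w|/|w| = sin a/sin b ≤ 1/δ`. Hence `‖D/w‖ ≤ (1 + 1/δ)|ξ| + |ξ'|/δ²`.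

`TRI`. Let `|ζ₀| = 1`, `ζ₀ = e^{iθ₀}`, no atom of `P, N, P', N'` at `ζ₀`, finite potentials at `ζ₀`, and
`sin (Ag P ζ₀ - Ag N ζ₀) ≠ 0`. Then there are `0 < ρ < π`, `C`, `r₀ < 1` with
`∫_{θ₀-ρ}^{θ₀+ρ} ‖Kg P - Kg N‖(R e^{iθ}) dθ ≤ C` for `r₀ < R < 1`.
Proof. Write `A(z) = Ag P z - Ag N z`, `Ψ(z) = Ag P' z - Ag N' z`; on the disc
`w = |w| e^{iA}`, `1-w = |1-w| e^{iΨ}` (`LA_im`). By `GR_ag_cont`, `A → a₀ = A(ζ₀)`, `Ψ → b₀' = Ψ(ζ₀)`
as `z → ζ₀`. Case `sin a₀ > 0` (the case `sin a₀ < 0` follows by conjugation: replace `a, b` by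
`-a, -b`, or redo with signs). With `a = A(z)`, `b = -Ψ(z)`: along `z = rζ₀`, `|w|` and `|1-w|` stay between
two positive constants (`GR_bdd`), so in the limit `r → 1` of `|w| sin(a+b) = sin b`,
`|w| sin a = |1-w| sin b`: with `b₀ = -b₀'`, `sin b₀ = lim |w| sin a/|1-w| > 0`, hence
`sin(a₀+b₀) = lim sin b/|w| > 0`. By continuity of `A, Ψ` at `ζ₀`
there are `δ > 0` and a neighbourhood of `ζ₀` in which `sin a, sin b, sin(a+b) ≥ δ`.
In it `TRI_lin` with `D = z w'(z)` applies: by `LA_kg`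
`z w'/w = -(1/2)(Kg P - Kg N)` (equal masses) and `-z w'/(1-w) = -(1/2)(Kg P' - Kg N')`.
So `‖Kg P - Kg N‖ ≤ (1+1/δ) Re(Kg P + Kg N) + δ^{-2} Re (Kg P' + Kg N')`, and
`∫_{-π}^{π} Re Kg μ (R e^{iθ}) dθ = 2π μ(T)` (`KA_mean0'`, `KA_zero`; the interval
`(θ₀-ρ, θ₀+ρ)` of length `< 2π`, periodicity).
-/

open MeasureTheory Set Filter Topology Metric
open scoped Real ENNReal ComplexConjugate

namespace Pool.H90.VK

noncomputable section

/-- the standing hypotheses on `(w, 1-w)` -/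
structure WData (t : ℝ) (w : ℂ → ℂ) (P N P' N' : Measure ℂ) : Prop where
  t0 : 0 < t
  t1 : t < 1
  fP : IsFiniteMeasure P
  fN : IsFiniteMeasure N
  fP' : IsFiniteMeasure P'
  fN' : IsFiniteMeasure N'
  cP : OnCircle P
  cN : OnCircle N
  cP' : OnCircle P'
  cN' : OnCircle N'
  m : P.real univ = N.real univ
  m' : P'.real univ = N'.real univ
  hw : ∀ z ∈ ball (0 : ℂ) 1, w z = t * Complex.exp (Lg P z - Lg N z)
  hw' : ∀ z ∈ ball (0 : ℂ) 1, 1 - w z = (1 - t) * Complex.exp (Lg P' z - Lg N' z)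

theorem TRI_alg {w : ℂ} {a b : ℝ} (ha : w = ‖w‖ * Complex.exp (a * Complex.I))
    (hb : 1 - w = ‖1 - w‖ * Complex.exp (-b * Complex.I)) :
    ‖w‖ * Real.sin (a + b) = Real.sin b ∧ ‖1 - w‖ * Real.sin (a + b) = Real.sin a ∧
      ‖w‖ * Real.sin a = ‖1 - w‖ * Real.sin b := by
  have h1 : w.re = ‖w‖ * Real.cos a := by
    conv_lhs => rw [ha]
    rw [Complex.re_ofReal_mul, Complex.exp_ofReal_mul_I_re]
  have h2 : w.im = ‖w‖ * Real.sin a := by
    conv_lhs => rw [ha]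
    rw [Complex.im_ofReal_mul, Complex.exp_ofReal_mul_I_im]
  have hb' : 1 - w = ‖1 - w‖ * Complex.exp ((-b : ℝ) * Complex.I) := by
    rw [Complex.ofReal_neg]
    exact hb
  have h3 : (1 - w).re = ‖1 - w‖ * Real.cos b := by
    conv_lhs => rw [hb']
    rw [Complex.re_ofReal_mul, Complex.exp_ofReal_mul_I_re, Real.cos_neg]
  have h4 : (1 - w).im = -(‖1 - w‖ * Real.sin b) := by
    conv_lhs => rw [hb']
    rw [Complex.im_ofReal_mul, Complex.exp_ofReal_mul_I_im, Real.sin_neg, mul_neg]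
  rw [Complex.sub_re, Complex.one_re] at h3
  rw [Complex.sub_im, Complex.one_im] at h4
  have e1 : ‖w‖ * Real.sin a = ‖1 - w‖ * Real.sin b := by linarith
  have e2 : ‖w‖ * Real.cos a + ‖1 - w‖ * Real.cos b = 1 := by linarith
  refine ⟨?_, ?_, e1⟩
  · rw [Real.sin_add]
    linear_combination Real.cos b * e1 + Real.sin b * e2
  · rw [Real.sin_add]
    linear_combination Real.sin a * e2 - Real.cos a * e1

theorem TRI_lin {w D : ℂ} {a b δ : ℝ} (hw : w ≠ 0) (hw1 : 1 - w ≠ 0)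
    (ha : w = ‖w‖ * Complex.exp (a * Complex.I))
    (hb : 1 - w = ‖1 - w‖ * Complex.exp (-b * Complex.I)) (hδ : 0 < δ)
    (h1 : δ ≤ Real.sin b) (h2 : δ ≤ Real.sin (a + b)) :
    ‖D / w‖ ≤ (1 + 1 / δ) * |(D / w).re| + |(D / (1 - w)).re| / δ ^ 2 := by
  obtain ⟨-, -, e3⟩ := TRI_alg ha hb
  have hwn : 0 < ‖w‖ := norm_pos_iff.2 hw
  have hwn1 : 0 < ‖1 - w‖ := norm_pos_iff.2 hw1
  set K : ℝ := ‖1 - w‖ / ‖w‖ with hK
  have hK0 : 0 ≤ K := by positivity
  have hKle : K ≤ 1 / δ := by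
    have h3 : K * Real.sin b = Real.sin a := by
      rw [hK, div_mul_eq_mul_div, ← e3]
      field_simp
    rw [le_div_iff₀ hδ]
    calc K * δ ≤ K * Real.sin b := mul_le_mul_of_nonneg_left h1 hK0
      _ = Real.sin a := h3
      _ ≤ 1 := Real.sin_le_one a
  have hquot : D / (1 - w) * (K : ℂ) = D / w * Complex.exp ((a + b : ℝ) * Complex.I) := by
    have h4 : w * ‖1 - w‖ = ‖w‖ * (1 - w) * Complex.exp ((a + b : ℝ) * Complex.I) := by
      have h5 : Complex.exp (-b * Complex.I) * Complex.exp ((a + b : ℝ) * Complex.I) =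
          Complex.exp (a * Complex.I) := by
        rw [← Complex.exp_add]
        congr 1
        push_cast
        ring
      calc w * ‖1 - w‖ = (‖w‖ * Complex.exp (a * Complex.I)) * ‖1 - w‖ := by rw [← ha]
        _ = ‖w‖ * (‖1 - w‖ * Complex.exp (-b * Complex.I)) *
            Complex.exp ((a + b : ℝ) * Complex.I) := by rw [← h5]; ring
        _ = _ := by rw [← hb]
    have hwc : (‖w‖ : ℂ) ≠ 0 := by exact_mod_cast hwn.ne'
    rw [hK]
    push_cast
    push_cast at h4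
    field_simp
    linear_combination D * h4
  have hre := congrArg Complex.re hquot
  rw [Complex.re_mul_ofReal, Complex.mul_re, Complex.exp_ofReal_mul_I_re,
    Complex.exp_ofReal_mul_I_im] at hre
  set ξ := (D / w).re
  set η := (D / w).im
  set ξ' := (D / (1 - w)).re
  have h5 : |η| * δ ≤ |ξ| + |ξ'| * (1 / δ) := by
    calc |η| * δ ≤ |η| * Real.sin (a + b) := mul_le_mul_of_nonneg_left h2 (abs_nonneg _)
      _ = |η * Real.sin (a + b)| := by
          rw [abs_mul, abs_of_nonneg (hδ.le.trans h2)]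
      _ = |ξ * Real.cos (a + b) - ξ' * K| := by
          congr 1
          linarith
      _ ≤ |ξ * Real.cos (a + b)| + |ξ' * K| := abs_sub _ _
      _ ≤ |ξ| + |ξ'| * (1 / δ) := by
          rw [abs_mul, abs_mul, abs_of_nonneg hK0]
          have h6 : |ξ| * |Real.cos (a + b)| ≤ |ξ| * 1 :=
            mul_le_mul_of_nonneg_left (Real.abs_cos_le_one _) (abs_nonneg _)
          have h7 : |ξ'| * K ≤ |ξ'| * (1 / δ) := mul_le_mul_of_nonneg_left hKle (abs_nonneg _)
          linarith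
  have h8 : |η| ≤ |ξ| / δ + |ξ'| / δ ^ 2 := by
    rw [← le_div_iff₀ hδ] at h5
    refine h5.trans (le_of_eq ?_)
    field_simp
  calc ‖D / w‖ ≤ |ξ| + |η| := Complex.norm_le_abs_re_add_abs_im _
    _ ≤ |ξ| + (|ξ| / δ + |ξ'| / δ ^ 2) := by linarith
    _ = _ := by ring

/-- the same with the signs reversed -/
theorem TRI_lin' {w D : ℂ} {a b δ : ℝ} (hw : w ≠ 0) (hw1 : 1 - w ≠ 0)
    (ha : w = ‖w‖ * Complex.exp (a * Complex.I))
    (hb : 1 - w = ‖1 - w‖ * Complex.exp (-b * Complex.I)) (hδ : 0 < δ)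
    (h1 : δ ≤ -Real.sin b) (h2 : δ ≤ -Real.sin (a + b)) :
    ‖D / w‖ ≤ (1 + 1 / δ) * |(D / w).re| + |(D / (1 - w)).re| / δ ^ 2 := by
  have hc : ∀ z : ℂ, ‖conj z‖ = ‖z‖ := fun z => RCLike.norm_conj z
  have e1 : 1 - conj w = conj (1 - w) := by rw [map_sub, map_one]
  have h3 := TRI_lin (w := conj w) (D := conj D) (a := -a) (b := -b) (δ := δ)
    (fun h => hw ((map_eq_zero _).1 h)) (by rw [e1]; exact fun h => hw1 ((map_eq_zero _).1 h))
    (by
      rw [hc]
      conv_lhs => rw [ha]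
      rw [map_mul, Complex.conj_ofReal, ← Complex.exp_conj, map_mul, Complex.conj_ofReal,
        Complex.conj_I]
      push_cast
      ring_nf)
    (by
      rw [e1, hc]
      conv_lhs => rw [hb]
      rw [map_mul, Complex.conj_ofReal, ← Complex.exp_conj, map_mul, map_neg, Complex.conj_ofReal,
        Complex.conj_I]
      push_cast
      ring_nf)
    hδ (by rw [Real.sin_neg]; exact h1) (by
      rw [show -a + -b = -(a + b) by ring, Real.sin_neg]; exact h2)
  rw [e1, ← map_div₀, ← map_div₀, hc, Complex.conj_re, Complex.conj_re] at h3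
  exact h3

/-- polar form of a positive multiple of an exponential -/
theorem TRI_polar {t : ℝ} (ht : 0 < t) (u : ℂ) :
    ‖(t : ℂ) * Complex.exp u‖ = t * Real.exp u.re ∧
    (t : ℂ) * Complex.exp u = ‖(t : ℂ) * Complex.exp u‖ * Complex.exp (u.im * Complex.I) := by
  have h1 : ‖(t : ℂ) * Complex.exp u‖ = t * Real.exp u.re := by
    rw [norm_mul, Complex.norm_exp, Complex.norm_real, Real.norm_of_nonneg ht.le]
  refine ⟨h1, ?_⟩
  rw [h1]
  push_cast
  rw [mul_assoc, ← Complex.exp_add]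
  congr 2
  exact (Complex.re_add_im u).symm

/-- two-sided bound along a radius -/
theorem TRI_bd {t : ℝ} (ht : 0 < t) {P N : Measure ℂ} [IsFiniteMeasure P] [IsFiniteMeasure N]
    (cP : OnCircle P) (cN : OnCircle N) {y : ℂ} (hy : ‖y‖ = 1) (a1 : P {y} = 0) (a2 : N {y} = 0)
    (p1 : y ∉ potInf P) (p2 : y ∉ potInf N) :
    ∃ m M : ℝ, 0 < m ∧ 0 < M ∧ ∀ r : ℝ, 0 ≤ r → r < 1 →
      m ≤ ‖(t : ℂ) * Complex.exp (Lg P (r * y) - Lg N (r * y))‖ ∧
      ‖(t : ℂ) * Complex.exp (Lg P (r * y) - Lg N (r * y))‖ ≤ M := by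
  obtain ⟨C, hC⟩ := GR_bdd P cP hy a1 p1
  obtain ⟨C', hC'⟩ := GR_bdd N cN hy a2 p2
  refine ⟨t * Real.exp (-(C + C')), t * Real.exp (C + C'), by positivity, by positivity,
    fun r h0 h1 => ?_⟩
  have e1 := abs_le.1 (hC r h0 h1)
  have e2 := abs_le.1 (hC' r h0 h1)
  rw [(TRI_polar ht _).1, Complex.sub_re]
  constructor
  · exact mul_le_mul_of_nonneg_left (Real.exp_le_exp.2 (by linarith [e1.1, e2.2])) ht.le
  · exact mul_le_mul_of_nonneg_left (Real.exp_le_exp.2 (by linarith [e1.2, e2.1])) ht.le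

/-- integral of `Re Kg` over an arc -/
theorem TRI_int (μ : Measure ℂ) [IsFiniteMeasure μ] (hμ : OnCircle μ) {R : ℝ} (h0 : 0 ≤ R)
    (h1 : R < 1) (θ₀ ρ : ℝ) (hρ0 : 0 ≤ ρ) (hρ : ρ < π) :
    Continuous (fun θ : ℝ => (Kg μ (R * Complex.exp (θ * Complex.I))).re) ∧
    ∫ θ in (θ₀ - ρ)..(θ₀ + ρ), (Kg μ (R * Complex.exp (θ * Complex.I))).re ≤
      2 * π * μ.real univ := by
  have hmem : ∀ θ : ℝ, (R * Complex.exp (θ * Complex.I) : ℂ) ∈ ball (0:ℂ) 1 := by
    intro θ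
    rw [mem_ball_zero_iff, norm_mul, Complex.norm_exp_ofReal_mul_I, Complex.norm_real,
      Real.norm_of_nonneg h0, mul_one]
    exact h1
  have hc : Continuous (fun θ : ℝ => (Kg μ (R * Complex.exp (θ * Complex.I))).re) := by
    have h2 : Continuous (fun θ : ℝ => Kg μ (R * Complex.exp (θ * Complex.I))) :=
      (KA_diff μ hμ).continuousOn.comp_continuous (by fun_prop) hmem
    exact Complex.continuous_re.comp h2
  refine ⟨hc, ?_⟩
  have hper : Function.Periodic (fun θ : ℝ => (Kg μ (R * Complex.exp (θ * Complex.I))).re)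
      (2 * π) := by
    intro θ
    have h3 : Complex.exp (((θ + 2 * π : ℝ) : ℂ) * Complex.I) = Complex.exp (θ * Complex.I) := by
      push_cast
      rw [add_mul, Complex.exp_add, Complex.exp_two_pi_mul_I, mul_one]
    show (Kg μ (R * Complex.exp (((θ + 2 * π : ℝ) : ℂ) * Complex.I))).re = _
    rw [h3]
  have h4 := KA_mean0 (Kg μ) (KA_diff μ hμ) h0 h1
  rw [KA_zero μ hμ, Complex.ofReal_re] at h4
  have h5 := hper.intervalIntegral_add_eq (θ₀ - π) 0
  rw [zero_add, h4] at h5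
  rw [← h5]
  refine intervalIntegral.integral_mono_interval (by linarith) (by linarith) (by linarith) ?_
    (hc.intervalIntegrable _ _)
  exact Filter.Eventually.of_forall fun θ => KA_re_nonneg μ hμ (mem_ball_zero_iff.1 (hmem θ))

/-- the derivative identity -/
theorem TRI_D {t : ℝ} (ht : t ≠ 0) {P N : Measure ℂ} [IsFiniteMeasure P] [IsFiniteMeasure N]
    (cP : OnCircle P) (cN : OnCircle N) (hm : P.real univ = N.real univ) {v : ℂ → ℂ}
    (hv : ∀ z ∈ ball (0:ℂ) 1, v z = t * Complex.exp (Lg P z - Lg N z)) {z : ℂ} (hz : ‖z‖ < 1) :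
    v z ≠ 0 ∧ DifferentiableAt ℂ v z ∧ z * deriv v z / v z = -(1 / 2) * (Kg P z - Kg N z) := by
  have hz' : z ∈ ball (0:ℂ) 1 := mem_ball_zero_iff.2 hz
  have hP := (LA_hasDerivAt P cP hz).differentiableAt.hasDerivAt
  have hN := (LA_hasDerivAt N cN hz).differentiableAt.hasDerivAt
  have h1 : HasDerivAt (fun z => (t : ℂ) * Complex.exp (Lg P z - Lg N z))
      (t * (Complex.exp (Lg P z - Lg N z) * (deriv (Lg P) z - deriv (Lg N) z))) z :=
    ((hP.sub hN).cexp).const_mul _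
  have h2 : v =ᶠ[𝓝 z] fun z => (t : ℂ) * Complex.exp (Lg P z - Lg N z) := by
    filter_upwards [isOpen_ball.mem_nhds hz'] with y hy using hv y hy
  have h3 := h1.congr_of_eventuallyEq h2
  have hne : v z ≠ 0 := by
    rw [hv z hz']
    exact mul_ne_zero (by exact_mod_cast ht) (Complex.exp_ne_zero _)
  refine ⟨hne, h3.differentiableAt, ?_⟩
  rw [h3.deriv]
  have h4 := LA_kg P cP hz
  have h5 := LA_kg N cN hz
  have h6 : z * (t * (Complex.exp (Lg P z - Lg N z) * (deriv (Lg P) z - deriv (Lg N) z))) / v z =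
      z * deriv (Lg P) z - z * deriv (Lg N) z := by
    rw [div_eq_iff hne, hv z hz']
    ring
  rw [h6, h4, h5, hm]
  ring

theorem TRI {t : ℝ} {w : ℂ → ℂ} {P N P' N' : Measure ℂ} (hW : WData t w P N P' N') (θ₀ : ℝ)
    (a1 : P {Complex.exp (θ₀ * Complex.I)} = 0) (a2 : N {Complex.exp (θ₀ * Complex.I)} = 0)
    (a3 : P' {Complex.exp (θ₀ * Complex.I)} = 0) (a4 : N' {Complex.exp (θ₀ * Complex.I)} = 0)
    (p1 : Complex.exp (θ₀ * Complex.I) ∉ potInf P) (p2 : Complex.exp (θ₀ * Complex.I) ∉ potInf N)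
    (p3 : Complex.exp (θ₀ * Complex.I) ∉ potInf P') (p4 : Complex.exp (θ₀ * Complex.I) ∉ potInf N')
    (hs : Real.sin (Ag P (Complex.exp (θ₀ * Complex.I)) - Ag N (Complex.exp (θ₀ * Complex.I))) ≠ 0) :
    ∃ ρ C r₀ : ℝ, 0 < ρ ∧ ρ < π ∧ r₀ < 1 ∧ ∀ R : ℝ, r₀ < R → R < 1 →
      ∫ θ in (θ₀ - ρ)..(θ₀ + ρ),
        ‖Kg P (R * Complex.exp (θ * Complex.I)) - Kg N (R * Complex.exp (θ * Complex.I))‖ ≤ C := by
  obtain ⟨t0, t1, fP, fN, fP', fN', cP, cN, cP', cN', hm, hm', hw, hw'⟩ := hW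
  set y : ℂ := Complex.exp (θ₀ * Complex.I) with hy
  have hyn : ‖y‖ = 1 := Complex.norm_exp_ofReal_mul_I θ₀
  have ht1 : 0 < 1 - t := by linarith
  have hw'' : ∀ z ∈ ball (0:ℂ) 1, 1 - w z = ((1 - t : ℝ) : ℂ) * Complex.exp (Lg P' z - Lg N' z) := by
    intro z hz
    rw [hw' z hz]
    push_cast
    ring
  -- angles
  set A : ℂ → ℝ := fun z => Ag P z - Ag N z with hA
  set B : ℂ → ℝ := fun z => -(Ag P' z - Ag N' z) with hB
  have hAc : Tendsto A (𝓝 y) (𝓝 (A y)) :=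
    (GR_ag_cont P cP hyn a1).sub (GR_ag_cont N cN hyn a2)
  have hBc : Tendsto B (𝓝 y) (𝓝 (B y)) :=
    ((GR_ag_cont P' cP' hyn a3).sub (GR_ag_cont N' cN' hyn a4)).neg
  have hpa : ∀ z ∈ ball (0:ℂ) 1, w z = ‖w z‖ * Complex.exp (A z * Complex.I) := by
    intro z hz
    have h1 := (TRI_polar t0 (Lg P z - Lg N z)).2
    rw [← hw z hz, Complex.sub_im, LA_im P cP (mem_ball_zero_iff.1 hz),
      LA_im N cN (mem_ball_zero_iff.1 hz)] at h1
    exact h1
  have hpb : ∀ z ∈ ball (0:ℂ) 1, 1 - w z = ‖1 - w z‖ * Complex.exp (-B z * Complex.I) := by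
    intro z hz
    have h1 := (TRI_polar ht1 (Lg P' z - Lg N' z)).2
    rw [← hw'' z hz, Complex.sub_im, LA_im P' cP' (mem_ball_zero_iff.1 hz),
      LA_im N' cN' (mem_ball_zero_iff.1 hz)] at h1
    rw [show (-(B z : ℂ)) = ((Ag P' z - Ag N' z : ℝ) : ℂ) by simp [hB]]
    exact h1
  -- the point `r y`
  have hrad : Tendsto (fun r : ℝ => (r : ℂ) * y) (𝓝[<] 1) (𝓝 y) := by
    have h1 : Tendsto (fun r : ℝ => (r : ℂ) * y) (𝓝 1) (𝓝 (((1 : ℝ) : ℂ) * y)) := by
      apply Continuous.tendsto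
      fun_prop
    rw [Complex.ofReal_one, one_mul] at h1
    exact h1.mono_left nhdsWithin_le_nhds
  have hev : ∀ᶠ r : ℝ in 𝓝[<] 1, 0 ≤ r ∧ r < 1 := by
    have h1 : Ioo (0:ℝ) 1 ∈ 𝓝[<] (1:ℝ) := Ioo_mem_nhdsLT zero_lt_one
    filter_upwards [h1] with r hr using ⟨hr.1.le, hr.2⟩
  have hmem : ∀ r : ℝ, 0 ≤ r → r < 1 → (r : ℂ) * y ∈ ball (0:ℂ) 1 := by
    intro r h0 h1
    rw [mem_ball_zero_iff, norm_mul, hyn, mul_one, Complex.norm_real, Real.norm_of_nonneg h0]
    exact h1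
  obtain ⟨m, M, hm0, hM0, hmM⟩ := TRI_bd t0 cP cN hyn a1 a2 p1 p2
  obtain ⟨m₁, M₁, hm₁0, hM₁0, hmM₁⟩ := TRI_bd ht1 cP' cN' hyn a3 a4 p3 p4
  have hsa : Tendsto (fun r : ℝ => Real.sin (A (r * y))) (𝓝[<] 1) (𝓝 (Real.sin (A y))) :=
    (Real.continuous_sin.tendsto _).comp (hAc.comp hrad)
  have hsb : Tendsto (fun r : ℝ => Real.sin (B (r * y))) (𝓝[<] 1) (𝓝 (Real.sin (B y))) :=
    (Real.continuous_sin.tendsto _).comp (hBc.comp hrad)
  have hsab : Tendsto (fun r : ℝ => Real.sin (A (r * y) + B (r * y))) (𝓝[<] 1)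
      (𝓝 (Real.sin (A y + B y))) :=
    (Real.continuous_sin.tendsto _).comp ((hAc.comp hrad).add (hBc.comp hrad))
  -- local estimate
  have hloc : ∃ δ > 0, ∃ ε > 0, ∀ z ∈ ball (0:ℂ) 1, dist z y < ε → ∀ D : ℂ,
      ‖D / w z‖ ≤ (1 + 1 / δ) * |(D / w z).re| + |(D / (1 - w z)).re| / δ ^ 2 := by
    have hne1 : ∀ z ∈ ball (0:ℂ) 1, w z ≠ 0 := fun z hz => by
      rw [hw z hz]
      exact mul_ne_zero (by exact_mod_cast t0.ne') (Complex.exp_ne_zero _)
    have hne2 : ∀ z ∈ ball (0:ℂ) 1, 1 - w z ≠ 0 := fun z hz => by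
      rw [hw'' z hz]
      exact mul_ne_zero (by exact_mod_cast ht1.ne') (Complex.exp_ne_zero _)
    have hrel : ∀ r : ℝ, 0 ≤ r → r < 1 →
        ‖w (r * y)‖ * Real.sin (A (r * y) + B (r * y)) = Real.sin (B (r * y)) ∧
        ‖w (r * y)‖ * Real.sin (A (r * y)) = ‖1 - w (r * y)‖ * Real.sin (B (r * y)) ∧
        (m ≤ ‖w (r * y)‖ ∧ ‖w (r * y)‖ ≤ M) ∧ (m₁ ≤ ‖1 - w (r * y)‖ ∧ ‖1 - w (r * y)‖ ≤ M₁) := by
      intro r h0 h1
      obtain ⟨e1, -, e3⟩ := TRI_alg (hpa _ (hmem r h0 h1)) (hpb _ (hmem r h0 h1))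
      have e4 := hmM r h0 h1
      have e5 := hmM₁ r h0 h1
      rw [← hw _ (hmem r h0 h1)] at e4
      rw [← hw'' _ (hmem r h0 h1)] at e5
      exact ⟨e1, e3, e4, e5⟩
    rcases lt_or_gt_of_ne hs with hneg | hpos
    · -- negative case
      have hB0 : Real.sin (B y) < 0 := by
        have h1 : Real.sin (B y) ≤ m / M₁ * Real.sin (A y) := by
          refine le_of_tendsto_of_tendsto hsb (hsa.const_mul _) ?_
          filter_upwards [hev, hsa.eventually (gt_mem_nhds hneg)] with r hr hr2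
          obtain ⟨-, e3, ⟨e4, -⟩, ⟨e5, e6⟩⟩ := hrel r hr.1 hr.2
          have hsr : Real.sin (A (r * y)) < 0 := hr2
          have h7 : 0 < ‖1 - w (r * y)‖ := hm₁0.trans_le e5
          have h8 : Real.sin (B (r * y)) = ‖w (r * y)‖ / ‖1 - w (r * y)‖ * Real.sin (A (r * y)) := by
            field_simp
            linarith
          rw [h8]
          have h9 : m / M₁ ≤ ‖w (r * y)‖ / ‖1 - w (r * y)‖ :=
            div_le_div₀ (norm_nonneg _) e4 h7 e6
          exact mul_le_mul_of_nonpos_right h9 hsr.le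
        have h2 : m / M₁ * Real.sin (A y) < 0 := mul_neg_of_pos_of_neg (by positivity) hneg
        linarith
      have hAB0 : Real.sin (A y + B y) < 0 := by
        have h1 : Real.sin (A y + B y) ≤ M⁻¹ * Real.sin (B y) := by
          refine le_of_tendsto_of_tendsto hsab (hsb.const_mul _) ?_
          filter_upwards [hev, hsb.eventually (gt_mem_nhds hB0)] with r hr hr2
          obtain ⟨e1, -, ⟨e4, e5⟩, -⟩ := hrel r hr.1 hr.2
          have hsr : Real.sin (B (r * y)) < 0 := hr2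
          have h7 : 0 < ‖w (r * y)‖ := hm0.trans_le e4
          have h8 : Real.sin (A (r * y) + B (r * y)) = ‖w (r * y)‖⁻¹ * Real.sin (B (r * y)) := by
            rw [← e1]
            field_simp
          rw [h8]
          exact mul_le_mul_of_nonpos_right (inv_anti₀ h7 e5) hsr.le
        have h2 : M⁻¹ * Real.sin (B y) < 0 := mul_neg_of_pos_of_neg (by positivity) hB0
        linarith
      obtain ⟨δ, hδ0, hδ1, hδ2⟩ : ∃ δ : ℝ, 0 < δ ∧ δ < -Real.sin (B y) ∧
          δ < -Real.sin (A y + B y) := by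
        refine ⟨min (-Real.sin (B y)) (-Real.sin (A y + B y)) / 2, ?_, ?_, ?_⟩
        · have := lt_min (neg_pos.2 hB0) (neg_pos.2 hAB0); linarith
        · have := lt_min (neg_pos.2 hB0) (neg_pos.2 hAB0)
          have := min_le_left (-Real.sin (B y)) (-Real.sin (A y + B y)); linarith
        · have := lt_min (neg_pos.2 hB0) (neg_pos.2 hAB0)
          have := min_le_right (-Real.sin (B y)) (-Real.sin (A y + B y)); linarith
      have hc1 : Tendsto (fun z => -Real.sin (B z)) (𝓝 y) (𝓝 (-Real.sin (B y))) :=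
        ((Real.continuous_sin.tendsto _).comp hBc).neg
      have hc2 : Tendsto (fun z => -Real.sin (A z + B z)) (𝓝 y) (𝓝 (-Real.sin (A y + B y))) :=
        ((Real.continuous_sin.tendsto _).comp (hAc.add hBc)).neg
      obtain ⟨ε, hε, hball⟩ := Metric.eventually_nhds_iff.1
        ((hc1.eventually (lt_mem_nhds hδ1)).and (hc2.eventually (lt_mem_nhds hδ2)))
      refine ⟨δ, hδ0, ε, hε, fun z hz hzy D => ?_⟩
      have h3 := hball hzy
      exact TRI_lin' (hne1 z hz) (hne2 z hz) (hpa z hz) (hpb z hz) hδ0 h3.1.le h3.2.le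
    · have hB0 : 0 < Real.sin (B y) := by
        have h1 : m / M₁ * Real.sin (A y) ≤ Real.sin (B y) := by
          refine le_of_tendsto_of_tendsto (hsa.const_mul _) hsb ?_
          filter_upwards [hev, hsa.eventually (lt_mem_nhds hpos)] with r hr hr2
          obtain ⟨-, e3, ⟨e4, -⟩, ⟨e5, e6⟩⟩ := hrel r hr.1 hr.2
          have hsr : 0 < Real.sin (A (r * y)) := hr2
          have h7 : 0 < ‖1 - w (r * y)‖ := hm₁0.trans_le e5
          have h8 : Real.sin (B (r * y)) = ‖w (r * y)‖ / ‖1 - w (r * y)‖ * Real.sin (A (r * y)) := by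
            field_simp
            linarith
          rw [h8]
          have h9 : m / M₁ ≤ ‖w (r * y)‖ / ‖1 - w (r * y)‖ :=
            div_le_div₀ (norm_nonneg _) e4 h7 e6
          exact mul_le_mul_of_nonneg_right h9 hsr.le
        have h2 : 0 < m / M₁ * Real.sin (A y) := mul_pos (by positivity) hpos
        linarith
      have hAB0 : 0 < Real.sin (A y + B y) := by
        have h1 : M⁻¹ * Real.sin (B y) ≤ Real.sin (A y + B y) := by
          refine le_of_tendsto_of_tendsto (hsb.const_mul _) hsab ?_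
          filter_upwards [hev, hsb.eventually (lt_mem_nhds hB0)] with r hr hr2
          obtain ⟨e1, -, ⟨e4, e5⟩, -⟩ := hrel r hr.1 hr.2
          have hsr : 0 < Real.sin (B (r * y)) := hr2
          have h7 : 0 < ‖w (r * y)‖ := hm0.trans_le e4
          have h8 : Real.sin (A (r * y) + B (r * y)) = ‖w (r * y)‖⁻¹ * Real.sin (B (r * y)) := by
            rw [← e1]
            field_simp
          rw [h8]
          exact mul_le_mul_of_nonneg_right (inv_anti₀ h7 e5) hsr.le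
        have h2 : 0 < M⁻¹ * Real.sin (B y) := mul_pos (by positivity) hB0
        linarith
      obtain ⟨δ, hδ0, hδ1, hδ2⟩ : ∃ δ : ℝ, 0 < δ ∧ δ < Real.sin (B y) ∧
          δ < Real.sin (A y + B y) := by
        refine ⟨min (Real.sin (B y)) (Real.sin (A y + B y)) / 2, ?_, ?_, ?_⟩
        · have := lt_min hB0 hAB0; linarith
        · have := lt_min hB0 hAB0
          have := min_le_left (Real.sin (B y)) (Real.sin (A y + B y)); linarith
        · have := lt_min hB0 hAB0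
          have := min_le_right (Real.sin (B y)) (Real.sin (A y + B y)); linarith
      have hc1 : Tendsto (fun z => Real.sin (B z)) (𝓝 y) (𝓝 (Real.sin (B y))) :=
        (Real.continuous_sin.tendsto _).comp hBc
      have hc2 : Tendsto (fun z => Real.sin (A z + B z)) (𝓝 y) (𝓝 (Real.sin (A y + B y))) :=
        (Real.continuous_sin.tendsto _).comp (hAc.add hBc)
      obtain ⟨ε, hε, hball⟩ := Metric.eventually_nhds_iff.1
        ((hc1.eventually (lt_mem_nhds hδ1)).and (hc2.eventually (lt_mem_nhds hδ2)))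
      refine ⟨δ, hδ0, ε, hε, fun z hz hzy D => ?_⟩
      have h3 := hball hzy
      exact TRI_lin (hne1 z hz) (hne2 z hz) (hpa z hz) (hpb z hz) hδ0 h3.1.le h3.2.le
  obtain ⟨δ, hδ, ε, hε, hest⟩ := hloc
  -- pointwise bound
  have hpt : ∀ z ∈ ball (0:ℂ) 1, dist z y < ε → ‖Kg P z - Kg N z‖ ≤
      (1 + 1 / δ) * ((Kg P z).re + (Kg N z).re) + ((Kg P' z).re + (Kg N' z).re) / δ ^ 2 := by
    intro z hz hzy
    have hz1 := mem_ball_zero_iff.1 hz
    obtain ⟨h1, h2, h3⟩ := TRI_D t0.ne' cP cN hm hw hz1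
    obtain ⟨h4, -, h5⟩ := TRI_D (v := fun z => 1 - w z) ht1.ne' cP' cN' hm' hw'' hz1
    have h6 : deriv (fun z => 1 - w z) z = -deriv w z := by
      rw [deriv_const_sub]
    rw [h6] at h5
    have h7 := hest z hz hzy (z * deriv w z)
    have h8 : z * deriv w z / (1 - w z) = 1 / 2 * (Kg P' z - Kg N' z) := by
      have : z * -deriv w z / (1 - w z) = -(z * deriv w z / (1 - w z)) := by ring
      rw [this] at h5
      linear_combination -h5
    rw [h3, h8] at h7
    have n1 : ‖-(1 / 2) * (Kg P z - Kg N z)‖ = 1 / 2 * ‖Kg P z - Kg N z‖ := by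
      rw [norm_mul]
      norm_num
    have n2 : (-(1 / 2) * (Kg P z - Kg N z)).re = -(1 / 2) * ((Kg P z).re - (Kg N z).re) := by
      rw [show (-(1 / 2) : ℂ) = ((-(1 / 2) : ℝ) : ℂ) by push_cast; ring, Complex.re_ofReal_mul,
        Complex.sub_re]
    have n3 : (1 / 2 * (Kg P' z - Kg N' z)).re = 1 / 2 * ((Kg P' z).re - (Kg N' z).re) := by
      rw [show (1 / 2 : ℂ) = ((1 / 2 : ℝ) : ℂ) by push_cast; ring, Complex.re_ofReal_mul,
        Complex.sub_re]
    rw [n1, n2, n3, abs_mul, abs_mul] at h7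
    have q1 := KA_re_nonneg P cP hz1
    have q2 := KA_re_nonneg N cN hz1
    have q3 := KA_re_nonneg P' cP' hz1
    have q4 := KA_re_nonneg N' cN' hz1
    have b1 : |(Kg P z).re - (Kg N z).re| ≤ (Kg P z).re + (Kg N z).re := by
      rw [abs_le]; constructor <;> linarith
    have b2 : |(Kg P' z).re - (Kg N' z).re| ≤ (Kg P' z).re + (Kg N' z).re := by
      rw [abs_le]; constructor <;> linarith
    have c1 : (1 + 1 / δ) * (|-(1 / 2 : ℝ)| * |(Kg P z).re - (Kg N z).re|) ≤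
        (1 + 1 / δ) * (1 / 2 * ((Kg P z).re + (Kg N z).re)) := by
      rw [abs_neg, abs_of_pos (by norm_num : (0:ℝ) < 1 / 2)]
      have : 0 ≤ 1 + 1 / δ := by positivity
      exact mul_le_mul_of_nonneg_left (by linarith) this
    have c2 : |(1 / 2 : ℝ)| * |(Kg P' z).re - (Kg N' z).re| / δ ^ 2 ≤
        1 / 2 * ((Kg P' z).re + (Kg N' z).re) / δ ^ 2 := by
      rw [abs_of_pos (by norm_num : (0:ℝ) < 1 / 2)]
      exact div_le_div_of_nonneg_right (by linarith) (by positivity)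
    have h9 : 1 / 2 * ‖Kg P z - Kg N z‖ ≤
        (1 + 1 / δ) * (1 / 2 * ((Kg P z).re + (Kg N z).re)) +
        1 / 2 * ((Kg P' z).re + (Kg N' z).re) / δ ^ 2 := by linarith
    have h10 : (1 + 1 / δ) * (1 / 2 * ((Kg P z).re + (Kg N z).re)) +
        1 / 2 * ((Kg P' z).re + (Kg N' z).re) / δ ^ 2 = 1 / 2 * ((1 + 1 / δ) *
        ((Kg P z).re + (Kg N z).re) + ((Kg P' z).re + (Kg N' z).re) / δ ^ 2) := by ring
    rw [h10] at h9
    linarith
  -- integration
  set ρ : ℝ := min (ε / 2) 1 with hρ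
  have hρ0 : 0 < ρ := lt_min (by linarith) one_pos
  have hρ1 : ρ < π := (min_le_right _ _).trans_lt (by linarith [Real.pi_gt_three])
  refine ⟨ρ, (1 + 1 / δ) * (2 * π * P.real univ + 2 * π * N.real univ) +
    (2 * π * P'.real univ + 2 * π * N'.real univ) / δ ^ 2, max 0 (1 - ε / 2), hρ0, hρ1,
    max_lt zero_lt_one (by linarith), fun R hR0 hR1 => ?_⟩
  have hR : 0 ≤ R := (le_max_left _ _).trans hR0.le
  have hRε : 1 - R < ε / 2 := by
    have := (le_max_right 0 (1 - ε / 2)).trans_lt hR0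
    linarith
  have hmemR : ∀ θ : ℝ, (R * Complex.exp (θ * Complex.I) : ℂ) ∈ ball (0:ℂ) 1 := by
    intro θ
    rw [mem_ball_zero_iff, norm_mul, Complex.norm_exp_ofReal_mul_I, Complex.norm_real,
      Real.norm_of_nonneg hR, mul_one]
    exact hR1
  have hdist : ∀ θ ∈ Icc (θ₀ - ρ) (θ₀ + ρ), dist (R * Complex.exp (θ * Complex.I)) y < ε := by
    intro θ hθ
    have h1 : dist (R * Complex.exp (θ * Complex.I)) (Complex.exp (θ * Complex.I)) = 1 - R := by
      rw [dist_eq_norm, show (R : ℂ) * Complex.exp (θ * Complex.I) - Complex.exp (θ * Complex.I) =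
        ((R - 1 : ℝ) : ℂ) * Complex.exp (θ * Complex.I) by push_cast; ring, norm_mul,
        Complex.norm_exp_ofReal_mul_I, Complex.norm_real, mul_one, Real.norm_eq_abs,
        abs_of_neg (by linarith)]
      ring
    have h2 : dist (Complex.exp (θ * Complex.I)) y ≤ |θ - θ₀| := by
      rw [dist_eq_norm, hy]
      have h3 : Complex.exp (θ * Complex.I) - Complex.exp (θ₀ * Complex.I) =
          Complex.exp (θ₀ * Complex.I) * (Complex.exp (Complex.I * (θ - θ₀ : ℝ)) - 1) := by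
        rw [mul_sub, ← Complex.exp_add, mul_one]
        congr 2
        push_cast
        ring
      rw [h3, norm_mul, Complex.norm_exp_ofReal_mul_I, one_mul]
      exact Real.norm_exp_I_mul_ofReal_sub_one_le
    have h4 : |θ - θ₀| ≤ ρ := by
      rw [abs_le]; constructor <;> linarith [hθ.1, hθ.2]
    have h5 : ρ ≤ ε / 2 := min_le_left _ _
    calc dist (R * Complex.exp (θ * Complex.I)) y ≤ (1 - R) + |θ - θ₀| := by
          rw [← h1]; exact (dist_triangle _ _ _).trans (by linarith)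
      _ < ε := by linarith
  obtain ⟨i1, j1⟩ := TRI_int P cP hR hR1 θ₀ ρ hρ0.le hρ1
  obtain ⟨i2, j2⟩ := TRI_int N cN hR hR1 θ₀ ρ hρ0.le hρ1
  obtain ⟨i3, j3⟩ := TRI_int P' cP' hR hR1 θ₀ ρ hρ0.le hρ1
  obtain ⟨i4, j4⟩ := TRI_int N' cN' hR hR1 θ₀ ρ hρ0.le hρ1
  have hKc : ∀ (μ : Measure ℂ) [IsFiniteMeasure μ], OnCircle μ →
      Continuous (fun θ : ℝ => Kg μ (R * Complex.exp (θ * Complex.I))) := by
    intro μ _ hμ
    exact (KA_diff μ hμ).continuousOn.comp_continuous (by fun_prop) hmemR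
  have hcont : Continuous (fun θ : ℝ =>
      ‖Kg P (R * Complex.exp (θ * Complex.I)) - Kg N (R * Complex.exp (θ * Complex.I))‖) :=
    ((hKc P cP).sub (hKc N cN)).norm
  have hbound : ∫ θ in (θ₀ - ρ)..(θ₀ + ρ),
        ‖Kg P (R * Complex.exp (θ * Complex.I)) - Kg N (R * Complex.exp (θ * Complex.I))‖ ≤
      ∫ θ in (θ₀ - ρ)..(θ₀ + ρ), ((1 + 1 / δ) * ((Kg P (R * Complex.exp (θ * Complex.I))).re +
        (Kg N (R * Complex.exp (θ * Complex.I))).re) +
        ((Kg P' (R * Complex.exp (θ * Complex.I))).re +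
        (Kg N' (R * Complex.exp (θ * Complex.I))).re) / δ ^ 2) := by
    refine intervalIntegral.integral_mono_on (by linarith) (hcont.intervalIntegrable _ _) ?_
      fun θ hθ => hpt _ (hmemR θ) (hdist θ hθ)
    apply Continuous.intervalIntegrable
    exact (continuous_const.mul (i1.add i2)).add ((i3.add i4).div_const _)
  refine hbound.trans ?_
  rw [intervalIntegral.integral_add, intervalIntegral.integral_const_mul,
    intervalIntegral.integral_div, intervalIntegral.integral_add (i1.intervalIntegrable _ _)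
      (i2.intervalIntegrable _ _), intervalIntegral.integral_add (i3.intervalIntegrable _ _)
      (i4.intervalIntegrable _ _)]
  · have hδ' : 0 ≤ 1 + 1 / δ := by positivity
    refine add_le_add (mul_le_mul_of_nonneg_left (by linarith) hδ')
      (div_le_div_of_nonneg_right (by linarith) (by positivity))
  · exact (continuous_const.mul (i1.add i2)).intervalIntegrable _ _
  · exact ((i3.add i4).div_const _).intervalIntegrable _ _

end

end Pool.H90.VK
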