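import Pool.Agent.H90.VK.ZD

/-!
# ZB : a bounded analytic function is the Schwarz integral of its boundary function

Let `Y` be analytic on the disc, `|Y| ≤ 1`, `y : ℝ → ℂ` measurable, `|y| ≤ 1`, and
`∫_{-π}^{π} |Y(re^{iθ}) - y(θ)| dθ → 0` as `r → 1-`. Then `Y z = Sg (Re y) z + i Im Y(0)` for `|z| < 1`.

Proof. For `r < 1`, `Y_r(z) = Y(rz)` is analytic near the closed disc, so by the Poisson formula
(Mathlib `DiffContOnCl.circleAverage_re_herglotzRieszKernel_smul'`)
`Re Y_r(z) = (1/2π)∫ Re((e^{it}+z)/(e^{it}-z)) Re Y(re^{it}) dt = Re Sg (Re Y_r) z`. Let `r → 1`: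
the kernel is bounded for fixed `z`, so `Re Y(z) = Re Sg (Re y) z`. The analytic function
`Y - Sg (Re y)` has zero real part on the disc, so it is constant (open mapping /
`AnalyticOnNhd.eqOn_of...`, or Cauchy–Riemann), and its value at 0 is `i Im Y(0)` since
`Sg (Re y) 0` is real.
Consequence: `|Im Sg (Re y) z| ≤ 2`.
-/

open MeasureTheory Set Filter Topology Metric
open scoped Real ENNReal ComplexConjugate

namespace Pool.H90.VK

noncomputable section

/-- an analytic function on the disc with zero real part is constant -/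
theorem ZB_const (H : ℂ → ℂ) (hH : DifferentiableOn ℂ H (ball (0 : ℂ) 1))
    (h : ∀ z ∈ ball (0 : ℂ) 1, (H z).re = 0) : ∀ z ∈ ball (0 : ℂ) 1, H z = H 0 := by
  have h1 : AnalyticOnNhd ℂ H (ball (0 : ℂ) 1) := hH.analyticOnNhd isOpen_ball
  obtain ⟨c, hc⟩ := h1.eq_const_of_re_eq_const (c₀ := 0) h isOpen_ball
    ⟨⟨0, mem_ball_self one_pos⟩, (convex_ball (0 : ℂ) 1).isPreconnected⟩
  intro z hz
  rw [hc z hz, hc 0 (mem_ball_self one_pos)]

def ZB_K (w : ℂ) (t : ℝ) : ℂ := (Complex.exp (t * Complex.I) + w) / (Complex.exp (t * Complex.I) - w)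

theorem ZB_den {w : ℂ} (hw : ‖w‖ < 1) (t : ℝ) : 1 - ‖w‖ ≤ ‖Complex.exp (t * Complex.I) - w‖ := by
  have h1 := norm_sub_norm_le (Complex.exp (t * Complex.I)) w
  rw [Complex.norm_exp_ofReal_mul_I] at h1
  exact h1

theorem ZB_ne {w : ℂ} (hw : ‖w‖ < 1) (t : ℝ) : Complex.exp (t * Complex.I) - w ≠ 0 := by
  have h1 := ZB_den hw t
  intro h
  rw [h, norm_zero] at h1
  linarith

theorem ZB_K_cont {w : ℂ} (hw : ‖w‖ < 1) : Continuous (ZB_K w) := by
  unfold ZB_K
  refine Continuous.div (by fun_prop) (by fun_prop) (ZB_ne hw)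

theorem ZB_K_bd {w : ℂ} (hw : ‖w‖ < 1) (t : ℝ) : ‖ZB_K w t‖ ≤ 2 / (1 - ‖w‖) := by
  unfold ZB_K
  rw [norm_div]
  have h1 := ZB_den hw t
  have h2 : ‖Complex.exp (t * Complex.I) + w‖ ≤ 2 := by
    have := norm_add_le (Complex.exp (t * Complex.I)) w
    rw [Complex.norm_exp_ofReal_mul_I] at this
    linarith
  exact div_le_div₀ (by norm_num) h2 (by linarith) h1

theorem ZB_int {f : ℝ → ℂ} (hf : Measurable f) {C : ℝ} (hC : ∀ t, ‖f t‖ ≤ C) :
    IntervalIntegrable f volume (-π) π := by
  rw [intervalIntegrable_iff]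
  refine Measure.integrableOn_of_bounded (M := C) ?_ hf.aestronglyMeasurable
    (ae_of_all _ hC)
  rw [uIoc_of_le (by linarith [Real.pi_pos])]
  simp

theorem ZB_avg (F : ℂ → ℂ) : Real.circleAverage F 0 1 =
    (1 / (2 * π)) * ∫ t in (-π : ℝ)..π, F (Complex.exp (t * Complex.I)) := by
  rw [Real.circleAverage_def]
  have h1 : ∀ θ : ℝ, circleMap 0 1 θ = Complex.exp (θ * Complex.I) := by
    intro θ; simp [circleMap]
  simp only [h1]
  have h2 : Function.Periodic (fun θ : ℝ => F (Complex.exp (θ * Complex.I))) (2 * π) := by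
    intro θ
    have h3 : Complex.exp ((θ + 2 * π : ℝ) * Complex.I) = Complex.exp (θ * Complex.I) := by
      have h4 : ((θ + 2 * π : ℝ) : ℂ) * Complex.I = θ * Complex.I + 2 * π * Complex.I := by
        push_cast; ring
      rw [h4, Complex.exp_periodic]
    show F (Complex.exp ((θ + 2 * π : ℝ) * Complex.I)) = F (Complex.exp (θ * Complex.I))
    rw [h3]
  have h3 := h2.intervalIntegral_add_eq 0 (-π)
  rw [zero_add] at h3
  have h4 : -π + 2 * π = π := by ring
  rw [h4] at h3
  rw [h3]
  rw [Complex.real_smul]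
  push_cast
  rw [one_div]

theorem ZB_Sg_avg {g : ℝ → ℝ} (z : ℂ) : Sg g z = Real.circleAverage
    (fun ζ => herglotzRieszKernel 0 z ζ • ((g (Complex.arg ζ) : ℝ) : ℂ)) 0 1 := by
  rw [ZB_avg, Sg]
  congr 1
  refine intervalIntegral.integral_congr_ae ?_
  refine ae_of_all _ fun t ht => ?_
  rw [uIoc_of_le (by linarith [Real.pi_pos])] at ht
  have h1 : Complex.arg (Complex.exp (t * Complex.I)) = t := by
    rw [Complex.arg_exp_mul_I, toIocMod_eq_self]
    have : -π + 2 * π = π := by ring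
    rw [this]
    exact ht
  rw [h1, herglotzRieszKernel_def, smul_eq_mul, mul_comm]
  simp

theorem ZB_Sg_diff {g : ℝ → ℝ} (hg : Measurable g) {C : ℝ} (hC : ∀ t, |g t| ≤ C) :
    DifferentiableOn ℂ (Sg g) (ball (0 : ℂ) 1) := by
  have h1 : Sg g = fun z => Real.circleAverage
    (fun ζ => herglotzRieszKernel 0 z ζ • ((g (Complex.arg ζ) : ℝ) : ℂ)) 0 1 :=
    funext fun z => ZB_Sg_avg z
  rw [h1]
  apply differentiableOn_circleAverage_herglotzRieszKernel_smul
  unfold CircleIntegrable
  rw [intervalIntegrable_iff]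
  refine Measure.integrableOn_of_bounded (M := C) ?_ ?_ (ae_of_all _ fun t => ?_)
  · rw [uIoc_of_le (by linarith [Real.pi_pos]), Real.volume_Ioc]
    exact ENNReal.ofReal_ne_top
  · have h2 : Measurable (fun θ : ℝ => ((g (Complex.arg (circleMap 0 1 θ)) : ℝ) : ℂ)) :=
      Complex.measurable_ofReal.comp (hg.comp (Complex.measurable_arg.comp
        (continuous_circleMap 0 1).measurable))
    exact h2.aestronglyMeasurable
  · rw [Complex.norm_real, Real.norm_eq_abs]
    exact hC _

theorem ZB (Y : ℂ → ℂ) (hY : DifferentiableOn ℂ Y (ball (0 : ℂ) 1))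
    (hb : ∀ z ∈ ball (0 : ℂ) 1, ‖Y z‖ ≤ 1) (y : ℝ → ℂ) (hy : Measurable y) (hy1 : ∀ t, ‖y t‖ ≤ 1)
    (h : Tendsto (fun r : ℝ => ∫ θ in (-π : ℝ)..π, ‖Y (r * Complex.exp (θ * Complex.I)) - y θ‖)
      (𝓝[<] 1) (𝓝 0)) :
    ∀ z ∈ ball (0 : ℂ) 1, Y z = Sg (fun t => (y t).re) z + Complex.I * (Y 0).im := by
  have hpi : (-π : ℝ) ≤ π := by linarith [Real.pi_pos]
  have hπ0 : (2 * (π : ℂ)) ≠ 0 := by
    have := Real.pi_ne_zero
    exact_mod_cast (mul_ne_zero two_ne_zero this)
  -- Poisson formula for `Y`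
  have hP : ∀ w ∈ ball (0 : ℂ) 1, Y w = (1 / (2 * π)) *
      ∫ t in (-π : ℝ)..π, ((ZB_K w t).re : ℂ) * y t := by
    intro w hw
    have hw' : ‖w‖ < 1 := mem_ball_zero_iff.1 hw
    set M := 2 / (1 - ‖w‖) with hM
    have hM0 : 0 ≤ M := div_nonneg (by norm_num) (by linarith)
    have hKre : ∀ t, ‖((ZB_K w t).re : ℂ)‖ ≤ M := fun t => by
      rw [Complex.norm_real, Real.norm_eq_abs]
      exact (Complex.abs_re_le_norm _).trans (ZB_K_bd hw' t)
    have hKm : Continuous (fun t => ((ZB_K w t).re : ℂ)) :=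
      Complex.continuous_ofReal.comp (Complex.continuous_re.comp (ZB_K_cont hw'))
    have hYr : ∀ r : ℝ, 0 < r → r < 1 → Y (r * w) = (1 / (2 * π)) *
        ∫ t in (-π : ℝ)..π, ((ZB_K w t).re : ℂ) * Y (r * Complex.exp (t * Complex.I)) := by
      intro r hr0 hr1
      have hd : DiffContOnCl ℂ (fun z => Y (r * z)) (ball (0 : ℂ) 1) := by
        apply DifferentiableOn.diffContOnCl
        rw [closure_ball (0 : ℂ) one_ne_zero]
        refine hY.comp (by fun_prop) ?_
        intro z hz
        rw [mem_ball_zero_iff, norm_mul, Complex.norm_real, Real.norm_of_nonneg hr0.le]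
        rw [mem_closedBall_zero_iff] at hz
        nlinarith [norm_nonneg z]
      have h1 := hd.circleAverage_re_herglotzRieszKernel_smul' hw
      rw [ZB_avg] at h1
      rw [← h1]
      congr 1
      refine intervalIntegral.integral_congr fun t _ => ?_
      simp only [sub_zero, Complex.real_smul]
      rfl
    have hcY : ∀ r : ℝ, 0 < r → r < 1 →
        Continuous (fun t : ℝ => Y (r * Complex.exp (t * Complex.I))) := by
      intro r hr0 hr1
      refine hY.continuousOn.comp_continuous (by fun_prop) fun t => ?_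
      rw [mem_ball_zero_iff, norm_mul, Complex.norm_exp_ofReal_mul_I, mul_one, Complex.norm_real,
        Real.norm_of_nonneg hr0.le]
      exact hr1
    have hmy : Measurable (fun t => ((ZB_K w t).re : ℂ) * y t) := hKm.measurable.mul hy
    have iy : IntervalIntegrable (fun t => ((ZB_K w t).re : ℂ) * y t) volume (-π) π :=
      ZB_int hmy (C := M * 1) fun t => by
        rw [norm_mul]
        exact mul_le_mul (hKre t) (hy1 t) (norm_nonneg _) hM0
    have hev : ∀ᶠ r : ℝ in 𝓝[<] 1, 0 < r ∧ r < 1 := by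
      have h1 : Ioo (0 : ℝ) 1 ∈ 𝓝[<] (1 : ℝ) := Ioo_mem_nhdsLT one_pos
      exact h1
    have hlim2 : Tendsto (fun r : ℝ => ∫ t in (-π : ℝ)..π,
        ((ZB_K w t).re : ℂ) * Y (r * Complex.exp (t * Complex.I))) (𝓝[<] 1)
        (𝓝 (∫ t in (-π : ℝ)..π, ((ZB_K w t).re : ℂ) * y t)) := by
      rw [tendsto_iff_norm_sub_tendsto_zero]
      have h2 := h.const_mul M
      rw [mul_zero] at h2
      refine squeeze_zero' (Eventually.of_forall fun _ => norm_nonneg _) ?_ h2
      filter_upwards [hev] with r hr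
      have iY : IntervalIntegrable (fun t : ℝ => ((ZB_K w t).re : ℂ) *
          Y (r * Complex.exp (t * Complex.I))) volume (-π) π :=
        (hKm.mul (hcY r hr.1 hr.2)).intervalIntegrable _ _
      rw [← intervalIntegral.integral_sub iY iy]
      refine (intervalIntegral.norm_integral_le_integral_norm hpi).trans ?_
      rw [← intervalIntegral.integral_const_mul]
      refine intervalIntegral.integral_mono_on hpi ?_ ?_ ?_
      · exact (iY.sub iy).norm
      · have i1 : IntervalIntegrable (fun t : ℝ => Y (r * Complex.exp (t * Complex.I)) - y t)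
            volume (-π) π :=
          ((hcY r hr.1 hr.2).intervalIntegrable _ _).sub (ZB_int hy hy1)
        exact i1.norm.const_mul M
      · intro t _
        rw [← mul_sub, norm_mul]
        exact mul_le_mul_of_nonneg_right (hKre t) (norm_nonneg _)
    have hlim1 : Tendsto (fun r : ℝ => Y (r * w)) (𝓝[<] 1) (𝓝 (Y w)) := by
      have h1 : ContinuousAt Y w := hY.continuousOn.continuousAt (isOpen_ball.mem_nhds hw)
      have h2 : Tendsto (fun r : ℝ => (r : ℂ) * w) (𝓝[<] 1) (𝓝 w) := by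
        have h3 : Continuous (fun r : ℝ => (r : ℂ) * w) := by fun_prop
        have h4 := h3.tendsto 1
        rw [Complex.ofReal_one, one_mul] at h4
        exact h4.mono_left nhdsWithin_le_nhds
      exact h1.tendsto.comp h2
    have hlim3 := hlim2.const_mul (1 / (2 * (π : ℂ)))
    refine tendsto_nhds_unique hlim1 (hlim3.congr' ?_)
    filter_upwards [hev] with r hr
    exact (hYr r hr.1 hr.2).symm
  -- the real parts agree
  have hgm : Measurable (fun t => (y t).re) := Complex.measurable_re.comp hy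
  have hg1 : ∀ t, |(y t).re| ≤ 1 := fun t => (Complex.abs_re_le_norm _).trans (hy1 t)
  have hSd := ZB_Sg_diff hgm hg1
  have hre : ∀ z ∈ ball (0 : ℂ) 1, (Y z - Sg (fun t => (y t).re) z).re = 0 := by
    intro w hw
    have hw' : ‖w‖ < 1 := mem_ball_zero_iff.1 hw
    have hK2 : ∀ t, ‖ZB_K w t‖ ≤ 2 / (1 - ‖w‖) := ZB_K_bd hw'
    have hM0 : 0 ≤ 2 / (1 - ‖w‖) := div_nonneg (by norm_num) (by linarith)
    have i1 : IntervalIntegrable (fun t => ((ZB_K w t).re : ℂ) * y t) volume (-π) π :=
      ZB_int ((Complex.continuous_ofReal.comp (Complex.continuous_re.comp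
        (ZB_K_cont hw'))).measurable.mul hy) (C := 2 / (1 - ‖w‖) * 1) fun t => by
        rw [norm_mul, Complex.norm_real, Real.norm_eq_abs]
        exact mul_le_mul ((Complex.abs_re_le_norm _).trans (hK2 t)) (hy1 t) (norm_nonneg _) hM0
    have i2 : IntervalIntegrable (fun t => (((y t).re : ℝ) : ℂ) * ZB_K w t) volume (-π) π :=
      ZB_int ((Complex.measurable_ofReal.comp hgm).mul (ZB_K_cont hw').measurable)
        (C := 1 * (2 / (1 - ‖w‖))) fun t => by
        rw [norm_mul, Complex.norm_real, Real.norm_eq_abs]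
        exact mul_le_mul (hg1 t) (hK2 t) (norm_nonneg _) zero_le_one
    have e1 := Complex.reCLM.intervalIntegral_comp_comm i1
    have e2 := Complex.reCLM.intervalIntegral_comp_comm i2
    simp only [Complex.reCLM_apply] at e1 e2
    have e3 : Sg (fun t => (y t).re) w = (1 / (2 * π)) *
        ∫ t in (-π : ℝ)..π, (((y t).re : ℝ) : ℂ) * ZB_K w t := rfl
    have e4 : (1 / (2 * (π : ℂ))) = ((1 / (2 * π) : ℝ) : ℂ) := by push_cast; rfl
    rw [hP w hw, e3, ← mul_sub, e4, Complex.re_ofReal_mul, Complex.sub_re, ← e1, ← e2]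
    have e5 : ∀ t, (((ZB_K w t).re : ℂ) * y t).re = ((((y t).re : ℝ) : ℂ) * ZB_K w t).re := by
      intro t
      simp only [Complex.re_ofReal_mul]
      ring
    simp only [e5]
    ring
  intro z hz
  have h1 := ZB_const (fun z => Y z - Sg (fun t => (y t).re) z) (hY.sub hSd) hre z hz
  have h2 : (Sg (fun t => (y t).re) 0).im = 0 := by
    have h3 : Sg (fun t => (y t).re) 0 = (((1 / (2 * π)) * ∫ t in (-π : ℝ)..π, (y t).re : ℝ) : ℂ) := by
      rw [Sg]
      push_cast
      congr 1
      rw [← intervalIntegral.integral_ofReal]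
      refine intervalIntegral.integral_congr fun t _ => ?_
      simp only [add_zero, sub_zero]
      rw [div_self (Complex.exp_ne_zero _), mul_one]
    rw [h3, Complex.ofReal_im]
  have h4 : Y 0 - Sg (fun t => (y t).re) 0 = Complex.I * (Y 0).im := by
    apply Complex.ext
    · rw [hre 0 (mem_ball_self one_pos)]
      simp
    · rw [Complex.sub_im, h2]
      simp
  have h5 : Y z - Sg (fun t => (y t).re) z = Complex.I * (Y 0).im := h1.trans h4
  linear_combination h5

end

end Pool.H90.VK
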