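import Pool.Agent.H90.VK.ZA
import Pool.Agent.H90.VK.ZB

/-!
# ZC : the lock function on the circle

Let `E ⊂ (0, π)` be measurable with positive Lebesgue measure. There are `τ ∈ E` and a measurable
`e : ℝ → ℝ`, odd on `(-π, π)`, with `0 ≤ e ≤ 1` on `(0,π)`, `e = 0` on `(0,π) \ E` and at `0`, `±π` and
outside `[-π,π]`, `(1/s) ∫_{τ-s}^{τ+s} (1 - e) → 0` as `s ↓ 0`, and `|Im Sg e z| ≤ 2` on the disc.

Proof. `o = 1_E - 1_{-E}`, `X = Sg o`: `|Re X| ≤ 1` (`ZA_re_bound`), `X(conj z) = - conj X(z)`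
(substitute `t → -t`). Let `x` be its boundary function (`ZA`), `Re x = o` a.e. By the Lebesgue
differentiation theorem (`IsUnifLocDoublingMeasure.ae_tendsto_average_norm_sub` or
`Besicovitch`/`VitaliFamily.ae_tendsto_average_norm_sub`) a.e. `τ` is a Lebesgue
point of `x`; choose such `τ ∈ E` with `Re x(τ) = 1`; let `x(τ) = 1 + i η₀`:
`(1/s)∫_{τ-s}^{τ+s} |x - (1+iη₀)| → 0`.
Let `Υ(X) = tan ((π/4)(X - iη₀))` on the closed strip `|Re X| ≤ 1`. Facts on `tan w`, `|Re w| ≤ π/4`:
`|cos w|² = cos²(Re w) + sinh²(Im w) ≥ 1/2`, `|sin w|² = sin²(Re w) + sinh²(Im w) ≤ |cos w|²`, so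
`|tan w| ≤ 1`; `tan' = 1/cos² `, so `tan` is 2-Lipschitz on the (convex) strip and `Υ` is
`(π/2)`-Lipschitz; `tan w` is purely imaginary if `Re w = 0`;
`Re tan w = sin(2 Re w)/(2|cos w|²)` has the sign of `Re w`; `tan(-conj w) = -conj (tan w)`; `tan(π/4) = 1`.
`Y = Υ ∘ X` is analytic on the disc, `|Y| ≤ 1`. Let `y = Υ(x)` (where `Re x = o`, and `0` elsewhere):
`∫|Y(re^{iθ}) - y| ≤ (π/2) ∫ |X(re^{iθ}) - x| → 0`. `ZB`: `Y = Sg (Re y) + i Im Y(0)`, so
`|Im Sg (Re y)| ≤ 2`.
`Re y ≥ 0` a.e. on `(0,π)` (`Re x = o ∈ {0,1}`), `Re y = 0` a.e. on `(0,π)\E`, `|Re y| ≤ 1`. Oddness a.e.: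
`X(conj z) = -conj X(z)` gives `x(-θ) = -conj x(θ)` a.e., `Re y(-θ) = - Re y(θ)` a.e.
Let `e` be the everywhere defined version: `e(t) = Re y(t)` on `(0,π) ∩ E` where `0 ≤ Re y(t) ≤ 1`,
else `0` on `(0,π)`, extended oddly; `e = Re y` a.e. on `(-π, π]` so `Sg e = Sg (Re y)`.
Finally `1 - e ≤ |1 - y| = |Υ(1+iη₀) - Υ(x)| ≤ (π/2)|x - (1+iη₀)|` a.e. on `(0,π)`.
-/

open MeasureTheory Set Filter Topology Metric
open scoped Real ENNReal ComplexConjugate

namespace Pool.H90.VK

noncomputable section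

theorem ZC_cos_re (w : ℂ) : (Complex.cos w).re = Real.cos w.re * Real.cosh w.im ∧
    (Complex.cos w).im = - (Real.sin w.re * Real.sinh w.im) ∧
    (Complex.sin w).re = Real.sin w.re * Real.cosh w.im ∧
    (Complex.sin w).im = Real.cos w.re * Real.sinh w.im := by
  rw [Complex.cos_eq w, Complex.sin_eq w, ← Complex.ofReal_cos, ← Complex.ofReal_sin,
    ← Complex.ofReal_cosh, ← Complex.ofReal_sinh]
  refine ⟨?_, ?_, ?_, ?_⟩ <;>
    simp [-Complex.ofReal_cos, -Complex.ofReal_sin, -Complex.ofReal_cosh, -Complex.ofReal_sinh]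

theorem ZC_normSq_cos (w : ℂ) : Complex.normSq (Complex.cos w) =
    Real.cos w.re ^ 2 + Real.sinh w.im ^ 2 := by
  obtain ⟨h1, h2, -, -⟩ := ZC_cos_re w
  rw [Complex.normSq_apply, h1, h2]
  have e1 := Real.sin_sq_add_cos_sq w.re
  have e2 := Real.cosh_sq w.im
  have e1' : Real.sin w.re ^ 2 = 1 - Real.cos w.re ^ 2 := by linarith
  calc Real.cos w.re * Real.cosh w.im * (Real.cos w.re * Real.cosh w.im) +
      -(Real.sin w.re * Real.sinh w.im) * -(Real.sin w.re * Real.sinh w.im)
      = Real.cos w.re ^ 2 * Real.cosh w.im ^ 2 + Real.sin w.re ^ 2 * Real.sinh w.im ^ 2 := by ring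
    _ = _ := by rw [e2, e1']; ring

theorem ZC_normSq_sin (w : ℂ) : Complex.normSq (Complex.sin w) =
    Real.sin w.re ^ 2 + Real.sinh w.im ^ 2 := by
  obtain ⟨-, -, h1, h2⟩ := ZC_cos_re w
  rw [Complex.normSq_apply, h1, h2]
  have e1 := Real.sin_sq_add_cos_sq w.re
  have e2 := Real.cosh_sq w.im
  have e1' : Real.cos w.re ^ 2 = 1 - Real.sin w.re ^ 2 := by linarith
  calc Real.sin w.re * Real.cosh w.im * (Real.sin w.re * Real.cosh w.im) +
      (Real.cos w.re * Real.sinh w.im) * (Real.cos w.re * Real.sinh w.im)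
      = Real.sin w.re ^ 2 * Real.cosh w.im ^ 2 + Real.cos w.re ^ 2 * Real.sinh w.im ^ 2 := by ring
    _ = _ := by rw [e2, e1']; ring

theorem ZC_cos_sq (a : ℝ) (h : |a| ≤ π / 4) : 1 / 2 ≤ Real.cos a ^ 2 := by
  have h1 : Real.cos (π / 4) ≤ Real.cos a := by
    rw [← Real.cos_abs a]
    apply Real.cos_le_cos_of_nonneg_of_le_pi (abs_nonneg _) _ h
    linarith [Real.pi_pos]
  have h2 : Real.cos (π / 4) ^ 2 = 1 / 2 := by
    rw [Real.cos_pi_div_four, div_pow, Real.sq_sqrt (by norm_num)]; norm_num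
  have h3 : 0 ≤ Real.cos (π / 4) := by rw [Real.cos_pi_div_four]; positivity
  rw [← h2]
  exact pow_le_pow_left₀ h3 h1 2

theorem ZC_normSq_half (w : ℂ) (h : |w.re| ≤ π / 4) : 1 / 2 ≤ Complex.normSq (Complex.cos w) := by
  rw [ZC_normSq_cos]
  have := ZC_cos_sq w.re h
  nlinarith [sq_nonneg (Real.sinh w.im)]

/-- facts on `tan` in the strip `|Re w| ≤ π/4` -/
theorem ZC_tan (w : ℂ) (h : |w.re| ≤ π / 4) : Complex.cos w ≠ 0 ∧ ‖Complex.tan w‖ ≤ 1 := by
  have h1 := ZC_normSq_half w h
  have h2 : Complex.cos w ≠ 0 := by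
    intro h0
    rw [h0] at h1
    norm_num at h1
  refine ⟨h2, ?_⟩
  rw [Complex.tan, norm_div, div_le_one (norm_pos_iff.2 h2)]
  have h3 : ‖Complex.sin w‖ ^ 2 ≤ ‖Complex.cos w‖ ^ 2 := by
    rw [← Complex.normSq_eq_norm_sq, ← Complex.normSq_eq_norm_sq, ZC_normSq_cos, ZC_normSq_sin]
    have := ZC_cos_sq w.re h
    have := Real.sin_sq_add_cos_sq w.re
    linarith
  exact (sq_le_sq₀ (norm_nonneg _) (norm_nonneg _)).1 h3

theorem ZC_tan_lip (w w' : ℂ) (h : |w.re| ≤ π / 4) (h' : |w'.re| ≤ π / 4) :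
    ‖Complex.tan w - Complex.tan w'‖ ≤ 2 * ‖w - w'‖ := by
  have hconv : Convex ℝ {w : ℂ | |w.re| ≤ π / 4} := by
    have : {w : ℂ | |w.re| ≤ π / 4} = {w : ℂ | -(π / 4) ≤ w.re} ∩ {w : ℂ | w.re ≤ π / 4} := by
      ext w; simp [abs_le]
    rw [this]
    exact (convex_halfSpace_re_ge _).inter (convex_halfSpace_re_le _)
  refine hconv.norm_image_sub_le_of_norm_hasDerivWithin_le (f := Complex.tan)
    (f' := fun w => 1 / Complex.cos w ^ 2) (C := 2) ?_ ?_ h' h
  · intro z hz
    exact (Complex.hasDerivAt_tan (ZC_tan z hz).1).hasDerivWithinAt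
  · intro z hz
    have h1 := ZC_normSq_half z hz
    have h2 : ‖Complex.cos z‖ ^ 2 = Complex.normSq (Complex.cos z) :=
      (Complex.normSq_eq_norm_sq _).symm
    rw [norm_div, norm_one, norm_pow, h2, div_le_iff₀ (by linarith)]
    linarith

theorem ZC_tan_re (w : ℂ) (h : |w.re| ≤ π / 4) :
    (w.re = 0 → (Complex.tan w).re = 0) ∧ (0 ≤ w.re → 0 ≤ (Complex.tan w).re) := by
  have key : (Complex.tan w).re = Real.sin w.re * Real.cos w.re / Complex.normSq (Complex.cos w) := by
    obtain ⟨h1, h2, h3, h4⟩ := ZC_cos_re w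
    rw [Complex.tan, Complex.div_re, h1, h2, h3, h4, ← add_div]
    congr 1
    have e2 := Real.cosh_sq w.im
    calc Real.sin w.re * Real.cosh w.im * (Real.cos w.re * Real.cosh w.im) +
        Real.cos w.re * Real.sinh w.im * -(Real.sin w.re * Real.sinh w.im)
        = Real.sin w.re * Real.cos w.re * (Real.cosh w.im ^ 2 - Real.sinh w.im ^ 2) := by ring
      _ = _ := by rw [e2]; ring
  refine ⟨fun h0 => by rw [key, h0]; simp, fun h0 => ?_⟩
  rw [key]
  have h1 : w.re ≤ π / 4 := (abs_le.1 h).2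
  have h2 : 0 ≤ Real.sin w.re := Real.sin_nonneg_of_nonneg_of_le_pi h0 (by linarith [Real.pi_pos])
  have h3 : 0 ≤ Real.cos w.re := Real.cos_nonneg_of_neg_pi_div_two_le_of_le
    (by linarith [Real.pi_pos]) (by linarith [Real.pi_pos])
  exact div_nonneg (mul_nonneg h2 h3) (Complex.normSq_nonneg _)

theorem ZC_sym (o : ℝ → ℝ) (ho : ∀ t, o (-t) = - o t) (z : ℂ) :
    Sg o (conj z) = - conj (Sg o z) := by
  unfold Sg
  have h1 : (∫ t in (-π : ℝ)..π,
      (o t : ℂ) * ((Complex.exp (t * Complex.I) + conj z) / (Complex.exp (t * Complex.I) - conj z)))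
      = ∫ t in (-π : ℝ)..π, (o (-t) : ℂ) * ((Complex.exp ((-t : ℝ) * Complex.I) + conj z) /
        (Complex.exp ((-t : ℝ) * Complex.I) - conj z)) := by
    rw [intervalIntegral.integral_comp_neg (fun t : ℝ =>
      (o t : ℂ) * ((Complex.exp (t * Complex.I) + conj z) / (Complex.exp (t * Complex.I) - conj z)))]
    simp
  rw [h1, map_mul, ← intervalIntegral.intervalIntegral_conj]
  have h2 : conj ((1 : ℂ) / (2 * (π : ℂ))) = 1 / (2 * (π : ℂ)) := by
    rw [map_div₀, map_mul, map_one, map_ofNat, Complex.conj_ofReal]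
  rw [h2, ← mul_neg, ← intervalIntegral.integral_neg]
  congr 1
  apply intervalIntegral.integral_congr
  intro t _
  have h3 : Complex.exp ((-t : ℝ) * Complex.I) = conj (Complex.exp (t * Complex.I)) := by
    rw [← Complex.exp_conj]; simp
  simp only [ho, h3, map_mul, map_div₀, map_add, map_sub, Complex.conj_ofReal]
  push_cast
  ring

theorem ZC_leb (f : ℝ → ℂ) (hf : Integrable f) : ∀ᵐ τ, 
    Tendsto (fun s : ℝ => (1 / s) * ∫ t in (τ - s)..(τ + s), ‖f t - f τ‖) (𝓝[>] 0) (𝓝 0) := by
  filter_upwards [IsUnifLocDoublingMeasure.ae_tendsto_average_norm_sub volume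
    hf.locallyIntegrable 1] with τ hτ
  have h1 := hτ (l := 𝓝[>] (0 : ℝ)) (fun _ => τ) (fun s => s) tendsto_id
    (by filter_upwards [self_mem_nhdsWithin] with s hs
        rw [one_mul]; exact mem_closedBall_self (le_of_lt hs))
  have h2 := h1.const_mul 2
  rw [mul_zero] at h2
  refine h2.congr' ?_
  filter_upwards [self_mem_nhdsWithin] with s hs
  have hs' : 0 < s := hs
  rw [MeasureTheory.setAverage_eq, Real.closedBall_eq_Icc,
    intervalIntegral.integral_of_le (by linarith), ← integral_Icc_eq_integral_Ioc]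
  have : volume.real (Icc (τ - s) (τ + s)) = 2 * s := by
    rw [measureReal_def, Real.volume_Icc, ENNReal.toReal_ofReal (by linarith)]; ring
  rw [this, smul_eq_mul]
  field_simp


theorem ZC_odd (o : ℝ → ℝ) (ho : ∀ t, o (-t) = - o t) (x : ℝ → ℂ)
    (hxi : IntegrableOn x (Ioc (-π) π)) (hX : DifferentiableOn ℂ (Sg o) (ball (0 : ℂ) 1))
    (hx : Tendsto (fun r : ℝ => ∫ θ in (-π : ℝ)..π, ‖Sg o (r * Complex.exp (θ * Complex.I)) - x θ‖)
        (𝓝[<] 1) (𝓝 0)) :
    ∀ᵐ θ ∂(volume.restrict (Ioc (-π) π)), x (-θ) = - conj (x θ) := by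
  have hpi : (-π : ℝ) ≤ π := by linarith [Real.pi_pos]
  have hxI : IntervalIntegrable x volume (-π) π := by
    rw [intervalIntegrable_iff_integrableOn_Ioc_of_le hpi]; exact hxi
  have hxN : IntervalIntegrable (fun θ => x (-θ)) volume (-π) π := by
    have := (IntervalIntegrable.iff_comp_neg (by simp)).1 hxI
    simpa using this.symm
  have hcont : ∀ r : ℝ, 0 < r → r < 1 →
      Continuous (fun θ : ℝ => Sg o (r * Complex.exp (θ * Complex.I))) := by
    intro r h0 h1
    refine hX.continuousOn.comp_continuous (by fun_prop) ?_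
    intro θ
    rw [mem_ball_zero_iff, norm_mul, Complex.norm_exp_ofReal_mul_I, mul_one, Complex.norm_real,
      Real.norm_of_nonneg h0.le]
    exact h1
  have hconj : ∀ z : ℂ, ‖conj z‖ = ‖z‖ := fun z => by simp
  have hle : ∀ᶠ r : ℝ in 𝓝[<] 1, (∫ θ in (-π : ℝ)..π, ‖x (-θ) + conj (x θ)‖) ≤
      2 * ∫ θ in (-π : ℝ)..π, ‖Sg o (r * Complex.exp (θ * Complex.I)) - x θ‖ := by
    filter_upwards [Ioo_mem_nhdsLT (show (0 : ℝ) < 1 by norm_num)] with r hr
    have hc := hcont r hr.1 hr.2
    have hc' : Continuous (fun θ : ℝ => Sg o (r * Complex.exp ((-θ : ℝ) * Complex.I))) :=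
      hc.comp continuous_neg
    have i1 : IntervalIntegrable (fun θ : ℝ => ‖Sg o (r * Complex.exp (θ * Complex.I)) - x θ‖)
        volume (-π) π := ((hc.intervalIntegrable _ _).sub hxI).norm
    have i2 : IntervalIntegrable
        (fun θ : ℝ => ‖Sg o (r * Complex.exp ((-θ : ℝ) * Complex.I)) - x (-θ)‖)
        volume (-π) π := ((hc'.intervalIntegrable _ _).sub hxN).norm
    have e1 : (∫ θ in (-π : ℝ)..π, ‖Sg o (r * Complex.exp ((-θ : ℝ) * Complex.I)) - x (-θ)‖) =
        ∫ θ in (-π : ℝ)..π, ‖Sg o (r * Complex.exp (θ * Complex.I)) - x θ‖ := by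
      rw [intervalIntegral.integral_comp_neg
        (fun θ : ℝ => ‖Sg o (r * Complex.exp (θ * Complex.I)) - x θ‖)]
      simp
    calc (∫ θ in (-π : ℝ)..π, ‖x (-θ) + conj (x θ)‖)
        ≤ ∫ θ in (-π : ℝ)..π, (‖Sg o (r * Complex.exp ((-θ : ℝ) * Complex.I)) - x (-θ)‖ +
          ‖Sg o (r * Complex.exp (θ * Complex.I)) - x θ‖) := by
          apply intervalIntegral.integral_mono_on hpi _ (i2.add i1)
          · intro θ _
            have h3 : (r : ℂ) * Complex.exp ((-θ : ℝ) * Complex.I) =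
                conj ((r : ℂ) * Complex.exp (θ * Complex.I)) := by
              rw [map_mul, ← Complex.exp_conj]; simp
            have h4 := ZC_sym o ho ((r : ℂ) * Complex.exp (θ * Complex.I))
            rw [← h3] at h4
            have h5 : x (-θ) + conj (x θ) =
                -(Sg o (r * Complex.exp ((-θ : ℝ) * Complex.I)) - x (-θ)) -
                conj (Sg o (r * Complex.exp (θ * Complex.I)) - x θ) := by
              rw [h4, map_sub]; ring
            rw [h5]
            refine (norm_sub_le _ _).trans ?_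
            rw [norm_neg, hconj]
          · have hcx : IntervalIntegrable (fun θ => conj (x θ)) volume (-π) π := by
              rw [intervalIntegrable_iff] at hxI ⊢
              exact (Complex.conjCLE.toContinuousLinearMap.integrable_comp hxI)
            exact (hxN.add hcx).norm
      _ = _ := by
          rw [intervalIntegral.integral_add i2 i1, e1]; ring
  have h0 : (∫ θ in (-π : ℝ)..π, ‖x (-θ) + conj (x θ)‖) ≤ 0 := by
    have h1 := hx.const_mul 2
    rw [mul_zero] at h1
    exact ge_of_tendsto h1 hle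
  have hcx : IntervalIntegrable (fun θ => conj (x θ)) volume (-π) π := by
    rw [intervalIntegrable_iff] at hxI ⊢
    exact (Complex.conjCLE.toContinuousLinearMap.integrable_comp hxI)
  have h00 : (∫ θ in (-π : ℝ)..π, ‖x (-θ) + conj (x θ)‖) = 0 := 
    le_antisymm h0 (intervalIntegral.integral_nonneg hpi fun _ _ => norm_nonneg _)
  rw [intervalIntegral.integral_of_le hpi, integral_eq_zero_iff_of_nonneg
    (fun _ => norm_nonneg _)] at h00
  · filter_upwards [h00] with θ hθ
    have : x (-θ) + conj (x θ) = 0 := norm_eq_zero.1 hθ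
    exact eq_neg_of_add_eq_zero_left this
  · have := (hxN.add hcx).norm
    rw [intervalIntegrable_iff_integrableOn_Ioc_of_le hpi] at this
    exact this


theorem ZC (E : Set ℝ) (hE : MeasurableSet E) (hsub : E ⊆ Ioo 0 π) (hpos : 0 < volume E) :
    ∃ τ ∈ E, ∃ e : ℝ → ℝ, Measurable e ∧ (∀ t, e (-t) = -e t) ∧ (∀ t, 0 < t → 0 ≤ e t) ∧
      (∀ t, |e t| ≤ 1) ∧ (∀ t, 0 < t → t ∉ E → e t = 0) ∧
      Tendsto (fun s : ℝ => (1 / s) * ∫ t in (τ - s)..(τ + s), (1 - e t)) (𝓝[>] 0) (𝓝 0) ∧
      ∀ z ∈ ball (0 : ℂ) 1, |(Sg e z).im| ≤ 2 := by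
  classical
  have hpi0 := Real.pi_pos
  have hpi : (-π : ℝ) ≤ π := by linarith
  have hEneg : ∀ t ∈ E, -t ∉ E := fun t ht ht' => by
    have := (hsub ht).1; have := (hsub ht').1; linarith
  -- the function o
  set o : ℝ → ℝ := fun t => E.indicator 1 t - E.indicator 1 (-t) with ho
  have hom : Measurable o := by
    apply Measurable.sub
    · exact measurable_one.indicator hE
    · exact (measurable_one.indicator hE).comp measurable_neg
  have hoE : ∀ t ∈ E, o t = 1 := fun t ht => by
    simp [ho, ht, hEneg t ht]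
  have hoE0 : ∀ t, 0 < t → t ∉ E → o t = 0 := fun t h0 ht => by
    have h1 : -t ∉ E := fun h => by have := (hsub h).1; linarith
    simp [ho, ht, h1]
  have hoodd : ∀ t, o (-t) = - o t := fun t => by simp [ho]
  have hi01 : ∀ t, 0 ≤ E.indicator (1 : ℝ → ℝ) t ∧ E.indicator (1 : ℝ → ℝ) t ≤ 1 := by
    intro t
    by_cases h : t ∈ E <;> simp [h]
  have hoabs : ∀ t, |o t| ≤ 1 := fun t => by
    have h1 := hi01 t
    have h2 := hi01 (-t)
    rw [abs_le]; constructor <;> simp only [ho] <;> linarith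
  have hXd := ZA_diff o hom 1 hoabs
  have hXre : ∀ z : ℂ, ‖z‖ < 1 → |(Sg o z).re| ≤ 1 := fun z hz =>
    abs_le.2 (ZA_re_bound o hom (-1) 1 (fun t => (abs_le.1 (hoabs t)).1)
      (fun t => (abs_le.1 (hoabs t)).2) hz)
  obtain ⟨x, hxm, -, hxi, hxt, hxre⟩ := ZA o hom 1 hoabs
  have hxi' : IntegrableOn x (Ioc (-π) π) := by
    rw [IntegrableOn, ← integrable_norm_iff hxm.aestronglyMeasurable]; exact hxi
  have hxI : IntervalIntegrable x volume (-π) π := by
    rw [intervalIntegrable_iff_integrableOn_Ioc_of_le hpi]; exact hxi'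
  have hxodd := ZC_odd o hoodd x hxi' hXd hxt
  -- Lebesgue points
  set x' : ℝ → ℂ := (Ioc (-π) π).indicator x with hx'
  have hx'i : Integrable x' := hxi'.integrable_indicator measurableSet_Ioc
  have hleb := ZC_leb x' hx'i
  rw [ae_restrict_iff' measurableSet_Ioc] at hxre hxodd
  have hcp : ∀ θ ∈ Ioo (0 : ℝ) π, θ ∈ Ioc (-π) π := fun θ h => ⟨by linarith [h.1], h.2.le⟩
  obtain ⟨τ, hτE, hτ1, hτ2⟩ : ∃ τ ∈ E, (Tendsto (fun s : ℝ =>
      (1 / s) * ∫ t in (τ - s)..(τ + s), ‖x' t - x' τ‖) (𝓝[>] 0) (𝓝 0)) ∧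
      (τ ∈ Ioc (-π) π → (x τ).re = o τ) := by
    have h1 := hleb.and hxre
    by_contra hcon
    push Not at hcon
    have h2 : E ⊆ {τ | ¬ ((Tendsto (fun s : ℝ =>
      (1 / s) * ∫ t in (τ - s)..(τ + s), ‖x' t - x' τ‖) (𝓝[>] 0) (𝓝 0)) ∧
      (τ ∈ Ioc (-π) π → (x τ).re = o τ))} := by
      intro t ht h3
      have h4 := hcon t ht h3.1
      exact h4.2 (h3.2 h4.1)
    have h3 := measure_mono_null h2 h1
    exact hpos.ne' h3
  have hτ0 := hsub hτE
  have hτre : (x τ).re = 1 := by rw [hτ2 (hcp τ hτ0), hoE τ hτE]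
  have hx'τ : x' τ = x τ := by simp only [hx']; rw [indicator_of_mem (hcp τ hτ0)]
  set η : ℝ := (x τ).im with hη
  -- the function Υ
  set A : ℂ → ℂ := fun w => (π / 4 : ℝ) * (w - (η : ℂ) * Complex.I) with hA
  have hAre : ∀ w, (A w).re = π / 4 * w.re := fun w => by simp [hA]
  have hAstrip : ∀ w : ℂ, |w.re| ≤ 1 → |(A w).re| ≤ π / 4 := fun w hw => by
    rw [hAre, abs_mul, abs_of_pos (by positivity)]
    nlinarith
  have hAsub : ∀ w w' : ℂ, ‖A w - A w'‖ = π / 4 * ‖w - w'‖ := fun w w' => by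
    have : A w - A w' = (π / 4 : ℝ) * (w - w') := by simp only [hA]; ring
    rw [this, norm_mul, Complex.norm_real, Real.norm_of_nonneg (by positivity)]
  have hAτ : Complex.tan (A (x τ)) = 1 := by
    have h1 : x τ - (η : ℂ) * Complex.I = 1 := by
      apply Complex.ext <;> simp [hτre, hη]
    have h2 : A (x τ) = ((π / 4 : ℝ) : ℂ) := by simp only [hA]; rw [h1, mul_one]
    rw [h2, ← Complex.ofReal_tan, Real.tan_pi_div_four]; norm_num
  have hAneg : ∀ w, Complex.tan (A (- conj w)) = - conj (Complex.tan (A w)) := fun w => by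
    have h1 : A (- conj w) = - conj (A w) := by
      simp only [hA, map_mul, map_sub, Complex.conj_ofReal, Complex.conj_I]; ring
    rw [h1, Complex.tan_neg, Complex.tan_conj]
  set Y : ℂ → ℂ := fun z => Complex.tan (A (Sg o z)) with hY
  have hYb : ∀ z ∈ ball (0 : ℂ) 1, ‖Y z‖ ≤ 1 := fun z hz =>
    (ZC_tan _ (hAstrip _ (hXre z (mem_ball_zero_iff.1 hz)))).2
  have hYd : DifferentiableOn ℂ Y (ball (0 : ℂ) 1) := by
    intro z hz
    have h1 : DifferentiableWithinAt ℂ (fun z => A (Sg o z)) (ball 0 1) z := by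
      simp only [hA]
      exact ((hXd z hz).sub_const _).const_mul _
    have h2 : DifferentiableAt ℂ Complex.tan (A (Sg o z)) :=
      (Complex.hasDerivAt_tan
        (ZC_tan _ (hAstrip _ (hXre z (mem_ball_zero_iff.1 hz)))).1).differentiableAt
    exact h2.comp_differentiableWithinAt z h1
  set y : ℝ → ℂ := fun t => if |(x t).re| ≤ 1 then Complex.tan (A (x t)) else 0 with hy
  have hym : Measurable y := by
    apply Measurable.ite
    · exact measurableSet_le (by fun_prop) measurable_const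
    · have : Measurable fun t => A (x t) := by simp only [hA]; fun_prop
      have h2 : (fun t => Complex.tan (A (x t))) =
        fun t => Complex.sin (A (x t)) / Complex.cos (A (x t)) := by
        funext t; rw [Complex.tan]
      rw [h2]
      exact (Complex.measurable_sin.comp this).div (Complex.measurable_cos.comp this)
    · exact measurable_const
  have hyb : ∀ t, ‖y t‖ ≤ 1 := fun t => by
    simp only [hy]
    split_ifs with h
    · exact (ZC_tan _ (hAstrip _ h)).2
    · simp
  have hyt : Tendsto (fun r : ℝ => ∫ θ in (-π : ℝ)..π, ‖Y (r * Complex.exp (θ * Complex.I)) - y θ‖)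
      (𝓝[<] 1) (𝓝 0) := by
    have h1 := hxt.const_mul (π / 2)
    rw [mul_zero] at h1
    refine squeeze_zero' (Eventually.of_forall fun r =>
      intervalIntegral.integral_nonneg hpi fun _ _ => norm_nonneg _) ?_ h1
    filter_upwards [Ioo_mem_nhdsLT (show (0 : ℝ) < 1 by norm_num)] with r hr
    have hnr : ∀ θ : ℝ, ‖(r : ℂ) * Complex.exp (θ * Complex.I)‖ < 1 := fun θ => by
      rw [norm_mul, Complex.norm_exp_ofReal_mul_I, mul_one, Complex.norm_real,
        Real.norm_of_nonneg hr.1.le]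
      exact hr.2
    have hc : Continuous (fun θ : ℝ => Sg o (r * Complex.exp (θ * Complex.I))) :=
      hXd.continuousOn.comp_continuous (by fun_prop) fun θ => mem_ball_zero_iff.2 (hnr θ)
    have i1 : IntervalIntegrable (fun θ : ℝ => ‖Sg o (r * Complex.exp (θ * Complex.I)) - x θ‖)
        volume (-π) π := ((hc.intervalIntegrable _ _).sub hxI).norm
    rw [← intervalIntegral.integral_const_mul, intervalIntegral.integral_of_le hpi,
      intervalIntegral.integral_of_le hpi]
    apply integral_mono_of_nonneg (Eventually.of_forall fun _ => norm_nonneg _)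
    · have := i1.const_mul (π / 2)
      rw [intervalIntegrable_iff_integrableOn_Ioc_of_le hpi] at this
      exact this
    · have h4 := (ae_restrict_iff' (μ := volume) (measurableSet_Ioc (a := -π) (b := π))).2 hxre
      filter_upwards [h4] with θ hθ
      have h5 : |(x θ).re| ≤ 1 := by rw [hθ]; exact hoabs θ
      have h6 : y θ = Complex.tan (A (x θ)) := by simp only [hy]; rw [if_pos h5]
      simp only [h6, hY]
      refine (ZC_tan_lip _ _ (hAstrip _ (hXre _ (hnr θ))) (hAstrip _ h5)).trans ?_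
      rw [hAsub]
      linarith
  have hZB := ZB Y hYd hYb y hym hyb hyt
  -- the everywhere defined version
  set e₀ : ℝ → ℝ := fun t => if t ∈ E ∧ 0 ≤ (y t).re then (y t).re else 0 with he₀
  have hyre : Measurable fun t => (y t).re := Complex.measurable_re.comp hym
  have he₀m : Measurable e₀ := by
    apply Measurable.ite
    · exact hE.inter (measurableSet_le measurable_const hyre)
    · exact hyre
    · exact measurable_const
  have he₀nn : ∀ t, 0 ≤ e₀ t := fun t => by
    simp only [he₀]; split_ifs with h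
    · exact h.2
    · exact le_rfl
  have he₀le : ∀ t, e₀ t ≤ 1 := fun t => by
    simp only [he₀]; split_ifs with h
    · exact (Complex.re_le_norm _).trans (hyb t)
    · exact zero_le_one
  have he₀E : ∀ t, t ∉ E → e₀ t = 0 := fun t ht => by
    simp only [he₀]; rw [if_neg (fun h => ht h.1)]
  set e : ℝ → ℝ := fun t => e₀ t - e₀ (-t) with he
  have hem : Measurable e := he₀m.sub (he₀m.comp measurable_neg)
  have hepos : ∀ t, 0 < t → e t = e₀ t := fun t ht => by
    have h1 : -t ∉ E := fun h => by have := (hsub h).1; linarith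
    simp only [he]; rw [he₀E _ h1, sub_zero]
  have heodd : ∀ t, e (-t) = - e t := fun t => by simp [he]
  have heabs : ∀ t, |e t| ≤ 1 := fun t => by
    have h1 := he₀nn t
    have h2 := he₀nn (-t)
    have h3 := he₀le t
    have h4 := he₀le (-t)
    rw [abs_le]; constructor <;> simp only [he] <;> linarith
  -- a.e. identity
  have hae : ∀ᵐ t : ℝ, t ∈ Ioc (-π) π → e t = (y t).re := by
    have hpos' : ∀ᵐ t : ℝ, t ∈ Ioo 0 π → e t = (y t).re := by
      filter_upwards [hxre] with t ht h0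
      have h1 := ht (hcp t h0)
      have h2 : |(x t).re| ≤ 1 := by rw [h1]; exact hoabs t
      have h3 : y t = Complex.tan (A (x t)) := by simp only [hy]; rw [if_pos h2]
      rw [hepos t h0.1]
      by_cases hmem : t ∈ E
      · have h4 : 0 ≤ (y t).re := by
          rw [h3]
          apply (ZC_tan_re _ (hAstrip _ h2)).2
          rw [hAre, h1, hoE t hmem]; positivity
        simp only [he₀]; rw [if_pos ⟨hmem, h4⟩]
      · rw [he₀E t hmem, h3]
        refine ((ZC_tan_re _ (hAstrip _ h2)).1 ?_).symm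
        rw [hAre, h1, hoE0 t h0.1 hmem, mul_zero]
    have hneg' : ∀ᵐ t : ℝ, -t ∈ Ioo 0 π → e (-t) = (y (-t)).re := by
      have hqmp : Measure.QuasiMeasurePreserving (fun t : ℝ => -t) volume volume :=
        (Measure.measurePreserving_neg (volume : Measure ℝ)).quasiMeasurePreserving
      exact hqmp.ae hpos'
    have h0' : ∀ᵐ t : ℝ, t ≠ 0 := by
      have : (volume : Measure ℝ) {0} = 0 := by simp
      exact measure_eq_zero_iff_ae_notMem.1 this
    have hπ' : ∀ᵐ t : ℝ, t ≠ π := by
      have : (volume : Measure ℝ) {π} = 0 := by simp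
      exact measure_eq_zero_iff_ae_notMem.1 this
    filter_upwards [hpos', hneg', h0', hπ', hxodd, hxre] with t h1 h2 h3 h4 h5 h6 ht
    rcases lt_trichotomy t 0 with hlt | h00 | hgt
    · have h7 := h2 ⟨by linarith, by linarith [ht.1]⟩
      have h8 := h5 ht
      have h9 : |(x t).re| ≤ 1 := by rw [h6 ht]; exact hoabs t
      have h9' : |(x (-t)).re| ≤ 1 := by rw [h8]; simpa using h9
      have h10 : y t = Complex.tan (A (x t)) := by simp only [hy]; rw [if_pos h9]
      have h11 : y (-t) = Complex.tan (A (x (-t))) := by simp only [hy]; rw [if_pos h9']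
      rw [h8, hAneg, ← h10] at h11
      rw [h11, heodd] at h7
      simp only [Complex.neg_re, Complex.conj_re, neg_inj] at h7
      exact h7
    · exact absurd h00 h3
    · exact h1 ⟨hgt, lt_of_le_of_ne ht.2 h4⟩
  refine ⟨τ, hτE, e, hem, heodd, fun t ht => by rw [hepos t ht]; exact he₀nn t, heabs,
    fun t ht hmem => by rw [hepos t ht]; exact he₀E t hmem, ?_, ?_⟩
  · have h1 := hτ1.const_mul (π / 2)
    rw [mul_zero] at h1
    have hsm : ∀ᶠ s : ℝ in 𝓝[>] 0, 0 < s ∧ s < τ ∧ s < π - τ := by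
      have h2 : (0 : ℝ) < min τ (π - τ) := lt_min hτ0.1 (by linarith [hτ0.2])
      filter_upwards [Ioo_mem_nhdsGT h2] with s hs
      exact ⟨hs.1, lt_of_lt_of_le hs.2 (min_le_left _ _), lt_of_lt_of_le hs.2 (min_le_right _ _)⟩
    refine squeeze_zero' ?_ ?_ h1
    · filter_upwards [hsm] with s hs
      apply mul_nonneg (by have := hs.1; positivity)
      apply intervalIntegral.integral_nonneg (by linarith [hs.1])
      intro t _
      linarith [(abs_le.1 (heabs t)).2]
    · filter_upwards [hsm] with s hs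
      have h3 : (∫ t in (τ - s)..(τ + s), (1 - e t)) ≤
          π / 2 * ∫ t in (τ - s)..(τ + s), ‖x' t - x' τ‖ := by
        rw [← intervalIntegral.integral_const_mul,
          intervalIntegral.integral_of_le (by linarith [hs.1]),
          intervalIntegral.integral_of_le (by linarith [hs.1])]
        apply integral_mono_of_nonneg
        · exact Eventually.of_forall fun t => by
            have := (abs_le.1 (heabs t)).2
            simp only [Pi.zero_apply]; linarith
        · have i1 : IntervalIntegrable (fun t => x' t - x' τ) volume (τ - s) (τ + s) :=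
            (hx'i.intervalIntegrable).sub (intervalIntegrable_const)
          have := i1.norm.const_mul (π / 2)
          rw [intervalIntegrable_iff_integrableOn_Ioc_of_le (by linarith [hs.1])] at this
          exact this
        · rw [EventuallyLE, ae_restrict_iff' measurableSet_Ioc]
          filter_upwards [hae, hxre] with t h4 h5 ht
          have h6 : t ∈ Ioc (-π) π := ⟨by linarith [ht.1, hs.2.1], by linarith [ht.2, hs.2.2]⟩
          have h7 : x' t = x t := by simp only [hx']; rw [indicator_of_mem h6]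
          have h8 : |(x t).re| ≤ 1 := by rw [h5 h6]; exact hoabs t
          have h9 : y t = Complex.tan (A (x t)) := by simp only [hy]; rw [if_pos h8]
          have h10 : |(x τ).re| ≤ 1 := by rw [hτre]; simp
          have h11 := ZC_tan_lip _ _ (hAstrip _ h8) (hAstrip _ h10)
          rw [hAτ, hAsub, ← h9] at h11
          have h12 : (1 - y t).re ≤ ‖1 - y t‖ := Complex.re_le_norm _
          rw [norm_sub_rev] at h12
          rw [h4 h6, h7, hx'τ]
          simp only [Complex.sub_re, Complex.one_re] at h12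
          linarith
      have h4 : (0 : ℝ) ≤ 1 / s := by have := hs.1; positivity
      calc (1 / s) * (∫ t in (τ - s)..(τ + s), (1 - e t))
          ≤ (1 / s) * (π / 2 * ∫ t in (τ - s)..(τ + s), ‖x' t - x' τ‖) :=
            mul_le_mul_of_nonneg_left h3 h4
        _ = _ := by ring
  · intro z hz
    have h1 : Sg e z = Sg (fun t => (y t).re) z := by
      unfold Sg
      congr 1
      apply intervalIntegral.integral_congr_ae
      rw [uIoc_of_le hpi]
      filter_upwards [hae] with t ht hmem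
      rw [ht hmem]
    have h2 := hZB z hz
    have h3 : (Sg (fun t => (y t).re) z).im = (Y z).im - (Y 0).im := by
      rw [h2]; simp
    rw [h1, h3]
    have h4 := (Complex.abs_im_le_norm (Y z)).trans (hYb z hz)
    have h5 := (Complex.abs_im_le_norm (Y 0)).trans (hYb 0 (mem_ball_self one_pos))
    calc |(Y z).im - (Y 0).im| ≤ |(Y z).im| + |(Y 0).im| := abs_sub _ _
      _ ≤ 2 := by linarith


end

end Pool.H90.VK
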