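import Pool.Agent.H90.VK.ARC

/-!
# ZD : definitions for the block mu is singular

* `Sg g z`: Schwarz integral of a function on `(-π, π]`.
* `kv v z = 2z/(z²+2vz+1)`; with `uz z = -(z + 1/z)/2` one has `kv v z = 1/(v - uz z)` for `z ≠ 0`.
  `uz` maps the upper half disc onto the upper half plane, the upper unit semicircle
  `e^{iθ}` to `v = -cos θ ∈ (-1,1)`.
* `Cv φ z = (1/π) ∫_{-1}^{1} φ(v) kv v z dv`.
* `chiL`, `chiR`: one-sided tent functions at `v₀` of width `δ`.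
-/

open MeasureTheory Set Filter Topology Metric
open scoped Real ENNReal ComplexConjugate

namespace Pool.H90.VK

noncomputable section

def Sg (g : ℝ → ℝ) (z : ℂ) : ℂ :=
  (1 / (2 * π)) * ∫ t in (-π : ℝ)..π,
    (g t : ℂ) * ((Complex.exp (t * Complex.I) + z) / (Complex.exp (t * Complex.I) - z))

def uz (z : ℂ) : ℂ := -(z + 1 / z) / 2

def kv (v : ℝ) (z : ℂ) : ℂ := 2 * z / (z ^ 2 + 2 * v * z + 1)

def Cv (φ : ℝ → ℝ) (z : ℂ) : ℂ := (1 / π) * ∫ v in (-1 : ℝ)..1, (φ v : ℂ) * kv v z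

def chiL (v₀ δ v : ℝ) : ℝ := if v₀ - δ < v ∧ v < v₀ then 1 - (v₀ - v) / δ else 0

def chiR (v₀ δ v : ℝ) : ℝ := if v₀ < v ∧ v < v₀ + δ then 1 - (v - v₀) / δ else 0

/-- a lock function: `e` vanishes off `E`, `0 ≤ e ≤ 1`, `e` has Lebesgue value 1 at `v₀`, and its
Cauchy transform has bounded real part in the upper half plane. -/
structure Lock (E : Set ℝ) (v₀ : ℝ) (e : ℝ → ℝ) : Prop where
  meas : Measurable e
  nonneg : ∀ v, 0 ≤ e v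
  le_one : ∀ v, e v ≤ 1
  off : ∀ v, v ∉ E → e v = 0
  leb : ∀ ε : ℝ, 0 < ε → ∃ s₀ : ℝ, 0 < s₀ ∧ ∀ s : ℝ, 0 < s → s ≤ s₀ →
    ∫ v in (v₀ - s)..(v₀ + s), (1 - e v) ≤ ε * s
  bdd : ∀ u : ℂ, 0 < u.im → |(∫ v in (-1 : ℝ)..1, (e v : ℂ) / (v - u)).re| ≤ 2 * π

end

end Pool.H90.VK
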