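import Pool.Agent.H90.VK.ZC

/-!
# ZE : the lock function on the line

For compact `E ⊂ (-1, 1)` of positive measure there are `v₀ ∈ E` and `e` with `Lock E v₀ e`.

Proof. Apply `ZC` to `E' = {t ∈ (0,π) : -cos t ∈ E}` (`v = -cos t` is an increasing
diffeomorphism `(0,π) → (-1,1)`; `E'` has positive measure since the image of a null set under
the Lipschitz map `-cos` is null): `τ`, `e'`. Put `v₀ = -cos τ`, `e(v) = e'(arccos(-v))` for
`v ∈ (-1,1)`, `0` outside.
* `bdd`: for odd `e'`, combining `t` and `-t`: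
  `(e^{it}+z)/(e^{it}-z) - (e^{-it}+z)/(e^{-it}-z) = -4 i z sin t/(1 - 2z cos t + z²)`, so
  `i Sg e' z = (2/π) ∫_0^π e'(t) z sin t/(1 - 2z cos t + z²) dt = (1/π) ∫_{-1}^{1} e(v) kv v z dv`
  (substitution `v = -cos t`) `= (1/π)∫_{-1}^1 e(v)/(v - uz z) dv` for `z ≠ 0`. Every `u` with
  `Im u > 0` is `uz z` for some `0 < |z| < 1` (solve `z² + 2uz + 1 = 0`: the product of the roots is 1,
  no root on the unit circle as then `u` would be real). So
  `|Re ∫ e/(v-u)| = π |Re (i Sg e' z)| = π |Im Sg e' z| ≤ 2π`.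
* `leb`: for small `s`, `{v : |v - v₀| < s}` is the image of a subset of `{|t - τ| < 2s/sin τ}`, so
  `∫_{v₀-s}^{v₀+s} (1 - e) dv ≤ ∫_{|t-τ|<2s/sin τ} (1 - e'(t)) sin t dt = o(s)`.
-/

open MeasureTheory Set Filter Topology Metric
open scoped Real ENNReal ComplexConjugate

namespace Pool.H90.VK

noncomputable section

theorem ZE_root (u : ℂ) (hu : 0 < u.im) : ∃ z : ℂ, 0 < ‖z‖ ∧ ‖z‖ < 1 ∧ uz z = u := by
  obtain ⟨s, hs⟩ := IsAlgClosed.exists_pow_nat_eq (u ^ 2 - 1) (n := 2) two_pos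
  have key : ∀ z z' : ℂ, z * z' = 1 → z + z' = -(2 * u) → z ≠ 0 ∧ uz z = u ∧ ‖z‖ ≠ 1 := by
    intro z z' h1 h2
    have hz : z ≠ 0 := left_ne_zero_of_mul_eq_one h1
    have hz' : z' = 1 / z := by
      rw [eq_div_iff hz, mul_comm]
      exact h1
    have hu2 : uz z = u := by
      unfold uz
      rw [← hz', h2]
      ring
    refine ⟨hz, hu2, fun h3 => ?_⟩
    have h4 : z⁻¹ = conj z := Complex.inv_eq_conj h3
    have h5 : u.im = 0 := by
      rw [← hu2]
      unfold uz
      rw [one_div, h4]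
      have : (-(z + conj z) / 2) = ((-z.re : ℝ) : ℂ) := by
        rw [Complex.add_conj]
        push_cast
        ring
      rw [this, Complex.ofReal_im]
    linarith
  have hp : (-u + s) * (-u - s) = 1 := by linear_combination -hs
  have hq : (-u - s) * (-u + s) = 1 := by linear_combination -hs
  obtain ⟨h1, h2, h3⟩ := key _ _ hp (by ring)
  obtain ⟨h4, h5, h6⟩ := key _ _ hq (by ring)
  rcases lt_or_gt_of_ne h3 with h | h
  · exact ⟨_, norm_pos_iff.mpr h1, h, h2⟩
  · refine ⟨_, norm_pos_iff.mpr h4, ?_, h5⟩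
    have h7 : ‖-u + s‖ * ‖-u - s‖ = 1 := by rw [← norm_mul, hp, norm_one]
    by_contra hcon
    push Not at hcon
    nlinarith [norm_nonneg (-u - s)]

theorem ZE_mem {t : ℝ} (ht : t ∈ Ioo 0 π) : -Real.cos t ∈ Ioo (-1 : ℝ) 1 := by
  obtain ⟨h1, h2⟩ := ht
  have h3 : Real.cos t < 1 := by
    have := Real.strictAntiOn_cos ⟨le_rfl, Real.pi_pos.le⟩ ⟨h1.le, h2.le⟩ h1
    rwa [Real.cos_zero] at this
  have h4 : -1 < Real.cos t := by
    have := Real.strictAntiOn_cos ⟨h1.le, h2.le⟩ ⟨Real.pi_pos.le, le_rfl⟩ h2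
    rwa [Real.cos_pi] at this
  exact ⟨by linarith, by linarith⟩

theorem ZE_cos {v : ℝ} (hv : v ∈ Ioo (-1 : ℝ) 1) : -Real.cos (Real.arccos (-v)) = v := by
  rw [Real.cos_arccos (by linarith [hv.2]) (by linarith [hv.1]), neg_neg]

theorem ZE_arc {v : ℝ} (hv : v ∈ Ioo (-1 : ℝ) 1) : Real.arccos (-v) ∈ Ioo 0 π := by
  refine ⟨Real.arccos_pos.2 (by linarith [hv.1]), lt_of_le_of_ne (Real.arccos_le_pi _) ?_⟩
  intro h
  have h1 := ZE_cos hv
  rw [h, Real.cos_pi] at h1
  linarith [hv.2]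

theorem ZE_arccos {t : ℝ} (ht : t ∈ Ioo 0 π) : Real.arccos (-(-Real.cos t)) = t := by
  rw [neg_neg]
  exact Real.arccos_cos ht.1.le ht.2.le

theorem ZE_img (A : Set ℝ) (hA : A ⊆ Ioo (-1) 1) :
    (fun t : ℝ => -Real.cos t) '' {t | t ∈ Ioo 0 π ∧ -Real.cos t ∈ A} = A := by
  ext v
  constructor
  · rintro ⟨t, ⟨_, h⟩, rfl⟩
    exact h
  · intro hv
    refine ⟨Real.arccos (-v), ⟨ZE_arc (hA hv), ?_⟩, ZE_cos (hA hv)⟩
    rw [ZE_cos (hA hv)]
    exact hv

theorem ZE_deriv (t : ℝ) : HasDerivAt (fun t : ℝ => -Real.cos t) (Real.sin t) t := by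
  have := (Real.hasDerivAt_cos t).neg
  rwa [neg_neg] at this

theorem ZE_cov {F : Type*} [NormedAddCommGroup F] [NormedSpace ℝ F] (T : Set ℝ)
    (hT : MeasurableSet T) (hTs : T ⊆ Ioo 0 π) (G : ℝ → F) :
    ∫ v in (fun t : ℝ => -Real.cos t) '' T, G v = ∫ t in T, Real.sin t • G (-Real.cos t) := by
  have hinj : InjOn (fun t : ℝ => -Real.cos t) T := by
    intro a ha b hb hab
    have h1 : Real.cos a = Real.cos b := neg_injective hab
    exact Real.injOn_cos ⟨(hTs ha).1.le, (hTs ha).2.le⟩ ⟨(hTs hb).1.le, (hTs hb).2.le⟩ h1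
  rw [integral_image_eq_integral_abs_deriv_smul hT
    (fun x _ => (ZE_deriv x).hasDerivWithinAt) hinj]
  refine setIntegral_congr_fun hT fun t ht => ?_
  rw [abs_of_nonneg (Real.sin_nonneg_of_mem_Icc ⟨(hTs ht).1.le, (hTs ht).2.le⟩)]

theorem ZE_int (e' : ℝ → ℝ) (hm : Measurable e') (M : ℝ) (hM : ∀ t, |e' t| ≤ M) (G : ℝ → ℂ)
    (hG : Continuous G) (a b : ℝ) :
    IntervalIntegrable (fun t => (e' t : ℂ) * G t) volume a b := by
  have h1 : ∀ S : Set ℝ, IntegrableOn G S volume →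
      IntegrableOn (fun t => (e' t : ℂ) * G t) S volume := by
    intro S hS
    refine Integrable.bdd_mul (c := M) hS ?_ ?_
    · exact (Complex.measurable_ofReal.comp hm).aestronglyMeasurable
    · refine Filter.Eventually.of_forall fun t => ?_
      rw [Complex.norm_real, Real.norm_eq_abs]
      exact hM t
  exact ⟨h1 _ (hG.intervalIntegrable a b).1, h1 _ (hG.intervalIntegrable a b).2⟩

theorem ZE_kernel {z : ℂ} (hz : ‖z‖ < 1) (t : ℝ) :
    Complex.I * ((Complex.exp (t * Complex.I) + z) / (Complex.exp (t * Complex.I) - z) -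
      (Complex.exp ((-t : ℝ) * Complex.I) + z) / (Complex.exp ((-t : ℝ) * Complex.I) - z)) =
      2 * (Real.sin t * kv (-Real.cos t) z) := by
  have hne : ∀ t : ℝ, Complex.exp (t * Complex.I) - z ≠ 0 := by
    intro t h
    have h1 : Complex.exp (t * Complex.I) = z := sub_eq_zero.mp h
    have h2 := Complex.norm_exp_ofReal_mul_I t
    rw [h1] at h2
    exact absurd h2 (ne_of_lt hz)
  have n1 := hne t
  have n2 := hne (-t)
  set w := Complex.exp (t * Complex.I) with hw
  set w' := Complex.exp ((-t : ℝ) * Complex.I) with hw'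
  have e1 : w * w' = 1 := by
    rw [hw, hw', ← Complex.exp_add]
    push_cast
    rw [neg_mul, add_neg_cancel, Complex.exp_zero]
  have hwe : w = Real.cos t + Real.sin t * Complex.I := by
    rw [hw, Complex.exp_mul_I, Complex.ofReal_cos, Complex.ofReal_sin]
  have hwe' : w' = Real.cos t - Real.sin t * Complex.I := by
    rw [hw', Complex.exp_mul_I, Complex.ofReal_neg, Complex.cos_neg, Complex.sin_neg,
      Complex.ofReal_cos, Complex.ofReal_sin]
    ring
  have e2 : w - w' = 2 * Complex.I * Real.sin t := by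
    rw [hwe, hwe']
    ring
  have e3 : w + w' = 2 * Real.cos t := by
    rw [hwe, hwe']
    ring
  have hden : z ^ 2 + 2 * ((-Real.cos t : ℝ) : ℂ) * z + 1 = (w - z) * (w' - z) := by
    rw [Complex.ofReal_neg]
    linear_combination -e1 + z * e3
  unfold kv
  rw [hden, div_sub_div _ _ n1 n2, ← mul_div_assoc, ← mul_div_assoc, ← mul_div_assoc]
  congr 1
  have hI : Complex.I * Complex.I = -1 := Complex.I_mul_I
  linear_combination (-2 * z * Complex.I) * e2 - 4 * z * (Real.sin t : ℂ) * hI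

/-- `i Sg e' z = Cv e z` for odd `e'` and `e v = e' (arccos (-v))` -/
theorem ZE_cv (e' : ℝ → ℝ) (hm : Measurable e') (hodd : ∀ t, e' (-t) = -e' t) (M : ℝ)
    (hM : ∀ t, |e' t| ≤ M) {z : ℂ} (hz : ‖z‖ < 1) :
    Complex.I * Sg e' z = Cv (fun v => e' (Real.arccos (-v))) z := by
  have hne : ∀ t : ℝ, Complex.exp (t * Complex.I) - z ≠ 0 := by
    intro t h
    have h1 : Complex.exp (t * Complex.I) = z := sub_eq_zero.mp h
    have h2 := Complex.norm_exp_ofReal_mul_I t
    rw [h1] at h2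
    exact absurd h2 (ne_of_lt hz)
  set K : ℝ → ℂ := fun t => (Complex.exp (t * Complex.I) + z) / (Complex.exp (t * Complex.I) - z)
    with hK
  have hKc : Continuous K := by
    rw [hK]
    refine Continuous.div ?_ ?_ hne
    · fun_prop
    · fun_prop
  have hKn : Continuous (fun t => -K (-t)) := (hKc.comp continuous_neg).neg
  have h1 : ∫ t in (-π : ℝ)..π, (e' t : ℂ) * K t =
      ∫ t in (0 : ℝ)..π, (e' t : ℂ) * (K t - K (-t)) := by
    rw [← intervalIntegral.integral_add_adjacent_intervals (ZE_int e' hm M hM K hKc (-π) 0)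
      (ZE_int e' hm M hM K hKc 0 π)]
    have h2 := intervalIntegral.integral_comp_neg (a := 0) (b := π)
      (fun t : ℝ => (e' t : ℂ) * K t)
    rw [neg_zero] at h2
    rw [← h2]
    have h3 : (fun t : ℝ => (e' (-t) : ℂ) * K (-t)) = fun t => (e' t : ℂ) * (-K (-t)) := by
      funext t
      rw [hodd]
      push_cast
      ring
    rw [h3, ← intervalIntegral.integral_add (ZE_int e' hm M hM _ hKn 0 π)
      (ZE_int e' hm M hM K hKc 0 π)]
    refine intervalIntegral.integral_congr fun t _ => ?_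
    ring
  have h2 : Sg e' z = (1 / (2 * π)) * ∫ t in (-π : ℝ)..π, (e' t : ℂ) * K t := rfl
  rw [h2, h1]
  unfold Cv
  rw [intervalIntegral.integral_of_le Real.pi_pos.le,
    intervalIntegral.integral_of_le (by norm_num : (-1 : ℝ) ≤ 1), integral_Ioc_eq_integral_Ioo,
    integral_Ioc_eq_integral_Ioo]
  have h3 : (fun t : ℝ => -Real.cos t) '' Ioo 0 π = Ioo (-1) 1 := by
    have h4 := ZE_img (Ioo (-1) 1) le_rfl
    have h5 : {t | t ∈ Ioo 0 π ∧ -Real.cos t ∈ Ioo (-1 : ℝ) 1} = Ioo 0 π := by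
      ext t
      exact ⟨fun h => h.1, fun h => ⟨h, ZE_mem h⟩⟩
    rwa [h5] at h4
  rw [← h3, ZE_cov (Ioo 0 π) measurableSet_Ioo le_rfl]
  have h4 : ∀ t ∈ Ioo 0 π, Real.sin t • ((e' (Real.arccos (-(-Real.cos t))) : ℂ) *
      kv (-Real.cos t) z) = (Complex.I / 2) * ((e' t : ℂ) * (K t - K (-t))) := by
    intro t ht
    rw [ZE_arccos ht]
    have h5 := ZE_kernel hz t
    have h6 : Complex.I * (K t - K (-t)) = 2 * (Real.sin t * kv (-Real.cos t) z) := h5
    rw [Complex.real_smul]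
    linear_combination (-(e' t : ℂ) / 2) * h6
  rw [setIntegral_congr_fun measurableSet_Ioo h4, integral_const_mul]
  have hpi : (π : ℂ) ≠ 0 := by exact_mod_cast Real.pi_ne_zero
  field_simp

theorem ZE (E : Set ℝ) (hE : IsCompact E) (hsub : E ⊆ Ioo (-1) 1) (hpos : 0 < volume E) :
    ∃ v₀ ∈ E, ∃ e : ℝ → ℝ, Lock E v₀ e := by
  have hcm : Measurable (fun t : ℝ => -Real.cos t) := (Real.measurable_cos).neg
  set E' : Set ℝ := {t | t ∈ Ioo 0 π ∧ -Real.cos t ∈ E} with hE'
  have hE'm : MeasurableSet E' := measurableSet_Ioo.inter (hcm hE.isClosed.measurableSet)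
  have himg : (fun t : ℝ => -Real.cos t) '' E' = E := ZE_img E hsub
  have hE'pos : 0 < volume E' := by
    rw [pos_iff_ne_zero]
    intro h0
    have h1 : volume ((fun t : ℝ => -Real.cos t) '' E') = 0 :=
      addHaar_image_eq_zero_of_differentiableOn_of_addHaar_eq_zero volume
        (fun t _ => (ZE_deriv t).differentiableAt.differentiableWithinAt) h0
    rw [himg] at h1
    exact hpos.ne' h1
  obtain ⟨τ, hτ, e', hm, hodd, hnn, hle, hoff, hleb, him⟩ := ZC E' hE'm (fun t ht => ht.1) hE'pos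
  have hv₀ : -Real.cos τ ∈ Ioo (-1 : ℝ) 1 := hsub hτ.2
  set v₀ : ℝ := -Real.cos τ with hv₀d
  have harcm : Measurable (fun v : ℝ => Real.arccos (-v)) :=
    Real.continuous_arccos.measurable.comp measurable_neg
  classical
  set e : ℝ → ℝ := (Ioo (-1 : ℝ) 1).indicator (fun v => e' (Real.arccos (-v))) with he
  have hein : ∀ v ∈ Ioo (-1 : ℝ) 1, e v = e' (Real.arccos (-v)) := fun v hv =>
    indicator_of_mem hv _
  have heout : ∀ v, v ∉ Ioo (-1 : ℝ) 1 → e v = 0 := fun v hv => indicator_of_notMem hv _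
  have hmeas : Measurable e := (hm.comp harcm).indicator measurableSet_Ioo
  have hnonneg : ∀ v, 0 ≤ e v := by
    intro v
    by_cases hv : v ∈ Ioo (-1 : ℝ) 1
    · rw [hein v hv]
      exact hnn _ (ZE_arc hv).1
    · rw [heout v hv]
  have hle_one : ∀ v, e v ≤ 1 := by
    intro v
    by_cases hv : v ∈ Ioo (-1 : ℝ) 1
    · rw [hein v hv]
      exact (le_abs_self _).trans (hle _)
    · rw [heout v hv]
      exact zero_le_one
  refine ⟨v₀, hτ.2, e, hmeas, hnonneg, hle_one, ?_, ?_, ?_⟩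
  · intro v hv
    by_cases hv1 : v ∈ Ioo (-1 : ℝ) 1
    · rw [hein v hv1]
      refine hoff _ (ZE_arc hv1).1 fun h => hv ?_
      have := h.2
      rwa [ZE_cos hv1] at this
    · exact heout v hv1
  · intro ε hε
    -- local Lipschitz bound
    have hτ0 : Real.arccos (-v₀) = τ := ZE_arccos hτ.1
    obtain ⟨C, hC, hCb⟩ : ∃ C > (0 : ℝ), ∀ᶠ v in 𝓝 v₀, |Real.arccos (-v) - τ| ≤ C * |v - v₀| := by
      have hd : HasDerivAt (fun v : ℝ => Real.arccos (-v))
          (-(1 / √(1 - (-v₀) ^ 2)) * -1) v₀ :=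
        (Real.hasDerivAt_arccos (by linarith [hv₀.2]) (by linarith [hv₀.1])).comp v₀
          (hasDerivAt_neg v₀)
      obtain ⟨C, hC, hCb⟩ := hd.isBigO_sub.exists_pos
      refine ⟨C, hC, ?_⟩
      have h1 := hCb.bound
      filter_upwards [h1] with v hv
      rw [hτ0] at hv
      simpa [Real.norm_eq_abs] using hv
    obtain ⟨s₁, hs₁, hs₁b⟩ := Metric.eventually_nhds_iff.mp hCb
    have hlim : ∀ᶠ s in 𝓝[>] (0 : ℝ), (1 / s) * ∫ t in (τ - s)..(τ + s), (1 - e' t) < ε / C :=
      hleb.eventually_lt_const (div_pos hε hC)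
    obtain ⟨s₂, hs₂, hs₂b⟩ := mem_nhdsGT_iff_exists_Ioo_subset.mp hlim
    have hs₂0 : 0 < s₂ := hs₂
    set s₀ : ℝ := min (min (s₁ / 2) (s₂ / (2 * C))) (min ((1 - v₀) / 2) ((1 + v₀) / 2)) with hs₀
    have hs₀pos : 0 < s₀ := by
      refine lt_min (lt_min (by positivity) (by positivity)) (lt_min ?_ ?_)
      · linarith [hv₀.2]
      · linarith [hv₀.1]
    refine ⟨s₀, hs₀pos, fun s hs hss => ?_⟩
    have b1 : s ≤ s₁ / 2 := hss.trans ((min_le_left _ _).trans (min_le_left _ _))
    have b2 : s ≤ s₂ / (2 * C) := hss.trans ((min_le_left _ _).trans (min_le_right _ _))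
    have b3 : s ≤ (1 - v₀) / 2 := hss.trans ((min_le_right _ _).trans (min_le_left _ _))
    have b4 : s ≤ (1 + v₀) / 2 := hss.trans ((min_le_right _ _).trans (min_le_right _ _))
    have hVsub : Ioo (v₀ - s) (v₀ + s) ⊆ Ioo (-1) 1 := by
      intro v hv
      have := hv₀.1
      have := hv₀.2
      exact ⟨by linarith [hv.1], by linarith [hv.2]⟩
    set T : Set ℝ := {t | t ∈ Ioo 0 π ∧ -Real.cos t ∈ Ioo (v₀ - s) (v₀ + s)} with hT
    have hTm : MeasurableSet T := measurableSet_Ioo.inter (hcm measurableSet_Ioo)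
    have hTimg : (fun t : ℝ => -Real.cos t) '' T = Ioo (v₀ - s) (v₀ + s) := ZE_img _ hVsub
    have hTsub : T ⊆ Ioc (τ - C * s) (τ + C * s) := by
      rintro t ⟨ht1, ht2⟩
      have h1 : |(-Real.cos t) - v₀| < s := by
        rw [abs_lt]
        exact ⟨by linarith [ht2.1], by linarith [ht2.2]⟩
      have h2 : dist (-Real.cos t) v₀ < s₁ := by
        rw [Real.dist_eq]
        linarith
      have h3 := hs₁b h2
      rw [ZE_arccos ht1] at h3
      have h4 : |t - τ| < C * s := lt_of_le_of_lt h3 (mul_lt_mul_of_pos_left h1 hC)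
      rw [abs_lt] at h4
      exact ⟨by linarith [h4.1], by linarith [h4.2]⟩
    rw [intervalIntegral.integral_of_le (by linarith), integral_Ioc_eq_integral_Ioo, ← hTimg,
      ZE_cov T hTm (fun t ht => ht.1)]
    have hIOn : ∀ a b : ℝ, IntegrableOn (fun t => 1 - e' t) (Ioc a b) volume := by
      intro a b
      have h1 : IntegrableOn e' (Ioc a b) volume := by
        refine Measure.integrableOn_of_bounded (M := 1) measure_Ioc_lt_top.ne
          hm.aestronglyMeasurable ?_
        exact Filter.Eventually.of_forall fun t => hle t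
      exact (integrableOn_const measure_Ioc_lt_top.ne).sub h1
    have hstep : ∫ t in T, Real.sin t • (1 - e (-Real.cos t)) ≤ ∫ t in T, (1 - e' t) := by
      refine integral_mono_of_nonneg ?_ ((hIOn _ _).mono_set hTsub) ?_
      · refine (ae_restrict_mem hTm).mono fun t ht => ?_
        have h1 := Real.sin_nonneg_of_mem_Icc ⟨ht.1.1.le, ht.1.2.le⟩
        have h2 := hle_one (-Real.cos t)
        show 0 ≤ Real.sin t • (1 - e (-Real.cos t))
        rw [smul_eq_mul]
        exact mul_nonneg h1 (by linarith)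
      · refine (ae_restrict_mem hTm).mono fun t ht => ?_
        have h1 := Real.sin_le_one t
        have h2 := hle_one (-Real.cos t)
        have h3 : e (-Real.cos t) = e' t := by
          rw [hein _ (ZE_mem ht.1), ZE_arccos ht.1]
        show Real.sin t • (1 - e (-Real.cos t)) ≤ 1 - e' t
        rw [smul_eq_mul, h3]
        rw [h3] at h2
        nlinarith
    have hstep2 : ∫ t in T, (1 - e' t) ≤ ∫ t in Ioc (τ - C * s) (τ + C * s), (1 - e' t) := by
      refine setIntegral_mono_set (hIOn _ _) ?_ hTsub.eventuallyLE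
      refine Filter.Eventually.of_forall fun t => ?_
      have := (le_abs_self _).trans (hle t)
      show 0 ≤ 1 - e' t
      linarith
    have hCs : C * s ∈ Ioo 0 s₂ := by
      refine ⟨mul_pos hC hs, ?_⟩
      have h1 : C * s ≤ C * (s₂ / (2 * C)) := mul_le_mul_of_nonneg_left b2 hC.le
      have h2 : C * (s₂ / (2 * C)) = s₂ / 2 := by
        field_simp
      linarith
    have h5 := hs₂b hCs
    have h6 : (1 / (C * s)) * ∫ t in (τ - C * s)..(τ + C * s), (1 - e' t) < ε / C := h5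
    rw [intervalIntegral.integral_of_le (by linarith [hCs.1])] at h6
    have h7 : ∫ t in Ioc (τ - C * s) (τ + C * s), (1 - e' t) < ε * s := by
      have h8 := mul_lt_mul_of_pos_left h6 hCs.1
      have h9 : C * s * (1 / (C * s) * ∫ t in Ioc (τ - C * s) (τ + C * s), (1 - e' t)) =
          ∫ t in Ioc (τ - C * s) (τ + C * s), (1 - e' t) := by
        have := hCs.1.ne'
        field_simp
      have h10 : C * s * (ε / C) = ε * s := by
        field_simp
      rwa [h9, h10] at h8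
    exact (hstep.trans hstep2).trans h7.le
  · intro u hu
    obtain ⟨z, hz0, hz1, hzu⟩ := ZE_root u hu
    have hzne : z ≠ 0 := norm_pos_iff.mp hz0
    have h1 := ZE_cv e' hm hodd 1 hle hz1
    have h2 := him z (by rwa [mem_ball_zero_iff])
    have h3 : ∫ v in (-1 : ℝ)..1, (e v : ℂ) / (v - u) =
        ∫ v in (-1 : ℝ)..1, ((e' (Real.arccos (-v)) : ℝ) : ℂ) * kv v z := by
      rw [intervalIntegral.integral_of_le (by norm_num : (-1 : ℝ) ≤ 1),
        intervalIntegral.integral_of_le (by norm_num : (-1 : ℝ) ≤ 1),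
        integral_Ioc_eq_integral_Ioo, integral_Ioc_eq_integral_Ioo]
      refine setIntegral_congr_fun measurableSet_Ioo fun v hv => ?_
      show (e v : ℂ) / (v - u) = ((e' (Real.arccos (-v)) : ℝ) : ℂ) * kv v z
      rw [hein v hv, ← hzu]
      have h4 : (v : ℂ) - uz z = (z ^ 2 + 2 * v * z + 1) / (2 * z) := by
        unfold uz
        field_simp
        ring
      unfold kv
      rw [h4, div_div_eq_mul_div, mul_div_assoc]
    have hpi : (π : ℂ) ≠ 0 := by exact_mod_cast Real.pi_ne_zero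
    have h4 : ∫ v in (-1 : ℝ)..1, (e v : ℂ) / (v - u) = (π : ℂ) * (Complex.I * Sg e' z) := by
      rw [h3, h1]
      unfold Cv
      field_simp
    rw [h4, Complex.re_ofReal_mul, abs_mul, abs_of_pos Real.pi_pos, Complex.I_mul_re, abs_neg]
    have := Real.pi_pos
    nlinarith

end

end Pool.H90.VK
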