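import Pool.Agent.H90.VK.ZE

/-!
# ZF : the function `Cv φ`

`φ` measurable and bounded by `M` (only its values on `[-1,1]` matter).
* `ZF_kv`: for `0 < |z| < 1`, `-1 ≤ v ≤ 1`: `z² + 2vz + 1 ≠ 0` (its roots lie on the unit circle) and
  `kv v z = 1/(v - uz z)`; `(uz z).im = (1/|z|² - 1) Im z/2`, so it has the sign of `Im z`.
* `ZF_diff`: `Cv φ` is analytic on the disc (differentiate under the integral; on `|z| ≤ r < 1`
  `|z² + 2vz + 1| ≥ c_r > 0` by compactness).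
* `ZF_zero`: `Cv φ 0 = 0`. `ZF_conj`: `Cv φ (conj z) = conj (Cv φ z)`.
* `ZF_im`: for `Im z > 0`: `Im (Cv φ z) = (1/π) ∫ φ(v) Im(uz z)/|v - uz z|² dv`.
* `ZF_im_bound`: for `a ≤ φ ≤ b` on `[-1,1]` with `a ≤ 0 ≤ b`: `a ≤ Im (Cv φ z) ≤ b` for `Im z > 0`
  (`∫_ℝ Im u/|v-u|² dv = π`).
* `ZF_lim`: if `φ = 0` off the compact set `E ⊂ (-1,1)` and `|ζ| = 1`, `-Re ζ ∉ E`, then `Cv φ` has a real
  limit at `ζ`: for `v ∈ E`, `|ζ² + 2vζ + 1| = 2|v + Re ζ| ≥ c > 0`, so the integral over `E` is continuous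
  at `ζ` (dominated convergence), and `kv v ζ = 1/(v + Re ζ)` is real (`ζ + 1/ζ = 2 Re ζ`).
* `ZF_L1`: `∫_0^π |Im (Cv φ (r e^{iθ})) - φ(-cos θ)| dθ → 0` as `r → 1-` : `Cv φ = i Sg φ'`
  with `φ'(t) = φ(-cos t)` for `0 < t < π`, odd, `0` outside `(-π,π)` and at `0`
  (`ZE_cv`; `φ'(arccos (-v)) = φ(v)` for `-1 < v < 1`), so `Im Cv φ = Re Sg φ'`; `ZA`.
-/

open MeasureTheory Set Filter Topology Metric
open scoped Real ENNReal ComplexConjugate

namespace Pool.H90.VK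

noncomputable section

theorem ZF_ne {z : ℂ} (hz : ‖z‖ < 1) {v : ℝ} (hv : v ∈ Icc (-1 : ℝ) 1) :
    z ^ 2 + 2 * v * z + 1 ≠ 0 := by
  intro h
  have hn : z.re ^ 2 + z.im ^ 2 < 1 := by
    have h1 : ‖z‖ ^ 2 < 1 := by
      have := norm_nonneg z
      nlinarith
    rw [← Complex.normSq_eq_norm_sq, Complex.normSq_apply] at h1
    nlinarith
  have hre := congrArg Complex.re h
  have him := congrArg Complex.im h
  simp [pow_two] at hre him
  have hv2 : v ^ 2 ≤ 1 := by nlinarith [hv.1, hv.2]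
  have h3 : z.im * (z.re + v) = 0 := by linarith
  rcases mul_eq_zero.1 h3 with h4 | h4
  · rw [h4] at hre
    have h5 : (z.re + v) ^ 2 + (1 - v ^ 2) = 0 := by nlinarith
    have h6 : v ^ 2 = 1 := by nlinarith [sq_nonneg (z.re + v)]
    have h7 : (z.re + v) ^ 2 = 0 := by nlinarith
    have h8 : z.re = -v := by
      have := pow_eq_zero_iff (two_ne_zero) |>.1 h7
      linarith
    rw [h8, h4] at hn
    nlinarith
  · have h8 : z.re = -v := by linarith
    rw [h8] at hre hn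
    nlinarith

theorem ZF_kv {z : ℂ} (hz : ‖z‖ < 1) (h0 : z ≠ 0) {v : ℝ} (hv : v ∈ Icc (-1 : ℝ) 1) :
    kv v z = 1 / (v - uz z) ∧ (v : ℂ) - uz z ≠ 0 := by
  have h1 := ZF_ne hz hv
  have h2 : (v : ℂ) - uz z = (z ^ 2 + 2 * v * z + 1) / (2 * z) := by
    unfold uz
    field_simp
    ring
  rw [h2]
  refine ⟨?_, div_ne_zero h1 (mul_ne_zero two_ne_zero h0)⟩
  unfold kv
  rw [one_div_div]

theorem ZF_uz_im {z : ℂ} (h0 : z ≠ 0) : (uz z).im = (1 / ‖z‖ ^ 2 - 1) * z.im / 2 := by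
  have h1 : (uz z).im = -(z.im + (1 / z).im) / 2 := by
    unfold uz
    have : (-(z + 1 / z) / 2 : ℂ) = ((1 / 2 : ℝ) : ℂ) * (-(z + 1 / z)) := by
      push_cast; ring
    rw [this, Complex.im_ofReal_mul]
    simp
    ring
  rw [h1, one_div, Complex.inv_im, Complex.normSq_eq_norm_sq]
  ring

theorem ZF_uz_polar {r θ : ℝ} (hr : 0 < r) :
    uz (r * Complex.exp (θ * Complex.I)) =
      -((r + 1 / r) * Real.cos θ / 2 : ℝ) + ((1 / r - r) * Real.sin θ / 2 : ℝ) * Complex.I := by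
  unfold uz
  have h1 : 1 / ((r : ℂ) * Complex.exp (θ * Complex.I)) = (1 / r : ℂ) * Complex.exp (-θ * Complex.I) := by
    rw [neg_mul, Complex.exp_neg]
    field_simp
  rw [h1]
  have h2 : Complex.exp (-θ * Complex.I) = Real.cos θ - Real.sin θ * Complex.I := by
    rw [Complex.exp_mul_I, Complex.cos_neg, Complex.sin_neg]
    push_cast
    ring
  rw [h2, Complex.exp_mul_I]
  push_cast
  ring

theorem ZF_int (φ : ℝ → ℝ) (hφ : Measurable φ) (M : ℝ) (hM : ∀ v, |φ v| ≤ M) (g : ℝ → ℂ)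
    (hg : ContinuousOn g (Icc (-1 : ℝ) 1)) :
    IntervalIntegrable (fun v => (φ v : ℂ) * g v) volume (-1) 1 := by
  rw [intervalIntegrable_iff_integrableOn_Ioc_of_le (by norm_num)]
  have h1 : IntegrableOn g (Ioc (-1 : ℝ) 1) volume :=
    (hg.integrableOn_Icc).mono_set Ioc_subset_Icc_self
  refine Integrable.bdd_mul h1 (c := M) ?_ ?_
  · exact (Complex.measurable_ofReal.comp hφ).aestronglyMeasurable
  · refine Eventually.of_forall fun v => ?_
    simpa using hM v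

theorem ZF_kv_cont {z : ℂ} (hz : ‖z‖ < 1) : ContinuousOn (fun v : ℝ => kv v z) (Icc (-1 : ℝ) 1) := by
  unfold kv
  refine ContinuousOn.div (by fun_prop) (by fun_prop) fun v hv => ZF_ne hz hv

theorem ZF_diff (φ : ℝ → ℝ) (hφ : Measurable φ) (M : ℝ) (hM : ∀ v, |φ v| ≤ M) :
    DifferentiableOn ℂ (Cv φ) (ball (0 : ℂ) 1) := by
  intro z₀ hz₀
  have hz₀' : ‖z₀‖ < 1 := by simpa using hz₀
  have hM0 : 0 ≤ M := (abs_nonneg _).trans (hM 0)
  obtain ⟨r, hr1, hr2⟩ := exists_between hz₀'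
  have hr0 : 0 < r := lt_of_le_of_lt (norm_nonneg _) hr1
  -- the derivative of the kernel
  let D : ℝ → ℂ → ℂ := fun v z => (2 - 2 * z ^ 2) / (z ^ 2 + 2 * v * z + 1) ^ 2
  have hD : ∀ v ∈ Icc (-1 : ℝ) 1, ∀ z : ℂ, ‖z‖ < 1 → HasDerivAt (fun z => kv v z) (D v z) z := by
    intro v hv z hz
    have hne := ZF_ne hz hv
    have h1 : HasDerivAt (fun z : ℂ => 2 * z) 2 z := by
      simpa using (hasDerivAt_id z).const_mul (2 : ℂ)
    have h2 : HasDerivAt (fun z : ℂ => z ^ 2 + 2 * v * z + 1) (2 * z + 2 * v) z := by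
      have h3 : HasDerivAt (fun z : ℂ => z ^ 2) (2 * z) z := by
        simpa using hasDerivAt_pow 2 z
      have h4 : HasDerivAt (fun z : ℂ => 2 * v * z) (2 * v : ℂ) z := by
        simpa using (hasDerivAt_id z).const_mul (2 * v : ℂ)
      exact (h3.add h4).add_const 1
    have h5 := h1.div h2 hne
    have h6 : D v z = (2 * (z ^ 2 + 2 * v * z + 1) - 2 * z * (2 * z + 2 * v)) /
        (z ^ 2 + 2 * v * z + 1) ^ 2 := by
      simp only [D]
      congr 1
      ring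
    rw [h6]
    exact h5
  obtain ⟨C, hC⟩ : ∃ C, ∀ q ∈ Icc (-1 : ℝ) 1 ×ˢ closedBall (0 : ℂ) r, ‖D q.1 q.2‖ ≤ C := by
    refine (isCompact_Icc.prod (isCompact_closedBall (0 : ℂ) r)).exists_bound_of_continuousOn ?_
    refine ContinuousOn.div (by fun_prop) (by fun_prop) ?_
    rintro ⟨v, z⟩ ⟨hv, hz⟩
    have : ‖z‖ < 1 := lt_of_le_of_lt (by simpa using hz) hr2
    exact pow_ne_zero 2 (ZF_ne this hv)
  have hs : ball (0 : ℂ) r ∈ 𝓝 z₀ := isOpen_ball.mem_nhds (by simpa using hr1)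
  have key := intervalIntegral.hasDerivAt_integral_of_dominated_loc_of_deriv_le
    (F := fun z v => (φ v : ℂ) * kv v z) (F' := fun z v => (φ v : ℂ) * D v z)
    (x₀ := z₀) (a := -1) (b := 1) (μ := volume) (s := ball (0 : ℂ) r)
    (bound := fun _ => M * C) hs ?_ ?_ ?_ ?_ ?_ ?_
  · have h1 := key.2.const_mul (1 / (π : ℂ))
    exact (h1.differentiableAt).differentiableWithinAt
  · filter_upwards [hs] with z hz
    have hz' : ‖z‖ < 1 := lt_trans (by simpa using hz) hr2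
    exact (intervalIntegrable_iff.1 (ZF_int φ hφ M hM _ (ZF_kv_cont hz'))).aestronglyMeasurable
  · exact ZF_int φ hφ M hM _ (ZF_kv_cont hz₀')
  · refine (intervalIntegrable_iff.1 (ZF_int φ hφ M hM (fun v => D v z₀) ?_)).aestronglyMeasurable
    refine ContinuousOn.div (by fun_prop) (by fun_prop) ?_
    intro v hv
    exact pow_ne_zero 2 (ZF_ne hz₀' hv)
  · refine Eventually.of_forall fun v hv z hz => ?_
    rw [uIoc_of_le (by norm_num)] at hv
    rw [norm_mul]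
    have h1 : ‖(φ v : ℂ)‖ ≤ M := by simpa using hM v
    have h2 : ‖D v z‖ ≤ C := hC (v, z) ⟨⟨hv.1.le, hv.2⟩, ball_subset_closedBall hz⟩
    exact mul_le_mul h1 h2 (norm_nonneg _) hM0
  · exact intervalIntegrable_const
  · refine Eventually.of_forall fun v hv z hz => ?_
    rw [uIoc_of_le (by norm_num)] at hv
    have hz' : ‖z‖ < 1 := lt_trans (by simpa using hz) hr2
    exact (hD v ⟨hv.1.le, hv.2⟩ z hz').const_mul _

theorem ZF_zero (φ : ℝ → ℝ) : Cv φ 0 = 0 := by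
  simp [Cv, kv]

theorem ZF_conj (φ : ℝ → ℝ) (z : ℂ) : Cv φ (conj z) = conj (Cv φ z) := by
  unfold Cv
  rw [map_mul]
  have h1 : conj (1 / (π : ℂ)) = 1 / (π : ℂ) := by simp
  rw [h1]
  congr 1
  rw [intervalIntegral.integral_of_le (by norm_num), intervalIntegral.integral_of_le (by norm_num),
    ← integral_conj]
  congr 1
  ext v
  have h2 : conj (2 : ℂ) = 2 := Complex.conj_ofNat 2
  simp [kv, h2]

theorem ZF_eq (φ : ℝ → ℝ) {z : ℂ} (hz : ‖z‖ < 1) (h0 : z ≠ 0) :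
    Cv φ z = (1 / π) * ∫ v in (-1 : ℝ)..1, (φ v : ℂ) / (v - uz z) := by
  unfold Cv
  congr 1
  refine intervalIntegral.integral_congr fun v hv => ?_
  rw [uIcc_of_le (by norm_num)] at hv
  rw [(ZF_kv hz h0 hv).1, mul_one_div]

theorem ZF_im (φ : ℝ → ℝ) (hφ : Measurable φ) (M : ℝ) (hM : ∀ v, |φ v| ≤ M) {z : ℂ} (hz : ‖z‖ < 1)
    (hi : 0 < z.im) :
    (Cv φ z).im = (1 / π) * ∫ v in (-1 : ℝ)..1, φ v * ((uz z).im / ‖(v : ℂ) - uz z‖ ^ 2) := by
  have h0 : z ≠ 0 := by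
    rintro rfl
    simp at hi
  have hint := ZF_int φ hφ M hM _ (ZF_kv_cont hz)
  have h1 : (Cv φ z).im = (1 / π) * (∫ v in (-1 : ℝ)..1, (φ v : ℂ) * kv v z).im := by
    unfold Cv
    have : (1 / (π : ℂ)) = ((1 / π : ℝ) : ℂ) := by push_cast; rfl
    rw [this, Complex.im_ofReal_mul]
  rw [h1]
  congr 1
  have h2 := (Complex.imCLM.intervalIntegral_comp_comm hint)
  simp only [Complex.imCLM_apply] at h2
  rw [← h2]
  refine intervalIntegral.integral_congr fun v hv => ?_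
  rw [uIcc_of_le (by norm_num)] at hv
  rw [(ZF_kv hz h0 hv).1, Complex.im_ofReal_mul, one_div, Complex.inv_im, Complex.normSq_eq_norm_sq]
  simp

theorem ZF_im_bound (φ : ℝ → ℝ) (hφ : Measurable φ) (a b : ℝ) (ha : ∀ v, a ≤ φ v)
    (hb : ∀ v, φ v ≤ b) (ha0 : a ≤ 0) (hb0 : 0 ≤ b) {z : ℂ} (hz : ‖z‖ < 1) (hi : 0 < z.im) :
    a ≤ (Cv φ z).im ∧ (Cv φ z).im ≤ b := by
  have h0 : z ≠ 0 := by
    rintro rfl
    simp at hi
  have hM : ∀ v, |φ v| ≤ max (-a) b := fun v =>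
    abs_le.2 ⟨by have := ha v; have := le_max_left (-a) b; linarith, (hb v).trans (le_max_right _ _)⟩
  rw [ZF_im φ hφ _ hM hz hi]
  have hnz : 0 < ‖z‖ := norm_pos_iff.2 h0
  set u := uz z with hu
  have hui : 0 < u.im := by
    rw [hu, ZF_uz_im h0]
    have : 1 < 1 / ‖z‖ ^ 2 := by
      rw [lt_div_iff₀ (by positivity)]
      nlinarith
    have h2 : 0 < 1 / ‖z‖ ^ 2 - 1 := by linarith
    positivity
  have hpos : ∀ v : ℝ, 0 < ‖(v : ℂ) - u‖ ^ 2 := by
    intro v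
    have : (v : ℂ) - u ≠ 0 := by
      intro h
      have := congrArg Complex.im h
      simp at this
      linarith
    have := norm_pos_iff.2 this
    positivity
  have hcont : Continuous (fun v : ℝ => u.im / ‖(v : ℂ) - u‖ ^ 2) := by
    refine continuous_const.div (by fun_prop) fun v => (hpos v).ne'
  have hP0 : ∀ v : ℝ, 0 ≤ u.im / ‖(v : ℂ) - u‖ ^ 2 := fun v => (div_pos hui (hpos v)).le
  have hder : ∀ v : ℝ, HasDerivAt (fun v => Real.arctan ((v - u.re) / u.im))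
      (u.im / ‖(v : ℂ) - u‖ ^ 2) v := by
    intro v
    have h1 : HasDerivAt (fun v : ℝ => (v - u.re) / u.im) (1 / u.im) v :=
      ((hasDerivAt_id v).sub_const _).div_const _
    have h2 := h1.arctan
    have h3 : ‖(v : ℂ) - u‖ ^ 2 = (v - u.re) ^ 2 + u.im ^ 2 := by
      rw [← Complex.normSq_eq_norm_sq, Complex.normSq_apply]
      simp
      ring
    have h4 : (u.im / ‖(v : ℂ) - u‖ ^ 2) = 1 / (1 + ((v - u.re) / u.im) ^ 2) * (1 / u.im) := by
      rw [h3]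
      field_simp
      ring
    rw [h4]
    exact h2
  have hI : ∫ v in (-1 : ℝ)..1, u.im / ‖(v : ℂ) - u‖ ^ 2 =
      Real.arctan ((1 - u.re) / u.im) - Real.arctan ((-1 - u.re) / u.im) :=
    intervalIntegral.integral_eq_sub_of_hasDerivAt (fun v _ => hder v)
      (hcont.intervalIntegrable _ _)
  have hIle : ∫ v in (-1 : ℝ)..1, u.im / ‖(v : ℂ) - u‖ ^ 2 ≤ π := by
    rw [hI]
    have h1 := Real.arctan_lt_pi_div_two ((1 - u.re) / u.im)
    have h2 := Real.neg_pi_div_two_lt_arctan ((-1 - u.re) / u.im)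
    linarith
  have hI0 : 0 ≤ ∫ v in (-1 : ℝ)..1, u.im / ‖(v : ℂ) - u‖ ^ 2 :=
    intervalIntegral.integral_nonneg (by norm_num) fun v _ => hP0 v
  have hintφ : IntervalIntegrable (fun v : ℝ => φ v * (u.im / ‖(v : ℂ) - u‖ ^ 2)) volume (-1) 1 := by
    rw [intervalIntegrable_iff_integrableOn_Ioc_of_le (by norm_num)]
    have h1 : IntegrableOn (fun v : ℝ => u.im / ‖(v : ℂ) - u‖ ^ 2) (Ioc (-1 : ℝ) 1) volume :=
      (hcont.continuousOn.integrableOn_Icc).mono_set Ioc_subset_Icc_self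
    refine Integrable.bdd_mul h1 (c := max (-a) b) hφ.aestronglyMeasurable ?_
    exact Eventually.of_forall fun v => by simpa using hM v
  have hlo : a * ∫ v in (-1 : ℝ)..1, u.im / ‖(v : ℂ) - u‖ ^ 2 ≤
      ∫ v in (-1 : ℝ)..1, φ v * (u.im / ‖(v : ℂ) - u‖ ^ 2) := by
    rw [← intervalIntegral.integral_const_mul]
    refine intervalIntegral.integral_mono_on (by norm_num)
      ((hcont.intervalIntegrable _ _).const_mul a) hintφ fun v _ => ?_
    exact mul_le_mul_of_nonneg_right (ha v) (hP0 v)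
  have hhi : ∫ v in (-1 : ℝ)..1, φ v * (u.im / ‖(v : ℂ) - u‖ ^ 2) ≤
      b * ∫ v in (-1 : ℝ)..1, u.im / ‖(v : ℂ) - u‖ ^ 2 := by
    rw [← intervalIntegral.integral_const_mul]
    refine intervalIntegral.integral_mono_on (by norm_num) hintφ
      ((hcont.intervalIntegrable _ _).const_mul b) fun v _ => ?_
    exact mul_le_mul_of_nonneg_right (hb v) (hP0 v)
  have hpi := Real.pi_pos
  constructor
  · rw [one_div, ← div_eq_inv_mul, le_div_iff₀ hpi]
    nlinarith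
  · rw [one_div, ← div_eq_inv_mul, div_le_iff₀ hpi]
    nlinarith

end

end Pool.H90.VK
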