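import Pool.Agent.H90.VK.ZD

/-!
# ZKF : `ZK_far`; logarithmic behaviour of the Cauchy integrals of `chiR · e` and `chiL · e`

Let `Lock E v₀ e`, `E ⊂ [-1,1]`, `δ > 0`, `[v₀-δ, v₀+δ] ⊂ [-1,1]`. For `Im u > 0` let
`CR(u) = Re ∫_{-1}^1 chiR(v) e(v)/(v-u) dv`, `CL(u) = Re ∫_{-1}^1 chiL(v) e(v)/(v-u) dv`, `x = Re u`,
`y = Im u`, `d = |u - v₀|`; `Re 1/(v-u) = (v-x)/|v-u|²`.

`ZK_right`: for every `ε > 0` there is `C` with `CR(u) ≥ (1-ε) log⁺(1/d) - C` for all `Im u > 0`.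
`ZK_left`: `CL(u) ≤ -(1-ε) log⁺(1/d) + C`.
`ZK_far`: for every `η > 0` there is `C` with `|CR(u)|, |CL(u)| ≤ C` if `|Re u - v₀| ≥ η`, `Im u > 0`.

Proof of `ZK_right` (translate so that `v₀ = 0`).
Key estimate (K): for `0 < d ≤ δ`, `∫_d^δ (1 - e(v))/v dv ≤ ε log (1/d) + C_ε`: with
`m(s) = ∫_0^s (1-e)`, integrate by parts (or dyadic decomposition): `m(s) ≤ s` always and `m(s) ≤ ε s` for
`s ≤ s₀` (`leb`), so `∫_d^δ (1-e)/v dv = m(δ)/δ - m(d)/d + ∫_d^δ m(v)/v² dv ≤ 1 + ε log⁺(s₀/d) + log⁺(δ/s₀)`.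
Case `x ≤ 0`: the integrand `(1-v/δ) e(v) (v-x)/|v-u|²` is `≥ 0` on `(0,δ)`. For `v ≥ d`: `q = v - x ∈ [v, v+d]`,
`y ≤ d`: `q/(q²+y²) = 1/(q + y²/q) ≥ 1/(v + 2d)`. So `CR ≥ ∫_d^δ (1 - v/δ) e(v)/(v+2d) dv
≥ ∫_d^δ e(v)/(v+2d) dv - 1 ≥ log((δ+2d)/(3d)) - ∫_d^δ (1-e)/v dv - 1` (if `d ≤ δ`; if `d > δ` then
`CR ≥ 0` and `log⁺(1/d) ≤ log⁺(1/δ)`).
Case `x > 0`: `CR = g(x) Re∫ e/(v-u) dv + ∫ (g(v) - g(x)) e(v) (v-x)/|v-u|² dv`, `g = chiR`, where
`|g(x) Re ∫ e/(v-u)| ≤ 2π` (`Lock.bdd`). For `v > 0`: `|g(v)-g(x)| ≤ |v-x|/δ`, contribution `≥ -2/δ`.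
For `v < 0`: `g(v) = 0` and `-g(x) e(v)(v-x)/|v-u|² = g(x) e(v) (x-v)/|v-u|² ≥ 0`, and as in the first case
(mirrored) its integral is `≥ g(x) ((1-ε) log⁺(1/d) - C)`; and
`(1 - g(x)) log⁺(1/d) ≤ (x/δ) log⁺(1/x) ≤ 1/δ` for `0 < x < δ` (as `d ≥ x`), and for `x ≥ δ`
`log⁺(1/d) ≤ log⁺(1/δ)`.
`ZK_left` is the mirror image (`v ↦ -v`), or repeat the proof with signs changed.
`ZK_far` : `g(x) Re∫ e/(v-u) dv` bounded by `2π`; `|g(v)-g(x)| ≤ |v-x|/δ` if `v` and `x` are on the same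
side of `v₀`, contribution `≤ 2/δ`; on the other side of `v₀`: `|v - x| ≥ η`, `|(v-x)/|v-u|²| ≤ 1/η`,
contribution `≤ 2/η`.
-/

open MeasureTheory Set Filter Topology Metric
open scoped Real ENNReal ComplexConjugate

namespace Pool.H90.VK

noncomputable section

theorem ZKF_ne {u : ℂ} (hu : 0 < u.im) (v : ℝ) : (v : ℂ) - u ≠ 0 := by
  intro h
  have := congrArg Complex.im h
  simp at this
  exact hu.ne' this

theorem ZKF_im_le {u : ℂ} (hu : 0 < u.im) (v : ℝ) : u.im ≤ ‖(v : ℂ) - u‖ := by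
  have h := Complex.abs_im_le_norm ((v : ℂ) - u)
  simp only [Complex.sub_im, Complex.ofReal_im, zero_sub, abs_neg] at h
  rwa [abs_of_pos hu] at h

theorem ZKF_re_le (u : ℂ) (v : ℝ) : |v - u.re| ≤ ‖(v : ℂ) - u‖ := by
  have h := Complex.abs_re_le_norm ((v : ℂ) - u)
  simpa using h

theorem ZKF_ii (g : ℝ → ℝ) (hg : Measurable g) (hb : ∀ v, |g v| ≤ 1) {u : ℂ} (hu : 0 < u.im) :
    IntervalIntegrable (fun v : ℝ => ((g v : ℝ) : ℂ) / ((v : ℂ) - u)) volume (-1) 1 := by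
  rw [intervalIntegrable_iff]
  refine Measure.integrableOn_of_bounded (M := 1 / u.im) ?_ ?_ ?_
  · rw [uIoc_of_le (by norm_num)]
    simp
  · have : Measurable (fun v : ℝ => ((g v : ℝ) : ℂ) / ((v : ℂ) - u)) := by fun_prop
    exact this.aestronglyMeasurable
  · refine Filter.Eventually.of_forall fun v => ?_
    rw [norm_div, Complex.norm_real, Real.norm_eq_abs]
    exact div_le_div₀ zero_le_one (hb v) hu (ZKF_im_le hu v)

theorem ZKF_gen (g e : ℝ → ℝ) (hg : Measurable g) (he : Measurable e) (hg0 : ∀ v, 0 ≤ g v)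
    (hg1 : ∀ v, g v ≤ 1) (he0 : ∀ v, 0 ≤ e v) (he1 : ∀ v, e v ≤ 1) (K : ℝ) (hK : 0 ≤ K) {u : ℂ}
    (hu : 0 < u.im) (hb : |(∫ v in (-1 : ℝ)..1, (e v : ℂ) / (v - u)).re| ≤ 2 * π)
    (hlip : ∀ v, |g v - g u.re| ≤ K * |v - u.re|) :
    |(∫ v in (-1 : ℝ)..1, ((g v * e v : ℝ) : ℂ) / (v - u)).re| ≤ 2 * π + 2 * K := by
  have i1 : IntervalIntegrable (fun v : ℝ => ((g v * e v : ℝ) : ℂ) / ((v : ℂ) - u)) volume (-1) 1 := by
    refine ZKF_ii (fun v => g v * e v) (hg.mul he) (fun v => ?_) hu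
    show |g v * e v| ≤ 1
    rw [abs_of_nonneg (mul_nonneg (hg0 v) (he0 v))]
    exact mul_le_one₀ (hg1 v) (he0 v) (he1 v)
  have i2 : IntervalIntegrable (fun v : ℝ => ((e v : ℝ) : ℂ) / ((v : ℂ) - u)) volume (-1) 1 := by
    refine ZKF_ii e he (fun v => ?_) hu
    rw [abs_of_nonneg (he0 v)]
    exact he1 v
  have e1 : (∫ v in (-1 : ℝ)..1, ((g v * e v : ℝ) : ℂ) / (v - u))
      = ((g u.re : ℝ) : ℂ) * (∫ v in (-1 : ℝ)..1, (e v : ℂ) / (v - u))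
        + ∫ v in (-1 : ℝ)..1, (((g v - g u.re) * e v : ℝ) : ℂ) / (v - u) := by
    rw [← intervalIntegral.integral_const_mul, ← intervalIntegral.integral_add (i2.const_mul _)]
    · apply intervalIntegral.integral_congr
      intro v _
      push_cast
      ring
    · have := i1.sub (i2.const_mul ((g u.re : ℝ) : ℂ))
      refine this.congr (fun v _ => ?_)
      push_cast
      ring
  rw [e1, Complex.add_re, Complex.re_ofReal_mul]
  have b1 : |g u.re * (∫ v in (-1 : ℝ)..1, (e v : ℂ) / (v - u)).re| ≤ 2 * π := by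
    rw [abs_mul, abs_of_nonneg (hg0 _)]
    calc g u.re * |(∫ v in (-1 : ℝ)..1, (e v : ℂ) / (v - u)).re| ≤ 1 * (2 * π) :=
          mul_le_mul (hg1 _) hb (abs_nonneg _) zero_le_one
      _ = 2 * π := one_mul _
  have b2 : ‖∫ v in (-1 : ℝ)..1, (((g v - g u.re) * e v : ℝ) : ℂ) / (v - u)‖ ≤ K * |1 - (-1)| := by
    apply intervalIntegral.norm_integral_le_of_norm_le_const
    intro v _
    have hpos : 0 < ‖(v : ℂ) - u‖ := norm_pos_iff.2 (ZKF_ne hu v)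
    rw [norm_div, Complex.norm_real, Real.norm_eq_abs, div_le_iff₀ hpos, abs_mul,
      abs_of_nonneg (he0 v)]
    calc |g v - g u.re| * e v ≤ (K * |v - u.re|) * 1 :=
          mul_le_mul (hlip v) (he1 v) (he0 v) (by positivity)
      _ = K * |v - u.re| := mul_one _
      _ ≤ K * ‖(v : ℂ) - u‖ := mul_le_mul_of_nonneg_left (ZKF_re_le u v) hK
  have b3 := (Complex.abs_re_le_norm _).trans b2
  have e2 : |(1:ℝ) - (-1)| = 2 := by norm_num
  rw [e2] at b3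
  refine (abs_add_le _ _).trans ?_
  linarith

theorem ZKF_measR (v₀ δ : ℝ) : Measurable (chiR v₀ δ) := by
  unfold chiR
  refine Measurable.ite ?_ (by fun_prop) measurable_const
  exact measurableSet_Ioo (a := v₀) (b := v₀ + δ)

theorem ZKF_measL (v₀ δ : ℝ) : Measurable (chiL v₀ δ) := by
  unfold chiL
  refine Measurable.ite ?_ (by fun_prop) measurable_const
  exact measurableSet_Ioo (a := v₀ - δ) (b := v₀)

theorem ZKF_R01 {v₀ δ : ℝ} (hδ : 0 < δ) (v : ℝ) : 0 ≤ chiR v₀ δ v ∧ chiR v₀ δ v ≤ 1 := by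
  unfold chiR
  split_ifs with h
  · have h1 : 0 ≤ (v - v₀) / δ := div_nonneg (by linarith [h.1]) hδ.le
    have h2 : (v - v₀) / δ ≤ 1 := by rw [div_le_one hδ]; linarith [h.2]
    constructor <;> linarith
  · exact ⟨le_rfl, zero_le_one⟩

theorem ZKF_LR (v₀ δ v : ℝ) : chiL v₀ δ v = chiR (-v₀) δ (-v) := by
  unfold chiL chiR
  by_cases h : v₀ - δ < v ∧ v < v₀
  · rw [if_pos h, if_pos ⟨by linarith [h.2], by linarith [h.1]⟩]
    ring
  · rw [if_neg h, if_neg]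
    rintro ⟨h1, h2⟩
    exact h ⟨by linarith, by linarith⟩

theorem ZKF_lipR {v₀ δ η : ℝ} (hδ : 0 < δ) (hη : 0 < η) {x : ℝ} (hx : η ≤ |x - v₀|) (v : ℝ) :
    |chiR v₀ δ v - chiR v₀ δ x| ≤ (1 / δ + 1 / η) * |v - x| := by
  have hv := ZKF_R01 (v₀ := v₀) hδ v
  have hx01 := ZKF_R01 (v₀ := v₀) hδ x
  have h1 : |chiR v₀ δ v - chiR v₀ δ x| ≤ 1 := by
    rw [abs_le]; constructor <;> linarith [hv.1, hv.2, hx01.1, hx01.2]
  have hδ' : 0 ≤ 1 / δ * |v - x| := by positivity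
  have hη' : 0 ≤ 1 / η * |v - x| := by positivity
  have hfar : η ≤ |v - x| → |chiR v₀ δ v - chiR v₀ δ x| ≤ (1 / δ + 1 / η) * |v - x| := by
    intro h
    have h2 : 1 ≤ 1 / η * |v - x| := by
      rw [div_mul_eq_mul_div, one_mul, le_div_iff₀ hη, one_mul]; exact h
    nlinarith
  by_cases hx0 : x < v₀
  · have hx' : η ≤ v₀ - x := by
      rw [abs_of_neg (by linarith)] at hx; linarith
    by_cases hv0 : v₀ < v
    · apply hfar
      rw [abs_of_pos (by linarith)]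
      linarith
    · have e1 : chiR v₀ δ v = 0 := by
        unfold chiR
        rw [if_neg (fun h => hv0 h.1)]
      have e2 : chiR v₀ δ x = 0 := by
        unfold chiR
        rw [if_neg (fun h => by linarith [h.1])]
      rw [e1, e2, sub_self, abs_zero]
      positivity
  · have hx' : η ≤ x - v₀ := by
      rw [abs_of_nonneg (by linarith)] at hx; exact hx
    by_cases hv0 : v₀ < v
    · have key : ∀ y, v₀ < y → chiR v₀ δ y = max 0 (1 - (y - v₀) / δ) := by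
        intro y hy
        unfold chiR
        split_ifs with h
        · rw [max_eq_right]
          have h2 : (y - v₀) / δ ≤ 1 := by rw [div_le_one hδ]; linarith [h.2]
          linarith
        · rw [max_eq_left]
          have h3 : v₀ + δ ≤ y := by
            by_contra h4
            exact h ⟨hy, not_le.1 h4⟩
          have h2 : 1 ≤ (y - v₀) / δ := by rw [le_div_iff₀ hδ]; linarith
          linarith
      rw [key v hv0, key x (by linarith)]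
      have h3 : |max 0 (1 - (v - v₀) / δ) - max 0 (1 - (x - v₀) / δ)|
          ≤ |(1 - (v - v₀) / δ) - (1 - (x - v₀) / δ)| := by
        have := abs_max_sub_max_le_abs (1 - (v - v₀) / δ) (1 - (x - v₀) / δ) 0
        rwa [max_comm _ (0:ℝ), max_comm _ (0:ℝ)] at this
      have h4 : (1 - (v - v₀) / δ) - (1 - (x - v₀) / δ) = -(1 / δ * (v - x)) := by
        field_simp
        ring
      rw [h4, abs_neg, abs_mul, abs_of_pos (by positivity : 0 < 1 / δ)] at h3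
      nlinarith
    · apply hfar
      rw [abs_of_neg (by linarith)]
      linarith

theorem ZK_far {E : Set ℝ} {v₀ : ℝ} {e : ℝ → ℝ} (hL : Lock E v₀ e) (δ : ℝ) (hδ : 0 < δ)
    (h1 : -1 ≤ v₀ - δ) (h2 : v₀ + δ ≤ 1) (η : ℝ) (hη : 0 < η) :
    ∃ C : ℝ, ∀ u : ℂ, 0 < u.im → η ≤ |u.re - v₀| →
      |(∫ v in (-1 : ℝ)..1, ((chiR v₀ δ v * e v : ℝ) : ℂ) / (v - u)).re| ≤ C ∧
      |(∫ v in (-1 : ℝ)..1, ((chiL v₀ δ v * e v : ℝ) : ℂ) / (v - u)).re| ≤ C := by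
  have hK : 0 ≤ 1 / δ + 1 / η := by positivity
  refine ⟨2 * π + 2 * (1 / δ + 1 / η), fun u hu hx => ⟨?_, ?_⟩⟩
  · exact ZKF_gen (chiR v₀ δ) e (ZKF_measR v₀ δ) hL.meas (fun v => (ZKF_R01 hδ v).1)
      (fun v => (ZKF_R01 hδ v).2) hL.nonneg hL.le_one _ hK hu (hL.bdd u hu)
      (fun v => ZKF_lipR hδ hη hx v)
  · refine ZKF_gen (chiL v₀ δ) e (ZKF_measL v₀ δ) hL.meas ?_ ?_ hL.nonneg hL.le_one _ hK hu
      (hL.bdd u hu) ?_
    · intro v
      rw [ZKF_LR]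
      exact (ZKF_R01 hδ _).1
    · intro v
      rw [ZKF_LR]
      exact (ZKF_R01 hδ _).2
    · intro v
      have hx2 : η ≤ |-u.re - -v₀| := by
        rw [show -u.re - -v₀ = -(u.re - v₀) by ring, abs_neg]; exact hx
      have h3 := ZKF_lipR (v₀ := -v₀) hδ hη hx2 (-v)
      rw [ZKF_LR, ZKF_LR]
      rwa [show -v - -u.re = -(v - u.re) by ring, abs_neg] at h3

end

end Pool.H90.VK
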