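import Pool.Agent.H90.VK.ZKR

/-!
# ZKL : `ZK_left`; logarithmic behaviour of the Cauchy integrals of `chiR · e` and `chiL · e`

Let `Lock E v₀ e`, `E ⊂ [-1,1]`, `δ > 0`, `[v₀-δ, v₀+δ] ⊂ [-1,1]`. For `Im u > 0` let
`CR(u) = Re ∫_{-1}^1 chiR(v) e(v)/(v-u) dv`, `CL(u) = Re ∫_{-1}^1 chiL(v) e(v)/(v-u) dv`, `x = Re u`,
`y = Im u`, `d = |u - v₀|`; `Re 1/(v-u) = (v-x)/|v-u|²`.

`ZK_right`: for every `ε > 0` there is `C` with `CR(u) ≥ (1-ε) log⁺(1/d) - C` for all `Im u > 0`.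
`ZK_left`: `CL(u) ≤ -(1-ε) log⁺(1/d) + C`.
`ZK_far`: for every `η > 0` there is `C` with `|CR(u)|, |CL(u)| ≤ C` if `|Re u - v₀| ≥ η`, `Im u > 0`.

Proof of `ZK_right` (translate so that `v₀ = 0`).
Key estimate (K): for `0 < d ≤ δ`, `∫_d^δ (1 - e(v))/v dv ≤ ε log (1/d) + C_ε`: with
`m(s) = ∫_0^s (1-e)`, integrate by parts (or dyadic decomposition): `m(s) ≤ s` always and `m(s) ≤ ε s` for
`s ≤ s₀` (`leb`), so `∫_d^δ (1-e)/v dv = m(δ)/δ - m(d)/d + ∫_d^δ m(v)/v² dv ≤ 1 + ε log⁺(s₀/d) + log⁺(δ/s₀)`.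
Case `x ≤ 0`: the integrand `(1-v/δ) e(v) (v-x)/|v-u|²` is `≥ 0` on `(0,δ)`. For `v ≥ d`: `q = v - x ∈ [v, v+d]`,
`y ≤ d`: `q/(q²+y²) = 1/(q + y²/q) ≥ 1/(v + 2d)`. So `CR ≥ ∫_d^δ (1 - v/δ) e(v)/(v+2d) dv
≥ ∫_d^δ e(v)/(v+2d) dv - 1 ≥ log((δ+2d)/(3d)) - ∫_d^δ (1-e)/v dv - 1` (if `d ≤ δ`; if `d > δ` then
`CR ≥ 0` and `log⁺(1/d) ≤ log⁺(1/δ)`).
Case `x > 0`: `CR = g(x) Re∫ e/(v-u) dv + ∫ (g(v) - g(x)) e(v) (v-x)/|v-u|² dv`, `g = chiR`, where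
`|g(x) Re ∫ e/(v-u)| ≤ 2π` (`Lock.bdd`). For `v > 0`: `|g(v)-g(x)| ≤ |v-x|/δ`, contribution `≥ -2/δ`.
For `v < 0`: `g(v) = 0` and `-g(x) e(v)(v-x)/|v-u|² = g(x) e(v) (x-v)/|v-u|² ≥ 0`, and as in the first case
(mirrored) its integral is `≥ g(x) ((1-ε) log⁺(1/d) - C)`; and
`(1 - g(x)) log⁺(1/d) ≤ (x/δ) log⁺(1/x) ≤ 1/δ` for `0 < x < δ` (as `d ≥ x`), and for `x ≥ δ`
`log⁺(1/d) ≤ log⁺(1/δ)`.
`ZK_left` is the mirror image (`v ↦ -v`), or repeat the proof with signs changed.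
`ZK_far` : `g(x) Re∫ e/(v-u) dv` bounded by `2π`; `|g(v)-g(x)| ≤ |v-x|/δ` if `v` and `x` are on the same
side of `v₀`, contribution `≤ 2/δ`; on the other side of `v₀`: `|v - x| ≥ η`, `|(v-x)/|v-u|²| ≤ 1/η`,
contribution `≤ 2/η`.

(`ZK_left` can be deduced from `ZK_right` for the reflected lock: `Lock E v₀ e` implies
`Lock (-E) (-v₀) (fun v => e (-v))`, `u ↦ -conj u`.)
-/

open MeasureTheory Set Filter Topology Metric
open scoped Real ENNReal ComplexConjugate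

namespace Pool.H90.VK

noncomputable section

theorem ZKL_refl (F : ℝ → ℝ) (u : ℂ) :
    (∫ v in (-1 : ℝ)..1, ((F (-v) : ℝ) : ℂ) / (v - u)).re =
      -(∫ v in (-1 : ℝ)..1, ((F v : ℝ) : ℂ) / (v - (-conj u))).re := by
  have e1 : ∫ v in (-1 : ℝ)..1, ((F (-v) : ℝ) : ℂ) / (v - u) =
      ∫ v in (-1 : ℝ)..1, -conj (((F v : ℝ) : ℂ) / (v - (-conj u))) := by
    have h := intervalIntegral.integral_comp_neg (a := (-1 : ℝ)) (b := 1)
      (fun v : ℝ => -conj (((F v : ℝ) : ℂ) / (v - (-conj u))))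
    rw [neg_neg] at h
    rw [← h]
    refine intervalIntegral.integral_congr fun v _ => ?_
    simp only [map_div₀, map_sub, map_neg, Complex.conj_ofReal, Complex.conj_conj]
    rw [← neg_div_neg_eq, ← neg_div]
    congr 1
    push_cast
    ring
  rw [e1, intervalIntegral.integral_neg, Complex.neg_re]
  congr 1
  rw [intervalIntegral.integral_of_le (by norm_num), intervalIntegral.integral_of_le (by norm_num),
    integral_conj, Complex.conj_re]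

theorem ZKL_lock {E : Set ℝ} {v₀ : ℝ} {e : ℝ → ℝ} (hL : Lock E v₀ e) :
    Lock (Neg.neg ⁻¹' E) (-v₀) (fun v => e (-v)) where
  meas := hL.meas.comp measurable_neg
  nonneg v := hL.nonneg _
  le_one v := hL.le_one _
  off v hv := hL.off _ hv
  leb ε hε := by
    obtain ⟨s₀, hs₀, h⟩ := hL.leb ε hε
    refine ⟨s₀, hs₀, fun s hs hs1 => ?_⟩
    have h3 := h s hs hs1
    rw [intervalIntegral.integral_comp_neg (fun v => 1 - e v)]
    have e1 : -(-v₀ + s) = v₀ - s := by ring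
    have e2 : -(-v₀ - s) = v₀ + s := by ring
    rw [e1, e2]
    exact h3
  bdd u hu := by
    rw [ZKL_refl e u, abs_neg]
    exact hL.bdd (-conj u) (by simpa using hu)

theorem ZK_left {E : Set ℝ} {v₀ : ℝ} {e : ℝ → ℝ} (hL : Lock E v₀ e) (δ : ℝ) (hδ : 0 < δ)
    (h1 : -1 ≤ v₀ - δ) (h2 : v₀ + δ ≤ 1) (ε : ℝ) (hε : 0 < ε) :
    ∃ C : ℝ, ∀ u : ℂ, 0 < u.im →
      (∫ v in (-1 : ℝ)..1, ((chiL v₀ δ v * e v : ℝ) : ℂ) / (v - u)).re ≤
        -(1 - ε) * max 0 (Real.log (1 / ‖u - v₀‖)) + C := by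
  obtain ⟨C, hC⟩ := ZK_right (ZKL_lock hL) δ hδ (by linarith) (by linarith) ε hε
  refine ⟨C, fun u hu => ?_⟩
  have h3 := hC (-conj u) (by simpa using hu)
  have e1 : (∫ v in (-1 : ℝ)..1, ((chiR (-v₀) δ v * e (-v) : ℝ) : ℂ) / (v - (-conj u))).re =
      -(∫ v in (-1 : ℝ)..1, ((chiL v₀ δ v * e v : ℝ) : ℂ) / (v - u)).re := by
    have h4 := ZKL_refl (fun v => chiL v₀ δ v * e v) (-conj u)
    have e2 : -conj (-conj u) = u := by simp
    rw [e2] at h4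
    rw [← h4]
    congr 1
    refine intervalIntegral.integral_congr fun v _ => ?_
    have e3 : chiR (-v₀) δ v = chiL v₀ δ (-v) := by
      unfold chiR chiL
      have hiff : (-v₀ < v ∧ v < -v₀ + δ) ↔ (v₀ - δ < -v ∧ -v < v₀) :=
        ⟨fun h => ⟨by linarith [h.2], by linarith [h.1]⟩,
          fun h => ⟨by linarith [h.2], by linarith [h.1]⟩⟩
      by_cases h : v₀ - δ < -v ∧ -v < v₀
      · rw [if_pos h, if_pos (hiff.2 h)]
        congr 2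
        ring
      · rw [if_neg h, if_neg (fun h' => h (hiff.1 h'))]
    simp only [e3]
  have e4 : ‖-conj u - ((-v₀ : ℝ) : ℂ)‖ = ‖u - v₀‖ := by
    have : -conj u - ((-v₀ : ℝ) : ℂ) = -conj (u - v₀) := by
      simp only [map_sub, Complex.conj_ofReal, Complex.ofReal_neg]
      ring
    rw [this, norm_neg, RCLike.norm_conj]
  rw [e1, e4] at h3
  linarith

end

end Pool.H90.VK
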