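import Pool.Agent.H90.VK.ZD

/-!
# ZKR : `ZK_right`; logarithmic behaviour of the Cauchy integrals of `chiR · e` and `chiL · e`

Let `Lock E v₀ e`, `E ⊂ [-1,1]`, `δ > 0`, `[v₀-δ, v₀+δ] ⊂ [-1,1]`. For `Im u > 0` let
`CR(u) = Re ∫_{-1}^1 chiR(v) e(v)/(v-u) dv`, `CL(u) = Re ∫_{-1}^1 chiL(v) e(v)/(v-u) dv`, `x = Re u`,
`y = Im u`, `d = |u - v₀|`; `Re 1/(v-u) = (v-x)/|v-u|²`.

`ZK_right`: for every `ε > 0` there is `C` with `CR(u) ≥ (1-ε) log⁺(1/d) - C` for all `Im u > 0`.
`ZK_left`: `CL(u) ≤ -(1-ε) log⁺(1/d) + C`.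
`ZK_far`: for every `η > 0` there is `C` with `|CR(u)|, |CL(u)| ≤ C` if `|Re u - v₀| ≥ η`, `Im u > 0`.

Proof of `ZK_right` (translate so that `v₀ = 0`).
Key estimate (K): for `0 < d ≤ δ`, `∫_d^δ (1 - e(v))/v dv ≤ ε log (1/d) + C_ε`: with
`m(s) = ∫_0^s (1-e)`, integrate by parts (or dyadic decomposition): `m(s) ≤ s` always and `m(s) ≤ ε s` for
`s ≤ s₀` (`leb`), so `∫_d^δ (1-e)/v dv = m(δ)/δ - m(d)/d + ∫_d^δ m(v)/v² dv ≤ 1 + ε log⁺(s₀/d) + log⁺(δ/s₀)`.
Case `x ≤ 0`: the integrand `(1-v/δ) e(v) (v-x)/|v-u|²` is `≥ 0` on `(0,δ)`. For `v ≥ d`: `q = v - x ∈ [v, v+d]`,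
`y ≤ d`: `q/(q²+y²) = 1/(q + y²/q) ≥ 1/(v + 2d)`. So `CR ≥ ∫_d^δ (1 - v/δ) e(v)/(v+2d) dv
≥ ∫_d^δ e(v)/(v+2d) dv - 1 ≥ log((δ+2d)/(3d)) - ∫_d^δ (1-e)/v dv - 1` (if `d ≤ δ`; if `d > δ` then
`CR ≥ 0` and `log⁺(1/d) ≤ log⁺(1/δ)`).
Case `x > 0`: `CR = g(x) Re∫ e/(v-u) dv + ∫ (g(v) - g(x)) e(v) (v-x)/|v-u|² dv`, `g = chiR`, where
`|g(x) Re ∫ e/(v-u)| ≤ 2π` (`Lock.bdd`). For `v > 0`: `|g(v)-g(x)| ≤ |v-x|/δ`, contribution `≥ -2/δ`.
For `v < 0`: `g(v) = 0` and `-g(x) e(v)(v-x)/|v-u|² = g(x) e(v) (x-v)/|v-u|² ≥ 0`, and as in the first case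
(mirrored) its integral is `≥ g(x) ((1-ε) log⁺(1/d) - C)`; and
`(1 - g(x)) log⁺(1/d) ≤ (x/δ) log⁺(1/x) ≤ 1/δ` for `0 < x < δ` (as `d ≥ x`), and for `x ≥ δ`
`log⁺(1/d) ≤ log⁺(1/δ)`.
`ZK_left` is the mirror image (`v ↦ -v`), or repeat the proof with signs changed.
`ZK_far` : `g(x) Re∫ e/(v-u) dv` bounded by `2π`; `|g(v)-g(x)| ≤ |v-x|/δ` if `v` and `x` are on the same
side of `v₀`, contribution `≤ 2/δ`; on the other side of `v₀`: `|v - x| ≥ η`, `|(v-x)/|v-u|²| ≤ 1/η`,
contribution `≤ 2/η`.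
-/

open MeasureTheory Set Filter Topology Metric
open scoped Real ENNReal ComplexConjugate

namespace Pool.H90.VK

noncomputable section

/-- Integration by parts for `h / v`. -/
theorem ZKR_K {h : ℝ → ℝ} {d r ε : ℝ} (hd : 0 < d) (hdr : d ≤ r)
    (hh : IntervalIntegrable h volume d r)
    (hm : ∀ s ∈ Icc d r, ∫ v in d..s, h v ≤ ε * s) :
    ∫ v in d..r, h v / v ≤ ε + ε * Real.log (r / d) := by
  have hr : 0 < r := lt_of_lt_of_le hd hdr
  have h0 : ∀ x ∈ uIcc d r, x ≠ 0 := by
    intro x hx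
    rw [uIcc_of_le hdr] at hx
    exact (lt_of_lt_of_le hd hx.1).ne'
  have hf : AbsolutelyContinuousOnInterval (fun v : ℝ => v⁻¹) d r := by
    apply ContDiffOn.absolutelyContinuousOnInterval
    exact ContDiffOn.inv contDiffOn_id h0
  have hg : AbsolutelyContinuousOnInterval (fun v => ∫ t in d..v, h t) d r :=
    hh.absolutelyContinuousOnInterval_intervalIntegral (by simp)
  have e1 := hf.integral_mul_deriv_eq_deriv_mul hg
  have e2 : ∫ v in d..r, h v / v = ∫ v in d..r, v⁻¹ * deriv (fun v => ∫ t in d..v, h t) v := by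
    apply intervalIntegral.integral_congr_ae
    filter_upwards [hh.ae_hasDerivAt_integral] with v hv hv'
    rw [(hv (uIoc_subset_uIcc hv') d (by simp)).deriv]
    ring
  have hci : ContinuousOn (fun v : ℝ => v⁻¹) (uIcc d r) := continuousOn_inv₀.mono h0
  have e3 : -(ε * Real.log (r / d)) ≤
      ∫ v in d..r, deriv (fun v : ℝ => v⁻¹) v * ∫ t in d..v, h t := by
    have e4 : -(ε * Real.log (r / d)) = ∫ v in d..r, -(ε * v⁻¹) := by
      rw [intervalIntegral.integral_neg, intervalIntegral.integral_const_mul,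
        integral_inv_of_pos hd hr]
    rw [e4]
    apply intervalIntegral.integral_mono_on hdr
    · exact (hci.const_smul ε).neg.intervalIntegrable
    · refine ContinuousOn.intervalIntegrable ?_
      have e5 : (fun v : ℝ => deriv (fun v : ℝ => v⁻¹) v * ∫ t in d..v, h t) =
          fun v : ℝ => -((v⁻¹) ^ 2) * ∫ t in d..v, h t := by
        funext v
        rw [deriv_inv, inv_pow]
      rw [e5]
      exact (hci.pow 2).neg.mul hg.continuousOn
    · intro v hv
      have hv0 : 0 < v := lt_of_lt_of_le hd hv.1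
      have e6 : ε * v⁻¹ = (v ^ 2)⁻¹ * (ε * v) := by field_simp
      rw [deriv_inv, e6, neg_mul]
      exact neg_le_neg (mul_le_mul_of_nonneg_left (hm v hv) (by positivity))
  have e7 : r⁻¹ * ∫ t in d..r, h t ≤ ε := by
    have := mul_le_mul_of_nonneg_left (hm r ⟨hdr, le_rfl⟩) (inv_nonneg.2 hr.le)
    calc _ ≤ _ := this
      _ = ε := by field_simp
  rw [e2, e1, intervalIntegral.integral_same]
  linarith

/-- The one-sided estimate. -/
theorem ZKR_H {e : ℝ → ℝ} {δ r ε p y d : ℝ} (hem : Measurable e) (he0 : ∀ v, 0 ≤ e v)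
    (he1 : ∀ v, e v ≤ 1) (hr : 0 < r) (hrδ : r ≤ δ) (hr1 : r ≤ 1) (hε : 0 < ε)
    (hm : ∀ s : ℝ, 0 < s → s ≤ r → ∫ v in (0 : ℝ)..s, (1 - e v) ≤ ε * s)
    (hp : 0 ≤ p) (hy : 0 < y) (hd : 0 < d) (hdd : d ^ 2 = p ^ 2 + y ^ 2) :
    (1 - ε) * max 0 (Real.log (1 / d)) - (Real.log (1 / r) + Real.log 3 + ε + 1) ≤
      ∫ v in (0 : ℝ)..δ, (1 - v / δ) * e v * ((v + p) / ((v + p) ^ 2 + y ^ 2)) := by
  have hδ : 0 < δ := lt_of_lt_of_le hr hrδ
  have hpd : p ≤ d := by nlinarith
  have hyd : y ≤ d := by nlinarith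
  have hlr : 0 ≤ Real.log (1 / r) := Real.log_nonneg (by rw [le_div_iff₀ hr]; linarith)
  have hl3 : 0 ≤ Real.log 3 := Real.log_nonneg (by norm_num)
  have hF0 : ∀ v ∈ Icc (0 : ℝ) δ, 0 ≤ (1 - v / δ) * e v * ((v + p) / ((v + p) ^ 2 + y ^ 2)) := by
    intro v hv
    have h1 : v / δ ≤ 1 := by rw [div_le_one hδ]; exact hv.2
    have h2 : 0 ≤ v + p := add_nonneg hv.1 hp
    exact mul_nonneg (mul_nonneg (by linarith) (he0 v)) (div_nonneg h2 (by positivity))
  have hei : ∀ a b : ℝ, IntervalIntegrable e volume a b := by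
    intro a b
    refine (intervalIntegrable_const (c := (1 : ℝ))).mono_fun hem.aestronglyMeasurable ?_
    refine Eventually.of_forall fun v => ?_
    show ‖e v‖ ≤ ‖(1 : ℝ)‖
    rw [Real.norm_eq_abs, norm_one, abs_of_nonneg (he0 v)]
    exact he1 v
  have hk : Continuous fun v : ℝ => (1 - v / δ) * ((v + p) / ((v + p) ^ 2 + y ^ 2)) := by
    refine Continuous.mul (by fun_prop) (Continuous.div (by fun_prop) (by fun_prop) ?_)
    intro v
    positivity
  have hFi : ∀ a b : ℝ, IntervalIntegrable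
      (fun v => (1 - v / δ) * e v * ((v + p) / ((v + p) ^ 2 + y ^ 2))) volume a b := by
    intro a b
    have := (hei a b).mul_continuousOn hk.continuousOn
    refine this.congr fun v _ => ?_
    show e v * ((1 - v / δ) * ((v + p) / ((v + p) ^ 2 + y ^ 2))) = _
    ring
  rcases le_or_gt r d with hrd | hdr
  · -- `d ≥ r`
    have h1 : 0 ≤ ∫ v in (0 : ℝ)..δ, (1 - v / δ) * e v * ((v + p) / ((v + p) ^ 2 + y ^ 2)) :=
      intervalIntegral.integral_nonneg hδ.le hF0
    have h2 : max 0 (Real.log (1 / d)) ≤ Real.log (1 / r) := by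
      refine max_le hlr (Real.log_le_log (by positivity) ?_)
      exact one_div_le_one_div_of_le hr hrd
    have h3 : 0 ≤ max 0 (Real.log (1 / d)) := le_max_left _ _
    nlinarith
  · -- `d < r`
    have h1 : max 0 (Real.log (1 / d)) = Real.log (1 / d) :=
      max_eq_right (Real.log_nonneg (by rw [le_div_iff₀ hd]; linarith))
    have h2 : ∫ v in d..r, (1 - v / δ) * e v * ((v + p) / ((v + p) ^ 2 + y ^ 2)) ≤
        ∫ v in (0 : ℝ)..δ, (1 - v / δ) * e v * ((v + p) / ((v + p) ^ 2 + y ^ 2)) := by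
      refine intervalIntegral.integral_mono_interval hd.le hdr.le hrδ ?_ (hFi _ _)
      refine (ae_restrict_mem measurableSet_Ioc).mono fun v hv => ?_
      exact hF0 v ⟨hv.1.le, hv.2⟩
    have hsub : ∀ x ∈ uIcc d r, 0 < x := by
      intro x hx
      rw [uIcc_of_le hdr.le] at hx
      exact lt_of_lt_of_le hd hx.1
    have hi1 : IntervalIntegrable (fun v : ℝ => (1 - e v) / v) volume d r := by
      have hc : ContinuousOn (fun v : ℝ => v⁻¹) (uIcc d r) :=
        continuousOn_inv₀.mono fun x hx => (hsub x hx).ne'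
      exact ((intervalIntegrable_const (c := (1 : ℝ))).sub (hei d r)).mul_continuousOn hc
    have hi2 : IntervalIntegrable (fun v : ℝ => 1 / (v + 2 * d)) volume d r := by
      refine ContinuousOn.intervalIntegrable ?_
      refine ContinuousOn.div continuousOn_const (by fun_prop) ?_
      intro x hx
      have := hsub x hx
      positivity
    have h3 : ∫ v in d..r, (1 / (v + 2 * d) - (1 - e v) / v - 1 / δ) ≤
        ∫ v in d..r, (1 - v / δ) * e v * ((v + p) / ((v + p) ^ 2 + y ^ 2)) := by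
      refine intervalIntegral.integral_mono_on hdr.le
        ((hi2.sub hi1).sub intervalIntegrable_const) (hFi _ _) ?_
      intro v hv
      have hv0 : 0 < v := lt_of_lt_of_le hd hv.1
      have hvδ : v / δ ≤ 1 := by rw [div_le_one hδ]; exact hv.2.trans hrδ
      have hvδ0 : 0 ≤ v / δ := by positivity
      have k1 : 1 / (v + 2 * d) ≤ (v + p) / ((v + p) ^ 2 + y ^ 2) := by
        rw [div_le_div_iff₀ (by positivity) (by positivity)]
        nlinarith [hv.1, mul_nonneg hp hp, mul_nonneg (sub_nonneg.2 hpd) (sub_nonneg.2 hv.1),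
          mul_nonneg hp (sub_nonneg.2 hpd), mul_nonneg hp hd.le]
      have k2 : (1 - v / δ) * e v * (1 / (v + 2 * d)) ≤
          (1 - v / δ) * e v * ((v + p) / ((v + p) ^ 2 + y ^ 2)) :=
        mul_le_mul_of_nonneg_left k1 (mul_nonneg (by linarith) (he0 v))
      refine le_trans ?_ k2
      have k3 : (1 - e v) * (1 / (v + 2 * d)) ≤ (1 - e v) / v := by
        rw [div_eq_mul_one_div (1 - e v) v]
        refine mul_le_mul_of_nonneg_left ?_ (by linarith [he1 v])
        exact one_div_le_one_div_of_le hv0 (by linarith)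
      have k4 : (v / δ) * e v * (1 / (v + 2 * d)) ≤ 1 / δ := by
        have k5 : (v / δ) * e v * (1 / (v + 2 * d)) ≤ (v / δ) * 1 * (1 / v) := by
          refine mul_le_mul (mul_le_mul_of_nonneg_left (he1 v) hvδ0) ?_ (by positivity)
            (by positivity)
          exact one_div_le_one_div_of_le hv0 (by linarith)
        refine k5.trans (le_of_eq ?_)
        field_simp
      nlinarith
    have h4 : ∫ v in d..r, (1 / (v + 2 * d) - (1 - e v) / v - 1 / δ) =
        Real.log ((r + 2 * d) / (3 * d)) - (∫ v in d..r, (1 - e v) / v) - (r - d) / δ := by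
      rw [intervalIntegral.integral_sub (hi2.sub hi1) intervalIntegrable_const,
        intervalIntegral.integral_sub hi2 hi1, intervalIntegral.integral_const,
        intervalIntegral.integral_comp_add_right (fun v => 1 / v) (2 * d),
        integral_one_div_of_pos (by positivity) (by positivity)]
      rw [smul_eq_mul]
      have : d + 2 * d = 3 * d := by ring
      rw [this]
      ring
    have h5 : ∫ v in d..r, (1 - e v) / v ≤ ε + ε * Real.log (r / d) := by
      refine ZKR_K hd hdr.le ((intervalIntegrable_const (c := (1 : ℝ))).sub (hei d r)) ?_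
      intro s hs
      have hs0 : 0 < s := lt_of_lt_of_le hd hs.1
      refine le_trans ?_ (hm s hs0 hs.2)
      refine intervalIntegral.integral_mono_interval hd.le hs.1 le_rfl ?_
        ((intervalIntegrable_const (c := (1 : ℝ))).sub (hei 0 s))
      exact Eventually.of_forall fun v => by
        show 0 ≤ 1 - e v
        linarith [he1 v]
    have h6 : Real.log (r / (3 * d)) ≤ Real.log ((r + 2 * d) / (3 * d)) := by
      refine Real.log_le_log (by positivity) ?_
      exact div_le_div_of_nonneg_right (by linarith) (by positivity)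
    have h7 : (r - d) / δ ≤ 1 := by rw [div_le_one hδ]; linarith
    have g1 : Real.log (r / (3 * d)) = Real.log r - Real.log 3 - Real.log d := by
      rw [Real.log_div hr.ne' (by positivity), Real.log_mul (by norm_num) hd.ne']; ring
    have g2 : Real.log (r / d) = Real.log r - Real.log d := Real.log_div hr.ne' hd.ne'
    have g3 : Real.log (1 / d) = - Real.log d := by rw [one_div, Real.log_inv]
    have g4 : Real.log (1 / r) = - Real.log r := by rw [one_div, Real.log_inv]
    rw [h1, g3, g4]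
    rw [g4] at hlr
    rw [h4, ← sub_nonneg] at h3
    rw [g1] at h6
    rw [g2] at h5
    nlinarith

theorem ZKR_re {φ : ℝ → ℝ} (hφ : Measurable φ) (hb : ∀ v, |φ v| ≤ 1) {u : ℂ} (hu : 0 < u.im) :
    (∫ v in (-1 : ℝ)..1, (φ v : ℂ) / (v - u)).re =
      ∫ v in (-1 : ℝ)..1, φ v * ((v - u.re) / ((v - u.re) ^ 2 + u.im ^ 2)) := by
  have hc : Continuous fun v : ℝ => ((v : ℂ) - u)⁻¹ := by
    refine Continuous.inv₀ (by fun_prop) ?_
    intro v h
    have := congrArg Complex.im h
    simp at this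
    exact hu.ne' this
  have hi : IntervalIntegrable (fun v : ℝ => (φ v : ℂ)) volume (-1) 1 := by
    refine (intervalIntegrable_const (c := (1 : ℝ))).mono_fun
      (Complex.measurable_ofReal.comp hφ).aestronglyMeasurable ?_
    refine Eventually.of_forall fun v => ?_
    show ‖(φ v : ℂ)‖ ≤ ‖(1 : ℝ)‖
    rw [Complex.norm_real, Real.norm_eq_abs, norm_one]
    exact hb v
  have hI : IntervalIntegrable (fun v : ℝ => (φ v : ℂ) / (v - u)) volume (-1) 1 :=
    hi.mul_continuousOn hc.continuousOn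
  have h1 := Complex.reCLM.intervalIntegral_comp_comm hI
  rw [Complex.reCLM_apply] at h1
  rw [← h1]
  refine intervalIntegral.integral_congr fun v _ => ?_
  show ((φ v : ℂ) / (v - u)).re = _
  rw [Complex.div_re]
  simp only [Complex.ofReal_re, Complex.ofReal_im, Complex.sub_re, Complex.sub_im,
    Complex.normSq_apply]
  ring

theorem ZKR_ki {φ : ℝ → ℝ} (hφ : Measurable φ) (hb : ∀ v, |φ v| ≤ 1) (x : ℝ) {y : ℝ}
    (hy : 0 < y) (a b : ℝ) :
    IntervalIntegrable (fun v => φ v * ((v - x) / ((v - x) ^ 2 + y ^ 2))) volume a b := by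
  have hi : IntervalIntegrable φ volume a b := by
    refine (intervalIntegrable_const (c := (1 : ℝ))).mono_fun hφ.aestronglyMeasurable ?_
    refine Eventually.of_forall fun v => ?_
    show ‖φ v‖ ≤ ‖(1 : ℝ)‖
    rw [Real.norm_eq_abs, norm_one]
    exact hb v
  refine hi.mul_continuousOn (Continuous.continuousOn ?_)
  refine Continuous.div (by fun_prop) (by fun_prop) ?_
  intro v
  positivity

theorem ZKR_chi {v₀ δ : ℝ} (hδ : 0 < δ) {v : ℝ} (hv : v₀ < v) :
    chiR v₀ δ v = max (1 - (v - v₀) / δ) 0 := by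
  unfold chiR
  split_ifs with h
  · have : (v - v₀) / δ ≤ 1 := by rw [div_le_one hδ]; linarith [h.2]
    rw [max_eq_left (by linarith)]
  · have h3 : v₀ + δ ≤ v := by
      by_contra h4
      exact h ⟨hv, not_le.1 h4⟩
    have : 1 ≤ (v - v₀) / δ := by rw [one_le_div hδ]; linarith
    rw [max_eq_right (by linarith)]

theorem ZKR_chi0 {v₀ δ : ℝ} {v : ℝ} (hv : v ≤ v₀) : chiR v₀ δ v = 0 := by
  unfold chiR
  rw [if_neg]
  rintro ⟨h, -⟩
  exact absurd h (not_lt.2 hv)

theorem ZKR_chi_mem {v₀ δ : ℝ} (hδ : 0 < δ) (v : ℝ) : 0 ≤ chiR v₀ δ v ∧ chiR v₀ δ v ≤ 1 := by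
  rcases le_or_gt v v₀ with h | h
  · rw [ZKR_chi0 h]; exact ⟨le_rfl, zero_le_one⟩
  · rw [ZKR_chi hδ h]
    have : 0 ≤ (v - v₀) / δ := div_nonneg (by linarith) hδ.le
    exact ⟨le_max_right _ _, max_le (by linarith) zero_le_one⟩

theorem ZKR_chi_meas (v₀ δ : ℝ) : Measurable (chiR v₀ δ) := by
  unfold chiR
  refine Measurable.ite ?_ (by fun_prop) measurable_const
  exact measurableSet_Ioo

theorem ZK_right {E : Set ℝ} {v₀ : ℝ} {e : ℝ → ℝ} (hL : Lock E v₀ e) (δ : ℝ) (hδ : 0 < δ)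
    (h1 : -1 ≤ v₀ - δ) (h2 : v₀ + δ ≤ 1) (ε : ℝ) (hε : 0 < ε) :
    ∃ C : ℝ, ∀ u : ℂ, 0 < u.im →
      (1 - ε) * max 0 (Real.log (1 / ‖u - v₀‖)) - C ≤
        (∫ v in (-1 : ℝ)..1, ((chiR v₀ δ v * e v : ℝ) : ℂ) / (v - u)).re := by
  obtain ⟨s₀, hs₀, hleb⟩ := hL.leb ε hε
  set r : ℝ := min (min δ s₀) 1 with hr
  have hr0 : 0 < r := lt_min (lt_min hδ hs₀) one_pos
  have hrδ : r ≤ δ := (min_le_left _ _).trans (min_le_left _ _)
  have hrs : r ≤ s₀ := (min_le_left _ _).trans (min_le_right _ _)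
  have hr1 : r ≤ 1 := min_le_right _ _
  have hem := hL.meas
  have hei : ∀ a b : ℝ, IntervalIntegrable (fun v => 1 - e v) volume a b := by
    intro a b
    refine (intervalIntegrable_const (c := (1 : ℝ))).mono_fun
      (hem.const_sub 1).aestronglyMeasurable ?_
    refine Eventually.of_forall fun v => ?_
    show ‖1 - e v‖ ≤ ‖(1 : ℝ)‖
    rw [Real.norm_eq_abs, norm_one, abs_le]
    constructor <;> linarith [hL.nonneg v, hL.le_one v]
  have hpos : ∀ v, 0 ≤ 1 - e v := fun v => by linarith [hL.le_one v]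
  have hmp : ∀ s : ℝ, 0 < s → s ≤ r → ∫ v in (0 : ℝ)..s, (1 - e (v₀ + v)) ≤ ε * s := by
    intro s hs hsr
    rw [intervalIntegral.integral_comp_add_left (fun v => 1 - e v) v₀, add_zero]
    refine le_trans ?_ (hleb s hs (hsr.trans hrs))
    exact intervalIntegral.integral_mono_interval (by linarith) (by linarith) le_rfl
      (Eventually.of_forall hpos) (hei _ _)
  have hmm : ∀ s : ℝ, 0 < s → s ≤ r → ∫ v in (0 : ℝ)..s, (1 - e (v₀ - v)) ≤ ε * s := by
    intro s hs hsr
    rw [intervalIntegral.integral_comp_sub_left (fun v => 1 - e v) v₀, sub_zero]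
    refine le_trans ?_ (hleb s hs (hsr.trans hrs))
    exact intervalIntegral.integral_mono_interval le_rfl (by linarith) (by linarith)
      (Eventually.of_forall hpos) (hei _ _)
  set CH : ℝ := Real.log (1 / r) + Real.log 3 + ε + 1 with hCH
  have hCH0 : 0 ≤ CH := by
    have hlr : 0 ≤ Real.log (1 / r) := Real.log_nonneg (by rw [le_div_iff₀ hr0]; linarith)
    have hl3 : 0 ≤ Real.log 3 := Real.log_nonneg (by norm_num)
    linarith
  refine ⟨CH + 2 * π + 2 / δ + 1 / δ, fun u hu => ?_⟩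
  set x := u.re with hx
  set y := u.im with hy
  set d := ‖u - v₀‖ with hd
  set L := max 0 (Real.log (1 / d)) with hLL
  have hL0 : 0 ≤ L := le_max_left _ _
  have hdd : d ^ 2 = (x - v₀) ^ 2 + y ^ 2 := by
    rw [hd, Complex.sq_norm, Complex.normSq_apply]
    simp only [Complex.sub_re, Complex.sub_im, Complex.ofReal_re, Complex.ofReal_im]
    ring
  have hd0 : 0 < d := by
    have h3 : 0 ≤ d := norm_nonneg _
    rcases h3.eq_or_lt with h4 | h4
    · rw [← h4] at hdd; nlinarith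
    · exact h4
  have hg : ∀ v, |chiR v₀ δ v * e v| ≤ 1 := by
    intro v
    have h3 := ZKR_chi_mem (v₀ := v₀) hδ v
    rw [abs_of_nonneg (mul_nonneg h3.1 (hL.nonneg v))]
    exact mul_le_one₀ h3.2 (hL.nonneg v) (hL.le_one v)
  have hea : ∀ v, |e v| ≤ 1 := fun v => by
    rw [abs_of_nonneg (hL.nonneg v)]; exact hL.le_one v
  have hgm : Measurable fun v => chiR v₀ δ v * e v := (ZKR_chi_meas v₀ δ).mul hem
  rw [ZKR_re hgm hg hu]
  have hπ := Real.pi_pos
  have hδ' : 0 < 1 / δ := by positivity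
  have hδ2 : 2 / δ = 2 * (1 / δ) := by ring
  rcases le_or_gt x v₀ with hxv | hxv
  · -- first case
    have a1 := ZKR_H (e := fun w => e (v₀ + w)) (δ := δ) (r := r) (ε := ε) (p := v₀ - x) (y := y)
      (d := d) (hem.comp (measurable_const_add v₀)) (fun w => hL.nonneg _) (fun w => hL.le_one _)
      hr0 hrδ hr1 hε hmp (by linarith) hu hd0 (by rw [hdd]; ring)
    have a2 : ∫ v in v₀..(v₀ + δ), chiR v₀ δ v * e v * ((v - x) / ((v - x) ^ 2 + y ^ 2)) ≤
        ∫ v in (-1 : ℝ)..1, chiR v₀ δ v * e v * ((v - x) / ((v - x) ^ 2 + y ^ 2)) := by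
      refine intervalIntegral.integral_mono_interval (by linarith) (by linarith) h2 ?_
        (ZKR_ki hgm hg x hu _ _)
      refine Eventually.of_forall fun v => ?_
      show 0 ≤ chiR v₀ δ v * e v * ((v - x) / ((v - x) ^ 2 + y ^ 2))
      rcases le_or_gt v v₀ with h3 | h3
      · rw [ZKR_chi0 h3, zero_mul, zero_mul]
      · exact mul_nonneg (mul_nonneg (ZKR_chi_mem hδ v).1 (hL.nonneg v))
          (div_nonneg (by linarith) (by positivity))
    have a3 : ∫ v in v₀..(v₀ + δ), chiR v₀ δ v * e v * ((v - x) / ((v - x) ^ 2 + y ^ 2)) =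
        ∫ w in (0 : ℝ)..δ, (1 - w / δ) * e (v₀ + w) *
          ((w + (v₀ - x)) / ((w + (v₀ - x)) ^ 2 + y ^ 2)) := by
      have := intervalIntegral.integral_comp_add_left (a := 0) (b := δ)
        (fun v => chiR v₀ δ v * e v * ((v - x) / ((v - x) ^ 2 + y ^ 2))) v₀
      rw [add_zero] at this
      rw [← this]
      refine intervalIntegral.integral_congr_ae (Eventually.of_forall fun w hw => ?_)
      rw [uIoc_of_le hδ.le] at hw
      have h3 : chiR v₀ δ (v₀ + w) = 1 - w / δ := by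
        have h4 : w / δ ≤ 1 := by rw [div_le_one hδ]; exact hw.2
        rw [ZKR_chi hδ (by linarith [hw.1]), add_sub_cancel_left, max_eq_left (by linarith)]
      have h5 : v₀ + w - x = w + (v₀ - x) := by ring
      show chiR v₀ δ (v₀ + w) * e (v₀ + w) * ((v₀ + w - x) / ((v₀ + w - x) ^ 2 + y ^ 2)) = _
      rw [h3, h5]
    linarith
  · -- second case
    set p := x - v₀ with hp
    have hp0 : 0 < p := by linarith
    have hpd : p ≤ d := by nlinarith [sq_nonneg y]
    set G := chiR v₀ δ x with hG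
    have hG' := ZKR_chi_mem (v₀ := v₀) hδ x
    rw [← hG] at hG'
    have a1 := ZKR_H (e := fun w => e (v₀ - w)) (δ := δ) (r := r) (ε := ε) (p := p) (y := y)
      (d := d) (hem.comp (measurable_const.sub measurable_id)) (fun w => hL.nonneg _)
      (fun w => hL.le_one _)
      hr0 hrδ hr1 hε hmm hp0.le hu hd0 (by rw [hdd])
    set H := ∫ v in (0 : ℝ)..δ, (1 - v / δ) * e (v₀ - v) * ((v + p) / ((v + p) ^ 2 + y ^ 2))
      with hH
    have b1 := hL.bdd u hu
    rw [ZKR_re hem hea hu, abs_le] at b1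
    have ki1 := fun a b => ZKR_ki hem hea x hu a b
    have ki2 := fun a b => ZKR_ki hgm hg x hu a b
    have ki3 : ∀ a b, IntervalIntegrable
        (fun v => (chiR v₀ δ v - G) * e v * ((v - x) / ((v - x) ^ 2 + y ^ 2))) volume a b := by
      intro a b
      refine ((ki2 a b).sub ((ki1 a b).const_mul G)).congr fun v _ => ?_
      show chiR v₀ δ v * e v * ((v - x) / ((v - x) ^ 2 + y ^ 2)) -
        G * (e v * ((v - x) / ((v - x) ^ 2 + y ^ 2))) = _
      ring
    have c1 : ∫ v in (-1 : ℝ)..1, chiR v₀ δ v * e v * ((v - x) / ((v - x) ^ 2 + y ^ 2)) =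
        G * (∫ v in (-1 : ℝ)..1, e v * ((v - x) / ((v - x) ^ 2 + y ^ 2))) +
        ((∫ v in (-1 : ℝ)..v₀, (chiR v₀ δ v - G) * e v * ((v - x) / ((v - x) ^ 2 + y ^ 2))) +
          ∫ v in v₀..1, (chiR v₀ δ v - G) * e v * ((v - x) / ((v - x) ^ 2 + y ^ 2))) := by
      rw [intervalIntegral.integral_add_adjacent_intervals (ki3 _ _) (ki3 _ _),
        ← intervalIntegral.integral_const_mul,
        ← intervalIntegral.integral_add ((ki1 _ _).const_mul G) (ki3 _ _)]
      refine intervalIntegral.integral_congr fun v _ => ?_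
      show chiR v₀ δ v * e v * ((v - x) / ((v - x) ^ 2 + y ^ 2)) =
        G * (e v * ((v - x) / ((v - x) ^ 2 + y ^ 2))) +
          (chiR v₀ δ v - G) * e v * ((v - x) / ((v - x) ^ 2 + y ^ 2))
      ring
    have c2 : -(2 / δ) ≤
        ∫ v in v₀..1, (chiR v₀ δ v - G) * e v * ((v - x) / ((v - x) ^ 2 + y ^ 2)) := by
      have h3 : ‖∫ v in v₀..1, (chiR v₀ δ v - G) * e v * ((v - x) / ((v - x) ^ 2 + y ^ 2))‖ ≤
          1 / δ * |1 - v₀| := by
        refine intervalIntegral.norm_integral_le_of_norm_le_const fun v hv => ?_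
        rw [uIoc_of_le (by linarith)] at hv
        have h4 : |chiR v₀ δ v - G| ≤ |v - x| * (1 / δ) := by
          rw [hG, ZKR_chi hδ hv.1, ZKR_chi hδ hxv]
          refine (abs_max_sub_max_le_abs _ _ _).trans ?_
          have h5 : 1 - (v - v₀) / δ - (1 - (x - v₀) / δ) = -((v - x) * (1 / δ)) := by ring
          rw [h5, abs_neg, abs_mul, abs_of_pos hδ']
        have h6 : 0 < (v - x) ^ 2 + y ^ 2 := by positivity
        rw [Real.norm_eq_abs, abs_mul, abs_mul, abs_div, abs_of_pos h6]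
        have h7 : |chiR v₀ δ v - G| * |e v| ≤ |v - x| * (1 / δ) * 1 :=
          mul_le_mul h4 (hea v) (abs_nonneg _) (by positivity)
        have h8 : |v - x| * (1 / δ) * 1 * (|v - x| / ((v - x) ^ 2 + y ^ 2)) ≤ 1 / δ := by
          have h9 : |v - x| * (1 / δ) * 1 * (|v - x| / ((v - x) ^ 2 + y ^ 2)) =
              (1 / δ) * ((v - x) ^ 2 / ((v - x) ^ 2 + y ^ 2)) := by
            rw [← sq_abs (v - x)]; ring
          rw [h9]
          refine mul_le_of_le_one_right hδ'.le ?_
          rw [div_le_one h6]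
          nlinarith [sq_nonneg y]
        exact (mul_le_mul_of_nonneg_right h7 (by positivity)).trans h8
      rw [Real.norm_eq_abs, abs_of_nonneg (by linarith : (0 : ℝ) ≤ 1 - v₀), abs_le] at h3
      have h4 : 1 / δ * (1 - v₀) ≤ 2 / δ := by
        rw [hδ2]
        nlinarith
      linarith [h3.1]
    have c3 : G * H ≤
        ∫ v in (-1 : ℝ)..v₀, (chiR v₀ δ v - G) * e v * ((v - x) / ((v - x) ^ 2 + y ^ 2)) := by
      have d1 : ∫ v in (v₀ - δ)..v₀, (chiR v₀ δ v - G) * e v *
            ((v - x) / ((v - x) ^ 2 + y ^ 2)) ≤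
          ∫ v in (-1 : ℝ)..v₀, (chiR v₀ δ v - G) * e v *
            ((v - x) / ((v - x) ^ 2 + y ^ 2)) := by
        refine intervalIntegral.integral_mono_interval h1 (by linarith) le_rfl ?_ (ki3 _ _)
        refine (ae_restrict_mem measurableSet_Ioc).mono fun v hv => ?_
        show 0 ≤ (chiR v₀ δ v - G) * e v * ((v - x) / ((v - x) ^ 2 + y ^ 2))
        rw [ZKR_chi0 hv.2]
        have h3 : (0 - G) * e v * ((v - x) / ((v - x) ^ 2 + y ^ 2)) =
            G * e v * ((x - v) / ((v - x) ^ 2 + y ^ 2)) := by ring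
        rw [h3]
        exact mul_nonneg (mul_nonneg hG'.1 (hL.nonneg v))
          (div_nonneg (by linarith [hv.2]) (by positivity))
      refine le_trans ?_ d1
      have d2 := intervalIntegral.integral_comp_sub_left (a := 0) (b := δ)
        (fun v => (chiR v₀ δ v - G) * e v * ((v - x) / ((v - x) ^ 2 + y ^ 2))) v₀
      rw [sub_zero] at d2
      rw [← d2, hH, ← intervalIntegral.integral_const_mul]
      have hki : IntervalIntegrable (fun v => G * ((1 - v / δ) * e (v₀ - v) *
          ((v + p) / ((v + p) ^ 2 + y ^ 2)))) volume 0 δ := by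
        have hi : IntervalIntegrable (fun v => e (v₀ - v)) volume 0 δ := by
          refine (intervalIntegrable_const (c := (1 : ℝ))).mono_fun
            (hem.comp (measurable_const.sub measurable_id)).aestronglyMeasurable ?_
          refine Eventually.of_forall fun v => ?_
          show ‖e (v₀ - v)‖ ≤ ‖(1 : ℝ)‖
          rw [Real.norm_eq_abs, norm_one]
          exact hea _
        have hc : Continuous fun v : ℝ => (1 - v / δ) * ((v + p) / ((v + p) ^ 2 + y ^ 2)) := by
          refine Continuous.mul (by fun_prop) (Continuous.div (by fun_prop) (by fun_prop) ?_)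
          intro v
          positivity
        refine (IntervalIntegrable.congr (fun v _ => ?_)
          (hi.mul_continuousOn hc.continuousOn)).const_mul G
        show e (v₀ - v) * ((1 - v / δ) * ((v + p) / ((v + p) ^ 2 + y ^ 2))) = _
        ring
      have hki2 : IntervalIntegrable (fun w => (chiR v₀ δ (v₀ - w) - G) * e (v₀ - w) *
          ((v₀ - w - x) / ((v₀ - w - x) ^ 2 + y ^ 2))) volume 0 δ := by
        have := (ki3 (v₀ - 0) (v₀ - δ)).comp_sub_left v₀
        simpa using this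
      refine intervalIntegral.integral_mono_on hδ.le hki hki2 fun w hw => ?_
      have h3 : (0 - G) * e (v₀ - w) * ((v₀ - w - x) / ((v₀ - w - x) ^ 2 + y ^ 2)) =
          G * (1 * e (v₀ - w) * ((w + p) / ((w + p) ^ 2 + y ^ 2))) := by
        have h4 : v₀ - w - x = -(w + p) := by rw [hp]; ring
        rw [h4, neg_sq]
        ring
      rw [ZKR_chi0 (by linarith [hw.1]), h3]
      refine mul_le_mul_of_nonneg_left ?_ hG'.1
      refine mul_le_mul_of_nonneg_right ?_ (div_nonneg (by linarith [hw.1]) (by positivity))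
      refine mul_le_mul_of_nonneg_right ?_ (hL.nonneg _)
      have : 0 ≤ w / δ := div_nonneg hw.1 hδ.le
      linarith
    have c4 : (1 - G) * L ≤ 1 / δ := by
      have h3 : 1 - G ≤ p * (1 / δ) := by
        rw [hG, ZKR_chi hδ hxv]
        have := le_max_left (1 - (x - v₀) / δ) 0
        have h4 : (x - v₀) / δ = p * (1 / δ) := by rw [hp]; ring
        rw [h4] at this ⊢
        linarith
      have h5 : L ≤ 1 / p := by
        refine max_le (by positivity) ?_
        have h6 : Real.log (1 / d) ≤ 1 / d - 1 := Real.log_le_sub_one_of_pos (by positivity)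
        have h7 : 1 / d ≤ 1 / p := one_div_le_one_div_of_le hp0 hpd
        linarith
      calc (1 - G) * L ≤ p * (1 / δ) * (1 / p) :=
            mul_le_mul h3 h5 hL0 (by positivity)
        _ = 1 / δ := by field_simp
    have c5 : (1 - ε) * L ≤ G * ((1 - ε) * L) + 1 / δ := by
      have h3 : 0 ≤ (1 - G) * L := mul_nonneg (by linarith [hG'.2]) hL0
      nlinarith
    have c6 : G * ((1 - ε) * L - CH) ≤ G * H := mul_le_mul_of_nonneg_left a1 hG'.1
    have c7 : G * CH ≤ CH := mul_le_of_le_one_left hCH0 hG'.2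
    have c8 : -(2 * π) ≤ G * (∫ v in (-1 : ℝ)..1, e v * ((v - x) / ((v - x) ^ 2 + y ^ 2))) := by
      have h3 := mul_le_mul_of_nonneg_left b1.1 hG'.1
      nlinarith [hG'.2]
    rw [c1]
    linarith

end

end Pool.H90.VK
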