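import Pool.Agent.H90.VK.DEC
import Pool.Agent.H90.VK.KA

/-!
# ZP : from `V` to `p`

Let `V` be analytic on the disc, `V(0) = 0`, `|V| ≤ M`. There is `p` analytic on the disc with `p(0) = 0`
and `i z p'(z) = V(z)`.
Proof: `V(z)/(iz)` extends analytically (`dslope V 0 / i`, or Schwarz lemma); primitive by `DEC_prim`.
By the Schwarz lemma `|V(z)| ≤ M|z|`, so `|p'| ≤ M`, `p` is `M`-Lipschitz on the (convex) disc and
`|p| ≤ M`. A Lipschitz function has a limit at every boundary point (completeness).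
`ZP_polar`: `∫_a^b V(re^{iθ}) dθ = p(re^{ib}) - p(re^{ia})` (`d/dθ p(re^{iθ}) = i r e^{iθ} p'(re^{iθ})`).
`ZP_mean`: `∫_0^{2π} p(re^{iθ}) dθ = 2π p(0) = 0` (`KA_mean0`, applied to `p` and `-i p`, or `KA_mean0'`).
-/

open MeasureTheory Set Filter Topology Metric
open scoped Real ENNReal ComplexConjugate

namespace Pool.H90.VK

noncomputable section

theorem ZP (V : ℂ → ℂ) (hV : DifferentiableOn ℂ V (ball (0 : ℂ) 1)) (h0 : V 0 = 0) (M : ℝ)
    (hM : ∀ z ∈ ball (0 : ℂ) 1, ‖V z‖ ≤ M) :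
    ∃ p : ℂ → ℂ, DifferentiableOn ℂ p (ball (0 : ℂ) 1) ∧ p 0 = 0 ∧
      (∀ z ∈ ball (0 : ℂ) 1, Complex.I * z * deriv p z = V z) ∧
      (∀ z ∈ ball (0 : ℂ) 1, ‖p z‖ ≤ M) ∧
      (∀ z ∈ ball (0 : ℂ) 1, ∀ w ∈ ball (0 : ℂ) 1, ‖p z - p w‖ ≤ M * ‖z - w‖) ∧
      (∀ ζ : ℂ, ‖ζ‖ = 1 → ∃ p₀ : ℂ, Tendsto p (𝓝[ball (0 : ℂ) 1] ζ) (𝓝 p₀)) := by
  have hb0 : (0 : ℂ) ∈ ball (0 : ℂ) 1 := mem_ball_self one_pos
  have hM0 : 0 ≤ M := (norm_nonneg _).trans (hM 0 hb0)
  have hds : DifferentiableOn ℂ (dslope V 0) (ball (0 : ℂ) 1) :=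
    (Complex.differentiableOn_dslope (isOpen_ball.mem_nhds hb0)).2 hV
  have hW : DifferentiableOn ℂ (fun z => dslope V 0 z / Complex.I) (ball (0 : ℂ) 1) :=
    hds.div_const _
  obtain ⟨p, hp, hp0, hpd⟩ := DEC_prim _ hW
  have hder : ∀ z ∈ ball (0 : ℂ) 1, ‖deriv p z‖ ≤ M := by
    intro z hz
    rw [(hpd z hz).deriv, norm_div, Complex.norm_I, div_one]
    have hmaps : MapsTo V (ball (0 : ℂ) 1) (closedBall (V 0) M) := by
      intro w hw
      rw [h0, mem_closedBall_zero_iff]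
      exact hM w hw
    have := Complex.norm_dslope_le_div_of_mapsTo_ball hV hmaps hz
    simpa using this
  have hlip : ∀ z ∈ ball (0 : ℂ) 1, ∀ w ∈ ball (0 : ℂ) 1, ‖p z - p w‖ ≤ M * ‖z - w‖ := by
    intro z hz w hw
    exact (convex_ball (0 : ℂ) 1).norm_image_sub_le_of_norm_deriv_le
      (fun x hx => (hpd x hx).differentiableAt) hder hw hz
  refine ⟨p, hp, hp0, ?_, ?_, hlip, ?_⟩
  · intro z hz
    rw [(hpd z hz).deriv]
    have h1 : z * dslope V 0 z = V z := by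
      have h2 := sub_smul_dslope V 0 z
      rw [sub_zero, h0, sub_zero, smul_eq_mul] at h2
      exact h2
    rw [← h1]
    have hI := Complex.I_ne_zero
    field_simp
  · intro z hz
    have h1 := hlip z hz 0 hb0
    rw [hp0, sub_zero, sub_zero] at h1
    have h2 : ‖z‖ ≤ 1 := (mem_ball_zero_iff.1 hz).le
    calc ‖p z‖ ≤ M * ‖z‖ := h1
      _ ≤ M * 1 := mul_le_mul_of_nonneg_left h2 hM0
      _ = M := mul_one M
  · intro ζ hζ
    have hL : LipschitzOnWith M.toNNReal p (ball (0 : ℂ) 1) := by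
      refine LipschitzOnWith.of_dist_le_mul fun x hx y hy => ?_
      rw [dist_eq_norm, dist_eq_norm, Real.coe_toNNReal M hM0]
      exact hlip x hx y hy
    have hne : (𝓝[ball (0 : ℂ) 1] ζ).NeBot := by
      rw [← mem_closure_iff_nhdsWithin_neBot, closure_ball (0 : ℂ) one_ne_zero]
      simp [hζ]
    have hC : Cauchy (𝓝[ball (0 : ℂ) 1] ζ) := cauchy_nhds.mono nhdsWithin_le_nhds
    have h3 : Cauchy (map p (𝓝[ball (0 : ℂ) 1] ζ)) :=
      hC.map_of_le hL.uniformContinuousOn (le_principal_iff.2 self_mem_nhdsWithin)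
    obtain ⟨x, hx⟩ := CompleteSpace.complete h3
    exact ⟨x, hx⟩

theorem ZP_polar (V p : ℂ → ℂ) (hV : DifferentiableOn ℂ V (ball (0 : ℂ) 1))
    (hp : DifferentiableOn ℂ p (ball (0 : ℂ) 1))
    (h : ∀ z ∈ ball (0 : ℂ) 1, Complex.I * z * deriv p z = V z) {r : ℝ} (hr0 : 0 ≤ r) (hr1 : r < 1)
    (a b : ℝ) :
    ∫ θ in a..b, V (r * Complex.exp (θ * Complex.I)) =
      p (r * Complex.exp (b * Complex.I)) - p (r * Complex.exp (a * Complex.I)) := by
  have hball : ∀ θ : ℝ, (r : ℂ) * Complex.exp (θ * Complex.I) ∈ ball (0 : ℂ) 1 := by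
    intro θ
    rw [mem_ball_zero_iff, norm_mul, Complex.norm_exp_ofReal_mul_I, mul_one, Complex.norm_real,
      Real.norm_eq_abs, abs_of_nonneg hr0]
    exact hr1
  have hderiv : ∀ θ : ℝ, HasDerivAt (fun θ : ℝ => p (r * Complex.exp (θ * Complex.I)))
      (V (r * Complex.exp (θ * Complex.I))) θ := by
    intro θ
    have h1 : HasDerivAt (fun θ : ℝ => (r : ℂ) * Complex.exp (θ * Complex.I))
        ((r : ℂ) * (Complex.exp (θ * Complex.I) * Complex.I)) θ := by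
      have h2 : HasDerivAt (fun θ : ℝ => (θ : ℂ) * Complex.I) Complex.I θ := by
        simpa using (Complex.ofRealCLM.hasDerivAt (x := θ)).mul_const Complex.I
      exact (h2.cexp).const_mul _
    have h3 : HasDerivAt p (deriv p (r * Complex.exp (θ * Complex.I)))
        (r * Complex.exp (θ * Complex.I)) :=
      (hp.differentiableAt (isOpen_ball.mem_nhds (hball θ))).hasDerivAt
    have h4 := h3.comp_of_eq θ h1 rfl
    have h5 := h _ (hball θ)
    rw [← h5]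
    refine h4.congr_deriv ?_
    ring
  rw [intervalIntegral.integral_eq_sub_of_hasDerivAt (fun θ _ => hderiv θ)]
  exact (KA_cont V hV hr0 hr1).intervalIntegrable _ _

theorem ZP_mean (p : ℂ → ℂ) (hp : DifferentiableOn ℂ p (ball (0 : ℂ) 1)) (h0 : p 0 = 0) {r : ℝ}
    (hr0 : 0 ≤ r) (hr1 : r < 1) :
    ∫ θ in (0 : ℝ)..(2 * π), p (r * Complex.exp (θ * Complex.I)) = 0 := by
  rw [KA_meanC p hp hr0 hr1, h0, mul_zero]

end

end Pool.H90.VK
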