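import Pool.Agent.H90.VK.ZV

/-!
# ZQ : phases of `Vb` and `Va`

For `Im z > 0`, `|z| < 1`, `u = uz z` (`Im u > 0`), let `al(z) = -arg (v₀ - u) ∈ (0, π)` and
`ph(z) = hL Im Cv(chiL·e)(z) - hR Im Cv(chiR·e)(z)`. Then
`Vb z = |Vb z| exp(i (al z + ph z))`, `Va z = |Va z| exp(i (arg D + 2 al z + ph z))`, where
`D = (z²-1)/(2iz)`, `Re D > 0`: for `z = re^{iθ}`, `D = ((r+1/r) sin θ + i (1/r - r) cos θ)/2`.
[`z/(z²+2v₀z+1) = 1/(2(v₀-u))`, `ZF_kv`.]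

`ZQ_range`: if `0 ≤ hL, hR ≤ π` then `0 ≤ al + ph ≤ π`, so `Im Vb ≥ 0` on the upper half disc.
Proof: `al = ∫_{v > v₀} Im u/|v-u|² dv` (`= π/2 - arctan((v₀ - Re u)/Im u)`) and by `ZF_im`
`ph = (1/π)∫ (hL chiL e - hR chiR e) Im u/|v-u|² dv`; so `al + ph = ∫_ℝ m(v) Im u/|v-u|² dv` with
`m = hL chiL e/π ∈ [0,1]` for `v < v₀` and `m = 1 - hR chiR e/π ∈ [0,1]` for `v > v₀`;
`∫_ℝ Im u/|v-u|² dv = π`.

Boundary phases (`0 < θ < π`, `v = -cos θ`): `Bb(θ) = hL chiL(v) e(v)` for `v < v₀`,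
`π - hR chiR(v) e(v)` for `v ≥ v₀`; `Ba(θ) = hL chiL e` for `v < v₀`, `2π - hR chiR e` for `v ≥ v₀`.
`ZQ_b`: `∫_0^π |al + ph - Bb| dθ → 0` as `r → 1-`; `ZQ_a`: `∫_0^π |arg D + 2al + ph - Ba| dθ → 0`.
Proof: `ZF_L1` for `chiL·e` and `chiR·e`; `al(re^{iθ}) → 0` if `v < v₀`, `→ π` if `v > v₀`
(`u → v`), `arg D → 0`; all bounded: dominated convergence.
-/

open MeasureTheory Set Filter Topology Metric
open scoped Real ENNReal ComplexConjugate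

namespace Pool.H90.VK

noncomputable section

/-- phase of `Vb` -/
def phb (v₀ δ : ℝ) (e : ℝ → ℝ) (hL hR : ℝ) (z : ℂ) : ℝ :=
  -Complex.arg (v₀ - uz z) + hL * (Cv (fun v => chiL v₀ δ v * e v) z).im
    - hR * (Cv (fun v => chiR v₀ δ v * e v) z).im

/-- phase of `Va` -/
def pha (v₀ δ : ℝ) (e : ℝ → ℝ) (hL hR : ℝ) (z : ℂ) : ℝ :=
  Complex.arg ((z ^ 2 - 1) / (2 * Complex.I * z)) - 2 * Complex.arg (v₀ - uz z)
    + hL * (Cv (fun v => chiL v₀ δ v * e v) z).im - hR * (Cv (fun v => chiR v₀ δ v * e v) z).im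

def bdb (v₀ δ : ℝ) (e : ℝ → ℝ) (hL hR θ : ℝ) : ℝ :=
  if -Real.cos θ < v₀ then hL * chiL v₀ δ (-Real.cos θ) * e (-Real.cos θ)
  else π - hR * chiR v₀ δ (-Real.cos θ) * e (-Real.cos θ)

def bda (v₀ δ : ℝ) (e : ℝ → ℝ) (hL hR θ : ℝ) : ℝ :=
  if -Real.cos θ < v₀ then hL * chiL v₀ δ (-Real.cos θ) * e (-Real.cos θ)
  else 2 * π - hR * chiR v₀ δ (-Real.cos θ) * e (-Real.cos θ)

/-- `α` is a phase of `a` -/
def ZQ_Ph (a : ℂ) (α : ℝ) : Prop := a = ‖a‖ * Complex.exp (α * Complex.I)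

theorem ZQ_Ph_mul {a b : ℂ} {α β : ℝ} (ha : ZQ_Ph a α) (hb : ZQ_Ph b β) :
    ZQ_Ph (a * b) (α + β) := by
  unfold ZQ_Ph at *
  rw [norm_mul]
  conv_lhs => rw [ha, hb]
  push_cast
  rw [add_mul, Complex.exp_add]
  ring

theorem ZQ_Ph_inv {a : ℂ} {α : ℝ} (ha : ZQ_Ph a α) : ZQ_Ph a⁻¹ (-α) := by
  unfold ZQ_Ph at *
  rw [norm_inv]
  conv_lhs => rw [ha]
  push_cast
  rw [mul_inv, neg_mul, Complex.exp_neg]

theorem ZQ_Ph_arg (w : ℂ) : ZQ_Ph w (Complex.arg w) := (Complex.norm_mul_exp_arg_mul_I w).symm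

theorem ZQ_Ph_exp (T : ℂ) : ZQ_Ph (Complex.exp T) T.im := by
  unfold ZQ_Ph
  rw [Complex.norm_exp]
  conv_lhs => rw [← Complex.re_add_im T, Complex.exp_add]
  rw [Complex.ofReal_exp]

theorem ZQ_Ph_pos {c : ℝ} (hc : 0 ≤ c) : ZQ_Ph (c : ℂ) 0 := by
  unfold ZQ_Ph
  rw [Complex.norm_real, Real.norm_of_nonneg hc]
  simp

theorem ZQ_phase {v₀ : ℝ} (hv₀ : v₀ ∈ Ioo (-1 : ℝ) 1) (δ : ℝ) (e : ℝ → ℝ) (hL hR : ℝ) {z : ℂ}
    (hz : ‖z‖ < 1) (hi : 0 < z.im) :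
    Vb v₀ δ e hL hR z = ‖Vb v₀ δ e hL hR z‖ * Complex.exp (phb v₀ δ e hL hR z * Complex.I) ∧
    Va v₀ δ e hL hR z = ‖Va v₀ δ e hL hR z‖ * Complex.exp (pha v₀ δ e hL hR z * Complex.I) := by
  have h0 : z ≠ 0 := by
    rintro rfl
    simp at hi
  have hv : v₀ ∈ Icc (-1 : ℝ) 1 := ⟨hv₀.1.le, hv₀.2.le⟩
  obtain ⟨h1, h2⟩ := ZF_kv hz h0 hv
  have h3 := ZF_ne hz hv
  obtain ⟨w, hw⟩ : ∃ w, w = (v₀ : ℂ) - uz z := ⟨_, rfl⟩
  rw [← hw] at h1 h2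
  have hq : z / (z ^ 2 + 2 * v₀ * z + 1) = ((1 / 2 : ℝ) : ℂ) * w⁻¹ := by
    unfold kv at h1
    rw [← one_div, ← h1]
    push_cast
    ring
  obtain ⟨T, hT⟩ : ∃ T, T = (hL : ℂ) * Cv (fun v => chiL v₀ δ v * e v) z -
    hR * Cv (fun v => chiR v₀ δ v * e v) z := ⟨_, rfl⟩
  have hTi : T.im = hL * (Cv (fun v => chiL v₀ δ v * e v) z).im -
      hR * (Cv (fun v => chiR v₀ δ v * e v) z).im := by
    rw [hT, Complex.sub_im, Complex.im_ofReal_mul, Complex.im_ofReal_mul]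
  have hTf : Tf v₀ δ e hL hR z = Complex.exp T := by rw [hT]; rfl
  constructor
  · have e1 : Vb v₀ δ e hL hR z = ((1 / 2 : ℝ) : ℂ) * w⁻¹ * Complex.exp T := by
      unfold Vb
      rw [hTf, hq]
    have e2 : phb v₀ δ e hL hR z = 0 + -Complex.arg w + T.im := by
      unfold phb
      rw [hTi, hw]
      ring
    rw [e1, e2]
    exact ZQ_Ph_mul (ZQ_Ph_mul (ZQ_Ph_pos (by norm_num)) (ZQ_Ph_inv (ZQ_Ph_arg w))) (ZQ_Ph_exp T)
  · have e1 : Va v₀ δ e hL hR z = (z ^ 2 - 1) / (2 * Complex.I * z) *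
        (((1 / 4 : ℝ) : ℂ) * (w⁻¹ * w⁻¹)) * Complex.exp T := by
      unfold Va
      rw [hTf]
      congr 1
      have e3 : ((1 / 4 : ℝ) : ℂ) * (w⁻¹ * w⁻¹) = (z / (z ^ 2 + 2 * v₀ * z + 1)) ^ 2 := by
        rw [hq]
        push_cast
        ring
      rw [e3]
      have hI := Complex.I_ne_zero
      field_simp
    have e2 : pha v₀ δ e hL hR z = Complex.arg ((z ^ 2 - 1) / (2 * Complex.I * z)) +
        (0 + (-Complex.arg w + -Complex.arg w)) + T.im := by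
      unfold pha
      rw [hTi, hw]
      ring
    rw [e1, e2]
    exact ZQ_Ph_mul (ZQ_Ph_mul (ZQ_Ph_arg _) (ZQ_Ph_mul (ZQ_Ph_pos (by norm_num))
      (ZQ_Ph_mul (ZQ_Ph_inv (ZQ_Ph_arg w)) (ZQ_Ph_inv (ZQ_Ph_arg w))))) (ZQ_Ph_exp T)

/-- the argument in terms of `arctan` -/
theorem ZQ_arg {u : ℂ} (hu : 0 < u.im) (v : ℝ) :
    -Complex.arg (v - u) = π / 2 - Real.arctan ((v - u.re) / u.im) := by
  have h1 : ((v : ℂ) - u).im < 0 := by simp [hu]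
  rw [Complex.arg_of_im_neg h1, neg_neg, Real.arccos, Real.arctan_eq_arcsin]
  congr 2
  have hn : ‖(v : ℂ) - u‖ = Real.sqrt ((v - u.re) ^ 2 + u.im ^ 2) := by
    rw [Complex.norm_def, Complex.normSq_apply]
    congr 1
    simp
    ring
  have hs : Real.sqrt (1 + ((v - u.re) / u.im) ^ 2) =
      Real.sqrt ((v - u.re) ^ 2 + u.im ^ 2) / u.im := by
    rw [eq_div_iff hu.ne']
    rw [← Real.sqrt_sq hu.le, ← Real.sqrt_mul (by positivity), Real.sqrt_sq hu.le]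
    congr 1
    field_simp
    ring
  rw [hn, hs]
  have hre : ((v : ℂ) - u).re = v - u.re := by simp
  rw [hre]
  have hpos : 0 < Real.sqrt ((v - u.re) ^ 2 + u.im ^ 2) := Real.sqrt_pos.2 (by positivity)
  field_simp

theorem ZQ_pos {u : ℂ} (hu : 0 < u.im) (v : ℝ) : 0 < ‖(v : ℂ) - u‖ ^ 2 := by
  have : (v : ℂ) - u ≠ 0 := by
    intro h
    have := congrArg Complex.im h
    simp at this
    linarith
  have := norm_pos_iff.2 this
  positivity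

theorem ZQ_cont {u : ℂ} (hu : 0 < u.im) :
    Continuous (fun v : ℝ => u.im / ‖(v : ℂ) - u‖ ^ 2) :=
  continuous_const.div (by fun_prop) fun v => (ZQ_pos hu v).ne'

theorem ZQ_P0 {u : ℂ} (hu : 0 < u.im) (v : ℝ) : 0 ≤ u.im / ‖(v : ℂ) - u‖ ^ 2 :=
  (div_pos hu (ZQ_pos hu v)).le

theorem ZQ_arctan {u : ℂ} (hu : 0 < u.im) (a b : ℝ) :
    ∫ v in a..b, u.im / ‖(v : ℂ) - u‖ ^ 2 =
      Real.arctan ((b - u.re) / u.im) - Real.arctan ((a - u.re) / u.im) := by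
  have hder : ∀ v : ℝ, HasDerivAt (fun v => Real.arctan ((v - u.re) / u.im))
      (u.im / ‖(v : ℂ) - u‖ ^ 2) v := by
    intro v
    have h1 : HasDerivAt (fun v : ℝ => (v - u.re) / u.im) (1 / u.im) v :=
      ((hasDerivAt_id v).sub_const _).div_const _
    have h2 := h1.arctan
    have h3 : ‖(v : ℂ) - u‖ ^ 2 = (v - u.re) ^ 2 + u.im ^ 2 := by
      rw [← Complex.normSq_eq_norm_sq, Complex.normSq_apply]
      simp
      ring
    have h4 : (u.im / ‖(v : ℂ) - u‖ ^ 2) = 1 / (1 + ((v - u.re) / u.im) ^ 2) * (1 / u.im) := by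
      rw [h3]
      field_simp
      ring
    rw [h4]
    exact h2
  exact intervalIntegral.integral_eq_sub_of_hasDerivAt (fun v _ => hder v)
    ((ZQ_cont hu).intervalIntegrable _ _)

theorem ZQ_int {u : ℂ} (hu : 0 < u.im) {φ : ℝ → ℝ} (hφ : Measurable φ) (h0 : ∀ v, 0 ≤ φ v)
    (h1 : ∀ v, φ v ≤ 1) (a b : ℝ) :
    IntervalIntegrable (fun v => φ v * (u.im / ‖(v : ℂ) - u‖ ^ 2)) volume a b := by
  have h2 := (ZQ_cont hu).intervalIntegrable (μ := volume) a b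
  rw [intervalIntegrable_iff] at h2 ⊢
  refine Integrable.bdd_mul (c := 1) h2 hφ.aestronglyMeasurable ?_
  refine Eventually.of_forall fun v => ?_
  rw [Real.norm_of_nonneg (h0 v)]
  exact h1 v

theorem ZQ_right {u : ℂ} (hu : 0 < u.im) {φ : ℝ → ℝ} (hφ : Measurable φ) (h0 : ∀ v, 0 ≤ φ v)
    (h1 : ∀ v, φ v ≤ 1) {v₀ : ℝ} (hv₀ : v₀ ∈ Ioo (-1 : ℝ) 1) (hz : ∀ v ≤ v₀, φ v = 0) :
    ∫ v in (-1 : ℝ)..1, φ v * (u.im / ‖(v : ℂ) - u‖ ^ 2) ≤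
      ∫ v in v₀..1, u.im / ‖(v : ℂ) - u‖ ^ 2 := by
  rw [← intervalIntegral.integral_add_adjacent_intervals (ZQ_int hu hφ h0 h1 (-1) v₀)
    (ZQ_int hu hφ h0 h1 v₀ 1)]
  have e1 : ∫ v in (-1 : ℝ)..v₀, φ v * (u.im / ‖(v : ℂ) - u‖ ^ 2) = 0 := by
    rw [intervalIntegral.integral_congr (g := fun _ => (0 : ℝ)), intervalIntegral.integral_zero]
    intro v hv
    rw [uIcc_of_le hv₀.1.le] at hv
    show φ v * _ = 0
    rw [hz v hv.2, zero_mul]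
  rw [e1, zero_add]
  refine intervalIntegral.integral_mono_on hv₀.2.le (ZQ_int hu hφ h0 h1 v₀ 1)
    ((ZQ_cont hu).intervalIntegrable _ _) fun v _ => ?_
  exact mul_le_of_le_one_left (ZQ_P0 hu v) (h1 v)

theorem ZQ_left {u : ℂ} (hu : 0 < u.im) {φ : ℝ → ℝ} (hφ : Measurable φ) (h0 : ∀ v, 0 ≤ φ v)
    (h1 : ∀ v, φ v ≤ 1) {v₀ : ℝ} (hv₀ : v₀ ∈ Ioo (-1 : ℝ) 1) (hz : ∀ v, v₀ ≤ v → φ v = 0) :
    ∫ v in (-1 : ℝ)..1, φ v * (u.im / ‖(v : ℂ) - u‖ ^ 2) ≤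
      ∫ v in (-1 : ℝ)..v₀, u.im / ‖(v : ℂ) - u‖ ^ 2 := by
  rw [← intervalIntegral.integral_add_adjacent_intervals (ZQ_int hu hφ h0 h1 (-1) v₀)
    (ZQ_int hu hφ h0 h1 v₀ 1)]
  have e1 : ∫ v in v₀..(1 : ℝ), φ v * (u.im / ‖(v : ℂ) - u‖ ^ 2) = 0 := by
    rw [intervalIntegral.integral_congr (g := fun _ => (0 : ℝ)), intervalIntegral.integral_zero]
    intro v hv
    rw [uIcc_of_le hv₀.2.le] at hv
    show φ v * _ = 0
    rw [hz v hv.1, zero_mul]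
  rw [e1, add_zero]
  refine intervalIntegral.integral_mono_on hv₀.1.le (ZQ_int hu hφ h0 h1 (-1) v₀)
    ((ZQ_cont hu).intervalIntegrable _ _) fun v _ => ?_
  exact mul_le_of_le_one_left (ZQ_P0 hu v) (h1 v)

theorem ZQ_chiL_meas (v₀ δ : ℝ) : Measurable (chiL v₀ δ) := by
  unfold chiL
  refine Measurable.ite ?_ (by fun_prop) measurable_const
  exact (measurableSet_lt measurable_const measurable_id).inter
    (measurableSet_lt measurable_id measurable_const)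

theorem ZQ_chiR_meas (v₀ δ : ℝ) : Measurable (chiR v₀ δ) := by
  unfold chiR
  refine Measurable.ite ?_ (by fun_prop) measurable_const
  exact (measurableSet_lt measurable_const measurable_id).inter
    (measurableSet_lt measurable_id measurable_const)

theorem ZQ_chiL_mem (v₀ δ : ℝ) (hδ : 0 < δ) (v : ℝ) : 0 ≤ chiL v₀ δ v ∧ chiL v₀ δ v ≤ 1 := by
  unfold chiL
  split_ifs with h
  · have h1 : 0 < (v₀ - v) / δ := div_pos (by linarith [h.2]) hδ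
    have h2 : (v₀ - v) / δ < 1 := by rw [div_lt_one hδ]; linarith [h.1]
    constructor <;> linarith
  · exact ⟨le_rfl, zero_le_one⟩

theorem ZQ_chiR_mem (v₀ δ : ℝ) (hδ : 0 < δ) (v : ℝ) : 0 ≤ chiR v₀ δ v ∧ chiR v₀ δ v ≤ 1 := by
  unfold chiR
  split_ifs with h
  · have h1 : 0 < (v - v₀) / δ := div_pos (by linarith [h.1]) hδ
    have h2 : (v - v₀) / δ < 1 := by rw [div_lt_one hδ]; linarith [h.2]
    constructor <;> linarith
  · exact ⟨le_rfl, zero_le_one⟩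

theorem ZQ_range {E : Set ℝ} {v₀ : ℝ} {e : ℝ → ℝ} (hLk : Lock E v₀ e)
    (hv₀ : v₀ ∈ Ioo (-1 : ℝ) 1) (δ : ℝ) (hδ : 0 < δ) (hL hR : ℝ) (pL : 0 ≤ hL) (pR : 0 ≤ hR)
    (lL : hL ≤ π) (lR : hR ≤ π) {z : ℂ} (hz : ‖z‖ < 1) (hi : 0 < z.im) :
    0 ≤ phb v₀ δ e hL hR z ∧ phb v₀ δ e hL hR z ≤ π ∧ 0 ≤ (Vb v₀ δ e hL hR z).im := by
  have h0 : z ≠ 0 := by
    rintro rfl
    simp at hi
  have hnz : 0 < ‖z‖ := norm_pos_iff.2 h0
  have hui : 0 < (uz z).im := by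
    rw [ZF_uz_im h0]
    have : 1 < 1 / ‖z‖ ^ 2 := by
      rw [lt_div_iff₀ (by positivity)]
      nlinarith
    have h2 : 0 < 1 / ‖z‖ ^ 2 - 1 := by linarith
    positivity
  have mL : Measurable (fun v => chiL v₀ δ v * e v) := (ZQ_chiL_meas v₀ δ).mul hLk.meas
  have mR : Measurable (fun v => chiR v₀ δ v * e v) := (ZQ_chiR_meas v₀ δ).mul hLk.meas
  have zL : ∀ v, 0 ≤ chiL v₀ δ v * e v := fun v =>
    mul_nonneg (ZQ_chiL_mem v₀ δ hδ v).1 (hLk.nonneg v)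
  have zR : ∀ v, 0 ≤ chiR v₀ δ v * e v := fun v =>
    mul_nonneg (ZQ_chiR_mem v₀ δ hδ v).1 (hLk.nonneg v)
  have oL : ∀ v, chiL v₀ δ v * e v ≤ 1 := fun v =>
    mul_le_one₀ (ZQ_chiL_mem v₀ δ hδ v).2 (hLk.nonneg v) (hLk.le_one v)
  have oR : ∀ v, chiR v₀ δ v * e v ≤ 1 := fun v =>
    mul_le_one₀ (ZQ_chiR_mem v₀ δ hδ v).2 (hLk.nonneg v) (hLk.le_one v)
  have iL := ZF_im _ mL 1 (fun v => by rw [abs_of_nonneg (zL v)]; exact oL v) hz hi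
  have iR := ZF_im _ mR 1 (fun v => by rw [abs_of_nonneg (zR v)]; exact oR v) hz hi
  have bL := ZQ_left hui mL zL oL hv₀ (fun v hv => by
    have : chiL v₀ δ v = 0 := by
      unfold chiL
      rw [if_neg (fun h => by linarith [h.2])]
    rw [this, zero_mul])
  have bR := ZQ_right hui mR zR oR hv₀ (fun v hv => by
    have : chiR v₀ δ v = 0 := by
      unfold chiR
      rw [if_neg (fun h => by linarith [h.1])]
    rw [this, zero_mul])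
  rw [ZQ_arctan hui] at bL bR
  have nL := (ZF_im_bound _ mL 0 1 zL oL le_rfl zero_le_one hz hi).1
  have nR := (ZF_im_bound _ mR 0 1 zR oR le_rfl zero_le_one hz hi).1
  have hπ := Real.pi_pos
  -- the two bounds
  have cL : hL * (Cv (fun v => chiL v₀ δ v * e v) z).im ≤
      Real.arctan ((v₀ - (uz z).re) / (uz z).im) + π / 2 := by
    have a1 : hL * (Cv (fun v => chiL v₀ δ v * e v) z).im ≤
        π * (Cv (fun v => chiL v₀ δ v * e v) z).im := mul_le_mul_of_nonneg_right lL nL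
    have a2 : π * (Cv (fun v => chiL v₀ δ v * e v) z).im =
        ∫ v in (-1 : ℝ)..1, chiL v₀ δ v * e v * ((uz z).im / ‖(v : ℂ) - uz z‖ ^ 2) := by
      rw [iL, ← mul_assoc, mul_one_div_cancel hπ.ne', one_mul]
    have a3 := Real.neg_pi_div_two_lt_arctan ((-1 - (uz z).re) / (uz z).im)
    linarith
  have cR : hR * (Cv (fun v => chiR v₀ δ v * e v) z).im ≤
      π / 2 - Real.arctan ((v₀ - (uz z).re) / (uz z).im) := by
    have a1 : hR * (Cv (fun v => chiR v₀ δ v * e v) z).im ≤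
        π * (Cv (fun v => chiR v₀ δ v * e v) z).im := mul_le_mul_of_nonneg_right lR nR
    have a2 : π * (Cv (fun v => chiR v₀ δ v * e v) z).im =
        ∫ v in (-1 : ℝ)..1, chiR v₀ δ v * e v * ((uz z).im / ‖(v : ℂ) - uz z‖ ^ 2) := by
      rw [iR, ← mul_assoc, mul_one_div_cancel hπ.ne', one_mul]
    have a3 := Real.arctan_lt_pi_div_two ((1 - (uz z).re) / (uz z).im)
    linarith
  have dL : 0 ≤ hL * (Cv (fun v => chiL v₀ δ v * e v) z).im := mul_nonneg pL nL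
  have dR : 0 ≤ hR * (Cv (fun v => chiR v₀ δ v * e v) z).im := mul_nonneg pR nR
  have hp : phb v₀ δ e hL hR z = π / 2 - Real.arctan ((v₀ - (uz z).re) / (uz z).im) +
      hL * (Cv (fun v => chiL v₀ δ v * e v) z).im -
      hR * (Cv (fun v => chiR v₀ δ v * e v) z).im := by
    unfold phb
    rw [ZQ_arg hui]
  have r1 : 0 ≤ phb v₀ δ e hL hR z := by rw [hp]; linarith
  have r2 : phb v₀ δ e hL hR z ≤ π := by rw [hp]; linarith
  refine ⟨r1, r2, ?_⟩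
  have h3 := (ZQ_phase hv₀ δ e hL hR hz hi).1
  rw [h3, Complex.im_ofReal_mul, Complex.exp_ofReal_mul_I_im]
  exact mul_nonneg (norm_nonneg _) (Real.sin_nonneg_of_nonneg_of_le_pi r1 r2)

end

end Pool.H90.VK
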