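import Pool.Agent.H90.VK.ZK
import Pool.Agent.H90.VK.ZFL

/-!
# ZV : the functions `Vb`, `Va`; boundedness

`Tf hL hR = exp (hL · Cv(chiL·e) - hR · Cv(chiR·e))`,
`Vb z = z/(z²+2v₀z+1) · Tf z`, `Va z = (z²-1) z/(2i (z²+2v₀z+1)²) · Tf z`.
Let `Lock E v₀ e`, `E ⊂ (-1,1)` compact, `v₀ ∈ E`, `0 < δ`, `[v₀-δ, v₀+δ] ⊂ [-1,1]`, `hL, hR ≥ 0`.

`ZV_b`: if `hL + hR > π` then `Vb` is bounded on the disc. `ZV_a`: if `hL + hR > 2π` then `Va` is bounded.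
Proof. For `Im z > 0`, `u = uz z` has `Im u > 0` (`ZF_uz_im`), `z/(z²+2v₀z+1) = 1/(2(v₀-u))` (`ZF_kv`),
`(z²-1)/(2iz) =: D`, `|D| ≤ (|z| + 1/|z|)/2 ≤ |u| + 1` (`|u| ≥ (1/|z| - |z|)/2`), `Va = D/(4(v₀-u)²) · Tf`.
`|Tf z| = exp((hL/π) CL(u) - (hR/π) CR(u))` (`ZF_eq`). Choose `ε ∈ (0,1)` with
`s := (hL+hR)(1-ε)/π ≥ 1` (resp. `≥ 2`). `ZK_left`, `ZK_right`: `|Tf z| ≤ exp(-s log⁺(1/|u-v₀|) + C')`.
If `|u-v₀| ≤ 1`: `|Vb| ≤ (1/2)|u-v₀|^{s-1} e^{C'} ≤ e^{C'}`, `|Va| ≤ (3/4) |u-v₀|^{s-2} e^{C'}`.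
If `|u-v₀| > 1`: `|Vb| ≤ e^{C'}`, `|Va| ≤ (|u-v₀| + 2)/(4|u-v₀|²) e^{C'} ≤ e^{C'}`.
For `Im z < 0` use `Vb(conj z) = conj (Vb z)`, `Va (conj z) = -conj (Va z)` (`ZF_conj`); for real `z` use
continuity (limit of `z + iη`, `η ↓ 0`).
-/

open MeasureTheory Set Filter Topology Metric
open scoped Real ENNReal ComplexConjugate

namespace Pool.H90.VK

noncomputable section

def Tf (v₀ δ : ℝ) (e : ℝ → ℝ) (hL hR : ℝ) (z : ℂ) : ℂ :=
  Complex.exp (hL * Cv (fun v => chiL v₀ δ v * e v) z - hR * Cv (fun v => chiR v₀ δ v * e v) z)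

def Vb (v₀ δ : ℝ) (e : ℝ → ℝ) (hL hR : ℝ) (z : ℂ) : ℂ :=
  z / (z ^ 2 + 2 * v₀ * z + 1) * Tf v₀ δ e hL hR z

def Va (v₀ δ : ℝ) (e : ℝ → ℝ) (hL hR : ℝ) (z : ℂ) : ℂ :=
  (z ^ 2 - 1) * z / (2 * Complex.I * (z ^ 2 + 2 * v₀ * z + 1) ^ 2) * Tf v₀ δ e hL hR z

private theorem ZV_chiL_meas (v₀ δ : ℝ) : Measurable (chiL v₀ δ) := by
  unfold chiL
  refine Measurable.ite ?_ (by fun_prop) measurable_const
  exact (measurableSet_lt measurable_const measurable_id).inter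
    (measurableSet_lt measurable_id measurable_const)

private theorem ZV_chiR_meas (v₀ δ : ℝ) : Measurable (chiR v₀ δ) := by
  unfold chiR
  refine Measurable.ite ?_ (by fun_prop) measurable_const
  exact (measurableSet_lt measurable_const measurable_id).inter
    (measurableSet_lt measurable_id measurable_const)

private theorem ZV_chiL_abs (v₀ δ : ℝ) (hδ : 0 < δ) (v : ℝ) : |chiL v₀ δ v| ≤ 1 := by
  unfold chiL
  split_ifs with h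
  · have h1 : 0 < (v₀ - v) / δ := div_pos (by linarith [h.2]) hδ
    have h2 : (v₀ - v) / δ < 1 := by rw [div_lt_one hδ]; linarith [h.1]
    rw [abs_le]
    constructor <;> linarith
  · simp

private theorem ZV_chiR_abs (v₀ δ : ℝ) (hδ : 0 < δ) (v : ℝ) : |chiR v₀ δ v| ≤ 1 := by
  unfold chiR
  split_ifs with h
  · have h1 : 0 < (v - v₀) / δ := div_pos (by linarith [h.1]) hδ
    have h2 : (v - v₀) / δ < 1 := by rw [div_lt_one hδ]; linarith [h.2]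
    rw [abs_le]
    constructor <;> linarith
  · simp

private theorem ZV_e_abs {E : Set ℝ} {v₀ : ℝ} {e : ℝ → ℝ} (hL : Lock E v₀ e) (v : ℝ) :
    |e v| ≤ 1 := by
  rw [abs_of_nonneg (hL.nonneg v)]
  exact hL.le_one v

private theorem ZV_prod_abs {a b : ℝ} (ha : |a| ≤ 1) (hb : |b| ≤ 1) : |a * b| ≤ 1 := by
  rw [abs_mul]
  exact mul_le_one₀ ha (abs_nonneg _) hb

private theorem ZV_Tf_diff {E : Set ℝ} {v₀ : ℝ} {e : ℝ → ℝ} (hL' : Lock E v₀ e)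
    (δ : ℝ) (hδ : 0 < δ) (hL hR : ℝ) :
    DifferentiableOn ℂ (Tf v₀ δ e hL hR) (ball (0 : ℂ) 1) := by
  have h1 := ZF_diff (fun v => chiL v₀ δ v * e v) ((ZV_chiL_meas v₀ δ).mul hL'.meas) 1
    (fun v => ZV_prod_abs (ZV_chiL_abs v₀ δ hδ v) (ZV_e_abs hL' v))
  have h2 := ZF_diff (fun v => chiR v₀ δ v * e v) ((ZV_chiR_meas v₀ δ).mul hL'.meas) 1
    (fun v => ZV_prod_abs (ZV_chiR_abs v₀ δ hδ v) (ZV_e_abs hL' v))
  unfold Tf
  exact ((h1.const_mul _).sub (h2.const_mul _)).cexp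

theorem ZV_diff {E : Set ℝ} {v₀ : ℝ} {e : ℝ → ℝ} (hL' : Lock E v₀ e) (hv₀ : v₀ ∈ Ioo (-1 : ℝ) 1)
    (δ : ℝ) (hδ : 0 < δ) (hL hR : ℝ) :
    DifferentiableOn ℂ (Vb v₀ δ e hL hR) (ball (0 : ℂ) 1) ∧
      DifferentiableOn ℂ (Va v₀ δ e hL hR) (ball (0 : ℂ) 1) := by
  have hT := ZV_Tf_diff hL' δ hδ hL hR
  have hden : ∀ z ∈ ball (0 : ℂ) 1, z ^ 2 + 2 * v₀ * z + 1 ≠ 0 := fun z hz =>
    ZF_ne (mem_ball_zero_iff.mp hz) ⟨hv₀.1.le, hv₀.2.le⟩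
  constructor
  · refine DifferentiableOn.mul ?_ hT
    exact DifferentiableOn.div (by fun_prop) (by fun_prop) hden
  · refine DifferentiableOn.mul ?_ hT
    refine DifferentiableOn.div (by fun_prop) (by fun_prop) ?_
    intro z hz
    exact mul_ne_zero (mul_ne_zero two_ne_zero Complex.I_ne_zero) (pow_ne_zero 2 (hden z hz))

theorem ZV_zero (v₀ δ : ℝ) (e : ℝ → ℝ) (hL hR : ℝ) :
    Vb v₀ δ e hL hR 0 = 0 ∧ Va v₀ δ e hL hR 0 = 0 := by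
  constructor
  · simp [Vb]
  · simp [Va]

theorem ZV_conj (v₀ δ : ℝ) (e : ℝ → ℝ) (hL hR : ℝ) (z : ℂ) :
    Vb v₀ δ e hL hR (conj z) = conj (Vb v₀ δ e hL hR z) ∧
      Va v₀ δ e hL hR (conj z) = -conj (Va v₀ δ e hL hR z) := by
  have hT : Tf v₀ δ e hL hR (conj z) = conj (Tf v₀ δ e hL hR z) := by
    unfold Tf
    rw [ZF_conj, ZF_conj, ← Complex.exp_conj]
    congr 1
    simp
  constructor
  · unfold Vb
    rw [hT]
    simp only [map_mul, map_div₀, map_pow, map_one, map_add, Complex.conj_ofReal, map_ofNat]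
  · unfold Va
    rw [hT]
    simp only [map_mul, map_div₀, map_sub, map_pow, map_one, map_add, Complex.conj_I,
      Complex.conj_ofReal, map_ofNat]
    rw [← neg_mul]
    congr 1
    rw [show (2:ℂ) * -Complex.I * (conj z ^ 2 + 2 * v₀ * conj z + 1) ^ 2 =
      -(2 * Complex.I * (conj z ^ 2 + 2 * v₀ * conj z + 1) ^ 2) by ring, div_neg, neg_neg]

/-- limits at the points of the circle outside the closed set: real, with the right sign -/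
theorem ZV_lim {E : Set ℝ} {v₀ : ℝ} {e : ℝ → ℝ} (hLk : Lock E v₀ e) (hE : IsCompact E)
    (hsub : E ⊆ Ioo (-1) 1) (hv₀ : v₀ ∈ E) (δ : ℝ) (hδ : 0 < δ) (hL hR : ℝ) {ζ : ℂ}
    (hζ : ‖ζ‖ = 1) (h : -ζ.re ∉ E) :
    (∃ c : ℝ, 0 < c ∧ Tendsto (Vb v₀ δ e hL hR) (𝓝[ball (0 : ℂ) 1] ζ)
        (𝓝 ((c / (v₀ + ζ.re) : ℝ) : ℂ))) ∧
    (∃ c : ℝ, 0 < c ∧ Tendsto (Va v₀ δ e hL hR) (𝓝[ball (0 : ℂ) 1] ζ)
        (𝓝 ((c * ζ.im : ℝ) : ℂ))) := by
  obtain ⟨c1, h1⟩ := ZF_lim (fun v => chiL v₀ δ v * e v) ((ZV_chiL_meas v₀ δ).mul hLk.meas) 1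
    (fun v => ZV_prod_abs (ZV_chiL_abs v₀ δ hδ v) (ZV_e_abs hLk v)) E hE hsub
    (fun v hv => by rw [hLk.off v hv, mul_zero]) hζ h
  obtain ⟨c2, h2⟩ := ZF_lim (fun v => chiR v₀ δ v * e v) ((ZV_chiR_meas v₀ δ).mul hLk.meas) 1
    (fun v => ZV_prod_abs (ZV_chiR_abs v₀ δ hδ v) (ZV_e_abs hLk v)) E hE hsub
    (fun v hv => by rw [hLk.off v hv, mul_zero]) hζ h
  set T : ℝ := Real.exp (hL * c1 - hR * c2) with hTdef
  have hT0 : 0 < T := Real.exp_pos _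
  have hT : Tendsto (Tf v₀ δ e hL hR) (𝓝[ball (0 : ℂ) 1] ζ) (𝓝 (T : ℂ)) := by
    have h3 : Tendsto (fun z => (hL:ℂ) * Cv (fun v => chiL v₀ δ v * e v) z -
        hR * Cv (fun v => chiR v₀ δ v * e v) z) (𝓝[ball (0 : ℂ) 1] ζ)
        (𝓝 ((hL:ℂ) * c1 - hR * c2)) := (h1.const_mul _).sub (h2.const_mul _)
    have h4 := (Complex.continuous_exp.tendsto ((hL:ℂ) * c1 - hR * c2)).comp h3
    have h5 : (T : ℂ) = Complex.exp ((hL:ℂ) * c1 - hR * c2) := by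
      rw [hTdef]
      push_cast
      rfl
    rw [h5]
    exact h4
  set s : ℝ := v₀ + ζ.re with hs
  have hs0 : s ≠ 0 := by
    intro h3
    apply h
    have : -ζ.re = v₀ := by rw [hs] at h3; linarith
    rw [this]
    exact hv₀
  have hζ0 : ζ ≠ 0 := by
    intro h3
    rw [h3, norm_zero] at hζ
    exact zero_ne_one hζ
  have hcc : ζ * conj ζ = 1 := by
    rw [Complex.mul_conj, Complex.normSq_eq_norm_sq, hζ]
    norm_num
  have hre : ζ + conj ζ = 2 * (ζ.re : ℂ) := by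
    rw [Complex.add_conj]
    push_cast
    ring
  have him : ζ - conj ζ = 2 * (ζ.im : ℂ) * Complex.I := by
    rw [Complex.sub_conj]
    push_cast
    ring
  have hden : ζ ^ 2 + 2 * v₀ * ζ + 1 = 2 * ζ * (s : ℂ) := by
    rw [hs]
    push_cast
    linear_combination ζ * hre - hcc
  have hden0 : ζ ^ 2 + 2 * v₀ * ζ + 1 ≠ 0 := by
    rw [hden]
    exact mul_ne_zero (mul_ne_zero two_ne_zero hζ0) (by exact_mod_cast hs0)
  have hsC : (s : ℂ) ≠ 0 := by exact_mod_cast hs0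
  constructor
  · refine ⟨T / 2, by positivity, ?_⟩
    have h3 : ContinuousAt (fun z : ℂ => z / (z ^ 2 + 2 * v₀ * z + 1)) ζ :=
      ContinuousAt.div (by fun_prop) (by fun_prop) hden0
    have h4 := (h3.tendsto.mono_left (nhdsWithin_le_nhds (s := ball (0:ℂ) 1))).mul hT
    have h5 : ζ / (ζ ^ 2 + 2 * v₀ * ζ + 1) * (T : ℂ) = ((T / 2 / s : ℝ) : ℂ) := by
      rw [hden]
      push_cast
      field_simp
    rw [h5] at h4
    exact h4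
  · refine ⟨T / (4 * s ^ 2), by positivity, ?_⟩
    have h3 : ContinuousAt (fun z : ℂ => (z ^ 2 - 1) * z /
        (2 * Complex.I * (z ^ 2 + 2 * v₀ * z + 1) ^ 2)) ζ :=
      ContinuousAt.div (by fun_prop) (by fun_prop)
        (mul_ne_zero (mul_ne_zero two_ne_zero Complex.I_ne_zero) (pow_ne_zero 2 hden0))
    have h4 := (h3.tendsto.mono_left (nhdsWithin_le_nhds (s := ball (0:ℂ) 1))).mul hT
    have h6 : ζ ^ 2 - 1 = ζ * (2 * (ζ.im : ℂ) * Complex.I) := by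
      linear_combination ζ * him + hcc
    have h5 : (ζ ^ 2 - 1) * ζ / (2 * Complex.I * (ζ ^ 2 + 2 * v₀ * ζ + 1) ^ 2) * (T : ℂ) =
        ((T / (4 * s ^ 2) * ζ.im : ℝ) : ℂ) := by
      rw [hden, h6]
      push_cast
      have hI := Complex.I_ne_zero
      field_simp
      ring
    rw [h5] at h4
    exact h4

end

end Pool.H90.VK
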