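import Pool.Agent.H90.VK.ZV

/-!
# ZVB : `ZV_b`, `ZV_a`, boundedness (proofs in the header of ZV)
-/

open MeasureTheory Set Filter Topology Metric
open scoped Real ENNReal ComplexConjugate

namespace Pool.H90.VK

noncomputable section

/-- from the upper half disc to the disc -/
lemma ZVB_ext (F : ℂ → ℂ) (hc : ContinuousOn F (ball (0 : ℂ) 1))
    (hconj : ∀ z, ‖F (conj z)‖ = ‖F z‖) (M : ℝ)
    (h : ∀ z ∈ ball (0 : ℂ) 1, 0 < z.im → ‖F z‖ ≤ M) : ∀ z ∈ ball (0 : ℂ) 1, ‖F z‖ ≤ M := by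
  intro z hz
  rcases lt_trichotomy z.im 0 with h0 | h0 | h0
  · rw [← hconj]
    refine h _ ?_ ?_
    · rw [mem_ball_zero_iff, RCLike.norm_conj]
      exact mem_ball_zero_iff.1 hz
    · rw [Complex.conj_im]
      linarith
  · have hca : ContinuousAt F z := hc.continuousAt (isOpen_ball.mem_nhds hz)
    have ht : Tendsto (fun η : ℝ => z + η * Complex.I) (𝓝[>] 0) (𝓝 z) := by
      have h1 : Continuous fun η : ℝ => z + η * Complex.I := by fun_prop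
      have h2 := h1.tendsto 0
      simp only [Complex.ofReal_zero, zero_mul, add_zero] at h2
      exact h2.mono_left nhdsWithin_le_nhds
    have hb : ∀ᶠ η : ℝ in 𝓝[>] 0, z + η * Complex.I ∈ ball (0 : ℂ) 1 :=
      ht.eventually (isOpen_ball.mem_nhds hz)
    refine le_of_tendsto ((hca.tendsto.comp ht).norm) ?_
    filter_upwards [hb, self_mem_nhdsWithin] with η hη hη0
    refine h _ hη ?_
    have hη1 : 0 < η := hη0
    simp [h0, hη1]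
  · exact h z hz h0

/-- the bound for `Tf` in the upper half disc -/
lemma ZVB_Tf {E : Set ℝ} {v₀ : ℝ} {e : ℝ → ℝ} (hLk : Lock E v₀ e)
    (δ : ℝ) (hδ : 0 < δ) (h1 : -1 ≤ v₀ - δ) (h2 : v₀ + δ ≤ 1) (hL hR : ℝ)
    (pL : 0 ≤ hL) (pR : 0 ≤ hR) (κ : ℝ) (hκ : 0 < κ) (hsum : κ * π < hL + hR) :
    ∃ C : ℝ, ∀ z ∈ ball (0 : ℂ) 1, 0 < z.im →
      ‖Tf v₀ δ e hL hR z‖ ≤ Real.exp (-κ * max 0 (Real.log (1 / ‖uz z - v₀‖)) + C) := by
  have hS : 0 < hL + hR := lt_trans (mul_pos hκ Real.pi_pos) hsum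
  have hε : 0 < 1 - κ * π / (hL + hR) := by
    rw [sub_pos, div_lt_one hS]
    exact hsum
  obtain ⟨C1, hC1⟩ := ZK_left hLk δ hδ h1 h2 _ hε
  obtain ⟨C2, hC2⟩ := ZK_right hLk δ hδ h1 h2 _ hε
  refine ⟨(hL * C1 + hR * C2) / π, fun z hz hi => ?_⟩
  have hz1 : ‖z‖ < 1 := mem_ball_zero_iff.1 hz
  have hz0 : z ≠ 0 := by
    rintro rfl
    simp at hi
  have hu : 0 < (uz z).im := by
    rw [ZF_uz_im hz0]
    have h3 : 0 < ‖z‖ := norm_pos_iff.2 hz0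
    have h4 : 1 < 1 / ‖z‖ ^ 2 := by
      rw [lt_div_iff₀ (by positivity)]
      nlinarith
    have h5 : 0 < 1 / ‖z‖ ^ 2 - 1 := by linarith
    positivity
  have hCL := hC1 (uz z) hu
  have hCR := hC2 (uz z) hu
  set m := max 0 (Real.log (1 / ‖uz z - v₀‖)) with hm
  have eL := ZF_eq (fun v => chiL v₀ δ v * e v) hz1 hz0
  have eR := ZF_eq (fun v => chiR v₀ δ v * e v) hz1 hz0
  set IL := ∫ v in (-1 : ℝ)..1, ((chiL v₀ δ v * e v : ℝ) : ℂ) / (v - uz z) with hIL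
  set IR := ∫ v in (-1 : ℝ)..1, ((chiR v₀ δ v * e v : ℝ) : ℂ) / (v - uz z) with hIR
  have reL : (hL * Cv (fun v => chiL v₀ δ v * e v) z).re = hL * (IL.re / π) := by
    rw [eL, Complex.re_ofReal_mul]
    congr 1
    have h6 : (1 / (π : ℂ)) = ((1 / π : ℝ) : ℂ) := by push_cast; ring
    rw [h6, Complex.re_ofReal_mul]
    ring
  have reR : (hR * Cv (fun v => chiR v₀ δ v * e v) z).re = hR * (IR.re / π) := by
    rw [eR, Complex.re_ofReal_mul]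
    congr 1
    have h6 : (1 / (π : ℂ)) = ((1 / π : ℝ) : ℂ) := by push_cast; ring
    rw [h6, Complex.re_ofReal_mul]
    ring
  unfold Tf
  rw [Complex.norm_exp, Complex.sub_re, reL, reR]
  refine Real.exp_le_exp.2 ?_
  have h7 : hL * (IL.re / π) ≤ hL * ((-(1 - (1 - κ * π / (hL + hR))) * m + C1) / π) := by
    gcongr
  have h8 : hR * (((1 - (1 - κ * π / (hL + hR))) * m - C2) / π) ≤ hR * (IR.re / π) := by
    gcongr
  have h9 : hL * ((-(1 - (1 - κ * π / (hL + hR))) * m + C1) / π) -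
      hR * (((1 - (1 - κ * π / (hL + hR))) * m - C2) / π) = -κ * m + (hL * C1 + hR * C2) / π := by
    have hpi := Real.pi_ne_zero
    have hS' : hL + hR ≠ 0 := hS.ne'
    field_simp
    ring
  linarith

lemma ZVB_min {d : ℝ} (hd : 0 < d) : Real.exp (-max 0 (Real.log (1 / d))) = min 1 d := by
  rw [one_div, Real.log_inv]
  rcases le_total d 1 with h | h
  · rw [max_eq_right (by have := Real.log_nonpos hd.le h; linarith), neg_neg, Real.exp_log hd,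
      min_eq_right h]
  · rw [max_eq_left (by have := Real.log_nonneg h; linarith), neg_zero, Real.exp_zero,
      min_eq_left h]

/-- data at a point of the upper half disc -/
lemma ZVB_pt {v₀ : ℝ} (hv : v₀ ∈ Icc (-1 : ℝ) 1) {z : ℂ} (hz : z ∈ ball (0 : ℂ) 1)
    (hi : 0 < z.im) :
    0 < ‖uz z - v₀‖ ∧ ‖z / (z ^ 2 + 2 * v₀ * z + 1)‖ = 1 / (2 * ‖uz z - v₀‖) ∧
      ‖(z ^ 2 - 1) * z / (2 * Complex.I * (z ^ 2 + 2 * v₀ * z + 1) ^ 2)‖ ≤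
        (‖uz z - v₀‖ + 2) / (4 * ‖uz z - v₀‖ ^ 2) := by
  have hz1 : ‖z‖ < 1 := mem_ball_zero_iff.1 hz
  have hz0 : z ≠ 0 := by
    rintro rfl
    simp at hi
  obtain ⟨hk, hne⟩ := ZF_kv hz1 hz0 hv
  have hQ := ZF_ne hz1 hv
  have hd : ‖uz z - v₀‖ = ‖(v₀ : ℂ) - uz z‖ := norm_sub_rev _ _
  have hd0 : 0 < ‖uz z - v₀‖ := by
    rw [hd]
    exact norm_pos_iff.2 hne
  have e1 : z / (z ^ 2 + 2 * v₀ * z + 1) = kv v₀ z / 2 := by
    unfold kv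
    field_simp
  have n1 : ‖z / (z ^ 2 + 2 * v₀ * z + 1)‖ = 1 / (2 * ‖uz z - v₀‖) := by
    rw [e1, hk, norm_div, norm_div, hd]
    simp only [norm_one, Complex.norm_ofNat]
    field_simp
  refine ⟨hd0, n1, ?_⟩
  set D : ℂ := (z ^ 2 - 1) / (2 * Complex.I * z) with hD
  have e2 : (z ^ 2 - 1) * z / (2 * Complex.I * (z ^ 2 + 2 * v₀ * z + 1) ^ 2) =
      D * (z / (z ^ 2 + 2 * v₀ * z + 1)) ^ 2 := by
    rw [hD]
    have := Complex.I_ne_zero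
    field_simp
  have e3 : D ^ 2 = -(uz z ^ 2 - 1) := by
    rw [hD, uz, div_pow, mul_pow, mul_pow, Complex.I_sq]
    field_simp
    ring
  have n3 : ‖D‖ ≤ ‖uz z‖ + 1 := by
    have h4 : ‖D‖ ^ 2 ≤ (‖uz z‖ + 1) ^ 2 := by
      rw [← norm_pow, e3, norm_neg]
      calc ‖uz z ^ 2 - 1‖ ≤ ‖uz z ^ 2‖ + ‖(1 : ℂ)‖ := norm_sub_le _ _
        _ = ‖uz z‖ ^ 2 + 1 := by rw [norm_pow, norm_one]
        _ ≤ (‖uz z‖ + 1) ^ 2 := by nlinarith [norm_nonneg (uz z)]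
    exact le_of_sq_le_sq h4 (by positivity)
  have n4 : ‖uz z‖ ≤ ‖uz z - v₀‖ + 1 := by
    calc ‖uz z‖ = ‖(uz z - v₀) + v₀‖ := by rw [sub_add_cancel]
      _ ≤ ‖uz z - v₀‖ + ‖(v₀ : ℂ)‖ := norm_add_le _ _
      _ ≤ ‖uz z - v₀‖ + 1 := by
        gcongr
        rw [Complex.norm_real, Real.norm_eq_abs]
        exact abs_le.2 hv
  rw [e2, norm_mul, norm_pow, n1]
  calc ‖D‖ * (1 / (2 * ‖uz z - v₀‖)) ^ 2
      ≤ (‖uz z - v₀‖ + 2) * (1 / (2 * ‖uz z - v₀‖)) ^ 2 := by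
        gcongr
        linarith
    _ = (‖uz z - v₀‖ + 2) / (4 * ‖uz z - v₀‖ ^ 2) := by
        field_simp
        ring

theorem ZV_b {E : Set ℝ} {v₀ : ℝ} {e : ℝ → ℝ} (hLk : Lock E v₀ e) (hsub : E ⊆ Ioo (-1) 1)
    (hv₀ : v₀ ∈ E) (δ : ℝ) (hδ : 0 < δ) (h1 : -1 ≤ v₀ - δ) (h2 : v₀ + δ ≤ 1) (hL hR : ℝ)
    (pL : 0 ≤ hL) (pR : 0 ≤ hR) (hsum : π < hL + hR) :
    ∃ M : ℝ, ∀ z ∈ ball (0 : ℂ) 1, ‖Vb v₀ δ e hL hR z‖ ≤ M := by
  have hv := hsub hv₀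
  obtain ⟨C, hC⟩ := ZVB_Tf hLk δ hδ h1 h2 hL hR pL pR 1 one_pos (by linarith)
  refine ⟨Real.exp C, ZVB_ext _ (ZV_diff hLk hv δ hδ hL hR).1.continuousOn (fun z => ?_) _
    fun z hz hi => ?_⟩
  · rw [(ZV_conj v₀ δ e hL hR z).1, RCLike.norm_conj]
  obtain ⟨hd, n1, -⟩ := ZVB_pt ⟨hv.1.le, hv.2.le⟩ hz hi
  have hT := hC z hz hi
  rw [neg_one_mul, Real.exp_add, ZVB_min hd] at hT
  unfold Vb
  rw [norm_mul, n1]
  calc 1 / (2 * ‖uz z - v₀‖) * ‖Tf v₀ δ e hL hR z‖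
      ≤ 1 / (2 * ‖uz z - v₀‖) * (min 1 ‖uz z - v₀‖ * Real.exp C) := by gcongr
    _ ≤ 1 / (2 * ‖uz z - v₀‖) * (‖uz z - v₀‖ * Real.exp C) := by
        gcongr
        exact min_le_right _ _
    _ = Real.exp C / 2 := by
        field_simp
    _ ≤ Real.exp C := by linarith [Real.exp_pos C]

theorem ZV_a {E : Set ℝ} {v₀ : ℝ} {e : ℝ → ℝ} (hLk : Lock E v₀ e) (hsub : E ⊆ Ioo (-1) 1)
    (hv₀ : v₀ ∈ E) (δ : ℝ) (hδ : 0 < δ) (h1 : -1 ≤ v₀ - δ) (h2 : v₀ + δ ≤ 1) (hL hR : ℝ)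
    (pL : 0 ≤ hL) (pR : 0 ≤ hR) (hsum : 2 * π < hL + hR) :
    ∃ M : ℝ, ∀ z ∈ ball (0 : ℂ) 1, ‖Va v₀ δ e hL hR z‖ ≤ M := by
  have hv := hsub hv₀
  obtain ⟨C, hC⟩ := ZVB_Tf hLk δ hδ h1 h2 hL hR pL pR 2 two_pos hsum
  refine ⟨Real.exp C, ZVB_ext _ (ZV_diff hLk hv δ hδ hL hR).2.continuousOn (fun z => ?_) _
    fun z hz hi => ?_⟩
  · rw [(ZV_conj v₀ δ e hL hR z).2, norm_neg, RCLike.norm_conj]
  obtain ⟨hd, -, n2⟩ := ZVB_pt ⟨hv.1.le, hv.2.le⟩ hz hi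
  have hT := hC z hz hi
  have h3 : -2 * max 0 (Real.log (1 / ‖uz z - v₀‖)) + C =
      -max 0 (Real.log (1 / ‖uz z - v₀‖)) + -max 0 (Real.log (1 / ‖uz z - v₀‖)) + C := by ring
  rw [h3, Real.exp_add, Real.exp_add, ZVB_min hd] at hT
  set d := ‖uz z - v₀‖ with hdd
  unfold Va
  rw [norm_mul]
  have h4 : (d + 2) / (4 * d ^ 2) * (min 1 d * min 1 d) ≤ 1 := by
    have hm0 : 0 < min 1 d := lt_min one_pos hd
    rw [div_mul_eq_mul_div, div_le_one (by positivity)]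
    rcases le_total d 1 with h | h
    · rw [min_eq_right h]
      nlinarith [mul_pos hd hd]
    · rw [min_eq_left h]
      nlinarith
  calc ‖(z ^ 2 - 1) * z / (2 * Complex.I * (z ^ 2 + 2 * v₀ * z + 1) ^ 2)‖ *
        ‖Tf v₀ δ e hL hR z‖
      ≤ (d + 2) / (4 * d ^ 2) * (min 1 d * min 1 d * Real.exp C) := by gcongr
    _ = (d + 2) / (4 * d ^ 2) * (min 1 d * min 1 d) * Real.exp C := by ring
    _ ≤ 1 * Real.exp C := by
        gcongr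
    _ = Real.exp C := one_mul _

end

end Pool.H90.VK
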