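import Pool.Agent.H90.VK.ZQ
import Pool.Agent.H90.VK.ZVB
import Pool.Agent.H90.VK.ZP

/-!
# ZX0 : symmetry and monotonicity for `p` with `i z p' = Vb` or `Va`

Let `p` be analytic on the disc, `p(0) = 0`, `i z p'(z) = V(z)`.
* `V = Vb`: `V(conj z) = conj V(z)` (`ZV_conj`), so `p̃(z) = -conj (p(conj z))` has the same derivative and
  value at 0: `p(conj z) = -conj (p z)`, `Im p(conj z) = Im p(z)`.
* `V = Va`: `V(conj z) = -conj V(z)`, so `p(conj z) = conj (p z)`; `Im p(x) = 0` for real `x`.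
* (`Vb`, `0 ≤ hL, hR ≤ π`) `Im p(re^{iθ})` is nondecreasing in `θ ∈ [0,π]` (`ZP_polar`, `ZQ_range`).
* (`Vb`) `∫_0^π Im p(re^{iθ}) dθ = 0` (`ZP_mean`, `Im p` even).
-/

open MeasureTheory Set Filter Topology Metric
open scoped Real ENNReal ComplexConjugate

namespace Pool.H90.VK

noncomputable section

/-- `p` is the normalised solution of `i z p' = V` on the disc -/
structure IsP (V p : ℂ → ℂ) : Prop where
  diff : DifferentiableOn ℂ p (ball (0 : ℂ) 1)
  zero : p 0 = 0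
  eq : ∀ z ∈ ball (0 : ℂ) 1, Complex.I * z * deriv p z = V z

theorem ZX0_uniq {p q : ℂ → ℂ} (hp : DifferentiableOn ℂ p (ball (0 : ℂ) 1))
    (hq : DifferentiableOn ℂ q (ball (0 : ℂ) 1)) (h0 : p 0 = q 0)
    (h : ∀ z ∈ ball (0 : ℂ) 1, Complex.I * z * deriv p z = Complex.I * z * deriv q z) :
    ∀ z ∈ ball (0 : ℂ) 1, p z = q z := by
  have hm : (0 : ℂ) ∈ ball (0 : ℂ) 1 := mem_ball_self one_pos
  have hne : ∀ z ∈ ball (0 : ℂ) 1, z ≠ 0 → deriv p z = deriv q z := fun z hz hz0 =>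
    mul_left_cancel₀ (mul_ne_zero Complex.I_ne_zero hz0) (h z hz)
  have hE : EqOn (deriv p) (deriv q) (ball (0 : ℂ) 1) := by
    intro z hz
    by_cases hz0 : z = 0
    · subst hz0
      have c1 : Tendsto (deriv p) (𝓝[≠] 0) (𝓝 (deriv p 0)) :=
        ((hp.deriv isOpen_ball).continuousOn.continuousAt (isOpen_ball.mem_nhds hm)).tendsto.mono_left
          nhdsWithin_le_nhds
      have c2 : Tendsto (deriv q) (𝓝[≠] 0) (𝓝 (deriv q 0)) :=
        ((hq.deriv isOpen_ball).continuousOn.continuousAt (isOpen_ball.mem_nhds hm)).tendsto.mono_left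
          nhdsWithin_le_nhds
      refine tendsto_nhds_unique_of_eventuallyEq c1 c2 ?_
      have h1 : ball (0 : ℂ) 1 ∈ 𝓝[≠] (0 : ℂ) := nhdsWithin_le_nhds (isOpen_ball.mem_nhds hm)
      filter_upwards [h1, self_mem_nhdsWithin] with w hw hw0
      exact hne w hw hw0
    · exact hne z hz hz0
  exact isOpen_ball.eqOn_of_deriv_eq (convex_ball _ _).isPreconnected hp hq hE hm h0

theorem ZX0_cmem {z : ℂ} (hz : z ∈ ball (0 : ℂ) 1) : conj z ∈ ball (0 : ℂ) 1 := by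
  rw [mem_ball_zero_iff] at hz ⊢
  rwa [RCLike.norm_conj]

theorem ZX0_cdiff {p : ℂ → ℂ} (hp : DifferentiableOn ℂ p (ball (0 : ℂ) 1)) :
    DifferentiableOn ℂ (fun z => conj (p (conj z))) (ball (0 : ℂ) 1) := by
  intro z hz
  have h1 : DifferentiableAt ℂ p (conj z) :=
    (hp _ (ZX0_cmem hz)).differentiableAt (isOpen_ball.mem_nhds (ZX0_cmem hz))
  have h2 : DifferentiableAt ℂ (conj ∘ p ∘ conj) z := differentiableAt_conj_conj_iff.2 h1
  exact h2.differentiableWithinAt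

theorem ZX0_cderiv (p : ℂ → ℂ) (z : ℂ) :
    deriv (fun z => conj (p (conj z))) z = conj (deriv p (conj z)) := by
  have h := congrFun (deriv_conj_conj (f := p)) z
  exact h

theorem ZX0_conj_b {v₀ δ : ℝ} {e : ℝ → ℝ} {hL hR : ℝ} {p : ℂ → ℂ}
    (hp : IsP (Vb v₀ δ e hL hR) p) : ∀ z ∈ ball (0 : ℂ) 1, p (conj z) = -conj (p z) := by
  have hq : DifferentiableOn ℂ (fun z => -conj (p (conj z))) (ball (0 : ℂ) 1) :=
    (ZX0_cdiff hp.diff).neg
  have hd : ∀ z, deriv (fun z => -conj (p (conj z))) z = -conj (deriv p (conj z)) := by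
    intro z
    have h1 : deriv (fun z => -conj (p (conj z))) z = -deriv (fun z => conj (p (conj z))) z :=
      deriv.fun_neg
    rw [h1, ZX0_cderiv]
  have h := ZX0_uniq hp.diff hq (by simp [hp.zero]) (fun z hz => by
    rw [hd, hp.eq z hz]
    have h2 := hp.eq _ (ZX0_cmem hz)
    rw [(ZV_conj v₀ δ e hL hR z).1] at h2
    have h3 := congrArg conj h2
    rw [Complex.conj_conj, map_mul, map_mul, Complex.conj_conj, Complex.conj_I] at h3
    rw [← h3]
    ring)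
  intro z hz
  have h1 := h _ (ZX0_cmem hz)
  simp only [Complex.conj_conj] at h1
  exact h1

theorem ZX0_conj_a {v₀ δ : ℝ} {e : ℝ → ℝ} {hL hR : ℝ} {p : ℂ → ℂ}
    (hp : IsP (Va v₀ δ e hL hR) p) : ∀ z ∈ ball (0 : ℂ) 1, p (conj z) = conj (p z) := by
  have hq : DifferentiableOn ℂ (fun z => conj (p (conj z))) (ball (0 : ℂ) 1) :=
    ZX0_cdiff hp.diff
  have h := ZX0_uniq hp.diff hq (by simp [hp.zero]) (fun z hz => by
    rw [ZX0_cderiv, hp.eq z hz]
    have h2 := hp.eq _ (ZX0_cmem hz)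
    rw [(ZV_conj v₀ δ e hL hR z).2] at h2
    have h3 := congrArg conj h2
    rw [map_neg, Complex.conj_conj, map_mul, map_mul, Complex.conj_conj, Complex.conj_I] at h3
    linear_combination h3)
  intro z hz
  have h1 := h _ (ZX0_cmem hz)
  simp only [Complex.conj_conj] at h1
  exact h1

theorem ZX0_pt {r : ℝ} (hr0 : 0 ≤ r) (hr1 : r < 1) (θ : ℝ) :
    (r * Complex.exp (θ * Complex.I) : ℂ) ∈ ball (0 : ℂ) 1 := by
  rw [mem_ball_zero_iff, norm_mul, Complex.norm_exp_ofReal_mul_I, mul_one, Complex.norm_real,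
    Real.norm_eq_abs, abs_of_nonneg hr0]
  exact hr1

theorem ZX0_cont {f : ℂ → ℂ} (hf : DifferentiableOn ℂ f (ball (0 : ℂ) 1)) {r : ℝ} (hr0 : 0 ≤ r)
    (hr1 : r < 1) : Continuous fun θ : ℝ => f (r * Complex.exp (θ * Complex.I)) := by
  rw [← continuousOn_univ]
  refine hf.continuousOn.comp (f := fun θ : ℝ => (r * Complex.exp (θ * Complex.I) : ℂ)) ?_
    fun θ _ => ZX0_pt hr0 hr1 θ
  exact (by fun_prop : Continuous fun θ : ℝ => (r * Complex.exp (θ * Complex.I) : ℂ)).continuousOn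

theorem ZX0_im {f : ℝ → ℂ} (hf : Continuous f) (a b : ℝ) :
    (∫ θ in a..b, f θ).im = ∫ θ in a..b, (f θ).im := by
  have h := Complex.imCLM.intervalIntegral_comp_comm (hf.intervalIntegrable (μ := volume) a b)
  exact h.symm

theorem ZX0_mono {E : Set ℝ} {v₀ : ℝ} {e : ℝ → ℝ} (hLk : Lock E v₀ e)
    (hv₀ : v₀ ∈ Ioo (-1 : ℝ) 1) {δ : ℝ} (hδ : 0 < δ) {hL hR : ℝ} (pL : 0 ≤ hL) (pR : 0 ≤ hR)
    (lL : hL ≤ π) (lR : hR ≤ π) {p : ℂ → ℂ} (hp : IsP (Vb v₀ δ e hL hR) p) {r : ℝ} (hr0 : 0 ≤ r)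
    (hr1 : r < 1) {θ₁ θ₂ : ℝ} (h1 : 0 ≤ θ₁) (h12 : θ₁ ≤ θ₂) (h2 : θ₂ ≤ π) :
    (p (r * Complex.exp (θ₁ * Complex.I))).im ≤ (p (r * Complex.exp (θ₂ * Complex.I))).im := by
  have hV := (ZV_diff hLk hv₀ δ hδ hL hR).1
  have hpol := ZP_polar _ p hV hp.diff hp.eq hr0 hr1 θ₁ θ₂
  have him := congrArg Complex.im hpol
  rw [ZX0_im (ZX0_cont hV hr0 hr1), Complex.sub_im] at him
  have hreal : ∀ z : ℂ, conj z = z → 0 ≤ (Vb v₀ δ e hL hR z).im := by
    intro z hz
    have h3 := (ZV_conj v₀ δ e hL hR z).1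
    rw [hz] at h3
    exact (Complex.conj_eq_iff_im.1 h3.symm).ge
  have hpos : 0 ≤ ∫ θ in θ₁..θ₂, (Vb v₀ δ e hL hR (r * Complex.exp (θ * Complex.I))).im := by
    refine intervalIntegral.integral_nonneg h12 fun θ hθ => ?_
    have him1 : (r * Complex.exp (θ * Complex.I) : ℂ).im = r * Real.sin θ := by
      rw [Complex.im_ofReal_mul, Complex.exp_ofReal_mul_I_im]
    by_cases h0 : 0 < (r * Complex.exp (θ * Complex.I) : ℂ).im
    · exact (ZQ_range hLk hv₀ δ hδ hL hR pL pR lL lR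
        (mem_ball_zero_iff.1 (ZX0_pt hr0 hr1 θ)) h0).2.2
    · apply hreal
      rw [Complex.conj_eq_iff_im]
      have h4 : 0 ≤ Real.sin θ :=
        Real.sin_nonneg_of_nonneg_of_le_pi (h1.trans hθ.1) (hθ.2.trans h2)
      have h5 : 0 ≤ r * Real.sin θ := mul_nonneg hr0 h4
      rw [← him1] at h5
      exact le_antisymm (not_lt.1 h0) h5
  linarith

theorem ZX0_mean {v₀ δ : ℝ} {e : ℝ → ℝ} {hL hR : ℝ} {p : ℂ → ℂ}
    (hp : IsP (Vb v₀ δ e hL hR) p) {r : ℝ} (hr0 : 0 ≤ r) (hr1 : r < 1) :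
    ∫ θ in (0 : ℝ)..π, (p (r * Complex.exp (θ * Complex.I))).im = 0 := by
  have hm := congrArg Complex.im (ZP_mean p hp.diff hp.zero hr0 hr1)
  have hc := ZX0_cont hp.diff hr0 hr1
  rw [ZX0_im hc, Complex.zero_im] at hm
  have hci : Continuous fun θ : ℝ => (p (r * Complex.exp (θ * Complex.I))).im :=
    Complex.continuous_im.comp hc
  have hsplit := intervalIntegral.integral_add_adjacent_intervals
    (hci.intervalIntegrable (μ := volume) 0 π) (hci.intervalIntegrable (μ := volume) π (2 * π))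
  have hsub : ∫ θ in (0 : ℝ)..π, (p (r * Complex.exp ((2 * π - θ : ℝ) * Complex.I))).im =
      ∫ θ in π..(2 * π), (p (r * Complex.exp (θ * Complex.I))).im := by
    have h := intervalIntegral.integral_comp_sub_left (a := (0:ℝ)) (b := π)
      (fun θ : ℝ => (p (r * Complex.exp (θ * Complex.I))).im) (2 * π)
    rw [h]
    congr 1 <;> ring
  have heq : ∀ θ : ℝ, (p (r * Complex.exp ((2 * π - θ : ℝ) * Complex.I))).im =
      (p (r * Complex.exp (θ * Complex.I))).im := by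
    intro θ
    have e1 : (r * Complex.exp ((2 * π - θ : ℝ) * Complex.I) : ℂ) =
        conj (r * Complex.exp (θ * Complex.I)) := by
      rw [map_mul, Complex.conj_ofReal, ← Complex.exp_conj, map_mul, Complex.conj_ofReal,
        Complex.conj_I]
      congr 1
      rw [Complex.exp_eq_exp_iff_exists_int]
      refine ⟨1, ?_⟩
      push_cast
      ring
    rw [e1, ZX0_conj_b hp _ (ZX0_pt hr0 hr1 θ)]
    simp
  have hsub2 : ∫ θ in (0 : ℝ)..π, (p (r * Complex.exp ((2 * π - θ : ℝ) * Complex.I))).im =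
      ∫ θ in (0 : ℝ)..π, (p (r * Complex.exp (θ * Complex.I))).im :=
    intervalIntegral.integral_congr fun θ _ => heq θ
  linarith

end

end Pool.H90.VK
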