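import Pool.Agent.H90.VK.ZX0
import Pool.Agent.H90.VK.ZVL
import Pool.Agent.H90.VK.ZVW
import Pool.Agent.H90.VK.ZQL

/-!
# ZX1 : `Im p > 0` at the lock point for `(hL, hR) = (π, κ)`, `κ` small

Let `τ = arccos (-v₀) ∈ (0,π)`, `V = Vb` with `hL = π`, `hR = κ ∈ (0,1]`, `V = |V| e^{iΘ}`, `Θ = phb ∈ [0,π]`
(`ZQ_phase`, `ZQ_range`), `|V| ≤ M_κ` (`ZV_b`), `∫_0^π |V(re^{iθ})| dθ ≤ C` for `r ≥ 1/2`, `C` independent
of `κ` (`ZVL_b`), `|V(re^{iθ})| ≥ c` on `ρ = {0 < θ < π : v₀ - 3δ/4 ≤ -cos θ ≤ v₀ - δ/4} = [θ_a, θ_b]` for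
`r > r₁` (`ZVL_low`), `c` independent of `κ`; `0 < θ_a < θ_b < τ`. Let `A_r(θ) = Im p(re^{iθ})`.
(1) `J(r) := A_r(θ_b) - A_r(θ_a) = ∫_ρ Im V(re^{iθ}) dθ ≥ c ∫_ρ sin Θ dθ ≥ c ∫_ρ sin(bdb) dθ - c∫_0^π|Θ - bdb|`,
 and on `ρ`: `bdb = π chiL(v) e(v)`, `chiL ∈ [1/4, 3/4]`, `sin x ≥ 0.3 x` on `[0, 3π/4]`, so
 `sin (bdb) ≥ 0.3 (π/4) e(v) ≥ 0.2 e(v)`, and `∫_ρ e(-cos θ) dθ ≥ ∫_{v₀-3δ/4}^{v₀-δ/4} e(v) dv ≥ δ/8`.
 So `liminf_{r→1} J(r) ≥ c δ/40 =: c₂ > 0` (`ZQ_b`), independent of `κ`.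
(2) `K(r) := A_r(π) - A_r(τ) = ∫_τ^π Im V(re^{iθ}) dθ ≤ ∫_τ^π |V| (π - Θ) dθ
 ≤ ∫_τ^π |V| (π - bdb) dθ + M_κ ∫_0^π |Θ - bdb| dθ`, `0 ≤ π - bdb ≤ κ` there, so
 `limsup K(r) ≤ κ C`.
(3) `A_r` is nondecreasing on `[0,π]` with integral 0 (`ZX0`):
 `0 = ∫_0^π A_r ≤ θ_a (A_r(τ) - J(r)) + (τ - θ_a) A_r(τ) + (π-τ)(A_r(τ) + K(r))`, so
 `π A_r(τ) ≥ θ_a J(r) - (π-τ) K(r)`. For `κ` with `π κ C ≤ θ_a c₂/4` this is `≥ θ_a c₂/2` for `r` near 1
 (`A_r(θ) ≤ A_r(θ_a) ≤ A_r(τ) - J(r)` for `θ ≤ θ_a`).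
The measurability/integrability needed is trivial (`V` continuous on the disc).
-/

open MeasureTheory Set Filter Topology Metric
open scoped Real ENNReal ComplexConjugate

namespace Pool.H90.VK

noncomputable section

private theorem ZX1_II (f : ℝ → ℝ) {a b : ℝ} (h : a ≤ b) :
    ∫ x in a..b, f x = ∫ x in Ioo a b, f x := by
  rw [intervalIntegral.integral_of_le h, integral_Ioc_eq_integral_Ioo]

private theorem ZX1_const (k : ℝ) {a b : ℝ} (h : a ≤ b) : ∫ _x in Ioo a b, k = (b - a) * k := by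
  rw [← ZX1_II (fun _ => k) h, intervalIntegral.integral_const, smul_eq_mul]

/-- the mean value inequality for a monotone function -/
private theorem ZX1_avg {A : ℝ → ℝ} (hA : Continuous A) {θa τ : ℝ} (h0 : 0 ≤ θa) (h1 : θa ≤ τ)
    (h2 : τ ≤ π) (hm : ∀ θ₁ θ₂, 0 ≤ θ₁ → θ₁ ≤ θ₂ → θ₂ ≤ π → A θ₁ ≤ A θ₂)
    (hint : ∫ θ in (0:ℝ)..π, A θ = 0) {J K : ℝ} (hJ : A θa ≤ A τ - J) (hK : A π ≤ A τ + K) :
    θa * J - (π - τ) * K ≤ π * A τ := by
  have hi : ∀ a b, IntervalIntegrable A volume a b := fun a b => hA.intervalIntegrable a b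
  have e1 : ∫ θ in (0:ℝ)..θa, A θ ≤ ∫ _θ in (0:ℝ)..θa, (A τ - J) :=
    intervalIntegral.integral_mono_on h0 (hi _ _) intervalIntegrable_const
      fun x hx => (hm x θa hx.1 hx.2 (h1.trans h2)).trans hJ
  have e2 : ∫ θ in θa..τ, A θ ≤ ∫ _θ in θa..τ, A τ :=
    intervalIntegral.integral_mono_on h1 (hi _ _) intervalIntegrable_const
      fun x hx => hm x τ (h0.trans hx.1) hx.2 h2
  have e3 : ∫ θ in τ..π, A θ ≤ ∫ _θ in τ..π, (A τ + K) :=
    intervalIntegral.integral_mono_on h2 (hi _ _) intervalIntegrable_const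
      fun x hx => (hm x π ((h0.trans h1).trans hx.1) hx.2 le_rfl).trans hK
  have e4 : ∫ θ in (0:ℝ)..π, A θ =
      (∫ θ in (0:ℝ)..θa, A θ) + (∫ θ in θa..τ, A θ) + ∫ θ in τ..π, A θ := by
    rw [intervalIntegral.integral_add_adjacent_intervals (hi _ _) (hi _ _),
      intervalIntegral.integral_add_adjacent_intervals (hi _ _) (hi _ _)]
  rw [intervalIntegral.integral_const, smul_eq_mul] at e1 e2 e3
  rw [hint] at e4
  nlinarith

private theorem ZX1_ball {r : ℝ} (hr0 : 0 ≤ r) (hr1 : r < 1) (θ : ℝ) :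
    (r : ℂ) * Complex.exp (θ * Complex.I) ∈ ball (0 : ℂ) 1 := by
  rw [mem_ball_zero_iff, norm_mul, Complex.norm_exp_ofReal_mul_I, mul_one, Complex.norm_real,
    Real.norm_eq_abs, abs_of_nonneg hr0]
  exact hr1

private theorem ZX1_im (r θ : ℝ) :
    ((r : ℂ) * Complex.exp (θ * Complex.I)).im = r * Real.sin θ := by
  rw [Complex.im_ofReal_mul, Complex.exp_ofReal_mul_I_im]

private theorem ZX1_cont {f : ℂ → ℂ} (hf : ContinuousOn f (ball (0 : ℂ) 1)) {r : ℝ} (hr0 : 0 ≤ r)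
    (hr1 : r < 1) : Continuous (fun θ : ℝ => f (r * Complex.exp (θ * Complex.I))) :=
  hf.comp_continuous (by fun_prop) (fun θ => ZX1_ball hr0 hr1 θ)

private theorem ZX1_ne {v₀ : ℝ} (hv₀ : v₀ ∈ Ioo (-1 : ℝ) 1) (δ : ℝ) (e : ℝ → ℝ) (hL hR : ℝ) {z : ℂ}
    (hz : ‖z‖ < 1) (h0 : z ≠ 0) : Vb v₀ δ e hL hR z ≠ 0 := by
  rw [Vb]
  exact mul_ne_zero (div_ne_zero h0 (ZF_ne hz ⟨hv₀.1.le, hv₀.2.le⟩)) (Complex.exp_ne_zero _)

/-- the phase as an argument -/
private theorem ZX1_phase {E : Set ℝ} {v₀ : ℝ} {e : ℝ → ℝ} (hLk : Lock E v₀ e)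
    (hv₀ : v₀ ∈ Ioo (-1 : ℝ) 1) (δ : ℝ) (hδ : 0 < δ) (hL hR : ℝ) (pL : 0 ≤ hL) (pR : 0 ≤ hR)
    (lL : hL ≤ π) (lR : hR ≤ π) {r θ : ℝ} (hr0 : 0 < r) (hr1 : r < 1) (h0 : 0 < θ) (h1 : θ < π) :
    phb v₀ δ e hL hR (r * Complex.exp (θ * Complex.I)) =
        Complex.arg (Vb v₀ δ e hL hR (r * Complex.exp (θ * Complex.I))) ∧
      0 ≤ Complex.arg (Vb v₀ δ e hL hR (r * Complex.exp (θ * Complex.I))) ∧
      Complex.arg (Vb v₀ δ e hL hR (r * Complex.exp (θ * Complex.I))) ≤ π ∧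
      (Vb v₀ δ e hL hR (r * Complex.exp (θ * Complex.I))).im =
        ‖Vb v₀ δ e hL hR (r * Complex.exp (θ * Complex.I))‖ *
          Real.sin (Complex.arg (Vb v₀ δ e hL hR (r * Complex.exp (θ * Complex.I)))) := by
  set z : ℂ := r * Complex.exp (θ * Complex.I) with hz
  have hzn : ‖z‖ < 1 := mem_ball_zero_iff.1 (ZX1_ball hr0.le hr1 θ)
  have hzi : 0 < z.im := by
    rw [hz, ZX1_im]
    exact mul_pos hr0 (Real.sin_pos_of_pos_of_lt_pi h0 h1)
  have hz0 : z ≠ 0 := by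
    intro h
    rw [h] at hzi
    simp at hzi
  have hV0 := ZX1_ne hv₀ δ e hL hR hzn hz0
  obtain ⟨hph, -⟩ := ZQ_phase hv₀ δ e hL hR hzn hzi
  obtain ⟨g0, g1, -⟩ := ZQ_range hLk hv₀ δ hδ hL hR pL pR lL lR hzn hzi
  have hpi := Real.pi_pos
  have harg : Complex.arg (Vb v₀ δ e hL hR z) = phb v₀ δ e hL hR z := by
    conv_lhs => rw [hph]
    rw [Complex.exp_mul_I]
    rw [← Complex.ofReal_cos, ← Complex.ofReal_sin]
    have := Complex.arg_mul_cos_add_sin_mul_I (norm_pos_iff.2 hV0)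
      (θ := phb v₀ δ e hL hR z) ⟨by linarith, g1⟩
    rw [← Complex.ofReal_cos, ← Complex.ofReal_sin] at this
    exact this
  rw [harg]
  refine ⟨rfl, g0, g1, ?_⟩
  conv_lhs => rw [hph]
  rw [Complex.im_ofReal_mul, Complex.exp_ofReal_mul_I_im]

private theorem ZX1_chiL (v₀ δ v : ℝ) (hδ : 0 < δ) : 0 ≤ chiL v₀ δ v ∧ chiL v₀ δ v ≤ 1 := by
  unfold chiL
  split_ifs with h
  · have h1 : 0 < (v₀ - v) / δ := div_pos (by linarith [h.2]) hδ
    have h2 : (v₀ - v) / δ < 1 := by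
      rw [div_lt_one hδ]
      linarith [h.1]
    constructor <;> linarith
  · exact ⟨le_rfl, zero_le_one⟩

private theorem ZX1_chiR (v₀ δ v : ℝ) (hδ : 0 < δ) : 0 ≤ chiR v₀ δ v ∧ chiR v₀ δ v ≤ 1 := by
  unfold chiR
  split_ifs with h
  · have h1 : 0 < (v - v₀) / δ := div_pos (by linarith [h.1]) hδ
    have h2 : (v - v₀) / δ < 1 := by
      rw [div_lt_one hδ]
      linarith [h.2]
    constructor <;> linarith
  · exact ⟨le_rfl, zero_le_one⟩

private theorem ZX1_bdb_meas {E : Set ℝ} {v₀ : ℝ} {e : ℝ → ℝ} (hLk : Lock E v₀ e) (δ hL hR : ℝ) :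
    Measurable (bdb v₀ δ e hL hR) := by
  have hc : Measurable (fun θ : ℝ => -Real.cos θ) := Real.measurable_cos.neg
  have he : Measurable (fun θ : ℝ => e (-Real.cos θ)) := hLk.meas.comp hc
  have h1 : Measurable (chiL v₀ δ) := by
    unfold chiL
    refine Measurable.ite ?_ (by fun_prop) measurable_const
    exact (measurableSet_lt measurable_const measurable_id).inter
      (measurableSet_lt measurable_id measurable_const)
  have h2 : Measurable (chiR v₀ δ) := by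
    unfold chiR
    refine Measurable.ite ?_ (by fun_prop) measurable_const
    exact (measurableSet_lt measurable_const measurable_id).inter
      (measurableSet_lt measurable_id measurable_const)
  unfold bdb
  refine Measurable.ite (measurableSet_lt hc measurable_const) ?_ ?_
  · exact ((measurable_const.mul (h1.comp hc))).mul he
  · exact measurable_const.sub (((measurable_const.mul (h2.comp hc))).mul he)

private theorem ZX1_bdb_bound {E : Set ℝ} {v₀ : ℝ} {e : ℝ → ℝ} (hLk : Lock E v₀ e) {δ : ℝ}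
    (hδ : 0 < δ) {κ : ℝ} (h0 : 0 ≤ κ) (h1 : κ ≤ 1) (θ : ℝ) : |bdb v₀ δ e π κ θ| ≤ π + 1 := by
  have hpi := Real.pi_pos
  obtain ⟨a1, a2⟩ := ZX1_chiL v₀ δ (-Real.cos θ) hδ
  obtain ⟨b1, b2⟩ := ZX1_chiR v₀ δ (-Real.cos θ) hδ
  have e1 := hLk.nonneg (-Real.cos θ)
  have e2 := hLk.le_one (-Real.cos θ)
  unfold bdb
  split_ifs with h
  · have h2 : 0 ≤ chiL v₀ δ (-Real.cos θ) * e (-Real.cos θ) := mul_nonneg a1 e1
    have h3 : chiL v₀ δ (-Real.cos θ) * e (-Real.cos θ) ≤ 1 := mul_le_one₀ a2 e1 e2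
    rw [mul_assoc, abs_of_nonneg (mul_nonneg hpi.le h2)]
    nlinarith
  · have h2 : 0 ≤ chiR v₀ δ (-Real.cos θ) * e (-Real.cos θ) := mul_nonneg b1 e1
    have h3 : chiR v₀ δ (-Real.cos θ) * e (-Real.cos θ) ≤ 1 := mul_le_one₀ b2 e1 e2
    have h4 : 0 ≤ κ * (chiR v₀ δ (-Real.cos θ) * e (-Real.cos θ)) := mul_nonneg h0 h2
    have h5 : κ * (chiR v₀ δ (-Real.cos θ) * e (-Real.cos θ)) ≤ 1 := mul_le_one₀ h1 h2 h3
    rw [mul_assoc, abs_le]
    constructor <;> linarith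

/-- lower bound of the sine of the boundary phase -/
private theorem ZX1_sinB {E : Set ℝ} {v₀ : ℝ} {e : ℝ → ℝ} (hLk : Lock E v₀ e) {δ : ℝ}
    (hδ : 0 < δ) (κ : ℝ) {θ : ℝ} (h1 : v₀ - 3 * δ / 4 ≤ -Real.cos θ)
    (h2 : -Real.cos θ ≤ v₀ - δ / 4) :
    e (-Real.cos θ) / 2 ≤ Real.sin (bdb v₀ δ e π κ θ) := by
  have hpi := Real.pi_pos
  have e1 := hLk.nonneg (-Real.cos θ)
  have e2 := hLk.le_one (-Real.cos θ)
  set v := -Real.cos θ with hv
  have hlt : v < v₀ := by linarith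
  have hchi : chiL v₀ δ v = 1 - (v₀ - v) / δ := by
    unfold chiL
    rw [if_pos ⟨by linarith, hlt⟩]
  have c1 : 1 / 4 ≤ chiL v₀ δ v := by
    rw [hchi]
    have : (v₀ - v) / δ ≤ 3 / 4 := by
      rw [div_le_iff₀ hδ]
      linarith
    linarith
  have c2 : chiL v₀ δ v ≤ 3 / 4 := by
    rw [hchi]
    have : 1 / 4 ≤ (v₀ - v) / δ := by
      rw [le_div_iff₀ hδ]
      linarith
    linarith
  have hB : bdb v₀ δ e π κ θ = e v * (π * chiL v₀ δ v) := by
    unfold bdb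
    rw [if_pos (by rw [← hv]; exact hlt), ← hv]
    ring
  rw [hB]
  set x := π * chiL v₀ δ v with hx
  have hx0 : 0 ≤ x := by rw [hx]; exact mul_nonneg hpi.le (by linarith)
  have hx1 : x ≤ π := by rw [hx]; nlinarith
  have hs1 : 1 / 2 ≤ Real.sin x := by
    have h3 : Real.sin x = Real.cos (x - π / 2) := by
      rw [← Real.cos_neg, neg_sub, Real.cos_pi_div_two_sub]
    rw [h3]
    refine le_trans ?_ (Real.one_sub_sq_div_two_le_cos (x := x - π / 2))
    have h4 : |x - π / 2| ≤ π / 4 := by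
      rw [hx, abs_le]
      constructor <;> nlinarith
    have h5 : (x - π / 2) ^ 2 ≤ (π / 4) ^ 2 := by
      rw [← sq_abs (x - π / 2)]
      exact pow_le_pow_left₀ (abs_nonneg _) h4 2
    have h6 := Real.pi_lt_d2
    nlinarith
  have hcc := strictConcaveOn_sin_Icc.concaveOn.2
    (show (0:ℝ) ∈ Set.Icc 0 π from ⟨le_rfl, hpi.le⟩)
    (show x ∈ Set.Icc 0 π from ⟨hx0, hx1⟩)
    (show (0:ℝ) ≤ 1 - e v by linarith) e1 (by ring)
  simp only [smul_eq_mul, mul_zero, Real.sin_zero, zero_add] at hcc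
  have h7 : e v * (1 / 2) ≤ e v * Real.sin x := mul_le_mul_of_nonneg_left hs1 e1
  linarith

/-- the change of variables `v = -cos θ` -/
private theorem ZX1_cov {E : Set ℝ} {v₀ : ℝ} {e : ℝ → ℝ} (hLk : Lock E v₀ e) {va vb : ℝ}
    (h1 : -1 < va) (h2 : va < vb) (h3 : vb < 1) :
    ∫ v in va..vb, e v ≤ ∫ θ in Ioo (Real.arccos (-va)) (Real.arccos (-vb)), e (-Real.cos θ) := by
  set θa := Real.arccos (-va) with hθa
  set θb := Real.arccos (-vb) with hθb
  have ca : Real.cos θa = -va := Real.cos_arccos (by linarith) (by linarith)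
  have cb : Real.cos θb = -vb := Real.cos_arccos (by linarith) (by linarith)
  have ha0 : 0 ≤ θa := Real.arccos_nonneg _
  have hbp : θb ≤ π := Real.arccos_le_pi _
  have himg : Ioo va vb = (fun θ => -Real.cos θ) '' Ioo θa θb := by
    ext v
    constructor
    · rintro ⟨g1, g2⟩
      refine ⟨Real.arccos (-v), ⟨?_, ?_⟩, ?_⟩
      · exact Real.strictAntiOn_arccos (a := -v) (b := -va) ⟨by linarith, by linarith⟩
          ⟨by linarith, by linarith⟩ (by linarith)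
      · exact Real.strictAntiOn_arccos (a := -vb) (b := -v) ⟨by linarith, by linarith⟩
          ⟨by linarith, by linarith⟩ (by linarith)
      · change -Real.cos (Real.arccos (-v)) = v
        rw [Real.cos_arccos (by linarith) (by linarith), neg_neg]
    · rintro ⟨θ, ⟨g1, g2⟩, rfl⟩
      have g3 : Real.cos θ < Real.cos θa :=
        Real.strictAntiOn_cos ⟨ha0, by linarith⟩ ⟨by linarith, by linarith⟩ g1
      have g4 : Real.cos θb < Real.cos θ :=
        Real.strictAntiOn_cos ⟨by linarith, by linarith⟩ ⟨by linarith, hbp⟩ g2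
      constructor
      · change va < -Real.cos θ
        linarith
      · change -Real.cos θ < vb
        linarith
  have hcov := integral_image_eq_integral_abs_deriv_smul (s := Ioo θa θb)
    (f := fun θ => -Real.cos θ) (f' := fun θ => Real.sin θ) measurableSet_Ioo
    (fun θ _ => by
      have := (Real.hasDerivAt_cos θ).neg
      rw [neg_neg] at this
      exact this.hasDerivWithinAt)
    (by
      intro x hx y hy hxy
      have hxy' : Real.cos x = Real.cos y := neg_injective hxy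
      exact Real.injOn_cos ⟨by linarith [hx.1], by linarith [hx.2]⟩
        ⟨by linarith [hy.1], by linarith [hy.2]⟩ hxy') e
  rw [ZX1_II e h2.le, himg, hcov]
  have hmeas : Measurable (fun θ : ℝ => e (-Real.cos θ)) := hLk.meas.comp Real.measurable_cos.neg
  have hb1 : ∀ θ, ‖e (-Real.cos θ)‖ ≤ 1 := fun θ => by
    rw [Real.norm_eq_abs, abs_of_nonneg (hLk.nonneg _)]
    exact hLk.le_one _
  have hint : IntegrableOn (fun θ : ℝ => e (-Real.cos θ)) (Ioo θa θb) volume :=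
    Measure.integrableOn_of_bounded (by simp) hmeas.aestronglyMeasurable
      (M := 1) (Eventually.of_forall hb1)
  have hint2 : IntegrableOn (fun θ : ℝ => |Real.sin θ| • e (-Real.cos θ)) (Ioo θa θb) volume := by
    refine Measure.integrableOn_of_bounded (by simp)
      ((Real.measurable_sin.abs.smul hmeas).aestronglyMeasurable) (M := 1)
      (Eventually.of_forall fun θ => ?_)
    rw [norm_smul, Real.norm_eq_abs, abs_abs]
    exact mul_le_one₀ (Real.abs_sin_le_one θ) (norm_nonneg _) (hb1 θ)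
  refine setIntegral_mono_on hint2 hint measurableSet_Ioo fun θ _ => ?_
  rw [smul_eq_mul]
  exact mul_le_of_le_one_left (hLk.nonneg _) (Real.abs_sin_le_one θ)

theorem ZX1 {E : Set ℝ} {v₀ : ℝ} {e : ℝ → ℝ} (hLk : Lock E v₀ e) (hsub : E ⊆ Ioo (-1) 1)
    (hv₀ : v₀ ∈ E) (δ : ℝ) (hδ : 0 < δ) (h1 : -1 < v₀ - δ) (h2 : v₀ + δ < 1)
    (hmass : δ / 8 ≤ ∫ v in (v₀ - 3 * δ / 4)..(v₀ - δ / 4), e v) :
    ∃ κ : ℝ, 0 < κ ∧ κ ≤ 1 ∧ ∀ p : ℂ → ℂ, IsP (Vb v₀ δ e π κ) p →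
      ∃ a : ℝ, 0 < a ∧ ∀ᶠ r : ℝ in 𝓝[<] 1,
        a ≤ (p (r * Complex.exp (Real.arccos (-v₀) * Complex.I))).im := by
  have hpi := Real.pi_pos
  have hpi3 := Real.pi_gt_three
  have hpi4 := Real.pi_lt_four
  have hv : v₀ ∈ Ioo (-1 : ℝ) 1 := hsub hv₀
  obtain ⟨C, hC⟩ := ZVL_b hLk hsub hv₀ δ hδ h1.le h2.le
  obtain ⟨c, r₁, hc, hr₁, hr₁', hlow⟩ := ZVL_low hLk hsub hv₀ δ hδ h1.le h2.le
  set τ := Real.arccos (-v₀) with hτ
  set θa := Real.arccos (-(v₀ - 3 * δ / 4)) with hθa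
  set θb := Real.arccos (-(v₀ - δ / 4)) with hθb
  have ca : Real.cos θa = -(v₀ - 3 * δ / 4) := Real.cos_arccos (by linarith) (by linarith)
  have cb : Real.cos θb = -(v₀ - δ / 4) := Real.cos_arccos (by linarith) (by linarith)
  have cτ : Real.cos τ = -v₀ := Real.cos_arccos (by linarith [hv.2]) (by linarith [hv.1])
  have ha0 : 0 < θa := Real.arccos_pos.2 (by linarith)
  have hab : θa < θb := Real.strictAntiOn_arccos (a := -(v₀ - δ / 4)) (b := -(v₀ - 3 * δ / 4))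
    ⟨by linarith, by linarith⟩ ⟨by linarith, by linarith⟩ (by linarith)
  have hbτ : θb < τ := Real.strictAntiOn_arccos (a := -v₀) (b := -(v₀ - δ / 4))
    ⟨by linarith [hv.2], by linarith [hv.1]⟩ ⟨by linarith, by linarith⟩ (by linarith)
  have hτπ : τ ≤ π := Real.arccos_le_pi _
  set C' := |C| + 1 with hC'
  have hC'pos : 0 < C' := by positivity
  have hCC' : C ≤ C' := by rw [hC']; linarith [le_abs_self C]
  set κ : ℝ := min 1 (θa * c * δ / (64 * π * C')) with hκdef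
  have hκ0 : 0 < κ := lt_min one_pos (by positivity)
  have hκ1 : κ ≤ 1 := min_le_left _ _
  have hκC : π * (κ * C') ≤ θa * c * δ / 64 := by
    have h3 : κ ≤ θa * c * δ / (64 * π * C') := min_le_right _ _
    rw [le_div_iff₀ (by positivity)] at h3
    rw [le_div_iff₀ (by norm_num)]
    nlinarith
  refine ⟨κ, hκ0, hκ1, fun p hp => ?_⟩
  obtain ⟨M, hM⟩ := ZV_b hLk hsub hv₀ δ hδ h1.le h2.le π κ hpi.le hκ0.le (by linarith)
  have hM0 : 0 ≤ M := (norm_nonneg _).trans (hM 0 (by simp))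
  have hη := ZQ_b hLk hv δ hδ π κ
  obtain ⟨hVd, -⟩ := ZV_diff hLk hv δ hδ π κ
  have hsmall : (0 : ℝ) < θa * c * δ / 64 / (θa * c + π * M) := by positivity
  have ev1 : ∀ᶠ r : ℝ in 𝓝[<] 1, ∫ θ in (0 : ℝ)..π,
      |phb v₀ δ e π κ (r * Complex.exp (θ * Complex.I)) - bdb v₀ δ e π κ θ| <
        θa * c * δ / 64 / (θa * c + π * M) := hη.eventually (gt_mem_nhds hsmall)
  have ev2 : ∀ᶠ r : ℝ in 𝓝[<] 1, r₁ < r := by
    filter_upwards [Ioo_mem_nhdsLT hr₁'] with r hr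
    exact hr.1
  have ev3 : ∀ᶠ r : ℝ in 𝓝[<] 1, r < 1 := eventually_mem_nhdsWithin
  refine ⟨θa * c * δ / (32 * π), by positivity, ?_⟩
  filter_upwards [ev1, ev2, ev3] with r hr1 hr2 hr3
  have hr0 : 0 < r := by linarith
  have hr12 : 1 / 2 ≤ r := by linarith
  -- the functions of the angle
  set W : ℝ → ℂ := fun θ => Vb v₀ δ e π κ (r * Complex.exp (θ * Complex.I)) with hW
  set A : ℝ → ℝ := fun θ => (p (r * Complex.exp (θ * Complex.I))).im with hA
  set G : ℝ → ℝ := fun θ => Complex.arg (W θ) with hG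
  set B : ℝ → ℝ := bdb v₀ δ e π κ with hB
  have hWc : Continuous W := ZX1_cont hVd.continuousOn hr0.le hr3
  have hAc : Continuous A := Complex.continuous_im.comp (ZX1_cont hp.diff.continuousOn hr0.le hr3)
  have hGm : Measurable G := Complex.measurable_arg.comp hWc.measurable
  have hBm : Measurable B := ZX1_bdb_meas hLk δ π κ
  have hphase := fun θ (h0 : 0 < θ) (hlt : θ < π) =>
    ZX1_phase hLk hv δ hδ π κ hpi.le hκ0.le le_rfl (by linarith) hr0 hr3 (θ := θ) h0 hlt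
  have hGBm : Measurable (fun θ => |G θ - B θ|) := (hGm.sub hBm).abs
  have hGBb : ∀ θ, ‖|G θ - B θ|‖ ≤ 2 * π + 1 := by
    intro θ
    rw [Real.norm_eq_abs, abs_abs]
    have g1 : |G θ| ≤ π := Complex.abs_arg_le_pi _
    have g2 : |B θ| ≤ π + 1 := ZX1_bdb_bound hLk hδ hκ0.le hκ1 θ
    have g3 := abs_sub (G θ) (B θ)
    linarith
  have hGBi : ∀ s : Set ℝ, s ⊆ Ioo 0 π → IntegrableOn (fun θ => |G θ - B θ|) s volume := by
    intro s hs
    refine IntegrableOn.mono_set ?_ hs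
    exact Measure.integrableOn_of_bounded (by simp) hGBm.aestronglyMeasurable
      (M := 2 * π + 1) (Eventually.of_forall hGBb)
  set η : ℝ := ∫ θ in Ioo (0 : ℝ) π, |G θ - B θ| with hηdef
  have hη0 : 0 ≤ η := integral_nonneg fun θ => abs_nonneg _
  have hη1 : η < θa * c * δ / 64 / (θa * c + π * M) := by
    rw [ZX1_II _ hpi.le] at hr1
    have h3 : η = ∫ θ in Ioo (0 : ℝ) π,
        |phb v₀ δ e π κ (r * Complex.exp (θ * Complex.I)) - bdb v₀ δ e π κ θ| := by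
      refine setIntegral_congr_fun measurableSet_Ioo fun θ hθ => ?_
      rw [(hphase θ hθ.1 hθ.2).1]
    rw [h3]
    exact hr1
  have hηs : ∀ s : Set ℝ, s ⊆ Ioo 0 π → ∫ θ in s, |G θ - B θ| ≤ η := by
    intro s hs
    exact setIntegral_mono_set (hGBi _ subset_rfl)
      (Eventually.of_forall fun θ => abs_nonneg _) (LE.le.eventuallyLE hs)
  have hpolar : ∀ a b, ∫ θ in a..b, (W θ).im = A b - A a := by
    intro a b
    have h3 := ZP_polar (Vb v₀ δ e π κ) p hVd hp.diff hp.eq hr0.le hr3 a b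
    have h4 := congrArg Complex.im h3
    rw [Complex.sub_im] at h4
    rw [← h4]
    have h6 : (∫ θ in a..b, W θ).im = ∫ θ in a..b, (W θ).im := by
      have h7 := (Complex.imCLM.intervalIntegral_comp_comm
        (hWc.intervalIntegrable (μ := volume) a b))
      exact h7.symm
    exact h6.symm
  -- J
  have hJ : c * (δ / 16) - c * η ≤ A θb - A θa := by
    have hsub1 : Ioo θa θb ⊆ Ioo 0 π := fun θ hθ =>
      ⟨ha0.trans hθ.1, hθ.2.trans (hbτ.trans_le hτπ)⟩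
    have hemeas : Measurable (fun θ : ℝ => e (-Real.cos θ)) :=
      hLk.meas.comp Real.measurable_cos.neg
    have heint : IntegrableOn (fun θ : ℝ => e (-Real.cos θ)) (Ioo θa θb) volume := by
      refine Measure.integrableOn_of_bounded (by simp) hemeas.aestronglyMeasurable
        (M := 1) (Eventually.of_forall fun θ => ?_)
      rw [Real.norm_eq_abs, abs_of_nonneg (hLk.nonneg _)]
      exact hLk.le_one _
    have h3 : ∫ θ in Ioo θa θb, (c / 2 * e (-Real.cos θ) - c * |G θ - B θ|) ≤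
        ∫ θ in Ioo θa θb, (W θ).im := by
      refine setIntegral_mono_on ((heint.const_mul _).sub ((hGBi _ hsub1).const_mul _))
        ((Complex.continuous_im.comp hWc).integrableOn_Icc.mono_set Ioo_subset_Icc_self)
        measurableSet_Ioo fun θ hθ => ?_
      have hθ' := hsub1 hθ
      obtain ⟨-, g0, g1, g2⟩ := hphase θ hθ'.1 hθ'.2
      have k1 : v₀ - 3 * δ / 4 ≤ -Real.cos θ := by
        have := Real.cos_le_cos_of_nonneg_of_le_pi ha0.le hθ'.2.le hθ.1.le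
        linarith
      have k2 : -Real.cos θ ≤ v₀ - δ / 4 := by
        have := Real.cos_le_cos_of_nonneg_of_le_pi hθ'.1.le (hbτ.le.trans hτπ) hθ.2.le
        linarith
      have k3 := ZX1_sinB hLk hδ κ k1 k2
      have k4 : c ≤ ‖W θ‖ := (hlow π κ hpi.le (by linarith) hκ0.le (by linarith) r hr2 hr3 θ hθ'
        (by rw [abs_of_nonpos (by linarith)]; linarith)
        (by rw [abs_of_nonpos (by linarith)]; linarith)).1
      have k5 : 0 ≤ Real.sin (G θ) := Real.sin_nonneg_of_nonneg_of_le_pi g0 g1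
      have k6 : Real.sin (B θ) - |G θ - B θ| ≤ Real.sin (G θ) := by
        have := abs_le.1 (Real.abs_sin_sub_sin_le (B θ) (G θ))
        have h7 : |B θ - G θ| = |G θ - B θ| := abs_sub_comm _ _
        linarith [this.2]
      have k7 : (W θ).im = ‖W θ‖ * Real.sin (G θ) := g2
      rw [k7]
      calc c / 2 * e (-Real.cos θ) - c * |G θ - B θ|
          = c * (e (-Real.cos θ) / 2 - |G θ - B θ|) := by ring
        _ ≤ c * Real.sin (G θ) := by
            apply mul_le_mul_of_nonneg_left _ hc.le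
            linarith
        _ ≤ _ := mul_le_mul_of_nonneg_right k4 k5
    have h4 : ∫ θ in Ioo θa θb, (c / 2 * e (-Real.cos θ) - c * |G θ - B θ|) =
        c / 2 * (∫ θ in Ioo θa θb, e (-Real.cos θ)) - c * ∫ θ in Ioo θa θb, |G θ - B θ| := by
      rw [integral_sub (heint.const_mul _) ((hGBi _ hsub1).const_mul _), integral_const_mul,
        integral_const_mul]
    have h5 : δ / 8 ≤ ∫ θ in Ioo θa θb, e (-Real.cos θ) :=
      hmass.trans (ZX1_cov hLk (by linarith) (by linarith) (by linarith))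
    have h6 := hηs _ hsub1
    rw [← hpolar, ZX1_II _ hab.le]
    rw [h4] at h3
    have h7 : c / 2 * (δ / 8) ≤ c / 2 * (∫ θ in Ioo θa θb, e (-Real.cos θ)) :=
      mul_le_mul_of_nonneg_left h5 (by positivity)
    have h8 : c * (∫ θ in Ioo θa θb, |G θ - B θ|) ≤ c * η := mul_le_mul_of_nonneg_left h6 hc.le
    linarith
  -- K
  have hK : A π - A τ ≤ κ * C' + M * η := by
    have hτ0 : 0 < τ := ha0.trans (hab.trans hbτ)
    have hsub1 : Ioo τ π ⊆ Ioo 0 π := fun θ hθ => ⟨hτ0.trans hθ.1, hθ.2⟩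
    have hWi : IntegrableOn (fun θ => ‖W θ‖) (Ioo τ π) volume :=
      (hWc.norm).integrableOn_Icc.mono_set Ioo_subset_Icc_self
    have hWi0 : IntegrableOn (fun θ => ‖W θ‖) (Ioo 0 π) volume :=
      (hWc.norm).integrableOn_Icc.mono_set Ioo_subset_Icc_self
    have h3 : ∫ θ in Ioo τ π, (W θ).im ≤ ∫ θ in Ioo τ π, (κ * ‖W θ‖ + M * |G θ - B θ|) := by
      refine setIntegral_mono_on
        ((Complex.continuous_im.comp hWc).integrableOn_Icc.mono_set Ioo_subset_Icc_self)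
        ((hWi.const_mul _).add ((hGBi _ hsub1).const_mul _)) measurableSet_Ioo fun θ hθ => ?_
      have hθ' := hsub1 hθ
      obtain ⟨-, g0, g1, g2⟩ := hphase θ hθ'.1 hθ'.2
      have k7 : (W θ).im = ‖W θ‖ * Real.sin (G θ) := g2
      have hMθ : ‖W θ‖ ≤ M := hM _ (ZX1_ball hr0.le hr3 θ)
      have k1 : Real.sin (G θ) ≤ π - G θ := by
        rw [← Real.sin_pi_sub]
        exact Real.sin_le (sub_nonneg.2 g1)
      have k2 : π - B θ ≤ κ := by
        have hge : ¬ (-Real.cos θ < v₀) := by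
          have := Real.cos_le_cos_of_nonneg_of_le_pi hτ0.le hθ'.2.le hθ.1.le
          rw [not_lt]
          linarith
        have hBθ : B θ = π - κ * chiR v₀ δ (-Real.cos θ) * e (-Real.cos θ) := by
          rw [hB]
          unfold bdb
          rw [if_neg hge]
        obtain ⟨b1, b2⟩ := ZX1_chiR v₀ δ (-Real.cos θ) hδ
        have h8 : chiR v₀ δ (-Real.cos θ) * e (-Real.cos θ) ≤ 1 :=
          mul_le_one₀ b2 (hLk.nonneg _) (hLk.le_one _)
        rw [hBθ]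
        nlinarith
      have k3 : π - G θ ≤ κ + |G θ - B θ| := by
        have := neg_abs_le (G θ - B θ)
        linarith
      rw [k7]
      calc ‖W θ‖ * Real.sin (G θ) ≤ ‖W θ‖ * (κ + |G θ - B θ|) :=
            mul_le_mul_of_nonneg_left (k1.trans k3) (norm_nonneg _)
        _ = κ * ‖W θ‖ + ‖W θ‖ * |G θ - B θ| := by ring
        _ ≤ _ := by
            gcongr
    have h4 : ∫ θ in Ioo τ π, (κ * ‖W θ‖ + M * |G θ - B θ|) =
        κ * (∫ θ in Ioo τ π, ‖W θ‖) + M * ∫ θ in Ioo τ π, |G θ - B θ| := by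
      rw [integral_add (hWi.const_mul _) ((hGBi _ hsub1).const_mul _), integral_const_mul,
        integral_const_mul]
    have h5 : ∫ θ in Ioo τ π, ‖W θ‖ ≤ C' := by
      have h6 : ∫ θ in Ioo τ π, ‖W θ‖ ≤ ∫ θ in Ioo 0 π, ‖W θ‖ :=
        setIntegral_mono_set hWi0 (Eventually.of_forall fun θ => norm_nonneg _)
          (LE.le.eventuallyLE hsub1)
      have h7 := hC π κ hpi.le (by linarith) hκ0.le (by linarith) (by linarith) r hr12 hr3
      rw [ZX1_II _ hpi.le] at h7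
      exact (h6.trans h7).trans hCC'
    have h6 := hηs _ hsub1
    rw [← hpolar, ZX1_II _ hτπ]
    rw [h4] at h3
    have h7 : κ * (∫ θ in Ioo τ π, ‖W θ‖) ≤ κ * C' := mul_le_mul_of_nonneg_left h5 hκ0.le
    have h8 : M * (∫ θ in Ioo τ π, |G θ - B θ|) ≤ M * η := mul_le_mul_of_nonneg_left h6 hM0
    linarith
  have hmono : ∀ θ₁ θ₂, 0 ≤ θ₁ → θ₁ ≤ θ₂ → θ₂ ≤ π → A θ₁ ≤ A θ₂ := fun θ₁ θ₂ g1 g2 g3 =>
    ZX0_mono hLk hv hδ hpi.le hκ0.le le_rfl (by linarith) hp hr0.le hr3 g1 g2 g3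
  have hmean : ∫ θ in (0:ℝ)..π, A θ = 0 := ZX0_mean hp hr0.le hr3
  have hbA : A θb ≤ A τ := hmono _ _ (ha0.trans hab).le hbτ.le hτπ
  have havg := ZX1_avg hAc ha0.le (hab.trans hbτ).le hτπ hmono hmean
    (J := c * (δ / 16) - c * η) (K := κ * C' + M * η) (by linarith) (by linarith)
  have hKnn : 0 ≤ κ * C' + M * η := by positivity
  have hτ0 : 0 ≤ τ := (ha0.trans (hab.trans hbτ)).le
  have h3 : (π - τ) * (κ * C' + M * η) ≤ π * (κ * C' + M * η) :=
    mul_le_mul_of_nonneg_right (by linarith) hKnn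
  have h4 : η * (θa * c + π * M) < θa * c * δ / 64 := by
    rwa [lt_div_iff₀ (by positivity)] at hη1
  have h5 : θa * c * δ / 32 ≤ π * A τ := by nlinarith
  change θa * c * δ / (32 * π) ≤ A τ
  rw [div_le_iff₀ (by positivity)]
  nlinarith

end

end Pool.H90.VK
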